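import Mathlib

open Module Finset

namespace H5Ad

section
variable {R : Type} [CommRing R] {d : ℕ} (b : Basis (Fin d) ℤ R)

noncomputable def nu (x : R) : ℕ := Finset.univ.sup fun i => (b.repr x i).natAbs

lemma nu_le_iff (x : R) (S : ℕ) : nu b x ≤ S ↔ ∀ i, (b.repr x i).natAbs ≤ S := by
  simp [nu, Finset.sup_le_iff]

lemma le_nu (x : R) (i : Fin d) : (b.repr x i).natAbs ≤ nu b x := (nu_le_iff b x _).1 le_rfl i

lemma nu_add (x y : R) : nu b (x + y) ≤ nu b x + nu b y := by
  rw [nu_le_iff]; intro i
  have h1 := le_nu b x i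
  have h2 := le_nu b y i
  simp only [map_add, Finsupp.add_apply]
  have := Int.natAbs_add_le (b.repr x i) (b.repr y i)
  omega

lemma nu_neg (x : R) : nu b (-x) = nu b x := by
  simp [nu]

lemma nu_zero : nu b 0 = 0 := by simp [nu]

lemma nu_sub (x y : R) : nu b (x - y) ≤ nu b x + nu b y := by
  rw [sub_eq_add_neg]; have := nu_add b x (-y); rwa [nu_neg] at this

lemma nu_smul (k : ℤ) (x : R) : nu b (k • x) = k.natAbs * nu b x := by
  simp only [nu, map_smul, Finsupp.smul_apply, smul_eq_mul, Int.natAbs_mul]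
  rw [Finset.mul_sup₀]

lemma nu_eq_zero {x : R} (h : nu b x = 0) : x = 0 := by
  have := (nu_le_iff b x 0).1 h.le
  apply b.repr.injective
  ext i
  have := this i
  simp only [map_zero, Finsupp.coe_zero, Pi.zero_apply]
  omega

lemma nu_sum {ι : Type} (s : Finset ι) (f : ι → R) : nu b (∑ i ∈ s, f i) ≤ ∑ i ∈ s, nu b (f i) := by
  classical
  induction s using Finset.induction_on with
  | empty => simp [nu_zero]
  | insert a s ha ih =>
    rw [Finset.sum_insert ha, Finset.sum_insert ha]
    have := nu_add b (f a) (∑ i ∈ s, f i)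
    omega

lemma nu_basis (i : Fin d) : nu b (b i) ≤ 1 := by
  rw [nu_le_iff]; intro j
  simp only [Basis.repr_self, Finsupp.single_apply]
  split_ifs <;> simp

lemma nu_mul : ∃ M : ℕ, ∀ x y, nu b (x * y) ≤ M * nu b x * nu b y := by
  refine ⟨∑ i, ∑ j, nu b (b i * b j), fun x y => ?_⟩
  have e : x * y = ∑ i, ∑ j, (b.repr x i * b.repr y j) • (b i * b j) := by
    conv_lhs => rw [← b.sum_repr x, ← b.sum_repr y]
    rw [Finset.sum_mul_sum]
    refine Finset.sum_congr rfl fun i _ => Finset.sum_congr rfl fun j _ => ?_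
    rw [smul_mul_smul_comm]
  rw [e, Finset.sum_mul, Finset.sum_mul]
  refine (nu_sum b _ _).trans (Finset.sum_le_sum fun i _ => ?_)
  rw [Finset.sum_mul, Finset.sum_mul]
  refine (nu_sum b _ _).trans (Finset.sum_le_sum fun j _ => ?_)
  rw [nu_smul, Int.natAbs_mul]
  have h1 := le_nu b x i
  have h2 := le_nu b y j
  calc _ ≤ nu b x * nu b y * nu b (b i * b j) := by gcongr
    _ = _ := by ring

noncomputable def box (S : ℕ) : Finset R :=
  (Fintype.piFinset fun _ : Fin d => Finset.Icc (-(S : ℤ)) S).map b.equivFun.symm.toEquiv.toEmbedding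

lemma mem_box {S : ℕ} {x : R} : x ∈ box b S ↔ nu b x ≤ S := by
  rw [box, Finset.mem_map_equiv, nu_le_iff, Fintype.mem_piFinset]
  refine forall_congr' fun i => ?_
  simp only [Finset.mem_Icc]
  show -(S : ℤ) ≤ b.repr x i ∧ b.repr x i ≤ S ↔ _
  omega

lemma card_box (S : ℕ) : (box b S).card = (2 * S + 1) ^ d := by
  rw [box, Finset.card_map, Fintype.card_piFinset]
  simp only [Int.card_Icc, Finset.prod_const, Finset.card_univ, Fintype.card_fin]
  congr 1
  omega

lemma reduce [IsDomain R] : ∃ M : ℕ, ∀ g : R, g ≠ 0 → ∀ r, ∃ r', g ∣ r - r' ∧ nu b r' ≤ M * nu b g := by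
  obtain ⟨M, hM⟩ := nu_mul b
  refine ⟨M, fun g hg r => ?_⟩
  have : Module.Finite ℤ R := Module.Finite.of_basis b
  have halg : IsAlgebraic ℤ g := (Algebra.IsIntegral.isIntegral (R := ℤ) g).isAlgebraic
  obtain ⟨c, k, hk, h⟩ := halg.exists_smul_eq_mul r (mem_nonZeroDivisors_of_ne_zero hg)
  set q : R := ∑ i, (b.repr c i / k) • b i with hq
  set s : R := ∑ i, (b.repr c i % k) • b i with hs
  have hc : c = k • q + s := by
    conv_lhs => rw [← b.sum_repr c]
    rw [hq, hs, Finset.smul_sum, ← Finset.sum_add_distrib]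
    refine Finset.sum_congr rfl fun i _ => ?_
    rw [smul_smul, ← add_smul, Int.mul_ediv_add_emod]
  have hsn : nu b s ≤ k.natAbs := by
    rw [nu_le_iff]; intro i
    have : b.repr s i = b.repr c i % k := by
      rw [hs, b.repr_sum_self]
    rw [this]
    have h1 := Int.emod_nonneg (b.repr c i) hk
    have h2 := Int.emod_lt_abs (b.repr c i) hk
    rw [Int.abs_eq_natAbs] at h2
    omega
  refine ⟨r - g * q, by simp, ?_⟩
  have e : k • (r - g * q) = g * s := by
    rw [smul_sub, h, hc]; simp only [zsmul_eq_mul]; ring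
  have h1 := nu_smul b k (r - g * q)
  rw [e] at h1
  have h2 := hM g s
  have hk' : 0 < k.natAbs := Int.natAbs_pos.2 hk
  have : k.natAbs * nu b (r - g * q) ≤ k.natAbs * (M * nu b g) := by
    rw [← h1]
    calc _ ≤ M * nu b g * nu b s := h2
      _ ≤ M * nu b g * k.natAbs := by gcongr
      _ = _ := by ring
  exact Nat.le_of_mul_le_mul_left this hk'

open Classical in
lemma bad_count [IsDomain R] : ∃ C : ℕ, ∀ (M : Type) [CommRing M] [Fintype M] (q : R →+* M),
    Function.Surjective q → ∀ S : ℕ, 1 ≤ S →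
    (Finset.univ.filter fun a : M => ∃ f g : R, (f ≠ 0 ∨ g ≠ 0) ∧ nu b f ≤ S ∧ nu b g ≤ S ∧
      q f = a * q g).card ≤ C * S ^ (2 * d) := by
  obtain ⟨K, hK⟩ := reduce b
  refine ⟨3 ^ d * (2 * K + 3) ^ d, fun M _ _ q hq S hS => ?_⟩
  have hb1 : (box b S).card ≤ 3 ^ d * S ^ d := by
    rw [card_box, ← mul_pow]; gcongr; omega
  have hb2 : (box b (S + K * S)).card ≤ (2 * K + 3) ^ d * S ^ d := by
    rw [card_box, ← mul_pow]; gcongr; nlinarith
  have hfin : (box b S).card * (box b (S + K * S)).card ≤ 3 ^ d * (2 * K + 3) ^ d * S ^ (2 * d) := by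
    calc _ ≤ (3 ^ d * S ^ d) * ((2 * K + 3) ^ d * S ^ d) := by gcongr
      _ = _ := by ring
  refine le_trans ?_ hfin
  by_cases h0 : ∃ f : R, f ≠ 0 ∧ nu b f ≤ S ∧ q f = 0
  · obtain ⟨f, hf, hfS, hqf⟩ := h0
    have h1 : (Finset.univ : Finset M) ⊆ (box b (S + K * S)).image q := by
      intro m _
      obtain ⟨r, rfl⟩ := hq m
      obtain ⟨r', ⟨c, hc⟩, hr'⟩ := hK f hf r
      refine Finset.mem_image.2 ⟨r', (mem_box b).2 ?_, ?_⟩
      · have : K * nu b f ≤ K * S := by gcongr
        omega
      · have : r' = r - f * c := by rw [← hc]; ring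
        rw [this, map_sub, map_mul, hqf]; simp
    have h2 : 1 ≤ (box b S).card := by rw [card_box]; exact Nat.one_le_pow _ _ (by omega)
    calc _ ≤ (Finset.univ : Finset M).card := Finset.card_filter_le _ _
      _ ≤ (box b (S + K * S)).card := (Finset.card_le_card h1).trans Finset.card_image_le
      _ ≤ _ := Nat.le_mul_of_pos_left _ h2
  · push Not at h0
    have key : ∀ g ∈ (box b S).filter (· ≠ 0), (Finset.univ.filter fun a : M => ∃ f : R, nu b f ≤ S ∧
        q f = a * q g).card ≤ (box b (S + K * S)).card := by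
      intro g hg
      rw [Finset.mem_filter, mem_box] at hg
      have hm : ∀ m : M, ∃ (am : M) (hm : R), nu b hm ≤ K * S ∧ q hm - am * q g = m := by
        intro m
        obtain ⟨r, rfl⟩ := hq m
        obtain ⟨r', ⟨c, hc⟩, hr'⟩ := hK g hg.2 r
        refine ⟨-q c, r', hr'.trans (by gcongr; exact hg.1), ?_⟩
        have : r = r' + g * c := by rw [← hc]; ring
        rw [this, map_add, map_mul]; ring
      choose am hm hm1 hm2 using hm
      set P := (Finset.univ.filter fun a : M => ∃ f : R, nu b f ≤ S ∧ q f = a * q g) with hP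
      have hf : ∀ a : M, ∃ f : R, a ∈ P → nu b f ≤ S ∧ q f = a * q g := by
        intro a
        by_cases ha : a ∈ P
        · obtain ⟨f, hf⟩ := (Finset.mem_filter.1 ha).2
          exact ⟨f, fun _ => hf⟩
        · exact ⟨0, fun h => absurd h ha⟩
      choose F hF using hf
      have hc : ((Finset.univ : Finset M) ×ˢ P).card ≤
          ((Finset.univ : Finset M) ×ˢ box b (S + K * S)).card := by
        refine Finset.card_le_card_of_injOn (fun p => (p.2 + am p.1, F p.2 + hm p.1)) ?_ ?_
        · intro p hp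
          have hp2 := (Finset.mem_product.1 hp).2
          refine Finset.mem_coe.2 (Finset.mem_product.2 ⟨Finset.mem_univ _, (mem_box b).2 ?_⟩)
          have := nu_add b (F p.2) (hm p.1)
          have h1 := (hF _ hp2).1
          have h2 := hm1 p.1
          simp only
          omega
        · intro p hp p' hp' h
          have hp2 := (hF _ (Finset.mem_product.1 hp).2).2
          have hp2' := (hF _ (Finset.mem_product.1 hp').2).2
          simp only [Prod.mk.injEq] at h
          have e1 : p.1 = q (F p.2 + hm p.1) - (p.2 + am p.1) * q g := by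
            rw [map_add, hp2]; linear_combination -(hm2 p.1)
          have e2 : p'.1 = q (F p'.2 + hm p'.1) - (p'.2 + am p'.1) * q g := by
            rw [map_add, hp2']; linear_combination -(hm2 p'.1)
          have e3 : p.1 = p'.1 := by rw [e1, e2, h.1, h.2]
          have e4 := h.1
          rw [e3] at e4
          exact Prod.ext e3 (add_right_cancel e4)
      rw [Finset.card_product, Finset.card_product] at hc
      exact Nat.le_of_mul_le_mul_left hc (Finset.card_pos.2 Finset.univ_nonempty)
    calc _ ≤ (((box b S).filter (· ≠ 0)).biUnion fun g => (Finset.univ.filter fun a : M =>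
          ∃ f : R, nu b f ≤ S ∧ q f = a * q g)).card := by
          refine Finset.card_le_card fun a ha => ?_
          obtain ⟨f, g, hfg, hf, hg, h⟩ := (Finset.mem_filter.1 ha).2
          refine Finset.mem_biUnion.2 ⟨g, Finset.mem_filter.2 ⟨(mem_box b).2 hg, ?_⟩,
            Finset.mem_filter.2 ⟨Finset.mem_univ _, f, hf, h⟩⟩
          rintro rfl
          rcases hfg with hfg | hfg
          · exact h0 f hfg hf (by simpa using h)
          · exact hfg rfl
      _ ≤ ((box b S).filter (· ≠ 0)).card * (box b (S + K * S)).card :=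
          Finset.card_biUnion_le_card_mul _ _ _ key
      _ ≤ _ := by gcongr; exact Finset.filter_subset _ _
end

lemma cover {G : Type} [AddCommGroup G] [Fintype G] [DecidableEq G] (B : ℕ → Finset G)
    (h0 : ∀ k, 0 ∈ B k) (hadd : ∀ j k x y, x ∈ B j → y ∈ B k → x + y ∈ B (j + k))
    (hneg : ∀ x ∈ B 1, -x ∈ B 1) (hgen : AddSubgroup.closure (B 1 : Set G) = ⊤) (j : ℕ) :
    (∀ x, x ∈ B (3 * j)) ∨ j * (B 1).card ≤ (B (3 * j)).card := by
  have mono : ∀ j k x, x ∈ B j → x ∈ B (j + k) := fun j k x hx => by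
    simpa using hadd j k x 0 hx (h0 k)
  induction j with
  | zero => right; simp
  | succ j ih =>
    by_cases hall : ∀ x, x ∈ B (3 * j + 1)
    · left; intro x
      have := mono _ 2 x (hall x)
      rwa [show 3 * j + 1 + 2 = 3 * (j + 1) by ring] at this
    right
    rcases ih with ih | ih
    · exact absurd (fun x => mono _ 1 x (ih x)) hall
    have hx : ∃ x ∈ B (3 * j + 2), x ∉ B (3 * j + 1) := by
      by_contra hcon
      push Not at hcon
      apply hall
      intro x
      have hx : x ∈ AddSubgroup.closure (B 1 : Set G) := by rw [hgen]; trivial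
      induction hx using AddSubgroup.closure_induction_left with
      | zero => exact h0 _
      | add_left y hy z _ ih2 =>
        apply hcon
        have := hadd _ _ _ _ hy ih2
        rwa [show 1 + (3 * j + 1) = 3 * j + 2 by ring] at this
      | neg_add_cancel y hy z _ ih2 =>
        apply hcon
        have := hadd _ _ _ _ (hneg y hy) ih2
        rwa [show 1 + (3 * j + 1) = 3 * j + 2 by ring] at this
    obtain ⟨x, hx1, hx2⟩ := hx
    have hdis : Disjoint (B (3 * j)) ((B 1).image (x + ·)) := by
      rw [Finset.disjoint_left]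
      intro y hy hy'
      obtain ⟨z, hz, rfl⟩ := Finset.mem_image.1 hy'
      apply hx2
      simpa using hadd _ _ _ _ hy (hneg z hz)
    have hsub : B (3 * j) ∪ (B 1).image (x + ·) ⊆ B (3 * (j + 1)) := by
      intro y hy
      rcases Finset.mem_union.1 hy with hy | hy
      · exact mono _ 3 y hy
      · obtain ⟨z, hz, rfl⟩ := Finset.mem_image.1 hy
        have := hadd _ _ _ _ hx1 hz
        rwa [show 3 * j + 2 + 1 = 3 * (j + 1) by ring] at this
    have := Finset.card_le_card hsub
    rw [Finset.card_union_of_disjoint hdis, Finset.card_image_of_injective _ (add_right_injective x)] at this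
    nlinarith

lemma tail {Ω : Type} [Fintype Ω] (m : Ω → ℕ) (C : ℝ) (hC : 0 ≤ C)
    (h : ∀ j : ℕ, ((Finset.univ.filter fun a => j < m a).card : ℝ) ≤ C / 2 ^ j) :
    ∑ a, (m a : ℝ) ≤ 2 * C := by
  set J := Finset.univ.sup m with hJ
  have e : ∀ a, (m a : ℝ) = ∑ j ∈ Finset.range J, if j < m a then (1 : ℝ) else 0 := by
    intro a
    have hm : m a ≤ J := Finset.le_sup (f := m) (Finset.mem_univ a)
    rw [Finset.sum_boole]
    have : (Finset.range J).filter (fun j => j < m a) = Finset.range (m a) := by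
      ext j; simp only [Finset.mem_filter, Finset.mem_range]; omega
    rw [this, Finset.card_range]
  rw [Finset.sum_congr rfl fun a _ => e a, Finset.sum_comm]
  calc _ ≤ ∑ j ∈ Finset.range J, C * (1 / 2) ^ j := by
        refine Finset.sum_le_sum fun j _ => ?_
        rw [Finset.sum_boole]
        refine (h j).trans (le_of_eq ?_)
        rw [one_div, inv_pow, div_eq_mul_inv]
    _ = C * ∑ j ∈ Finset.range J, (1 / 2 : ℝ) ^ j := by rw [Finset.mul_sum]
    _ ≤ C * 2 := by gcongr; exact sum_geometric_two_le J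
    _ = _ := by ring

end H5Ad
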