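import Pool.Agent.Lib.helper5.Adic1

open Module Finset

namespace H5Ad

section
variable {R : Type} [CommRing R] {d : ℕ} (b : Basis (Fin d) ℤ R)

lemma covering (M M1 : Type) [CommRing M] [Fintype M] [CommRing M1] [Fintype M1]
    (q : R →+* M) (hq : Function.Surjective q) (q1 : R →+* M1) (hq1 : Function.Surjective q1)
    (a : M) (s : ℕ) (hs : 1 ≤ s)
    (hmin : ∀ f g : R, (f ≠ 0 ∨ g ≠ 0) → q f = a * q g → s ≤ max (nu b f) (nu b g)) :
    s ^ (2 * d) ≤ 4 ^ d * (Fintype.card M * Fintype.card M1) ∧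
    ∃ f g : R, q1 g = 1 ∧ q f = a * q g ∧
      max (nu b f) (nu b g) * s ^ (2 * d) ≤ 6 * 4 ^ d * (Fintype.card M * Fintype.card M1) * s := by
  classical
  let ψ : R × R →+ M × M1 :=
    { toFun := fun p => (q p.1 - a * q p.2, q1 p.2)
      map_zero' := by simp
      map_add' := fun p p' => by
        simp only [Prod.fst_add, Prod.snd_add, map_add, Prod.mk_add_mk, Prod.mk.injEq, and_true]
        ring }
  have hψ : ∀ p, ψ p = (q p.1 - a * q p.2, q1 p.2) := fun p => rfl
  set S := (s - 1) / 2 with hS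
  let B : ℕ → Finset (M × M1) := fun k => (box b (k * (S + 1)) ×ˢ box b (k * (S + 1))).image ψ
  have hB : ∀ k x, x ∈ B k ↔ ∃ p : R × R, nu b p.1 ≤ k * (S + 1) ∧ nu b p.2 ≤ k * (S + 1) ∧ ψ p = x := by
    intro k x
    simp only [B, Finset.mem_image, Finset.mem_product, mem_box, and_assoc]
  have hgen : AddSubgroup.closure (B 1 : Set (M × M1)) = ⊤ := by
    rw [eq_top_iff]
    rintro ⟨m, m1⟩ _
    obtain ⟨g, rfl⟩ := hq1 m1
    obtain ⟨f, hf⟩ := hq (m + a * q g)
    have e : (m, q1 g) = ψ (f, g) := by rw [hψ]; simp [hf]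
    have e2 : (f, g) = ∑ i, b.repr f i • ((b i, 0) : R × R) + ∑ i, b.repr g i • ((0, b i) : R × R) := by
      ext
      · simp [Prod.fst_sum]
        simpa using (b.sum_repr f).symm
      · simp [Prod.snd_sum]
        simpa using (b.sum_repr g).symm
    rw [e, e2, map_add, map_sum, map_sum]
    refine add_mem (sum_mem fun i _ => ?_) (sum_mem fun i _ => ?_)
    · rw [map_zsmul]
      refine zsmul_mem (AddSubgroup.subset_closure ?_) _
      refine Finset.mem_coe.2 ((hB _ _).2 ⟨_, ?_, ?_, rfl⟩)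
      · have := nu_basis b i; simp only; omega
      · simp [nu_zero]
    · rw [map_zsmul]
      refine zsmul_mem (AddSubgroup.subset_closure ?_) _
      refine Finset.mem_coe.2 ((hB _ _).2 ⟨_, ?_, ?_, rfl⟩)
      · simp [nu_zero]
      · have := nu_basis b i; simp only; omega
  have hcov := cover B (fun k => (hB _ _).2 ⟨0, by simp [nu_zero], by simp [nu_zero], map_zero _⟩)
    (fun j k x y hx hy => by
      obtain ⟨p, h1, h2, rfl⟩ := (hB _ _).1 hx
      obtain ⟨p', h1', h2', rfl⟩ := (hB _ _).1 hy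
      refine (hB _ _).2 ⟨p + p', ?_, ?_, map_add _ _ _⟩
      · have := nu_add b p.1 p'.1; rw [add_mul]; simp only [Prod.fst_add]; omega
      · have := nu_add b p.2 p'.2; rw [add_mul]; simp only [Prod.snd_add]; omega)
    (fun x hx => by
      obtain ⟨p, h1, h2, rfl⟩ := (hB _ _).1 hx
      exact (hB _ _).2 ⟨-p, by simpa [nu_neg] using h1, by simpa [nu_neg] using h2, map_neg _ _⟩)
    hgen
  have hlow : (2 * S + 1) ^ (2 * d) ≤ (B 1).card := by
    have h1 : ((box b S ×ˢ box b S).image ψ).card = (2 * S + 1) ^ (2 * d) := by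
      rw [Finset.card_image_of_injOn, Finset.card_product, card_box, ← pow_add, ← two_mul d]
      intro p hp p' hp' h
      have hp1 := Finset.mem_product.1 hp
      have hp2 := Finset.mem_product.1 hp'
      rw [mem_box, mem_box] at hp1 hp2
      by_contra hne
      have h3 : p.1 - p'.1 ≠ 0 ∨ p.2 - p'.2 ≠ 0 := by
        by_contra hc
        push Not at hc
        exact hne (Prod.ext (sub_eq_zero.1 hc.1) (sub_eq_zero.1 hc.2))
      have h4 := hmin _ _ h3 (by
        have := congrArg Prod.fst h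
        rw [hψ, hψ] at this
        rw [map_sub, map_sub]; simp only at this; linear_combination this)
      have h5 := nu_sub b p.1 p'.1
      have h6 := nu_sub b p.2 p'.2
      omega
    rw [← h1]
    refine Finset.card_le_card (Finset.image_subset_image (Finset.product_subset_product ?_ ?_)) <;>
    · intro x hx; rw [mem_box] at hx ⊢; omega
  have hs2 : s ^ (2 * d) ≤ 4 ^ d * (B 1).card := by
    calc s ^ (2 * d) ≤ (2 * (2 * S + 1)) ^ (2 * d) := by gcongr; omega
      _ = 4 ^ d * (2 * S + 1) ^ (2 * d) := by rw [mul_pow, pow_mul]; norm_num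
      _ ≤ _ := by gcongr
  have hBle : ∀ k, (B k).card ≤ Fintype.card M * Fintype.card M1 := fun k => by
    rw [← Fintype.card_prod]; exact Finset.card_le_univ _
  set Q := Fintype.card M * Fintype.card M1 with hQ
  refine ⟨hs2.trans (by gcongr; exact hBle 1), ?_⟩
  have hpos : 0 < (B 1).card := lt_of_lt_of_le (by positivity) hlow
  set j := Q / (B 1).card + 1 with hj
  have hj1 : Q < j * (B 1).card := by
    rw [hj, mul_comm]; exact Nat.lt_mul_div_succ _ hpos
  have hj2 : j * (B 1).card ≤ 2 * Q := by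
    have := Nat.div_mul_le_self Q (B 1).card
    have := hBle 1
    rw [hj, add_mul]; omega
  rcases hcov j with h | h
  · obtain ⟨p, h1, h2, h3⟩ := (hB _ _).1 (h (0, 1))
    rw [hψ, Prod.mk.injEq] at h3
    refine ⟨p.1, p.2, h3.2, sub_eq_zero.1 h3.1, ?_⟩
    have h4 : max (nu b p.1) (nu b p.2) ≤ 3 * j * s :=
      (max_le h1 h2).trans (by gcongr; omega)
    calc _ ≤ (3 * j * s) * (4 ^ d * (B 1).card) := by gcongr
      _ = 3 * 4 ^ d * (j * (B 1).card) * s := by ring
      _ ≤ 3 * 4 ^ d * (2 * Q) * s := by gcongr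
      _ = _ := by ring
  · have := hBle (3 * j); omega

lemma core [IsDomain R] (N : ℕ) (hN : 2 ≤ N) (hd : 1 ≤ d) (K : ℝ) : ∃ C : ℝ,
    ∀ (n : ℕ) (M M1 : Type) [CommRing M] [Fintype M] [CommRing M1] [Fintype M1] [Nontrivial M1]
    (q : R →+* M) (_ : Function.Surjective q) (q1 : R →+* M1) (_ : Function.Surjective q1)
    (_ : Fintype.card M = N ^ n) (_ : Fintype.card M1 = N) (lam : M → ℝ)
    (_ : ∀ a t, (∀ f g : R, g ≠ 0 → q f = a * q g →
      t ≤ d * Real.logb N (max (nu b f) (nu b g) : ℕ)) → t - K ≤ lam a)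
    (_ : ∀ a (f g : R), q1 g = 1 → q f = a * q g →
      lam a ≤ d * Real.logb N (max (nu b f) (nu b g) : ℕ) + K),
    |(∑ a, lam a) / N ^ n - n / 2| ≤ C := by
  classical
  obtain ⟨C1, hC1⟩ := bad_count b
  set c : ℝ := 6 * 4 ^ d * N with hc
  have hN1 : (1 : ℝ) < N := by exact_mod_cast (by omega : 1 < N)
  have hc1 : 1 ≤ c := by
    have : (1 : ℝ) ≤ 4 ^ d := one_le_pow₀ (by norm_num)
    nlinarith
  have hlc : 0 ≤ Real.logb N c := Real.logb_nonneg hN1 hc1
  refine ⟨|K| + d * Real.logb N c + d * (2 * C1), ?_⟩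
  intro n M M1 _ _ _ _ _ q hq q1 hq1 hM hM1 lam hlo hup
  have hne : ∀ a : M, ∃ t : ℕ, ∃ f g : R, (f ≠ 0 ∨ g ≠ 0) ∧ q f = a * q g ∧
      t = max (nu b f) (nu b g) := fun a => by
    obtain ⟨f, hf⟩ := hq a
    exact ⟨_, f, 1, Or.inr one_ne_zero, by simp [hf], rfl⟩
  let s : M → ℕ := fun a => Nat.find (hne a)
  have hmin : ∀ a (f g : R), (f ≠ 0 ∨ g ≠ 0) → q f = a * q g → s a ≤ max (nu b f) (nu b g) :=
    fun a f g h1 h2 => Nat.find_min' (hne a) ⟨f, g, h1, h2, rfl⟩
  have hs1 : ∀ a, 1 ≤ s a := fun a => by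
    obtain ⟨f, g, h1, _, h3⟩ := Nat.find_spec (hne a)
    by_contra hc
    have h0 : max (nu b f) (nu b g) = 0 := by rw [← h3]; change s a = 0; omega
    rcases h1 with h1 | h1
    · exact h1 (nu_eq_zero b (by omega))
    · exact h1 (nu_eq_zero b (by omega))
  have hcnt : ∀ Z : ℝ, 0 ≤ Z → ((Finset.univ.filter fun a => ((s a : ℝ)) ^ (2 * d) ≤ Z).card : ℝ)
      ≤ C1 * Z := by
    intro Z hZ
    rcases (Finset.univ.filter fun a => ((s a : ℝ)) ^ (2 * d) ≤ Z).eq_empty_or_nonempty with h | h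
    · rw [h]; simp only [Finset.card_empty, Nat.cast_zero]; positivity
    obtain ⟨a0, ha0, hmax⟩ := Finset.exists_max_image _ s h
    have h1 := hC1 M q hq (s a0) (hs1 a0)
    have h2 : (Finset.univ.filter fun a => ((s a : ℝ)) ^ (2 * d) ≤ Z).card ≤ C1 * s a0 ^ (2 * d) := by
      refine le_trans (Finset.card_le_card fun a ha => ?_) h1
      obtain ⟨f, g, h1, h2, h3⟩ := Nat.find_spec (hne a)
      have h4 : max (nu b f) (nu b g) ≤ s a0 := by rw [← h3]; exact hmax a ha
      exact Finset.mem_filter.2 ⟨Finset.mem_univ _, f, g, h1, by omega, by omega, h2⟩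
    have h3 := (Finset.mem_filter.1 ha0).2
    calc _ ≤ ((C1 * s a0 ^ (2 * d) : ℕ) : ℝ) := by exact_mod_cast h2
      _ = C1 * (s a0 : ℝ) ^ (2 * d) := by push_cast; ring
      _ ≤ _ := by gcongr
  have hQ : (0 : ℝ) < (N : ℝ) ^ n := by positivity
  have hsp : ∀ a, (0 : ℝ) < s a := fun a => by exact_mod_cast hs1 a
  have hex : ∀ a, ∃ m : ℕ, (N : ℝ) ^ n < 2 ^ m * (s a : ℝ) ^ (2 * d) := fun a => by
    obtain ⟨m, hm⟩ := pow_unbounded_of_one_lt ((N : ℝ) ^ n) (by norm_num : (1 : ℝ) < 2)
    refine ⟨m, hm.trans_le (le_mul_of_one_le_right (by positivity) (one_le_pow₀ ?_))⟩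
    exact_mod_cast hs1 a
  let m : M → ℕ := fun a => Nat.find (hex a)
  have hm : ∑ a, (m a : ℝ) ≤ 2 * (C1 * N ^ n) := by
    refine tail m _ (by positivity) fun j => ?_
    refine le_trans ?_ ((hcnt (N ^ n / 2 ^ j) (by positivity)).trans (le_of_eq (by ring)))
    refine Nat.cast_le.2 (Finset.card_le_card fun a ha => ?_)
    have h1 := Nat.find_min (hex a) (Finset.mem_filter.1 ha).2
    refine Finset.mem_filter.2 ⟨Finset.mem_univ _, ?_⟩
    rw [le_div_iff₀ (by positivity)]
    push Not at h1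
    linarith
  have hN0 : (N : ℝ) ≠ 0 := by positivity
  have hms : ∀ a, (n : ℝ) ≤ m a + 2 * d * Real.logb N (s a) := fun a => by
    have h1 := Nat.find_spec (hex a)
    have h2 : (N : ℝ) ^ n ≤ N ^ (m a) * (s a : ℝ) ^ (2 * d) := by
      refine h1.le.trans ?_
      have : (2 : ℝ) ≤ N := by exact_mod_cast hN
      gcongr
    have h3 := Real.logb_le_logb_of_le hN1 hQ h2
    rw [Real.logb_mul (by positivity) (by have := hsp a; positivity), Real.logb_pow, Real.logb_pow,
      Real.logb_pow, Real.logb_self_eq_one hN1] at h3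
    push_cast at h3
    linarith
  have hd1 : (1 : ℝ) ≤ d := by exact_mod_cast hd
  have hpt : ∀ a, |lam a - n / 2| ≤ |K| + d * Real.logb N c + d * m a := fun a => by
    have hK := le_abs_self K
    have hm0 : (0 : ℝ) ≤ m a := Nat.cast_nonneg _
    have h1 := hms a
    have hdm : (m a : ℝ) ≤ d * m a := le_mul_of_one_le_left hm0 hd1
    have hdc : 0 ≤ d * Real.logb N c := by positivity
    rw [abs_le]
    constructor
    · have := hlo a (d * Real.logb N (s a)) fun f g hg h => by
        have := hmin a f g (Or.inr hg) h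
        gcongr
        exact hsp a
      linarith
    · obtain ⟨-, f, g, h2, h3, h4⟩ := covering b M M1 q hq q1 hq1 a (s a) (hs1 a) (hmin a)
      have h5 := hup a f g h2 h3
      have hg : g ≠ 0 := by rintro rfl; simp at h2
      have h6 := hmin a f g (Or.inr hg) h3
      set L := max (nu b f) (nu b g) with hL
      have hL0 : (0 : ℝ) < L := by have := hs1 a; exact_mod_cast (by omega : 0 < L)
      rw [hM, hM1] at h4
      have h7 : (L : ℝ) * (s a : ℝ) ^ (2 * d) ≤ c * N ^ n * s a := by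
        have : ((L * s a ^ (2 * d) : ℕ) : ℝ) ≤ (6 * 4 ^ d * (N ^ n * N) * s a : ℕ) := by exact_mod_cast h4
        push_cast at this
        rw [hc]; linarith
      have h8 := Real.logb_le_logb_of_le hN1 (by have := hsp a; positivity) h7
      rw [Real.logb_mul (by positivity) (by have := hsp a; positivity),
        Real.logb_mul (by positivity) (by have := hsp a; positivity),
        Real.logb_mul (by positivity) (by positivity), Real.logb_pow, Real.logb_pow,
        Real.logb_self_eq_one hN1] at h8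
      push_cast at h8
      set u := Real.logb N (s a)
      set l := Real.logb N L
      have h9 : d * l ≤ d * (Real.logb N c + n + u - 2 * d * u) := by gcongr; linarith
      have h10 : (d - 1 / 2) * (n - 2 * d * u) ≤ (d - 1 / 2) * m a := by gcongr <;> linarith
      nlinarith
  have e : (∑ a, lam a) / N ^ n - n / 2 = (∑ a, (lam a - n / 2)) / N ^ n := by
    rw [Finset.sum_sub_distrib, Finset.sum_const, Finset.card_univ, hM, nsmul_eq_mul]
    push_cast; field_simp
  rw [e, abs_div, abs_of_pos hQ, div_le_iff₀ hQ]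
  calc _ ≤ ∑ a, |lam a - n / 2| := Finset.abs_sum_le_sum_abs _ _
    _ ≤ ∑ a, (|K| + d * Real.logb N c + d * m a) := Finset.sum_le_sum fun a _ => hpt a
    _ = N ^ n * (|K| + d * Real.logb N c) + d * ∑ a, (m a : ℝ) := by
      rw [Finset.sum_add_distrib, Finset.sum_const, Finset.card_univ, hM, nsmul_eq_mul, Finset.mul_sum]
      push_cast; ring
    _ ≤ N ^ n * (|K| + d * Real.logb N c) + d * (2 * (C1 * N ^ n)) := by gcongr
    _ = _ := by ring
end

end H5Ad
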