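import Pool.Agent.Lib.helper5.Adic2

open Module Finset

namespace H5Ad

section
variable {R : Type} [CommRing R] [IsDomain R] {N : ℕ} (π : R)

lemma expand (hrep : ∀ r : R, ∃ c : Fin N, π ∣ r - (c : ℕ)) (f g : R) (hg : π ∣ g - 1) :
    ∃ e : ℕ → Fin N, ∀ m, π ^ m ∣ f - g * ∑ i ∈ Finset.range m, ((e i : ℕ) : R) * π ^ i := by
  have h : ∀ r : R, ∃ (c : Fin N) (r' : R), r - g * (c : ℕ) = π * r' := by
    intro r
    obtain ⟨c, x, hx⟩ := hrep r
    obtain ⟨y, hy⟩ := hg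
    exact ⟨c, x - y * (c : ℕ), by linear_combination hx - ((c : ℕ) : R) * hy⟩
  choose c nx hc using h
  refine ⟨fun i => c (nx^[i] f), fun m => ⟨nx^[m] f, ?_⟩⟩
  induction m with
  | zero => simp
  | succ m ih =>
    rw [Finset.sum_range_succ, Function.iterate_succ_apply', pow_succ]
    linear_combination ih + π ^ m * hc (nx^[m] f)

lemma uniq (hπ : π ≠ 0) (hinj : ∀ c c' : Fin N, π ∣ ((c : ℕ) : R) - (c' : ℕ) → c = c')
    (e e' : ℕ → Fin N) (m : ℕ)
    (h : π ^ m ∣ ∑ i ∈ Finset.range m, ((e i : ℕ) : R) * π ^ i -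
      ∑ i ∈ Finset.range m, ((e' i : ℕ) : R) * π ^ i) : ∀ i < m, e i = e' i := by
  induction m with
  | zero => intro i hi; omega
  | succ m ih =>
    rw [Finset.sum_range_succ, Finset.sum_range_succ] at h
    have h1 : ∀ i < m, e i = e' i := by
      apply ih
      obtain ⟨x, hx⟩ := h
      exact ⟨π * x - (e m : ℕ) + (e' m : ℕ), by linear_combination hx⟩
    have h2 : ∑ i ∈ Finset.range m, ((e i : ℕ) : R) * π ^ i =
        ∑ i ∈ Finset.range m, ((e' i : ℕ) : R) * π ^ i :=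
      Finset.sum_congr rfl fun i hi => by rw [h1 i (Finset.mem_range.1 hi)]
    rw [h2] at h
    have h3 : e m = e' m := by
      apply hinj
      obtain ⟨x, hx⟩ := h
      refine ⟨x, mul_left_cancel₀ (pow_ne_zero m hπ) ?_⟩
      linear_combination hx
    intro i hi
    rcases Nat.lt_succ_iff_lt_or_eq.1 hi with hi | rfl
    · exact h1 i hi
    · exact h3

lemma bij (hN : 2 ≤ N) (hπ : π ≠ 0) (hrep : ∀ r : R, ∃ c : Fin N, π ∣ r - (c : ℕ))
    (hinj : ∀ c c' : Fin N, π ∣ ((c : ℕ) : R) - (c' : ℕ) → c = c') (n : ℕ) :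
    Function.Bijective fun a : Fin n → Fin N =>
      Ideal.Quotient.mk (Ideal.span {π ^ n}) (∑ i : Fin n, ((a i : ℕ) : R) * π ^ (i : ℕ)) := by
  constructor
  · intro a a' h
    simp only at h
    rw [Ideal.Quotient.eq, Ideal.mem_span_singleton] at h
    let ex : (Fin n → Fin N) → ℕ → Fin N := fun a i => if h : i < n then a ⟨i, h⟩ else ⟨0, by omega⟩
    have hex : ∀ a, ∑ i ∈ Finset.range n, ((ex a i : ℕ) : R) * π ^ i =
        ∑ i : Fin n, ((a i : ℕ) : R) * π ^ (i : ℕ) := fun a => by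
      rw [Finset.sum_range]
      exact Finset.sum_congr rfl fun i _ => by simp [ex]
    rw [← hex, ← hex] at h
    funext i
    have := uniq π hπ hinj _ _ n h i i.2
    simpa [ex] using this
  · intro x
    obtain ⟨r, rfl⟩ := Ideal.Quotient.mk_surjective x
    obtain ⟨e, he⟩ := expand π hrep r 1 (by simp)
    refine ⟨fun i => e i, ?_⟩
    simp only
    rw [eq_comm, Ideal.Quotient.eq, Ideal.mem_span_singleton]
    have := he n
    rwa [one_mul, Finset.sum_range] at this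

theorem avg {d : ℕ} (b : Basis (Fin d) ℤ R) (hN : 2 ≤ N) (hd : 1 ≤ d) (hπ : π ≠ 0)
    (hrep : ∀ r : R, ∃ c : Fin N, π ∣ r - (c : ℕ))
    (hinj : ∀ c c' : Fin N, π ∣ ((c : ℕ) : R) - (c' : ℕ) → c = c')
    (P : R → R → Prop) (sz : R → R → ℝ) (K : ℝ)
    (hP1 : ∀ f g, P f g → g ≠ 0)
    (hsz : ∀ f g, P f g → |sz f g - d * Real.logb N (max (nu b f) (nu b g) : ℕ)| ≤ K)
    (hP2 : ∀ f g, π ∣ g - 1 → ∃ f' g', P f' g' ∧ nu b f' ≤ nu b f ∧ nu b g' ≤ nu b g ∧
      ∀ m x, π ^ m ∣ f - g * x → π ^ m ∣ f' - g' * x) :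
    ∃ C : ℝ, ∀ n : ℕ, |(∑ a : Fin n → Fin N, sInf {t : ℝ | ∃ e : ℕ → Fin N, (∀ i : Fin n, e i = a i) ∧
      ∃ f g, P f g ∧ (∀ m, π ^ m ∣ f - g * ∑ i ∈ Finset.range m, ((e i : ℕ) : R) * π ^ i) ∧
        t = sz f g}) / N ^ n - n / 2| ≤ C := by
  classical
  obtain ⟨C, hC⟩ := core b N hN hd K
  refine ⟨C, fun n => ?_⟩
  have hN1 : (1 : ℝ) < N := by exact_mod_cast (by omega : 1 < N)
  let E := Equiv.ofBijective _ (bij π hN hπ hrep hinj n)
  let E1 := Equiv.ofBijective _ (bij π hN hπ hrep hinj 1)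
  let _ : Fintype (R ⧸ Ideal.span {π ^ n}) := Fintype.ofEquiv _ E
  let _ : Fintype (R ⧸ Ideal.span {π ^ 1}) := Fintype.ofEquiv _ E1
  have hc : Fintype.card (R ⧸ Ideal.span {π ^ n}) = N ^ n := by
    rw [← Fintype.card_congr E]; simp
  have hc1 : Fintype.card (R ⧸ Ideal.span {π ^ 1}) = N := by
    rw [← Fintype.card_congr E1]; simp
  have : Nontrivial (R ⧸ Ideal.span {π ^ 1}) := Fintype.one_lt_card_iff_nontrivial.1 (by omega)
  set T : (Fin n → Fin N) → Set ℝ := fun a => {t : ℝ | ∃ e : ℕ → Fin N, (∀ i : Fin n, e i = a i) ∧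
      ∃ f g, P f g ∧ (∀ m, π ^ m ∣ f - g * ∑ i ∈ Finset.range m, ((e i : ℕ) : R) * π ^ i) ∧
        t = sz f g} with hT
  have hEa : ∀ a, E a = Ideal.Quotient.mk (Ideal.span {π ^ n})
    (∑ i : Fin n, ((a i : ℕ) : R) * π ^ (i : ℕ)) := fun a => rfl
  have hiff : ∀ a (f g : R), Ideal.Quotient.mk (Ideal.span {π ^ n}) f =
      E a * Ideal.Quotient.mk (Ideal.span {π ^ n}) g ↔
      π ^ n ∣ f - g * ∑ i : Fin n, ((a i : ℕ) : R) * π ^ (i : ℕ) := fun a f g => by
    rw [hEa, ← map_mul, Ideal.Quotient.eq, Ideal.mem_span_singleton, mul_comm]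
  have hmem : ∀ a (f g : R), π ∣ g - 1 →
      π ^ n ∣ f - g * ∑ i : Fin n, ((a i : ℕ) : R) * π ^ (i : ℕ) →
      ∃ t ∈ T a, t ≤ d * Real.logb N (max (nu b f) (nu b g) : ℕ) + K := by
    intro a f g hg h
    obtain ⟨e, he⟩ := expand π hrep f g hg
    obtain ⟨f', g', h1, h2, h3, h4⟩ := hP2 f g hg
    refine ⟨sz f' g', ⟨e, ?_, f', g', h1, fun m => h4 m _ (he m), rfl⟩, ?_⟩
    · have h5 : E (fun i => e i) * Ideal.Quotient.mk (Ideal.span {π ^ n}) g =
          E a * Ideal.Quotient.mk (Ideal.span {π ^ n}) g := by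
        rw [← (hiff a f g).2 h, ← (hiff _ f g).2 (by rw [← Finset.sum_range (fun i => ((e i : ℕ) : R) * π ^ i)]; exact he n)]
      have hu : IsUnit (Ideal.Quotient.mk (Ideal.span {π ^ n}) g) := by
        obtain ⟨y, hy⟩ := hg
        have : g = 1 + π * y := by linear_combination hy
        rw [this, map_add, map_one]
        apply IsNilpotent.isUnit_one_add
        refine ⟨n, ?_⟩
        rw [← map_pow, Ideal.Quotient.eq_zero_iff_mem, Ideal.mem_span_singleton, mul_pow]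
        exact dvd_mul_right _ _
      have := E.injective (hu.mul_left_inj.1 h5)
      exact fun i => congrFun this i
    · have h5 := (abs_le.1 (hsz f' g' h1)).2
      have h6 : 1 ≤ nu b g' := by
        by_contra hc
        exact hP1 _ _ h1 (nu_eq_zero b (by omega))
      have h7 : Real.logb N (max (nu b f') (nu b g') : ℕ) ≤ Real.logb N (max (nu b f) (nu b g) : ℕ) := by
        apply Real.logb_le_logb_of_le hN1
        · exact_mod_cast (by omega : 0 < max (nu b f') (nu b g'))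
        · exact_mod_cast (by omega : max (nu b f') (nu b g') ≤ max (nu b f) (nu b g))
      have h8 : (d : ℝ) * Real.logb N (max (nu b f') (nu b g') : ℕ) ≤
        d * Real.logb N (max (nu b f) (nu b g) : ℕ) := by gcongr
      linarith
  have hlow : ∀ a t, (∀ f g : R, g ≠ 0 → Ideal.Quotient.mk (Ideal.span {π ^ n}) f =
      E a * Ideal.Quotient.mk (Ideal.span {π ^ n}) g →
      t ≤ d * Real.logb N (max (nu b f) (nu b g) : ℕ)) → ∀ x ∈ T a, t - K ≤ x := by
    rintro a t ht x ⟨e, he, f, g, h1, h2, rfl⟩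
    have h3 := ht f g (hP1 f g h1) ((hiff a f g).2 (by
      have := h2 n
      rw [Finset.sum_range] at this
      simpa only [he] using this))
    have h4 := (abs_le.1 (hsz f g h1)).1
    linarith
  have := hC n _ _ (Ideal.Quotient.mk (Ideal.span {π ^ n})) Ideal.Quotient.mk_surjective
    (Ideal.Quotient.mk (Ideal.span {π ^ 1})) Ideal.Quotient.mk_surjective hc hc1
    (fun x => sInf (T (E.symm x))) ?_ ?_
  · rwa [← E.sum_comp, Finset.sum_congr rfl fun a _ => by rw [E.symm_apply_apply]] at this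
  · intro x t ht
    obtain ⟨a, rfl⟩ := E.surjective x
    rw [E.symm_apply_apply]
    obtain ⟨t0, ht0, -⟩ := hmem a (∑ i : Fin n, ((a i : ℕ) : R) * π ^ (i : ℕ)) 1 (by simp) (by simp)
    exact le_csInf ⟨t0, ht0⟩ (hlow a t ht)
  · intro x f g hg h
    obtain ⟨a, rfl⟩ := E.surjective x
    rw [E.symm_apply_apply]
    rw [← map_one (Ideal.Quotient.mk (Ideal.span {π ^ 1})), Ideal.Quotient.eq,
      Ideal.mem_span_singleton, pow_one] at hg
    obtain ⟨t0, ht0, h0⟩ := hmem a f g hg ((hiff a f g).1 h)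
    refine le_trans (csInf_le ⟨0 - K, hlow a 0 fun f g hg _ => ?_⟩ ht0) h0
    have h6 : 1 ≤ nu b g := by
      by_contra hc
      exact hg (nu_eq_zero b (by omega))
    have : 0 ≤ Real.logb N (max (nu b f) (nu b g) : ℕ) :=
      Real.logb_nonneg hN1 (by exact_mod_cast (by omega : 1 ≤ max (nu b f) (nu b g)))
    positivity
end

end H5Ad
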