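import Pool.Agent.Lib.helper5.Corson

/-! A topological Amir-Lindenstrauss theorem. -/

open Set Filter Topology TopologicalSpace

namespace H5AL

open H5P

lemma approx {Z J : Type} [TopologicalSpace Z] [CompactSpace Z] {φ : J → Z → ℝ}
    (hφ : ∀ j, Continuous (φ j)) (G : Finset J) : ∃ A : Set Z, A.Countable ∧ ∀ x,
      ∃ y ∈ closure A, ∀ j ∈ G, φ j y = φ j x := by
  let ψ : Z → G → ℝ := fun x j => φ j x
  have hψ : Continuous ψ := continuous_pi fun j => hφ j
  obtain ⟨t, t1, t2, t3⟩ := (IsSeparable.of_separableSpace (range ψ)).exists_countable_dense_subset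
  have := t2.to_subtype
  choose a ha using fun y : t => t1 y.2
  refine ⟨range a, countable_range a, fun k => ?_⟩
  obtain ⟨k', k1, k2⟩ := hψ.isClosedMap.closure_image_subset (range a) (closure_mono
    (show t ⊆ ψ '' range a from fun y hy => ⟨_, ⟨⟨y, hy⟩, rfl⟩, ha _⟩) (t3 ⟨k, rfl⟩))
  exact ⟨k', k1, fun j hj => congrFun k2 ⟨j, hj⟩⟩

lemma retr {Z J : Type} [TopologicalSpace Z] [CompactSpace Z] [TopologicalSpace J] {φ : J → Z → ℝ}
    (hφ : ∀ j, Continuous (φ j)) (hφ' : ∀ x, Continuous (φ · x)) {A : Finset J → Set Z}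
    (hA : ∀ G x, ∃ y ∈ closure (A G), ∀ j ∈ G, φ j y = φ j x) {S : Set Z} {T : Set J}
    (h : ∀ G : Finset J, ↑G ⊆ T → A G ⊆ S) (x : Z) :
    ∃ y ∈ closure S, ∀ j ∈ closure T, φ j y = φ j x := by
  classical
  choose u a2 a3 using hA
  let m : Finset T → Finset J := fun G => G.image Subtype.val
  obtain ⟨w, hw⟩ := exists_clusterPt_of_compactSpace (map (fun G => u (m G) x) atTop)
  refine ⟨w, isClosed_closure.mem_of_mapClusterPt hw (.of_forall fun G => closure_mono
    (h (m G) (by simp [m])) (a2 (m G) x)), fun j hj => closure_minimal (fun j hj =>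
      IsClosed.mem_of_mapClusterPt (s := {y | φ j y = φ j x}) (isClosed_eq (hφ j) continuous_const)
        hw ?_) (isClosed_eq (hφ' w) (hφ' x)) hj⟩
  filter_upwards [eventually_ge_atTop {⟨_, hj⟩}] with G h'
  exact a3 _ x j (Finset.mem_image_of_mem _ (h' (Finset.mem_singleton_self _)))

theorem amir {Z J : Type} [TopologicalSpace Z] [CompactSpace Z] [T2Space Z] [TopologicalSpace J]
    [CompactSpace J] {φ : J → Z → ℝ} (hφ : ∀ j, Continuous (φ j)) (hφ' : ∀ x, Continuous (φ · x))
    (hb : ∀ j x, |φ j x| ≤ 1) (hs : ∀ x y, (∀ j, φ j x = φ j y) → x = y) :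
    ∃ (Γ : Type) (e : Z → Γ → ℝ), IsEmbedding e ∧ ∀ x ε, 0 < ε → {γ | ε ≤ |e x γ|}.Finite := by
  classical
  choose A a1 a2 using approx hφ
  choose B b1 b2 using approx hφ'
  let f : Finset (Z ⊕ J) → Set (Z ⊕ J) := fun G => Sum.inl '' A G.toRight ∪ Sum.inr '' B G.toLeft
  have f1 : ∀ G, (f G).Countable := fun G => ((a1 _).image _).union ((b1 _).image _)
  choose r r1 r2 using fun T => retr hφ hφ' a2 (S := Sum.inl ⁻¹' hl f T) (T := Sum.inr ⁻¹' hl f T)
    fun G hG z hz => cl_hl f T (G.image Sum.inr) (by simpa [image_subset_iff] using hG)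
      (Or.inl (mem_image_of_mem _ (by convert hz; ext; simp)))
  choose s s1 s2 using fun T => retr hφ' hφ b2 (S := Sum.inr ⁻¹' hl f T) (T := Sum.inl ⁻¹' hl f T)
    fun G hG z hz => cl_hl f T (G.image Sum.inl) (by simpa [image_subset_iff] using hG)
      (Or.inr (mem_image_of_mem _ (by convert hz; ext; simp)))
  have rs : ∀ T j x, φ j (r T x) = φ (s T j) x := fun T j x => by
    rw [← r2 T x _ (s1 T j), s2 T j _ (r1 T x)]
  have r3 : ∀ T x y, r T x = r T y ↔ ∀ j, .inr j ∈ hl f T → φ j x = φ j y := fun T x y =>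
    ⟨fun h j hj => by rw [← r2 T x j (subset_closure hj), h, r2 T y j (subset_closure hj)],
      fun h => hs _ _ fun j => by
        rw [rs, rs]; exact closure_minimal h (isClosed_eq (hφ' x) (hφ' y)) (s1 T j)⟩
  have r4 : ∀ T, ∀ x ∈ closure (Sum.inl ⁻¹' hl f T), r T x = x := fun T x hx =>
    hs _ _ fun j => by rw [rs, s2 T j x hx]
  have r5 : ∀ T, Continuous (r T) := fun T => by
    have : IsClosedEmbedding fun x j => φ j x := (continuous_pi hφ).isClosedEmbedding
      fun x y h => hs x y (congrFun h)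
    exact this.isInducing.continuous_iff.2 (continuous_pi fun j => (hφ (s T j)).congr
      fun x => (rs T j x).symm)
  let L : (Z → ℝ) → Prop := fun g => ∀ x y ε, (∀ j, |φ j x - φ j y| ≤ ε) → |g x - g y| ≤ ε
  let P : Set (Z ⊕ J) → Prop := fun T => ∃ F : Set (Z → ℝ), (∀ g ∈ F, Continuous g ∧ L g) ∧
    (∀ x ε, 0 < ε → {g ∈ F | ε ≤ |g x|}.Finite) ∧ ∀ x y, (∀ g ∈ F, g x = g y) → r T x = r T y
  have p0 : ∀ T, T.Countable → P T := fun T hT => by
    obtain ⟨e, he⟩ := countable_iff_exists_injOn.1 ((hl_cble f f1 hT).preimage Sum.inr_injective)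
    have k : ∀ j, (1 : ℝ) ≤ e j + 1 := fun j => by simp
    refine ⟨(fun j x => φ j x / (e j + 1)) '' (Sum.inr ⁻¹' hl f T), forall_mem_image.2 fun j _ =>
      ⟨(hφ j).div_const _, fun x y ε h => ?_⟩, fun x ε hε => ?_, fun x y h => (r3 T x y).2
        fun j hj => ?_⟩
    · rw [← sub_div, abs_div, abs_of_pos (one_pos.trans_le (k j))]
      exact (div_le_self (abs_nonneg _) (k j)).trans (h j)
    · obtain ⟨N, hN⟩ := exists_nat_one_div_lt hε
      refine ((Finite.of_finite_image (s := Sum.inr ⁻¹' hl f T ∩ {j | e j < N}) ((finite_lt_nat N).subset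
        (forall_mem_image.2 fun _ h => h.2)) (he.mono inter_subset_left)).image
          fun j x => φ j x / (e j + 1)).subset ?_
      rintro _ ⟨⟨j, hj, rfl⟩, h⟩
      refine ⟨j, ⟨hj, show e j < N from lt_of_not_ge fun h' => hN.not_ge (h.trans ?_)⟩, rfl⟩
      rw [abs_div, abs_of_pos (one_pos.trans_le (k j))]
      gcongr
      exact hb j x
    · exact (div_left_inj' (one_pos.trans_le (k j)).ne').1 (h _ ⟨j, hj, rfl⟩)
  have p1 : ∀ κ, ∀ T : Set (Z ⊕ J), Cardinal.mk T = κ → P T := fun κ => by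
    induction κ using WellFoundedLT.induction with | ind κ ih => ?_
    intro T hT
    by_cases hc : T.Countable
    · exact p0 T hc
    have hκ : Cardinal.aleph0 ≤ κ := hT ▸ le_of_not_ge fun h =>
      hc (Cardinal.le_aleph0_iff_set_countable.1 h)
    obtain ⟨e⟩ : Nonempty (κ.ord.ToType ≃ T) := Cardinal.eq.1 (by simp [hT])
    let b : κ.ord.ToType → Z ⊕ J := fun a => e a
    choose F F1 F2 F3 using fun a => ih _ (show Cardinal.mk (b '' Iic a) < κ from by
      refine Cardinal.mk_image_le.trans_lt ?_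
      rw [← Iio_insert]
      exact Cardinal.mk_insert_le.trans_lt (Cardinal.add_lt_of_lt hκ
        (by simpa using Cardinal.mk_Iio_lt a) (Cardinal.one_lt_aleph0.trans_le hκ))) _ rfl
    obtain ⟨F0, g1, g2, g3⟩ := p0 ∅ countable_empty
    have fin : ∀ (I : Set κ.ord.ToType) c, c ∈ hl f (b '' I) →
        c ∈ hl f ∅ ∨ ∃ a ∈ I, c ∈ hl f (b '' Iic a) := fun I c hc => by
      obtain ⟨G, h1, h2⟩ := hl_fin f hc
      obtain ⟨H, h3, rfl⟩ := Finset.subset_set_image_iff.1 h1
      rcases H.eq_empty_or_nonempty with rfl | h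
      · exact Or.inl (by simpa using h2)
      · exact Or.inr ⟨_, h3 (H.max'_mem h), hl_mono f (by
          rw [Finset.coe_image]; exact image_mono fun a ha => H.le_max' a ha) h2⟩
    let d : κ.ord.ToType → (Z → ℝ) → Z → ℝ := fun a g x =>
      (g (r (b '' Iic a) x) - g (r (b '' Iio a) x)) / 2
    refine ⟨F0 ∪ ⋃ a, d a '' F a, ?_, fun x ε hε => ?_, fun x y h => ?_⟩
    · rintro g (h | h)
      · exact g1 g h
      · obtain ⟨a, g, hg, rfl⟩ := mem_iUnion.1 h
        refine ⟨(((F1 a g hg).1.comp (r5 _)).sub ((F1 a g hg).1.comp (r5 _))).div_const _,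
          fun x y ε h => ?_⟩
        have k := fun T => abs_le.1 ((F1 a g hg).2 (r T x) (r T y) ε fun j => by
          rw [rs, rs]; exact h _)
        exact abs_le.2 ⟨by simp only [d]; linarith [k (b '' Iic a), k (b '' Iio a)],
          by simp only [d]; linarith [k (b '' Iic a), k (b '' Iio a)]⟩
    · let C := {a | ∃ j, ε < |φ j (r (b '' Iic a) x) - φ j (r (b '' Iio a) x)|}
      have hC : C.Finite := by
        let I := {a | (C ∩ Iic a).Finite}
        have c1 : (C ∩ I).Finite := by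
          by_contra hn
          have := (Set.Infinite.cofinite_inf_principal_neBot hn)
          let U := Ultrafilter.of (cofinite ⊓ 𝓟 (C ∩ I))
          have u1 : C ∩ I ∈ U := Ultrafilter.of_le _ (mem_inf_of_right (mem_principal_self _))
          have : Nonempty J := by obtain ⟨_, ⟨j, -⟩, -⟩ := Set.Infinite.nonempty hn; exact ⟨j⟩
          choose! j hj using fun a (ha : a ∈ C) => ha
          have lim : ∀ R : κ.ord.ToType → Set κ.ord.ToType, (∀ a, R a ⊆ Iic a) →
              (∀ a, Iio a ⊆ R a) → ∃ u ∈ closure (Sum.inr ⁻¹' hl f (b '' I)),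
                (∀ z, Tendsto (fun a => φ (s (b '' R a) (j a)) z) U (𝓝 (φ u z))) ∧
                ∀ z, .inl z ∈ hl f (b '' I) → Tendsto (fun a => φ (j a) z) U (𝓝 (φ u z)) := by
            intro R R1 R2
            obtain ⟨u, -, hu⟩ := isCompact_univ.ultrafilter_le_nhds
              (U.map fun a => s (b '' R a) (j a)) (by simp)
            have h1 := fun z => ((hφ' z).tendsto u).comp hu
            refine ⟨u, isClosed_closure.mem_of_tendsto hu (mem_of_superset u1 fun a ha =>
              closure_mono (preimage_mono (hl_mono f (image_mono fun c hc => Finite.subset ha.2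
                (inter_subset_inter_right _ (Iic_subset_Iic.2 (R1 a hc)))))) (s1 _ _)), h1,
              fun z hz => (h1 z).congr' ?_⟩
            rcases fin I _ hz with h | ⟨c, c1, c2⟩
            · exact .of_forall fun a => s2 _ _ _ (subset_closure (hl_mono f (empty_subset _) h))
            · filter_upwards [u1, Ultrafilter.of_le _ (mem_inf_of_left c1.compl_mem_cofinite)]
                with a a1 a2
              exact s2 _ _ _ (subset_closure (hl_mono f (image_mono ((Iic_subset_Iio.2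
                (not_le.1 fun h => a2 ⟨a1.1, h⟩)).trans (R2 a))) c2))
          obtain ⟨u, u2, u3, u4⟩ := lim Iic (fun _ => subset_rfl) fun _ => Iio_subset_Iic_self
          obtain ⟨v, v2, v3, v4⟩ := lim Iio (fun _ => Iio_subset_Iic_self) fun _ => subset_rfl
          have k1 : φ u x = φ v x := by
            rw [← r2 _ x u u2, ← r2 _ x v v2]
            exact closure_minimal (fun z hz => tendsto_nhds_unique (u4 z hz) (v4 z hz))
              (isClosed_eq (hφ u) (hφ v)) (r1 _ x)
          have k2 := ge_of_tendsto ((u3 x).sub (v3 x)).abs (mem_of_superset u1 fun a ha => by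
            have := (hj a ha.1).le
            rwa [rs, rs] at this)
          rw [k1, sub_self, abs_zero] at k2
          exact k2.not_gt hε
        suffices ∀ a, a ∈ I from c1.subset fun a ha => And.intro ha (this a)
        intro a
        induction a using WellFoundedLT.induction with | ind a ih => ?_
        exact (c1.insert a).subset fun c hc => (eq_or_lt_of_le hc.2).imp id fun h => ⟨hc.1, ih c h⟩
      refine ((g2 x ε hε).union (hC.biUnion fun a _ => ((F2 a (r (b '' Iic a) x) ε hε).union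
        (F2 a (r (b '' Iio a) x) ε hε)).image (d a))).subset ?_
      rintro g ⟨h | h, hg⟩
      · exact Or.inl ⟨h, hg⟩
      obtain ⟨a, g, h', rfl⟩ := mem_iUnion.1 h
      simp only [d, abs_div, abs_two] at hg
      refine Or.inr (mem_biUnion (x := a) (by_contra fun e => ?_) ⟨g, by_contra fun hn => ?_, rfl⟩)
      · linarith [(F1 a g h').2 _ _ ε fun j => not_lt.1 fun h => e ⟨j, h⟩]
      · simp only [mem_union, mem_ofPred_eq, h', true_and, not_or, not_le] at hn
        linarith [abs_sub (g (r (b '' Iic a) x)) (g (r (b '' Iio a) x))]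
    · have k0 := (r3 _ _ _).1 (g3 x y fun g hg => h g (Or.inl hg))
      have k : ∀ a, r (b '' Iic a) x = r (b '' Iic a) y := fun a => by
        induction a using WellFoundedLT.induction with | ind a ih => ?_
        have e : r (b '' Iio a) x = r (b '' Iio a) y := (r3 _ _ _).2 fun j hj =>
          (fin _ _ hj).elim (k0 j) fun ⟨c, c1, c2⟩ => (r3 _ _ _).1 (ih c c1) j c2
        rw [← r4 _ _ (r1 _ x), ← r4 _ _ (r1 _ y)]
        exact F3 a _ _ fun g hg => by
          have := h _ (Or.inr (mem_iUnion.2 ⟨a, g, hg, rfl⟩))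
          simp only [d, e] at this
          linarith
      refine (r3 _ _ _).2 fun j hj => (fin univ _ (by
        rwa [image_univ, show range b = T from by
          rw [← Subtype.range_coe (s := T)]; exact e.surjective.range_comp _])).elim (k0 j)
        fun ⟨c, _, c2⟩ => (r3 _ _ _).1 (k c) j c2
  obtain ⟨F, F1, F2, F3⟩ := p1 _ univ rfl
  have r6 : ∀ x, r univ x = x := fun x => r4 _ _ (subset_closure (le_hl f _ trivial))
  exact ⟨F, fun x g => g.1 x, ((continuous_pi fun g => (F1 _ g.2).1).isClosedEmbedding fun x y h => by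
    rw [← r6 x, F3 x y fun g hg => congrFun h ⟨g, hg⟩, r6]).isEmbedding, fun x ε hε =>
    ((F2 x ε hε).preimage Subtype.val_injective.injOn).subset fun g hg => And.intro g.2 hg⟩

lemma dl {Z : Type} [TopologicalSpace Z] {D : Set Z} (hD : Dense D) {H : Set (Z → ℝ)}
    (hH : ∀ h ∈ H, Continuous h) (hl : ∀ (h : ℕ → Z → ℝ) (d : ℕ → Z) (a b : ℕ → ℝ) (c : ℝ),
      (∀ i, h i ∈ H) → (∀ n, d n ∈ D) → (∀ i, Tendsto (fun n => h i (d n)) atTop (𝓝 (a i))) →
      (∀ n, Tendsto (fun i => h i (d n)) atTop (𝓝 (b n))) → Tendsto a atTop (𝓝 c) →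
      c ∈ closure (range b)) {g : Z → ℝ} (hg : g ∈ closure H) : Continuous g := by
  classical
  suffices h : ∀ z, Tendsto g (𝓝[D] z) (𝓝 (g z)) from
    (continuous_extendFrom hD fun z => ⟨_, h z⟩).congr fun z => extendFrom_eq (hD z) (h z)
  intro z
  refine Metric.tendsto_nhds.2 fun ε hε => by_contra fun hn => ?_
  have h1 : ∀ (G : Finset Z) (n : ℕ), ∃ h ∈ H, ∀ w ∈ insert z G, dist (h w) (g w) < 1 / (n + 1) :=
    fun G n => by
      obtain ⟨h, h1, h2⟩ := mem_closure_iff.1 hg _ (H5C.isOpen_box (insert z G) g (1 / (n + 1)))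
        fun c _ => by simp; positivity
      exact ⟨h, h2, h1⟩
  have h2 : ∀ (E : Finset (Z → ℝ)) (n : ℕ), ∃ d ∈ D, ¬ dist (g d) (g z) < ε ∧
      ∀ h ∈ E, h ∈ H → dist (h d) (h z) < 1 / (n + 1) := fun E n => by
    have : ∀ᶠ d in 𝓝[D] z, d ∈ D ∧ ∀ h ∈ E, h ∈ H → dist (h d) (h z) < 1 / (n + 1) :=
      eventually_mem_nhdsWithin.and (nhdsWithin_le_nhds ((eventually_all_finset E).2 fun h _ =>
        eventually_imp_distrib_left.2 fun hh => Metric.tendsto_nhds.1 ((hH h hh).tendsto z) _
          (by positivity)))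
    obtain ⟨d, d1, d2, d3⟩ := ((not_eventually.1 hn).and_eventually this).exists
    exact ⟨d, d2, d1, d3⟩
  choose p p1 p2 using h1
  choose q q1 q2 q3 using h2
  let s : ℕ → Finset Z × Finset (Z → ℝ) := fun n => Nat.rec (∅, ∅)
    (fun n t => (insert (q t.2 n) t.1, insert (p t.1 n) t.2)) n
  have m1 : Monotone fun n => (s n).1 := monotone_nat_of_le_succ fun n => Finset.subset_insert _ _
  have m2 : Monotone fun n => (s n).2 := monotone_nat_of_le_succ fun n => Finset.subset_insert _ _
  have t : ∀ (u : ℕ → ℝ) c, (∀ᶠ n in atTop, dist (u n) c < 1 / ((n : ℝ) + 1)) →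
      Tendsto u atTop (𝓝 c) := fun u c h => tendsto_iff_dist_tendsto_zero.2
    (squeeze_zero' (.of_forall fun _ => dist_nonneg) (h.mono fun _ => le_of_lt)
      tendsto_one_div_add_atTop_nhds_zero_nat)
  obtain ⟨_, ⟨n, rfl⟩, h⟩ := Metric.mem_closure_iff.1 (hl (fun i => p (s i).1 i)
    (fun n => q (s n).2 n) (fun i => p (s i).1 i z) (fun n => g (q (s n).2 n)) (g z)
    (fun _ => p1 _ _) (fun _ => q1 _ _)
    (fun i => t _ _ ((eventually_ge_atTop (i + 1)).mono fun n hn => q3 _ _ _
      (m2 hn (Finset.mem_insert_self _ _)) (p1 _ _)))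
    (fun n => t _ _ ((eventually_ge_atTop (n + 1)).mono fun i hi => p2 _ _ _
      (Finset.mem_insert_of_mem (m1 hi (Finset.mem_insert_self _ _)))))
    (t _ _ (.of_forall fun i => p2 _ _ _ (Finset.mem_insert_self _ _)))) ε hε
  exact q2 _ _ (by rwa [dist_comm])

lemma cc_closed {Z Γ : Type} [TopologicalSpace Z] [T2Space Z] {e : Z → Γ → ℝ} (he : IsEmbedding e)
    (h : ∀ s, (Function.support (e s)).Countable) {C : Set Z} (hC : IsCountablyCompact C) :
    IsClosed C := isClosed_of_closure_subset fun p hp => by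
  obtain ⟨B, b1, b2, b3⟩ := sigma_tight he h C p hp
  let S := Function.support (e p) ∪ ⋃ b ∈ B, Function.support (e b)
  have : Countable S := ((h p).union (b2.biUnion fun b _ => h b)).to_subtype
  let ρ : Z → S → ℝ := fun z γ => e z γ
  have hρ : Continuous ρ := continuous_pi fun γ => (continuous_apply _).comp he.continuous
  obtain ⟨u, u1, u2⟩ := mem_closure_iff_seq_limit.1 (image_closure_subset_closure_image hρ
    (mem_image_of_mem ρ b3))
  choose v v1 v2 using u1
  have hv : Tendsto v atTop (𝓝 p) := he.tendsto_nhds_iff.2 (tendsto_pi_nhds.2 fun γ => by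
    by_cases k : γ ∈ S
    · exact (tendsto_pi_nhds.1 u2 ⟨γ, k⟩).congr fun n => (congrFun (v2 n) ⟨γ, k⟩).symm
    · rw [Function.notMem_support.1 fun h => k (Or.inl h)]
      exact tendsto_const_nhds.congr fun n => (Function.notMem_support.1 fun h =>
        k (Or.inr (mem_biUnion (v1 n) h))).symm)
  obtain ⟨a, a1, a2⟩ := hC.seq_clusterPt v (.of_forall fun n => b1 (v1 n))
  rwa [← eq_of_nhds_neBot (a2.clusterPt.mono hv).neBot]

lemma bdd {X ι : Type} [Countable ι] [TopologicalSpace X] {A : Set X}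
    (hA : ∀ f : X → ℝ, Continuous f → ∃ C : ℝ, ∀ x ∈ A, |f x| ≤ C) {g : ι → X → ℝ}
    (hg : ∀ i, Continuous (g i)) (U : Ultrafilter ℕ) {x : ℕ → X} (hx : ∀ᶠ n in U, x n ∈ A) :
    ∃ y, ∀ i, Tendsto (fun n => g i (x n)) U (𝓝 (g i y)) := by
  let Φ : X → ι → ℝ := fun x i => g i x
  have hΦ : Continuous Φ := continuous_pi hg
  choose C hC using fun i => hA _ (hg i)
  obtain ⟨p, -, hp⟩ := (isCompact_univ_pi fun i => isCompact_Icc (a := -C i) (b := C i)
    ).ultrafilter_le_nhds (U.map fun n => Φ (x n)) (le_principal_iff.2 (mem_map.2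
      (hx.mono fun n hn i _ => abs_le.1 (hC i _ hn))))
  by_cases h : ∃ y, Φ y = p
  · obtain ⟨y, rfl⟩ := h
    exact ⟨y, tendsto_pi_nhds.1 hp⟩
  let := TopologicalSpace.metrizableSpaceMetric (ι → ℝ)
  have k : ∀ y, 0 < dist (Φ y) p := fun y => dist_pos.2 fun e => h ⟨y, e⟩
  obtain ⟨D, hD⟩ := hA (fun y => (dist (Φ y) p)⁻¹) ((hΦ.dist continuous_const).inv₀
    fun y => (k y).ne')
  have := (tendsto_inv_nhdsGT_zero.comp (tendsto_nhdsWithin_iff.2 ⟨tendsto_iff_dist_tendsto_zero.1
    hp, .of_forall fun n => k (x n)⟩)).eventually_gt_atTop D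
  obtain ⟨n, n1, n2⟩ := (this.and hx).exists
  exact absurd ((le_abs_self _).trans (hD _ n2)) n1.not_ge

theorem main {X : Type} [TopologicalSpace X] {A : ℕ → Set X}
    (hA : ∀ n, ∀ f : X → ℝ, Continuous f → ∃ C : ℝ, ∀ x ∈ A n, |f x| ≤ C) (hd : Dense (⋃ n, A n))
    {K : Set (X → ℝ)} (hK : ∀ f ∈ K, Continuous f) (hc : IsCountablyCompact K) :
    IsCompact K ∧ ∃ (Γ : Type) (e : K → (Γ → ℝ)), IsEmbedding e ∧
      ∀ k : K, ∀ ε : ℝ, 0 < ε → {γ : Γ | ε ≤ |e k γ|}.Finite := by
  let Y := Σ n, A n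
  let ψ : (X → ℝ) → Y → ℝ := fun f y => (2 * ((y.1 : ℝ) + 1))⁻¹ * Real.arctan (f y.2)
  have ca : ∀ (t : ℝ) (x : X), Continuous fun f : X → ℝ => t * Real.arctan (f x) := fun t x =>
    continuous_const.mul (Real.continuous_arctan.comp (continuous_apply x))
  have hψ : Continuous ψ := continuous_pi fun y => ca _ _
  have ab : ∀ t, |Real.arctan t| ≤ 2 := fun t => abs_le.2
    ⟨by linarith [Real.neg_pi_div_two_lt_arctan t, Real.pi_le_four],
      by linarith [Real.arctan_lt_pi_div_two t, Real.pi_le_four]⟩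
  have b0 : ∀ f y, |ψ f y| ≤ 1 / ((y.1 : ℝ) + 1) := fun f y => by
    rw [abs_mul, abs_of_pos (by positivity), inv_mul_le_iff₀ (by positivity)]
    exact (ab _).trans_eq (by field_simp)
  have cpt : ∀ {ι : Type} (S : Set (ι → ℝ)), (∀ s ∈ S, ∀ i, |s i| ≤ 1) →
      CompactSpace (closure S) ∧ ∀ s ∈ closure S, ∀ i, |s i| ≤ 1 := fun {ι} S h => by
    have k := isCompact_univ_pi fun _ : ι => isCompact_Icc (a := (-1 : ℝ)) (b := 1)
    have k' := k.isClosed.closure_subset_iff.2 fun s hs i _ => abs_le.1 (h s hs i)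
    exact ⟨isCompact_iff_compactSpace.1 (k.of_isClosed_subset isClosed_closure k'),
      fun s hs i => abs_le.2 (k' hs i trivial)⟩
  obtain ⟨z1, z2⟩ := cpt (ψ '' K) (forall_mem_image.2 fun f _ y => (b0 f y).trans
    (div_le_one_of_le₀ (by simp) (by positivity)))
  let Z := closure (ψ '' K)
  let H : Set (Z → ℝ) := range fun y z => z.1 y
  obtain ⟨j1, j2⟩ := cpt H (forall_mem_range.2 fun y z => z2 _ z.2 y)
  have hH : ∀ g ∈ closure H, Continuous g := fun g => by
    refine dl (D := Subtype.val ⁻¹' (ψ '' K)) (Subtype.dense_iff.2 (by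
      rw [image_preimage_eq_of_subset (by rw [Subtype.range_coe]; exact subset_closure)])) (forall_mem_range.2
        fun y => (continuous_apply y).comp continuous_subtype_val) fun h d a b c h1 h2 h3 h4 h5 => ?_
    choose y hy using h1
    choose f f1 f2 using h2
    have e0 : ∀ i n, h i (d n) = ψ (f n) (y i) := fun i n => by rw [← hy, f2]; rfl
    simp only [e0] at h3 h4
    obtain ⟨g, g1, g2⟩ := hc.seq_clusterPt f (.of_forall f1)
    have e : ∀ i, ψ g (y i) = a i := fun i => eq_of_nhds_neBot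
      ((g2.continuousAt_comp (ca _ _).continuousAt).clusterPt.mono (h3 i)).neBot
    let U := hyperfilter ℕ
    have u : (U : Filter ℕ) ≤ atTop := Nat.cofinite_eq_atTop ▸ hyperfilter_le_cofinite
    obtain ⟨t, x, hx⟩ : ∃ t x, ∀ o : Option ℕ, Tendsto (fun i => ψ (o.elim g f) (y i)) U
        (𝓝 (t * Real.arctan (o.elim g f x))) := by
      rcases (U.map fun i => (y i).1).le_cofinite_or_eq_pure with k | ⟨m, k⟩
      · refine ⟨0, (y 0).2, fun o => ?_⟩
        rw [zero_mul]
        exact squeeze_zero_norm (fun i => b0 _ _) (tendsto_one_div_add_atTop_nhds_zero_nat.comp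
          (Nat.cofinite_eq_atTop ▸ k))
      · have k : ∀ᶠ i in U, (y i).1 = m := by
          change {m} ∈ U.map fun i => (y i).1
          rw [k]; rfl
        obtain ⟨x, hx⟩ := bdd (hA m) (g := fun o : Option ℕ => o.elim g f) (fun o => hK _ (by
          cases o; exacts [g1, f1 _])) U (x := fun i => (y i).2) (k.mono fun i hi => hi ▸ (y i).2.2)
        exact ⟨_, x, fun o => (((Real.continuous_arctan.tendsto _).comp (hx o)).const_mul
          (2 * ((m : ℝ) + 1))⁻¹).congr' (k.mono fun i hi => by simp [ψ, hi])⟩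
    rw [tendsto_nhds_unique (h5.mono_left u) ((hx none).congr e)]
    have g3 := g2.continuousAt_comp (ca t x).continuousAt
    exact isClosed_closure.mem_of_mapClusterPt g3
      (.of_forall fun n => subset_closure ⟨n, tendsto_nhds_unique ((h4 n).mono_left u) (hx (some n))⟩)
  obtain ⟨Γ, e, e1, e2⟩ := amir (Z := Z) (J := closure H) (φ := fun j z => j.1 z)
    (fun j => hH _ j.2) (fun z => (continuous_apply z).comp continuous_subtype_val)
    (fun j => j2 _ j.2) fun x y h => Subtype.ext (funext fun w => h ⟨_, subset_closure ⟨w, rfl⟩⟩)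
  let π : K → Z := fun f => ⟨ψ f, subset_closure ⟨f, f.2, rfl⟩⟩
  have π1 : Continuous π := (hψ.comp continuous_subtype_val).subtype_mk _
  have := isCountablyCompact_iff_countablyCompactSpace.1 hc
  have π2 : IsClosedEmbedding π := .of_continuous_injective_isClosedMap π1 (fun f g h =>
    Subtype.ext (Continuous.ext_on hd (hK _ f.2) (hK _ g.2) fun x hx => by
      obtain ⟨n, hn⟩ := mem_iUnion.1 hx
      exact Real.arctan_injective (mul_left_cancel₀ (by positivity)
        (congrFun (congrArg Subtype.val h) ⟨n, x, hn⟩))))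
    fun C hC => cc_closed e1 (fun s => (countable_iUnion fun n : ℕ => (e2 s (1 / (n + 1))
      (by positivity)).countable).mono fun γ h => by
        obtain ⟨n, hn⟩ := exists_nat_one_div_lt (abs_pos.2 h)
        exact mem_iUnion.2 ⟨n, hn.le⟩) (hC.isCountablyCompact.image π1)
  exact ⟨isCompact_iff_compactSpace.2 π2.compactSpace, Γ, e ∘ π, e1.comp π2.isEmbedding,
    fun k => e2 _⟩

end H5AL
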