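import Pool.Agent.Lib.helper5.CpEquiv

/-! Analyticity is preserved by continuous linear surjections of function spaces. -/

open Set Filter Topology

namespace H5E

variable {X Y : Type} [TopologicalSpace X] [TopologicalSpace Y]

lemma dual_rep (μ : C(X, ℝ) →ₗ[ℝ] ℝ) (h : PC μ) :
    ∃ n, ∃ c : Fin n → ℝ, ∃ x : Fin n → X, ∀ f, μ f = ∑ i, c i * f (x i) := by
  let ev : X → C(X, ℝ) →ₗ[ℝ] ℝ := fun x => ⟨⟨fun f => f x, fun _ _ => rfl⟩, fun _ _ => rfl⟩
  have : μ ∈ Submodule.span ℝ (range ev) := by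
    rw [LinearMap.mem_span_iff_continuous]
    have : tp X = ⨅ i, TopologicalSpace.induced (ev i) inferInstance := induced_to_pi _
    rw [← this]; exact h
  obtain ⟨n, c, g, rfl⟩ := Submodule.mem_span_set'.1 this
  choose x hx using fun i => (g i).2
  exact ⟨n, c, x, fun f => by simp [← hx, ev]⟩

lemma emb_of_surj [T35Space Y] {A : Type} {T : A → C(Y, ℝ)} (h : Function.Surjective T) :
    IsEmbedding fun y a => T a y := by
  refine IsInducing.isEmbedding (isInducing_iff_nhds.2 fun y => le_antisymm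
    (continuous_pi fun a => (T a).2).continuousAt.le_comap fun U hU => ?_)
  obtain ⟨V, v1, v2, v3⟩ := mem_nhds_iff.1 hU
  obtain ⟨f, f1, f2, f3⟩ := CompletelyRegularSpace.completely_regular_isOpen y V v2 v3
  obtain ⟨a, ha⟩ := h ⟨fun z => f z, by fun_prop⟩
  refine ⟨{ν | ν a < 1}, (isOpen_lt (continuous_apply a) continuous_const).mem_nhds
    (by simp [ha, f2]), fun z hz => v1 (by_contra fun hn => ?_)⟩
  simp [ha, f3 hn] at hz

theorem anal [T35Space Y] [Nonempty Y] {g : (ℕ → ℕ) → X} (g1 : Continuous g)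
    (g2 : Function.Surjective g) (T : C(X, ℝ) →ₗ[ℝ] C(Y, ℝ))
    (t1 : @Continuous _ _ (tp X) (tp Y) T) (t2 : Function.Surjective T) :
    ∃ k : (ℕ → ℕ) → Y, Continuous k ∧ Function.Surjective k := by
  let P := Σ n : ℕ, Fin n → ℝ × (ℕ → ℕ)
  let π : P → C(X, ℝ) → ℝ := fun p f => ∑ i, (p.2 i).1 * f (g (p.2 i).2)
  have hπ : Continuous π := continuous_sigma fun n => continuous_pi fun f => by
    show Continuous fun a : Fin n → ℝ × (ℕ → ℕ) => ∑ i, (a i).1 * f (g (a i).2)
    fun_prop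
  have hj := emb_of_surj t2
  have s : ∀ y, ∃ p, π p = fun f => T f y := fun y => by
    obtain ⟨n, c, x, h⟩ := dual_rep ⟨⟨fun f => T f y, fun _ _ => by simp⟩, fun _ _ => by simp⟩
      (@Continuous.comp _ _ _ (tp X) (tp Y) _ _ _ (PC.eval y) t1)
    choose a ha using fun i => g2 (x i)
    exact ⟨⟨n, fun i => (c i, a i)⟩, funext fun f => by simpa [π, ha] using (h f).symm⟩
  have hZ : IsClosed (π ⁻¹' range fun y f => T f y) := by
    refine isClosed_of_closure_subset fun p hp => by_contra fun hn => ?_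
    obtain ⟨C, c1, c2⟩ := TopologicalSpace.isOpen_iUnion_countable (fun f => {z | π z f ≠ π p f})
      fun f => isOpen_ne_fun ((continuous_apply f).comp hπ) continuous_const
    have := c1.to_subtype
    let := TopologicalSpace.metrizableSpaceMetric (C → ℝ)
    let h : (C(X, ℝ) → ℝ) → ℝ := fun ν => dist (fun f : C => ν f) fun f => π p f
    have h1 : Continuous h := Continuous.dist (by fun_prop) continuous_const
    have h2 : ∀ y, h (fun f => T f y) ≠ 0 := fun y e => by
      obtain ⟨z, hz⟩ := s y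
      obtain ⟨f, hf⟩ := Function.ne_iff.1 (show π z ≠ π p from fun e => hn ⟨y, hz.symm.trans e⟩)
      obtain ⟨f', a, b⟩ := mem_iUnion₂.1 (c2.ge (mem_iUnion.2 ⟨f, hf⟩))
      exact b ((congrFun hz f').trans (congrFun (dist_eq_zero.1 e) ⟨f', a⟩))
    obtain ⟨f, hf⟩ := t2 ⟨fun y => (h fun f => T f y)⁻¹, (h1.comp hj.continuous).inv₀ h2⟩
    have : h (π p) * π p f = 1 := closure_minimal (t := {z | h (π z) * π z f = 1}) (by
      rintro z ⟨y, hy⟩
      simp only [mem_ofPred_eq, ← hy, hf]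
      exact mul_inv_cancel₀ (h2 y)) (isClosed_eq (by fun_prop) continuous_const) hp
    simp [h] at this
  have := hZ.polishSpace
  have : Nonempty (π ⁻¹' range fun y f => T f y) := by
    obtain ⟨z, hz⟩ := s (Classical.arbitrary Y)
    exact ⟨⟨z, _, hz.symm⟩⟩
  obtain ⟨k, k1, k2⟩ := PolishSpace.exists_nat_nat_continuous_surjective
    (π ⁻¹' range fun y f => T f y)
  choose l hl using fun a => (k a).2
  refine ⟨l, hj.continuous_iff.2 ?_, fun y => ?_⟩
  · exact (hπ.comp (continuous_subtype_val.comp k1)).congr fun a => (hl a).symm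
  · obtain ⟨z, hz⟩ := s y
    obtain ⟨a, ha⟩ := k2 ⟨z, y, hz.symm⟩
    exact ⟨a, hj.injective ((hl a).trans (by rw [ha]; exact hz))⟩

end H5E
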