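import Pool.Agent.Lib.helper5.Face

/-! The dual of the space of bounded functions on a set is a Plichko space. -/

open Set Filter Topology TopologicalSpace Function
open scoped BoundedContinuousFunction RealInnerProductSpace

namespace H5B

lemma hb {V F : Type} [AddCommGroup V] [Module ℝ V] [NormedAddCommGroup F] [NormedSpace ℝ F]
    (e : V →ₗ[ℝ] F) (φ : V →ₗ[ℝ] ℝ) (q : F → ℝ) (h1 : ∀ c : ℝ, 0 < c → ∀ x, q (c • x) = c * q x)
    (h2 : ∀ x y, q (x + y) ≤ q x + q y) {C : ℝ} (h3 : ∀ x, q x ≤ C * ‖x‖)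
    (h : ∀ v, φ v ≤ q (e v)) : ∃ g : F →L[ℝ] ℝ, (∀ v, g (e v) = φ v) ∧ ∀ x, g x ≤ q x := by
  have h0 : q 0 = 0 := by
    have := h1 2 two_pos 0
    rw [smul_zero] at this
    linarith
  obtain ⟨ψ, hψ⟩ : φ ∈ LinearMap.range e.dualMap := by
    rw [LinearMap.range_dualMap_eq_dualAnnihilator_ker, Submodule.mem_dualAnnihilator]
    intro v hv
    have k1 := h v
    have k2 := h (-v)
    rw [map_neg, map_neg, show e v = 0 from hv, neg_zero] at k2
    rw [show e v = 0 from hv] at k1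
    linarith
  have k : ∀ v, ψ (e v) = φ v := fun v => hψ ▸ rfl
  obtain ⟨g, g1, g2⟩ := exists_extension_of_le_sublinear (ψ.toPMap (LinearMap.range e)) q h1 h2
    fun ⟨_, v, rfl⟩ => (k v).trans_le (h v)
  refine ⟨g.mkContinuous C fun x => abs_le.2 ⟨?_, (g2 x).trans (h3 x)⟩, fun v =>
    (g1 ⟨_, v, rfl⟩).trans (k v), g2⟩
  have := (g2 (-x)).trans (h3 _)
  rw [map_neg, norm_neg] at this
  linarith

/-- type synonym -/
def Hs (E : Type) : Type := E

lemma hil {E : Type} [NormedAddCommGroup E] [NormedSpace ℝ E] (B : E →L[ℝ] E →L[ℝ] ℝ)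
    (h1 : ∀ f g, B f g = B g f) (h2 : ∀ f, 0 ≤ B f f) :
    (∀ f g, |B f g| ≤ √(B f f) * √(B g g)) ∧ ∃ M : Set (E →L[ℝ] ℝ),
      (∀ θ ∈ M, ∀ f, |θ f| ≤ √(B f f)) ∧
      (∀ θ : E →L[ℝ] ℝ, (∃ C, ∀ f, |θ f| ≤ C * √(B f f)) →
        θ ∈ (Submodule.span ℝ M).topologicalClosure) ∧
      ∀ F : (E →L[ℝ] ℝ) →L[ℝ] ℝ, {m ∈ M | F m ≠ 0}.Countable := by
  let : AddCommGroup (Hs E) := inferInstanceAs (AddCommGroup E)
  let : Module ℝ (Hs E) := inferInstanceAs (Module ℝ E)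
  let c : PreInnerProductSpace.Core ℝ (Hs E) :=
    { inner := fun f g => B f g
      conj_inner_symm := fun f g => h1 g f
      re_inner_nonneg := h2
      add_left := fun f g h => congrArg (· h) (B.map_add f g)
      smul_left := fun f g r => congrArg (· g) (B.map_smul r f) }
  let : SeminormedAddCommGroup (Hs E) := InnerProductSpace.Core.toSeminormedAddCommGroup (𝕜 := ℝ)
  let : InnerProductSpace ℝ (Hs E) := .ofCore c
  let j0 : E →ₗ[ℝ] UniformSpace.Completion (Hs E) :=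
    (UniformSpace.Completion.toComplL (𝕜 := ℝ) (E := Hs E)).toLinearMap
  have j1 : ∀ f, ‖j0 f‖ = √(B f f) := fun f => UniformSpace.Completion.norm_coe (E := Hs E) f
  have j2 : DenseRange j0 := UniformSpace.Completion.denseRange_coe (α := Hs E)
  refine ⟨fun f g => abs_real_inner_le_norm (F := Hs E) f g, ?_⟩
  let j := j0.mkContinuous √‖B‖ fun f => by
    rw [j1, ← Real.sqrt_mul_self (norm_nonneg f), ← Real.sqrt_mul (norm_nonneg B), ← mul_assoc]
    exact Real.sqrt_le_sqrt ((le_abs_self _).trans (B.le_opNorm₂ f f))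
  let T : UniformSpace.Completion (Hs E) →L[ℝ] E →L[ℝ] ℝ :=
    ContinuousLinearMap.precomp ℝ j ∘L innerSL ℝ
  obtain ⟨w, b, hb⟩ := exists_hilbertBasis ℝ (UniformSpace.Completion (Hs E))
  refine ⟨T '' range b, ?_, fun θ ⟨C, hC⟩ => ?_, fun F => ?_⟩
  · rintro _ ⟨_, ⟨i, rfl⟩, rfl⟩ f
    exact (abs_real_inner_le_norm (b i) (j0 f)).trans_eq (by
      rw [b.orthonormal.norm_eq_one, one_mul, j1])
  · obtain ⟨h, hh⟩ := (InnerProductSpace.toDual ℝ _).surjective (θ.toLinearMap.extendOfNorm j0)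
    have : θ = T h := ContinuousLinearMap.ext fun f =>
      (LinearMap.extendOfNorm_eq (f := θ.toLinearMap) j2 ⟨C, fun f => j1 f ▸ hC f⟩ f).symm.trans
        (hh ▸ rfl)
    rw [this, show T '' range b = T.toLinearMap '' range b from rfl, ← Submodule.map_span]
    exact Submodule.topologicalClosure_map T _ ⟨h, b.dense_span.ge trivial, rfl⟩
  · obtain ⟨h, hh⟩ := (InnerProductSpace.toDual ℝ _).surjective (F ∘L T)
    refine (((b.orthonormal.inner_products_summable h).countable_support).image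
      fun i => T (b i)).mono ?_
    rintro _ ⟨⟨_, ⟨i, rfl⟩, rfl⟩, k⟩
    refine ⟨i, fun n => k ?_, rfl⟩
    rw [show F (T (b i)) = ⟪h, b i⟫ from congrArg (· (b i)) hh.symm, real_inner_comm]
    simpa using n

/-- dual space -/
abbrev Du (E : Type) [NormedAddCommGroup E] [NormedSpace ℝ E] := E →L[ℝ] ℝ

variable {G : Type} [TopologicalSpace G] [DiscreteTopology G]

/-- positive functional -/
def Pos (μ : Du (G →ᵇ ℝ)) : Prop := ∀ f, 0 ≤ f → 0 ≤ μ f

/-- mutually singular functionals -/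
def Sing (a b : Du (G →ᵇ ℝ)) : Prop := ∀ ε > 0, ∃ A : Set G, ∀ f : G →ᵇ ℝ, ‖f‖ ≤ 1 →
  ((∀ x ∉ A, f x = 0) → |a f| ≤ ε) ∧ ((∀ x ∈ A, f x = 0) → |b f| ≤ ε)

variable {μ ν a b c : Du (G →ᵇ ℝ)}

omit [DiscreteTopology G] in
lemma Pos.mono (h : Pos μ) {f g : G →ᵇ ℝ} (k : ∀ x, f x ≤ g x) : μ f ≤ μ g := by
  linarith [h (g - f) fun x => sub_nonneg.2 (k x), μ.map_sub g f]

omit [DiscreteTopology G] in
lemma Pos.norm (h : Pos μ) : ‖μ‖ ≤ μ 1 := by
  have k : ∀ f, μ f ≤ μ 1 * ‖f‖ := fun f => (h.mono (g := ‖f‖ • 1) fun x => by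
    simpa using (le_abs_self _).trans (f.norm_coe_le_norm x)).trans_eq (by simp [mul_comm])
  refine μ.opNorm_le_bound (h 1 fun _ => zero_le_one) fun f => abs_le.2 ⟨?_, k f⟩
  have := k (-f)
  rw [norm_neg, map_neg] at this
  linarith

lemma cut (A : Set G) (f : G →ᵇ ℝ) : ∃ g h : G →ᵇ ℝ, f = g + h ∧ ‖g‖ ≤ ‖f‖ ∧ ‖h‖ ≤ ‖f‖ ∧
    (∀ x ∈ A, g x = f x ∧ h x = 0) ∧ ∀ x ∉ A, g x = 0 ∧ h x = f x := by
  have k : ∀ (A : Set G) x, ‖A.indicator f x‖ ≤ ‖f‖ := fun A x =>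
    (norm_indicator_le_norm_self f x).trans (f.norm_coe_le_norm x)
  exact ⟨.ofNormedAddCommGroupDiscrete _ _ (k A), .ofNormedAddCommGroupDiscrete _ _ (k Aᶜ),
    BoundedContinuousFunction.ext fun x => (indicator_self_add_compl_apply A f x).symm,
    (BoundedContinuousFunction.norm_le (norm_nonneg _)).2 (k A),
    (BoundedContinuousFunction.norm_le (norm_nonneg _)).2 (k Aᶜ),
    fun x h => by simp [h], fun x h => by simp [h]⟩

omit [DiscreteTopology G] in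
lemma Sing.symm (h : Sing a b) : Sing b a := fun ε e => by
  obtain ⟨A, h⟩ := h ε e
  exact ⟨Aᶜ, fun f k => ⟨fun n => (h f k).2 fun x m => n x fun j => j m, (h f k).1⟩⟩

lemma Sing.le (h : Sing a b) : ‖a‖ ≤ ‖a + b‖ := by
  refine le_of_forall_pos_le_add fun ε e => ContinuousLinearMap.opNorm_le_of_unit_norm
    (by positivity) fun f hf => ?_
  obtain ⟨A, h⟩ := h (ε / 2) (half_pos e)
  obtain ⟨g, k, rfl, h1, h2, h3, h4⟩ := cut A f
  rw [hf] at h1 h2
  have k1 := abs_le.1 ((h g h1).1 fun x n => (h4 x n).1)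
  have k2 := abs_le.1 ((h k h2).2 fun x n => (h3 x n).2)
  have k3 := abs_le.1 ((a + b).unit_le_opNorm k h2)
  rw [add_apply] at k3
  rw [map_add]
  exact abs_le.2 ⟨by linarith, by linarith⟩

lemma Sing.span {S : Set (Du (G →ᵇ ℝ))} (h : ∀ b ∈ S, Sing a b)
    (hb : b ∈ Submodule.span ℝ S) : Sing a b := by
  induction hb using Submodule.span_induction with
  | mem x hx => exact h x hx
  | zero => exact fun ε e => ⟨∅, fun f _ => ⟨fun k => by
      rw [show f = 0 from BoundedContinuousFunction.ext fun x => k x id]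
      simpa using e.le, fun _ => by simpa using e.le⟩⟩
  | add b c _ _ hb hc =>
    intro ε e
    obtain ⟨A, hA⟩ := hb (ε / 2) (half_pos e)
    obtain ⟨B, hB⟩ := hc (ε / 2) (half_pos e)
    refine ⟨A ∪ B, fun f hf => ⟨fun n => ?_, fun n => (abs_add_le (b f) (c f)).trans ?_⟩⟩
    · obtain ⟨g, k, e, h1, h2, h3, h4⟩ := cut A f
      rw [e, map_add]
      refine (abs_add_le _ _).trans ?_
      linarith [(hA g (h1.trans hf)).1 fun x m => (h4 x m).1, (hB k (h2.trans hf)).1 fun x m =>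
        (em (x ∈ A)).elim (fun j => (h3 x j).2) fun j => (h4 x j).2.trans (n x (·.elim j m))]
    · linarith [(hA f hf).2 fun x m => n x (Or.inl m), (hB f hf).2 fun x m => n x (Or.inr m)]
  | smul t b _ hb =>
    intro ε e
    obtain ⟨A, hA⟩ := hb (ε / (|t| + 1)) (by positivity)
    refine ⟨A, fun f hf => ⟨fun n => ((hA f hf).1 n).trans (div_le_self e.le (by simp)),
      fun n => ?_⟩⟩
    have := (le_div_iff₀ (by positivity)).1 ((hA f hf).2 n)
    rw [smul_apply, smul_eq_mul, abs_mul]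
    nlinarith [abs_nonneg (b f)]

omit [DiscreteTopology G] in
lemma Sing.dom (h : Sing a μ) (k : ∀ f, |b f| ≤ √(μ (f * f))) : Sing a b := fun ε e => by
  obtain ⟨A, h⟩ := h (min ε (ε ^ 2)) (by positivity)
  refine ⟨A, fun f hf => ⟨fun n => ((h f hf).1 n).trans (min_le_left ..), fun n =>
    (k f).trans (Real.sqrt_le_iff.2 ⟨e.le, (le_abs_self _).trans (((h _ ((norm_mul_le f f).trans
      (mul_le_one₀ hf (norm_nonneg _) hf))).2 fun x m => by simp [n x m]).trans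
        (min_le_right ..))⟩)⟩⟩

omit [DiscreteTopology G] in
lemma pp (c : ℝ) (x : G →ᵇ ℝ) (h : 0 < c) : (c • x)⁺ = c • x⁺ :=
  BoundedContinuousFunction.ext fun y => by
    simpa [posPart_def] using (mul_max_of_nonneg (x y) 0 h.le).symm

omit [DiscreteTopology G] in
lemma hb2 {V : Type} [AddCommGroup V] [Module ℝ V] (e : V →ₗ[ℝ] (G →ᵇ ℝ) × (G →ᵇ ℝ))
    (φ : V →ₗ[ℝ] ℝ) (p : Bool → (G →ᵇ ℝ) → ℝ) (h1 : ∀ i (c : ℝ), 0 < c → ∀ x, p i (c • x) = c * p i x)
    (h2 : ∀ i x y z, 0 ≤ z → z ≤ x + y → p i z ≤ p i x + p i y) {C : ℝ} (hC : 0 ≤ C)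
    (h3 : ∀ i x, p i x ≤ C * ‖x‖) (h : ∀ v, φ v ≤ p true (e v).1⁺ + p false (e v).2⁺) :
    ∃ a b : Du (G →ᵇ ℝ), Pos a ∧ Pos b ∧ (∀ v, a (e v).1 + b (e v).2 = φ v) ∧
      ∀ f, 0 ≤ f → a f ≤ p true f ∧ b f ≤ p false f := by
  have h0 : ∀ i, p i 0 = 0 := fun i => by
    have := h1 i 2 two_pos 0
    rw [smul_zero] at this
    linarith
  have k2 : ∀ i x y, p i (x + y)⁺ ≤ p i x⁺ + p i y⁺ := fun i x y => h2 i _ _ _ (posPart_nonneg _)
    (sup_le (add_le_add (le_posPart x) (le_posPart y)) (by positivity))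
  have k3 : ∀ i x, p i x⁺ ≤ C * ‖x‖ := fun i x => (h3 i _).trans (mul_le_mul_of_nonneg_left
    (HasSolidNorm.solid ((abs_of_nonneg (posPart_nonneg x)).trans_le
      (sup_le (le_abs_self x) (abs_nonneg x)))) hC)
  obtain ⟨g, g1, g2⟩ := hb e φ (fun x => p true x.1⁺ + p false x.2⁺) (fun c h x => by
    simp only [Prod.smul_fst, Prod.smul_snd, pp _ _ h, h1 _ _ h, mul_add]) (fun x y => by
      simp only [Prod.fst_add, Prod.snd_add]
      linarith [k2 true x.1 y.1, k2 false x.2 y.2]) (C := 2 * C) (fun x => by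
      nlinarith [k3 true x.1, k3 false x.2, norm_fst_le x, norm_snd_le x]) h
  refine ⟨g ∘L .inl .., g ∘L .inr .., fun f hf => ?_, fun f hf => ?_, fun v => ?_, fun f hf => ⟨?_, ?_⟩⟩
  · simpa [posPart_eq_zero.2 (neg_nonpos.2 hf), h0] using (g.map_neg _).ge.trans (g2 (-(f, 0)))
  · simpa [posPart_eq_zero.2 (neg_nonpos.2 hf), h0] using (g.map_neg _).ge.trans (g2 (-(0, f)))
  · simp [← g1, ← map_add]
  · simpa [posPart_eq_self.2 hf, h0] using g2 (f, 0)
  · simpa [posPart_eq_self.2 hf, h0] using g2 (0, f)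

omit [DiscreteTopology G] in
lemma jordan (φ : Du (G →ᵇ ℝ)) : ∃ a b, Pos a ∧ Pos b ∧ φ = a - b := by
  obtain ⟨a, b, h1, h2, h3, -⟩ := hb2 (LinearMap.prod .id (-.id)) φ.toLinearMap
    (fun _ f => ‖φ‖ * ‖f‖) (fun _ c h x => by rw [norm_smul, Real.norm_of_nonneg h.le]; ring)
    (fun _ x y z h k => by
      rw [← mul_add]
      exact mul_le_mul_of_nonneg_left ((HasSolidNorm.solid ((abs_of_nonneg h).trans_le
        (k.trans (le_abs_self _)))).trans (norm_add_le ..)) φ.opNorm_nonneg) φ.opNorm_nonneg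
    (fun _ _ => le_rfl) fun f => by
      rw [← mul_add]
      refine ((le_abs_self _).trans (φ.le_opNorm f)).trans
        (mul_le_mul_of_nonneg_left ?_ φ.opNorm_nonneg)
      conv_lhs => rw [← posPart_sub_negPart f]
      exact (norm_sub_le ..).trans_eq (by simp)
  exact ⟨a, b, h1, h2, ContinuousLinearMap.ext fun f => by simpa [sub_eq_add_neg] using (h3 f).symm⟩

omit [DiscreteTopology G] in
lemma meet (hμ : Pos μ) (hν : Pos ν) (h : ¬ Sing μ ν) :
    ∃ θ, Pos θ ∧ Pos (μ - θ) ∧ Pos (ν - θ) ∧ 0 < θ 1 := by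
  obtain ⟨ε, e, h⟩ : ∃ ε > 0, ∀ g : G →ᵇ ℝ, ε ≤ μ g⁺ + ν (1 - g)⁺ := by
    by_contra! k
    refine h fun ε e => ?_
    obtain ⟨g, k⟩ := k (ε / 2) (half_pos e)
    have k1 : ∀ (μ : Du (G →ᵇ ℝ)) (g f : G →ᵇ ℝ), Pos μ → ‖f‖ ≤ 1 → (∀ x, g x < 1 / 2 → f x = 0) →
        |μ f| ≤ 2 * μ g⁺ := fun μ g f h1 h2 h3 => by
      have : ∀ x, |f x| ≤ (2 : ℝ) • g⁺ x := fun x => (lt_or_ge (g x) (1 / 2)).elim (fun n => by
        simp [h3 x n]) fun n => by
          linarith [(f.norm_coe_le_norm x).trans h2, le_posPart (g x), Real.norm_eq_abs (f x),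
            show (2 : ℝ) • g⁺ x = 2 * (g x)⁺ from rfl]
      have k1 := h1.mono (g := (2 : ℝ) • g⁺) fun x => (le_abs_self _).trans (this x)
      have k2 := h1.mono (f := -f) (g := (2 : ℝ) • g⁺) fun x => (neg_le_abs _).trans (this x)
      rw [map_smul, smul_eq_mul] at k1 k2
      rw [map_neg] at k2
      exact abs_le.2 ⟨by linarith, k1⟩
    refine ⟨{x | 1 / 2 ≤ g x}, fun f hf => ⟨fun n => (k1 μ g f hμ hf fun x m => n x m.not_ge).trans ?_,
      fun n => (k1 ν (1 - g) f hν hf fun x m => n x (show 1 / 2 ≤ g x by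
        linarith [show 1 - g x < 1 / 2 from m])).trans ?_⟩⟩
    · linarith [hν _ (posPart_nonneg (1 - g))]
    · linarith [hμ _ (posPart_nonneg g)]
  have p1 : ∀ i, Pos (cond i μ ν) := fun i => by cases i; exacts [hν, hμ]
  obtain ⟨a, b, h1, h2, h3, h4⟩ := hb2 (V := (G →ᵇ ℝ) × ℝ) (LinearMap.prod (.fst ..)
    ((LinearMap.snd ℝ _ ℝ).smulRight 1 - .fst ..)) (ε • .snd ..) (fun i f => cond i μ ν f)
    (fun _ c h x => map_smul ..) (fun i x y z h k => ((p1 i).mono k).trans_eq (map_add ..))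
    (C := ‖μ‖ + ‖ν‖) (by positivity) (fun i x => ((le_abs_self _).trans
      ((cond i μ ν).le_opNorm x)).trans (mul_le_mul_of_nonneg_right (by
        cases i <;> simp)
        (norm_nonneg _))) fun ⟨g, t⟩ => by
      change ε * t ≤ μ g⁺ + ν (t • 1 - g)⁺
      rcases le_or_gt t 0 with n | n
      · nlinarith [hν _ (posPart_nonneg (t • 1 - g)), hμ _ (posPart_nonneg g)]
      have := mul_le_mul_of_nonneg_left (h (t⁻¹ • g)) n.le
      rwa [mul_add, ← smul_eq_mul t (μ _), ← smul_eq_mul t (ν _), ← map_smul, ← map_smul,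
        ← pp _ _ n, ← pp _ _ n, smul_sub, smul_inv_smul₀ n.ne', mul_comm] at this
  have k : ∀ f, a f = b f := fun f => by simpa [← sub_eq_add_neg, sub_eq_zero] using h3 (f, 0)
  exact ⟨a, h1, fun f hf => sub_nonneg.2 (h4 f hf).1, fun f hf => sub_nonneg.2
    ((k f).trans_le (h4 f hf).2), e.trans_eq (by simpa [k] using (h3 (0, 1)).symm)⟩

omit [DiscreteTopology G] in
lemma greedy {R : Submodule ℝ (Du (G →ᵇ ℝ))} (hR : IsClosed (R : Set (Du (G →ᵇ ℝ))))
    (hν : Pos ν) : ∃ a, Pos a ∧ ν - a ∈ R ∧ ∀ θ ∈ R, Pos θ → Pos (a - θ) → θ 1 ≤ 0 := by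
  have : ∀ (k : ℕ) (a : {a : Du (G →ᵇ ℝ) // Pos a}), ∃ b : {a : Du (G →ᵇ ℝ) // Pos a},
      a.1 - b.1 ∈ R ∧ Pos (a.1 - b.1) ∧ ∀ θ ∈ R, Pos θ → Pos (a.1 - θ) →
        θ 1 ≤ a.1 1 - b.1 1 + 1 / ((k : ℝ) + 1) := fun k a => by
    have hb : BddAbove ((fun θ : Du (G →ᵇ ℝ) => θ 1) '' {θ | θ ∈ R ∧ Pos θ ∧ Pos (a.1 - θ)}) :=
      ⟨a.1 1, forall_mem_image.2 fun θ h => sub_nonneg.1 (h.2.2 1 fun _ => zero_le_one)⟩
    obtain ⟨_, ⟨θ, h, rfl⟩, k⟩ := exists_lt_of_lt_csSup (⟨_, 0, And.intro R.zero_mem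
      ⟨fun _ _ => le_rfl, (sub_zero a.1).symm ▸ a.2⟩, rfl⟩ : ((fun θ : Du (G →ᵇ ℝ) => θ 1) ''
        {θ | θ ∈ R ∧ Pos θ ∧ Pos (a.1 - θ)}).Nonempty) (sub_lt_self _ (Nat.one_div_pos_of_nat (n := k)))
    refine ⟨⟨_, h.2.2⟩, (sub_sub_cancel a.1 θ).symm ▸ h.1, (sub_sub_cancel a.1 θ).symm ▸ h.2.1,
       fun η h1 h2 h3 => ?_⟩
    have := le_csSup hb ⟨η, And.intro h1 ⟨h2, h3⟩, rfl⟩
    simp only [sub_apply] at *
    linarith
  choose s s1 s2 s3 using this
  let x : ℕ → {a : Du (G →ᵇ ℝ) // Pos a} := Nat.rec ⟨ν, hν⟩ s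
  have x1 : ∀ k, ν - (x k).1 ∈ R := fun k => by
    induction k with
    | zero => exact (sub_self ν).symm ▸ R.zero_mem
    | succ k h => exact sub_add_sub_cancel ν (x k).1 _ ▸ R.add_mem h (s1 k (x k))
  have x2 : Summable fun k => (x k).1 1 - (x (k + 1)).1 1 := summable_of_sum_range_le
    (fun k => s2 k (x k) 1 fun _ => zero_le_one) fun n => by
      rw [Finset.sum_range_sub' fun k => (x k).1 1]
      exact sub_le_self _ ((x n).2 1 fun _ => zero_le_one)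
  obtain ⟨a, ha⟩ : ∃ a, Tendsto (fun k => (x k).1) atTop (𝓝 a) :=
    cauchySeq_tendsto_of_complete (cauchySeq_of_dist_le_of_summable (f := fun k =>
    (x k).1) _ (fun k => (dist_eq_norm (x k).1 (x (k + 1)).1).trans_le (s2 k (x k)).norm) x2)
  have ev : ∀ f, Tendsto (fun k => (x k).1 f) atTop (𝓝 (a f)) := fun f =>
    ((ContinuousLinearMap.apply ℝ ℝ f).continuous.tendsto a).comp ha
  refine ⟨a, fun f hf => ge_of_tendsto' (ev f) fun k => (x k).2 f hf, hR.mem_of_tendsto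
    (tendsto_const_nhds.sub ha) (.of_forall x1), fun θ h1 h2 h3 => ?_⟩
  refine ge_of_tendsto' (add_zero (0 : ℝ) ▸ x2.tendsto_atTop_zero.add
    tendsto_one_div_add_atTop_nhds_zero_nat) fun k => s3 k (x k) θ h1 h2 fun f hf => ?_
  have := (antitone_nat_of_succ_le (f := fun k => (x k).1 f) fun k =>
    sub_nonneg.1 (s2 k (x k) f hf)).le_of_tendsto (ev f) k
  exact sub_nonneg.2 ((sub_nonneg.1 (h3 f hf)).trans this)

/-- `X` is Plichko. -/
def Pl (X : Type) [NormedAddCommGroup X] [NormedSpace ℝ X] : Prop :=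
  ∃ M : Set X, Dense ((Submodule.span ℝ M : Submodule ℝ X) : Set X) ∧ ∃ c : ℝ, 0 < c ∧
    ∀ x : X, ∃ f : X →L[ℝ] ℝ, {m ∈ M | f m ≠ 0}.Countable ∧ ‖f‖ ≤ 1 ∧ c * ‖x‖ ≤ |f x|

lemma fam {W I : Type} [NormedAddCommGroup W] [NormedSpace ℝ W] {M : I → Set W}
    (h1 : Dense ((Submodule.span ℝ (⋃ i, M i) : Submodule ℝ W) : Set W))
    (h2 : ∀ i (F : W →L[ℝ] ℝ), {m ∈ M i | F m ≠ 0}.Countable) (h3 : ∀ J : Set I,
      ∀ a ∈ Submodule.span ℝ (⋃ i ∈ J, M i), ∀ b ∈ Submodule.span ℝ (⋃ i ∉ J, M i), ‖a‖ ≤ ‖a + b‖) :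
    Pl W := by
  refine ⟨_, h1, 1 / 2, one_half_pos, fun x => ?_⟩
  rcases eq_or_ne x 0 with rfl | n
  · exact ⟨0, by simp, by simp, by simp⟩
  obtain ⟨a, a1, a2⟩ := h1.exists_dist_lt x (ε := ‖x‖ / 4) (by positivity)
  obtain ⟨H, H1, H2⟩ := Submodule.mem_span_finite_of_mem_span a1
  choose j hj using fun m : H => mem_iUnion.1 (H1 m.2)
  have a3 : a ∈ Submodule.span ℝ (⋃ i ∈ range j, M i) := Submodule.span_mono
    (fun m h => mem_biUnion (mem_range_self ⟨m, h⟩) (hj ⟨m, h⟩)) H2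
  obtain ⟨F, f1, f2⟩ := hb (LinearMap.coprod (.toSpanSingleton ℝ W a)
    (Submodule.span ℝ (⋃ i ∉ range j, M i)).subtype) (‖a‖ • .fst ..) norm
    (fun c h x => by rw [norm_smul, Real.norm_of_nonneg h.le]) norm_add_le (C := 1) (by simp)
    fun ⟨t, b⟩ => by
      refine le_trans ?_ (h3 _ _ (Submodule.smul_mem _ t a3) b b.2)
      simp [norm_smul, mul_comm, mul_le_mul_of_nonneg_right (le_abs_self t)]
  have f3 : ∀ x, |F x| ≤ ‖x‖ := fun x => abs_le.2 ⟨by simpa [neg_le] using f2 (-x), f2 x⟩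
  refine ⟨F, ((countable_range j).biUnion fun i _ => h2 i F).mono fun m ⟨m1, m2⟩ => ?_,
    F.opNorm_le_bound zero_le_one (by simpa using f3), ?_⟩
  · obtain ⟨i, hi⟩ := mem_iUnion.1 m1
    exact mem_biUnion (by_contra fun k => m2 (by
      simpa using f1 (0, ⟨m, Submodule.subset_span (mem_biUnion k hi)⟩))) ⟨hi, m2⟩
  · have k1 : F a = ‖a‖ := by simpa using f1 (1, 0)
    have k2 := f2 (a - x)
    rw [dist_eq_norm'] at a2
    rw [map_sub] at k2
    linarith [le_abs_self (F x), norm_sub_norm_le x a, norm_sub_rev x a]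

theorem ba : Pl (Du (G →ᵇ ℝ)) := by
  have H := fun (μ : Du (G →ᵇ ℝ)) (h : Pos μ) => hil ((ContinuousLinearMap.compL ℝ _ _ ℝ μ).comp
    (.mul ℝ (G →ᵇ ℝ))) (fun f g => congrArg μ (mul_comm f g)) fun f => h _ fun x => mul_self_nonneg (f x)
  choose! M m1 m2 m3 using fun μ h => (H μ h).2
  obtain ⟨I, hI⟩ := zorn_subset {S | (∀ μ ∈ S, Pos (G := G) μ) ∧ S.Pairwise Sing} fun c h1 h2 =>
    ⟨⋃₀ c, ⟨fun μ ⟨S, k1, k2⟩ => (h1 k1).1 μ k2, (pairwise_sUnion h2.directedOn).2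
      fun S k => (h1 k).2⟩, fun _ => subset_sUnion_of_mem⟩
  refine fam (M := fun i : I => M i) ?_ (fun i => m3 i (hI.1.1 _ i.2)) fun J a ha b hb =>
    (Sing.span (fun b hb => (Sing.span (fun a ha => ?_) ha).symm) hb).le
  · set R := (Submodule.span ℝ (⋃ i : I, M i)).topologicalClosure
    have r1 : ∀ μ ∈ I, ∀ θ, Pos θ → Pos (μ - θ) → θ ∈ R := fun μ h θ h1 h2 =>
      Submodule.topologicalClosure_mono (Submodule.span_mono (subset_iUnion
        (fun i : I => M i) ⟨μ, h⟩)) (m2 μ (hI.1.1 μ h) θ ⟨√(θ 1), fun f => by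
          have k := (H θ h1).1 1 f
          change |θ (1 * f)| ≤ √(θ (1 * 1)) * √(θ (f * f)) at k
          rw [one_mul, one_mul] at k
          exact k.trans (mul_le_mul_of_nonneg_left (Real.sqrt_le_sqrt (sub_nonneg.1
            (h2 _ fun x => mul_self_nonneg (f x)))) (Real.sqrt_nonneg _))⟩)
    have r2 : ∀ ν, Pos ν → ν ∈ R := fun ν h => by
      obtain ⟨a, a1, a2, a3⟩ := greedy (R := R) isClosed_closure h
      have : ∀ μ ∈ I, Sing μ a := fun μ h => by_contra fun n => by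
        obtain ⟨θ, k1, k2, k3, k4⟩ := meet (hI.1.1 μ h) a1 n
        exact k4.not_ge (a3 θ (r1 μ h θ k1 k2) k1 k3)
      exact sub_add_cancel ν a ▸ R.add_mem a2 (r1 a (hI.2 (y := insert a I) ⟨by
        simpa [a1] using hI.1.1, hI.1.2.insert fun μ h _ => ⟨(this μ h).symm, this μ h⟩⟩
          (subset_insert ..) (mem_insert ..)) a a1 fun f _ => (sub_self _).ge)
    intro φ
    obtain ⟨a, b, h1, h2, rfl⟩ := jordan φ
    exact R.sub_mem (r2 a h1) (r2 b h2)
  obtain ⟨i, i1, i2⟩ := mem_iUnion₂.1 ha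
  obtain ⟨j, j1, j2⟩ := mem_iUnion₂.1 hb
  exact ((hI.1.2 i.2 j.2 fun e => j1 (Subtype.ext e ▸ i1)).dom
    (m1 j (hI.1.1 _ j.2) b j2)).symm.dom (m1 i (hI.1.1 _ i.2) a i2)

theorem Pl.proj {X : Type} [NormedAddCommGroup X] [NormedSpace ℝ X] [CompleteSpace X] (h : Pl X)
    {s : Set X} (hs : IsSeparable s) :
    ∃ P : X →L[ℝ] X, (∀ x ∈ s, P x = x) ∧ IsSeparable (range P) ∧ ∀ x, P (P x) = P x := by
  obtain ⟨M, hM, c, hc, hN⟩ := h
  classical
  obtain ⟨t0, t1, t2⟩ := hs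
  choose y y1 y2 using fun x (k : ℕ) => hM.exists_dist_lt x (Nat.one_div_pos_of_nat (n := k))
  choose H H1 H2 using fun x k => Submodule.mem_span_finite_of_mem_span (y1 x k)
  choose t t3 t4 using fun G : Finset X => G.finite_toSet.isSeparable.span (R := ℝ)
  choose f f1 f2 f3 using hN
  have c1 : (⋃ x ∈ t0, ⋃ k, (H x k : Set X)).Countable :=
    t1.biUnion fun x _ => countable_iUnion fun k => (H x k).countable_toSet
  have c2 : ∀ G, (⋃ y ∈ t G, {m ∈ M | f y m ≠ 0}).Countable := fun G =>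
    (t3 G).biUnion fun y _ => f1 y
  obtain ⟨S, s1, s2⟩ := H5C.hull _ fun G => c1.union (c2 G)
  let e := Finsupp.linearCombination ℝ ((↑) : M → X)
  let p := Finsupp.linearCombination ℝ fun m : M => if m.1 ∈ S then m.1 else 0
  have he : DenseRange e := by
    rwa [DenseRange, ← LinearMap.coe_range, Finsupp.range_linearCombination, Subtype.range_coe]
  have fb : ∀ y v, |f y v| ≤ ‖v‖ := fun y v => ((f y).le_opNorm v).trans
    (mul_le_of_le_one_left (norm_nonneg _) (f2 y))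
  have k : ∀ a, ∃ G : Finset X, ↑G ⊆ S ∧ p a ∈ Submodule.span ℝ (G : Set X) := fun a =>
    ⟨(a.support.image (↑)).filter (· ∈ S), fun _ h => (Finset.mem_filter.1 h).2,
      Submodule.sum_mem _ fun m hm => Submodule.smul_mem _ _ (by
        beta_reduce
        split_ifs with h
        exacts [Submodule.subset_span (Finset.mem_filter.2 ⟨Finset.mem_image_of_mem _ hm, h⟩),
          Submodule.zero_mem _])⟩
  have hb : ∀ a, ‖p a‖ ≤ c⁻¹ * ‖e a‖ := fun a => by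
    obtain ⟨G, g1, g2⟩ := k a
    rw [le_inv_mul_iff₀ hc]
    refine le_of_forall_pos_le_add fun ε hε => ?_
    obtain ⟨z, z1, z2⟩ := Metric.mem_closure_iff.1 (t4 G g2) (ε / (c + 1)) (by positivity)
    have k1 : f z (p a) = f z (e a) := by
      simp only [p, e, Finsupp.linearCombination_apply, Finsupp.sum, map_sum, map_smul]
      refine Finset.sum_congr rfl fun m _ => ?_
      split_ifs with h
      · rfl
      · rw [map_zero, show f z m = 0 from by_contra fun n =>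
          h (s2 G g1 (Or.inr (mem_biUnion z1 ⟨m.2, n⟩)))]
    have k2 := fb z (p a - z)
    have k3 := norm_sub_norm_le (p a) z
    rw [map_sub, k1] at k2
    rw [dist_eq_norm, lt_div_iff₀ (by positivity)] at z2
    nlinarith [f3 z, fb z (e a), abs_sub_abs_le_abs_sub (f z z) (f z (e a)),
      abs_sub_comm (f z z) (f z (e a))]
  have P1 := LinearMap.extendOfNorm_eq he ⟨_, hb⟩
  refine ⟨p.extendOfNorm e, fun x hx => ?_, (s1.isSeparable.span (R := ℝ)).closure.mono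
    (range_subset_iff.2 fun x => he.induction_on x (isClosed_closure.preimage
      (p.extendOfNorm e).continuous) fun a => ?_), fun x => he.induction_on x
        (isClosed_eq (by fun_prop) (by fun_prop)) fun a => ?_⟩
  · have c := isClosed_eq (p.extendOfNorm e).continuous continuous_id
    refine closure_minimal (fun x hx => c.closure_subset (Metric.mem_closure_iff.2 fun ε hε => ?_))
      c (t2 hx)
    obtain ⟨k, hk⟩ := exists_nat_one_div_lt hε
    refine ⟨_, ?_, (y2 x k).trans hk⟩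
    refine Submodule.span_induction (p := fun x _ => p.extendOfNorm e x = x) (fun m hm => ?_)
      (map_zero _) (fun _ _ _ _ h1 h2 => by rw [map_add, h1, h2])
      (fun _ _ _ h => by rw [map_smul, h]) (H2 x k)
    have := P1 (Finsupp.single ⟨m, H1 x k hm⟩ 1)
    simpa [e, p, s2 ∅ (by simp) (Or.inl (mem_biUnion hx (mem_iUnion.2 ⟨k, hm⟩)))] using this
  · obtain ⟨G, g1, g2⟩ := k a
    exact subset_closure (P1 a ▸ Submodule.span_mono g1 g2)
  · have : ∀ q : M → X, Finsupp.linearCombination ℝ q (a.filter (·.1 ∈ S)) =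
        Finsupp.linearCombination ℝ (fun m : M => if m.1 ∈ S then q m else 0) a := fun q => by
      simp [Finsupp.linearCombination_apply, Finsupp.sum, Finsupp.filter_apply, Finset.sum_filter,
        ← ite_and]
    rw [P1, show p a = e (a.filter (·.1 ∈ S)) from (this _).symm, P1, this, this]
    congr 2
    ext m
    split_ifs <;> rfl

lemma Pl.of_equiv {X Y : Type} [NormedAddCommGroup X] [NormedSpace ℝ X] [NormedAddCommGroup Y]
    [NormedSpace ℝ Y] (e : X ≃L[ℝ] Y) (h : Pl X) : Pl Y := by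
  obtain ⟨M, h1, c, hc, h2⟩ := h
  obtain ⟨C, c0, c1⟩ := (e : X →L[ℝ] Y).bound
  obtain ⟨D, d0, d1⟩ := (e.symm : Y →L[ℝ] X).bound
  refine ⟨e '' M, ?_, c / C / D, by positivity, fun y => ?_⟩
  · rw [show e '' M = e.toLinearEquiv.toLinearMap '' M from rfl, ← Submodule.map_span]
    exact e.surjective.denseRange.dense_image e.continuous h1
  obtain ⟨f, f1, f2, f3⟩ := h2 (e.symm y)
  refine ⟨D⁻¹ • f ∘L e.symm, (f1.image e).mono ?_, ContinuousLinearMap.opNorm_le_bound _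
    zero_le_one fun y => ?_, ?_⟩
  · rintro _ ⟨⟨m, m1, rfl⟩, m2⟩
    exact ⟨m, ⟨m1, fun k => m2 (by simp [k])⟩, rfl⟩
  · rw [smul_apply, norm_smul, norm_inv, Real.norm_of_nonneg d0.le, inv_mul_le_iff₀ d0, one_mul]
    exact ((f.le_opNorm _).trans (mul_le_of_le_one_left (norm_nonneg _) f2)).trans (d1 y)
  · have := c1 (e.symm y)
    rw [smul_apply, smul_eq_mul, abs_mul, abs_inv, abs_of_pos d0, le_inv_mul_iff₀ d0,
      ← mul_assoc, mul_div_cancel₀ _ d0.ne', div_mul_eq_mul_div, div_le_iff₀ c0]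
    simp only [ContinuousLinearEquiv.coe_coe, e.apply_symm_apply] at this
    exact (mul_le_mul_of_nonneg_left this hc.le).trans (by
      rw [mul_left_comm, mul_comm]
      exact mul_le_mul_of_nonneg_right f3 c0.le)

end H5B
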