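import Pool.Agent.Lib.helper5.BaPl

/-! A Banach space without the separable complementation property whose dual is isomorphic to a
space of bounded functions. -/

open Set Filter Topology TopologicalSpace Function
open scoped BoundedContinuousFunction symmDiff

namespace H5B

lemma sins (φ : Finset ℕ → ℝ) {D : Finset ℕ} {n : ℕ} (h : n ∉ D) (x : Finset ℕ) :
    ∑ y ∈ (insert n D).powerset, φ (x ∆ y) = ∑ y ∈ D.powerset, (φ (x ∆ y) + φ (x ∆ y ∆ {n})) := by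
  rw [Finset.sum_powerset_insert h, ← Finset.sum_add_distrib]
  refine Finset.sum_congr rfl fun y hy => ?_
  rw [symmDiff_assoc, (Finset.disjoint_singleton_right.2 fun k =>
    h (Finset.mem_powerset.1 hy k)).symmDiff_eq_sup, Finset.sup_eq_union, Finset.union_singleton]

/-- martingale condition in the directions from `a` -/
def Mt (a : Set ℕ) (f : Finset ℕ × Finset ℕ → ℝ) : Prop :=
  ∀ s x, ∀ n ∈ a, n ∉ s → 2 * f (s, x) = f (insert n s, x) + f (insert n s, x ∆ {n})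

lemma Mt.av {a : Set ℕ} {f : Finset ℕ × Finset ℕ → ℝ} (h : Mt a f) (s x D : Finset ℕ)
    (h1 : ∀ n ∈ D, n ∈ a ∧ n ∉ s) : ∑ y ∈ D.powerset, f (s ∪ D, x ∆ y) = 2 ^ D.card * f (s, x) := by
  induction D using Finset.induction with
  | empty => simpa using congrArg (fun y => f (s, y)) (symmDiff_bot x)
  | insert n D hn ih =>
    have k := h1 n (by simp)
    rw [sins (fun y => f (_, y)) hn, Finset.card_insert_of_notMem hn, pow_succ', mul_assoc,
      ← ih fun m hm => h1 m (by simp [hm]), Finset.mul_sum, Finset.union_insert]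
    exact Finset.sum_congr rfl fun y _ => (h _ _ n k.1 (by simp [k.2, hn])).symm

lemma Mt.bessel {a : Set ℕ} {f : Finset ℕ × Finset ℕ → ℝ} (h : Mt a f) {C : ℝ}
    (hC : ∀ t, |f t| ≤ C) (D : Finset ℕ) (h1 : ↑D ⊆ a) :
    ∑ n ∈ D, ((f ({n}, {n}) - f ({n}, ∅)) / 2) ^ 2 ≤ C ^ 2 := by
  have : 2 ^ D.card * ∑ n ∈ D, ((f ({n}, {n}) - f ({n}, ∅)) / 2) ^ 2 ≤
      ∑ y ∈ D.powerset, f (D, ∅ ∆ y) ^ 2 := by
    induction D using Finset.induction with
    | empty => simpa using sq_nonneg _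
    | insert n D hn ih =>
      have k : ∀ m ∈ D, m ∈ a ∧ m ∉ ({n} : Finset ℕ) := fun m hm =>
        ⟨h1 (by simp [hm]), by simpa using fun e : m = n => hn (e ▸ hm)⟩
      have k1 := sq_sum_le_card_mul_sum_sq (s := D.powerset)
        (f := fun y => f (insert n D, ∅ ∆ y ∆ {n}) - f (insert n D, ∅ ∆ y))
      have k2 := h.av {n} ∅ D k
      have k3 := h.av {n} (∅ ∆ {n}) D k
      have k4 : ∑ y ∈ D.powerset, (f (insert n D, ∅ ∆ y) ^ 2 + f (insert n D, ∅ ∆ y ∆ {n}) ^ 2) =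
          2 * ∑ y ∈ D.powerset, f (D, ∅ ∆ y) ^ 2 + (∑ y ∈ D.powerset,
            (f (insert n D, ∅ ∆ y ∆ {n}) - f (insert n D, ∅ ∆ y)) ^ 2) / 2 := by
        rw [Finset.mul_sum, Finset.sum_div, ← Finset.sum_add_distrib]
        refine Finset.sum_congr rfl fun y _ => ?_
        rw [eq_div_of_mul_eq two_ne_zero ((mul_comm ..).trans (h D (∅ ∆ y) n (h1 (by simp)) hn))]
        ring
      simp only [symmDiff_right_comm _ {n}, Finset.singleton_union] at k2 k3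
      rw [Finset.sum_sub_distrib, k2, k3, Finset.card_powerset, ← mul_sub, mul_pow, sq (2 ^ _),
        mul_assoc, show (∅ : Finset ℕ) ∆ {n} = {n} from bot_symmDiff _] at k1
      push_cast at k1
      rw [sins (fun y => f (_, y) ^ 2) hn, k4, Finset.card_insert_of_notMem hn,
        Finset.sum_insert hn, pow_succ']
      nlinarith [ih (subset_trans (by simp) h1), le_of_mul_le_mul_left k1 (by positivity)]
  refine le_of_mul_le_mul_left (this.trans ?_) (by positivity)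
  simpa using Finset.sum_le_card_nsmul D.powerset _ _ fun y _ =>
    sq_le_sq' (abs_le.1 (hC (D, ∅ ∆ y))).1 (abs_le.1 (hC _)).2

lemma ulim : ∃ Λ : (ℕ → ℝ) → ℝ, ∀ u C, (∀ k, |u k| ≤ C) →
    Tendsto u (hyperfilter ℕ) (𝓝 (Λ u)) := by
  have : ∀ u : ℕ → ℝ, ∃ x, ∀ C, (∀ k, |u k| ≤ C) → Tendsto u (hyperfilter ℕ) (𝓝 x) := fun u => by
    by_cases h : ∃ C, ∀ k, |u k| ≤ C
    · obtain ⟨C, h⟩ := h
      obtain ⟨x, -, k⟩ := (isCompact_Icc (a := -C) (b := C)).ultrafilter_le_nhds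
        ((hyperfilter ℕ).map u) (le_principal_iff.2 (mem_map.2 (univ_mem' fun k => abs_le.1 (h k))))
      exact ⟨x, fun _ _ => k⟩
    · exact ⟨0, fun C k => (h ⟨C, k⟩).elim⟩
  exact ⟨fun u => (this u).choose, fun u => (this u).choose_spec⟩

section
variable {E : Type} [NormedAddCommGroup E] [NormedSpace ℝ E]

lemma gen {S : Set E} {T : Submodule ℝ E} (h : IsClosed (T : Set E)) (k : S ⊆ T) :
    (Submodule.span ℝ S).topologicalClosure ≤ T :=
  Submodule.topologicalClosure_minimal _ (Submodule.span_le.2 k) h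

/-- functionals from `L` vanishing on `M` -/
def An (L : Submodule ℝ (Du E)) (M : Submodule ℝ E) : Set (Du E) := {v | v ∈ L ∧ ∀ g ∈ M, v g = 0}

/-- the rearranged predual -/
noncomputable def Yo (L : Submodule ℝ (Du E)) (M N : Submodule ℝ E) (ρ σ : E →L[ℝ] E) :
    Submodule ℝ (Du E) :=
  (Submodule.span ℝ (An L M ∪ (· ∘L ρ) '' An L N ∪ (· ∘L σ) '' L)).topologicalClosure

/-- endomorphisms -/
abbrev En (E : Type) [NormedAddCommGroup E] [NormedSpace ℝ E] := E →L[ℝ] E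

lemma Yo_mem {L : Submodule ℝ (Du E)} {M N : Submodule ℝ E} {ρ σ : E →L[ℝ] E} (v : Du E)
    (h : v ∈ An L M ∪ (· ∘L ρ) '' An L N ∪ (· ∘L σ) '' L) : v ∈ Yo L M N ρ σ :=
  Submodule.le_topologicalClosure _ (Submodule.subset_span h)

lemma Yo_ind {L T : Submodule ℝ (Du E)} {M N : Submodule ℝ E} {ρ σ : E →L[ℝ] E} (A : E →L[ℝ] E)
    (h : IsClosed (T : Set (Du E))) (k : ∀ v ∈ An L M ∪ (· ∘L ρ) '' An L N ∪ (· ∘L σ) '' L,
      v ∘L A ∈ T) : ∀ y ∈ Yo L M N ρ σ, y ∘L A ∈ T :=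
  let B : Du E →L[ℝ] Du E := ContinuousLinearMap.precomp ℝ A
  gen (T := T.comap B.toLinearMap) (h.preimage B.continuous) k

lemma iso [CompleteSpace E] {L : Submodule ℝ (Du E)} {M N : Submodule ℝ E} {ρ σ : E →L[ℝ] E}
    (l1 : ∀ Φ : Du (Du E), ∃ g, ∀ v ∈ L, v g = Φ v) (l2 : ∀ g, (∀ v ∈ L, v g = 0) → g = 0)
    (m1 : ∀ g, (∀ v ∈ An L M, v g = 0) → g ∈ M) (n1 : ∀ g, (∀ v ∈ An L N, v g = 0) → g ∈ N)
    (h : N ≤ M) (r1 : ∀ g, ρ g ∈ M) (r2 : ∀ g ∈ M, ρ g = g) (s1 : ∀ g, σ g ∈ N)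
    (s2 : ∀ g ∈ N, σ g = g) : Nonempty (E ≃L[ℝ] Du (Yo L M N ρ σ)) := by
  refine ⟨.ofBijective (Yo L M N ρ σ).subtypeL.flip (LinearMap.ker_eq_bot'.2 fun g k => ?_)
    (LinearMap.range_eq_top.2 fun ψ => ?_)⟩
  · have k := fun (v : Du E) h => (congrArg (· ⟨v, Yo_mem v h⟩) k : v g = (0 : ℝ))
    have k1 := m1 g fun v h => k v (.inl (.inl h))
    have k2 := n1 g fun v h => r2 g k1 ▸ k (v ∘L ρ) (.inl (.inr ⟨v, h, rfl⟩))
    exact l2 g fun v h => s2 g k2 ▸ k (v ∘L σ) (.inr ⟨v, h, rfl⟩)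
  obtain ⟨Ψ, hΨ, -⟩ := exists_extension_norm_eq _ ψ
  obtain ⟨a, ha⟩ := l1 Ψ
  obtain ⟨b, hb⟩ := l1 (Ψ ∘L ContinuousLinearMap.precomp ℝ ρ)
  obtain ⟨c, hc⟩ := l1 (Ψ ∘L ContinuousLinearMap.precomp ℝ σ)
  have b1 := m1 b fun v h => (hb v h.1).trans ((congrArg Ψ (ContinuousLinearMap.ext fun g =>
    h.2 _ (r1 g))).trans Ψ.map_zero)
  have c1 := n1 c fun v h => (hc v h.1).trans ((congrArg Ψ (ContinuousLinearMap.ext fun g =>
    h.2 _ (s1 g))).trans Ψ.map_zero)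
  refine ⟨a - ρ a + b - σ (a - ρ a + b) + c, ContinuousLinearMap.ext fun v => (sub_eq_zero.1
    (gen (T := (ContinuousLinearMap.apply ℝ ℝ _ - Ψ).ker) (ContinuousLinearMap.isClosed_ker _)
      ?_ v.2)).trans (hΨ v)⟩
  rintro v ((k | ⟨v, k, rfl⟩) | ⟨v, k, rfl⟩) <;> refine sub_eq_zero.2 ?_
  · simp [k.2 _ (r1 _), k.2 _ b1, k.2 _ (h (s1 _)), k.2 _ (h c1), ha v k.1]
  · simpa [r2 _ (r1 _), r2 _ b1, r2 _ (h (s1 _)), r2 _ (h c1), k.2 _ (s1 _), k.2 _ c1] using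
      hb v k.1
  · simpa [s2 _ (s1 _), s2 _ c1] using hc v k

end

section
variable {G : Type} [TopologicalSpace G] [DiscreteTopology G]

/-- point evaluation -/
noncomputable def dl (x : G) : Du (G →ᵇ ℝ) := BoundedContinuousFunction.evalCLM ℝ x

/-- the closed span of the point evaluations -/
noncomputable def Lo (G : Type) [TopologicalSpace G] : Submodule ℝ (Du (G →ᵇ ℝ)) :=
  (Submodule.span ℝ (range dl)).topologicalClosure

omit [DiscreteTopology G] in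
lemma dl_mem (x : G) : dl x ∈ Lo G :=
  Submodule.le_topologicalClosure _ (Submodule.subset_span ⟨x, rfl⟩)

omit [DiscreteTopology G] in
lemma dl_norm (x : G) : ‖dl x‖ ≤ 1 :=
  ContinuousLinearMap.opNorm_le_bound _ zero_le_one fun f =>
    (f.norm_coe_le_norm x).trans_eq (one_mul _).symm

lemma rep (Φ : Du (Du (G →ᵇ ℝ))) : ∃ g, ∀ v ∈ Lo G, v g = Φ v :=
  ⟨.ofNormedAddCommGroupDiscrete (fun x => Φ (dl x)) ‖Φ‖ fun x => Φ.unit_le_opNorm _ (dl_norm x),
    fun _ h => sub_eq_zero.1 (gen (T := (ContinuousLinearMap.apply ℝ ℝ _ - Φ).ker)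
      (ContinuousLinearMap.isClosed_ker _) (range_subset_iff.2 fun _ => sub_self _) h)⟩

/-- functionals almost finitely supported on `M` -/
def tl (M : Submodule ℝ (G →ᵇ ℝ)) : Submodule ℝ (Du (G →ᵇ ℝ)) where
  carrier := {y | ∀ ε > 0, ∃ F : Finset G, ∀ g ∈ M, (∀ x ∈ F, g x = 0) → |y g| ≤ ε * ‖g‖}
  zero_mem' ε e := ⟨∅, fun g _ _ => by simpa using by positivity⟩
  add_mem' {a b} ha hb ε e := by
    classical
    obtain ⟨A, hA⟩ := ha _ (half_pos e)
    obtain ⟨B, hB⟩ := hb _ (half_pos e)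
    refine ⟨A ∪ B, fun g h k => (abs_add_le (a g) (b g)).trans ?_⟩
    linarith [hA g h fun x m => k x (by simp [m]), hB g h fun x m => k x (by simp [m])]
  smul_mem' t b hb ε e := by
    obtain ⟨A, hA⟩ := hb (ε / (|t| + 1)) (by positivity)
    refine ⟨A, fun g h k => ?_⟩
    have := hA g h k
    rw [div_mul_eq_mul_div, le_div_iff₀ (by positivity)] at this
    rw [smul_apply, smul_eq_mul, abs_mul]
    nlinarith [abs_nonneg (b g)]

omit [DiscreteTopology G] in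
lemma tl_closed (M : Submodule ℝ (G →ᵇ ℝ)) : IsClosed (tl M : Set (Du (G →ᵇ ℝ))) := by
  refine isClosed_of_closure_subset fun y h ε e => ?_
  obtain ⟨z, z1, z2⟩ := Metric.mem_closure_iff.1 h _ (half_pos e)
  obtain ⟨F, hF⟩ := z1 _ (half_pos e)
  refine ⟨F, fun g h k => ?_⟩
  have := (y - z).le_of_opNorm_le (dist_eq_norm y z ▸ z2.le) g
  rw [sub_apply, Real.norm_eq_abs] at this
  linarith [hF g h k, abs_sub_abs_le_abs_sub (y g) (z g)]

omit [DiscreteTopology G] in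
lemma tl_Lo (M : Submodule ℝ (G →ᵇ ℝ)) : Lo G ≤ tl M :=
  gen (tl_closed M) (range_subset_iff.2 fun x ε e => ⟨{x}, fun g _ k => by
    rw [show dl x g = 0 from k x (by simp), abs_zero]
    positivity⟩)

lemma hump {K : Type} (key : G → K) {M : Submodule ℝ (G →ᵇ ℝ)} {a : Set ℕ} (ha : a.Infinite)
    (hM : ∀ A : Set K, ∀ g ∈ M, ∀ h : G →ᵇ ℝ, (∀ x, key x ∈ A → h x = g x) →
      (∀ x, key x ∉ A → h x = 0) → h ∈ M) {w : ℕ → Du (G →ᵇ ℝ)} (w1 : ∀ n, w n ∈ tl M) {C : ℝ}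
    (w2 : ∀ g ∈ M, ‖g‖ ≤ 1 → ∀ D : Finset ℕ, ↑D ⊆ a → ∑ n ∈ D, w n g ^ 2 ≤ C) {r : ℕ → G →ᵇ ℝ}
    (r1 : ∀ n, r n ∈ M ∧ ‖r n‖ ≤ 1 ∧ w n (r n) = 1)
    (r2 : ∀ k, {n ∈ a | ∃ x, key x = k ∧ r n x ≠ 0}.Finite) : False := by
  classical
  have bd : ∀ g ∈ M, ‖g‖ ≤ 1 → ∀ D : Finset ℕ, ↑D ⊆ a → (∀ n ∈ D, 1 / 4 ≤ |w n g|) →
      D.card ≤ ⌈16 * C⌉₊ := fun g h1 h2 D h3 h4 => by
    have := (Finset.card_nsmul_le_sum D _ ((1 / 4) ^ 2) fun n h => by
      rw [← sq_abs (w n g)]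
      exact pow_le_pow_left₀ (by norm_num) (h4 n h) 2).trans (w2 g h1 h2 D h3)
    rw [nsmul_eq_mul] at this
    exact_mod_cast le_trans (by linarith : (D.card : ℝ) ≤ 16 * C) (Nat.le_ceil _)
  have : ∀ N, ∃ (D : Finset ℕ) (A : Finset K), ∃ g ∈ M, ‖g‖ ≤ 1 ∧ ↑D ⊆ a ∧ D.card = N ∧
      ∀ h ∈ M, ‖h‖ ≤ 1 → (∀ x, key x ∈ A → h x = g x) → ∀ n ∈ D, 1 / 4 ≤ |w n h| := fun N => by
    induction N with
    | zero => exact ⟨∅, ∅, 0, zero_mem _, by simp, by simp, rfl, by simp⟩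
    | succ N ih =>
      obtain ⟨D, A, g, g1, g2, d1, d2, d3⟩ := ih
      obtain ⟨p, q, -, p1, -, p2, p3⟩ := cut (key ⁻¹' A) g
      have p4 := hM A g g1 p (fun x h => (p2 x h).1) fun x h => (p3 x h).1
      have f1 : {n ∈ a | 1 / 4 ≤ |w n p|}.Finite := by_contra fun k => by
        obtain ⟨F, f1, f2⟩ := Set.Infinite.exists_subset_card_eq k (⌈16 * C⌉₊ + 1)
        have := bd p p4 (p1.trans g2) F (fun n h => (f1 h).1) fun n h => (f1 h).2
        omega
      obtain ⟨n, n1, n2⟩ := (ha.sdiff ((D.finite_toSet.union f1).union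
        (A.finite_toSet.biUnion fun k _ => r2 k))).nonempty
      have n3 : ∀ x, key x ∈ A → r n x = 0 := fun x h => by_contra fun k =>
        n2 (.inr (mem_biUnion h ⟨n1, x, rfl, k⟩))
      obtain ⟨F, hF⟩ := w1 n (1 / 4) (by norm_num)
      have n4 : ‖p + r n‖ ≤ 1 := (BoundedContinuousFunction.norm_le zero_le_one).2 fun x => by
        by_cases h : key x ∈ A
        · simpa [n3 x h] using (p.norm_coe_le_norm x).trans (p1.trans g2)
        · simpa [(p3 x h).1] using ((r n).norm_coe_le_norm x).trans (r1 n).2.1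
      refine ⟨insert n D, A ∪ F.image key, p + r n, add_mem p4 (r1 n).1, n4,
        by simp [insert_subset_iff, n1, d1], by
          rw [Finset.card_insert_of_notMem fun k => n2 (.inl (.inl k)), d2], fun h h1 h2 h3 m hm => ?_⟩
      rcases Finset.mem_insert.1 hm with rfl | hm
      · have k1 := hF (h - (p + r m)) (sub_mem h1 (add_mem p4 (r1 m).1)) fun x k =>
          sub_eq_zero.2 (h3 x (Finset.mem_union_right _ (Finset.mem_image_of_mem _ k)))
        have k2 := abs_lt.1 (not_le.1 fun k => n2 (.inl (.inr ⟨n1, k⟩)))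
        rw [map_sub, map_add, (r1 m).2.2] at k1
        linarith [norm_sub_le h (p + r m), le_abs_self (w m h), (abs_le.1 k1).1]
      · exact d3 h h1 h2 (fun x k => by simp [h3 x (by simp [k]), n3 x k, (p2 x k).1]) m hm
  obtain ⟨D, A, g, g1, g2, d1, d2, d3⟩ := this (⌈16 * C⌉₊ + 1)
  have := bd g g1 g2 D d1 (d3 g g1 g2 fun _ _ => rfl)
  omega

end

section
variable {I : Type} [TopologicalSpace (I × Finset ℕ × Finset ℕ)]
  [DiscreteTopology (I × Finset ℕ × Finset ℕ)]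

/-- bounded martingales -/
def Ma (c : I → I) (b : I → Set ℕ) : Submodule ℝ (I × Finset ℕ × Finset ℕ →ᵇ ℝ) where
  carrier := {g | ∀ i, (∀ t, g (i, t) = g (c i, t)) ∧ Mt (b i) fun t => g (i, t)}
  zero_mem' i := ⟨fun _ => rfl, fun _ _ _ _ _ => by simp⟩
  add_mem' {f g} hf hg i := ⟨fun t => congrArg₂ (· + ·) ((hf i).1 t) ((hg i).1 t),
    fun s x n h k => by
      simp only [BoundedContinuousFunction.add_apply]
      linarith [(hf i).2 s x n h k, (hg i).2 s x n h k]⟩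
  smul_mem' t g hg i := ⟨fun s => congrArg (t * ·) ((hg i).1 s), fun s x n h k => by
    simp only [BoundedContinuousFunction.smul_apply, smul_eq_mul]
    rw [← mul_add, ← (hg i).2 s x n h k, mul_left_comm]⟩

/-- the relation vectors -/
noncomputable def rl (i : I) (s x : Finset ℕ) (n : ℕ) : Du (I × Finset ℕ × Finset ℕ →ᵇ ℝ) :=
  (2 : ℝ) • dl (i, s, x) - (dl (i, insert n s, x) + dl (i, insert n s, x ∆ {n}))

omit [DiscreteTopology (I × Finset ℕ × Finset ℕ)] in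
lemma rl_mem {c : I → I} {b : I → Set ℕ} {i : I} {s : Finset ℕ} (x : Finset ℕ) {n : ℕ}
    (h : n ∈ b i) (k : n ∉ s) : rl i s x n ∈ An (Lo _) (Ma c b) :=
  ⟨sub_mem (Submodule.smul_mem _ _ (dl_mem _)) (add_mem (dl_mem _) (dl_mem _)),
    fun _ hg => sub_eq_zero.2 ((hg i).2 s x n h k)⟩

omit [DiscreteTopology (I × Finset ℕ × Finset ℕ)] in
lemma Ma_of {c : I → I} {b : I → Set ℕ} (g : I × Finset ℕ × Finset ℕ →ᵇ ℝ)
    (h : ∀ v ∈ An (Lo _) (Ma c b), v g = 0) : g ∈ Ma c b := fun i =>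
  ⟨fun t => sub_eq_zero.1 (h (dl (i, t) - dl (c i, t)) ⟨sub_mem (dl_mem _) (dl_mem _),
    fun _ hg => sub_eq_zero.2 ((hg i).1 t)⟩), fun _ x _ h1 h2 => sub_eq_zero.1 (h _ (rl_mem x h1 h2))⟩

lemma rho (c : I → I) (b : I → Set ℕ) (h1 : ∀ i, c (c i) = c i) (h2 : ∀ i, b (c i) = b i) :
    ∃ ρ : En (I × Finset ℕ × Finset ℕ →ᵇ ℝ),
      (∀ g, ρ g ∈ Ma c b) ∧ (∀ g ∈ Ma c b, ρ g = g) ∧ ∀ g, ‖ρ g‖ ≤ ‖g‖ := by
  classical
  obtain ⟨Λ, hΛ⟩ := ulim
  let D := fun i (s : Finset ℕ) k => (Finset.range k).filter fun n => n ∈ b i ∧ n ∉ s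
  let A := fun (g : I × Finset ℕ × Finset ℕ →ᵇ ℝ) (t : I × Finset ℕ × Finset ℕ) k =>
    (∑ y ∈ (D t.1 t.2.1 k).powerset, g (c t.1, t.2.1 ∪ D t.1 t.2.1 k, t.2.2 ∆ y)) /
      2 ^ (D t.1 t.2.1 k).card
  have a1 : ∀ g t k, |A g t k| ≤ ‖g‖ := fun g t k => by
    rw [abs_div, abs_of_pos (a := (2 : ℝ) ^ _) (by positivity), div_le_iff₀' (by positivity)]
    simpa using (Finset.abs_sum_le_sum_abs ..).trans
      (Finset.sum_le_card_nsmul (D t.1 t.2.1 k).powerset _ _ fun y _ => g.norm_coe_le_norm _)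
  have a2 := fun g t => hΛ _ _ (a1 g t)
  have a3 : ∀ g t, ‖Λ (A g t)‖ ≤ ‖g‖ := fun g t => le_of_tendsto' (a2 g t).abs (a1 g t)
  have a4 : ∀ g, ‖BoundedContinuousFunction.ofNormedAddCommGroupDiscrete _ _ (a3 g)‖ ≤ ‖g‖ :=
    fun g => (BoundedContinuousFunction.norm_le (norm_nonneg _)).2 (a3 g)
  refine ⟨LinearMap.mkContinuous ⟨⟨fun g => .ofNormedAddCommGroupDiscrete _ _ (a3 g), fun f g =>
    BoundedContinuousFunction.ext fun t => tendsto_nhds_unique (a2 _ t) (((a2 f t).add (a2 g t)).congr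
      fun k => by simp [A, Finset.sum_add_distrib, add_div])⟩, fun r g =>
    BoundedContinuousFunction.ext fun t => tendsto_nhds_unique (a2 _ t) (((a2 g t).const_mul r).congr
      fun k => by simp [A, Finset.mul_sum, mul_div_assoc'])⟩ 1 fun g => (a4 g).trans_eq (one_mul _).symm,
    fun g i => ⟨fun t => congrArg Λ (funext fun k => by simp only [A, D, h1, h2]), fun s x n m1 m2 =>
      tendsto_nhds_unique ((a2 g _).const_mul 2) (((a2 g _).add (a2 g _)).congr' ?_)⟩,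
    fun g hg => BoundedContinuousFunction.ext fun ⟨i, s, x⟩ => tendsto_nhds_unique (a2 g _)
      (tendsto_const_nhds.congr fun k => ?_), a4⟩
  · filter_upwards [Nat.hyperfilter_le_atTop (eventually_gt_atTop n)] with k hk
    have e : D i s k = insert n (D i (insert n s) k) := Finset.ext fun m => by
      by_cases h : m = n <;> simp [D, h, m1, m2, hk]
    have e1 : n ∉ D i (insert n s) k := by simp [D]
    simp only [A, e]
    rw [sins (fun y => g (_, _, y)) e1, Finset.card_insert_of_notMem e1, Finset.sum_add_distrib,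
      Finset.union_insert, Finset.insert_union]
    simp only [symmDiff_right_comm x {n}]
    field_simp
    ring
  · simp only [A, ← (hg i).1]
    rw [(hg i).2.av s x _ fun n h => (Finset.mem_filter.1 h).2]
    exact (mul_div_cancel_left₀ _ (by positivity)).symm

theorem core [Uncountable I] (o : I) {a : I → Set ℕ} (a1 : ∀ i, (a i).Infinite)
    (a2 : ∀ i j, i ≠ j → (a i ∩ a j).Finite) :
    ∃ Y : Submodule ℝ (Du (I × Finset ℕ × Finset ℕ →ᵇ ℝ)),
      IsClosed (Y : Set (Du (I × Finset ℕ × Finset ℕ →ᵇ ℝ))) ∧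
      Nonempty ((I × Finset ℕ × Finset ℕ →ᵇ ℝ) ≃L[ℝ] Du Y) ∧ ∃ s : Set Y, s.Countable ∧
        ∀ P : En Y, (∀ x ∈ s, P x = x) → ¬ IsSeparable (range P) := by
  classical
  obtain ⟨ρ, r1, r2, r3⟩ := rho id a (fun _ => rfl) fun _ => rfl
  obtain ⟨σ, s1, s2, s3⟩ := rho (fun _ => o) (fun _ => univ) (fun _ => rfl) fun _ => rfl
  set M := Ma id a
  set N := Ma (fun _ => o) fun _ => (univ : Set ℕ)
  have h : N ≤ M := fun g hg i => ⟨fun _ => rfl, fun s x n _ => (hg i).2 s x n trivial⟩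
  refine ⟨Yo (Lo _) M N ρ σ, isClosed_closure, iso rep (fun g k => BoundedContinuousFunction.ext
    fun x => k _ (dl_mem x)) Ma_of Ma_of h r1 r2 s1 s2, _, (countable_range fun p : Finset ℕ ×
      Finset ℕ × ℕ => rl o p.1 p.2.1 p.2.2 ∘L ρ).preimage Subtype.val_injective,
        fun P hP ⟨t, t1, t2⟩ => ?_⟩
  have y := fun v (h : v ∈ An (Lo _) N) =>
    (Yo_mem _ (.inl (.inr ⟨v, h, rfl⟩)) : v ∘L ρ ∈ Yo (Lo _) M N ρ σ)
  obtain ⟨C, c0, hC⟩ := P.bound
  have m1 : ∀ g ∈ M, g - σ g ∈ M := fun g k => sub_mem k (h (s1 g))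
  have c1 : ∀ v ∈ Lo _, ∀ y : Du (I × Finset ℕ × Finset ℕ →ᵇ ℝ), (∀ g ∈ M, y g = v g) → y ∈ tl M :=
    fun v h y k ε e => (tl_Lo M h ε e).imp fun F hF g hg j => (k g hg).symm ▸ hF g hg j
  have c2 : ∀ y ∈ Yo (Lo _) M N ρ σ, y ∘L (1 - σ) ∈ tl M := by
    refine Yo_ind _ (tl_closed M) ?_
    rintro v ((k | ⟨v, k, rfl⟩) | ⟨v, k, rfl⟩)
    · exact c1 0 (zero_mem _) _ fun g j => k.2 _ (m1 g j)
    · exact c1 v k.1 _ fun g j => (congrArg v (r2 _ (m1 g j))).trans (by simp [k.2 _ (s1 g)])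
    · exact c1 0 (zero_mem _) _ fun g j => by simp [s2 _ (s1 g)]
  choose F hF using fun (y : Yo (Lo _) M N ρ σ) (k : ℕ) =>
    c2 y y.2 _ (Nat.one_div_pos_of_nat (n := k))
  have c3 : ({o} ∪ ⋃ y ∈ t, ⋃ k, Prod.fst '' (F y k : Set (I × Finset ℕ × Finset ℕ))).Countable :=
    (countable_singleton o).union (t1.biUnion fun y _ => countable_iUnion fun k =>
      (F y k).countable_toSet.image _)
  obtain ⟨γ, hγ⟩ := (ne_univ_iff_exists_notMem _).1 (mt (· ▸ c3) not_countable_univ : ({o} ∪ ⋃ y ∈ t,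
    ⋃ k, Prod.fst '' (F y k : Set (I × Finset ℕ × Finset ℕ))) ≠ univ)
  have c4 : ∀ ξ, ∀ g ∈ M, (∀ x, x.1 ≠ γ → g x = 0) → (P ξ).1 (g - σ g) = 0 := fun ξ g j k => by
    refine closure_minimal (s := t) (t := {y | y.1 (g - σ g) = 0}) (fun y m => abs_nonpos_iff.1
      (ge_of_tendsto' (zero_mul ‖g‖ ▸ tendsto_one_div_add_atTop_nhds_zero_nat.mul_const ‖g‖)
        fun n => hF y n g j fun x e => k x fun e' => hγ (.inr (mem_biUnion m
          (mem_iUnion.2 ⟨n, x, e, e'⟩))))) (isClosed_eq (by fun_prop) continuous_const) (t2 ⟨ξ, rfl⟩)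
  have z : ∀ t, dl (γ, t) - dl (o, t) ∈ An (Lo _) N := fun t =>
    ⟨sub_mem (dl_mem _) (dl_mem _), fun g k => sub_eq_zero.2 ((k γ).1 t)⟩
  let f := fun t => (P ⟨_, y _ (z t)⟩).1 ∘L (1 - σ) + dl (o, t)
  have hM : ∀ A : Set (I × Finset ℕ), ∀ g ∈ M, ∀ h : I × Finset ℕ × Finset ℕ →ᵇ ℝ,
      (∀ x, (x.1, x.2.1.filter (· ∉ a x.1)) ∈ A → h x = g x) →
      (∀ x, (x.1, x.2.1.filter (· ∉ a x.1)) ∉ A → h x = 0) → h ∈ M :=
    fun A g j h k1 k2 i => ⟨fun _ => rfl, fun s x n n1 n2 => by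
      have e : (insert n s).filter (· ∉ a i) = s.filter (· ∉ a i) := by
        rw [Finset.filter_insert, if_neg (not_not.2 n1)]
      beta_reduce
      by_cases m : (i, s.filter (· ∉ a i)) ∈ A
      · rw [k1 _ m, k1 _ (e.symm ▸ m), k1 _ (e.symm ▸ m)]
        exact (j i).2 s x n n1 n2
      · rw [k2 _ m, k2 _ (e.symm ▸ m), k2 _ (e.symm ▸ m)]
        simp⟩
  have b1 : ∀ (n : ℕ) (x : I × Finset ℕ × Finset ℕ),
      ‖if n ∈ x.2.1 then if n ∈ x.2.2 then (1 : ℝ) else -1 else 0‖ ≤ 1 := fun n x => by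
    split_ifs <;> simp
  let r := fun n => BoundedContinuousFunction.ofNormedAddCommGroupDiscrete _ _ (b1 n)
  have b2 : ∀ n, r n ∈ N := fun n i => ⟨fun _ => rfl, fun s x m _ k => by
    by_cases e : n = m
    · by_cases j : m ∈ x <;> simp [r, e, k, j, Finset.mem_symmDiff]
    · simp [r, e, Finset.mem_symmDiff, ← two_mul]⟩
  choose p q p1 p2 p3 p4 p5 using fun n => cut {x | x.1 = γ} (r n)
  have p6 := fun n => hM {k | k.1 = γ} _ (h (b2 n)) (p n) (fun x k => (p4 n x k).1)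
    fun x k => (p5 n x k).1
  have o1 : o ≠ γ := fun e => hγ (.inl e.symm)
  refine hump (fun x => (x.1, x.2.1.filter (· ∉ a x.1))) (a1 γ) hM
    (w := fun n => (1 / 2 : ℝ) • (f ({n}, {n}) - f ({n}, ∅))) (fun n => ?_)
    (C := (C * 2 * 2 + 1) ^ 2) (fun g j k D d => ?_) (r := q) (fun n => ⟨?_, (p3 n).trans
      ((BoundedContinuousFunction.norm_le zero_le_one).2 (b1 n)), ?_⟩) fun k => ?_
  · have : ∀ t, f t ∈ tl M := fun t => add_mem (c2 _ (P _).2) (tl_Lo M (dl_mem _))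
    exact Submodule.smul_mem _ _ (sub_mem (this _) (this _))
  · refine le_trans (le_of_eq ?_) (Mt.bessel (f := fun t => f t g) (fun s x n n1 n2 => ?_)
      (fun t => (abs_add_le ((P ⟨_, y _ (z t)⟩).1 (g - σ g)) (g (o, t))).trans
        (add_le_add ?_ ((g.norm_coe_le_norm _).trans k))) D d)
    · simp [div_eq_inv_mul]
    · have e := hP ⟨_, y _ (rl_mem (i := o) x (n := n) trivial n2)⟩ ⟨(s, x, n), rfl⟩
      have e1 : (2 : ℝ) • (⟨_, y _ (z (s, x))⟩ : Yo (Lo _) M N ρ σ) + ⟨_, y _ (rl_mem (i := o) x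
          (n := n) trivial n2)⟩ = ⟨_, y _ (z (insert n s, x))⟩ + ⟨_, y _ (z (insert n s, x ∆ {n}))⟩ :=
        Subtype.ext (ContinuousLinearMap.ext fun g => by
          have := (r1 g γ).2 s x n n1 n2
          simp [rl, dl] at this ⊢
          linarith)
      have e2 := congrArg (fun v => (P v).1 (g - σ g)) e1
      have e3 := (s1 g o).2 s x n trivial n2
      simp only [map_add, map_smul, e] at e2
      simp [rl, dl, f, r2 _ (m1 g j)] at e2 e3 ⊢
      linarith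
    · refine ((P _).1.le_opNorm _).trans (mul_le_mul ((hC _).trans
        (mul_le_mul_of_nonneg_left (ContinuousLinearMap.opNorm_le_bound _ zero_le_two fun g => ?_)
          c0.le)) (by linarith [norm_sub_le g (σ g), s3 g]) (norm_nonneg _) (by positivity))
      change ‖ρ g (γ, t) - ρ g (o, t)‖ ≤ _
      linarith [norm_sub_le (ρ g (γ, t)) (ρ g (o, t)), (ρ g).norm_coe_le_norm (γ, t),
        (ρ g).norm_coe_le_norm (o, t), r3 g]
  · exact eq_sub_of_add_eq' (p1 n).symm ▸ sub_mem (h (b2 n)) (p6 n)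
  · have e : ∀ t, f t (q n) = r n (o, t) := fun t => by
      rw [eq_sub_of_add_eq' (p1 n).symm, map_sub]
      change (P _).1 (r n - σ (r n)) + r n (o, t) - ((P _).1 (p n - σ (p n)) + p n (o, t)) = _
      rw [c4 _ _ (p6 n) fun x k => (p5 n x k).1, s2 _ (b2 n), (p5 n _ o1).1]
      simp
    simp [e, r]
    norm_num
  · by_cases e : k.1 = γ
    · exact finite_empty.subset fun n ⟨_, x, x1, x2⟩ => x2 (p4 n x (x1 ▸ e :)).2
    refine ((a2 _ _ e).union k.2.finite_toSet).subset ?_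
    rintro n ⟨n1, x, rfl, x2⟩
    rw [(p5 n x e).2] at x2
    exact (em (n ∈ a x.1)).imp (⟨·, n1⟩) fun j => Finset.mem_filter.2
      ⟨by_contra fun m => x2 (if_neg m), j⟩

end

theorem main : ∃ (X : Type) (_ : NormedAddCommGroup X) (_ : NormedSpace ℝ X) (_ : CompleteSpace X),
    Pl (Du (Du X)) ∧ ∃ s : Set X, s.Countable ∧
      ∀ P : X →L[ℝ] X, (∀ x ∈ s, P x = x) → ¬ IsSeparable (range P) := by
  classical
  let : TopologicalSpace ((ℕ → Bool) × Finset ℕ × Finset ℕ) := ⊥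
  have : DiscreteTopology ((ℕ → Bool) × Finset ℕ × Finset ℕ) := ⟨rfl⟩
  have : Uncountable (ℕ → Bool) := Cardinal.aleph0_lt_mk_iff.1 (by
    simpa using Cardinal.aleph0_lt_continuum)
  obtain ⟨Y, h1, ⟨e⟩, h2⟩ := core (I := ℕ → Bool) default (a := fun t => range fun n =>
    Encodable.encode (n, (Finset.range n).filter (t · = true))) (fun t => infinite_range_of_injective
      fun _ _ h => congrArg Prod.fst (Encodable.encode_injective h)) fun s t h => by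
    obtain ⟨k, hk⟩ := ne_iff.1 h
    refine ((finite_le_nat k).image fun n =>
      Encodable.encode (n, (Finset.range n).filter (s · = true))).subset ?_
    rintro _ ⟨⟨n, rfl⟩, m, h⟩
    obtain ⟨rfl, h⟩ := Prod.mk.inj (Encodable.encode_injective h)
    refine ⟨m, show m ≤ k from not_lt.1 fun l => hk ?_, rfl⟩
    have := Finset.ext_iff.1 h k
    simp only [Finset.mem_filter, Finset.mem_range, l, true_and] at this
    exact Bool.eq_iff_iff.2 this.symm
  exact ⟨Y, inferInstance, inferInstance, h1.completeSpace_coe,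
    ba.of_equiv (e.arrowCongr (.refl ℝ ℝ)), h2⟩

end H5B
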