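import Mathlib

/-! A compact space whose function space maps onto a cube of singular weight. -/

open Set Filter Topology Cardinal

namespace H5B

def T : ℕ → Type
  | 0 => ℕ
  | n + 1 => Set (Ultrafilter (T n))

abbrev S := Σ n, Ultrafilter (T n)

lemma cpt (N : ℕ) : IsCompact {x : S | x.1 < N} := by
  have : {x : S | x.1 < N} = ⋃ n ∈ Iio N, range (Sigma.mk n) := by
    ext ⟨n, b⟩
    simp only [mem_ofPred_eq, mem_iUnion, mem_range]
    exact ⟨fun h => ⟨n, h, b, rfl⟩, fun ⟨_, h, _, e⟩ => (Sigma.mk.inj_iff.1 e).1 ▸ h⟩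
  rw [this]
  exact (finite_lt_nat N).isCompact_biUnion fun n _ => isCompact_range continuous_sigmaMk

lemma cont_fst : Continuous (Sigma.fst : S → ℕ) := continuous_sigma fun _ => continuous_const

instance : WeaklyLocallyCompactSpace S := ⟨fun x => ⟨_, cpt (x.1 + 1),
  ((isOpen_discrete (Iio (x.1 + 1))).preimage cont_fst).mem_nhds (Nat.lt_succ_self _)⟩⟩

lemma lt_card (n : ℕ) : #(Ultrafilter (T n)) < #(Σ n, T n) :=
  (cantor _).trans_le (mk_set.ge.trans (mk_le_of_injective (α := T (n + 1))
    (f := Sigma.mk (n + 1)) sigma_mk_injective))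

lemma unc : ℵ₀ < #(Σ n, T n) :=
  mk_nat.ge.trans_lt ((mk_le_of_injective (α := ℕ) (f := pure)
    Ultrafilter.pure_injective).trans_lt (lt_card 0))

lemma onto : ∃ φ : {f : OnePoint S → ℝ // Continuous f} → ((Σ n, T n) → unitInterval),
    Continuous φ ∧ Function.Surjective φ := by
  refine ⟨fun f i => projIcc 0 1 zero_le_one (2 ^ i.1 * f.1 (.some ⟨i.1, pure i.2⟩)),
    continuous_pi fun i => continuous_projIcc.comp (continuous_const.mul
      ((continuous_apply _).comp continuous_subtype_val)), fun y => ?_⟩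
  let g : S → ℝ := fun x => (1 / 2) ^ x.1 * (Ultrafilter.extend (fun t => y ⟨x.1, t⟩) x.2).1
  refine ⟨⟨fun x => x.elim 0 g, (OnePoint.continuous_iff _).2 ⟨?_, continuous_sigma fun n => ?_⟩⟩,
    funext fun i => ?_⟩
  · have t : Tendsto (Sigma.fst : S → ℕ) (coclosedCompact S) atTop := by
      rw [coclosedCompact_eq_cocompact]
      exact tendsto_atTop.2 fun N => mem_of_superset (cpt N).compl_mem_cocompact
        fun x hx => not_lt.1 (show ¬ x.1 < N from hx)
    refine squeeze_zero (fun x => mul_nonneg (by positivity) (unitInterval.nonneg _))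
      (fun x => mul_le_of_le_one_right (by positivity) (unitInterval.le_one _))
      ((tendsto_pow_atTop_nhds_zero_of_lt_one (by norm_num) (by norm_num)).comp t)
  · exact (continuous_const (y := (1 / 2 : ℝ) ^ n)).mul (continuous_subtype_val.comp
      (continuous_ultrafilter_extend fun t => y ⟨n, t⟩))
  · simp [g]

lemma no_disc (D : Set (OnePoint S)) [DiscreteTopology D] (hD : #D = #(Σ n, T n)) :
    ∃ g : D → ℝ, (∀ x, |g x| ≤ 1) ∧ ¬ ∃ G : OnePoint S → ℝ, Continuous G ∧ ∀ x : D, G x = g x := by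
  classical
  have hi : {n | ∃ b, .some ⟨n, b⟩ ∈ D}.Infinite := fun hf => by
    obtain ⟨N, hN⟩ := hf.bddAbove
    have : ∀ N, #(⋃ n ∈ Iio N, range fun b => OnePoint.some (⟨n, b⟩ : S)) < #(Σ n, T n) := by
      intro N
      induction N with
      | zero => simpa using aleph0_pos.trans unc
      | succ N ih =>
        rw [show Iio (N + 1) = insert N (Iio N) by ext; simp, biUnion_insert]
        exact (mk_union_le _ _).trans_lt (add_lt_of_lt unc.le (mk_range_le.trans_lt (lt_card N)) ih)
    refine hD.not_lt ((mk_le_mk_of_subset (t := insert OnePoint.infty _) ?_).trans_lt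
      (mk_insert_le.trans_lt (add_lt_of_lt unc.le (this (N + 1)) (one_lt_aleph0.trans unc))))
    rintro (_ | ⟨n, b⟩) hx
    exacts [Or.inl rfl, Or.inr (mem_biUnion (Nat.lt_succ_of_le (hN ⟨b, hx⟩)) ⟨b, rfl⟩)]
  let e := hi.natEmbedding
  choose b hb using fun k => (e k).2
  let d : ℕ → S := fun k => ⟨e k, b k⟩
  have inj : Function.Injective fun k => (d k).1 := Subtype.val_injective.comp e.injective
  have t : Tendsto (fun k => OnePoint.some (d k)) atTop (𝓝 OnePoint.infty) := by
    refine OnePoint.tendsto_coe_infty.comp ?_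
    rw [coclosedCompact_eq_cocompact, ← Nat.cofinite_eq_atTop]
    refine (hasBasis_cocompact.tendsto_right_iff).2 fun K hK => ?_
    exact ((hK.image cont_fst).finite_of_discrete.preimage inj.injOn).subset
      fun k hk => ⟨_, not_not.1 hk, rfl⟩
  refine ⟨fun x => if ∃ k, x.1 = .some (d (2 * k)) then 1 else 0, fun x => by
    beta_reduce; split_ifs <;> simp, fun ⟨G, g1, g2⟩ => ?_⟩
  have t1 := ((g1.tendsto _).comp t).comp (tendsto_id.const_mul_atTop' two_pos)
  have t2 := ((g1.tendsto _).comp t).comp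
    ((tendsto_add_atTop_nat 1).comp (tendsto_id.const_mul_atTop' two_pos))
  refine one_ne_zero ((tendsto_nhds_unique tendsto_const_nhds (t1.congr fun k => ?_)).trans
    (tendsto_nhds_unique (t2.congr fun k => ?_) tendsto_const_nhds))
  · exact (g2 ⟨_, hb _⟩).trans (if_pos ⟨k, rfl⟩)
  · refine (g2 ⟨_, hb _⟩).trans (if_neg fun ⟨l, h⟩ => ?_)
    have := inj (congrArg Sigma.fst (OnePoint.coe_injective h))
    simp only [id, Function.comp] at this
    omega

end H5B
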