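import Pool.Agent.Lib.helper5.Face

/-! Continuous maps from `C_p(K)` to `C_p(E^Λ)`. -/

open Set Filter Topology MeasureTheory

namespace H5C

variable {Λ : Type*} {E : Type*} [PseudoMetricSpace E] {K : Type*} [TopologicalSpace K]

/-- every continuous map from the product to `K` is constant on a face -/
def Rigid (Λ E K : Type*) [TopologicalSpace E] [TopologicalSpace K] : Prop :=
  ∀ x : (Λ → E) → K, Continuous x → ∃ B, IsFace B ∧ ∃ c, ∀ u ∈ B, x u = c

lemma grill {X : Type*} [TopologicalSpace X] {A B : Set X} (hA : IsClosed A)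
    {v : X} (h : v ∈ closure (interior (A ∪ B))) :
    v ∈ closure (interior A) ∨ v ∈ closure (interior B) := by
  by_contra hn
  push Not at hn
  have ho : IsOpen ((closure (interior A))ᶜ ∩ (closure (interior B))ᶜ) :=
    isClosed_closure.isOpen_compl.inter isClosed_closure.isOpen_compl
  obtain ⟨z, ⟨z1, z2⟩, z3⟩ := mem_closure_iff.1 h _ ho ⟨hn.1, hn.2⟩
  refine z1 (subset_closure (mem_interior.2 ⟨(closure (interior B))ᶜ ∩ interior (A ∪ B), ?_,
    isClosed_closure.isOpen_compl.inter isOpen_interior, z2, z3⟩))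
  rintro y ⟨y1, y2⟩
  exact (hA.interior_union_left y2).resolve_right fun h => y1 (subset_closure h)

lemma nosplit [CompactSpace K] [T2Space K] (H : Rigid Λ E K) {L : Type*} [TopologicalSpace L]
    [CompactSpace L] {π : L → K} (hπ : Continuous π) {Γ : Set ((Λ → E) × L)} (hΓ : IsClosed Γ)
    {A : Set (Λ → E)} (hA : IsFace A) (hf : ∀ u ∈ A, ∃ x, (u, x) ∈ Γ) :
    (∃ B, IsFace B ∧ B ⊆ A ∧ ∃ c, ∀ u ∈ B, ∃ x, (u, x) ∈ Γ ∧ π x = c) ∨
    (∃ B, IsFace B ∧ B ⊆ A ∧ ∃ B1 B2 : Set K, IsClosed B1 ∧ IsClosed B2 ∧ Disjoint B1 B2 ∧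
      (∀ u ∈ B, ∃ x, (u, x) ∈ Γ ∧ π x ∈ B1) ∧ ∀ u ∈ B, ∃ x, (u, x) ∈ Γ ∧ π x ∈ B2) := by
  classical
  obtain ⟨S, hS, w, rfl⟩ := hA
  refine or_iff_not_imp_right.2 fun hn => ?_
  let r : (Λ → E) → Λ → E := fun v => S.piecewise w v
  have hr : Continuous r := continuous_pi fun a => by
    by_cases h : a ∈ S
    · simp only [r, piecewise_eq_of_mem _ _ _ h]; exact continuous_const
    · simp only [r, piecewise_eq_of_notMem _ _ _ h]; exact continuous_apply a
  have hrA : ∀ v, r v ∈ F S w := fun v a ha => piecewise_eq_of_mem _ _ _ ha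
  let D : Set K → Set (Λ → E) := fun B => {v | ∃ x, (r v, x) ∈ Γ ∧ π x ∈ B}
  have hD : ∀ B, IsClosed B → IsClosed (D B) := fun B hB => by
    have : D B = Prod.fst '' {p : (Λ → E) × L | (r p.1, p.2) ∈ Γ ∧ π p.2 ∈ B} := by
      ext v; simp [D]
    rw [this]
    exact isClosedMap_fst_of_compactSpace _
      ((hΓ.preimage (by fun_prop)).inter (hB.preimage (by fun_prop)))
  have pull : ∀ (T : Set Λ) (v : Λ → E), ∀ u ∈ F (S ∪ T) (r v), ∃ v' ∈ F T v, r v' = u := by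
    intro T v u hu
    refine ⟨S.piecewise v u, fun a ha => ?_, funext fun a => ?_⟩
    · by_cases h : a ∈ S
      · exact piecewise_eq_of_mem _ _ _ h
      · rw [piecewise_eq_of_notMem _ _ _ h, hu a (Or.inr ha)]
        exact piecewise_eq_of_notMem _ _ _ h
    · by_cases h : a ∈ S
      · rw [hu a (Or.inl h), hrA _ a h, hrA _ a h]
      · simp only [r, piecewise_eq_of_notMem _ _ _ h]
  have subA : ∀ (T : Set Λ) (v : Λ → E), F (S ∪ T) (r v) ⊆ F S w := fun T v => by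
    rw [← F_eq (hrA v)]; exact F_mono subset_union_left _
  let P : (Λ → E) → Set K → Prop := fun v B => v ∈ closure (interior (D B))
  have PD : ∀ v B, IsClosed B → P v B → v ∈ D B := fun v B hB h =>
    closure_minimal interior_subset (hD B hB) h
  have P2 : ∀ v B1 B2, IsClosed B1 → IsClosed B2 → Disjoint B1 B2 → P v B1 → P v B2 → False := by
    intro v B1 B2 b1 b2 b3 p1 p2
    obtain ⟨S1, s1, t1⟩ := face_closure isOpen_interior p1
    obtain ⟨S2, s2, t2⟩ := face_closure isOpen_interior p2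
    refine hn ⟨F (S ∪ (S1 ∪ S2)) (r v), isFace_F (hS.union (s1.union s2)) _, subA _ _, B1, B2,
      b1, b2, b3, fun u hu => ?_, fun u hu => ?_⟩
    · obtain ⟨v', h1, rfl⟩ := pull _ _ u hu
      exact PD v' B1 b1 (t1 (F_mono subset_union_left _ h1))
    · obtain ⟨v', h1, rfl⟩ := pull _ _ u hu
      exact PD v' B2 b2 (t2 (F_mono subset_union_right _ h1))
  have ex : ∀ v, ∃ y : K, ∀ B, IsClosed B → B ∈ 𝓝 y → P v B := by
    intro v
    by_contra hy
    push Not at hy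
    choose B b1 b2 b3 using hy
    obtain ⟨t, -, ht⟩ := isCompact_univ.elim_nhds_subcover B fun y _ => b2 y
    have : ∀ t : Finset K, ¬ P v (⋃ y ∈ t, B y) := by
      intro t
      induction t using Finset.induction_on with
      | empty => simp [P, D]
      | insert y t _ ih =>
        intro h
        have e : D (⋃ z ∈ insert y t, B z) = D (B y) ∪ D (⋃ z ∈ t, B z) := by
          rw [Finset.set_biUnion_insert]
          ext v; simp only [D, mem_union, mem_ofPred_eq, and_or_left, exists_or]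
        simp only [P, e] at h
        exact (grill (hD _ (b1 y)) h).elim
          (b3 y) ih
    refine this t ?_
    have : D (⋃ y ∈ t, B y) = univ := eq_univ_of_forall fun v => by
      obtain ⟨x, hx⟩ := hf _ (hrA v)
      exact ⟨x, hx, ht (mem_univ _)⟩
    simp [P, this]
  have un : ∀ v (y z : K), (∀ B, IsClosed B → B ∈ 𝓝 y → P v B) →
      (∀ B, IsClosed B → B ∈ 𝓝 z → P v B) → y = z := by
    intro v y z hy hz
    by_contra hne
    obtain ⟨O, O', o1, o2, o3, o4, o5⟩ := t2_separation hne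
    obtain ⟨B1, b1, b2, b3⟩ := exists_mem_nhds_isClosed_subset (o1.mem_nhds o3)
    obtain ⟨B2, c1, c2, c3⟩ := exists_mem_nhds_isClosed_subset (o2.mem_nhds o4)
    exact P2 v B1 B2 b2 c2 (o5.mono b3 c3) (hy _ b2 b1) (hz _ c2 c1)
  choose x hx using ex
  have hg : IsClosed {p : (Λ → E) × K | ∀ B, IsClosed B → B ∈ 𝓝 p.2 → P p.1 B} := by
    rw [← isOpen_compl_iff, isOpen_iff_mem_nhds]
    rintro ⟨v, y⟩ h
    simp only [mem_compl_iff, mem_ofPred_eq, not_forall] at h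
    obtain ⟨B, b1, b2, b3⟩ := h
    filter_upwards [prod_mem_nhds (isClosed_closure.isOpen_compl.mem_nhds b3)
      (interior_mem_nhds.2 b2)] with p hp hq
    exact hp.1 (hq B b1 (mem_interior_iff_mem_nhds.1 hp.2))
  have hc : Continuous x := continuous_iff_isClosed.2 fun C hC => by
    have : x ⁻¹' C = Prod.fst '' ({p : (Λ → E) × K | ∀ B, IsClosed B → B ∈ 𝓝 p.2 → P p.1 B} ∩
        Prod.snd ⁻¹' C) := by
      ext v
      refine ⟨fun h => ⟨(v, x v), ⟨hx v, h⟩, rfl⟩, ?_⟩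
      rintro ⟨⟨v, y⟩, ⟨h1, h2⟩, rfl⟩
      show x v ∈ C
      rw [un v _ _ (hx v) h1]; exact h2
    rw [this]
    exact isClosedMap_fst_of_compactSpace _ (hg.inter (hC.preimage continuous_snd))
  obtain ⟨_, ⟨T, hT, v, rfl⟩, c, hc'⟩ := H x hc
  refine ⟨F (S ∪ T) (r v), isFace_F (hS.union hT) _, subA _ _, c, fun u hu => ?_⟩
  obtain ⟨v', h1, rfl⟩ := pull _ _ u hu
  have hcl : IsClosed (π '' {y | (r v', y) ∈ Γ}) :=
    ((hΓ.preimage (f := fun y => (r v', y)) (by fun_prop)).isCompact.image hπ).isClosed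
  have : c ∈ π '' {y | (r v', y) ∈ Γ} := by
    by_contra h
    obtain ⟨B, b1, b2, b3⟩ := exists_mem_nhds_isClosed_subset (hcl.isOpen_compl.mem_nhds h)
    obtain ⟨y, y1, y2⟩ := PD v' B b2 (hx v' B b2 (by rwa [hc' v' h1]))
    exact b3 y2 ⟨y, y1, rfl⟩
  exact this

lemma avoid [CompactSpace K] [T2Space K] (H : Rigid Λ E K) {ι : Type*}
    {Γ : Set ((Λ → E) × (ι → K))} {A0 : Set (Λ → E)} (T : Finset ι)
    (hn : ∀ i ∈ T, ∀ B, IsFace B → B ⊆ A0 → ∀ c, ¬ ∀ u ∈ B, ∃ x, (u, x) ∈ Γ ∧ x i = c) (m : ℕ) :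
    ∀ Γ' ⊆ Γ, IsClosed Γ' → ∀ A, IsFace A → A ⊆ A0 → (∀ u ∈ A, ∃ x, (u, x) ∈ Γ') →
      ∃ B, IsFace B ∧ B ⊆ A ∧ ∀ u ∈ B, ∀ G : Finset K, G.card ≤ m →
        ∃ x, (u, x) ∈ Γ' ∧ ∀ i ∈ T, x i ∉ G := by
  classical
  induction T using Finset.induction_on with
  | empty =>
    intro Γ' _ _ A hA _ hf
    exact ⟨A, hA, subset_rfl, fun u hu G _ => (hf u hu).imp fun x hx => ⟨hx, by simp⟩⟩
  | insert i T _ ih =>
    replace ih := ih fun j hj => hn j (Finset.mem_insert_of_mem hj)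
    have key : ∀ m' : ℕ, ∀ Γ' ⊆ Γ, IsClosed Γ' → ∀ A, IsFace A → A ⊆ A0 →
        (∀ u ∈ A, ∃ x, (u, x) ∈ Γ') → ∃ B, IsFace B ∧ B ⊆ A ∧ ∀ u ∈ B, ∀ G G' : Finset K,
        G.card ≤ m → G'.card ≤ m' → ∃ x, (u, x) ∈ Γ' ∧ (∀ j ∈ T, x j ∉ G) ∧ x i ∉ G' := by
      intro m'
      induction m' with
      | zero =>
        intro Γ' g1 g2 A a1 a2 hf
        obtain ⟨B, b1, b2, b3⟩ := ih Γ' g1 g2 A a1 a2 hf
        refine ⟨B, b1, b2, fun u hu G G' h1 h2 => (b3 u hu G h1).imp fun x hx => ⟨hx.1, hx.2, ?_⟩⟩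
        simp [Finset.card_eq_zero.1 (Nat.le_zero.1 h2)]
      | succ m' ih' =>
        intro Γ' g1 g2 A a1 a2 hf
        rcases nosplit H (continuous_apply i) g2 a1 hf with ⟨B, b1, b2, c, b3⟩ |
          ⟨B, b1, b2, B1, B2, c1, c2, c3, c4, c5⟩
        · exact (hn i (Finset.mem_insert_self _ _) B b1 (b2.trans a2) c fun u hu =>
            (b3 u hu).imp fun x hx => ⟨g1 hx.1, hx.2⟩).elim
        obtain ⟨B', d1, d2, d3⟩ := ih' (Γ' ∩ {p | p.2 i ∈ B1}) (inter_subset_left.trans g1)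
          (g2.inter (c1.preimage (by fun_prop))) B b1 (b2.trans a2) c4
        obtain ⟨B'', e1, e2, e3⟩ := ih' (Γ' ∩ {p | p.2 i ∈ B2}) (inter_subset_left.trans g1)
          (g2.inter (c2.preimage (by fun_prop))) B' d1 (d2.trans (b2.trans a2))
          fun u hu => c5 u (d2 hu)
        refine ⟨B'', e1, e2.trans (d2.trans b2), fun u hu G G' h1 h2 => ?_⟩
        have h3 : (G'.filter (· ∈ B1)).card + (G'.filter (· ∈ B2)).card ≤ G'.card := by
          rw [← Finset.card_union_of_disjoint (Finset.disjoint_filter.2 fun x _ h h' =>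
            disjoint_left.1 c3 h h')]
          exact Finset.card_le_card (Finset.union_subset (Finset.filter_subset _ _)
            (Finset.filter_subset _ _))
        by_cases h4 : (G'.filter (· ∈ B1)).card ≤ m'
        · obtain ⟨x, x1, x2, x3⟩ := d3 u (e2 hu) G _ h1 h4
          exact ⟨x, x1.1, x2, fun h => x3 (Finset.mem_filter.2 ⟨h, x1.2⟩)⟩
        · obtain ⟨x, x1, x2, x3⟩ := e3 u hu G (G'.filter (· ∈ B2)) h1 (by omega)
          exact ⟨x, x1.1, x2, fun h => x3 (Finset.mem_filter.2 ⟨h, x1.2⟩)⟩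
    intro Γ' g1 g2 A a1 a2 hf
    obtain ⟨B, b1, b2, b3⟩ := key m Γ' g1 g2 A a1 a2 hf
    refine ⟨B, b1, b2, fun u hu G hG => (b3 u hu G G hG hG).imp fun x hx => ⟨hx.1, ?_⟩⟩
    simpa using ⟨hx.2.2, hx.2.1⟩

/-- continuous real functions with the pointwise topology -/
abbrev Cp (K : Type*) [TopologicalSpace K] := {f : K → ℝ // Continuous f}

lemma cp_nhds {U : Set (Cp K)} (hU : IsOpen U) {f : Cp K} (hf : f ∈ U) :
    ∃ G : Finset K, ∃ ε > 0, ∀ g : Cp K, (∀ x ∈ G, dist (g.1 x) (f.1 x) < ε) → g ∈ U := by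
  obtain ⟨V, hV, rfl⟩ := isOpen_induced_iff.1 hU
  obtain ⟨G, ε, h1, h2⟩ := pi_nhds hV hf
  exact ⟨G, ε, h1, fun g hg => h2 _ hg⟩

lemma cert_aux [CompactSpace K] [T2Space K] (H : Rigid Λ E K) {Φ : Cp K → (Λ → E) → ℝ}
    (h2 : ∀ u, Continuous fun f => Φ f u) (f0 : Cp K) (a : ℝ) {δ : ℝ} (hδ : 0 < δ) {ι : Type*}
    [Fintype ι] (T : Finset ι) : ∀ Γ : Set ((Λ → E) × (ι → K)), IsClosed Γ →
      (∀ p ∈ Γ, ∀ f : Cp K, (∀ i, dist (f.1 (p.2 i)) (f0.1 (p.2 i)) < δ) → Φ f p.1 ≤ a) →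
      (∀ i ∉ T, ∃ c, ∀ p ∈ Γ, p.2 i = c) → ∀ A, IsFace A → (∀ u ∈ A, ∃ x, (u, x) ∈ Γ) →
      ∃ B, IsFace B ∧ B ⊆ A ∧ ∃ R : Finset K, ∀ u ∈ B, ∀ f : Cp K,
        (∀ x ∈ R, dist (f.1 x) (f0.1 x) < δ) → Φ f u ≤ a := by
  classical
  induction T using Finset.strongInduction with
  | H T ih =>
  intro Γ g1 g2 g3 A a1 a2
  by_cases hn : ∀ i ∈ T, ∀ B, IsFace B → B ⊆ A → ∀ c, ¬ ∀ u ∈ B, ∃ x, (u, x) ∈ Γ ∧ x i = c
  swap
  · push Not at hn
    obtain ⟨i, hi, B, b1, b2, c, b3⟩ := hn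
    obtain ⟨B', d1, d2, d3⟩ := ih (T.erase i) (Finset.erase_ssubset hi) (Γ ∩ {p | p.2 i = c})
      (g1.inter (isClosed_eq (by fun_prop) continuous_const)) (fun p hp => g2 p hp.1)
      (fun j hj => by
        by_cases h : j = i
        · exact ⟨c, fun p hp => h ▸ hp.2⟩
        · obtain ⟨c', hc⟩ := g3 j fun h' => hj (Finset.mem_erase.2 ⟨h, h'⟩)
          exact ⟨c', fun p hp => hc p hp.1⟩) B b1 b3
    exact ⟨B', d1, d2.trans b2, d3⟩
  obtain ⟨B, b1, b2, b3⟩ := dense_all (fun (m : ℕ) B => ∀ u ∈ B, ∀ G : Finset K, G.card ≤ m →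
      ∃ x, (u, x) ∈ Γ ∧ ∀ i ∈ T, x i ∉ G) (fun n A B h h' u hu => h' u (h hu)) a1
    fun m A' c1 c2 => avoid H T hn m Γ subset_rfl g1 A' c1 c2 fun u hu => a2 u (c2 hu)
  choose c hc using g3
  refine ⟨B, b1, b2, Finset.univ.image fun i : {i // i ∉ T} => c i.1 i.2, fun u hu f hf => ?_⟩
  by_contra hlt
  obtain ⟨G, ε, e1, e2⟩ := cp_nhds (isOpen_lt continuous_const (h2 u)) (not_le.1 hlt)
  obtain ⟨x, x1, x2⟩ := b3 G.card u hu G le_rfl
  obtain ⟨θ, t0, t1, t2⟩ := exists_continuous_zero_one_of_isClosed G.finite_toSet.isClosed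
    (T.finite_toSet.image x).isClosed (disjoint_right.2 (by rintro _ ⟨i, hi, rfl⟩; exact x2 i hi))
  let f' : Cp K := ⟨fun y => f.1 y + θ y * (f0.1 y - f.1 y), by have := f.2; have := f0.2; fun_prop⟩
  refine (e2 f' fun y hy => ?_).not_ge (g2 _ x1 f' fun i => ?_)
  · simpa [f', t0 hy] using e1
  · by_cases h : i ∈ T
    · simpa [f', t1 (mem_image_of_mem x h)] using hδ
    · have h1 := hf (x i) (Finset.mem_image.2 ⟨⟨i, h⟩, Finset.mem_univ _, (hc i h _ x1).symm⟩)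
      have h3 := t2 (x i)
      have : f'.1 (x i) - f0.1 (x i) = (1 - θ (x i)) * (f.1 (x i) - f0.1 (x i)) := by
        simp only [f']; ring
      show |f'.1 (x i) - f0.1 (x i)| < δ
      rw [this, abs_mul, abs_of_nonneg (sub_nonneg.2 h3.2)]
      exact (mul_le_of_le_one_left (abs_nonneg _) (by linarith [h3.1])).trans_lt h1

lemma cert [CompactSpace K] [T2Space K] (H : Rigid Λ E K) {Φ : Cp K → (Λ → E) → ℝ}
    (h1 : ∀ f, Continuous (Φ f)) (h2 : ∀ u, Continuous fun f => Φ f u) (f0 : Cp K) {a : ℝ}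
    {A : Set (Λ → E)} (hA : IsFace A) {u0 : Λ → E} (hu : u0 ∈ A) (ha : Φ f0 u0 < a) :
    ∃ B, IsFace B ∧ B ⊆ A ∧ ∃ δ > 0, ∃ R : Finset K, ∀ u ∈ B, ∀ f : Cp K,
      (∀ x ∈ R, dist (f.1 x) (f0.1 x) < δ) → Φ f u ≤ a := by
  obtain ⟨A1, a1, a2, a3⟩ := hA.sub_open (isOpen_lt (h1 f0) continuous_const) hu ha
  let Γ : (n k : ℕ) → Set ((Λ → E) × (Fin k → K)) := fun n k =>
    {p | ∀ f : Cp K, (∀ i, dist (f.1 (p.2 i)) (f0.1 (p.2 i)) < 1 / (n + 1)) → Φ f p.1 ≤ a}
  have hΓ : ∀ n k, IsClosed (Γ n k) := fun n k => by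
    simp only [Γ, ofPred_forall]
    refine isClosed_iInter fun f => ?_
    have : IsOpen {p : (Λ → E) × (Fin k → K) |
        ∀ i, dist (f.1 (p.2 i)) (f0.1 (p.2 i)) < 1 / (n + 1)} := by
      simp only [ofPred_forall]
      exact isOpen_iInter_of_finite fun i =>
        isOpen_lt (by have := f.2; have := f0.2; fun_prop) continuous_const
    have h3 := this.isClosed_compl.union (isClosed_le ((h1 f).comp continuous_fst)
      (continuous_const (y := a)))
    refine (congrArg IsClosed ?_).mp h3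
    ext p
    simp only [mem_ofPred_eq, mem_union, mem_compl_iff, Function.comp, imp_iff_not_or]
  have : ∃ n k, ∃ B, IsFace B ∧ B ⊆ A1 ∧ ∀ u ∈ B, ∃ x, (u, x) ∈ Γ n k := by
    by_contra hn
    push Not at hn
    obtain ⟨B, b1, b2, b3⟩ := dense_all (fun (p : ℕ × ℕ) B => B ⊆ (Prod.fst '' Γ p.1 p.2)ᶜ)
      (fun n A B h h' => h.trans h') a1 fun p A' c1 c2 => by
        obtain ⟨u, u1, u2⟩ := hn p.1 p.2 A' c1 c2
        exact c1.sub_open (isClosedMap_fst_of_compactSpace _ (hΓ _ _)).isOpen_compl u1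
          fun ⟨q, q1, q2⟩ => u2 q.2 (q2 ▸ q1)
    obtain ⟨u, hu⟩ := b1.nonempty
    obtain ⟨G, ε, e1, e2⟩ := cp_nhds (isOpen_lt (h2 u) continuous_const) (a3 (b2 hu))
    obtain ⟨n, hn⟩ := exists_nat_one_div_lt e1
    refine b3 (n, G.card) hu ⟨(u, fun i => G.equivFin.symm i), fun f hf => (e2 f fun x hx => ?_).le,
      rfl⟩
    simpa using (hf (G.equivFin ⟨x, hx⟩)).trans hn
  obtain ⟨n, k, B, b1, b2, b3⟩ := this
  obtain ⟨B', c1, c2, c3⟩ := cert_aux H h2 f0 a (δ := 1 / (n + 1)) (by positivity) Finset.univ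
    (Γ n k) (hΓ n k) (fun p hp => hp) (by simp) B b1 b3
  exact ⟨B', c1, c2.trans (b2.trans a2), _, by positivity, c3⟩

lemma interp {X : Type*} [TopologicalSpace X] [T35Space X] (G : Finset X) (h : X → ℝ) {C : Set X}
    (hC : IsClosed C) (hd : ∀ x ∈ G, x ∉ C) :
    ∃ g : X → ℝ, Continuous g ∧ (∀ x ∈ G, g x = h x) ∧ ∀ x ∈ C, g x = 0 := by
  classical
  induction G using Finset.induction_on with
  | empty => exact ⟨0, continuous_const, by simp, by simp⟩
  | insert y G hy ih =>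
    obtain ⟨g, g1, g2, g3⟩ := ih fun x hx => hd x (Finset.mem_insert_of_mem hx)
    obtain ⟨θ, t1, t2, t3⟩ := CompletelyRegularSpace.completely_regular y (C ∪ G)
      (hC.union G.finite_toSet.isClosed) (by simp [hy, hd y (Finset.mem_insert_self _ _)])
    refine ⟨fun x => g x + (1 - θ x) * (h y - g y), by fun_prop, fun x hx => ?_, fun x hx => ?_⟩
    · rcases Finset.mem_insert.1 hx with rfl | hx
      · simp [t2]
      · simp [t3 (Or.inr hx), g2 x hx]
    · simp [t3 (Or.inl hx), g3 x hx]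

lemma cp_dense {X : Type*} [TopologicalSpace X] [T35Space X] {V : Set (X → ℝ)} (hV : IsOpen V)
    (hne : V.Nonempty) : ∃ f : Cp X, f.1 ∈ V := by
  obtain ⟨h, hh⟩ := hne
  obtain ⟨G, hG⟩ := face_open hV hh
  obtain ⟨g, g1, g2, -⟩ := interp G h isClosed_empty (by simp)
  exact ⟨⟨g, g1⟩, hG g2⟩

lemma face_level [CompactSpace K] [T2Space K] (H : Rigid Λ E K) {Φ : Cp K → (Λ → E) → ℝ}
    (h1 : ∀ f, Continuous (Φ f)) (h2 : ∀ u, Continuous fun f => Φ f u) (a : ℝ)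
    {A : Set (Λ → E)} (hA : IsFace A) :
    ∃ B, IsFace B ∧ B ⊆ A ∧ ∀ f, ∀ u ∈ B, ∀ v ∈ B, Φ f u < a → Φ f v ≤ a := by
  classical
  let ν : Measure ℝ := ProbabilityTheory.gaussianReal 0 1
  let μ : Measure (K → ℝ) := Measure.infinitePi fun _ => ν
  let 𝓑 : Set (Λ → E) → Set (Set (K → ℝ)) := fun A =>
    {V | IsOpen V ∧ MeasurableSet V ∧ ∀ f : Cp K, f.1 ∈ V → ∀ u ∈ A, Φ f u ≤ a}
  let m : Set (Λ → E) → ℝ := fun A => sSup (μ.real '' 𝓑 A)
  have bd : ∀ A, BddAbove (μ.real '' 𝓑 A) := fun A =>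
    ⟨1, by rintro _ ⟨V, -, rfl⟩; exact measureReal_le_one⟩
  have ne : ∀ A, (μ.real '' 𝓑 A).Nonempty := fun A =>
    ⟨_, ∅, ⟨isOpen_empty, .empty, by simp⟩, rfl⟩
  have mono : ∀ A B, B ⊆ A → m A ≤ m B := fun A B h => csSup_le_csSup (bd B) (ne A)
    (image_mono fun V hV => ⟨hV.1, hV.2.1, fun f hf u hu => hV.2.2 f hf u (h hu)⟩)
  obtain ⟨B, b1, b2, b3⟩ := dense_all (fun (n : ℕ) B => ∀ B', IsFace B' → B' ⊆ B →
      m B' ≤ m B + 1 / (n + 1)) (fun n A B h h' B' c1 c2 =>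
        (h' B' c1 (c2.trans h)).trans (by linarith [mono A B h])) hA fun n A' c1 _ => by
    have hb : BddAbove (m '' {B | IsFace B ∧ B ⊆ A'}) := ⟨1, by
      rintro _ ⟨B, -, rfl⟩
      exact csSup_le (ne B) (by rintro _ ⟨V, -, rfl⟩; exact measureReal_le_one)⟩
    obtain ⟨_, ⟨B, ⟨d1, d2⟩, rfl⟩, d3⟩ := exists_lt_of_lt_csSup
      (s := m '' {B | IsFace B ∧ B ⊆ A'}) ⟨_, A', ⟨c1, subset_rfl⟩, rfl⟩
      (sub_lt_self _ (show (0 : ℝ) < 1 / (n + 1) by positivity))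
    refine ⟨B, d1, d2, fun B' e1 e2 => ?_⟩
    linarith [le_csSup hb ⟨B', ⟨e1, e2.trans d2⟩, rfl⟩]
  refine ⟨B, b1, b2, fun f u hu v hv hlt => ?_⟩
  by_contra hgt
  obtain ⟨B', c1, c2, δ, c3, R, c4⟩ := cert H h1 h2 f b1 hu hlt
  obtain ⟨G, ε, e1, e2⟩ := cp_nhds (isOpen_lt continuous_const (h2 v)) (not_le.1 hgt)
  let V : Set (K → ℝ) := Set.pi (R ∪ G : Finset K) fun x => Metric.ball (f.1 x) (min δ ε)
  have v1 : IsOpen V := isOpen_set_pi (Finset.finite_toSet _) fun _ _ => Metric.isOpen_ball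
  have v2 : MeasurableSet V := MeasurableSet.pi (Finset.countable_toSet _)
    fun _ _ => measurableSet_ball
  have v3 : 0 < μ.real V := by
    refine ENNReal.toReal_pos ?_ (measure_ne_top _ _)
    rw [Measure.infinitePi_pi _ fun _ _ => measurableSet_ball]
    refine Finset.prod_ne_zero_iff.2 fun x _ h => ?_
    exact (Metric.measure_ball_pos volume _ (lt_min c3 e1)).ne'
      (ProbabilityTheory.gaussianReal_absolutelyContinuous' 0 one_ne_zero h)
  have : m B + μ.real V ≤ m B' := by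
    rw [← le_sub_iff_add_le]
    refine csSup_le (ne B) ?_
    rintro _ ⟨W, ⟨w1, w2, w3⟩, rfl⟩
    have hd : Disjoint W V := by
      rw [disjoint_iff_inter_eq_empty, ← not_nonempty_iff_eq_empty]
      intro h
      obtain ⟨g, g1, g2⟩ := cp_dense (w1.inter v1) h
      refine (e2 g fun x hx => ?_).not_ge (w3 g g1 v hv)
      exact (g2 x (by simp [hx])).trans_le (min_le_right _ _)
    rw [le_sub_iff_add_le, ← measureReal_union hd v2]
    refine le_csSup (bd B') ⟨_, ⟨w1.union v1, w2.union v2, fun g hg u hu => ?_⟩, rfl⟩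
    rcases hg with hg | hg
    · exact w3 g hg u (c2 hu)
    · exact c4 u hu g fun x hx => (hg x (by simp [hx])).trans_le (min_le_left _ _)
  obtain ⟨n, hn⟩ := exists_nat_one_div_lt v3
  linarith [b3 n B' c1 c2]

theorem thmA [TopologicalSpace.SeparableSpace E] [Nonempty E] [CompactSpace K] [T2Space K]
    (H : Rigid Λ E K) {Φ : Cp K → (Λ → E) → ℝ}
    (h1 : ∀ f, Continuous (Φ f)) (h2 : ∀ u, Continuous fun f => Φ f u) :
    ∃ S : Set Λ, S.Countable ∧ ∀ f u v, (∀ a ∈ S, u a = v a) → Φ f u = Φ f v := by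
  refine dep_of_dense Φ h1 fun A hA => ?_
  obtain ⟨B, b1, b2, b3⟩ := dense_all (fun (q : ℚ) B => ∀ f, ∀ u ∈ B, ∀ v ∈ B,
    Φ f u < q → Φ f v ≤ q) (fun n A B h h' f u hu v hv => h' f u (h hu) v (h hv)) hA
    fun q A' c1 _ => face_level H h1 h2 q c1
  have : ∀ f, ∀ u ∈ B, ∀ v ∈ B, Φ f v ≤ Φ f u := fun f u hu v hv => by
    by_contra h
    obtain ⟨q, q1, q2⟩ := exists_rat_btwn (not_le.1 h)
    exact q2.not_ge (b3 q f u hu v hv q1)
  exact ⟨B, b1, b2, fun f u hu v hv => (this f v hv u hu).antisymm (this f u hu v hv)⟩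

lemma rigid_of_td [PreconnectedSpace E] [Nonempty E] [TotallyDisconnectedSpace K] :
    Rigid Λ E K := fun x hx =>
  ⟨F ∅ (Classical.arbitrary _), isFace_F countable_empty _, x (Classical.arbitrary _),
    fun _ _ => TotallyDisconnectedSpace.eq_of_continuous x hx _ _⟩

lemma free_set {T : Type*} (M : T → Finset Λ) (n : ℕ) : ∀ (G : T → Finset Λ) (J : Set T),
    ¬ J.Countable → (∀ t ∈ J, (G t).card ≤ n) → (J.Pairwise fun s t => Disjoint (M s) (M t)) →
    ∃ J' ⊆ J, ¬ J'.Countable ∧ J'.Pairwise fun s t => Disjoint (G s) (M t) := by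
  classical
  induction n with
  | zero =>
    intro G J h1 h2 _
    exact ⟨J, subset_rfl, h1, fun s hs t _ _ => by
      simp [Finset.card_eq_zero.1 (Nat.le_zero.1 (h2 s hs))]⟩
  | succ n ih =>
    intro G J h1 h2 h3
    have one : ∀ r, {s ∈ J | r ∈ M s}.Subsingleton := fun r s hs t ht => by
      by_contra hne
      exact Finset.disjoint_left.1 (h3 hs.1 ht.1 hne) hs.2 ht.2
    obtain ⟨J', hJ⟩ := zorn_subset {J' | J' ⊆ J ∧ J'.Pairwise fun s t => Disjoint (G s) (M t)}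
      fun c hc hc' => ⟨⋃₀ c, ⟨sUnion_subset fun s hs => (hc hs).1,
        (pairwise_sUnion hc'.directedOn).2 fun s hs => (hc hs).2⟩, fun s => subset_sUnion_of_mem⟩
    by_cases h : J'.Countable
    swap
    · exact ⟨J', hJ.prop.1, h, hJ.prop.2⟩
    let U : Set Λ := ⋃ t ∈ J', (G t ∪ M t : Set Λ)
    have hU : U.Countable := h.biUnion fun t _ => (G t).countable_toSet.union (M t).countable_toSet
    have : ∃ r, ¬ {s ∈ J | r ∈ G s}.Countable := by
      by_contra hn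
      push Not at hn
      refine h1 ((h.union (hU.biUnion fun r _ => (hn r).union (one r).countable)).mono
        fun s hs => ?_)
      by_contra hs'
      simp only [mem_union, mem_iUnion, not_or, not_exists, mem_ofPred_eq, hs, true_and] at hs'
      refine hs'.1 (hJ.mem_of_prop_insert ⟨insert_subset hs hJ.prop.1, ?_⟩)
      refine (pairwise_insert).2 ⟨hJ.prop.2, fun t ht _ => ⟨?_, ?_⟩⟩
      · exact Finset.disjoint_left.2 fun r r1 r2 =>
          (hs'.2 r (mem_biUnion ht (Or.inr r2))).1 r1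
      · exact Finset.disjoint_left.2 fun r r1 r2 =>
          (hs'.2 r (mem_biUnion ht (Or.inl r1))).2 r2
    obtain ⟨r, hr⟩ := this
    obtain ⟨J2, j1, j2, j3⟩ := ih (fun t => (G t).erase r) {s ∈ J | r ∈ G s ∧ r ∉ M s}
      (fun h => hr ((h.union (one r).countable).mono fun s hs => by
        by_cases h : r ∈ M s
        · exact Or.inr ⟨hs.1, h⟩
        · exact Or.inl ⟨hs.1, hs.2, h⟩))
      (fun t ht => by rw [Finset.card_erase_of_mem ht.2.1]; have := h2 t ht.1; omega)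
      (h3.mono fun s hs => hs.1)
    refine ⟨J2, fun s hs => (j1 hs).1, j2, fun s hs t ht hne => ?_⟩
    refine Finset.disjoint_left.2 fun a a1 a2 => ?_
    by_cases h : a = r
    · exact (j1 ht).2.2 (h ▸ a2)
    · exact Finset.disjoint_left.1 (j3 hs ht hne) (Finset.mem_erase.2 ⟨h, a1⟩) a2

theorem thmB [T2Space K] {x : (Λ → E) → K} (hx : Continuous x) (w : Λ → E)
    (h : ∀ S : Set Λ, S.Countable → ∃ u ∈ F S w, ∃ v ∈ F S w, x u ≠ x v) (ι : Type)
    (hι : Cardinal.mk ι = Cardinal.aleph 1) : ∃ e : (ι → Bool) → K, IsEmbedding e := by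
  classical
  let T := Finset Λ × Finset Λ × (Bool → Λ → E)
  let good : T → Prop := fun t => ∀ v : Bool → Λ → E,
    (∀ b, ∀ a ∈ t.2.1, v b a = t.1.piecewise (t.2.2 b) w a) → x (v false) ≠ x (v true)
  obtain ⟨J, hJ⟩ := zorn_subset
    {J : Set T | (∀ t ∈ J, good t) ∧ J.Pairwise fun s t => Disjoint s.1 t.1}
    fun c hc hc' => ⟨⋃₀ c, ⟨fun t ⟨s, hs, ht⟩ => (hc hs).1 t ht,
      (pairwise_sUnion hc'.directedOn).2 fun s hs => (hc hs).2⟩, fun s => subset_sUnion_of_mem⟩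
  have hc : ¬ J.Countable := fun hc => by
    obtain ⟨u, u1, v, v1, hne⟩ := h (⋃ t ∈ J, (t.1 : Set Λ))
      (hc.biUnion fun t _ => t.1.countable_toSet)
    obtain ⟨O, O', o1, o2, o3, o4, o5⟩ := t2_separation hne
    obtain ⟨G1, g1⟩ := face_open (o1.preimage hx) o3
    obtain ⟨G2, g2⟩ := face_open (o2.preimage hx) o4
    let t : T := ((G1 ∪ G2).filter (· ∉ ⋃ t ∈ J, (t.1 : Set Λ)), G1 ∪ G2, fun b => cond b v u)
    have key : ∀ z ∈ F (⋃ t ∈ J, (t.1 : Set Λ)) w, ∀ a ∈ G1 ∪ G2, t.1.piecewise z w a = z a := by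
      intro z hz a ha
      by_cases h : a ∈ ⋃ t ∈ J, (t.1 : Set Λ)
      · have h' : a ∉ t.1 := fun h' => (Finset.mem_filter.1 h').2 h
        rw [Finset.piecewise_eq_of_notMem _ _ _ h', hz a h]
      · exact Finset.piecewise_eq_of_mem _ _ _ (Finset.mem_filter.2 ⟨ha, h⟩)
    have ht : good t := fun z hz e => disjoint_left.1 o5
      (g1 fun a ha => (hz false a (Finset.mem_union_left _ ha)).trans
        (key u u1 a (Finset.mem_union_left _ ha)))
      (e ▸ g2 fun a ha => (hz true a (Finset.mem_union_right _ ha)).trans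
        (key v v1 a (Finset.mem_union_right _ ha)))
    have hd : ∀ s ∈ J, Disjoint t.1 s.1 := fun s hs => Finset.disjoint_left.2 fun a a1 a2 =>
      (Finset.mem_filter.1 a1).2 (mem_biUnion hs a2)
    have hm : t ∈ J := hJ.mem_of_prop_insert ⟨by
      rintro s (rfl | hs)
      exacts [ht, hJ.prop.1 s hs],
      pairwise_insert.2 ⟨hJ.prop.2, fun s hs _ => ⟨hd s hs, (hd s hs).symm⟩⟩⟩
    have he : t.1 = ∅ := by simpa using hd t hm
    exact ht (fun _ => w) (fun b a _ => by simp [he]) rfl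
  obtain ⟨n, hn⟩ : ∃ n, ¬ {t ∈ J | t.2.1.card ≤ n}.Countable := by
    by_contra hn
    push Not at hn
    refine hc (Countable.mono ?_ (countable_iUnion hn))
    exact fun t ht => mem_iUnion.2 ⟨t.2.1.card, ht, le_rfl⟩
  obtain ⟨J', j1, j2, j3⟩ := free_set (fun t : T => t.1) n (fun t => t.2.1) _ hn
    (fun t ht => ht.2) (hJ.prop.2.mono fun t ht => ht.1)
  obtain ⟨j⟩ : Nonempty (ι ↪ J') := by
    rw [← Cardinal.lift_mk_le', hι, Cardinal.lift_aleph, Ordinal.lift_one, Cardinal.aleph_one_le_iff,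
      Cardinal.aleph0_lt_lift, Cardinal.aleph0_lt_mk_iff]
    exact ⟨fun h => j2 (countable_coe_iff.1 h)⟩
  let c : (ι → Bool) → Λ → E := fun σ a =>
    if h : ∃ i, a ∈ (j i).1.1 then (j h.choose).1.2.2 (σ h.choose) a else w a
  have hcc : Continuous c := continuous_pi fun a => by
    by_cases h : ∃ i, a ∈ (j i).1.1
    · simp only [c, dif_pos h]
      exact (continuous_of_discreteTopology (f := fun b => (j h.choose).1.2.2 b a)).comp
        (continuous_apply _)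
    · simp only [c, dif_neg h]; exact continuous_const
  have key : ∀ σ i, ∀ a ∈ (j i).1.2.1, c σ a = (j i).1.1.piecewise ((j i).1.2.2 (σ i)) w a := by
    intro σ i a ha
    have un : ∀ i', a ∈ (j i').1.1 → i' = i := fun i' h => by
      by_contra hne
      exact Finset.disjoint_left.1 (j3 (j i).2 (j i').2 fun e =>
        hne (j.injective (Subtype.ext e)).symm) ha h
    by_cases h : ∃ i, a ∈ (j i).1.1
    · have e := un _ h.choose_spec
      simp only [c, dif_pos h, e]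
      rw [Finset.piecewise_eq_of_mem _ _ _ (e ▸ h.choose_spec)]
    · simp only [c, dif_neg h]
      rw [Finset.piecewise_eq_of_notMem _ _ _ fun h' => h ⟨i, h'⟩]
  refine ⟨x ∘ c, ((hx.comp hcc).isClosedEmbedding fun σ τ e => funext fun i => ?_).isEmbedding⟩
  by_contra hne
  have hg := hJ.prop.1 _ (j1 (j i).2).1
  cases h1 : σ i <;> cases h2 : τ i
  · exact hne (h1.trans h2.symm)
  · exact hg (fun b => cond b (c τ) (c σ))
      (fun b a ha => by
        cases b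
        exacts [(key σ i a ha).trans (by rw [h1]), (key τ i a ha).trans (by rw [h2])]) e
  · exact hg (fun b => cond b (c σ) (c τ))
      (fun b a ha => by
        cases b
        exacts [(key τ i a ha).trans (by rw [h2]), (key σ i a ha).trans (by rw [h1])]) e.symm
  · exact hne (h1.trans h2.symm)

end H5C
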