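import Pool.Agent.Lib.helper5.CpEquiv
import Pool.Agent.Lib.helper5.Cube

/-! Countable compactness is not l-invariant. -/

open Set Filter Topology

namespace H5E

abbrev NN := Σ n : ℕ, Fin (n + 1)

/-- average over the `n`-th block -/
noncomputable def z (n : ℕ) (φ : NN → ℝ) : ℝ := (∑ i : Fin (n + 1), φ ⟨n, i⟩) / (n + 1)

noncomputable def w (n : ℕ) (A : Set NN) : ℝ := z n (A.indicator 1)

/-- density zero -/
def Zr (A : Set NN) : Prop := Tendsto (fun n => w n A) atTop (𝓝 0)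

lemma z_mono {n : ℕ} {φ ψ : NN → ℝ} (h : ∀ i, φ ⟨n, i⟩ ≤ ψ ⟨n, i⟩) : z n φ ≤ z n ψ :=
  div_le_div_of_nonneg_right (Finset.sum_le_sum fun i _ => h i) (by positivity)

lemma z_const (n : ℕ) (c : ℝ) : z n (fun _ => c) = c := by
  simp only [z, Finset.sum_const, Finset.card_univ, Fintype.card_fin, nsmul_eq_mul]
  push_cast; field_simp

lemma z_add (n : ℕ) (φ ψ : NN → ℝ) : z n (fun m => φ m + ψ m) = z n φ + z n ψ := by
  simp only [z, Finset.sum_add_distrib, add_div]

lemma z_mul (n : ℕ) (c : ℝ) (φ : NN → ℝ) : z n (fun m => c * φ m) = c * z n φ := by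
  simp only [z, ← Finset.mul_sum, mul_div_assoc]

lemma w_nonneg (n : ℕ) (A : Set NN) : 0 ≤ w n A :=
  (z_const n 0).ge.trans (z_mono fun _ => indicator_nonneg (fun _ _ => zero_le_one) _)

lemma w_mono (n : ℕ) {A B : Set NN} (h : A ⊆ B) : w n A ≤ w n B :=
  z_mono fun _ => indicator_le_indicator_of_subset h (fun _ => zero_le_one) _

lemma w_zero {n : ℕ} {A : Set NN} (h : ∀ m ∈ A, m.1 ≠ n) : w n A = 0 :=
  le_antisymm ((z_mono fun _ => (indicator_of_notMem (fun h' => h _ h' rfl) _).le).trans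
    (z_const n 0).le) (w_nonneg n A)

lemma w_single (n : ℕ) (m : NN) : w n {m} ≤ 1 / (n + 1) := by
  obtain ⟨a, b⟩ := m
  by_cases h : a = n
  · subst h
    refine div_le_div_of_nonneg_right (le_of_eq ?_) (by positivity)
    rw [Finset.sum_eq_single b (fun c _ hc => indicator_of_notMem (by simpa using hc) _) (by simp)]
    simp
  · rw [w_zero (by rintro _ rfl; exact h)]; positivity

lemma Zr.mono {A B : Set NN} (h : Zr B) (h' : A ⊆ B) : Zr A :=
  squeeze_zero (fun n => w_nonneg n A) (fun n => w_mono n h') h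

lemma Zr.union {A B : Set NN} (h : Zr A) (h' : Zr B) : Zr (A ∪ B) := by
  refine squeeze_zero (fun n => w_nonneg n _) (fun n => ?_) (by simpa using Tendsto.add h h')
  refine (z_mono fun i => ?_).trans (z_add n _ _).le
  by_cases h1 : (⟨n, i⟩ : NN) ∈ A <;> by_cases h2 : (⟨n, i⟩ : NN) ∈ B <;> simp [h1, h2]

lemma Zr.col (k : ℕ) : Zr {m | m.1 ≤ k} :=
  tendsto_const_nhds.congr' ((eventually_gt_atTop k).mono fun _ hn =>
    (w_zero fun _ hm e => absurd (e ▸ hm : _ ≤ k) (not_le.2 hn)).symm)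

lemma Zr.iUnion {A : ℕ → Set NN} (h : ∀ j, Zr (A j)) (h1 : ∀ j, ∀ m ∈ A j, j ≤ m.1)
    (h2 : ∀ j n, w n (A j) ≤ (1 / 2) ^ j) : Zr (⋃ j, A j) := by
  have := tendsto_tsum_of_dominated_convergence (f := fun n j => w n (A j)) summable_geometric_two
    h (.of_forall fun n j => by rw [Real.norm_of_nonneg (w_nonneg _ _)]; exact h2 j n)
  rw [tsum_zero] at this
  refine squeeze_zero (fun n => w_nonneg n _) (fun n => ?_) this
  refine le_trans ?_ (Summable.sum_le_tsum (Finset.range (n + 1)) (fun j _ => w_nonneg _ _)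
    (summable_geometric_two.of_nonneg_of_le (fun j => w_nonneg _ _) fun j => h2 j n))
  simp only [w, z, ← Finset.sum_div]
  rw [Finset.sum_comm]
  refine div_le_div_of_nonneg_right (Finset.sum_le_sum fun i _ => ?_) (by positivity)
  have nn : ∀ j ∈ Finset.range (n + 1), 0 ≤ (A j).indicator (1 : NN → ℝ) ⟨n, i⟩ :=
    fun _ _ => indicator_nonneg (fun _ _ => zero_le_one) _
  by_cases hi : (⟨n, i⟩ : NN) ∈ ⋃ j, A j
  · obtain ⟨j, hj⟩ := mem_iUnion.1 hi
    refine le_trans ?_ (Finset.single_le_sum nn (Finset.mem_range.2 (Nat.lt_succ_of_le (h1 j _ hj))))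
    simp [hi, hj]
  · rw [indicator_of_notMem hi]; exact Finset.sum_nonneg nn

lemma avg_tendsto {κ : Type*} {l : Filter κ} {nn : κ → ℕ} (hn : Tendsto nn l atTop)
    {φ : κ → NN → ℝ} {c M : ℝ} (hb : ∀ k m, |φ k m - c| ≤ M)
    (h : ∀ η > 0, ∃ A, Zr A ∧ ∀ᶠ k in l, ∀ m ∉ A, |φ k m - c| ≤ η) :
    Tendsto (fun k => z (nn k) (φ k)) l (𝓝 c) := by
  refine Metric.tendsto_nhds.2 fun ε hε => ?_
  obtain ⟨A, h1, h2⟩ := h (ε / 2) (half_pos hε)
  have h3 := (Tendsto.comp h1 hn).const_mul M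
  rw [mul_zero] at h3
  filter_upwards [h2, h3.eventually (gt_mem_nhds (half_pos hε))] with k k1 k2
  have b : ∀ m, |φ k m - c| ≤ ε / 2 + M * A.indicator 1 m := fun m => by
    by_cases hm : m ∈ A
    · simp only [indicator_of_mem hm, Pi.one_apply]; linarith [hb k m]
    · simpa [hm] using k1 m hm
  have e1 : z (nn k) (φ k) ≤ z (nn k) fun m => (c + ε / 2) + M * A.indicator 1 m :=
    z_mono fun i => by linarith [(abs_le.1 (b ⟨_, i⟩)).2]
  have e2 : (z (nn k) fun m => (c - ε / 2) + (-M) * A.indicator 1 m) ≤ z (nn k) (φ k) :=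
    z_mono fun i => by linarith [(abs_le.1 (b ⟨_, i⟩)).1]
  rw [z_add, z_const, z_mul] at e1 e2
  simp only [Function.comp, w] at k2
  rw [Real.dist_eq, abs_lt]
  constructor <;> linarith

lemma small (𝒰 : Ultrafilter NN) {A : Set NN} (hA : Zr A) (h : A ∈ 𝒰) (L : ℕ)
    (hL : {m : NN | m.1 ≤ L} ∉ 𝒰) : ∃ B ∈ 𝒰, Zr B ∧ (∀ m ∈ B, L ≤ m.1) ∧
      ∀ n, w n B ≤ 1 / (L + 1) := by
  obtain ⟨k, hk⟩ := eventually_atTop.1 (Tendsto.eventually hA
    (ge_mem_nhds (show (0 : ℝ) < 1 / (L + 1) by positivity)))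
  by_cases h' : {m : NN | m.1 ≤ k} ∈ 𝒰
  · have fin : {m : NN | m.1 ≤ k}.Finite := ((finite_le_nat k).biUnion (t := fun n =>
      range fun i : Fin (n + 1) => (⟨n, i⟩ : NN)) fun n _ => finite_range _).subset fun m hm =>
        mem_iUnion₂.2 ⟨m.1, hm, m.2, rfl⟩
    obtain ⟨m, -, rfl⟩ := Ultrafilter.eq_pure_of_finite_mem fin h'
    have hm : L ≤ m.1 := (not_le.1 hL).le
    refine ⟨{m}, rfl, (Zr.col m.1).mono (by rintro x rfl; exact le_refl x.1), by rintro _ rfl; exact hm,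
      fun n => ?_⟩
    by_cases e : m.1 = n
    · refine (w_single n m).trans (one_div_le_one_div_of_le (by positivity) ?_)
      exact_mod_cast Nat.succ_le_succ (e ▸ hm)
    · rw [w_zero (by rintro _ rfl; exact e)]; positivity
  · refine ⟨A ∩ ({m | m.1 ≤ L}ᶜ ∩ {m | m.1 ≤ k}ᶜ), inter_mem h (inter_mem
      (Ultrafilter.compl_mem_iff_notMem.2 hL) (Ultrafilter.compl_mem_iff_notMem.2 h')),
      hA.mono inter_subset_left, fun m hm => (not_le.1 (show ¬ m.1 ≤ L from hm.2.1)).le, fun n => ?_⟩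
    by_cases e : k ≤ n
    · exact (w_mono n inter_subset_left).trans (hk n e)
    · rw [w_zero fun m hm e' => hm.2.2 (e' ▸ (not_le.1 e).le : m.1 ≤ k)]; positivity

theorem exists_K : ∃ (K : Type) (_ : TopologicalSpace K) (_ : CompactSpace K) (_ : T35Space K)
    (p : K) (ι : NN → K), (∀ m, ι m ≠ p) ∧ (∀ U ∈ 𝓝 p, Zr (ι ⁻¹' Uᶜ)) ∧
      ∀ u : ℕ → K, (∀ n, u n ≠ p) → ¬ Tendsto u atTop (𝓝 p) := by
  classical
  let π : Ultrafilter NN → {A // Zr A} → Bool := fun 𝒰 A => decide (A.1 ∈ 𝒰)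
  have hπ : Continuous π := continuous_pi fun A => by
    refine (continuous_bool_rng true).2 ?_
    have : (fun 𝒰 => π 𝒰 A) ⁻¹' {true} = {𝒰 | A.1 ∈ 𝒰} := by ext; simp [π]
    rw [this]
    exact ⟨ultrafilter_isClosed_basic _, ultrafilter_isOpen_basic _⟩
  let K : Set ({A // Zr A} → Bool) := insert (fun _ => false) (range π)
  refine ⟨K, inferInstance, isCompact_iff_compactSpace.1 ((isCompact_range hπ).insert _),
    inferInstance, ⟨_, Or.inl rfl⟩, fun m => ⟨π (pure m), Or.inr ⟨_, rfl⟩⟩, fun m h => ?_,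
    fun U hU => ?_, fun u h1 h2 => ?_⟩
  · simpa [π] using congrFun (congrArg Subtype.val h) ⟨_, Zr.col m.1⟩
  · obtain ⟨V, v1, v2⟩ := (mem_nhds_subtype _ _ _).1 hU
    obtain ⟨V', v3, v4, v5⟩ := mem_nhds_iff.1 v1
    let : MetricSpace Bool := TopologicalSpace.metrizableSpaceMetric Bool
    obtain ⟨G, hG⟩ := H5C.face_open v4 v5
    have : Zr (⋃ A ∈ G, A.1) := by
      clear hG
      induction G using Finset.induction_on with
      | empty => exact (Zr.col 0).mono (by simp)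
      | insert A G _ ih => rw [Finset.set_biUnion_insert]; exact A.2.union ih
    refine this.mono fun m hm => by_contra fun hc => hm (v2 (v3 (hG fun A hA => ?_)))
    simpa [π] using fun h => hc (mem_biUnion hA h)
  · have : ∀ n, ∃ 𝒰 : Ultrafilter NN, (u n).1 = π 𝒰 ∧ ∃ A, Zr A ∧ A ∈ 𝒰 := fun n => by
      obtain h | ⟨𝒰, h⟩ := (u n).2
      · exact (h1 n (Subtype.ext h)).elim
      · refine ⟨𝒰, h.symm, by_contra fun hc => h1 n (Subtype.ext (h.symm.trans (funext fun A => ?_)))⟩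
        simpa [π] using fun h => hc ⟨_, A.2, h⟩
    choose 𝒰 e A a1 a2 using this
    have ev : ∀ B, Zr B → ∀ᶠ n in atTop, B ∉ 𝒰 n := fun B hB => by
      have := tendsto_pi_nhds.1 (tendsto_subtype_rng.1 h2) ⟨B, hB⟩
      rw [nhds_discrete, tendsto_pure] at this
      exact this.mono fun n hn => by simpa [e, π] using hn
    have : ∀ j, ∃ k ≥ j, ∃ B ∈ 𝒰 k, Zr B ∧ (∀ m ∈ B, 2 ^ j ≤ m.1) ∧
        ∀ n, w n B ≤ 1 / ((2 ^ j : ℕ) + 1) := fun j => by
      obtain ⟨k, k1, k2⟩ := ((eventually_ge_atTop j).and (ev _ (Zr.col (2 ^ j)))).exists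
      exact ⟨k, k1, small _ (a1 k) (a2 k) _ k2⟩
    choose k k1 B b1 b2 b3 b4 using this
    obtain ⟨n, hn⟩ := eventually_atTop.1 (ev _ (Zr.iUnion b2 (fun j m hm =>
      Nat.lt_two_pow_self.le.trans (b3 j m hm)) fun j n => (b4 j n).trans (by
        rw [one_div_pow]
        exact one_div_le_one_div_of_le (by positivity) (by push_cast; linarith))))
    exact hn _ (k1 n) (mem_of_superset (b1 n) (subset_iUnion B n))

lemma cc_bdd {X : Type*} [TopologicalSpace X] (h : IsCountablyCompact (univ : Set X))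
    (f : C(X, ℝ)) (c : ℝ) : ∃ M, ∀ x, |f x - c| ≤ M := by
  obtain ⟨M, hM⟩ := (h.image (f := fun x => |f x - c|) (by fun_prop)).isCompact.bddAbove
  exact ⟨M, fun x => hM ⟨x, trivial, rfl⟩⟩

theorem ccompact : ∃ (X Y : Type) (_ : TopologicalSpace X) (_ : TopologicalSpace Y)
    (_ : T35Space X) (_ : T35Space Y), LEq X Y ∧ IsCountablyCompact (univ : Set X) ∧
      ¬ IsCountablyCompact (univ : Set Y) := by
  obtain ⟨K, _, _, _, p, ι, h1, h2, h3⟩ := exists_K
  let F := {x : K × K // x ≠ (p, p)}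
  let a : NN → K → F := fun m y => ⟨(ι m, y), fun h => h1 m (congrArg Prod.fst h)⟩
  let ν : ℕ × K → C(F, ℝ) → ℝ := fun t f => z t.1 fun m => f (a m t.2)
  have ha : ∀ m, Continuous (a m) := fun m => Continuous.subtype_mk (by fun_prop) _
  have hν : Continuous ν := continuous_prod_of_discrete_left.2 fun n => continuous_pi fun f => by
    change Continuous fun y => (∑ i : Fin (n + 1), f (a ⟨n, i⟩ y)) / ((n : ℝ) + 1)
    exact (continuous_finsetSum _ fun i _ => f.2.comp (ha ⟨n, i⟩)).div_const _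
  have hF : IsCountablyCompact (univ : Set F) := by
    rw [← isCountablyCompact_iff_isCountablyCompact_univ (A := {x | x ≠ (p, p)})]
    refine .of_seq_clusterPt fun u hu => by_contra fun hc => ?_
    have t := tendsto_nhds_of_unique_mapClusterPt (l := atTop) (f := u) (y := (p, p))
      fun x hx => by_contra fun h => hc ⟨x, h, hx⟩
    have : (∃ᶠ n in atTop, (u n).1 ≠ p) ∨ ∃ᶠ n in atTop, (u n).2 ≠ p :=
      frequently_or_distrib.1 (hu.frequently.mono fun n hn => by
        by_contra h; push Not at h; exact hn (Prod.ext h.1 h.2))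
    rcases this with h | h <;> obtain ⟨φ, φ1, φ2⟩ := extraction_of_frequently_atTop h
    · exact h3 _ φ2 (((continuous_fst.tendsto _).comp t).comp φ1.tendsto_atTop)
    · exact h3 _ φ2 (((continuous_snd.tendsto _).comp t).comp φ1.tendsto_atTop)
  have t0 : ∀ g : C(K, ℝ), Tendsto (fun n => z n fun m => g (ι m)) atTop (𝓝 (g p)) := fun g => by
    obtain ⟨M, hM⟩ := cc_bdd isCompact_univ.isCountablyCompact g (g p)
    refine avg_tendsto tendsto_id (fun _ m => hM _) fun η hη =>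
      ⟨_, h2 _ (g.2.tendsto p (Metric.closedBall_mem_nhds _ hη)), .of_forall fun _ m hm => ?_⟩
    exact not_not.1 hm
  let S : Set (C(F, ℝ) → ℝ) := range δ ∪ range ν
  have hS : ∀ y, δ y ∈ S := fun y => Or.inl ⟨y, rfl⟩
  let ν' : ℕ × K → S := fun t => ⟨ν t, Or.inr ⟨t, rfl⟩⟩
  have hν' : Continuous ν' := hν.subtype_mk _
  have un : ∀ (h : C0 (eS S hS)) (ε : ℝ), 0 < ε → ∀ᶠ n in atTop, ∀ y, |h.1 (ν' (n, y))| ≤ ε := by
    intro h ε hε
    by_contra hc
    have : ∀ k, ∃ n ≥ k, ∃ y ≠ p, ε < |h.1 (ν' (n, y))| := fun k => by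
      obtain ⟨n, n1, n2⟩ := frequently_atTop.1 (not_eventually.1 hc) k
      push Not at n2
      obtain ⟨y, hy⟩ := n2
      by_cases e : y = p
      · subst e
        have := h2 _ ((isOpen_lt continuous_const (show Continuous fun y => |h.1 (ν' (n, y))| by
          fun_prop)).mem_nhds hy)
        by_contra hc
        have := this.mono (A := univ) fun m _ hm => hc ⟨n, n1, _, h1 m, hm⟩
        simp only [Zr, w, indicator_univ] at this
        exact one_ne_zero (tendsto_nhds_unique (tendsto_const_nhds.congr fun k =>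
          (z_const k 1).symm) this)
      · exact ⟨n, n1, y, e, hy⟩
    choose n n1 y y1 y2 using this
    obtain ⟨b, b1, b2⟩ : ∃ b ≠ p, MapClusterPt b atTop y := by
      by_contra hc
      exact h3 y y1 (tendsto_nhds_of_unique_mapClusterPt fun x hx => by_contra fun h =>
        hc ⟨x, h, hx⟩)
    obtain ⟨𝒰, u1, u2⟩ := mapClusterPt_iff_ultrafilter.1 b2
    let x : F := ⟨(p, b), fun h => b1 (congrArg Prod.snd h)⟩
    have : Tendsto (fun k => ν' (n k, y k)) 𝒰 (𝓝 (eS S hS x)) := by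
      refine tendsto_subtype_rng.2 (tendsto_pi_nhds.2 fun f => ?_)
      obtain ⟨M, hM⟩ := cc_bdd hF f (f x)
      refine avg_tendsto (φ := fun k m => f (a m (y k))) (c := f x) (nn := n)
        ((tendsto_atTop_mono n1 tendsto_id).mono_left u1) (fun _ _ => hM _) fun η hη => ?_
      obtain ⟨V, v1, v2⟩ := (mem_nhds_subtype _ _ _).1
        (f.2.tendsto x (Metric.closedBall_mem_nhds _ hη))
      obtain ⟨U, w1, U', w2, w3⟩ := mem_nhds_prod_iff.1 v1
      refine ⟨_, h2 U w1, (u2.eventually w2).mono fun k hk m hm => ?_⟩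
      exact v2 (a := a m (y k)) (w3 ⟨not_not.1 hm, hk⟩)
    have := ge_of_tendsto' ((h.1.2.tendsto _).comp this).abs fun k => (y2 k).le
    rw [show h.1.1 (eS S hS x) = 0 from h.2 x, abs_zero] at this
    exact hε.not_ge this
  refine ⟨_, _, inferInstance, inferInstance, inferInstance, inferInstance,
    (machine_L S hS ?_ (a default p)).symm, ?_, fun h => ?_⟩
  · rintro μ (⟨y, rfl⟩ | ⟨t, rfl⟩)
    · exact .δ y
    · refine ⟨?_, fun f g => z_add _ _ _, fun c f => z_mul _ _ _⟩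
      simpa only [ν, z, div_eq_inv_mul] using (PC.sum _ fun i => PC.eval _).mul _
  · rw [← range_inl_union_range_inr, ← image_univ, ← image_univ]
    refine (hF.image continuous_inl).union (IsCountablyCompact.image ?_ continuous_inr)
    have : Tendsto (fun t => q (eS S hS) (ν' t)) (cocompact _)
        (𝓝 (q _ (eS S hS (a default p)))) := by
      refine tendsto_subtype_rng.2 (tendsto_pi_nhds.2 fun h => ?_)
      change Tendsto (fun t => h.1 _) _ (𝓝 (h.1 _))
      rw [h.2, Metric.nhds_basis_closedBall.tendsto_right_iff]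
      intro ε hε
      obtain ⟨k, hk⟩ := eventually_atTop.1 (un h ε hε)
      filter_upwards [((finite_lt_nat k).isCompact.prod isCompact_univ).compl_mem_cocompact]
        with t ht
      simpa using hk t.1 (by simpa using ht) t.2
    refine (eq_univ_of_forall fun x => ?_) ▸
      (this.isCompact_insert_range_of_cocompact ((q _).2.comp hν')).isCountablyCompact
    obtain ⟨⟨_, ⟨y, rfl⟩ | ⟨t, rfl⟩⟩, rfl⟩ := q_surj _ x
    exacts [Or.inl (q_eq _ y _), Or.inr ⟨t, rfl⟩]
  · obtain ⟨_, ⟨μ, rfl⟩, hμ⟩ := (h.of_isClosed_subset IsClosedEmbedding.inl.isClosed_range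
      (subset_univ _)).seq_clusterPt (fun n => .inl (ν' (n, p))) (.of_forall fun n => ⟨_, rfl⟩)
    obtain ⟨𝒰, u1, u2⟩ := mapClusterPt_iff_ultrafilter.1 hμ
    have u3 := tendsto_pi_nhds.1 (tendsto_subtype_rng.1
      (IsEmbedding.inl.tendsto_nhds_iff.2 u2 : Tendsto (fun n => ν' (n, p)) _ _))
    have e1 : ∀ g : C(K, ℝ), μ.1 ⟨fun x => g x.1.1, by fun_prop⟩ = g p := fun g =>
      tendsto_nhds_unique (u3 _) ((t0 g).mono_left u1)
    have e2 : ∀ g : C(K, ℝ), μ.1 ⟨fun x => g x.1.2, by fun_prop⟩ = g p := fun g =>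
      tendsto_nhds_unique (u3 _) (tendsto_const_nhds.congr fun n => (z_const n _).symm)
    have sp : ∀ c : K, (∀ g : C(K, ℝ), g c = g p) → c = p := fun c hc => by_contra fun h => by
      obtain ⟨g, g1, g2⟩ := separatesPoints_continuous_of_t35Space h
      exact g2 (hc ⟨g, g1⟩)
    obtain ⟨_, ⟨y, rfl⟩ | ⟨t, rfl⟩⟩ := μ
    · exact y.2 (Prod.ext (sp _ e1) (sp _ e2))
    · classical
      obtain ⟨g, g1, g2, g3⟩ := H5C.interp (Finset.univ.image fun i : Fin (t.1 + 1) => ι ⟨_, i⟩)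
        (fun _ => 1) (isClosed_singleton (x := p)) (by simpa using fun i => h1 _)
      have := e1 ⟨g, g1⟩
      change z t.1 (fun m => g (ι m)) = g p at this
      rw [g3 p rfl] at this
      have h' : z t.1 (fun _ => 1) ≤ z t.1 fun m => g (ι m) :=
        z_mono fun i => (g2 _ (Finset.mem_image_of_mem _ (Finset.mem_univ i))).ge
      rw [z_const, this] at h'
      exact zero_lt_one.not_ge h'

end H5E
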