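import Pool.Agent.Lib.helper5.ProdK

/-! Corson compact subspaces of `C_p(X × K)`. -/

open Set Filter Topology TopologicalSpace

namespace H5P

section
variable {Λ : Type} (f : Finset Λ → Set Λ)

def Cl (S : Set Λ) : Prop := ∀ G : Finset Λ, ↑G ⊆ S → f G ⊆ S

def hl (T : Set Λ) : Set Λ := ⋃ (G : Finset Λ) (_ : ↑G ⊆ T), ⋂₀ {S | Cl f S ∧ ↑G ⊆ S}

lemma hl_mono {S T : Set Λ} (h : S ⊆ T) : hl f S ⊆ hl f T :=
  iUnion_mono fun _ => iUnion_mono' fun h' => ⟨h'.trans h, subset_rfl⟩

lemma le_hl (T : Set Λ) : T ⊆ hl f T := fun a ha =>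
  mem_iUnion₂.2 ⟨{a}, by simpa, fun S hS => hS.2 (by simp)⟩

lemma hl_fin {T : Set Λ} {a : Λ} (h : a ∈ hl f T) : ∃ G : Finset Λ, ↑G ⊆ T ∧ a ∈ hl f G := by
  obtain ⟨G, h1, h2⟩ := mem_iUnion₂.1 h
  exact ⟨G, h1, mem_iUnion₂.2 ⟨G, subset_rfl, h2⟩⟩

lemma cl_hl (T : Set Λ) : Cl f (hl f T) := fun H hH => by
  classical
  choose! G g1 g2 using fun a (ha : a ∈ H) => mem_iUnion₂.1 (hH ha)
  exact fun b hb => mem_iUnion₂.2 ⟨H.biUnion G, by simpa using g1, fun S hS => hS.1 H (fun a ha =>
    g2 a ha S ⟨hS.1, (Finset.coe_subset.2 (Finset.subset_biUnion_of_mem G ha)).trans hS.2⟩) hb⟩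

lemma hl_cble (hf : ∀ G, (f G).Countable) {T : Set Λ} (hT : T.Countable) : (hl f T).Countable := by
  obtain ⟨S, s1, s2⟩ := H5C.hull (fun G => f G ∪ T) fun G => (hf G).union hT
  exact s1.mono (iUnion₂_subset fun G hG => sInter_subset_of_mem ⟨fun H h =>
    subset_union_left.trans (s2 H h), hG.trans (subset_union_right.trans (s2 ∅ (by simp)))⟩)

end

theorem corson {Z J : Type} [TopologicalSpace Z] [CompactSpace Z] [T2Space Z] (hZ : Tight Z)
    {φ : J → Z → ℝ} (hφ : ∀ j, Continuous (φ j)) {f0 : Finset (Z ⊕ J) → Set (Z ⊕ J)}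
    (h0 : ∀ G, (f0 G).Countable) (h1 : ∀ S, Cl f0 S → ∀ x ∈ closure (Sum.inl ⁻¹' S),
      ∀ y ∈ closure (Sum.inl ⁻¹' S), (∀ j, .inr j ∈ S → φ j x = φ j y) → x = y) :
    ∃ (Γ : Type) (e : Z → Γ → ℝ), IsEmbedding e ∧ ∀ s, (Function.support (e s)).Countable := by
  classical
  have : ∀ G : Finset (Z ⊕ J), ∃ A : Set Z, A.Countable ∧ ∀ x, ∃ y ∈ closure A,
      ∀ j, .inr j ∈ G → φ j y = φ j x := fun G => by
    let ψ : Z → G.toRight → ℝ := fun x j => φ j x
    have hψ : Continuous ψ := continuous_pi fun j => hφ j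
    obtain ⟨t, t1, t2, t3⟩ := (IsSeparable.of_separableSpace (range ψ)).exists_countable_dense_subset
    have := t2.to_subtype
    choose a ha using fun y : t => t1 y.2
    refine ⟨range a, countable_range a, fun k => ?_⟩
    obtain ⟨k', k1, k2⟩ := hψ.isClosedMap.closure_image_subset (range a) (closure_mono
      (show t ⊆ ψ '' range a from fun y hy => ⟨_, ⟨⟨y, hy⟩, rfl⟩, ha _⟩) (t3 ⟨k, rfl⟩))
    exact ⟨k', k1, fun j hj => congrFun k2 ⟨j, by simpa⟩⟩
  choose A a1 u a2 a3 using this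
  let f := fun G => f0 G ∪ Sum.inl '' A G
  have f1 : ∀ G, (f G).Countable := fun G => (h0 G).union ((a1 G).image _)
  have f2 := fun T => h1 (hl f T) fun G hG => subset_union_left.trans (cl_hl f T G hG)
  have : ∀ T x, ∃ y ∈ closure (Sum.inl ⁻¹' hl f T), ∀ j, .inr j ∈ hl f T → φ j y = φ j x := by
    intro T x
    let m : Finset (hl f T) → Finset (Z ⊕ J) := fun G => G.image Subtype.val
    obtain ⟨w, hw⟩ := exists_clusterPt_of_compactSpace (map (fun G => u (m G) x) atTop)
    refine ⟨w, isClosed_closure.mem_of_mapClusterPt hw (.of_forall fun G => closure_mono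
      (show A (m G) ⊆ Sum.inl ⁻¹' hl f T from fun z hz => cl_hl f T (m G) (by simp [m])
        (Or.inr (mem_image_of_mem _ hz))) (a2 (m G) x)), fun j hj =>
      IsClosed.mem_of_mapClusterPt (s := {y | φ j y = φ j x}) (isClosed_eq (hφ j) continuous_const)
        hw ?_⟩
    filter_upwards [eventually_ge_atTop {⟨_, hj⟩}] with G h'
    exact a3 _ x j (Finset.mem_image_of_mem _ (h' (Finset.mem_singleton_self _)))
  choose r r1 r2 using this
  have r3 : ∀ T x y, r T x = r T y ↔ ∀ j, .inr j ∈ hl f T → φ j x = φ j y := fun T x y =>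
    ⟨fun h j hj => by rw [← r2 T x j hj, h, r2 T y j hj], fun h => f2 T _ (r1 T x) _ (r1 T y)
      fun j hj => by rw [r2 T x j hj, r2 T y j hj, h j hj]⟩
  have r4 : ∀ T, ∀ x ∈ closure (Sum.inl ⁻¹' hl f T), r T x = x := fun T x hx =>
    f2 T _ (r1 T x) _ hx (r2 T x)
  have r5 : ∀ T, Continuous (r T) := fun T => continuous_iff_isClosed.2 fun C hC => by
    let ψ : Z → (Sum.inr ⁻¹' hl f T : Set J) → ℝ := fun x j => φ j x
    have hψ : Continuous ψ := continuous_pi fun j => hφ j
    have : r T ⁻¹' C = ψ ⁻¹' (ψ '' (closure (Sum.inl ⁻¹' hl f T) ∩ C)) := by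
      refine Subset.antisymm (fun x hx => ⟨_, ⟨r1 T x, hx⟩, funext fun j => r2 T x _ j.2⟩) ?_
      rintro x ⟨y, ⟨y1, y2⟩, h⟩
      rwa [mem_preimage, ← (r3 T y x).2 fun j hj => congrFun h ⟨j, hj⟩, r4 T y y1]
    rw [this]
    exact (hψ.isClosedMap _ (isClosed_closure.inter hC)).preimage hψ
  let P : Set (Z ⊕ J) → Prop := fun T => ∃ F : Set (Z → ℝ), (∀ g ∈ F, Continuous g) ∧
    (∀ x, {g ∈ F | g x ≠ 0}.Countable) ∧ ∀ x y, (∀ g ∈ F, g x = g y) → r T x = r T y
  have p0 : ∀ T, T.Countable → P T := fun T hT => by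
    have := ((hl_cble f f1 hT).preimage Sum.inr_injective).image φ
    exact ⟨_, forall_mem_image.2 fun j _ => hφ j, fun x => this.mono fun _ h => h.1,
      fun x y h => (r3 T x y).2 (forall_mem_image.1 h)⟩
  have p1 : ∀ κ, ∀ T : Set (Z ⊕ J), Cardinal.mk T = κ → P T := fun κ => by
    induction κ using WellFoundedLT.induction with | ind κ ih => ?_
    intro T hT
    by_cases hc : T.Countable
    · exact p0 T hc
    have hκ : Cardinal.aleph0 ≤ κ := hT ▸ le_of_not_ge fun h =>
      hc (Cardinal.le_aleph0_iff_set_countable.1 h)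
    obtain ⟨e⟩ : Nonempty (κ.ord.ToType ≃ T) := Cardinal.eq.1 (by simp [hT])
    let b : κ.ord.ToType → Z ⊕ J := fun a => e a
    choose F F1 F2 F3 using fun a => ih _ (show Cardinal.mk (b '' Iic a) < κ from by
      refine Cardinal.mk_image_le.trans_lt ?_
      rw [← Iio_insert]
      exact Cardinal.mk_insert_le.trans_lt (Cardinal.add_lt_of_lt hκ
        (by simpa using Cardinal.mk_Iio_lt a) (Cardinal.one_lt_aleph0.trans_le hκ))) _ rfl
    obtain ⟨F0, g1, g2, g3⟩ := p0 ∅ countable_empty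
    have fin : ∀ (I : Set κ.ord.ToType) c, c ∈ hl f (b '' I) →
        c ∈ hl f ∅ ∨ ∃ a ∈ I, c ∈ hl f (b '' Iic a) := fun I c hc => by
      obtain ⟨G, h1, h2⟩ := hl_fin f hc
      obtain ⟨H, h3, rfl⟩ := Finset.subset_set_image_iff.1 h1
      rcases H.eq_empty_or_nonempty with rfl | h
      · exact Or.inl (by simpa using h2)
      · exact Or.inr ⟨_, h3 (H.max'_mem h), hl_mono f (by
          rw [Finset.coe_image]; exact image_mono fun a ha => H.le_max' a ha) h2⟩
    let d : κ.ord.ToType → (Z → ℝ) → Z → ℝ := fun a g x =>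
      g (r (b '' Iic a) x) - g (r (b '' Iio a) x)
    refine ⟨F0 ∪ ⋃ a, d a '' F a, ?_, fun x => ?_, fun x y h => ?_⟩
    · rintro g (h | h)
      · exact g1 g h
      · obtain ⟨a, g, hg, rfl⟩ := mem_iUnion.1 h
        exact ((F1 a g hg).comp (r5 _)).sub ((F1 a g hg).comp (r5 _))
    · let C := {a | r (b '' Iic a) x ≠ r (b '' Iio a) x}
      have hC : C.Countable := by
        let I := {a | (C ∩ Iic a).Countable}
        obtain ⟨B, b1, b2, b3⟩ := hZ _ _ (r1 (b '' I) x)
        have : ∀ w ∈ B, ∃ E : Set κ.ord.ToType, E.Countable ∧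
            ∀ a ∈ C, a ∉ E → .inl w ∈ hl f (b '' Iio a) := fun w hw => by
          rcases fin I _ (b1 hw) with h | ⟨c, c1, c2⟩
          · exact ⟨∅, countable_empty, fun a _ _ => hl_mono f (empty_subset _) h⟩
          · exact ⟨_, c1, fun a a1 a2 => hl_mono f (image_mono (Iic_subset_Iio.2
              (not_le.1 fun h => a2 ⟨a1, h⟩))) c2⟩
        choose! E E1 E2 using this
        have c1 : (C ∩ I).Countable := (b2.biUnion E1).mono fun a ha => by_contra fun hn => by
          have k1 : r (b '' I) x ∈ closure (Sum.inl ⁻¹' hl f (b '' Iio a)) :=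
            closure_mono (fun w hw => E2 w hw a ha.1 fun h => hn (mem_biUnion hw h)) b3
          have k2 : ∀ S ⊆ Iic a, r (b '' S) (r (b '' I) x) = r (b '' S) x := fun S hS =>
            (r3 _ _ _).2 fun j hj => r2 _ _ j (hl_mono f (image_mono fun c hc => Countable.mono
              (inter_subset_inter_right _ (Iic_subset_Iic.2 (hS hc))) ha.2) hj)
          refine ha.1 ?_
          rw [← k2 _ subset_rfl, ← k2 _ Iio_subset_Iic_self, r4 _ _ k1, r4 _ _ (closure_mono
            (preimage_mono (hl_mono f (image_mono Iio_subset_Iic_self))) k1)]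
        suffices ∀ a, a ∈ I from c1.mono fun a ha => And.intro ha (this a)
        intro a
        induction a using WellFoundedLT.induction with | ind a ih => ?_
        exact (c1.insert a).mono fun c hc => (eq_or_lt_of_le hc.2).imp id fun h => ⟨hc.1, ih c h⟩
      refine ((g2 x).union (hC.biUnion fun a _ => ((F2 a (r (b '' Iic a) x)).union
        (F2 a (r (b '' Iio a) x))).image (d a))).mono ?_
      rintro g ⟨h | h, hg⟩
      · exact Or.inl ⟨h, hg⟩
      obtain ⟨a, g, h', rfl⟩ := mem_iUnion.1 h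
      refine Or.inr (mem_biUnion (x := a) (fun e => hg (by simp [d, e])) ⟨g, by_contra fun hn =>
        hg ?_, rfl⟩)
      simp only [mem_union, mem_ofPred_eq, h', true_and, not_or, not_not] at hn
      simp [d, hn]
    · have k0 := (r3 _ _ _).1 (g3 x y fun g hg => h g (Or.inl hg))
      have k : ∀ a, r (b '' Iic a) x = r (b '' Iic a) y := fun a => by
        induction a using WellFoundedLT.induction with | ind a ih => ?_
        have e : r (b '' Iio a) x = r (b '' Iio a) y := (r3 _ _ _).2 fun j hj =>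
          (fin _ _ hj).elim (k0 j) fun ⟨c, c1, c2⟩ => (r3 _ _ _).1 (ih c c1) j c2
        rw [← r4 _ _ (r1 _ x), ← r4 _ _ (r1 _ y)]
        exact F3 a _ _ fun g hg => by
          simpa [d, e] using h _ (Or.inr (mem_iUnion.2 ⟨a, g, hg, rfl⟩))
      refine (r3 _ _ _).2 fun j hj => (fin univ _ (by
        rwa [image_univ, show range b = T from by
          rw [← Subtype.range_coe (s := T)]; exact e.surjective.range_comp _])).elim (k0 j)
        fun ⟨c, _, c2⟩ => (r3 _ _ _).1 (k c) j c2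
  obtain ⟨F, F1, F2, F3⟩ := p1 _ univ rfl
  have r6 : ∀ x, r univ x = x := fun x => r4 _ _ (subset_closure (le_hl f _ trivial))
  exact ⟨F, fun x g => g.1 x, ((continuous_pi fun g => F1 _ g.2).isClosedEmbedding fun x y h => by
    rw [← r6 x, F3 x y fun g hg => congrFun h ⟨g, hg⟩, r6]).isEmbedding, fun x =>
    ((F2 x).preimage Subtype.val_injective).mono fun g hg => And.intro g.2 hg⟩

lemma sigma_tight {Z Γ : Type} [TopologicalSpace Z] {e : Z → Γ → ℝ} (he : IsEmbedding e)
    (h : ∀ s, (Function.support (e s)).Countable) : Tight Z := fun A g hg => by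
  classical
  have : ∀ (G : Finset Γ) (n : ℕ), ∃ a ∈ A, ∀ c ∈ G, dist (e a c) (e g c) < 1 / (n + 1) :=
    fun G n => by
      obtain ⟨a, a1, a2⟩ := mem_closure_iff.1 hg _ ((H5C.isOpen_box G (e g) (1 / (n + 1))).preimage
        he.continuous) fun c _ => by simp; positivity
      exact ⟨a, a2, a1⟩
  choose a a1 a2 using this
  obtain ⟨S, s1, s2⟩ := H5C.hull (fun G => Function.support (e g) ∪ ⋃ n, Function.support (e (a G n)))
    fun G => (h g).union (countable_iUnion fun n => h _)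
  have := s1.to_subtype
  refine ⟨range fun p : Finset S × ℕ => a (p.1.image Subtype.val) p.2, range_subset_iff.2
    fun _ => a1 _ _, countable_range _, mem_closure_iff.2 fun U u1 u2 => ?_⟩
  obtain ⟨V, v1, rfl⟩ := he.isOpen_iff.1 u1
  obtain ⟨G, ε, e1, e2⟩ := H5C.pi_nhds v1 u2
  obtain ⟨n, hn⟩ := exists_nat_one_div_lt e1
  refine ⟨_, e2 _ fun c hc => ?_, (G.subtype (· ∈ S), n), rfl⟩
  by_cases k : c ∈ S
  · exact (a2 _ n c (by simp [hc, k])).trans hn
  · have := s2 ((G.subtype (· ∈ S)).image Subtype.val) (by simp [subset_def])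
    rw [Function.notMem_support.1 fun h => k (this (Or.inl h)),
      Function.notMem_support.1 fun h => k (this (Or.inr (mem_iUnion.2 ⟨n, h⟩)))]
    simpa using e1

theorem corson_prod {X K : Type} [TopologicalSpace X] [TopologicalSpace K] [CompactSpace K]
    (h : ∀ S : Set (X → ℝ), (∀ f ∈ S, Continuous f) → IsCompact S →
      ∃ (Γ : Type) (e : S → (Γ → ℝ)), IsEmbedding e ∧ ∀ s, (Function.support (e s)).Countable)
    (S : Set (X × K → ℝ)) (s1 : ∀ f ∈ S, Continuous f) (s2 : IsCompact S) :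
    ∃ (Γ : Type) (e : S → (Γ → ℝ)), IsEmbedding e ∧ ∀ s, (Function.support (e s)).Countable := by
  classical
  have := isCompact_iff_compactSpace.1 s2
  have h' : HT X := ht fun L hL => by
    obtain ⟨Γ, e, e1, e2⟩ := h _ (forall_mem_image.2 fun f _ => f.2) (hL.image continuous_subtype_val)
    exact sigma_tight (e := fun f : L => e ⟨f.1.1, mem_image_of_mem _ f.2⟩) (e1.comp
      ((IsEmbedding.subtypeVal.comp .subtypeVal).codRestrict _ _)) fun _ => e2 _
  have ev : ∀ q, Continuous fun z : S => z.1 q := fun q =>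
    (continuous_apply q).comp continuous_subtype_val
  have c : ∀ k, Continuous fun (z : S) x => z.1 (x, k) := fun k => continuous_pi fun _ => ev _
  choose Γ e e1 e2 using fun k => h _ (forall_mem_range.2 fun z : S => (s1 _ z.2).comp
    (Continuous.prodMk_left k)) (isCompact_range (c k))
  choose T t1 u t2 t3 using fun G : Finset S => h'.core (B := Subtype.val '' (G : Set S))
    (G.countable_toSet.image _) (forall_mem_image.2 fun b _ => s1 _ b.2)
  let φ : (Σ k, Option (Γ k)) → S → ℝ := fun j z => j.2.elim 0 (e j.1 ⟨_, z, rfl⟩)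
  have c2 : ∀ k, Continuous fun z : S => e k ⟨_, z, rfl⟩ := fun k =>
    (e1 k).continuous.comp ((c k).subtype_mk _)
  refine corson (h'.tight .subtypeVal fun z => s1 _ z.2) (φ := φ) ?_ (f0 := fun G =>
    Sum.inr '' ((fun k => ⟨k, none⟩) '' T G.toLeft ∪ ⋃ z ∈ G.toLeft, ⋃ j ∈ G.toRight,
      (fun γ => ⟨j.1, some γ⟩) '' Function.support (e j.1 ⟨_, z, rfl⟩)))
    (fun G => (((t1 _).image _).union (G.toLeft.countable_toSet.biUnion fun z _ =>
      G.toRight.countable_toSet.biUnion fun j _ => (e2 _ _).image _)).image _)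
    fun M hM x hx y hy hxy => ?_
  · rintro ⟨k, _ | γ⟩
    exacts [continuous_const, (continuous_apply γ).comp (c2 k)]
  have k1 : ∀ p k, Sum.inr ⟨k, none⟩ ∈ M → x.1 (p, k) = y.1 (p, k) := fun p k hk => by
    refine congrFun (congrArg Subtype.val ((e1 k).injective (a₁ := ⟨_, x, rfl⟩) (a₂ := ⟨_, y, rfl⟩)
      (funext fun γ => ?_))) p
    by_cases hγ : Sum.inr ⟨k, some γ⟩ ∈ M
    · exact hxy _ hγ
    have : ∀ z ∈ closure (Sum.inl ⁻¹' M), e k ⟨_, z, rfl⟩ γ = 0 := closure_minimal
      (fun z hz => by_contra fun hn => hγ (hM {.inl z, .inr ⟨k, none⟩} (by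
        simpa [insert_subset_iff] using ⟨hz, hk⟩) (mem_image_of_mem _ (Or.inr (mem_biUnion
          (x := z) (by simp) (mem_biUnion (x := ⟨k, none⟩) (by simp) ⟨γ, hn, rfl⟩))))))
      (isClosed_eq ((continuous_apply γ).comp (c2 k)) continuous_const)
    rw [this x hx, this y hy]
  refine Subtype.ext (funext fun ⟨p, k⟩ => ?_)
  let m : Finset (Sum.inl ⁻¹' M : Set S) → Finset S := fun G => G.image Subtype.val
  obtain ⟨k', hk⟩ := exists_clusterPt_of_compactSpace (map (fun G => u (m G) k) atTop)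
  have k2 : ∀ z ∈ closure (Sum.inl ⁻¹' M : Set S), z.1 (p, k') = z.1 (p, k) := closure_minimal
    (fun z hz => IsClosed.mem_of_mapClusterPt (s := {k' | z.1 (p, k') = z.1 (p, k)})
      (isClosed_eq ((s1 _ z.2).comp (Continuous.prodMk_right p)) continuous_const) hk
      ((eventually_ge_atTop {⟨z, hz⟩}).mono fun G hG => t3 (m G) k z.1 (mem_image_of_mem _
        (Finset.mem_image_of_mem Subtype.val (hG (Finset.mem_singleton_self _)))) p))
    (isClosed_eq (ev _) (ev _))
  rw [← k2 x hx, ← k2 y hy]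
  refine IsClosed.mem_of_mapClusterPt (s := {k' | x.1 (p, k') = y.1 (p, k')}) ?_ hk
    (.of_forall fun G => closure_minimal (fun a ha => k1 p a (hM ((m G).disjSum ∅) (by
      rintro (c | c) hc
      · obtain ⟨d, -, rfl⟩ := Finset.mem_image.1 (Finset.inl_mem_disjSum.1 hc)
        exact d.2
      · simp at hc) (mem_image_of_mem _ (Or.inl ⟨a, by rwa [Finset.toLeft_disjSum], rfl⟩)))) ?_ (t2 _ k)) <;>
    exact isClosed_eq ((s1 _ x.2).comp (Continuous.prodMk_right p))
      ((s1 _ y.2).comp (Continuous.prodMk_right p))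

end H5P
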