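import Pool.Agent.Lib.helper5.Face

/-! A machine producing l-equivalent spaces from an l-embedded subspace. -/

open Set Filter Topology

namespace H5E

universe u v w

variable {X : Type u} {Y : Type v} {F : Type w} [TopologicalSpace X] [TopologicalSpace Y]
  [TopologicalSpace F]

/-- the pointwise topology -/
@[reducible] def tp (X : Type u) [TopologicalSpace X] : TopologicalSpace C(X, ℝ) :=
  TopologicalSpace.induced (fun f : C(X, ℝ) => (f : X → ℝ)) inferInstance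

/-- pointwise continuous functional -/
def PC (φ : C(X, ℝ) → ℝ) : Prop := @Continuous _ _ (tp X) _ φ

lemma PC.eval (x : X) : PC fun f : C(X, ℝ) => f x := by
  let := tp X
  exact (continuous_apply x).comp continuous_induced_dom

lemma PC.zero : PC fun _ : C(X, ℝ) => 0 := by
  let := tp X
  exact continuous_const

lemma PC.add {φ ψ : C(X, ℝ) → ℝ} (h : PC φ) (h' : PC ψ) : PC fun f => φ f + ψ f := by
  let := tp X
  exact Continuous.add h h'

lemma PC.sub {φ ψ : C(X, ℝ) → ℝ} (h : PC φ) (h' : PC ψ) : PC fun f => φ f - ψ f := by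
  let := tp X
  exact Continuous.sub h h'

lemma PC.mul {φ : C(X, ℝ) → ℝ} (h : PC φ) (c : ℝ) : PC fun f => c * φ f := by
  let := tp X
  exact Continuous.mul continuous_const h

lemma PC.sum {ι : Type*} (s : Finset ι) {φ : ι → C(X, ℝ) → ℝ} (h : ∀ i, PC (φ i)) :
    PC fun f => ∑ i ∈ s, φ i f := by
  let := tp X
  exact continuous_finsetSum s fun i _ => h i

lemma cont_of_PC {T : C(X, ℝ) → C(Y, ℝ)} (h : ∀ y, PC fun f => T f y) :
    @Continuous _ _ (tp X) (tp Y) T := by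
  let := tp X
  exact continuous_induced_rng.2 (continuous_pi h)

lemma cont_of_PC' {T : C(X, ℝ) → C(Y, ℝ)} (h : ∀ y, PC fun f => T f y) :
    @Continuous _ _ (tp X) _ fun f => (T f : Y → ℝ) := by
  let := tp X
  exact continuous_pi h

lemma PC.comp {T : C(X, ℝ) → C(Y, ℝ)} (h : ∀ y, PC fun f => T f y) {φ : C(Y, ℝ) → ℝ}
    (h' : PC φ) : PC fun f => φ (T f) :=
  @Continuous.comp _ _ _ (tp X) (tp Y) _ _ _ h' (cont_of_PC h)

/-- l-equivalence -/
def LEq (X : Type u) (Y : Type v) [TopologicalSpace X] [TopologicalSpace Y] : Prop :=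
  ∃ T : C(X, ℝ) ≃ₗ[ℝ] C(Y, ℝ), (∀ y, PC fun f => T f y) ∧ ∀ x, PC fun g => T.symm g x

lemma LEq.symm (h : LEq X Y) : LEq Y X := by
  obtain ⟨T, h1, h2⟩ := h
  exact ⟨T.symm, h2, h1⟩

lemma sub_cont {T : C(X, ℝ) → C(Y, ℝ)} (h : ∀ y, PC fun f => T f y) :
    Continuous fun f : {f : X → ℝ // Continuous f} =>
      (⟨T ⟨f.1, f.2⟩, (T _).2⟩ : {g : Y → ℝ // Continuous g}) := by
  refine Continuous.subtype_mk ?_ _
  exact @Continuous.comp _ _ _ _ (tp X) _ (fun f : {f : X → ℝ // Continuous f} =>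
    (⟨f.1, f.2⟩ : C(X, ℝ))) _ (cont_of_PC' h) (continuous_induced_rng.2 continuous_subtype_val)

lemma LEq.homeo (h : LEq X Y) :
    ∃ T : {f : X → ℝ // Continuous f} ≃ₜ {g : Y → ℝ // Continuous g},
      ∀ (a : ℝ) (f g h : {f : X → ℝ // Continuous f}),
        h.1 = a • f.1 + g.1 → (T h).1 = a • (T f).1 + (T g).1 := by
  obtain ⟨T, h1, h2⟩ := h
  refine ⟨⟨⟨fun f => ⟨T ⟨f.1, f.2⟩, (T _).2⟩, fun f => ⟨T.symm ⟨f.1, f.2⟩, (T.symm _).2⟩,
    fun f => Subtype.ext ?_, fun f => Subtype.ext ?_⟩, sub_cont h1, sub_cont h2⟩, ?_⟩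
  · exact congrArg (fun g : C(X, ℝ) => (g : X → ℝ)) (T.symm_apply_apply ⟨f.1, f.2⟩)
  · exact congrArg (fun g : C(Y, ℝ) => (g : Y → ℝ)) (T.apply_symm_apply ⟨f.1, f.2⟩)
  · intro a f g h e
    have : (⟨h.1, h.2⟩ : C(X, ℝ)) = a • ⟨f.1, f.2⟩ + ⟨g.1, g.2⟩ := ContinuousMap.coe_injective e
    change (T ⟨h.1, h.2⟩ : Y → ℝ) = a • (T ⟨f.1, f.2⟩ : Y → ℝ) + T ⟨g.1, g.2⟩
    rw [this, map_add, map_smul]; rfl

lemma unif (T : C(X, ℝ) ≃ₗ[ℝ] C(Y, ℝ)) (h : ∀ y, PC fun f => T f y) (B : Finset Y) (ε : ℝ)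
    (hε : 0 < ε) : ∃ A : Finset X, ∃ δ : ℝ, 0 < δ ∧
      ∀ f g : C(X, ℝ), (∀ x ∈ A, |f x - g x| < δ) → ∀ y ∈ B, |T f y - T g y| < ε := by
  let := tp X
  obtain ⟨V, v1, v2⟩ := isOpen_induced_iff.1
    ((H5C.isOpen_box B (0 : Y → ℝ) ε).preimage (cont_of_PC' h))
  have h0 : ((0 : C(X, ℝ)) : X → ℝ) ∈ V := by
    rw [← mem_preimage (f := fun f : C(X, ℝ) => (f : X → ℝ)), v2]; simp [hε]
  obtain ⟨A, δ, d1, d2⟩ := H5C.pi_nhds v1 h0
  refine ⟨A, δ, d1, fun f g hfg y hy => ?_⟩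
  have := d2 (f - g : C(X, ℝ)) fun a ha => by simpa [Real.dist_eq] using hfg a ha
  rw [← mem_preimage (f := fun f : C(X, ℝ) => (f : X → ℝ)), v2] at this
  simpa [Real.dist_eq] using this y hy

/-- continuous functions vanishing on the image of `e` -/
abbrev C0 (e : C(F, X)) := {f : C(X, ℝ) // ∀ y, f (e y) = 0}

/-- the space obtained by collapsing the image of `e` to a point -/
abbrev Q (e : C(F, X)) := range fun (x : X) (f : C0 e) => f.1 x

def q (e : C(F, X)) : C(X, Q e) :=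
  ⟨fun x => ⟨fun f => f.1 x, x, rfl⟩,
    Continuous.subtype_mk (continuous_pi fun f => f.1.continuous) _⟩

lemma q_surj (e : C(F, X)) (z : Q e) : ∃ x, q e x = z := by
  obtain ⟨_, x, rfl⟩ := z; exact ⟨x, rfl⟩

lemma q_eq (e : C(F, X)) (y y' : F) : q e (e y) = q e (e y') :=
  Subtype.ext (funext fun f => (f.2 y).trans (f.2 y').symm)

def co (e : C(F, X)) (f : C0 e) : C(Q e, ℝ) :=
  ⟨fun z => z.1 f, (continuous_apply f).comp continuous_subtype_val⟩

def inl' : C(X, X ⊕ Y) := ⟨Sum.inl, continuous_inl⟩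
def inr' : C(Y, X ⊕ Y) := ⟨Sum.inr, continuous_inr⟩
def el (f : C(X, ℝ)) (g : C(Y, ℝ)) : C(X ⊕ Y, ℝ) := ⟨Sum.elim f g, f.2.sumElim g.2⟩

theorem machine (e : C(F, X)) (y0 : F) (E : C(F, ℝ) → C(X, ℝ))
    (h1 : ∀ f g x, E (f + g) x = E f x + E g x) (h2 : ∀ (c : ℝ) f x, E (c • f) x = c * E f x)
    (h3 : ∀ f y, E f (e y) = f y) (h4 : ∀ x, PC fun f => E f x) :
    LEq (X ⊕ PUnit.{u + 1}) (F ⊕ Q e) := by
  let Φ : C(X ⊕ PUnit.{u + 1}, ℝ) → C(F ⊕ Q e, ℝ) := fun f => el ((f.comp inl').comp e)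
    (co e ⟨f.comp inl' - E ((f.comp inl').comp e), fun y => by simp [h3]⟩ +
      ContinuousMap.const _ (f (Sum.inr ⟨⟩)))
  let Ψ : C(F ⊕ Q e, ℝ) → C(X ⊕ PUnit.{u + 1}, ℝ) := fun g => el ((g.comp inr').comp (q e) -
    ContinuousMap.const _ (g (Sum.inr (q e (e y0)))) + E (g.comp inl'))
      (ContinuousMap.const _ (g (Sum.inr (q e (e y0)))))
  have a1 : ∀ f y, Φ f (Sum.inl y) = f (Sum.inl (e y)) := fun _ _ => rfl
  have a2 : ∀ f x, Φ f (Sum.inr (q e x)) =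
    f (Sum.inl x) - E ((f.comp inl').comp e) x + f (Sum.inr ⟨⟩) := fun _ _ => rfl
  have b1 : ∀ g x, Ψ g (Sum.inl x) =
    g (Sum.inr (q e x)) - g (Sum.inr (q e (e y0))) + E (g.comp inl') x := fun _ _ => rfl
  have b2 : ∀ g x, Ψ g (Sum.inr x) = g (Sum.inr (q e (e y0))) := fun _ _ => rfl
  have c1 : ∀ g, ((Ψ g).comp inl').comp e = g.comp inl' := fun g => by
    ext y
    exact (b1 g (e y)).trans (by rw [q_eq e y y0, h3]; simp)
  have c2 : ∀ f, (Φ f).comp inl' = (f.comp inl').comp e := fun _ => rfl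
  refine ⟨⟨⟨⟨Φ, fun f g => ?_⟩, fun c f => ?_⟩, Ψ, fun f => ?_, fun g => ?_⟩, ?_, ?_⟩
  · ext (y | z)
    · rfl
    · obtain ⟨x, rfl⟩ := q_surj e z
      simp only [ContinuousMap.add_apply, a2, ContinuousMap.add_comp, h1]; ring
  · ext (y | z)
    · rfl
    · obtain ⟨x, rfl⟩ := q_surj e z
      simp only [ContinuousMap.smul_apply, a2, ContinuousMap.smul_comp, h2, smul_eq_mul,
        RingHom.id_apply]; ring
  · ext (x | z)
    · simp only [b1, a2, c2, h3]; simp [inl']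
    · simp only [b2, a2, h3]; simp [inl']
  · ext (y | z)
    · exact congrFun (congrArg (fun g : C(F, ℝ) => (g : F → ℝ)) (c1 g)) y
    · obtain ⟨x, rfl⟩ := q_surj e z
      simp only [a2, b1, b2, c1]; ring
  · rintro (y | z)
    · exact PC.eval _
    · obtain ⟨x, rfl⟩ := q_surj e z
      exact ((PC.eval _).sub (PC.comp (T := fun f => (f.comp inl').comp e)
        (fun y => PC.eval _) (h4 x))).add (PC.eval _)
  · rintro (x | z)
    · exact ((PC.eval _).sub (PC.eval _)).add (PC.comp (T := fun g => g.comp inl')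
        (fun y => PC.eval _) (h4 x))
    · exact PC.eval _

instance sumT35 [T35Space X] [T35Space Y] : T35Space (X ⊕ Y) where
  completely_regular := by
    rintro (x | y) K hK hx
    · obtain ⟨f, f1, f2, f3⟩ := CompletelyRegularSpace.completely_regular x _
        (hK.preimage continuous_inl) hx
      refine ⟨Sum.elim f fun _ => 1, f1.sumElim continuous_const, f2, ?_⟩
      rintro (a | a) ha
      exacts [f3 ha, rfl]
    · obtain ⟨f, f1, f2, f3⟩ := CompletelyRegularSpace.completely_regular y _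
        (hK.preimage continuous_inr) hx
      refine ⟨Sum.elim (fun _ => 1) f, continuous_const.sumElim f1, f2, ?_⟩
      rintro (a | a) ha
      exacts [rfl, f3 ha]

lemma q_diag_ne {Z : Type u} [TopologicalSpace Z] [T35Space Z] (e : C(Z, Z × Z))
    (he : ∀ z, e z = (z, z)) {a b : Z} (h : a ≠ b) (z : Z) : q e (a, b) ≠ q e (e z) := by
  intro h'
  obtain ⟨g, g1, g2⟩ := separatesPoints_continuous_of_t35Space h
  have hg : Continuous g := g1
  let f : C0 e := ⟨⟨fun p => g p.1 - g p.2, by fun_prop⟩, fun y => by simp [he]⟩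
  have := congrFun (congrArg Subtype.val h') f
  exact g2 (sub_eq_zero.1 (this.trans (f.2 z)))

/-- the diagonal -/
def diag (Z : Type u) [TopologicalSpace Z] : C(Z, Z × Z) := ⟨fun z => (z, z), by fun_prop⟩

theorem machine_sq (Z : Type u) [TopologicalSpace Z] (z0 : Z) :
    LEq ((Z × Z) ⊕ PUnit.{u + 1}) (Z ⊕ Q (diag Z)) :=
  machine (diag Z) z0 (fun f => f.comp ContinuousMap.fst) (fun _ _ _ => rfl) (fun _ _ _ => rfl)
    (fun _ _ => rfl) fun _ => PC.eval _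

/-- finitely supported linear functionals -/
def Lin (μ : C(F, ℝ) → ℝ) : Prop :=
  PC μ ∧ (∀ f g, μ (f + g) = μ f + μ g) ∧ ∀ (c : ℝ) f, μ (c • f) = c * μ f

def δ (y : F) : C(F, ℝ) → ℝ := fun f => f y

lemma cont_δ : Continuous (δ : F → C(F, ℝ) → ℝ) := continuous_pi fun f => f.2

lemma Lin.δ (y : F) : Lin (δ y) := ⟨PC.eval y, fun _ _ => rfl, fun _ _ => rfl⟩

lemma Lin.zero : Lin (0 : C(F, ℝ) → ℝ) := ⟨PC.zero, fun _ _ => by simp, fun _ _ => by simp⟩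

lemma Lin.add {μ ν : C(F, ℝ) → ℝ} (h : Lin μ) (h' : Lin ν) : Lin (μ + ν) :=
  ⟨h.1.add h'.1, fun f g => by simp only [Pi.add_apply, h.2.1, h'.2.1]; ring,
    fun c f => by simp only [Pi.add_apply, h.2.2, h'.2.2]; ring⟩

lemma Lin.sub {μ ν : C(F, ℝ) → ℝ} (h : Lin μ) (h' : Lin ν) : Lin (μ - ν) :=
  ⟨h.1.sub h'.1, fun f g => by simp only [Pi.sub_apply, h.2.1, h'.2.1]; ring,
    fun c f => by simp only [Pi.sub_apply, h.2.2, h'.2.2]; ring⟩

def eS (S : Set (C(F, ℝ) → ℝ)) (h : ∀ y, δ y ∈ S) : C(F, S) :=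
  ⟨fun y => ⟨δ y, h y⟩, cont_δ.subtype_mk _⟩

theorem machine_L (S : Set (C(F, ℝ) → ℝ)) (h : ∀ y, δ y ∈ S) (hS : ∀ μ ∈ S, Lin μ) (y0 : F) :
    LEq (S ⊕ PUnit.{w + 1}) (F ⊕ Q (eS S h)) :=
  machine (eS S h) y0 (fun f => ⟨fun μ => μ.1 f, (continuous_apply f).comp continuous_subtype_val⟩)
    (fun f g μ => (hS _ μ.2).2.1 f g) (fun c f μ => (hS _ μ.2).2.2 c f) (fun _ _ => rfl)
    fun μ => (hS _ μ.2).1

end H5E
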