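import Pool.Agent.Lib.helper5.CpEquiv

/-! k-separability is not l-invariant. -/

open Set Filter Topology Pointwise

namespace H5E

lemma exists_W1 : ∃ (W : Type) (_ : LinearOrder W) (_ : WellFoundedLT W),
    Uncountable W ∧ ∀ a : W, (Iic a).Countable := by
  refine ⟨(Cardinal.aleph 1).ord.ToType, inferInstance, inferInstance, ?_, fun a => ?_⟩
  · rw [← Cardinal.aleph0_lt_mk_iff]; simp
  · rw [← Iio_insert]
    refine Countable.insert _ ?_
    rw [← Cardinal.le_aleph0_iff_set_countable, ← Cardinal.lt_aleph_one_iff]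
    simpa using Cardinal.mk_Iio_lt a

section
variable {W : Type} [LinearOrder W] [Uncountable W]

lemma W1_bdd (h : ∀ a : W, (Iic a).Countable) {S : Set W} (hS : S.Countable) :
    ∃ b, ∀ a ∈ S, a < b := by
  by_contra hc
  push Not at hc
  refine not_countable_univ ((hS.biUnion fun a _ => h a).mono fun b _ => ?_)
  obtain ⟨a, h1, h2⟩ := hc b
  exact mem_biUnion h1 h2

variable [WellFoundedLT W] [TopologicalSpace W] [OrderTopology W] [SuccOrder W]

lemma W1_tendsto (h : ∀ a : W, (Iic a).Countable) (f : C(W, ℝ)) :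
    Tendsto (fun a => f (Order.succ a) - f a) cofinite (𝓝 0) := by
  rw [Metric.tendsto_nhds]
  intro ε hε
  by_contra hc
  have hi : {a | ¬ dist (f (Order.succ a) - f a) 0 < ε}.Infinite := hc
  obtain ⟨g, hg⟩ := (Set.IsWF.isPWO (s := (univ : Set W)) (.of_wellFoundedLT _)
    ).exists_monotone_subseq (f := fun n => (hi.natEmbedding _ n).1) fun _ => trivial
  let u : ℕ → W := fun n => (hi.natEmbedding _ (g n)).1
  have hm : StrictMono u := Monotone.strictMono_of_injective (fun a b hab => hg hab)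
    (Subtype.val_injective.comp ((hi.natEmbedding _).injective.comp g.injective))
  obtain ⟨b, hb⟩ := W1_bdd h (countable_range u)
  have hne : (upperBounds (range u)).Nonempty := ⟨b, fun a ha => (hb a ha).le⟩
  let l := wellFounded_lt.min _ hne
  have hl : IsLUB (range u) l := ⟨wellFounded_lt.min_mem _ hne, fun c hc =>
    not_lt.1 (wellFounded_lt.not_lt_min _ hc)⟩
  have t1 := tendsto_atTop_isLUB hm.monotone hl
  have t2 : Tendsto (fun n => Order.succ (u n)) atTop (𝓝 l) :=
    tendsto_of_tendsto_of_tendsto_of_le_of_le t1 ((tendsto_add_atTop_iff_nat 1).2 t1)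
      (fun n => Order.le_succ _) fun n => Order.succ_le_of_lt (hm (Nat.lt_succ_self n))
  have t3 := ((f.2.tendsto l).comp t2).sub ((f.2.tendsto l).comp t1)
  rw [sub_self] at t3
  obtain ⟨n, hn⟩ := (Metric.tendsto_nhds.1 t3 ε hε).exists
  exact (hi.natEmbedding _ (g n)).2 hn

omit [Uncountable W] in
lemma W1_ind {C : Set W} (hC : IsClosed C) (h0 : ∀ a, IsMin a → a ∈ C)
    (hs : ∀ a ∈ C, Order.succ a ∈ C) (a : W) : a ∈ C := by
  induction a using SuccOrder.limitRecOn with
  | isMin a ha => exact h0 a ha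
  | succ a _ ih => exact hs a ih
  | isSuccLimit a ha ih =>
    refine hC.closure_subset_iff.2 (fun b hb => ih b hb) (ha.isLUB_Iio.mem_closure ?_)
    exact not_isMin_iff.1 ha.not_isMin

end

theorem ksep : ∃ (X Y : Type) (_ : TopologicalSpace X) (_ : TopologicalSpace Y) (_ : T35Space X)
    (_ : T35Space Y), LEq X Y ∧ (∃ S : Set X, Dense S ∧ IsSigmaCompact S) ∧
      ¬ ∃ S : Set Y, Dense S ∧ IsSigmaCompact S := by
  obtain ⟨W, _, _, _, h⟩ := exists_W1
  let : TopologicalSpace W := Preorder.topology W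
  have : OrderTopology W := ⟨rfl⟩
  let : SuccOrder W := .ofLinearWellFoundedLT W
  let o : W := wellFounded_lt.min univ univ_nonempty
  have ho : ∀ a, o ≤ a := fun a => not_lt.1 (wellFounded_lt.not_lt_min _ (mem_univ a))
  let A : Set (C(W, ℝ) → ℝ) := insert 0 (range fun a => δ (Order.succ a) - δ a)
  have hA : IsCompact A := Tendsto.isCompact_insert_range_of_cofinite
    (tendsto_pi_nhds.2 fun f => W1_tendsto h f)
  let D : ℕ → Set (C(W, ℝ) → ℝ) := fun n => Nat.rec {δ o} (fun _ T => T + A) n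
  have hD : ∀ n, IsCompact (D n) := fun n => by
    induction n with
    | zero => exact isCompact_singleton
    | succ n ih => exact ih.add hA
  have hL : ∀ n, ∀ μ ∈ D n, Lin μ := fun n => by
    induction n with
    | zero => rintro _ rfl; exact .δ o
    | succ n ih =>
      rintro _ ⟨μ, h1, ν, rfl | ⟨a, rfl⟩, rfl⟩
      exacts [(ih μ h1).add .zero, (ih μ h1).add ((Lin.δ _).sub (.δ _))]
  let S : Set (C(W, ℝ) → ℝ) := range δ ∪ ⋃ n, D n
  have hS : ∀ y, δ y ∈ S := fun y => Or.inl ⟨y, rfl⟩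
  have hc : ∀ a : W, δ a ∈ closure (⋃ n, D n) := W1_ind (isClosed_closure.preimage cont_δ)
    (fun a ha => subset_closure (mem_iUnion.2 ⟨0, congrArg δ (le_antisymm (ha (ho a)) (ho a))⟩))
    fun a ha => by
      have := map_mem_closure (f := fun μ => μ + (δ (Order.succ a) - δ a)) (t := ⋃ n, D n)
        (by fun_prop) ha fun μ hμ => by
          obtain ⟨n, hn⟩ := mem_iUnion.1 hμ
          exact mem_iUnion.2 ⟨n + 1, μ, hn, _, Or.inr ⟨a, rfl⟩, rfl⟩
      rwa [add_sub_cancel] at this
  refine ⟨_, _, inferInstance, inferInstance, inferInstance, inferInstance, machine_L S hS ?_ o,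
    ⟨(Sum.inl '' (Subtype.val ⁻¹' ⋃ n, D n)) ∪ range Sum.inr, ?_, ?_⟩, ?_⟩
  · rintro μ (⟨y, rfl⟩ | hμ)
    · exact .δ y
    · obtain ⟨n, hn⟩ := mem_iUnion.1 hμ
      exact hL n μ hn
  · rintro (μ | x)
    · refine closure_mono subset_union_left (map_mem_closure continuous_inl ?_
        (mapsTo_image _ _))
      rw [closure_subtype, Subtype.image_preimage_coe, inter_eq_right.2 subset_union_right]
      obtain ⟨_, ⟨y, rfl⟩ | hμ⟩ := μ
      exacts [hc y, subset_closure hμ]
    · exact subset_closure (Or.inr ⟨x, rfl⟩)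
  · rw [preimage_iUnion, image_iUnion, iUnion_union]
    refine isSigmaCompact_iUnion_of_isCompact _ fun n => IsCompact.union
      (IsCompact.image ?_ continuous_inl) (finite_range _).isCompact
    rw [Subtype.isCompact_iff, Subtype.image_preimage_coe,
      inter_eq_right.2 ((subset_iUnion D n).trans subset_union_right)]
    exact hD n
  · rintro ⟨T, t1, K, k1, rfl⟩
    have : ∀ n, ∃ b : W, ∀ a, Sum.inl a ∈ K n → a ≤ b := fun n =>
      (IsClosedEmbedding.inl.isCompact_preimage (k1 n)).bddAbove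
    choose b hb using this
    obtain ⟨c, hc⟩ := W1_bdd h (countable_range b)
    obtain ⟨d, hd⟩ := W1_bdd h (countable_singleton c)
    obtain ⟨_, ⟨a, h1, rfl⟩, h2⟩ := t1.inter_open_nonempty (Sum.inl '' Ioi c)
      (isOpenMap_inl _ isOpen_Ioi) ⟨_, d, hd c rfl, rfl⟩
    obtain ⟨n, hn⟩ := mem_iUnion.1 h2
    exact lt_asymm h1 ((hb n a hn).trans_lt (hc _ ⟨n, rfl⟩))

end H5E
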