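import Pool.Agent.Lib.helper5.SigPs
import Pool.Agent.Lib.helper5.KSep
import Pool.Agent.Lib.helper5.Cube

/-! Compact subsets of continuous images of dense subspaces of `C_p(A(ω₁))`. -/

open Set Filter Topology PiNat

namespace H5D

open H5C (Cp)

section
open OnePoint
variable {W : Type} [LinearOrder W] [Uncountable W] [TopologicalSpace W] [DiscreteTopology W]

theorem machine (h : ∀ a : W, (Iic a).Countable) : ∃ S : Set (Cp (OnePoint W)), Dense S ∧
    ∀ (T J : Type) (_ : W ≃ T) (b : T → J → ℝ), (∀ j, ∃ c, {β | b β j ≠ c}.Countable) →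
      ∃ φ : S → J → ℝ, Continuous φ ∧ range b ⊆ range φ := by
  classical
  choose ρ hρ using fun a => countable_iff_exists_injOn.1 (h a)
  let t : W → W → ℝ := fun β γ => if γ = β then 1 else if γ < β then 1 / (ρ β γ + 2) else 0
  have t1 : ∀ β γ, γ ≠ β → t β γ ≤ 1 / 2 := fun β γ e => by
    simp only [t, if_neg e]
    split_ifs
    · exact one_div_le_one_div_of_le two_pos (by linarith [(ρ β γ).cast_nonneg (α := ℝ)])
    · norm_num
  have t2 : ∀ β, t β β = 1 := fun β => if_pos rfl
  have t3 : ∀ β γ, β < γ → t β γ = 0 := fun β γ e => by simp [t, e.ne', e.not_gt]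
  have t4 : ∀ β γ, γ < β → 0 < t β γ := fun β γ e => by
    simp only [t, if_neg e.ne, if_pos e]; positivity
  have tc : ∀ β, Continuous fun x : OnePoint W => x.elim 0 (t β) := fun β => by
    rw [continuous_iff_from_discrete, Metric.tendsto_nhds]
    intro ε hε
    obtain ⟨N, hN⟩ := exists_nat_one_div_lt hε
    refine ((Finite.of_finite_image (s := Iic β ∩ ρ β ⁻¹' Iic N) ((finite_Iic N).subset
      (image_subset_iff.2 inter_subset_right)) ((hρ β).mono inter_subset_left)).insert β).subset
      fun γ hγ => by_contra fun hn => hγ ?_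
    simp only [mem_insert_iff, not_or, mem_inter_iff, mem_Iic, mem_preimage, not_and, not_le] at hn
    simp only [mem_ofPred_eq, elim_some, elim_infty, t, if_neg hn.1, dist_zero_right]
    split_ifs with e
    · rw [Real.norm_of_nonneg (by positivity)]
      have : (N : ℝ) < ρ β γ := Nat.cast_lt.2 (hn.2 e.le)
      exact (one_div_le_one_div_of_le (by positivity) (by linarith)).trans_lt hN
    · simpa using hε
  let s : W → Cp (OnePoint W) := fun β => ⟨_, tc β⟩
  let S : Set (Cp (OnePoint W)) := {f | f.1 ∞ ≠ 0} ∪ range s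
  refine ⟨S, fun g => ?_, fun T J e b hb => ?_⟩
  · by_cases hg : g.1 ∞ = 0
    · refine mem_closure_of_tendsto (b := atTop) (f := fun n : ℕ =>
        ⟨fun x => g.1 x + 1 / (n + 1), g.2.add continuous_const⟩) (tendsto_subtype_rng.2
        (tendsto_pi_nhds.2 fun x => ?_)) (.of_forall fun n => Or.inl ?_)
      · simpa using tendsto_one_div_add_atTop_nhds_zero_nat.const_add (g.1 x)
      · simp only [mem_ofPred_eq, hg]; positivity
    · exact subset_closure (Or.inl hg)
  have ext : ∀ j, ∃ ψ : S → ℝ, Continuous ψ ∧ ∀ β, ψ ⟨s β, Or.inr ⟨β, rfl⟩⟩ = b (e β) j := by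
    intro j
    obtain ⟨c, hc⟩ := hb j
    obtain ⟨α, hα⟩ := H5E.W1_bdd h (hc.preimage e.injective)
    have := (h α).to_subtype
    let π : S → ℝ × (Iic α → ℝ) := fun f => (f.1.1 ∞, fun γ => f.1.1 γ.1)
    have hπ : Continuous π := by
      have : ∀ x, Continuous fun f : S => f.1.1 x := fun x => (continuous_apply x).comp
        (continuous_subtype_val.comp continuous_subtype_val)
      exact (this _).prodMk (continuous_pi fun _ => this _)
    let F : Set (range π) := {m | m.1.1 = 0}
    let q : W → F := fun β => ⟨⟨π ⟨s β, Or.inr ⟨β, rfl⟩⟩, _, rfl⟩, rfl⟩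
    have hq : Function.Surjective q := by
      rintro ⟨⟨_, ⟨_, h | ⟨β, rfl⟩⟩, rfl⟩, h'⟩
      exacts [absurd h' h, ⟨β, rfl⟩]
    let v : F → ℝ := fun m => if h : ∃ β : Iic α, m.1.1.2 β = 1 then b (e h.choose) j else c
    have v1 : ∀ β, v (q β) = b (e β) j := fun β => by
      have : ∀ γ : Iic α, (q β).1.1.2 γ = 1 → γ = β := fun γ h => by_contra fun hn => by
        have : t β γ = 1 := h
        linarith [t1 β γ hn]
      simp only [v]
      split_ifs with h
      · rw [this _ h.choose_spec]
      · by_contra hn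
        exact h ⟨⟨β, (hα β (Ne.symm hn)).le⟩, t2 β⟩
    have co : ∀ γ, Continuous fun m : F => m.1.1.2 γ := fun γ => by fun_prop
    have v2 : Continuous v := continuous_iff_continuousAt.2 (hq.forall.2 fun β => by
      refine (continuousAt_const (y := b (e β) j)).congr ?_
      by_cases hb : β ≤ α
      · filter_upwards [(isOpen_lt (continuous_const (y := (1 / 2 : ℝ))) (co ⟨β, hb⟩)).mem_nhds
          (show 1 / 2 < t β β by rw [t2]; norm_num)]
        refine hq.forall.2 fun δ hδ => ?_
        rw [v1, show β = δ from by_contra fun hn => (t1 δ β hn).not_gt hδ]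
      · filter_upwards [(isOpen_Ioo.preimage (co ⟨α, le_rfl⟩)).mem_nhds (show t β α ∈ Ioo 0 1 from
          ⟨t4 _ _ (not_le.1 hb), (t1 _ _ (not_le.1 hb).ne).trans_lt (by norm_num)⟩)]
        refine hq.forall.2 fun δ (hδ : t δ α ∈ Ioo 0 1) => ?_
        have k : ∀ δ, α < δ → b (e δ) j = c := fun δ hd => by_contra fun hn => (hα δ hn).not_gt hd
        rw [v1, k β (not_le.1 hb), k δ]
        rcases lt_trichotomy α δ with h | rfl | h
        exacts [h, absurd (t2 _) hδ.2.ne, absurd (t3 _ _ h) hδ.1.ne'])
    obtain ⟨g, hg⟩ := ContinuousMap.exists_restrict_eq (s := F)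
      (isClosed_eq (by fun_prop) continuous_const) ⟨v, v2⟩
    exact ⟨fun f => g ⟨π f, _, rfl⟩, g.2.comp (hπ.subtype_mk _), fun β =>
      (DFunLike.congr_fun hg (q β)).trans (v1 β)⟩
  choose ψ p1 p2 using ext
  refine ⟨fun f j => ψ j f, continuous_pi p1, ?_⟩
  rintro _ ⟨a, rfl⟩
  exact ⟨_, funext fun j => (p2 j (e.symm a)).trans (by simp)⟩

omit [LinearOrder W] [Uncountable W] in
lemma eber : ∃ e : OnePoint W → Cp (OnePoint W), IsEmbedding e := by
  classical
  have c : ∀ w : W, Continuous fun x : OnePoint W => if x = w then (1 : ℝ) else 0 := fun w => by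
    rw [continuous_iff_from_discrete]
    refine tendsto_const_nhds.congr' ?_
    filter_upwards [eventually_cofinite_ne w] with a ha
    simp [ha]
  let e : OnePoint W → Cp (OnePoint W) := fun x => x.elim ⟨0, continuous_const⟩ fun w => ⟨_, c w⟩
  refine ⟨e, (Continuous.isClosedEmbedding ?_ ?_).isEmbedding⟩
  · rw [continuous_iff_from_discrete]
    refine tendsto_subtype_rng.2 (tendsto_pi_nhds.2 fun x => tendsto_const_nhds.congr' ?_)
    filter_upwards [coe_injective.tendsto_cofinite.eventually (eventually_cofinite_ne x)] with a ha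
    simp [e, ha.symm]
  · intro x y h
    have h1 := congrFun (congrArg Subtype.val h) x
    have h2 := congrFun (congrArg Subtype.val h) y
    induction x using OnePoint.rec <;> induction y using OnePoint.rec
    exacts [rfl, by simp [e] at h2, by simp [e] at h1, by simpa [e] using h1]

end

/-- countable tightness -/
def Tight (Z : Type) [TopologicalSpace Z] : Prop :=
  ∀ (A : Set Z), ∀ z ∈ closure A, ∃ A' ⊆ A, A'.Countable ∧ z ∈ closure A'

/-- monolithic: closures of infinite sets `A` have a network of size at most `|A|` -/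
def Monol (Z : Type) [TopologicalSpace Z] : Prop :=
  ∀ (A : Set Z), A.Infinite → ∃ N : Set (Set (closure A)), Cardinal.mk N ≤ Cardinal.mk A ∧
    ∀ U : Set (closure A), IsOpen U → ∀ x ∈ U, ∃ M ∈ N, x ∈ M ∧ M ⊆ U

/-- a compact subset `B` of a continuous Tychonoff image of `S` fails `P` -/
def Bad (S : Type) [TopologicalSpace S] (P : ∀ (Z : Type) [TopologicalSpace Z], Prop) : Prop :=
  ∃ (Y : Type) (_ : TopologicalSpace Y) (_ : T35Space Y) (φ : S → Y), Continuous φ ∧
    Function.Surjective φ ∧ ∃ B : Set Y, IsCompact B ∧ ¬ P B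

lemma bad {S T J : Type} [TopologicalSpace S] {b : T → J → ℝ} (h : IsCompact (range b))
    (h' : ∃ φ : S → J → ℝ, Continuous φ ∧ range b ⊆ range φ)
    {P : ∀ (Z : Type) [TopologicalSpace Z], Prop} (hP : ∀ (Z : Type) [TopologicalSpace Z]
      (i : Z → J → ℝ) (p : T → Z), IsEmbedding i → Function.Surjective p → (∀ t, i (p t) = b t) →
        ¬ P Z) : Bad S P := by
  obtain ⟨φ, h1, h2⟩ := h'
  refine ⟨range φ, inferInstance, inferInstance, rangeFactorization φ, h1.rangeFactorization,
    rangeFactorization_surjective, Subtype.val ⁻¹' range b, IsInducing.subtypeVal.isCompact_preimage'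
      h (by rwa [Subtype.range_coe]), hP _ _ (fun t => ⟨⟨b t, h2 ⟨t, rfl⟩⟩, t, rfl⟩)
      (IsEmbedding.subtypeVal.comp .subtypeVal) ?_ fun _ => rfl⟩
  rintro ⟨y, t, ht⟩
  exact ⟨t, Subtype.ext (Subtype.ext ht)⟩

theorem main : ∃ (X : Type) (_ : TopologicalSpace X) (_ : T35Space X), CompactSpace X ∧
    (∃ (K : Type) (_ : TopologicalSpace K) (_ : T35Space K), CompactSpace K ∧
      ∃ e : X → Cp K, IsEmbedding e) ∧ ∃ S : Set (Cp X), Dense S ∧ Bad S Tight ∧
      Bad S (fun Z _ => SequentialSpace Z) ∧ Bad S Monol := by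
  classical
  obtain ⟨W, _, _, _, hW, hc⟩ : ∃ (W : Type) (_ : LinearOrder W) (_ : WellFoundedLT W),
      Uncountable W ∧ (∀ a : W, (Iic a).Countable) ∧ Cardinal.mk W = Cardinal.aleph 1 := by
    refine ⟨(Cardinal.aleph 1).ord.ToType, inferInstance, inferInstance, ?_, fun a => ?_, by simp⟩
    · rw [← Cardinal.aleph0_lt_mk_iff]; simp
    · rw [← Iio_insert]
      refine Countable.insert _ ?_
      rw [← Cardinal.le_aleph0_iff_set_countable, ← Cardinal.lt_aleph_one_iff]
      simpa using Cardinal.mk_Iio_lt a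
  let : TopologicalSpace W := ⊥
  have : DiscreteTopology W := ⟨rfl⟩
  obtain ⟨S, s1, s2⟩ := machine hW
  obtain ⟨e1⟩ : Nonempty (W ≃ Option W) := Cardinal.eq.1 (by simp)
  obtain ⟨e2⟩ : Nonempty (W ≃ Option (List Bool ⊕ W)) := Cardinal.eq.1 (by
    simp [hc, Cardinal.add_eq_right (Cardinal.aleph0_le_aleph 1) (Cardinal.aleph0_le_aleph 1)])
  obtain ⟨ι⟩ : Nonempty (W ↪ (ℕ → Bool)) := by
    rw [← Cardinal.le_def]; simpa [hc] using Cardinal.aleph_one_le_continuum
  let b : Option W → W → ℝ := fun a j => a.elim 0 fun a => if a ≤ j then 1 else 0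
  have b1 := s2 _ _ e1 b fun j => ⟨0, ((hW j).image some).mono (by
    rintro (_ | a) h <;> simp_all [b])⟩
  have b2 : IsCompact (range b) := by
    have : range b = pi univ (fun _ => {0, 1}) ∩ ⋂ i, ⋂ j, ⋂ _ : i ≤ j, {u | u i ≤ u j} := by
      refine Subset.antisymm ?_ fun u ⟨u1, u2⟩ => ?_
      · rintro _ ⟨_ | a, rfl⟩
        · simp [b]
        · simp only [b, mem_inter_iff, Set.mem_pi, mem_iInter, mem_ofPred_eq, Option.elim_some]
          refine ⟨fun j _ => by split_ifs <;> simp, fun i j h => ?_⟩
          split_ifs with h1 h2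
          exacts [le_rfl, absurd (h1.trans h) h2, zero_le_one, le_rfl]
      simp only [mem_iInter, mem_ofPred_eq] at u2
      rcases {j | u j ≠ 0}.eq_empty_or_nonempty with h | h
      · exact ⟨none, funext fun j => (not_not.1 (eq_empty_iff_forall_notMem.1 h j)).symm⟩
      refine ⟨some (wellFounded_lt.min _ h), funext fun j => ?_⟩
      have m := (u1 _ trivial).resolve_left (wellFounded_lt.min_mem _ h)
      simp only [b, Option.elim_some]
      split_ifs with k
      · refine ((u1 j trivial).resolve_left fun e => ?_).symm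
        have := u2 _ _ k
        rw [e, m] at this
        norm_num at this
      · exact (by_contra fun hn => wellFounded_lt.not_lt_min _ hn (not_le.1 k) : u j = 0).symm
    rw [this]
    exact (isCompact_univ_pi fun _ => (toFinite _).isCompact).inter_right (isClosed_iInter fun i =>
      isClosed_iInter fun j => isClosed_iInter fun _ => isClosed_le (by fun_prop) (by fun_prop))
  have b3 : ∀ (Z : Type) [TopologicalSpace Z] (i : Z → W → ℝ) (p : Option W → Z), IsEmbedding i →
      (∀ t, i (p t) = b t) → p none ∈ closure (range (p ∘ some)) ∧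
        ∀ A ⊆ range (p ∘ some), A.Countable → p none ∉ closure A := fun Z _ i p i1 i2 => by
    constructor
    · refine mem_closure_of_tendsto (b := atTop) (i1.tendsto_nhds_iff.2 (tendsto_pi_nhds.2 fun j =>
        tendsto_const_nhds.congr' ?_)) (.of_forall mem_range_self)
      obtain ⟨k, hk⟩ := H5E.W1_bdd hW (countable_singleton j)
      filter_upwards [eventually_ge_atTop k] with a ha
      simp [i2, b, (hk j rfl).trans_le ha]
    · intro A a1 a2 a3
      obtain ⟨k, hk⟩ := H5E.W1_bdd hW (a2.preimage (f := p ∘ some) fun a a' e => by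
        have h1 := congrArg (fun z => i z a) e
        have h2 := congrArg (fun z => i z a') e
        exact le_antisymm (by simpa [i2, b] using h2) (by simpa [i2, b] using h1))
      have := closure_minimal (t := {z | i z k = 1}) (fun z hz => by
        obtain ⟨a, rfl⟩ := a1 hz
        simp [i2, b, (hk a hz).le]) (isClosed_eq ((continuous_apply k).comp i1.continuous)
        continuous_const) a3
      simp [i2, b] at this
  let r : List Bool ⊕ W → List Bool ⊕ W → Prop := fun a j => a = j ∨
    ∃ w n, j = .inr w ∧ a = .inl (res (ι w) n)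
  let c : Option (List Bool ⊕ W) → List Bool ⊕ W → ℝ := fun a j =>
    a.elim 0 fun a => if r a j then 1 else 0
  have c1 := s2 _ _ e2 c fun j => ⟨0, (((countable_range Sum.inl).insert j).image some).mono (by
    rintro (_ | a) h
    · simp [c] at h
    · refine mem_image_of_mem _ ?_
      have : r a j := by simpa [c] using h
      exact this.imp id fun ⟨_, _, _, h⟩ => ⟨_, h.symm⟩)⟩
  have c2 : ∀ w, Tendsto (fun n => c (some (.inl (res (ι w) n)))) atTop (𝓝 (c (some (.inr w)))) :=
    fun w => tendsto_pi_nhds.2 fun j => tendsto_const_nhds.congr' <| by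
      rcases j with l | w'
      · filter_upwards [eventually_gt_atTop l.length] with n hn
        have : res (ι w) n ≠ l := by rintro rfl; simp at hn
        simp [c, r, this]
      · by_cases h : w = w'
        · exact .of_forall fun n => by simp [c, r, h]
        · filter_upwards [H5E.res_ne (ι.injective.ne h)] with n hn
          have : ∀ m, res (ι w) n ≠ res (ι w') m := fun m e => hn ⟨m, e.symm⟩
          simp [c, r, h, this]
  have c3 : IsCompact (range c) := isCompact_iff_ultrafilter_le_nhds.2 fun f hf => by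
    rw [le_principal_iff] at hf
    by_cases h : ∀ j, {u | u j = 0} ∈ f
    · exact ⟨0, ⟨none, rfl⟩, tendsto_pi_nhds.2 fun j => tendsto_const_nhds.congr'
        (mem_of_superset (h j) fun u hu => Eq.symm hu)⟩
    obtain ⟨j, hj⟩ := not_forall.1 h
    obtain ⟨L, l1, l2, l3⟩ : ∃ L, IsCompact L ∧ L ⊆ range c ∧ ∀ a, r a j → c (some a) ∈ L := by
      rcases j with l | w
      · exact ⟨{c (some (.inl l))}, isCompact_singleton, by simp, fun a ha => by simp_all [r]⟩
      · refine ⟨_, (c2 w).isCompact_insert_range, insert_subset ⟨_, rfl⟩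
          (range_subset_iff.2 fun _ => ⟨_, rfl⟩), ?_⟩
        rintro _ (rfl | ⟨_, n, ⟨⟩, rfl⟩)
        exacts [Or.inl rfl, Or.inr ⟨n, rfl⟩]
    obtain ⟨x, x1, x2⟩ := isCompact_iff_ultrafilter_le_nhds.1 l1 f (le_principal_iff.2
      (mem_of_superset (inter_mem hf (Ultrafilter.compl_mem_iff_notMem.2 hj)) (by
        rintro _ ⟨⟨_ | a, rfl⟩, h⟩
        · simp [c] at h
        · exact l3 a (by simpa [c] using h))))
    exact ⟨x, l2 x1, x2⟩
  refine ⟨OnePoint W, inferInstance, inferInstance, inferInstance, ⟨_, inferInstance, inferInstance,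
    inferInstance, eber⟩, S, s1, bad b2 b1 fun Z _ i p i1 _ i2 h => ?_,
    bad b2 b1 fun Z _ i p i1 p1 i2 h => ?_, bad c3 c1 fun Z _ i p i1 _ i2 h => ?_⟩
  · obtain ⟨A, a1, a2, a3⟩ := h _ _ (b3 Z i p i1 i2).1
    exact (b3 Z i p i1 i2).2 A a1 a2 a3
  · have : IsSeqClosed (range (p ∘ some)) := fun u z hu hz => by
      obtain ⟨_ | a, rfl⟩ := p1 z
      · exact absurd (mem_closure_of_tendsto hz (.of_forall mem_range_self))
          ((b3 Z i p i1 i2).2 _ (range_subset_iff.2 hu) (countable_range _))
      · exact ⟨a, rfl⟩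
    exact (b3 Z i p i1 i2).2 _ (singleton_subset_iff.2 (this.isClosed.closure_subset
      (b3 Z i p i1 i2).1)) (countable_singleton _) (subset_closure rfl)
  · obtain ⟨N, n1, n2⟩ := h (range fun l => p (some (.inl l))) (infinite_range_of_injective
      fun l l' e => by simpa [i2, c, r, eq_comm] using congrArg (fun z => i z (.inl l)) e)
    have : Countable N := Cardinal.mk_le_aleph0_iff.1
      (n1.trans (Cardinal.le_aleph0_iff_set_countable.2 (countable_range _)))
    let q : W → closure (range fun l => p (some (.inl l))) := fun w => ⟨p (some (.inr w)),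
      mem_closure_of_tendsto (b := atTop) (f := fun n => p (some (.inl (res (ι w) n))))
        (i1.tendsto_nhds_iff.2 (by simpa [Function.comp_def, i2] using c2 w))
        (.of_forall fun _ => ⟨_, rfl⟩)⟩
    choose M m1 m2 m3 using fun w => n2 {z | i z.1 (.inr w) ≠ 0} (isOpen_ne_fun
      ((continuous_apply _).comp (i1.continuous.comp continuous_subtype_val)) continuous_const)
      (q w) (by simp [q, i2, c, r])
    refine not_countable (α := W) (Function.Injective.countable
      (f := fun w => (⟨M w, m1 w⟩ : N)) fun w w' e => ?_)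
    have e' : M w = M w' := congrArg Subtype.val e
    have k : i (p (some (.inr w))) (.inr w') ≠ 0 := m3 w' (e' ▸ m2 w)
    simpa [i2, c, r] using k

end H5D
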