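import Pool.Agent.Lib.helper5.Cube

/-! Consequences for extenders. -/

open Set Filter Topology

namespace H5C

universe u

lemma cp_net {X Z : Type*} [TopologicalSpace X] [TopologicalSpace Z] [SecondCountableTopology Z]
    (ρ : X → Z) (R : Set (Cp X))
    (h : ∀ g ∈ R, ∃ g' : Z → ℝ, Continuous g' ∧ ∀ v, g.1 v = g' (ρ v)) :
    ∃ 𝒩 : Set (Set (Cp X)), 𝒩.Countable ∧
      ∀ x ∈ R, ∀ U, IsOpen U → x ∈ U → ∃ N ∈ 𝒩, x ∈ N ∧ N ⊆ U ∩ R := by
  classical
  let N : Finset (TopologicalSpace.countableBasis Z × ℚ × ℚ) → Set (Cp X) := fun t =>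
    {g ∈ R | ∀ p ∈ t, ∀ v, ρ v ∈ p.1.1 → g.1 v ∈ Ioo (p.2.1 : ℝ) p.2.2}
  refine ⟨range N, countable_range N, fun x hx U hU hxU => ?_⟩
  obtain ⟨G, ε, e1, e2⟩ := cp_nhds hU hxU
  obtain ⟨g', g1, g2⟩ := h x hx
  have : ∀ v, ∃ p : TopologicalSpace.countableBasis Z × ℚ × ℚ, ρ v ∈ p.1.1 ∧
      x.1 v - ε < p.2.1 ∧ (p.2.2 : ℝ) < x.1 v + ε ∧ p.1.1 ⊆ g' ⁻¹' Ioo (p.2.1 : ℝ) p.2.2 := by
    intro v
    obtain ⟨q, q1, q2⟩ := exists_rat_btwn (sub_lt_self (x.1 v) e1)
    obtain ⟨r, r1, r2⟩ := exists_rat_btwn (lt_add_of_pos_right (x.1 v) e1)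
    obtain ⟨B, b1, b2, b3⟩ := (TopologicalSpace.isBasis_countableBasis Z).exists_subset_of_mem_open
      (a := ρ v) (u := g' ⁻¹' Ioo (q : ℝ) r) (by rw [mem_preimage, ← g2]; exact ⟨q2, r1⟩)
      (isOpen_Ioo.preimage g1)
    exact ⟨(⟨B, b1⟩, q, r), b2, q1, r2, b3⟩
  choose p p1 p2 p3 p4 using this
  refine ⟨N (G.image p), mem_range_self _, ⟨hx, fun q hq v hv => ?_⟩, fun g hg => ⟨?_, hg.1⟩⟩
  · obtain ⟨y, -, rfl⟩ := Finset.mem_image.1 hq
    rw [g2]; exact p4 y hv
  · refine e2 g fun v hv => ?_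
    have := hg.2 _ (Finset.mem_image_of_mem p hv) v (p1 v)
    rw [Real.dist_eq, abs_lt]
    constructor <;> linarith [this.1, this.2, p2 v, p3 v]

lemma exists_section {Λ E : Type*} [TopologicalSpace E] [Nonempty E] (S : Set Λ) :
    ∃ s : (S → E) → Λ → E, Continuous s ∧ ∀ v, ∀ a ∈ S, s (S.domRestrict v) a = v a := by
  classical
  refine ⟨fun z a => if h : a ∈ S then z ⟨a, h⟩ else Classical.arbitrary E,
    continuous_pi fun a => ?_, fun v a ha => by simp [ha]⟩
  by_cases h : a ∈ S
  · simp only [dif_pos h]; exact continuous_apply _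
  · simp only [dif_neg h]; exact continuous_const

theorem net_td {Λ K : Type*} [TopologicalSpace K] [CompactSpace K] [T2Space K]
    [TotallyDisconnectedSpace K] (φ : Cp K → Cp (Λ → unitInterval)) (hφ : Continuous φ) :
    ∃ 𝒩 : Set (Set (Cp (Λ → unitInterval))), 𝒩.Countable ∧
      ∀ x ∈ range φ, ∀ U, IsOpen U → x ∈ U → ∃ N ∈ 𝒩, x ∈ N ∧ N ⊆ U ∩ range φ := by
  obtain ⟨S, hS, h⟩ := thmA (K := K) rigid_of_td (Φ := fun f => (φ f).1) (fun f => (φ f).2)
    fun u => (continuous_apply u).comp (continuous_subtype_val.comp hφ)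
  have := hS.to_subtype
  obtain ⟨s, s1, s2⟩ := exists_section (E := unitInterval) S
  refine cp_net S.domRestrict _ ?_
  rintro _ ⟨f, rfl⟩
  exact ⟨_, (φ f).2.comp s1, fun v => h f _ _ fun a ha => (s2 v a ha).symm⟩

lemma sep_of_ext {Λ E K : Type*} [PseudoMetricSpace E] [TopologicalSpace.SeparableSpace E]
    [Nonempty E] [TopologicalSpace K] [CompactSpace K] [T2Space K] (H : Rigid Λ E K)
    {e : K → Λ → E} {φ : Cp K → Cp (Λ → E)} (hφ : Continuous φ) (h : ∀ f x, (φ f).1 (e x) = f.1 x) :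
    ∃ S : Set Λ, S.Countable ∧ ∀ x y, (∀ a ∈ S, e x a = e y a) → x = y := by
  classical
  obtain ⟨S, hS, h'⟩ := thmA H (Φ := fun f => (φ f).1) (fun f => (φ f).2)
    fun u => (continuous_apply u).comp (continuous_subtype_val.comp hφ)
  refine ⟨S, hS, fun x y hxy => ?_⟩
  by_contra hne
  obtain ⟨g, g1, g2, g3⟩ := interp {x} (fun _ => 1) (isClosed_singleton (x := y)) (by simpa)
  have := h' ⟨g, g1⟩ _ _ hxy
  rw [h, h] at this
  simp only [g2 x (by simp), g3 y rfl] at this
  exact one_ne_zero this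

lemma face_open' {Λ E : Type*} [TopologicalSpace E] {U : Set (Λ → E)} (hU : IsOpen U) {u : Λ → E}
    (hu : u ∈ U) : ∃ G : Finset Λ, F (G : Set Λ) u ⊆ U := by
  obtain ⟨G, t, h1, h2⟩ := isOpen_pi_iff.1 hU u hu
  exact ⟨G, fun v hv => h2 fun a ha => by rw [hv a ha]; exact (h1 a ha).2⟩

lemma not_sep {ι Λ E : Type*} [Uncountable ι] [MetricSpace E] {e : (ι → Bool) → Λ → E}
    (he : Continuous e) {S : Set Λ} (hS : S.Countable) :
    ∃ x y, x ≠ y ∧ ∀ a ∈ S, e x a = e y a := by
  classical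
  have : ∀ (a : Λ) (n : ℕ), ∃ G : Finset ι, F (G : Set ι) (fun _ => false) ⊆
      {x | dist (e x a) (e (fun _ => false) a) < 1 / (n + 1)} := fun a n =>
    face_open' (isOpen_lt (by fun_prop) continuous_const)
      (by simp; positivity)
  choose G hG using this
  obtain ⟨i, hi⟩ : ∃ i, i ∉ ⋃ a ∈ S, ⋃ n, (G a n : Set ι) := by
    by_contra hn
    push Not at hn
    exact not_countable_univ ((hS.biUnion fun a _ => countable_iUnion fun n =>
      (G a n).countable_toSet).mono fun i _ => hn i)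
  refine ⟨Pi.single i true, fun _ => false, fun h => by simpa using congrFun h i, fun a ha => ?_⟩
  refine eq_of_forall_dist_le fun ε hε => ?_
  obtain ⟨n, hn⟩ := exists_nat_one_div_lt hε
  refine ((hG a n fun j hj => Pi.single_eq_of_ne ?_ _).trans hn).le
  rintro rfl
  exact hi (mem_biUnion ha (mem_iUnion.2 ⟨n, hj⟩))

lemma uncountable_of_aleph {ι : Type} (h : Cardinal.mk ι = Cardinal.aleph 1) : Uncountable ι := by
  rw [← Cardinal.aleph0_lt_mk_iff, h]; exact Cardinal.aleph0_lt_aleph_one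

lemma not_tight {ι K : Type*} [Uncountable ι] [TopologicalSpace K] {e : (ι → Bool) → K}
    (he : IsEmbedding e) : ¬ ∀ (A : Set K) (x : K), x ∈ closure A →
      ∃ C : Set K, C ⊆ A ∧ C.Countable ∧ x ∈ closure C := by
  classical
  intro h
  obtain ⟨C, c1, c2, c3⟩ := h (e '' {x | {i | x i = true}.Finite}) (e fun _ => true) (by
    refine image_closure_subset_closure_image he.continuous (mem_image_of_mem e ?_)
    refine mem_closure_iff.2 fun U hU hu => ?_
    obtain ⟨G, t, h1, h2⟩ := isOpen_pi_iff.1 hU _ hu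
    refine ⟨fun i => decide (i ∈ G), h2 fun i hi => ?_, by simp⟩
    simpa [Finset.mem_coe.1 hi] using (h1 i hi).2)
  obtain ⟨i, hi⟩ : ∃ i, i ∉ ⋃ x ∈ e ⁻¹' C, {i | x i = true} := by
    by_contra hn
    push Not at hn
    refine not_countable_univ (((c2.preimage he.injective).biUnion fun x hx => ?_).mono
      fun i _ => hn i)
    obtain ⟨y, hy, e1⟩ := c1 hx
    exact (he.injective e1 ▸ hy : {i | x i = true}.Finite).countable
  have : C = e '' (e ⁻¹' C) := (image_preimage_eq_of_subset (c1.trans (image_subset_range _ _))).symm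
  rw [this] at c3
  have h2 : (fun _ => true) ∈ closure (e ⁻¹' C) := by rw [he.closure_eq_preimage_closure_image]; exact c3
  obtain ⟨x, x1, x2⟩ := mem_closure_iff.1 h2 {x | x i = true}
    ((isOpen_discrete {true}).preimage (f := fun x : ι → Bool => x i) (continuous_apply i)) rfl
  exact hi (mem_biUnion x2 x1)

/-- `X` is t-embedded in every Tychonoff space containing it as a closed subspace -/
def TE (X : Type u) [TopologicalSpace X] : Prop :=
  ∀ (Z : Type u) [TopologicalSpace Z] [T35Space Z] (e : X → Z), IsClosedEmbedding e →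
    ∃ φ : Cp X → Cp Z, Continuous φ ∧ ∀ f x, (φ f).1 (e x) = f.1 x

lemma cube_emb (K : Type u) [TopologicalSpace K] [CompactSpace K] [T2Space K] :
    IsClosedEmbedding fun (y : K) (f : C(K, unitInterval)) => f y := by
  refine Continuous.isClosedEmbedding (by fun_prop) fun x y h => ?_
  by_contra hne
  obtain ⟨g, g1, g2, g3⟩ := CompletelyRegularSpace.completely_regular x {y} isClosed_singleton hne
  have := congrFun h ⟨g, g1⟩
  simp only [ContinuousMap.coe_mk, g2, g3 rfl] at this
  exact zero_ne_one this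

lemma TE.compact {X : Type u} [TopologicalSpace X] [T35Space X] (h : TE X) : CompactSpace X := by
  classical
  have hb : IsEmbedding (stoneCechUnit : X → StoneCech X) := isEmbedding_stoneCechUnit
  suffices hs : ∀ p, p ∈ range (stoneCechUnit : X → StoneCech X) by
    refine ⟨hb.isCompact_iff.2 ?_⟩
    rw [image_univ, eq_univ_of_forall hs]; exact isCompact_univ
  intro p
  by_contra hp
  let J := C(StoneCech X, unitInterval)
  let L := Set (Cp (StoneCech X) × ℕ × ℕ)
  let k : StoneCech X → J ⊕ L → unitInterval := fun y => Sum.elim (fun f => f y) 0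
  have hk : IsEmbedding k := by
    refine IsEmbedding.of_comp (g := fun z f => z (Sum.inl f)) (continuous_pi fun a => ?_)
      (by fun_prop) (cube_emb _).isEmbedding
    rcases a with f | l
    · exact f.continuous
    · exact continuous_const
  let Z : Set (J ⊕ L → unitInterval) := {z | (∃ l, z (.inr l) ≠ 0) ∨ z ∈ range (k ∘ stoneCechUnit)}
  have hZ : Dense Z := dense_iff_inter_open.2 fun U hU ⟨v, hv⟩ => by
    obtain ⟨G, hG⟩ := face_open hU hv
    have : Infinite L := Infinite.of_injective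
      (fun n : ℕ => ({(⟨0, continuous_const⟩, n, 0)} : L)) fun a b h =>
        congrArg (fun q => q.2.1) (singleton_injective h)
    obtain ⟨l, hl⟩ := Infinite.exists_notMem_finset G.toRight
    refine ⟨Function.update v (.inr l) 1, hG fun a ha => Function.update_of_ne ?_ _ _,
      Or.inl ⟨l, by simp⟩⟩
    rintro rfl
    exact hl (Finset.mem_toRight.2 ha)
  let e : X → Z := fun x => ⟨k (stoneCechUnit x), Or.inr ⟨x, rfl⟩⟩
  have he : IsClosedEmbedding e := by
    refine ⟨IsEmbedding.of_comp (g := Subtype.val) ((hk.comp hb).continuous.subtype_mk _)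
      continuous_subtype_val (hk.comp hb), ?_⟩
    have : range e = ⋂ l, {z : Z | z.1 (.inr l) = 0} := by
      ext z
      simp only [mem_iInter, mem_ofPred_eq]
      refine ⟨by rintro ⟨x, rfl⟩ l; rfl, fun hz => ?_⟩
      rcases z.2 with ⟨l, hl⟩ | ⟨x, hx⟩
      · exact (hl (hz l)).elim
      · exact ⟨x, Subtype.ext hx⟩
    rw [this]
    exact isClosed_iInter fun l => isClosed_eq
      ((continuous_apply _).comp continuous_subtype_val) continuous_const
  obtain ⟨φ, h1, h2⟩ := h Z e he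
  let r : Cp (StoneCech X) → Cp X := fun f => ⟨f.1 ∘ stoneCechUnit, f.2.comp hb.continuous⟩
  have : ∀ (f : Cp (StoneCech X)) (n : ℕ), ∃ en : ℕ → L, ∀ z : Z,
      (∀ j, z.1 (.inl j) = j p) → (∀ m, z.1 (.inr (en m)) = 0) →
      dist ((φ (r f)).1 z) (f.1 p) ≤ 1 / (n + 1) := by
    intro f n
    have ho : IsOpen {z : Z | dist ((φ (r f)).1 z) (f.1 p) < 1 / (n + 1)} :=
      isOpen_lt (by have := (φ (r f)).2; fun_prop) continuous_const
    obtain ⟨W, w1, w2⟩ := isOpen_induced_iff.1 ho
    have hp : k p ∈ closure W := by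
      have h3 : p ∈ closure ({y | dist (f.1 y) (f.1 p) < 1 / (n + 1)} ∩ range stoneCechUnit) :=
        denseRange_stoneCechUnit.open_subset_closure_inter
          (isOpen_lt (by have := f.2; fun_prop) continuous_const) (by simp; positivity)
      refine map_mem_closure hk.continuous h3 ?_
      rintro _ ⟨y1, x, rfl⟩
      have : e x ∈ Subtype.val ⁻¹' W := by rw [w2, mem_ofPred_eq, h2]; exact y1
      exact this
    obtain ⟨S, s1, s2⟩ := face_closure w1 hp
    obtain ⟨en, hen⟩ := countable_iff_exists_subset_range.1 (s1.preimage Sum.inr_injective)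
    refine ⟨en, fun z z1 z2 => ?_⟩
    have h3 : z.1 ∈ closure W := s2 fun a ha => by
      rcases a with j | l
      · exact z1 j
      · obtain ⟨m, rfl⟩ := hen ha
        exact z2 m
    have h4 : z ∈ closure (Subtype.val ⁻¹' W : Set Z) := by
      rw [IsEmbedding.subtypeVal.closure_eq_preimage_closure_image, Subtype.image_preimage_coe,
        inter_comm]
      exact closure_minimal (hZ.open_subset_closure_inter w1) isClosed_closure h3
    rw [w2] at h4
    have h5 : IsClosed {z : Z | dist ((φ (r f)).1 z) (f.1 p) ≤ 1 / (n + 1)} :=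
      isClosed_le (by have := (φ (r f)).2; fun_prop) continuous_const
    exact closure_minimal (ofPred_subset_ofPred.2 fun z hz => le_of_lt hz) h5 h4
  choose en hen using this
  obtain ⟨l, hl⟩ : ∃ l, l ∉ range fun q : Cp (StoneCech X) × ℕ × ℕ => en q.1 q.2.1 q.2.2 := by
    by_contra hn
    push Not at hn
    exact Function.cantor_surjective _ hn
  let z : Z := ⟨Function.update (k p) (.inr l) 1, Or.inl ⟨l, by simp⟩⟩
  have hz : ∀ f, (φ (r f)).1 z = f.1 p := fun f => eq_of_forall_dist_le fun ε hε => by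
    obtain ⟨n, hn⟩ := exists_nat_one_div_lt hε
    refine (hen f n z (fun j => Function.update_of_ne (Sum.inl_ne_inr (b := l)) 1 (k p)) fun m => ?_).trans hn.le
    exact Function.update_of_ne (fun h => hl ⟨(f, n, m), Sum.inr_injective h⟩) _ _
  obtain ⟨G, ε, e1, e2⟩ := cp_nhds (f := r ⟨0, continuous_const⟩) (isOpen_lt
    ((continuous_apply z).comp (continuous_subtype_val.comp h1)) (continuous_const (y := 1)))
    (by show (φ _).1 z < 1; rw [hz]; exact zero_lt_one)
  obtain ⟨g, g1, g2, g3⟩ := interp {p} (fun _ => 1)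
    (G.finite_toSet.image stoneCechUnit).isClosed
    (by simpa using fun x _ h => hp ⟨x, h⟩)
  have : (φ _).1 z < 1 := e2 (r ⟨g, g1⟩) fun x hx => by
    simpa [r, g3 _ (mem_image_of_mem _ hx)] using e1
  rw [hz] at this
  exact this.ne (g2 p (by simp))

lemma TE.cantor {X : Type u} [TopologicalSpace X] [T35Space X] (h : TE X)
    (hm : ¬ TopologicalSpace.MetrizableSpace X) (ι : Type) (hι : Cardinal.mk ι = Cardinal.aleph 1) :
    ∃ e : (ι → Bool) → X, IsEmbedding e := by
  have := h.compact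
  obtain ⟨φ, h1, h2⟩ := h _ _ (cube_emb X)
  by_cases H : Rigid C(X, unitInterval) unitInterval X
  · obtain ⟨S, hS, hS'⟩ := sep_of_ext H h1 h2
    have := hS.to_subtype
    have : IsClosedEmbedding fun (x : X) (a : S) => a.1 x :=
      Continuous.isClosedEmbedding (by fun_prop) fun x y e => hS' x y fun a ha => congrFun e ⟨a, ha⟩
    exact (hm this.isEmbedding.metrizableSpace).elim
  · simp only [Rigid, not_forall] at H
    obtain ⟨x, hx, H⟩ := H
    refine thmB hx 0 (fun S hS => ?_) ι hι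
    by_contra hn
    push Not at hn
    exact H ⟨_, isFace_F hS 0, x 0, fun u hu => hn u hu 0 (self_mem _ _)⟩

end H5C
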