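import Mathlib

/-! Countable-support faces of a product space. -/

open Set Filter Topology

namespace H5C

variable {Λ : Type*} {E : Type*}

/-- the face through `w` with fixed coordinates `S` -/
def F (S : Set Λ) (w : Λ → E) : Set (Λ → E) := {u | ∀ a ∈ S, u a = w a}

def IsFace (A : Set (Λ → E)) : Prop := ∃ S : Set Λ, S.Countable ∧ ∃ w, A = F S w

lemma self_mem (S : Set Λ) (w : Λ → E) : w ∈ F S w := fun _ _ => rfl

lemma isFace_F {S : Set Λ} (h : S.Countable) (w : Λ → E) : IsFace (F S w) := ⟨S, h, w, rfl⟩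

lemma F_eq {S : Set Λ} {w u : Λ → E} (h : u ∈ F S w) : F S u = F S w := by
  ext v; exact forall₂_congr fun a ha => by rw [h a ha]

lemma F_mono {S T : Set Λ} (h : S ⊆ T) (w : Λ → E) : F T w ⊆ F S w := fun _ hu a ha => hu a (h ha)

lemma IsFace.nonempty {A : Set (Λ → E)} (h : IsFace A) : A.Nonempty := by
  obtain ⟨S, -, w, rfl⟩ := h; exact ⟨w, self_mem S w⟩

lemma IsFace.sub {A : Set (Λ → E)} (h : IsFace A) {u : Λ → E} (hu : u ∈ A) {T : Set Λ}
    (hT : T.Countable) : ∃ B, IsFace B ∧ B ⊆ A ∧ B ⊆ F T u ∧ u ∈ B := by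
  obtain ⟨S, hS, w, rfl⟩ := h
  refine ⟨F (S ∪ T) u, isFace_F (hS.union hT) u, ?_, F_mono subset_union_right u, self_mem _ _⟩
  rw [← F_eq hu]; exact F_mono subset_union_left u

lemma exists_face_iInter {A : ℕ → Set (Λ → E)} (h : ∀ n, IsFace (A n)) (hm : Antitone A) :
    ∃ B, IsFace B ∧ ∀ n, B ⊆ A n := by
  classical
  choose S hS w hw using h
  let u : Λ → E := fun a => if h : ∃ n, a ∈ S n then w (Nat.find h) a else w 0 a
  have hu : ∀ n, u ∈ F (S n) (w n) := fun n a ha => by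
    have h : ∃ n, a ∈ S n := ⟨n, ha⟩
    have h1 : w n ∈ A (Nat.find h) := hm (Nat.find_min' h ha) (by rw [hw n]; exact self_mem _ _)
    rw [hw] at h1
    simp only [u, dif_pos h]
    exact (h1 a (Nat.find_spec h)).symm
  refine ⟨F (⋃ n, S n) u, isFace_F (countable_iUnion hS) u, fun n => ?_⟩
  rw [hw n, ← F_eq (hu n)]
  exact F_mono (subset_iUnion S n) u

lemma dense_all {ι : Type*} [Countable ι] (P : ι → Set (Λ → E) → Prop)
    (mono : ∀ n A B, B ⊆ A → P n A → P n B) {A0 : Set (Λ → E)} (h0 : IsFace A0)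
    (den : ∀ n A, IsFace A → A ⊆ A0 → ∃ B, IsFace B ∧ B ⊆ A ∧ P n B) :
    ∃ B, IsFace B ∧ B ⊆ A0 ∧ ∀ n, P n B := by
  cases isEmpty_or_nonempty ι
  · exact ⟨A0, h0, subset_rfl, fun n => isEmptyElim n⟩
  obtain ⟨e, he⟩ := exists_surjective_nat ι
  choose g g1 g2 g3 using den
  let T := {A : Set (Λ → E) // IsFace A ∧ A ⊆ A0}
  let st : ℕ → T → T := fun n A =>
    ⟨g (e n) A.1 A.2.1 A.2.2, g1 _ _ _ _, (g2 _ _ _ _).trans A.2.2⟩
  let s : ℕ → T := fun n => Nat.rec ⟨A0, h0, subset_rfl⟩ st n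
  have hs : ∀ n, (s (n + 1)).1 ⊆ (s n).1 := fun n => g2 _ _ _ _
  obtain ⟨B, hB, hB'⟩ := exists_face_iInter (A := fun n => (s n).1) (fun n => (s n).2.1)
    (antitone_nat_of_succ_le hs)
  refine ⟨B, hB, hB' 0, fun i => ?_⟩
  obtain ⟨n, rfl⟩ := he i
  exact mono _ _ _ (hB' (n + 1)) (g3 _ _ (s n).2.1 (s n).2.2)

lemma hull (f : Finset Λ → Set Λ) (hf : ∀ G, (f G).Countable) :
    ∃ S : Set Λ, S.Countable ∧ ∀ G : Finset Λ, ↑G ⊆ S → f G ⊆ S := by
  let st : Set Λ → Set Λ := fun S => S ∪ ⋃ G ∈ {G : Finset Λ | ↑G ⊆ S}, f G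
  let s : ℕ → Set Λ := fun n => st^[n] ∅
  have hs : ∀ n, s (n + 1) = st (s n) := fun n => Function.iterate_succ_apply' _ _ _
  have hc : ∀ n, (s n).Countable := by
    intro n
    induction n with
    | zero => exact countable_empty
    | succ n ih =>
      rw [hs]
      refine ih.union (Countable.biUnion ?_ fun G _ => hf G)
      refine Countable.mono ?_ ((countable_ofPred_finite_subset ih).preimage_of_injOn
        (f := fun G : Finset Λ => (G : Set Λ)) Finset.coe_injective.injOn)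
      exact fun G hG => ⟨G.finite_toSet, hG⟩
  have hm : Monotone s := monotone_nat_of_le_succ fun n => by rw [hs]; exact subset_union_left
  refine ⟨⋃ n, s n, countable_iUnion hc, fun G hG => ?_⟩
  obtain ⟨n, hn⟩ : ∃ n, ↑G ⊆ s n := by
    have := finite_subset_iUnion G.finite_toSet hG
    obtain ⟨I, hI, hI'⟩ := this
    obtain ⟨n, hn⟩ := hI.bddAbove
    exact ⟨n, hI'.trans (iUnion₂_subset fun i hi => hm (hn hi))⟩
  refine Subset.trans ?_ (subset_iUnion s (n + 1))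
  rw [hs]
  exact subset_union_of_subset_right (subset_biUnion_of_mem (u := f) hn) _

section metric
variable [PseudoMetricSpace E]

lemma pi_nhds {U : Set (Λ → E)} (hU : IsOpen U) {u : Λ → E} (hu : u ∈ U) :
    ∃ G : Finset Λ, ∃ ε > 0, ∀ v : Λ → E, (∀ a ∈ G, dist (v a) (u a) < ε) → v ∈ U := by
  obtain ⟨G, t, h1, h2⟩ := isOpen_pi_iff.1 hU u hu
  have : ∀ᶠ ε in 𝓝[>] (0 : ℝ), ∀ a ∈ G, Metric.ball (u a) ε ⊆ t a := by
    rw [Filter.eventually_all_finset]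
    intro a ha
    obtain ⟨ε, h3, h4⟩ := Metric.isOpen_iff.1 (h1 a ha).1 _ (h1 a ha).2
    filter_upwards [Ioo_mem_nhdsGT h3] with δ hδ
    exact (Metric.ball_subset_ball hδ.2.le).trans h4
  obtain ⟨ε, h3, h4⟩ := (this.and self_mem_nhdsWithin).exists
  exact ⟨G, ε, h4, fun v hv => h2 fun a ha => h3 a ha (hv a ha)⟩

lemma face_open {U : Set (Λ → E)} (hU : IsOpen U) {u : Λ → E} (hu : u ∈ U) :
    ∃ G : Finset Λ, F (G : Set Λ) u ⊆ U := by
  obtain ⟨G, ε, h1, h2⟩ := pi_nhds hU hu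
  exact ⟨G, fun v hv => h2 v fun a ha => by rw [hv a ha]; simpa using h1⟩

lemma IsFace.sub_open {A U : Set (Λ → E)} (h : IsFace A) (hU : IsOpen U) {u : Λ → E}
    (hu : u ∈ A) (hu' : u ∈ U) : ∃ B, IsFace B ∧ B ⊆ A ∧ B ⊆ U := by
  obtain ⟨G, hG⟩ := face_open hU hu'
  obtain ⟨B, h1, h2, h3, -⟩ := h.sub hu G.countable_toSet
  exact ⟨B, h1, h2, h3.trans hG⟩

lemma isOpen_box (G : Finset Λ) (u : Λ → E) (ε : ℝ) :
    IsOpen {v : Λ → E | ∀ a ∈ G, dist (v a) (u a) < ε} := by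
  simp only [ofPred_forall]
  exact isOpen_biInter_finset fun a _ => isOpen_lt (by fun_prop) continuous_const

lemma face_closure {U : Set (Λ → E)} (hU : IsOpen U) {u : Λ → E} (hu : u ∈ closure U) :
    ∃ S : Set Λ, S.Countable ∧ F S u ⊆ closure U := by
  classical
  have : ∀ (G : Finset Λ) (n : ℕ), ∃ v : Λ → E, ∃ H : Finset Λ,
      (∀ a ∈ G, dist (v a) (u a) < 1 / (n + 1)) ∧ F (H : Set Λ) v ⊆ U := fun G n => by
    obtain ⟨v, h1, h2⟩ := mem_closure_iff.1 hu _ (isOpen_box G u (1 / (n + 1)))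
      (fun a _ => by simp; positivity)
    obtain ⟨H, hH⟩ := face_open hU h2
    exact ⟨v, H, h1, hH⟩
  choose v H h1 h2 using this
  obtain ⟨S, hS, hS'⟩ := hull (fun G => ⋃ n, (H G n : Set Λ))
    fun G => countable_iUnion fun n => (H G n).countable_toSet
  refine ⟨S, hS, fun u' hu' => mem_closure_iff.2 fun O hO hO' => ?_⟩
  obtain ⟨G, ε, h3, h4⟩ := pi_nhds hO hO'
  obtain ⟨n, hn⟩ := exists_nat_one_div_lt h3
  let G' := G.filter (· ∈ S)
  refine ⟨S.piecewise (v G' n) u', h4 _ fun a ha => ?_, h2 G' n fun a ha => ?_⟩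
  · by_cases h : a ∈ S
    · rw [piecewise_eq_of_mem _ _ _ h, hu' a h]
      exact (h1 G' n a (Finset.mem_filter.2 ⟨ha, h⟩)).trans hn
    · rw [piecewise_eq_of_notMem _ _ _ h]; simpa using h3
  · exact piecewise_eq_of_mem _ _ _
      (hS' G' (fun b hb => (Finset.mem_filter.1 hb).2) (mem_iUnion.2 ⟨n, ha⟩))

lemma dep_of_dense [TopologicalSpace.SeparableSpace E] [Nonempty E] {ι Y : Type*}
    [TopologicalSpace Y] [T2Space Y] (x : ι → (Λ → E) → Y) (hx : ∀ i, Continuous (x i))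
    (h : ∀ A : Set (Λ → E), IsFace A →
      ∃ B, IsFace B ∧ B ⊆ A ∧ ∀ i, ∀ u ∈ B, ∀ v ∈ B, x i u = x i v) :
    ∃ S : Set Λ, S.Countable ∧ ∀ i u v, (∀ a ∈ S, u a = v a) → x i u = x i v := by
  classical
  let d := TopologicalSpace.denseSeq E
  let p : (G : Finset Λ) → (G → ℕ) → Λ → E := fun G ρ a => if h : a ∈ G then d (ρ ⟨a, h⟩) else d 0
  have : ∀ (G : Finset Λ) (ρ : G → ℕ), ∃ T : Set Λ, T.Countable ∧ ∃ w, F T w ⊆ F G (p G ρ) ∧
      ∀ i, ∀ u ∈ F T w, ∀ v ∈ F T w, x i u = x i v := fun G ρ => by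
    obtain ⟨_, ⟨T, hT, w, rfl⟩, h2, h3⟩ := h _ (isFace_F G.countable_toSet (p G ρ))
    exact ⟨T, hT, w, h2, h3⟩
  choose T hT w h1 h2 using this
  obtain ⟨S, hS, hS'⟩ := hull (fun G => ⋃ ρ, T G ρ) fun G => countable_iUnion (hT G)
  refine ⟨S, hS, fun i u v huv => ?_⟩
  by_contra hne
  obtain ⟨O, O', o1, o2, o3, o4, o5⟩ := t2_separation hne
  obtain ⟨G1, ε1, e1, g1⟩ := pi_nhds (o1.preimage (hx i)) o3
  obtain ⟨G2, ε2, e2, g2⟩ := pi_nhds (o2.preimage (hx i)) o4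
  let G := (G1 ∪ G2).filter (· ∈ S)
  have : ∀ a : G, ∃ n, dist (d n) (u a) < min ε1 ε2 := fun a => by
    obtain ⟨n, hn⟩ := (TopologicalSpace.denseRange_denseSeq E).exists_dist_lt (u a) (lt_min e1 e2)
    exact ⟨n, by rwa [dist_comm]⟩
  choose ρ hρ using this
  have hT' : T G ρ ⊆ S := (subset_iUnion (T G) ρ).trans
    (hS' G fun b hb => (Finset.mem_filter.1 hb).2)
  have key : ∀ a ∈ G1 ∪ G2, a ∈ S → dist (w G ρ a) (u a) < min ε1 ε2 := fun a ha h => by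
    have hG : a ∈ G := Finset.mem_filter.2 ⟨ha, h⟩
    rw [h1 G ρ (self_mem _ _) a hG]
    simp only [p, dif_pos hG]
    exact hρ ⟨a, hG⟩
  have m : ∀ z : Λ → E, S.piecewise (w G ρ) z ∈ F (T G ρ) (w G ρ) := fun z a ha =>
    piecewise_eq_of_mem _ _ _ (hT' ha)
  have a1 : x i (S.piecewise (w G ρ) u) ∈ O := g1 _ fun a ha => by
    by_cases h : a ∈ S
    · rw [piecewise_eq_of_mem _ _ _ h]
      exact (key a (Finset.mem_union_left _ ha) h).trans_le (min_le_left _ _)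
    · rw [piecewise_eq_of_notMem _ _ _ h]; simpa using e1
  have a2 : x i (S.piecewise (w G ρ) v) ∈ O' := g2 _ fun a ha => by
    by_cases h : a ∈ S
    · rw [piecewise_eq_of_mem _ _ _ h, ← huv a h]
      exact (key a (Finset.mem_union_right _ ha) h).trans_le (min_le_right _ _)
    · rw [piecewise_eq_of_notMem _ _ _ h]; simpa using e2
  rw [h2 G ρ i _ (m u) _ (m v)] at a1
  exact disjoint_left.1 o5 a1 a2

end metric

end H5C
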