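import Pool.Agent.Lib.helper5.Selector

/-! Iterated forcing for colourings of tuples: `k` colours cannot control `k + 1` generic ones. -/

namespace Pool.Agent.H5F

open Set

/-- an abstract notion of forcing with moves and two generic colourings -/
structure Frame (k : ℕ) : Type 1 where
  P : Type
  le : P → P → Prop
  mv : P → ℕ → P → Prop
  F : P → Finset ℕ → Fin (k + 1) → Prop
  C : P → Finset ℕ → Fin k → Prop
  ne : Nonempty P
  refl : ∀ p, le p p
  trans : ∀ {p q r}, le p q → le q r → le p r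
  mv_le : ∀ {p y q}, mv p y q → le q p
  mv_src : ∀ {p p' y q}, le p' p → mv p' y q → mv p y q
  mv_tgt : ∀ {p y q q'}, mv p y q → le q' q → mv p y q'
  F_mono : ∀ {p p' s c}, F p s c → le p' p → F p' s c
  C_mono : ∀ {p p' s c}, C p s c → le p' p → C p' s c
  C_dense : ∀ p s, ∃ q j, le q p ∧ C q s j
  free : ∀ p (σ : Finset ℕ → Fin (k + 1)) m, ∃ y q, m ≤ y ∧ mv p y q ∧
    ∀ s ⊆ Finset.range m, F q (insert y s) (σ s)

variable {k : ℕ}

lemma Frame.chain (Φ : Frame k) {p : ℕ → Φ.P} {y : ℕ → ℕ}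
    (h : ∀ i, Φ.mv (p i) (y i) (p (i + 1))) {i j : ℕ} (hij : i ≤ j) : Φ.le (p j) (p i) := by
  induction hij with
  | refl => exact Φ.refl _
  | step _ ih => exact Φ.trans (Φ.mv_le (h _)) ih

lemma iter_fin {T : Type} (le : T → T → Prop) (refl : ∀ p, le p p)
    (trans : ∀ {p q r}, le p q → le q r → le p r) (Q : Fin k → T → Prop)
    (a : T) (h : ∀ j a', le a' a → ∃ b, le b a' ∧ Q j b) :
    ∃ b, le b a ∧ ∀ j, ∃ c, le b c ∧ Q j c := by
  have : ∀ s : Finset (Fin k), ∃ b, le b a ∧ ∀ j ∈ s, ∃ c, le b c ∧ Q j c := by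
    intro s
    induction s using Finset.induction_on with
    | empty => exact ⟨a, refl a, by simp⟩
    | insert j s _ ih =>
      obtain ⟨b, h1, h2⟩ := ih
      obtain ⟨b', k1, k2⟩ := h j b h1
      refine ⟨b', trans k1 h1, fun i hi => ?_⟩
      rcases Finset.mem_insert.1 hi with rfl | hi
      · exact ⟨b', refl _, k2⟩
      · obtain ⟨c, c1, c2⟩ := h2 i hi
        exact ⟨c, trans k1 c1, c2⟩
  obtain ⟨b, h1, h2⟩ := this Finset.univ
  exact ⟨b, h1, fun j => h2 j (Finset.mem_univ _)⟩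

namespace Frame

variable (Φ : Frame k)

abbrev T := Φ.P × (Finset ℕ → Fin (k + 1)) × ℕ

def tle (b a : Φ.T) : Prop :=
  Φ.le b.1 a.1 ∧ a.2.2 ≤ b.2.2 ∧ ∀ s ⊆ Finset.range a.2.2, b.2.1 s = a.2.1 s

lemma tle_refl (a : Φ.T) : Φ.tle a a := ⟨Φ.refl _, le_rfl, fun _ _ => rfl⟩

variable {Φ} in
lemma tle_trans {a b c : Φ.T} (h : Φ.tle a b) (h' : Φ.tle b c) : Φ.tle a c :=
  ⟨Φ.trans h.1 h'.1, h'.2.1.trans h.2.1, fun s hs =>
    (h.2.2 s (hs.trans (Finset.range_mono h'.2.1))).trans (h'.2.2 s hs)⟩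

def gm (a : Φ.T) (y : ℕ) (q : Φ.P) : Prop :=
  Φ.mv a.1 y q ∧ a.2.2 ≤ y ∧ ∀ s ⊆ Finset.range a.2.2, Φ.F q (insert y s) (a.2.1 s)

variable {Φ} in
lemma gm_src {a b : Φ.T} {y q} (h : Φ.tle b a) (h' : Φ.gm b y q) : Φ.gm a y q :=
  ⟨Φ.mv_src h.1 h'.1, h.2.1.trans h'.2.1, fun s hs =>
    h.2.2 s hs ▸ h'.2.2 s (hs.trans (Finset.range_mono h.2.1))⟩

variable {Φ} in
lemma gm_tgt {a : Φ.T} {y q q'} (h : Φ.gm a y q) (h' : Φ.le q' q) : Φ.gm a y q' :=
  ⟨Φ.mv_tgt h.1 h', h.2.1, fun s hs => Φ.F_mono (h.2.2 s hs) h'⟩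

def Cond (a : Φ.T) (D : ℕ → Φ.P → Prop) : Prop :=
  (∀ y q q', D y q → Φ.le q' q → D y q') ∧ ∀ b, Φ.tle b a → ∃ y q, D y q ∧ Φ.gm b y q

/-- the derived frame, of arity one less -/
def der : Frame k where
  P := {x : Φ.T × (ℕ → Φ.P → Prop) // Φ.Cond x.1 x.2}
  le x' x := Φ.tle x'.1.1 x.1.1 ∧ ∀ y q, x'.1.2 y q → x.1.2 y q
  mv x y x' := (Φ.tle x'.1.1 x.1.1 ∧ ∀ y q, x'.1.2 y q → x.1.2 y q) ∧ x.1.2 y x'.1.1.1 ∧
    Φ.gm x.1.1 y x'.1.1.1 ∧ y < x'.1.1.2.2
  F x s c := s ⊆ Finset.range x.1.1.2.2 ∧ x.1.1.2.1 s = c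
  C x s j := ∀ y q, x.1.2 y q → Φ.C q (insert y s) j
  ne := let ⟨p⟩ := Φ.ne
    ⟨⟨((p, fun _ => 0, 0), fun _ _ => True), fun _ _ _ _ _ => trivial, fun b _ =>
      let ⟨y, q, h1, h2, h3⟩ := Φ.free b.1 b.2.1 b.2.2; ⟨y, q, trivial, h2, h1, h3⟩⟩⟩
  refl x := ⟨Φ.tle_refl _, fun _ _ h => h⟩
  trans h h' := ⟨tle_trans h.1 h'.1, fun y q a => h'.2 y q (h.2 y q a)⟩
  mv_le h := h.1
  mv_src h h' := ⟨⟨tle_trans h'.1.1 h.1, fun y q a => h.2 y q (h'.1.2 y q a)⟩, h.2 _ _ h'.2.1,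
    gm_src h.1 h'.2.2.1, h'.2.2.2⟩
  mv_tgt {p _ _ _} h h' := ⟨⟨tle_trans h'.1 h.1.1, fun y q a => h.1.2 y q (h'.2 y q a)⟩,
    p.2.1 _ _ _ h.2.1 h'.1.1, gm_tgt h.2.2.1 h'.1.1, h.2.2.2.trans_le h'.1.2.1⟩
  F_mono h h' := ⟨h.1.trans (Finset.range_mono h'.1.2.1), (h'.1.2.2 _ h.1).trans h.2⟩
  C_mono h h' := fun y q a => h y q (h'.2 y q a)
  C_dense := by
    rintro ⟨⟨a, D⟩, hc, hd⟩ s
    by_cases h : ∃ j b, Φ.tle b a ∧ ∀ c, Φ.tle c b →
        ∃ y q, (D y q ∧ Φ.C q (insert y s) j) ∧ Φ.gm c y q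
    · obtain ⟨j, b, h1, h2⟩ := h
      exact ⟨⟨(b, fun y q => D y q ∧ Φ.C q (insert y s) j),
        fun y q q' u v => ⟨hc y q q' u.1 v, Φ.C_mono u.2 v⟩, h2⟩, j,
        ⟨h1, fun _ _ u => u.1⟩, fun _ _ u => u.2⟩
    · obtain ⟨b, b1, b2⟩ := iter_fin Φ.tle Φ.tle_refl tle_trans
        (fun j c => ∀ y q, D y q → Φ.C q (insert y s) j → ¬ Φ.gm c y q) a
        (fun j c hca => by
          by_contra hh
          refine h ⟨j, c, hca, fun c' h' => ?_⟩
          by_contra h2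
          exact hh ⟨c', h', fun y q u v w => h2 ⟨y, q, ⟨u, v⟩, w⟩⟩)
      obtain ⟨y, q, q1, q2⟩ := hd b b1
      obtain ⟨q', j, j1, j2⟩ := Φ.C_dense q (insert y s)
      obtain ⟨c, c1, c2⟩ := b2 j
      exact (c2 y q' (hc y q q' q1 j1) j2 (gm_src c1 (gm_tgt q2 j1))).elim
  free := by
    rintro ⟨⟨⟨p, σ, m⟩, D⟩, hc, hd⟩ τ m0
    have h0 : Φ.tle (p, σ, max m m0) (p, σ, m) := ⟨Φ.refl _, le_max_left _ _, fun _ _ => rfl⟩
    obtain ⟨y, q, h1, h2⟩ := hd _ h0
    have hy : max m m0 ≤ y := h2.2.1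
    have h3 : Φ.tle (q, fun s => if y ∈ s then τ (s.erase y) else σ s, y + 1) (p, σ, m) :=
      ⟨Φ.mv_le h2.1, by simp only; omega, fun s hs => if_neg fun h => by
        have := Finset.mem_range.1 (hs h); simp only at this; omega⟩
    refine ⟨y, ⟨((q, fun s => if y ∈ s then τ (s.erase y) else σ s, y + 1), D), hc,
      fun b hb => hd b (tle_trans hb h3)⟩, by omega,
      ⟨⟨h3, fun _ _ h => h⟩, h1, gm_src h0 h2, Nat.lt_succ_self y⟩, fun s hs => ⟨?_, ?_⟩⟩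
    · intro x hx
      rcases Finset.mem_insert.1 hx with rfl | hx
      · simp
      · have := Finset.mem_range.1 (hs hx)
        exact Finset.mem_range.2 (by simp only; omega)
    · have : y ∉ s := fun h => by have := Finset.mem_range.1 (hs h); omega
      simp [Finset.erase_insert this]

/-- the conclusion for tuples of size `r + 1` -/
def Concl (r : ℕ) : Prop :=
  ∃ (j : Fin k) (S : Type) (_ : S) (pr : S → Φ.P) (st : S → ℕ → Fin (k + 1) → S → Prop),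
    (∀ a b, ∃ y c a', c ≠ b ∧ st a y c a') ∧ (∀ a y c a', st a y c a' → Φ.mv (pr a) y (pr a')) ∧
    ∀ (a : ℕ → S) (y : ℕ → ℕ) (c : ℕ → Fin (k + 1)), (∀ i, st (a i) (y i) (c i) (a (i + 1))) →
      ∀ (I : Finset ℕ) m M, m ∈ I → (∀ i ∈ I, m ≤ i ∧ i ≤ M) → I.card = r + 1 →
        Φ.C (pr (a (M + 1))) (I.image y) j ∧ Φ.F (pr (a (M + 1))) (I.image y) (c m)

theorem concl (r : ℕ) : ∀ Φ : Frame k, Φ.Concl r := by
  induction r with
  | zero =>
    intro Φ
    obtain ⟨j, p0, h⟩ : ∃ j p0, ∀ p, Φ.le p p0 → ∀ b, ∃ y c q, c ≠ b ∧ Φ.mv p y q ∧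
        Φ.C q {y} j ∧ Φ.F q {y} c := by
      by_contra h
      push Not at h
      obtain ⟨p0⟩ := Φ.ne
      obtain ⟨p, -, h2⟩ := iter_fin Φ.le Φ.refl Φ.trans
        (fun j p => ∃ b, ∀ y c q, c ≠ b → Φ.mv p y q → Φ.C q {y} j → ¬ Φ.F q {y} c) p0
        (fun j a _ => h j a)
      choose p' h3 b h4 using h2
      obtain ⟨c, hc⟩ : ∃ c, c ∉ Set.range b := by
        by_contra hh
        push Not at hh
        have := Fintype.card_le_of_surjective b hh
        simp at this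
      obtain ⟨y, q, -, q1, q2⟩ := Φ.free p (fun _ => c) 0
      obtain ⟨q', j, j1, j2⟩ := Φ.C_dense q {y}
      exact h4 j y c q' (fun e => hc ⟨j, e.symm⟩) (Φ.mv_src (h3 j) (Φ.mv_tgt q1 j1)) j2
        (Φ.F_mono (q2 ∅ (by simp)) j1)
    refine ⟨j, {p // Φ.le p p0}, ⟨p0, Φ.refl _⟩, Subtype.val,
      fun a y c a' => Φ.mv a.1 y a'.1 ∧ Φ.C a'.1 {y} j ∧ Φ.F a'.1 {y} c, fun a b => ?_,
      fun _ _ _ _ h => h.1, fun a y c hs I m M h1 h2 h3 => ?_⟩
    · obtain ⟨y, c, q, h1, h2, h3⟩ := h a.1 a.2 b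
      exact ⟨y, c, ⟨q, Φ.trans (Φ.mv_le h2) a.2⟩, h1, h2, h3⟩
    · obtain ⟨x, rfl⟩ := Finset.card_eq_one.1 h3
      obtain rfl := Finset.mem_singleton.1 h1
      have := Φ.chain (p := fun i => (a i).1) (fun i => (hs i).1)
        (Nat.succ_le_succ (h2 m h1).2)
      rw [Finset.image_singleton]
      exact ⟨Φ.C_mono (hs m).2.1 this, Φ.F_mono (hs m).2.2 this⟩
  | succ r ih =>
    intro Φ
    obtain ⟨j, S, s0, pr, st, h1, h2, h3⟩ := ih Φ.der
    refine ⟨j, S, s0, fun a => (pr a).1.1.1, st, h1, fun a y c a' h => (h2 a y c a' h).2.2.1.1,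
      fun a y c hs I m M k1 k2 k3 => ?_⟩
    obtain ⟨n, n1, n2⟩ := I.exists_max_image id ⟨m, k1⟩
    have hc : (I.erase n).card = r + 1 := by rw [Finset.card_erase_of_mem n1, k3]; rfl
    obtain ⟨x, hx⟩ := Finset.card_pos.1 (show 0 < (I.erase n).card by omega)
    have hlt : ∀ i ∈ I.erase n, i < n := fun i hi =>
      lt_of_le_of_ne (n2 i (Finset.mem_of_mem_erase hi)) (Finset.ne_of_mem_erase hi)
    have hm : m < n := (k2 x (Finset.mem_of_mem_erase hx)).1.trans_lt (hlt x hx)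
    obtain ⟨n, rfl⟩ := Nat.exists_eq_succ_of_ne_zero (show n ≠ 0 by omega)
    obtain ⟨g1, g2⟩ := h3 a y c hs (I.erase (n + 1)) m n (Finset.mem_erase.2 ⟨hm.ne, k1⟩)
      (fun i hi => ⟨(k2 i (Finset.mem_of_mem_erase hi)).1, Nat.lt_succ_iff.1 (hlt i hi)⟩) hc
    have mv := h2 _ _ _ _ (hs (n + 1))
    have ch := Φ.chain (p := fun i => (pr (a i)).1.1.1) (fun i => (h2 _ _ _ _ (hs i)).2.2.1.1)
      (Nat.succ_le_succ (k2 _ n1).2)
    rw [← Finset.insert_erase n1, Finset.image_insert]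
    exact ⟨Φ.C_mono (g1 _ _ mv.2.1) ch, Φ.F_mono (g2.2 ▸ mv.2.2.1.2.2 _ g2.1) ch⟩

end Frame

lemma generic {Y : Set ℕ} (hY : Y.Infinite) (k : ℕ) : ∃ f : Finset ℕ → Fin (k + 1),
    ∀ (σ : Finset ℕ → Fin (k + 1)) m p, ∃ y ∈ Y, m ≤ y ∧ p ≤ y ∧
      ∀ s ⊆ Finset.range m, f (insert y s) = σ s := by
  classical
  obtain ⟨L, hL⟩ := exists_surjective_nat (Finset ℕ →₀ Fin (k + 1))
  refine ⟨fun s => L (Nat.unpair (Nat.count (· ∈ Y) (s.sup id))).1 (s.erase (s.sup id)),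
    fun σ m p => ?_⟩
  obtain ⟨a, ha⟩ := hL (Finsupp.indicator (Finset.range m).powerset fun s _ => σ s)
  have h1 : max m p ≤ Nat.nth (· ∈ Y) (Nat.pair a (max m p)) :=
    (Nat.right_le_pair _ _).trans (Nat.le_nth fun h => absurd h hY)
  have h0 : Nat.nth (· ∈ Y) (Nat.pair a (max m p)) ∈ Y :=
    Nat.nth_mem_of_infinite (p := (· ∈ Y)) hY _
  have h4 := Nat.count_nth_of_infinite (p := (· ∈ Y)) hY (Nat.pair a (max m p))
  generalize Nat.nth (· ∈ Y) (Nat.pair a (max m p)) = y at *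
  refine ⟨y, h0, by omega, by omega, fun s hs => ?_⟩
  have h2 : ∀ x ∈ s, x < y := fun x hx => by have := Finset.mem_range.1 (hs hx); omega
  have h3 : (insert y s).sup id = y := by
    rw [Finset.sup_insert]
    exact sup_eq_left.2 (Finset.sup_le fun x hx => (h2 x hx).le)
  simp only [h3]
  rw [Finset.erase_insert fun h => lt_irrefl _ (h2 y h), h4,
    Nat.unpair_pair, ha, Finsupp.indicator_of_mem (Finset.mem_powerset.2 hs)]

lemma exists_run {S γ : Type} [Inhabited γ] (s0 : S) (st : S → ℕ → γ → S → Prop)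
    (h : ∀ a b, ∃ y c a', c ≠ b ∧ st a y c a') (ι : ℕ → (ℕ → ℕ) → ℕ) :
    ∃ (a : ℕ → S) (y : ℕ → ℕ) (c : ℕ → γ), ∀ i, st (a i) (y i) (c i) (a (i + 1)) ∧
      (ι i (fun j => if j < i then y j else 0) < i →
        c i ≠ c (ι i fun j => if j < i then y j else 0)) := by
  choose fy fc fa h1 h2 using h
  let w : ℕ → S × (ℕ → ℕ) × (ℕ → γ) := fun n => Nat.rec (s0, fun _ => 0, fun _ => default)
    (fun i x => (fa x.1 (x.2.2 (ι i x.2.1)), Function.update x.2.1 i (fy x.1 (x.2.2 (ι i x.2.1))),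
      Function.update x.2.2 i (fc x.1 (x.2.2 (ι i x.2.1))))) n
  have hw : ∀ i, w (i + 1) = (fa (w i).1 ((w i).2.2 (ι i (w i).2.1)),
      Function.update (w i).2.1 i (fy (w i).1 ((w i).2.2 (ι i (w i).2.1))),
      Function.update (w i).2.2 i (fc (w i).1 ((w i).2.2 (ι i (w i).2.1)))) := fun _ => rfl
  have e1 : ∀ i, (w i).2.1 = fun j => if j < i then (w (j + 1)).2.1 j else 0 := by
    intro i
    induction i with
    | zero => rfl
    | succ i ih =>
      funext j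
      rcases eq_or_ne j i with rfl | hj
      · simp
      · rw [hw]
        dsimp only
        rw [Function.update_of_ne hj, ih]
        exact if_congr (by omega) rfl rfl
  have e2 : ∀ i j, j < i → (w i).2.2 j = (w (j + 1)).2.2 j := by
    intro i j hj
    induction hj with
    | refl => rfl
    | step hj ih => rw [hw]; dsimp only; rw [Function.update_of_ne (Nat.ne_of_lt hj), ih]
  refine ⟨fun i => (w i).1, fun i => (w (i + 1)).2.1 i, fun i => (w (i + 1)).2.2 i,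
    fun i => ⟨?_, fun hi => ?_⟩⟩
  · simp only [hw, Function.update_self]
    exact h2 _ _
  · rw [← e1] at hi ⊢
    beta_reduce
    rw [← e2 i _ hi, hw]
    simp only [Function.update_self]
    exact h1 _ _

theorem soc_main (k r : ℕ) : ∃ (f : Finset ℕ → Fin (k + 1)) (π : ℕ → ℕ),
    ∀ g : Finset ℕ → Fin k, ∃ H : Set ℕ, H.Infinite ∧
      (∃ j, ∀ s : Finset ℕ, ↑s ⊆ H → s.card = r + 1 → g s = j) ∧
      ∀ e, (G e H).Infinite → ∃ (A : Set ℕ) (y v : ℕ → ℕ) (c : ℕ → Fin (k + 1)),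
        A.Infinite ∧ StrictMono y ∧ (∀ i ∈ A, v i ∈ G e H ∧ π (v i) = y i) ∧
        (∃ i ∈ A, ∃ i' ∈ A, i < i' ∧ c i ≠ c i') ∧
        ∀ (I : Finset ℕ) m, m ∈ I → (∀ i ∈ I, m ≤ i) → I.card = r + 1 →
          f (I.image y) = c m := by
  classical
  obtain ⟨Y, π, hY, hπ, hS⟩ := selector
  obtain ⟨f, hf⟩ := generic hY k
  refine ⟨f, π, fun g => ?_⟩
  let Φ : Frame k :=
    { P := ℕ
      le := fun p q => q ≤ p
      mv := fun p y q => y ∈ Y ∧ p ≤ y ∧ y < q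
      F := fun _ s c => f s = c
      C := fun _ s j => g s = j
      ne := ⟨0⟩
      refl := fun _ => le_rfl
      trans := fun a b => b.trans a
      mv_le := fun h => h.2.1.trans h.2.2.le
      mv_src := fun h h' => ⟨h'.1, h.trans h'.2.1, h'.2.2⟩
      mv_tgt := fun h h' => ⟨h.1, h.2.1, h.2.2.trans_le h'⟩
      F_mono := fun h _ => h
      C_mono := fun h _ => h
      C_dense := fun p s => ⟨p, g s, le_rfl, rfl⟩
      free := fun p σ m => let ⟨y, a, b, c, d⟩ := hf σ m p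
        ⟨y, y + 1, b, ⟨a, c, Nat.lt_succ_self y⟩, d⟩ }
  obtain ⟨j, S, s0, pr, st, h1, h2, h3⟩ := Frame.concl r Φ
  let Z : (ℕ → ℕ) → ℕ → ℕ → Prop := fun y e i => e < i ∧ Sel Y π e ((Finset.range i).image y)
  let R : (ℕ → ℕ) → ℕ → ℕ → ℕ → Prop := fun y i L j => j < i ∧ ∀ e < L, Z y e j ↔ Z y e i
  obtain ⟨a, y, c, hr⟩ := exists_run s0 st h1 fun i y =>
    Classical.epsilon (R y i (Nat.findGreatest (fun L => ∃ j, R y i L j) i))
  have mv : ∀ i, y i ∈ Y ∧ pr (a i) ≤ y i ∧ y i < pr (a (i + 1)) := fun i => h2 _ _ _ _ (hr i).1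
  have sm : StrictMono y := strictMono_nat_of_lt_succ fun i => (mv i).2.2.trans_le (mv _).2.1
  have h4 := h3 a y c fun i => (hr i).1
  have hEl : ∀ i, y i ∈ ab Y ((Finset.range i).image y) ∧
      range y ∈ El (insert (y i) ((Finset.range i).image y)) (Y ∩ Ioi (y i)) := fun i => by
    refine ⟨⟨(mv i).1, by simpa using fun j hj => sm hj⟩,
      infinite_range_of_injective sm.injective, fun x hx => ?_, ?_⟩
    · simp only [Finset.coe_insert, Finset.coe_image, mem_insert_iff, mem_image] at hx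
      rcases hx with rfl | ⟨j, -, rfl⟩ <;> exact mem_range_self _
    · rintro _ ⟨j, rfl⟩
      rcases lt_trichotomy j i with h | rfl | h
      · left; simp only [Finset.coe_insert, Finset.coe_image]
        exact Or.inr ⟨j, by simpa using h, rfl⟩
      · left; simp
      · exact Or.inr ⟨(mv j).1, sm h⟩
  refine ⟨range y, infinite_range_of_injective sm.injective, ⟨j, fun s hs hc => ?_⟩,
    fun e he => ?_⟩
  · obtain ⟨I, -, rfl⟩ := Finset.subset_set_image_iff.1 (show ↑s ⊆ y '' univ by simpa using hs)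
    rw [Finset.card_image_of_injective _ sm.injective] at hc
    obtain ⟨m, m1, m2⟩ := I.exists_min_image id (Finset.card_pos.1 (by omega))
    exact (h4 I m (I.sup id) m1 (fun i hi => ⟨m2 i hi, Finset.le_sup (f := id) hi⟩) hc).1
  have hA : {i | Z y e i}.Infinite := by
    intro hfin
    obtain ⟨i0, hi0⟩ := (hfin.union (finite_Iic e)).bddAbove
    refine he ((hπ (y i0)).subset fun v hv => ?_)
    have : ∀ i, i0 + 1 ≤ i → π v ≤ y i0 ∨ ∀ j < i, y j < π v := by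
      intro i hi
      induction hi with
      | refl =>
        refine (le_or_gt _ _).imp_right fun h j hj => (sm.monotone (by omega)).trans_lt h
      | @step i hi ih =>
        refine ih.imp_right fun h j hj => ?_
        have hi' : i0 + 1 ≤ i := hi
        have he' : e < i := by have := hi0 (Or.inr (le_refl e)); omega
        rcases hS e ((Finset.range i).image y) (by
            intro x hx
            obtain ⟨j, -, rfl⟩ := Finset.mem_image.1 hx
            exact (mv j).1) (by rwa [Finset.card_image_of_injective _ sm.injective,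
              Finset.card_range]) with h' | h'
        · have := hi0 (Or.inl ⟨he', h'⟩); omega
        · rcases h' _ (hEl i).1 _ (hEl i).2 v hv with ⟨x, hx, h''⟩ | h''
          · obtain ⟨j, hj, rfl⟩ := Finset.mem_image.1 hx
            exact absurd (h j (Finset.mem_range.1 hj)) (not_lt.2 h'')
          · exact (sm.monotone (by omega)).trans_lt h''
    refine (this (π v + i0 + 1) (by omega)).resolve_right fun h => ?_
    exact absurd (h (π v) (by omega)) (not_lt.2 sm.le_apply)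
  have hv : ∀ i, ∃ v, Z y e i → v ∈ G e (range y) ∧ π v = y i := fun i => by
    by_cases h : Z y e i
    · obtain ⟨v, hv⟩ := h.2 _ (hEl i).1 _ (hEl i).2
      exact ⟨v, fun _ => hv⟩
    · exact ⟨0, fun h' => absurd h' h⟩
  choose v hv using hv
  refine ⟨_, y, v, c, hA, sm, hv, ?_, fun I m a1 a2 a3 =>
    (h4 I m (I.sup id) a1 (fun i hi => ⟨a2 i hi, Finset.le_sup (f := id) hi⟩) a3).2⟩
  obtain ⟨i0, b0, i, b1, b2, b3⟩ := hA.exists_lt_map_eq_of_mapsTo
    (f := fun i => (Finset.range (e + 1)).filter fun e' => Z y e' i)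
    (t := ↑(Finset.range (e + 1)).powerset) 
    (fun i _ => Finset.mem_powerset.2 (Finset.filter_subset _ _)) (Finset.finite_toSet _)
  let y' : ℕ → ℕ := fun j => if j < i then y j else 0
  have hZ : ∀ e', ∀ j ≤ i, Z y' e' j ↔ Z y e' j := fun e' j hj => by
    simp only [Z]
    rw [Finset.image_congr (g := y) fun x hx => if_pos (lt_of_lt_of_le (by simpa using hx) hj)]
  have c1 : ∃ j, R y' i (e + 1) j := ⟨i0, b2, fun e' he' => by
    rw [hZ _ _ b2.le, hZ _ _ le_rfl]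
    simpa [he'] using Finset.ext_iff.1 b3 e'⟩
  have c2 := Nat.le_findGreatest (P := fun L => ∃ j, R y' i L j) b1.1 c1
  have c3 := Classical.epsilon_spec
    (Nat.findGreatest_spec (P := fun L => ∃ j, R y' i L j) b1.1 c1)
  refine ⟨_, ?_, i, b1, c3.1, ((hr i).2 c3.1).symm⟩
  exact (hZ _ _ c3.1.le).1 ((c3.2 e c2).2 ((hZ _ _ le_rfl).2 b1))

end Pool.Agent.H5F
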