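import Mathlib

/-! Fusion of infinite sets of naturals, Galvin's lemma (open sets are Ramsey). -/

namespace Pool.Agent.H5F

open Set

/-- the part of `Y` above `t` -/
def ab (Y : Set ℕ) (t : Finset ℕ) : Set ℕ := {y | y ∈ Y ∧ ∀ x ∈ t, x < y}

lemma ab_sub (Y : Set ℕ) (t : Finset ℕ) : ab Y t ⊆ Y := fun _ h => h.1

lemma ab_mono {Y Z : Set ℕ} (h : Y ⊆ Z) (t : Finset ℕ) : ab Y t ⊆ ab Z t :=
  fun _ hy => ⟨h hy.1, hy.2⟩

lemma inf_Ioi {X : Set ℕ} (h : X.Infinite) (n : ℕ) : (X ∩ Ioi n).Infinite := by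
  refine (h.sdiff (Set.finite_Iic n)).mono fun x hx => ⟨hx.1, ?_⟩
  simpa using hx.2

lemma ab_inf {Y : Set ℕ} (h : Y.Infinite) (t : Finset ℕ) : (ab Y t).Infinite :=
  (inf_Ioi h (t.sup id)).mono fun _ hy => ⟨hy.1, fun _ hx =>
    lt_of_le_of_lt (Finset.le_sup (f := id) hx) hy.2⟩

theorem fusion {σ : Type} [Preorder σ] (P : Finset ℕ → Set ℕ → σ → Prop)
    (mono : ∀ t X X' a a', P t X a → X' ⊆ X → a ≤ a' → P t X' a')
    (dense : ∀ t X a, X.Infinite → ∃ X' a', X' ⊆ X ∧ X'.Infinite ∧ a ≤ a' ∧ P t X' a')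
    (X : Set ℕ) (hX : X.Infinite) (a0 : σ) :
    ∃ Y ⊆ X, Y.Infinite ∧ ∃ a : ℕ → σ, Monotone a ∧
      ∀ t : Finset ℕ, ↑t ⊆ Y → ∃ k, P t (ab Y t) (a k) := by
  classical
  have fin : ∀ (T : Finset (Finset ℕ)) X a, X.Infinite →
      ∃ X' a', X' ⊆ X ∧ X'.Infinite ∧ a ≤ a' ∧ ∀ t ∈ T, P t X' a' := by
    intro T
    induction T using Finset.induction_on with
    | empty => exact fun X a h => ⟨X, a, subset_rfl, h, le_rfl, by simp⟩
    | insert t T _ ih =>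
      intro X a h
      obtain ⟨X1, a1, h1, h2, h3, h4⟩ := ih X a h
      obtain ⟨X2, a2, k1, k2, k3, k4⟩ := dense t X1 a1 h2
      refine ⟨X2, a2, k1.trans h1, k2, h3.trans k3, fun s hs => ?_⟩
      rcases Finset.mem_insert.1 hs with rfl | hs
      · exact k4
      · exact mono _ _ _ _ _ (h4 s hs) k1 k3
  have step : ∀ p : {p : Set ℕ × σ // p.1.Infinite}, ∃ q : {p : Set ℕ × σ // p.1.Infinite},
      q.1.1 ⊆ p.1.1 ∩ Ioi (sInf p.1.1) ∧ p.1.2 ≤ q.1.2 ∧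
        ∀ t : Finset ℕ, t ⊆ Finset.range (sInf p.1.1 + 1) → P t q.1.1 q.1.2 := by
    rintro ⟨⟨Z, a⟩, hZ⟩
    obtain ⟨X', a', h1, h2, h3, h4⟩ :=
      fin (Finset.range (sInf Z + 1)).powerset _ a (inf_Ioi hZ (sInf Z))
    exact ⟨⟨(X', a'), h2⟩, h1, h3, fun t ht => h4 t (Finset.mem_powerset.2 ht)⟩
  choose f hf using step
  obtain ⟨X0, b0, g1, g2, -, g4⟩ := dense ∅ X a0 hX
  let s : ℕ → {p : Set ℕ × σ // p.1.Infinite} := fun k => f^[k] ⟨(X0, b0), g2⟩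
  have hs : ∀ k, s (k + 1) = f (s k) := fun k => Function.iterate_succ_apply' _ _ _
  let y : ℕ → ℕ := fun k => sInf (s k).1.1
  have hy : ∀ k, y k ∈ (s k).1.1 := fun k => Nat.sInf_mem (s k).2.nonempty
  have anti : Antitone fun k => (s k).1.1 :=
    antitone_nat_of_succ_le fun k x hx => by rw [hs] at hx; exact ((hf _).1 hx).1
  have smono : StrictMono y := strictMono_nat_of_lt_succ fun k => by
    have := hy (k + 1)
    rw [hs] at this
    exact ((hf _).1 this).2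
  refine ⟨range y, ?_, infinite_range_of_injective smono.injective, fun k => (s k).1.2,
    monotone_nat_of_le_succ fun k => by rw [hs]; exact (hf _).2.1, fun t ht => ?_⟩
  · rintro _ ⟨k, rfl⟩
    exact g1 (anti (Nat.zero_le k) (hy k))
  · rcases t.eq_empty_or_nonempty with rfl | hne
    · refine ⟨0, mono _ _ _ _ _ g4 ?_ le_rfl⟩
      rintro _ ⟨⟨k, rfl⟩, -⟩
      exact anti (Nat.zero_le k) (hy k)
    · obtain ⟨k, hk⟩ := ht (t.max'_mem hne)
      refine ⟨k + 1, mono t (s (k + 1)).1.1 _ _ _ ?_ ?_ le_rfl⟩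
      · beta_reduce
        rw [hs]
        refine (hf _).2.2 t fun x hx => Finset.mem_range.2 (Nat.lt_succ_of_le ?_)
        exact (t.le_max' x hx).trans hk.ge
      · rintro _ ⟨⟨j, rfl⟩, hj⟩
        have := hj _ (t.max'_mem hne)
        rw [← hk] at this
        exact anti (smono.lt_iff_lt.1 this) (hy j)

theorem fusion0 (P : Finset ℕ → Set ℕ → Prop)
    (mono : ∀ t X X', P t X → X' ⊆ X → P t X')
    (dense : ∀ t X, X.Infinite → ∃ X' ⊆ X, X'.Infinite ∧ P t X')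
    (X : Set ℕ) (hX : X.Infinite) :
    ∃ Y ⊆ X, Y.Infinite ∧ ∀ t : Finset ℕ, ↑t ⊆ Y → P t (ab Y t) := by
  obtain ⟨Y, h1, h2, _, -, h⟩ := fusion (σ := Unit) (fun t X _ => P t X)
    (fun t X X' _ _ h h' _ => mono t X X' h h')
    (fun t X a h => let ⟨X', h1, h2, h3⟩ := dense t X h; ⟨X', a, h1, h2, le_rfl, h3⟩) X hX ()
  exact ⟨Y, h1, h2, fun t ht => let ⟨_, hk⟩ := h t ht; hk⟩

theorem dichotomy (Acc : Finset ℕ → Set ℕ → Prop)
    (mono : ∀ t X X', Acc t X → X' ⊆ X → Acc t X')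
    (step : ∀ t X, X.Infinite → (∀ n ∈ X, Acc (insert n t) (X ∩ Ioi n)) →
      ∃ Y ⊆ X, Y.Infinite ∧ Acc t Y) (X : Set ℕ) (hX : X.Infinite) :
    ∃ Y ⊆ X, Y.Infinite ∧ (Acc ∅ Y ∨
      ∀ t : Finset ℕ, ↑t ⊆ Y → ∀ Z ⊆ ab Y t, Z.Infinite → ¬ Acc t Z) := by
  classical
  let Rej : Finset ℕ → Set ℕ → Prop := fun t Z => ∀ W ⊆ Z, W.Infinite → ¬ Acc t W
  obtain ⟨Y, h1, h2, h3⟩ := fusion0 (fun t Z => Acc t Z ∨ Rej t Z)
    (fun t X X' h h' => h.imp (fun h => mono _ _ _ h h') fun h W hW => h W (hW.trans h'))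
    (fun t Z hZ => by
      by_cases h : ∃ W ⊆ Z, W.Infinite ∧ Acc t W
      · obtain ⟨W, a, b, c⟩ := h
        exact ⟨W, a, b, Or.inl c⟩
      · exact ⟨Z, subset_rfl, hZ, Or.inr fun W a b c => h ⟨W, a, b, c⟩⟩) X hX
  rcases h3 ∅ (by simp) with h0 | h0
  · exact ⟨_, (ab_sub _ _).trans h1, ab_inf h2 _, Or.inl h0⟩
  obtain ⟨Y2, k1, k2, k3⟩ := fusion0 (fun t Z => ↑t ⊆ Y → Rej t (ab Y t) →
      ∀ n ∈ Z, n ∈ ab Y t → Rej (insert n t) (ab Y (insert n t)))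
    (fun t X X' h h' a b n hn => h a b n (h' hn))
    (fun t Z hZ => by
      by_cases hS : {n | n ∈ ab Y t ∧ Acc (insert n t) (ab Y (insert n t))}.Finite
      · refine ⟨_, sdiff_subset, hZ.sdiff hS, fun a _ n hn hn' => ?_⟩
        refine (h3 (insert n t) ?_).resolve_left fun h => hn.2 ⟨hn', h⟩
        rw [Finset.coe_insert]
        exact insert_subset hn'.1 a
      · refine ⟨Z, subset_rfl, hZ, fun _ b => ?_⟩
        obtain ⟨W, w1, w2, w3⟩ := step t _ hS fun n hn => mono _ _ _ hn.2 fun x hx =>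
          ⟨hx.1.1.1, fun z hz => by
            rcases Finset.mem_insert.1 hz with rfl | hz
            · exact hx.2
            · exact hx.1.1.2 z hz⟩
        exact absurd w3 (b W (fun x hx => (w1 hx).1) w2)) Y h2
  refine ⟨Y2, k1.trans h1, k2, Or.inr fun t ht Z hZ => ?_⟩
  suffices Rej t (ab Y t) from this Z (hZ.trans (ab_mono k1 t))
  clear hZ
  induction t using Finset.induction_on_max with
  | empty => exact h0
  | insert n t hn ih =>
    rw [Finset.coe_insert, insert_subset_iff] at ht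
    exact k3 t ht.2 (ht.2.trans k1) (ih ht.2) n ⟨ht.1, hn⟩ ⟨k1 ht.1, hn⟩

/-- the Ellentuck neighbourhood -/
def El (s : Finset ℕ) (X : Set ℕ) : Set (Set ℕ) := {H | H.Infinite ∧ ↑s ⊆ H ∧ H ⊆ ↑s ∪ X}

lemma El_mono (s : Finset ℕ) {X Y : Set ℕ} (h : X ⊆ Y) : El s X ⊆ El s Y :=
  fun _ hH => ⟨hH.1, hH.2.1, hH.2.2.trans (union_subset_union_right _ h)⟩

lemma El_step {s : Finset ℕ} {X H : Set ℕ} (h : H ∈ El s X) :
    ∃ n ∈ X, H ∈ El (insert n s) (X ∩ Ioi n) := by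
  have hne : (H \ ↑s).Nonempty := (h.1.sdiff s.finite_toSet).nonempty
  have hm := Nat.sInf_mem hne
  refine ⟨_, (h.2.2 hm.1).resolve_left hm.2, h.1, ?_, fun x hx => ?_⟩
  · rw [Finset.coe_insert]; exact insert_subset hm.1 h.2.1
  · by_cases hs : x ∈ s
    · left; simp [hs]
    · rcases (Nat.sInf_le (s := H \ ↑s) ⟨hx, hs⟩).eq_or_lt with e | e
      · left; simp [e]
      · exact Or.inr ⟨(h.2.2 hx).resolve_left hs, e⟩

/-- `P` holds near `H` -/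
def Near (H : Set ℕ) (P : Set ℕ → Prop) : Prop :=
  ∃ n, ∀ H' : Set ℕ, (∀ i < n, i ∈ H' ↔ i ∈ H) → P H'

lemma Near.mono {H : Set ℕ} {P Q : Set ℕ → Prop} (h : Near H P) (e : ∀ H', P H' → Q H') :
    Near H Q := let ⟨n, hn⟩ := h; ⟨n, fun H' h' => e _ (hn H' h')⟩

lemma Near.and {H : Set ℕ} {P Q : Set ℕ → Prop} (h : Near H P) (h' : Near H Q) :
    Near H fun H' => P H' ∧ Q H' :=
  let ⟨n, hn⟩ := h; let ⟨m, hm⟩ := h'
  ⟨max n m, fun H' e => ⟨hn H' fun i hi => e i (lt_max_of_lt_left hi),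
    hm H' fun i hi => e i (lt_max_of_lt_right hi)⟩⟩

lemma Near.ball {H : Set ℕ} {P : ℕ → Set ℕ → Prop} (s : Finset ℕ)
    (h : ∀ i ∈ s, Near H (P i)) : Near H fun H' => ∀ i ∈ s, P i H' := by
  induction s using Finset.induction_on with
  | empty => exact ⟨0, by simp⟩
  | insert a s _ ih =>
    refine ((h a (by simp)).and (ih fun i hi => h i (by simp [hi]))).mono fun H' h' i hi => ?_
    rcases Finset.mem_insert.1 hi with rfl | hi
    · exact h'.1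
    · exact h'.2 i hi

lemma near_El {s : Finset ℕ} {Y H : Set ℕ} {P : Set ℕ → Prop} (hY : Y.Infinite)
    (h : H ∈ El s Y) (hP : Near H P) : ∃ t : Finset ℕ, ↑t ⊆ Y ∧ ∃ Z ⊆ ab Y t, Z.Infinite ∧
      ∀ H' ∈ El (s ∪ t) Z, P H' := by
  classical
  obtain ⟨n, hn⟩ := hP
  refine ⟨(Finset.range n).filter fun i => i ∈ H ∧ i ∉ s, fun i hi => ?_, _, inter_subset_left,
    inf_Ioi (ab_inf hY _) n, fun H' h' => hn H' fun i hi => ⟨fun hi' => ?_, fun hi' => ?_⟩⟩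
  · simp only [Finset.coe_filter, mem_ofPred_eq] at hi
    exact (h.2.2 hi.2.1).resolve_left hi.2.2
  · rcases h'.2.2 hi' with e | e
    · simp only [Finset.coe_union, Finset.coe_filter, mem_union, Finset.mem_coe,
        mem_ofPred_eq] at e
      exact e.elim (fun e => h.2.1 e) fun e => e.2.1
    · exact absurd e.2 (by simp; omega)
  · refine h'.2.1 ?_
    by_cases hs : i ∈ s <;> simp [hs, hi, hi']

/-- Galvin's lemma -/
theorem galvin (O : Set ℕ → Prop) (hO : ∀ H, O H → Near H O) (s : Finset ℕ) (X : Set ℕ)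
    (hX : X.Infinite) :
    ∃ Y ⊆ X, Y.Infinite ∧ ((∀ H ∈ El s Y, O H) ∨ ∀ H ∈ El s Y, ¬ O H) := by
  obtain ⟨Y, h1, h2, h3⟩ := dichotomy (fun t X => ∀ H ∈ El (s ∪ t) X, O H)
    (fun t X X' h h' H hH => h H (El_mono _ h' hH))
    (fun t X hX h => ⟨X, subset_rfl, hX, fun H hH => by
      obtain ⟨n, hn, h'⟩ := El_step hH
      exact h n hn H (by rwa [Finset.union_insert])⟩) X hX
  refine ⟨Y, h1, h2, h3.imp (by simp) fun h H hH hO' => ?_⟩
  obtain ⟨t, a, Z, b, c, d⟩ := near_El h2 hH (hO H hO')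
  exact h t a Z b c d

/-- a locally constant function with finitely many values is constant on a neighbourhood -/
theorem galvin_fin (O : Set ℕ → Prop) (u : Set ℕ → ℕ) (q : ℕ) (hu : ∀ H, u H < q)
    (hO : ∀ H, O H → Near H fun H' => O H' ∧ u H' = u H) (s : Finset ℕ) (X : Set ℕ)
    (hX : X.Infinite) (hs : ∀ H ∈ El s X, O H) :
    ∃ Y ⊆ X, Y.Infinite ∧ ∃ ρ, ∀ H ∈ El s Y, u H = ρ := by
  have : ∀ r, ∃ Y ⊆ X, Y.Infinite ∧
      ((∃ ρ, ∀ H ∈ El s Y, u H = ρ) ∨ ∀ H ∈ El s Y, r ≤ u H) := by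
    intro r
    induction r with
    | zero => exact ⟨X, subset_rfl, hX, Or.inr (by simp)⟩
    | succ r ih =>
      obtain ⟨Y, h1, h2, h3 | h3⟩ := ih
      · exact ⟨Y, h1, h2, Or.inl h3⟩
      obtain ⟨Z, k1, k2, k3 | k3⟩ := galvin (fun H => O H ∧ u H = r)
        (fun H h => (hO H h.1).mono fun H' h' => ⟨h'.1, h'.2.trans h.2⟩) s Y h2
      · exact ⟨Z, k1.trans h1, k2, Or.inl ⟨r, fun H hH => (k3 H hH).2⟩⟩
      · refine ⟨Z, k1.trans h1, k2, Or.inr fun H hH => ?_⟩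
        have a := h3 H (El_mono _ k1 hH)
        have b := k3 H hH
        have c := hs H (El_mono _ (k1.trans h1) hH)
        by_contra hh
        exact b ⟨c, by omega⟩
  obtain ⟨Y, h1, h2, h3 | h3⟩ := this q
  · exact ⟨Y, h1, h2, h3⟩
  · exact ⟨Y, h1, h2, 0, fun H hH => absurd (h3 H hH) (not_le.2 (hu H))⟩

end Pool.Agent.H5F
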