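import Mathlib

/-! A Gateaux smooth convex function on the long James space, part 1. -/

open Set Filter Topology Function

namespace H5G

variable {W : Type*} [LinearOrder W]

/-- the 2-variation of `g` squared is at most `r` -/
def C (g : W → ℝ) (r : ℝ) : Prop := ∃ k : W → ℝ, (∀ t, 0 ≤ k t ∧ k t ≤ r) ∧
  ∀ s t, s ≤ t → (g t - g s) ^ 2 ≤ k t - k s

lemma C.smul {g : W → ℝ} {r : ℝ} (h : C g r) (c : ℝ) : C (c • g) (c ^ 2 * r) := by
  obtain ⟨k, k1, k2⟩ := h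
  refine ⟨fun t => c ^ 2 * k t, fun t => ⟨mul_nonneg (sq_nonneg c) (k1 t).1,
    mul_le_mul_of_nonneg_left (k1 t).2 (sq_nonneg c)⟩, fun s t e => ?_⟩
  rw [Pi.smul_apply, Pi.smul_apply, smul_eq_mul, smul_eq_mul, ← mul_sub, ← mul_sub, mul_pow]
  exact mul_le_mul_of_nonneg_left (k2 s t e) (sq_nonneg c)

lemma C.add {g h : W → ℝ} {r s : ℝ} (a : C g r) (b : C h s) : C (g + h) (2 * r + 2 * s) := by
  obtain ⟨k, k1, k2⟩ := a
  obtain ⟨l, l1, l2⟩ := b
  refine ⟨fun t => 2 * k t + 2 * l t, fun t => ?_, fun s t e => ?_⟩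
  · constructor <;> linarith [k1 t, l1 t]
  · simp only [Pi.add_apply]
    nlinarith [k2 s t e, l2 s t e, sq_nonneg (g t - g s - (h t - h s))]

lemma C.mono {g : W → ℝ} {r s : ℝ} (a : C g r) (e : r ≤ s) : C g s :=
  let ⟨k, k1, k2⟩ := a
  ⟨k, fun t => ⟨(k1 t).1, (k1 t).2.trans e⟩, k2⟩

/-- linear functionals -/
abbrev L (W : Type*) := (W → ℝ) →ₗ[ℝ] ℝ

/-- admissible pairs -/
structure K (x m : L W) : Prop where
  pos : ∀ g, 0 ≤ g → 0 ≤ m g
  one : m 1 ≤ 2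
  loc : ∀ (φ g : W → ℝ) r, C g r → 0 ≤ φ → (∀ t, g t ≠ 0 → 1 ≤ φ t) → 2 * x g ≤ m φ + r

variable {x m : L W}

lemma K.abs (k : K x m) {φ g : W → ℝ} {r : ℝ} (h : C g r) (h0 : 0 ≤ φ)
    (h1 : ∀ t, g t ≠ 0 → 1 ≤ φ t) (c : ℝ) : 2 * c * |x g| ≤ m φ + c ^ 2 * r := by
  have := fun c : ℝ => k.loc φ _ _ (h.smul c) h0 fun t e => h1 t fun n => e (by simp [n])
  have a1 := this c
  have a2 := this (-c)
  rw [map_smul, smul_eq_mul] at a1 a2
  rcases abs_cases (x g) with h | h <;> rw [h.1] <;> nlinarith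

lemma K.abs1 (k : K x m) {g : W → ℝ} {r : ℝ} (h : C g r) (c : ℝ) :
    2 * c * |x g| ≤ 2 + c ^ 2 * r := by
  linarith [k.abs h zero_le_one (fun _ _ => le_rfl) c, k.one]

lemma K.neg (k : K x m) : K (-x) m := ⟨k.pos, k.one, fun φ g r h h0 h1 => by
  have := k.abs h h0 h1 1
  rw [LinearMap.neg_apply]
  linarith [neg_le_abs (x g)]⟩

lemma K.mid {y n : L W} (k : K x m) (l : K y n) :
    K ((1 / 2 : ℝ) • (x + y)) ((1 / 2 : ℝ) • (m + n)) := by
  refine ⟨fun g h => ?_, ?_, fun φ g r h h0 h1 => ?_⟩ <;>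
    simp only [LinearMap.smul_apply, LinearMap.add_apply, smul_eq_mul]
  · linarith [k.pos g h, l.pos g h]
  · linarith [k.one, l.one]
  · linarith [k.loc φ g r h h0 h1, l.loc φ g r h h0 h1]

lemma K.push (k : K x m) {π : W → W} (hπ : Monotone π) :
    K (x ∘ₗ LinearMap.funLeft ℝ ℝ π) (m ∘ₗ LinearMap.funLeft ℝ ℝ π) :=
  ⟨fun _ h => k.pos _ fun t => h (π t), k.one, fun φ g r ⟨c, c1, c2⟩ h0 h1 =>
    k.loc (φ ∘ π) (g ∘ π) r ⟨c ∘ π, fun t => c1 (π t), fun _ _ e => c2 _ _ (hπ e)⟩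
      (fun t => h0 (π t)) fun t => h1 (π t)⟩

/-- indicator of `[0, t]` -/
def χ (t : W) : W → ℝ := fun s => if s ≤ t then 1 else 0

/-- indicator of `{t}` -/
def e (t : W) : W → ℝ := fun s => if s = t then 1 else 0

lemma Cχ (t : W) : C (χ t) 1 := ⟨fun s => 1 - χ t s, fun s => by
  simp only [χ]; split_ifs <;> simp, fun s u h => by
    simp only [χ]
    split_ifs with h1 h2 h2
    · simp
    · exact (h2 (h.trans h1)).elim
    · simp
    · simp⟩

/-- the strictly concave coefficient -/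
def ℓ (x m : L W) (t : W) : ℝ := 3 + 8 * m (e t) - m (e t) ^ 2 - x (χ t) ^ 2

lemma K.ea (k : K x m) (t : W) : 0 ≤ m (e t) ∧ m (e t) ≤ 2 := by
  have := k.pos (1 - e t) fun s => by simp only [e, Pi.sub_apply]; split_ifs <;> simp
  rw [map_sub] at this
  exact ⟨k.pos _ fun s => by simp only [e]; split_ifs <;> simp, by linarith [k.one]⟩

lemma K.xa (k : K x m) (t : W) : |x (χ t)| ≤ 3 / 2 := by linarith [k.abs1 (Cχ t) 1]

lemma K.la (k : K x m) (t : W) : 3 / 4 ≤ ℓ x m t ∧ ℓ x m t ≤ 15 := by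
  have := k.ea t
  have := abs_le.1 (k.xa t)
  unfold ℓ
  constructor <;> nlinarith

variable [OrderTop W]

lemma C.nn {g : W → ℝ} {r : ℝ} (h : C g r) : 0 ≤ r :=
  let ⟨_, k1, _⟩ := h
  (k1 ⊤).1.trans (k1 ⊤).2

lemma K.zero : K (0 : L W) 0 := ⟨by simp, by simp, fun _ _ _ h _ _ => by simpa using h.nn⟩

/-- successor function -/
structure Nx (n : W → W) : Prop where
  le : ∀ t, t ≤ n t
  mn : ∀ s t, s < t → n s ≤ t
  lt : ∀ t, t ≠ ⊤ → t < n t

variable (n : W → W)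

/-- the jump -/
def τ (f : W → ℝ) (t : W) : ℝ := f t - f (n t)

/-- the weight -/
def w (f : W → ℝ) (t : W) : ℝ := τ n f t ^ 2 + e ⊤ t

/-- the payoff -/
def Φ (x m : L W) (F : Finset W) (f : W → ℝ) : ℝ := x f + ∑ t ∈ F, ℓ x m t * w n f t

/-- the smooth convex function -/
noncomputable def G (f : W → ℝ) : ℝ := sSup {v | ∃ x m F, K x m ∧ v = Φ n x m F f}

/-- near maximizers -/
def NM (f : W → ℝ) (δ : ℝ) (x m : L W) (F : Finset W) : Prop := K x m ∧ G n f - δ ≤ Φ n x m F f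

/-- near maximizers nearly agree on `h` -/
def P (f h : W → ℝ) : Prop := ∀ ε > 0, ∃ δ > 0, ∀ x m F y l E, NM n f δ x m F → NM n f δ y l E →
  |x h - y h| ≤ ε

variable {n} {f : W → ℝ} {r : ℝ}

lemma w0 (t : W) : 0 ≤ w n f t := add_nonneg (sq_nonneg _) (by simp only [e]; split_ifs <;> simp)

lemma K.mono (k : K x m) {F E : Finset W} (h : F ⊆ E) : Φ n x m F f ≤ Φ n x m E f :=
  add_le_add_right (Finset.sum_le_sum_of_subset_of_nonneg h fun t _ _ =>
    mul_nonneg (by linarith [k.la t]) (w0 t)) _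

lemma NM.mono {δ ε F E} (h : NM n f δ x m F) (h1 : δ ≤ ε) (h2 : F ⊆ E) : NM n f ε x m E :=
  ⟨h.1, by linarith [h.2, h.1.mono (n := n) (f := f) h2]⟩

lemma P.add {g h} (a : P n f g) (b : P n f h) : P n f (g + h) := fun ε hε => by
  obtain ⟨δ, d0, d⟩ := a _ (half_pos hε)
  obtain ⟨η, e0, e⟩ := b _ (half_pos hε)
  refine ⟨min δ η, lt_min d0 e0, fun x m F y l E h1 h2 => ?_⟩
  have := abs_le.1 (d x m F y l E (h1.mono (min_le_left _ _) le_rfl) (h2.mono (min_le_left _ _) le_rfl))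
  have := abs_le.1 (e x m F y l E (h1.mono (min_le_right _ _) le_rfl) (h2.mono (min_le_right _ _) le_rfl))
  rw [map_add, map_add, abs_le]
  constructor <;> linarith

lemma P.smul {h} (a : P n f h) (c : ℝ) : P n f (c • h) := fun ε hε => by
  obtain ⟨η, h0, h1⟩ := exists_pos_mul_lt hε |c|
  obtain ⟨δ, d0, d⟩ := a _ h0
  refine ⟨δ, d0, fun x m F y l E h2 h3 => ?_⟩
  rw [map_smul, map_smul, smul_eq_mul, smul_eq_mul, ← mul_sub, abs_mul]
  exact (mul_le_mul_of_nonneg_left (d x m F y l E h2 h3) (abs_nonneg c)).trans h1.le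

lemma P.zero : P n f 0 := fun ε hε => ⟨1, one_pos, fun _ _ _ _ _ _ _ _ => by simpa using hε.le⟩

lemma P.lim {h} (a : ∀ ε > 0, ∃ g u, h = g + u ∧ P n f g ∧ ∃ δ > 0, ∀ x m F, NM n f δ x m F →
    |x u| ≤ ε) : P n f h := fun ε hε => by
  obtain ⟨g, u, rfl, a1, η, e0, e⟩ := a (ε / 3) (by positivity)
  obtain ⟨δ, d0, d⟩ := a1 (ε / 3) (by positivity)
  refine ⟨min δ η, lt_min d0 e0, fun x m F y l E h1 h2 => ?_⟩
  have := abs_le.1 (d x m F y l E (h1.mono (min_le_left _ _) le_rfl) (h2.mono (min_le_left _ _) le_rfl))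
  have := abs_le.1 (e x m F (h1.mono (min_le_right _ _) le_rfl))
  have := abs_le.1 (e y l E (h2.mono (min_le_right _ _) le_rfl))
  rw [map_add, map_add, abs_le]
  constructor <;> linarith

variable (hn : Nx n)
include hn

lemma C.sum (h : C f r) (F : Finset W) : ∑ t ∈ F, τ n f t ^ 2 ≤ r := by
  obtain ⟨k, k1, k2⟩ := h
  have : ∀ b, (∀ t ∈ F, n t ≤ b) → ∑ t ∈ F, τ n f t ^ 2 ≤ k b := by
    induction F using Finset.induction_on_max with
    | empty => exact fun b _ => (k1 b).1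
    | insert a s h ih =>
      intro b hb
      rw [Finset.sum_insert fun k => (h a k).false]
      have := ih a fun t ht => hn.mn _ _ (h t ht)
      have := k2 _ _ (hn.le a)
      have := k2 _ _ (hb a (Finset.mem_insert_self _ _))
      unfold τ at *
      nlinarith [sq_nonneg (f b - f (n a))]
  exact (this ⊤ fun _ _ => le_top).trans (k1 ⊤).2

lemma K.sum (k : K x m) (h : C f r) (F : Finset W) : ∑ t ∈ F, ℓ x m t * τ n f t ^ 2 ≤ 15 * r :=
  (Finset.sum_le_sum fun t _ => mul_le_mul_of_nonneg_right (k.la t).2 (sq_nonneg _)).trans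
    (by rw [← Finset.mul_sum]; linarith [h.sum hn F])

lemma K.up (k : K x m) (h : C f r) (F : Finset W) : Φ n x m F f ≤ 16 + 16 * r := by
  have h1 : ∑ t ∈ F, ℓ x m t * e ⊤ t ≤ 15 := by
    simp only [e, mul_ite, mul_one, mul_zero, Finset.sum_ite_eq']
    split_ifs
    exacts [(k.la _).2, by norm_num]
  simp only [Φ, w, mul_add, Finset.sum_add_distrib]
  linarith [k.sum hn h F, k.abs1 h 1, le_abs_self (x f), h.nn]

lemma K.le (k : K x m) (h : C f r) (F : Finset W) : Φ n x m F f ≤ G n f :=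
  le_csSup ⟨_, by rintro _ ⟨x, m, F, k, rfl⟩; exact k.up hn h F⟩ ⟨x, m, F, k, rfl⟩

omit hn in
lemma G_le {c : ℝ} (h : ∀ x m F, K x m → Φ n x m F f ≤ c) : G n f ≤ c :=
  csSup_le ⟨_, 0, 0, ∅, K.zero, rfl⟩ (by rintro _ ⟨x, m, F, k, rfl⟩; exact h x m F k)

omit hn in
lemma exNM {δ : ℝ} (h : 0 < δ) : ∃ x m F, NM n f δ x m F := by
  obtain ⟨_, ⟨x, m, F, k, rfl⟩, a⟩ := exists_lt_of_lt_csSup
    (s := {v | ∃ x m F, K x m ∧ v = Φ n x m F f}) ⟨_, 0, 0, ∅, K.zero, rfl⟩ (sub_lt_self _ h)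
  exact ⟨x, m, F, k, a.le⟩

lemma NM.mid (h : C f r) {δ y l F} (a : NM n f δ x m F) (b : NM n f δ y l F) :
    ∑ t ∈ F, ((m (e t) - l (e t)) ^ 2 + (x (χ t) - y (χ t)) ^ 2) * w n f t ≤ 4 * δ := by
  have := (a.1.mid b.1).le hn h F
  have e1 : Φ n ((1 / 2 : ℝ) • (x + y)) ((1 / 2 : ℝ) • (m + l)) F f =
      (Φ n x m F f + Φ n y l F f + (∑ t ∈ F, ((m (e t) - l (e t)) ^ 2 +
        (x (χ t) - y (χ t)) ^ 2) * w n f t) / 2) / 2 := by
    simp only [Φ, ℓ, LinearMap.smul_apply, LinearMap.add_apply, smul_eq_mul, Finset.sum_div, add_div]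
    rw [add_add_add_comm, ← Finset.sum_add_distrib, add_assoc, ← Finset.sum_add_distrib]
    congr 1
    · ring
    · exact Finset.sum_congr rfl fun t _ => by ring
  linarith [a.2, b.2]

end H5G
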