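import Pool.Agent.Lib.helper5.GJ1

/-! A Gateaux smooth convex function on the long James space, part 2. -/

open Set Filter Topology Function

namespace H5G

variable {W : Type*} [LinearOrder W] [OrderTop W] [TopologicalSpace W] [OrderTopology W]
  {n : W → W} {f : W → ℝ} {r : ℝ} {x m : L W}

lemma ar {a b c d u v w θ : ℝ} (h1 : 0 ≤ a ∧ a ≤ 2) (h2 : 0 ≤ b ∧ b ≤ 2) (h3 : |c| ≤ 3 / 2)
    (h4 : |d| ≤ 3 / 2) (h5 : u ^ 2 ≤ w) :
    θ * ((3 + 8 * a - a ^ 2 - c ^ 2) * (2 * u * v) - (3 + 8 * b - b ^ 2 - d ^ 2) * (2 * u * v)) ≤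
      128 * (((a - b) ^ 2 + (c - d) ^ 2) * w) + θ ^ 2 * v ^ 2 := by
  rw [abs_le] at h3 h4
  have c2 : (8 - a - b) ^ 2 ≤ 64 := by nlinarith
  have c3 : (c + d) ^ 2 ≤ 64 := by nlinarith
  have c1 : ((8 - a - b) * (a - b) - (c + d) * (c - d)) ^ 2 ≤ 128 * ((a - b) ^ 2 + (c - d) ^ 2) := by
    linarith [mul_le_mul_of_nonneg_right c2 (sq_nonneg (a - b)),
      mul_le_mul_of_nonneg_right c3 (sq_nonneg (c - d)),
      sq_nonneg ((8 - a - b) * (a - b) + (c + d) * (c - d))]
  linarith [mul_le_mul c1 h5 (sq_nonneg _) (by positivity),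
    sq_nonneg (((8 - a - b) * (a - b) - (c + d) * (c - d)) * u - θ * v)]

/-- the interval between the lower set `A` and `γ` -/
def I {W : Type*} [LinearOrder W] (A : Set W) (γ : W) : Set W := {t | t ∉ A ∧ t < γ}

omit [OrderTop W] in
lemma tail {h : W → ℝ} (h1 : Continuous h) (h2 : C h r) (γ : W) {η : ℝ} (h0 : 0 < η) :
    ∃ A : Set W, (A = ∅ ∨ ∃ β < γ, A = Iic β) ∧
      C ((I A γ).indicator fun t => h t - h γ) η := by
  by_cases hγ : ∃ β, β < γ
  swap
  · refine ⟨∅, Or.inl rfl, 0, fun _ => ⟨le_rfl, h0.le⟩, fun s t _ => ?_⟩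
    rw [indicator_of_notMem fun k => hγ ⟨_, k.2⟩, indicator_of_notMem fun k => hγ ⟨_, k.2⟩]
    simp
  obtain ⟨k, k1, k2⟩ := h2
  obtain ⟨b, b1, b2⟩ := exists_Ioc_subset_of_mem_nhds ((((h1.sub continuous_const).pow 2).tendsto
    γ).eventually (gt_mem_nhds (show (h γ - h γ) ^ 2 < η / 3 by simpa using h0))) hγ
  obtain ⟨_, ⟨c, c1, rfl⟩, c2⟩ := exists_lt_of_lt_csSup (s := k '' Iio γ) ⟨_, b, b1, rfl⟩
    (sub_lt_self _ (show 0 < η / 3 by positivity))
  have m : ∀ s t, s ≤ t → k s ≤ k t := fun s t l => sub_nonneg.1 ((sq_nonneg _).trans (k2 s t l))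
  have c3 : ∀ t, max b c < t → t < γ → 0 ≤ k t - k c ∧ k t - k c ≤ η / 3 := fun t a1 a2 =>
    ⟨sub_nonneg.2 (m _ _ ((le_max_right _ _).trans a1.le)), by
      linarith [le_csSup (s := k '' Iio γ) ⟨r, forall_mem_image.2 fun t _ => (k1 t).2⟩ ⟨t, a2, rfl⟩]⟩
  have c4 : ∀ t, max b c < t → t < γ → (h t - h γ) ^ 2 ≤ η / 3 := fun t a1 a2 =>
    (b2 ⟨(le_max_left _ _).trans_lt a1, a2.le⟩).le
  have β1 : max b c < γ := max_lt b1 c1
  generalize max b c = β at *
  have : ∀ t, (I (Iic β) γ).indicator (fun t => h t - h γ) t =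
      if t ≤ β then 0 else if t < γ then h t - h γ else 0 := fun t => by
    split_ifs with a1 a2
    exacts [indicator_of_notMem (fun k => k.1 a1) _,
      indicator_of_mem (s := I (Iic β) γ) (And.intro a1 a2) _, indicator_of_notMem (fun k => a2 k.2) _]
  refine ⟨Iic β, Or.inr ⟨β, β1, rfl⟩, fun t => if t ≤ β then 0 else if t < γ then
    η / 3 + (k t - k c) else η, fun t => ?_, fun s t l => ?_⟩
  · beta_reduce
    split_ifs with a1 a2
    · exact ⟨le_rfl, h0.le⟩
    · constructor <;> linarith [c3 t (not_le.1 a1) a2]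
    · exact ⟨h0.le, le_rfl⟩
  · simp only [this]
    split_ifs with a1 a2 a3 a2 a3 a4 a4 a5
    · simp
    · exact (a2 (l.trans a1)).elim
    · exact (a2 (l.trans a1)).elim
    · nlinarith [c3 t (not_le.1 a1) a2, c4 t (not_le.1 a1) a2]
    · nlinarith [k2 s t l]
    · exact (a4 (l.trans_lt a2)).elim
    · simpa using h0.le
    · nlinarith [c3 s (not_le.1 a4) a5, c4 s (not_le.1 a4) a5]
    · simp

variable (hn : Nx n)
include hn

omit [OrderTop W] hn in
lemma const [WellFoundedLT W] (hm : ∀ s t, s < t → n s ≤ t) (h1 : Continuous f) {γ α : W}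
    (h : ∀ s, γ ≤ s → s < α → n s ≠ s ∧ s ≤ n s ∧ f s = f (n s)) :
    ∀ t, γ ≤ t → t ≤ α → f t = f γ := fun t => by
  refine wellFounded_lt.induction t (C := fun t => γ ≤ t → t ≤ α → f t = f γ) fun t ih a1 a2 => ?_
  rcases a1.eq_or_lt with rfl | a1
  · rfl
  refine eq_of_forall_dist_le fun ε hε => ?_
  obtain ⟨b, b1, b2⟩ := exists_Ioc_subset_of_mem_nhds (Metric.tendsto_nhds.1 (h1.tendsto t) ε hε)
    ⟨γ, a1⟩
  have β1 : max b γ < t := max_lt b1 a1
  obtain ⟨c1, c2, c3⟩ := h _ (le_max_right b γ) (β1.trans_le a2)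
  have := b2 ⟨(le_max_left b γ).trans_lt (c2.lt_of_ne' c1), hm _ _ β1⟩
  rw [mem_ofPred_eq, ← c3, ih _ β1 (le_max_right _ _) (β1.le.trans a2), dist_comm] at this
  exact this.le

omit [TopologicalSpace W] [OrderTopology W] in
lemma move (hf : C f r) {A : Set W} (hA : IsLowerSet A) {α : W} (hα : α ∉ A) {η δ : ℝ}
    (hg : C ((I A α).indicator fun t => f t - f α) η) {F} (a : NM n f δ x m F) (h0 : 0 < w n f α) :
    2 * w n f α * m ((I A α).indicator 1) ≤ δ + 15 * η + η / (8 * w n f α) := by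
  classical
  let π := fun t => if t ∈ I A α then α else t
  have p1 : ∀ s ∈ I A α, ∀ t ∉ I A α, (s ≤ t ↔ α ≤ t) ∧ s ≠ t := fun s hs t ht =>
    ⟨⟨fun h => not_lt.1 fun k => ht ⟨fun j => hs.1 (hA h j), k⟩, hs.2.le.trans⟩,
      fun h => ht (h ▸ hs)⟩
  have p2 : Monotone π := fun s t h => by
    simp only [π]
    split_ifs with h1 h2 h2
    exacts [le_rfl, (p1 s h1 t h2).1.1 h, h.trans h2.2.le, h]
  have k := a.1.push p2
  have αI : α ∉ I A α := fun h => h.2.false
  set g := (I A α).indicator fun t => f t - f α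
  set u : W → ℝ := (I A α).indicator 1
  have u0 : 0 ≤ u := indicator_nonneg fun _ _ => zero_le_one
  have q1 : LinearMap.funLeft ℝ ℝ π f = f - g := funext fun t => by
    by_cases h : t ∈ I A α <;> simp [π, g, h]
  have q2 : ∀ t ∉ I A α, LinearMap.funLeft ℝ ℝ π (χ t) = χ t := fun t ht => funext fun s => by
    by_cases h : s ∈ I A α
    · simp [π, χ, h, (p1 s h t ht).1]
    · simp [π, h]
  have q3 : ∀ t ∉ I A α, LinearMap.funLeft ℝ ℝ π (e t) = e t + e α t • u := fun t ht =>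
    funext fun s => by
      by_cases h : s ∈ I A α
      · rw [Pi.add_apply, Pi.smul_apply]
        simp [π, e, u, h, (p1 s h t ht).2, eq_comm]
      · simp [π, u, h]
  have M0 := a.1.pos u u0
  have q4 : ∀ t, ℓ x m t * w n f t + e α t * (4 * m u * w n f α) - 15 * τ n g t ^ 2 ≤
      ℓ (x ∘ₗ LinearMap.funLeft ℝ ℝ π) (m ∘ₗ LinearMap.funLeft ℝ ℝ π) t * w n f t := fun t => by
    by_cases h : t ∈ I A α
    · have t1 : τ n g t = τ n f t := by
        by_cases h' : n t ∈ I A α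
        · simp [τ, g, h, h']
        · simp [τ, g, h, le_antisymm (hn.mn _ _ h.2) ((p1 t h _ h').1.1 (hn.le t)), αI]
      have t2 : w n f t = τ n f t ^ 2 := by simp [w, e, h.2.ne_top]
      rw [t1, t2, show e α t = 0 from if_neg h.2.ne]
      nlinarith [k.la t, a.1.la t, sq_nonneg (τ n f t)]
    · have b1 := k.ea t
      have b2 := a.1.ea t
      simp only [ℓ, LinearMap.comp_apply, q2 t h, q3 t h, map_add, map_smul, smul_eq_mul] at b1 ⊢
      by_cases h' : t = α
      · subst h'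
        rw [show e t t = 1 from if_pos rfl] at *
        nlinarith [sq_nonneg (τ n g t), mul_nonneg (mul_nonneg M0 h0.le)
          (show 0 ≤ 4 - 2 * m (e t) - m u by linarith)]
      · rw [show e α t = 0 from if_neg h'] at *
        nlinarith [sq_nonneg (τ n g t)]
  have q5 := Finset.sum_le_sum fun t (_ : t ∈ insert α F) => q4 t
  have q6 := k.le hn hf (insert α F)
  have q7 := (a.mono le_rfl (Finset.subset_insert α F)).2
  have q8 := hg.sum hn (insert α F)
  have q9 := a.1.abs hg u0 (fun t h => by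
    rw [show u t = 1 from indicator_of_mem (mem_of_indicator_ne_zero h) _]) (1 / (4 * w n f α))
  simp only [Finset.sum_sub_distrib, Finset.sum_add_distrib, e, ite_mul, one_mul, zero_mul,
    Finset.sum_ite_eq', Finset.mem_insert_self, if_true, ← Finset.mul_sum] at q5
  simp only [Φ, LinearMap.comp_apply, q1, map_sub] at q6 q7
  have : x g ≤ 2 * w n f α * m u + η / (8 * w n f α) := by
    have := mul_le_mul_of_nonneg_left q9 (show 0 ≤ 2 * w n f α by positivity)
    refine (le_abs_self _).trans (le_of_eq_of_le ?_ (this.trans_eq ?_)) <;> field_simp <;> ring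
  linarith

omit [TopologicalSpace W] [OrderTopology W] in
lemma P.pos (hf : C f r) {γ : W} (h0 : 0 < w n f γ) : P n f (χ γ) := fun ε hε => by
  classical
  refine ⟨ε ^ 2 * w n f γ / 4, by positivity, fun x m F y l E h1 h2 => ?_⟩
  have := (Finset.single_le_sum (f := fun t => ((m (e t) - l (e t)) ^ 2 + (x (χ t) - y (χ t)) ^ 2) *
    w n f t) (fun t _ => mul_nonneg (by positivity) (w0 t)) (Finset.mem_insert_self γ _)).trans
    ((h1.mono le_rfl (Finset.subset_union_left.trans (Finset.subset_insert γ (F ∪ E)))).mid hn hf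
      (h2.mono le_rfl (Finset.subset_union_right.trans (Finset.subset_insert γ (F ∪ E)))))
  refine abs_le_of_sq_le_sq' ?_ hε.le |> abs_le.2
  refine le_of_mul_le_mul_right ?_ h0
  nlinarith [mul_nonneg (sq_nonneg (m (e γ) - l (e γ))) h0.le]

variable [WellFoundedLT W] (h1 : Continuous f) (hf : C f r)
include h1 hf

lemma P.chi (γ : W) : P n f (χ γ) := by
  refine wellFounded_lt.induction γ (C := fun γ => P n f (χ γ)) fun γ ih => ?_
  obtain ⟨α, ⟨a1, a2⟩, a3⟩ := wellFounded_lt.has_min {s | γ ≤ s ∧ 0 < w n f s}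
    ⟨⊤, le_top, add_pos_of_nonneg_of_pos (sq_nonneg _) (by simp [e])⟩
  rcases a1.eq_or_lt with rfl | a1
  · exact P.pos hn hf a2
  have c := const hn.mn h1 (γ := γ) (α := α) fun s s1 s2 => ⟨(hn.lt s s2.ne_top).ne', hn.le s, by
    have := not_lt.1 fun h => a3 s ⟨s1, h⟩ s2
    rw [w, show e ⊤ s = 0 from if_neg s2.ne_top, add_zero] at this
    exact sub_eq_zero.1 (pow_eq_zero_iff two_ne_zero |>.1 (this.antisymm (sq_nonneg _)))⟩
  refine P.lim fun ε hε => ?_
  have d0 : 0 < w n f α * ε ^ 2 / 8 := by positivity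
  obtain ⟨η, e0, e1⟩ := exists_pos_mul_lt d0 (15 + 1 / (8 * w n f α))
  obtain ⟨A, b1, b2⟩ := tail h1 hf γ e0
  have b3 : IsLowerSet A ∧ (∀ t ∈ A, t < γ) ∧ P n f (A.indicator 1) := by
    rcases b1 with rfl | ⟨β, b1, rfl⟩
    · exact ⟨isLowerSet_empty, by simp, by rw [indicator_empty']; exact P.zero⟩
    · refine ⟨isLowerSet_Iic β, fun t h => lt_of_le_of_lt h b1, ?_⟩
      convert ih β b1 using 1
      ext t
      simp [χ, indicator_apply]
  have b4 : ((I A γ).indicator fun t => f t - f γ) = (I A α).indicator fun t => f t - f α := by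
    ext t
    rw [c α a1.le le_rfl]
    by_cases h : t ∈ I A γ
    · rw [indicator_of_mem h, indicator_of_mem (s := I A α) (And.intro h.1 (h.2.trans a1))]
    · rw [indicator_of_notMem h]
      refine (indicator_apply_eq_zero.2 fun k => ?_).symm
      rw [c t (not_lt.1 fun j => h ⟨k.1, j⟩) k.2.le, sub_self]
  refine ⟨A.indicator 1, χ γ - A.indicator 1, by simp, b3.2.2, _, d0, fun x m F a => ?_⟩
  have b5 := move hn hf b3.1 (fun h => (b3.2.1 _ h).asymm a1) (b4 ▸ b2) a a2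
  have b6 : C (A.indicator 1) (1 : ℝ) := ⟨1 - A.indicator 1, fun t => by
    by_cases h : t ∈ A <;> simp [h], fun s t l => by
      by_cases h : t ∈ A
      · simp [h, b3.1 l h]
      · by_cases h' : s ∈ A <;> simp [h, h']⟩
  have b7 := a.1.abs ((Cχ γ).add (b6.smul (-1))) (φ := (I A α).indicator 1)
    (indicator_nonneg fun _ _ => zero_le_one) (fun t h => by
      rw [indicator_of_mem (s := I A α) (And.intro (fun k => h (by simp [χ, k, (b3.2.1 t k).le]))
        (lt_of_le_of_lt (by_contra fun k => h (by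
          simp [χ, k, mt (fun j => (b3.2.1 t j).le) k])) a1))]
      rfl) (ε / 4)
  rw [neg_one_smul, ← sub_eq_add_neg] at b7
  rw [add_mul, one_div_mul_eq_div] at e1
  have : m ((I A α).indicator 1) ≤ ε ^ 2 / 8 := le_of_mul_le_mul_left (by nlinarith) a2
  exact le_of_mul_le_mul_left (by nlinarith) hε

lemma P.all {h : W → ℝ} {s : ℝ} (h2 : Continuous h) (h3 : C h s) (h4 : h ⊤ = 0) : P n f h := by
  have : ∀ α, P n f ((Iio α).indicator fun t => h t - h α) := fun α => by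
    refine wellFounded_lt.induction α (C := fun α => P n f ((Iio α).indicator fun t => h t - h α))
      fun α ih => P.lim fun ε hε => ?_
    obtain ⟨A, b1, b2⟩ := tail h2 h3 α (show 0 < ε ^ 2 / 2 by positivity)
    have : ∀ x m F, NM n f 1 x m F → |x ((I A α).indicator fun t => h t - h α)| ≤ ε :=
      fun x m F a => by
        have := mul_le_mul_of_nonneg_left (a.1.abs1 b2 (2 / ε)) (show 0 ≤ ε / 4 by positivity)
        refine le_of_eq_of_le ?_ (this.trans_eq ?_) <;> field_simp <;> ring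
    rcases b1 with rfl | ⟨β, b1, rfl⟩
    · exact ⟨0, _, by simp [I, Iio], P.zero, 1, one_pos, this⟩
    refine ⟨_, _, funext fun t => ?_, (ih β b1).add ((P.chi hn h1 hf β).smul (h β - h α)), 1,
      one_pos, this⟩
    rcases lt_trichotomy t β with k | rfl | k
    · simp [I, χ, k, k.le, k.trans b1]
    · simp [I, χ, b1]
    · by_cases k' : t < α <;> simp [I, χ, k, k', k.not_ge, k.not_gt]
  convert this ⊤ using 1
  ext t
  rcases eq_or_ne t ⊤ with rfl | k
  · simp [h4]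
  · simp [h4, k.lt_top]

lemma G2 {h : W → ℝ} {s : ℝ} (h2 : Continuous h) (h3 : C h s) (h4 : h ⊤ = 0) {ε : ℝ}
    (hε : 0 < ε) : ∃ δ > 0, ∀ t, 0 < t → t < δ →
      G n (f + t • h) + G n (f + (-t) • h) - 2 * G n f ≤ ε * t := by
  classical
  obtain ⟨δ, d0, d⟩ := P.all hn h1 hf h2 h3 h4 (ε / 4) (by positivity)
  have s0 := h3.nn
  have r0 := hf.nn
  obtain ⟨θ, θ0, θ1⟩ := exists_pos_mul_lt (show 0 < ε / 4 by positivity) s
  obtain ⟨a, a0, a1⟩ := exists_pos_mul_lt (show 0 < ε / 4 by positivity) (2 + 30 * s)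
  obtain ⟨b, b0, b1⟩ := exists_pos_mul_lt (lt_min d0 (show 0 < ε / 4 * θ / 512 by positivity))
    (4 + 30 * r + 62 * s)
  refine ⟨min 1 (min a b), by positivity, fun t t0 t1 => not_lt.1 fun hc => ?_⟩
  simp only [lt_min_iff] at t1 b1
  obtain ⟨x, m, F, k1⟩ := exNM (n := n) (f := f + t • h) (pow_pos t0 2)
  obtain ⟨y, l, E, k2⟩ := exNM (n := n) (f := f + (-t) • h) (pow_pos t0 2)
  have ex : ∀ x m (c : ℝ), Φ n x m (F ∪ E) (f + c • h) = Φ n x m (F ∪ E) f + c * x h +
      c * ∑ u ∈ F ∪ E, ℓ x m u * (2 * τ n f u * τ n h u) +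
        c ^ 2 * ∑ u ∈ F ∪ E, ℓ x m u * τ n h u ^ 2 := fun x m c => by
    have : ∑ u ∈ F ∪ E, ℓ x m u * w n (f + c • h) u = ∑ u ∈ F ∪ E, (ℓ x m u * w n f u +
        c * (ℓ x m u * (2 * τ n f u * τ n h u)) + c ^ 2 * (ℓ x m u * τ n h u ^ 2)) :=
      Finset.sum_congr rfl fun u _ => by
        simp only [w, τ, Pi.add_apply, Pi.smul_apply, smul_eq_mul]; ring
    simp only [Φ, map_add, map_smul, smul_eq_mul, this, Finset.sum_add_distrib, ← Finset.mul_sum]
    ring
  have bd : ∀ x m, K x m → |∑ u ∈ F ∪ E, ℓ x m u * (2 * τ n f u * τ n h u)| ≤ 15 * r + 15 * s :=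
    fun x m k => (Finset.abs_sum_le_sum_abs _ _).trans ((Finset.sum_le_sum fun u _ => by
      have := (k.la u).1
      rw [abs_mul, abs_of_nonneg (by linarith), ← mul_add]
      exact mul_le_mul_of_nonneg_left (abs_le.2 ⟨by linarith [sq_nonneg (τ n f u + τ n h u)],
        by linarith [sq_nonneg (τ n f u - τ n h u)]⟩) (by linarith)).trans
          (Finset.sum_add_distrib.trans_le (add_le_add (k.sum hn hf _) (k.sum hn h3 _))))
  have p1 := (k1.mono le_rfl (Finset.subset_union_left (s₂ := E))).2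
  have p2 := (k2.mono le_rfl (Finset.subset_union_right (s₁ := F))).2
  rw [ex] at p1 p2
  have p3 := k1.1.le hn hf (F ∪ E)
  have p4 := k2.1.le hn hf (F ∪ E)
  have p5 := mul_le_mul_of_nonneg_left (k1.1.sum hn h3 (F ∪ E)) (sq_nonneg t)
  have p6 := mul_le_mul_of_nonneg_left (k2.1.sum hn h3 (F ∪ E)) (sq_nonneg t)
  have p7 := mul_le_mul_of_nonneg_left (abs_le.1 (bd x m k1.1)).2 t0.le
  have p8 := mul_le_mul_of_nonneg_left (abs_le.1 (bd y l k2.1)).1 t0.le
  have p9 := mul_le_mul_of_nonneg_left ((le_abs_self _).trans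
    (show |x h| ≤ 1 + s / 2 by linarith [k1.1.abs1 h3 1])) t0.le
  have p10 := mul_le_mul_of_nonneg_left ((neg_le_abs _).trans
    (show |y h| ≤ 1 + s / 2 by linarith [k2.1.abs1 h3 1])) t0.le
  have t2 : t ^ 2 ≤ t := by linarith [mul_lt_mul_of_pos_left t1.1 t0]
  have t3 := mul_le_mul_of_nonneg_right t2 s0
  have t4 := mul_pos hε t0
  have t6 := mul_nonneg t0.le s0
  have t5 := mul_lt_mul_of_pos_left t1.2.2 (show 0 < 4 + 30 * r + 62 * s by positivity)
  have n1 : NM n f ((4 + 30 * r + 62 * s) * t) x m (F ∪ E) := ⟨k1.1, by linarith⟩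
  have n2 : NM n f ((4 + 30 * r + 62 * s) * t) y l (F ∪ E) := ⟨k2.1, by linarith⟩
  have q1 := mul_le_mul_of_nonneg_left (abs_le.1 (d _ _ _ _ _ _ (n1.mono (by linarith) le_rfl)
    (n2.mono (by linarith) le_rfl))).2 t0.le
  have q2 := n1.mid hn hf n2
  have q3 : θ * (∑ u ∈ F ∪ E, ℓ x m u * (2 * τ n f u * τ n h u) -
      ∑ u ∈ F ∪ E, ℓ y l u * (2 * τ n f u * τ n h u)) ≤
      128 * ∑ t ∈ F ∪ E, ((m (e t) - l (e t)) ^ 2 + (x (χ t) - y (χ t)) ^ 2) * w n f t +
        θ ^ 2 * ∑ u ∈ F ∪ E, τ n h u ^ 2 := by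
    rw [← Finset.sum_sub_distrib, Finset.mul_sum, Finset.mul_sum, Finset.mul_sum,
      ← Finset.sum_add_distrib]
    exact Finset.sum_le_sum fun u _ => ar (k1.1.ea u) (k2.1.ea u) (k1.1.xa u) (k2.1.xa u)
      (le_add_of_nonneg_right (by simp only [e]; split_ifs <;> simp))
  have q4 := mul_le_mul_of_nonneg_left (h3.sum hn (F ∪ E)) (sq_nonneg θ)
  have q5 : ∑ u ∈ F ∪ E, ℓ x m u * (2 * τ n f u * τ n h u) -
      ∑ u ∈ F ∪ E, ℓ y l u * (2 * τ n f u * τ n h u) ≤ ε / 2 :=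
    le_of_mul_le_mul_left (by linarith [mul_lt_mul_of_pos_left θ1 θ0]) θ0
  have q6 := mul_le_mul_of_nonneg_left q5 t0.le
  have q7 := mul_lt_mul_of_pos_left ((mul_lt_mul_of_pos_left t1.2.1
    (show 0 < 2 + 30 * s by positivity)).trans a1) t0
  linarith

end H5G
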