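import Pool.Agent.Lib.helper5.GJ2

/-! A Gateaux smooth norm on the long James space. -/

open Set Filter Topology Function

namespace H5G

lemma oned {φ : ℝ → ℝ} (h : ConvexOn ℝ univ φ)
    (k : ∀ ε > 0, ∃ δ > 0, ∀ t, 0 < t → t < δ → φ t + φ (-t) - 2 * φ 0 ≤ ε * t) :
    ∃ d, Tendsto (fun t => (φ t - φ 0) / t) (𝓝[≠] 0) (𝓝 d) := by
  have i : (0 : ℝ) ∈ interior univ := by simp
  have a := h.hasDerivWithinAt_leftDeriv_of_mem_interior i
  have b := h.hasDerivWithinAt_rightDeriv_of_mem_interior i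
  have c : derivWithin φ (Iio 0) 0 = derivWithin φ (Ioi 0) 0 :=
    (h.leftDeriv_le_rightDeriv_of_mem_interior i).antisymm (le_of_forall_pos_le_add fun ε hε => by
      obtain ⟨δ, d0, d⟩ := k ε hε
      have t0 := half_pos d0
      have h1 := h.le_slope_of_hasDerivWithinAt_Ioi trivial trivial t0 b
      have h2 := h.slope_le_of_hasDerivWithinAt_Iio trivial trivial (neg_lt_zero.2 t0) a
      rw [slope_def_field, sub_zero, le_div_iff₀ t0] at h1
      rw [slope_def_field, zero_sub, neg_neg, div_le_iff₀ t0] at h2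
      exact le_of_mul_le_mul_right (by linarith [d _ t0 (half_lt_self d0)]) t0)
  have := hasDerivWithinAt_iff_tendsto_slope.1 ((c ▸ a).union b)
  rw [Iio_union_Ioi, sdiff_singleton_eq_self (by simp)] at this
  exact ⟨_, this.congr fun t => by rw [slope_def_field, sub_zero]⟩

variable {W : Type*} [LinearOrder W] [OrderTop W] (n : W → W)

/-- the perspective -/
noncomputable def Q (s : ℝ) (f : W → ℝ) : ℝ := s * G n (s⁻¹ • f)

/-- the norm -/
noncomputable def p (f : W → ℝ) : ℝ := sInf {v | ∃ s > 0, v = Q n s f}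

variable {n} {f g : W → ℝ} {r r' : ℝ}

lemma le_p {c : ℝ} (h : ∀ s > 0, c ≤ Q n s f) : c ≤ p n f :=
  le_csInf ⟨_, 1, one_pos, rfl⟩ (by rintro _ ⟨s, s0, rfl⟩; exact h s s0)

lemma Q_smul {a s : ℝ} (h : a ≠ 0) : Q n (a * s) (a • f) = a * Q n s f := by
  rw [Q, Q, smul_smul, mul_inv_rev, inv_mul_cancel_right₀ h, mul_assoc]

variable (hn : Nx n) (hf : C f r)
include hn hf

lemma G_neg : G n (-f) ≤ G n f := G_le fun x m F k => (k.neg.le hn hf F).trans_eq' (by
  simp only [Φ, ℓ, w, τ, LinearMap.neg_apply, map_neg, Pi.neg_apply]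
  congr 1
  exact Finset.sum_congr rfl fun t _ => by ring)

lemma G_cvx (hg : C g r') {a b : ℝ} (a0 : 0 ≤ a) (b0 : 0 ≤ b) (ab : a + b = 1) :
    G n (a • f + b • g) ≤ a * G n f + b * G n g := G_le fun x m F k => by
  have : ∑ t ∈ F, ℓ x m t * w n (a • f + b • g) t ≤
      ∑ t ∈ F, (a * (ℓ x m t * w n f t) + b * (ℓ x m t * w n g t)) :=
    Finset.sum_le_sum fun t _ => by
      have : w n (a • f + b • g) t ≤ a * w n f t + b * w n g t := by
        obtain rfl := eq_sub_of_add_eq' ab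
        simp only [w, τ, Pi.add_apply, Pi.smul_apply, smul_eq_mul]
        linarith [mul_nonneg (mul_nonneg a0 b0) (sq_nonneg (f t - f (n t) - (g t - g (n t))))]
      linarith [mul_le_mul_of_nonneg_left this (show 0 ≤ ℓ x m t by linarith [k.la t])]
  rw [Finset.sum_add_distrib, ← Finset.mul_sum, ← Finset.mul_sum] at this
  have h1 := mul_le_mul_of_nonneg_left (k.le hn hf F) a0
  have h2 := mul_le_mul_of_nonneg_left (k.le hn hg F) b0
  simp only [Φ, map_add, map_smul, smul_eq_mul] at h1 h2 ⊢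
  linarith

lemma G_low (t : W) : 3 * w n f t ≤ G n f := (K.zero.le hn hf {t}).trans_eq' (by simp [Φ, ℓ])

lemma Q_low {s : ℝ} (s0 : 0 < s) (t : W) : 3 * s ≤ Q n s f ∧ 3 * τ n f t ^ 2 ≤ s * Q n s f := by
  have h1 := G_low hn (hf.smul s⁻¹) ⊤
  have h2 := G_low hn (hf.smul s⁻¹) t
  have h3 : τ n f t = s * τ n (s⁻¹ • f) t := by
    simp only [τ, Pi.smul_apply, smul_eq_mul]; field_simp
  have h4 : 0 ≤ e ⊤ t := by simp only [e]; split_ifs <;> simp
  rw [w, show e (⊤ : W) ⊤ = 1 from if_pos rfl] at h1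
  rw [w] at h2
  rw [h3, Q]
  exact ⟨by nlinarith [sq_nonneg (τ n (s⁻¹ • f) ⊤)], by nlinarith [mul_pos s0 s0]⟩

lemma p_le {s : ℝ} (s0 : 0 < s) : p n f ≤ Q n s f :=
  csInf_le ⟨0, by rintro _ ⟨s, s0, rfl⟩; linarith [(Q_low hn hf s0 ⊤).1]⟩ ⟨s, s0, rfl⟩

lemma p_nn : 0 ≤ p n f := le_p fun s s0 => by linarith [(Q_low hn hf s0 ⊤).1]

lemma K.le_p {x m : L W} (k : K x m) : x f ≤ p n f := H5G.le_p fun s s0 => by
  have := mul_le_mul_of_nonneg_left (k.le hn (hf.smul s⁻¹) ∅) s0.le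
  rwa [Φ, Finset.sum_empty, add_zero, map_smul, smul_eq_mul, mul_inv_cancel_left₀ s0.ne'] at this

lemma p_up : p n f ≤ 32 * √r := le_of_forall_pos_le_add fun ε hε => by
  have s0 : 0 < √r + ε / 32 := by positivity
  refine (p_le hn hf s0).trans ((mul_le_mul_of_nonneg_left (G_le fun x m F k => k.up hn
    ((hf.smul _).mono (s := 1) ?_) F) s0.le).trans_eq (by ring))
  rw [inv_pow, inv_mul_le_iff₀ (by positivity)]
  nlinarith [Real.sq_sqrt hf.nn, Real.sqrt_nonneg r]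

lemma Q_add (hg : C g r') {s t : ℝ} (s0 : 0 < s) (t0 : 0 < t) :
    Q n (s + t) (f + g) ≤ Q n s f + Q n t g := by
  have st : 0 < s + t := by positivity
  have := mul_le_mul_of_nonneg_left (G_cvx hn (hf.smul s⁻¹) (hg.smul t⁻¹) (a := s / (s + t))
    (b := t / (s + t)) (by positivity) (by positivity) (by field_simp)) st.le
  rw [smul_smul, smul_smul, show s / (s + t) * s⁻¹ = (s + t)⁻¹ by field_simp,
    show t / (s + t) * t⁻¹ = (s + t)⁻¹ by field_simp, ← smul_add] at this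
  exact this.trans_eq (by unfold Q; field_simp)

lemma p_add (hg : C g r') : p n (f + g) ≤ p n f + p n g :=
  sub_le_iff_le_add.1 (le_p fun _ s0 => sub_le_comm.1 (le_p fun _ t0 => sub_le_iff_le_add'.2
    ((p_le hn (hf.add hg) (add_pos s0 t0)).trans (Q_add hn hf hg s0 t0))))

lemma p_smul_le (a : ℝ) : p n (a • f) ≤ |a| * p n f := by
  have pos : ∀ {g r} a, C g r → 0 < a → p n (a • g) ≤ a * p n g := fun a hg a0 =>
    (inv_mul_le_iff₀ a0).1 (le_p fun s s0 => (inv_mul_le_iff₀ a0).2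
      ((p_le hn (hg.smul a) (mul_pos a0 s0)).trans_eq (Q_smul a0.ne')))
  rcases lt_trichotomy a 0 with h | rfl | h
  · rw [abs_of_neg h, ← neg_smul_neg, ← neg_one_smul ℝ f]
    refine (pos _ (hf.smul _) (neg_pos.2 h)).trans (mul_le_mul_of_nonneg_left (le_p fun s s0 =>
      (p_le hn (hf.smul _) s0).trans (mul_le_mul_of_nonneg_left ?_ s0.le)) (neg_pos.2 h).le)
    rw [neg_one_smul, smul_neg]
    exact G_neg hn (hf.smul _)
  · simpa using p_up hn (hf.smul 0)
  · rw [abs_of_pos h]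
    exact pos a hf h

lemma p_smul (a : ℝ) : p n (a • f) = |a| * p n f := (p_smul_le hn hf a).antisymm (by
  rcases eq_or_ne a 0 with rfl | h
  · simpa using p_nn hn (hf.smul 0)
  have := p_smul_le hn (hf.smul a) a⁻¹
  rwa [inv_smul_smul₀ h, abs_inv, le_inv_mul_iff₀ (abs_pos.2 h)] at this)

lemma p_att {t : W} (h : τ n f t ≠ 0) : ∃ s > 0, Q n s f ≤ p n f := by
  have c : ConvexOn ℝ (Ioi 0) fun s => Q n s f := convexOn_iff_forall_pos.2 ⟨convex_Ioi 0,
    fun s s0 u u0 a b a0 b0 ab => by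
      have := Q_add hn (hf.smul a) (hf.smul b) (mul_pos a0 s0) (mul_pos b0 u0)
      rwa [← add_smul, ab, one_smul, Q_smul a0.ne', Q_smul b0.ne'] at this⟩
  have q := (Q_low hn hf one_pos t).1
  have a0 : 0 < min 1 (τ n f t ^ 2 / Q n 1 f) := lt_min one_pos (div_pos (by positivity) (by linarith))
  have m1 : (1 : ℝ) ∈ Icc (min 1 (τ n f t ^ 2 / Q n 1 f)) (Q n 1 f) := ⟨min_le_left _ _, by linarith⟩
  obtain ⟨s, s1, s2⟩ := isCompact_Icc.exists_isMinOn ⟨1, m1⟩
    ((c.continuousOn isOpen_Ioi).mono fun s h => a0.trans_le h.1)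
  refine ⟨s, a0.trans_le s1.1, le_p fun u u0 => ?_⟩
  have s3 : Q n s f ≤ Q n 1 f := s2 m1
  have u1 := Q_low hn hf u0 t
  by_cases hu : u ∈ Icc (min 1 (τ n f t ^ 2 / Q n 1 f)) (Q n 1 f)
  · exact s2 hu
  rcases not_and_or.1 hu with k | k
  · have := (lt_div_iff₀ (by linarith)).1 ((not_le.1 k).trans_le (min_le_right _ _))
    exact s3.trans (le_of_mul_le_mul_left (by linarith [sq_nonneg (τ n f t)]) u0)
  · linarith [not_le.1 k]

theorem gat [TopologicalSpace W] [OrderTopology W] [WellFoundedLT W] (f1 : Continuous f)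
    (f2 : f ⊤ = 0) (f3 : f ≠ 0) (hg : C g r') (g1 : Continuous g) (g2 : g ⊤ = 0) :
    ∃ d, Tendsto (fun t : ℝ => (p n (f + t • g) - p n f) / t) (𝓝[≠] 0) (𝓝 d) := by
  obtain ⟨t, ht⟩ : ∃ t, τ n f t ≠ 0 := by
    by_contra! h
    exact f3 (funext fun γ => (const hn.mn f1 (γ := γ) (α := ⊤) (fun s _ k =>
      ⟨(hn.lt s k.ne).ne', hn.le s, sub_eq_zero.1 (h s)⟩) ⊤ le_top le_rfl).symm.trans f2)
  obtain ⟨s, s0, s1⟩ := p_att hn hf ht
  have c := fun t => hf.add (hg.smul t)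
  have := oned (φ := fun t => p n (f + t • g)) ⟨convex_univ, fun u _ v _ a b a0 b0 ab => by
    have := p_add hn ((c u).smul a) ((c v).smul b)
    rw [p_smul hn (c u), p_smul hn (c v), abs_of_nonneg a0, abs_of_nonneg b0, smul_add, smul_add,
      add_add_add_comm, ← add_smul, ab, one_smul, smul_smul, smul_smul, ← add_smul] at this
    exact this⟩ fun ε hε => by
      obtain ⟨δ, d0, d⟩ := G2 hn (f1.const_smul s⁻¹) (hf.smul s⁻¹) (g1.const_smul s⁻¹)
        (hg.smul s⁻¹) (by simp [g2]) (div_pos hε s0)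
      refine ⟨δ, d0, fun t t0 t1 => ?_⟩
      have h1 := p_le hn (c t) s0
      have h2 := p_le hn (c (-t)) s0
      have h3 := mul_le_mul_of_nonneg_left (d t t0 t1) s0.le
      rw [Q, smul_add, smul_comm] at h1 h2
      rw [← mul_assoc, mul_div_cancel₀ _ s0.ne'] at h3
      rw [Q] at s1
      simp only [zero_smul, add_zero]
      linarith
  simpa using this

omit hn hf

/-- the chain sums -/
def V (f : W → ℝ) : Set ℝ := {s : ℝ | ∃ n : ℕ, ∃ α : Fin (n + 1) → W, StrictMono α ∧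
  s = ∑ i : Fin n, (f (α i.succ) - f (α i.castSucc)) ^ 2}

omit [OrderTop W] in
lemma ctl (h : BddAbove (V f)) : C f (sSup (V f)) := by
  let A := fun t => {s : ℝ | ∃ n : ℕ, ∃ α : Fin (n + 1) → W, (StrictMono α ∧
    s = ∑ i : Fin n, (f (α i.succ) - f (α i.castSucc)) ^ 2) ∧ α (Fin.last n) = t}
  have a1 : ∀ t, A t ⊆ V f := fun t s ⟨n, α, k, _⟩ => ⟨n, α, k⟩
  have a2 : ∀ t, 0 ∈ A t := fun t => ⟨0, fun _ => t, ⟨Subsingleton.strictMono (α := Fin 1) _, by simp⟩, rfl⟩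
  refine ⟨fun t => sSup (A t), fun t => ⟨le_csSup (h.mono (a1 t)) (a2 t),
    csSup_le_csSup h ⟨_, a2 t⟩ (a1 t)⟩, fun s t l => ?_⟩
  rcases l.eq_or_lt with rfl | l
  · simp
  refine le_sub_comm.1 (csSup_le ⟨_, a2 s⟩ ?_)
  rintro _ ⟨n, α, ⟨k, rfl⟩, rfl⟩
  refine le_sub_iff_add_le.2 (le_csSup (h.mono (a1 t)) ⟨n + 1, Fin.snoc α t,
    ⟨Fin.strictMono_iff_lt_succ.2 fun i => ?_, ?_⟩, Fin.snoc_last _ _⟩)
  · induction i using Fin.lastCases with
    | last => simpa using l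
    | cast i => simpa [← Fin.castSucc_succ] using k i.castSucc_lt_succ
  · simp [Fin.sum_univ_castSucc, ← Fin.castSucc_succ]

lemma low (hn : Nx n) (h : BddAbove (V f)) : √(sSup (V f)) ≤ p n f := by
  have hf := ctl h
  rcases (Real.sqrt_nonneg (sSup (V f))).eq_or_lt with z | z
  · exact z ▸ p_nn hn hf
  refine le_of_mul_le_mul_left ((Real.mul_self_sqrt hf.nn).trans_le (csSup_le
    ⟨0, 0, fun _ => ⊤, Subsingleton.strictMono (α := Fin 1) _, by simp⟩ ?_)) z
  rintro _ ⟨k, α, a1, rfl⟩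
  let c := fun i : Fin k => (f (α i.succ) - f (α i.castSucc)) / √(sSup (V f))
  have c1 : ∑ i, c i ^ 2 ≤ 1 := by
    simp only [c, div_pow, Real.sq_sqrt hf.nn, ← Finset.sum_div]
    exact div_le_one_of_le₀ (le_csSup h ⟨k, α, a1, rfl⟩) hf.nn
  let δ : W → L W := fun t => LinearMap.proj t
  have : K (∑ i, c i • (δ (α i.succ) - δ (α i.castSucc)))
      (∑ i, c i ^ 2 • (δ (α i.succ) + δ (α i.castSucc))) := by
    refine ⟨fun g h => ?_, ?_, fun φ g r ⟨u, u1, u2⟩ h0 h1 => ?_⟩ <;>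
      simp only [δ, LinearMap.sum_apply, LinearMap.smul_apply, LinearMap.add_apply,
        LinearMap.sub_apply, LinearMap.proj_apply, smul_eq_mul]
    · exact Finset.sum_nonneg fun i _ => mul_nonneg (sq_nonneg _) (add_nonneg (h _) (h _))
    · simp only [Pi.one_apply, ← Finset.sum_mul]
      linarith
    · have e1 := Fin.sum_univ_succ fun i => u (α i)
      have e2 := Fin.sum_univ_castSucc fun i => u (α i)
      have : ∑ i, 2 * (c i * (g (α i.succ) - g (α i.castSucc))) ≤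
          ∑ i, (c i ^ 2 * (φ (α i.succ) + φ (α i.castSucc)) + (u (α i.succ) - u (α i.castSucc))) :=
        Finset.sum_le_sum fun i _ => by
          have b1 := u2 _ _ (a1 i.castSucc_lt_succ).le
          have b2 : 0 ≤ φ (α i.succ) := h0 _
          have b3 : 0 ≤ φ (α i.castSucc) := h0 _
          by_cases b : g (α i.succ) = 0 ∧ g (α i.castSucc) = 0
          · rw [b.1, b.2] at *
            nlinarith [sq_nonneg (c i)]
          · have : 1 ≤ φ (α i.succ) + φ (α i.castSucc) := by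
              rcases not_and_or.1 b with b | b <;> linarith [h1 _ b]
            nlinarith [sq_nonneg (c i - (g (α i.succ) - g (α i.castSucc))), sq_nonneg (c i)]
      rw [← Finset.mul_sum, Finset.sum_add_distrib, Finset.sum_sub_distrib] at this
      linarith [u1 (α 0), u1 (α (Fin.last k))]
  refine le_trans (le_of_eq ?_) (mul_le_mul_of_nonneg_left (this.le_p hn hf) z.le)
  simp only [δ, LinearMap.sum_apply, LinearMap.smul_apply, LinearMap.sub_apply, LinearMap.proj_apply,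
    smul_eq_mul, Finset.mul_sum]
  exact Finset.sum_congr rfl fun i _ => by simp only [c]; field_simp

lemma exNx [WellFoundedLT W] : ∃ n : W → W, Nx n := by
  have : ∀ t : W, ∃ u, t ≤ u ∧ (∀ s, t < s → u ≤ s) ∧ (t ≠ ⊤ → t < u) := fun t => by
    rcases eq_or_ne t ⊤ with rfl | h
    · exact ⟨⊤, le_rfl, by simp, by simp⟩
    obtain ⟨u, u1, u2⟩ := wellFounded_lt.has_min (Ioi t) ⟨⊤, h.lt_top⟩
    exact ⟨u, le_of_lt u1, fun s k => not_lt.1 (u2 s k), fun _ => u1⟩
  choose n h1 h2 h3 using this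
  exact ⟨n, h1, h2, h3⟩

end H5G
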