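import Pool.Agent.Lib.helper5.Monol
import Pool.Agent.Lib.helper5.CpEquiv

/-! Grothendieck spaces and perfect preimages. -/

open Set Filter Topology

namespace H5G

/-- `C_p(X)` -/
abbrev Cp (X : Type) [TopologicalSpace X] : Type := {f : X → ℝ // Continuous f}

/-- `A` is countably compact in `Z` -/
def CC {Z : Type} [TopologicalSpace Z] (A : Set Z) : Prop :=
  ∀ B ⊆ A, B.Infinite → ∃ z : Z, AccPt z (𝓟 B)

/-- `Z` is a g-space -/
def GSpace (Z : Type) [TopologicalSpace Z] : Prop := ∀ A : Set Z, CC A → IsCompact (closure A)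

/-- `C_p(X)` is a hereditarily g-space -/
def Groth (X : Type) [TopologicalSpace X] : Prop := ∀ S : Set (Cp X), GSpace S

/-- `C_p(X)` is a g-space -/
def WGroth (X : Type) [TopologicalSpace X] : Prop := GSpace (Cp X)

variable {Z Y : Type} [TopologicalSpace Z] [TopologicalSpace Y]

lemma CC.seq [T1Space Z] {A : Set Z} (h : CC A) {a : ℕ → Z} (ha : ∀ n, a n ∈ A) :
    ∃ z, MapClusterPt z atTop a := by
  by_cases hf : (range a).Finite
  · obtain ⟨z, -, hz⟩ := hf.isCompact.exists_mapClusterPt (f := atTop) (u := a)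
      (le_principal_iff.2 (mem_map.2 (univ_mem' fun n => mem_range_self n)))
    exact ⟨z, hz⟩
  obtain ⟨z, hz⟩ := h _ (range_subset_iff.2 ha) hf
  refine ⟨z, mapClusterPt_iff_frequently.2 fun U hU => frequently_atTop.2 fun N => ?_⟩
  have hc : IsClosed (a '' Iio N \ {z}) := (((finite_Iio N).image a).subset sdiff_subset).isClosed
  obtain ⟨_, ⟨⟨h1, h2⟩, n, rfl⟩, h3⟩ := accPt_iff_nhds.1 hz _
    (inter_mem hU (hc.isOpen_compl.mem_nhds fun h => h.2 rfl))
  exact ⟨n, not_lt.1 fun hn => h2 ⟨⟨n, hn, rfl⟩, h3⟩, h1⟩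

lemma pos {D : Set Y} (hD : D.Countable) (hd : Dense D) {j : Z → Y → ℝ} (hj : IsEmbedding j)
    (hc : ∀ z, Continuous (j z)) : GSpace Z := by
  intro A hA
  have := hj.t1Space
  have b : ∀ y, ∃ r : ℝ, ∀ a ∈ A, |j a y| ≤ r := fun y => by
    by_contra hn
    push Not at hn
    choose a a1 a2 using fun n : ℕ => hn n
    obtain ⟨z, hz⟩ := hA.seq a1
    have hc : Continuous fun z => |j z y| := ((continuous_apply y).comp hj.continuous).abs
    obtain ⟨N, hN⟩ := exists_nat_gt (|j z y| + 1)
    obtain ⟨n, h1, h2⟩ := frequently_atTop.1 (hz.frequently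
      (hc.continuousAt.eventually (gt_mem_nhds (lt_add_one _)))) N
    have : (N : ℝ) ≤ n := Nat.cast_le.2 h1
    linarith [a2 n]
  choose r hr using b
  have k : IsCompact (closure (j '' A)) := (isCompact_univ_pi fun y =>
    isCompact_Icc (a := -r y) (b := r y)).of_isClosed_subset isClosed_closure
    (closure_minimal (image_subset_iff.2 fun a ha y _ => abs_le.1 (hr y a ha))
      (isClosed_set_pi fun _ _ => isClosed_Icc))
  rw [hj.closure_eq_preimage_closure_image]
  refine hj.isInducing.isCompact_preimage' k fun g hg => ?_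
  have key : ∀ T : Set Y, T.Countable → ∃ z, ∀ t ∈ T, j z t = g t := fun T hT => by
    have := hT.to_subtype
    have hr : Continuous fun (g : Y → ℝ) (t : T) => g t := by fun_prop
    obtain ⟨u, u1, u2⟩ := mem_closure_iff_seq_limit.1
      (map_mem_closure (t := (fun (g : Y → ℝ) (t : T) => g t) '' (j '' A)) hr hg
        fun x hx => mem_image_of_mem _ hx)
    simp only [image_image, mem_image] at u1
    choose a a1 a2 using u1
    obtain ⟨z, hz⟩ := hA.seq a1
    have h1 := hz.continuousAt_comp (hr.comp hj.continuous).continuousAt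
    have h2 : (((fun (g : Y → ℝ) (t : T) => g t) ∘ j) ∘ a) = u := funext a2
    rw [h2] at h1
    have h3 := eq_of_nhds_neBot (h1.clusterPt.mono u2)
    exact ⟨z, fun t ht => congrFun h3 ⟨t, ht⟩⟩
  obtain ⟨z, hz⟩ := key D hD
  refine ⟨z, funext fun y => ?_⟩
  obtain ⟨w, hw⟩ := key _ (hD.insert y)
  rw [← hw y (mem_insert _ _), (hc z).ext_on hd (hc w) fun t ht => by
    rw [hz t ht, hw t (mem_insert_of_mem _ ht)]]

lemma neg {I : Set Y} (h1 : ∀ y ∈ I, IsOpen {y}) (h2 : ∀ C ⊆ I, C.Countable → IsClosed C)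
    (h3 : ¬ IsClosed I) {j : Z → Y → ℝ} (hj : IsEmbedding j)
    (hc : range j = {f | Continuous f}) : ¬ GSpace Z := by
  classical
  intro H
  let K : Set Y → Set (Y → ℝ) := fun C => pi univ fun y => if y ∈ C then Icc 0 1 else {0}
  have k1 : ∀ C, IsCompact (K C) := fun C => isCompact_univ_pi fun y => by
    split_ifs
    exacts [isCompact_Icc, isCompact_singleton]
  have k2 : ∀ C ⊆ I, C.Countable → K C ⊆ range j := fun C c1 c2 g hg => by
    rw [hc]
    refine continuous_iff_continuousAt.2 fun y => ?_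
    by_cases h : y ∈ C
    · rw [ContinuousAt, (isOpen_singleton_iff_nhds_eq_pure y).1 (h1 y (c1 h))]
      exact tendsto_pure_nhds _ _
    · refine (continuousAt_const (y := 0)).congr ?_
      filter_upwards [(h2 C c1 c2).isOpen_compl.mem_nhds h] with x hx
      have := hg x trivial
      beta_reduce at this
      rw [if_neg hx] at this
      exact this.symm
  have k3 : ∀ C C', C ⊆ C' → K C ⊆ K C' := fun C C' h => pi_mono fun y _ => by
    split_ifs with a b
    · rfl
    · exact absurd (h a) b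
    · simp
    · rfl
  have := H {z | ∃ C ⊆ I, C.Countable ∧ j z ∈ K C} fun B b1 b2 => by
    obtain ⟨B', c1, c3, c2⟩ := b2.exists_subset_countable_infinite
    have b3 : ∀ z ∈ B, ∃ C ⊆ I, C.Countable ∧ j z ∈ K C := b1
    choose! C d1 d2 d3 using b3
    obtain ⟨z, -, hz⟩ := c2.exists_accPt_of_subset_isCompact
      (hj.isInducing.isCompact_preimage' (k1 (⋃ z ∈ B', C z)) (k2 _
        (iUnion₂_subset fun z hz => d1 _ (c1 hz)) (c3.biUnion fun z hz => d2 _ (c1 hz))))
      fun z hz => k3 _ _ (subset_biUnion_of_mem (u := C) hz) (d3 _ (c1 hz))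
    exact ⟨z, hz.mono (principal_mono.2 c1)⟩
  have k4 : I.indicator 1 ∈ j '' closure {z | ∃ C ⊆ I, C.Countable ∧ j z ∈ K C} := by
    refine closure_minimal (image_mono subset_closure) (this.image hj.continuous).isClosed
      (mem_closure_iff.2 fun U u1 u2 => ?_)
    obtain ⟨G, hG⟩ := H5C.face_open u1 u2
    have m : (I ∩ G).indicator 1 ∈ K (I ∩ G) := fun y _ => by
      beta_reduce
      split_ifs with h
      · rw [indicator_of_mem h]; simp
      · rw [indicator_of_notMem h]; simp
    have c : (I ∩ G).Countable := G.countable_toSet.mono inter_subset_right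
    obtain ⟨z, hz⟩ := k2 _ inter_subset_left c m
    refine ⟨_, hG fun y hy => ?_, z, ⟨_, inter_subset_left, c, hz ▸ m⟩, hz⟩
    by_cases h : y ∈ I
    · rw [indicator_of_mem h, indicator_of_mem (show y ∈ I ∩ ↑G from ⟨h, hy⟩)]
    · rw [indicator_of_notMem h, indicator_of_notMem fun h' => h h'.1]
  obtain ⟨z, -, hz⟩ := k4
  have k5 : Continuous (I.indicator (1 : Y → ℝ)) := hz ▸ hc.le ⟨z, rfl⟩
  refine h3 ?_
  have : I = I.indicator (1 : Y → ℝ) ⁻¹' {1} := by
    ext y; by_cases h : y ∈ I <;> simp [h]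
  rw [this]
  exact isClosed_singleton.preimage k5

lemma range_val : range (Subtype.val : Cp Y → Y → ℝ) = {f | Continuous f} := Subtype.range_coe

theorem main : ∃ (X Y : Type) (_ : TopologicalSpace X) (_ : TopologicalSpace Y) (_ : T35Space X)
    (_ : T35Space Y) (f : X → Y), Continuous f ∧ IsClosedMap f ∧ Function.Surjective f ∧
      (∀ y, IsCompact (f ⁻¹' {y})) ∧ Groth Y ∧ WGroth Y ∧ ¬ Groth X ∧ ¬ WGroth X := by
  classical
  let Γ := ℕ → Bool
  have hΓ : Uncountable Γ :=
    Cardinal.aleph0_lt_mk_iff.1 (by simp [Γ, Cardinal.aleph0_lt_continuum])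
  let J := ℕ → Γ
  obtain ⟨e, he⟩ := H5M.sep (X := J) (φ := id)
  let x : Γ → J → ℝ := fun γ s => if γ ∈ range s then 1 else 0
  let D : Set ((J → ℝ) × ℝ) := range fun p : ℕ × ℕ => (e p.1, 1 / (p.2 + 1))
  let Y : Set ((J → ℝ) × ℝ) := (insert 0 (range x)) ×ˢ {0} ∪ D
  let F : Set Y := {y | y.1.2 = 0}
  have hF : IsClosed F := isClosed_eq (by fun_prop) continuous_const
  have hd : Dense (Subtype.val ⁻¹' D : Set Y) := by
    refine Subtype.dense_iff.2 ?_
    rw [image_preimage_eq_of_subset (by rw [Subtype.range_coe]; exact subset_union_right)]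
    rintro ⟨g, t⟩ (⟨-, h⟩ | h)
    swap
    · exact subset_closure h
    obtain rfl : t = 0 := h
    have : D = (range fun i => e i ∘ id) ×ˢ range fun m : ℕ => (1 / (m + 1) : ℝ) := by
      rw [prod_range_range_eq]; rfl
    rw [this, closure_prod_eq]
    exact ⟨he g (Function.injective_id.factorsThrough _), mem_closure_of_tendsto
      tendsto_one_div_add_atTop_nhds_zero_nat (.of_forall fun m => ⟨m, rfl⟩)⟩
  have hD : (Subtype.val ⁻¹' D : Set Y).Countable :=
    (countable_range _).preimage Subtype.val_injective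
  let p : Γ → F := fun γ => ⟨⟨(x γ, 0), Or.inl ⟨Or.inr ⟨γ, rfl⟩, rfl⟩⟩, rfl⟩
  let o : F := ⟨⟨(0, 0), Or.inl ⟨Or.inl rfl, rfl⟩⟩, rfl⟩
  have cases : ∀ y : F, y = o ∨ ∃ γ, y = p γ := by
    rintro ⟨⟨⟨g, t⟩, ⟨h | ⟨γ, h⟩, h'⟩ | ⟨q, h⟩⟩, h''⟩
    · left; obtain rfl : t = 0 := h''; obtain rfl : g = 0 := h; rfl
    · right; obtain rfl : t = 0 := h''; obtain rfl : x γ = g := h; exact ⟨γ, rfl⟩
    · obtain rfl : t = 0 := h''
      have : (1 / (q.2 + 1) : ℝ) = 0 := congrArg Prod.snd h
      exact absurd this (by positivity)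
  have co : ∀ s : J, Continuous fun y : F => y.1.1.1 s := fun s => by fun_prop
  have hop : o ∉ range p := by
    rintro ⟨γ, h⟩
    simpa [p, x, o] using congrArg (fun y : F => y.1.1.1 fun _ => γ) h
  have pi : Function.Injective p := fun γ δ h => by
    simpa [p, x, eq_comm] using congrArg (fun y : F => y.1.1.1 fun _ => γ) h
  have cl : ∀ s : J, {y : F | y.1.1.1 s ≠ 0} = p '' range s ∧
      {y : F | y.1.1.1 s = 1} = p '' range s := fun s => by
    have ho : o ∉ p '' range s := fun h => hop (image_subset_range _ _ h)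
    constructor <;> ext y <;> rcases cases y with rfl | ⟨γ, rfl⟩
    · simpa [o] using ho
    · rw [pi.mem_set_image]; simp [p, x]
    · simpa [o] using ho
    · rw [pi.mem_set_image]; simp [p, x]
  have n : ∀ (Z : Type) [TopologicalSpace Z] (j : Z → (Y ⊕ F) → ℝ), IsEmbedding j →
      range j = {f | Continuous f} → ¬ GSpace Z := fun Z _ j j1 j2 => by
    refine neg (I := Sum.inr '' range p) ?_ ?_ ?_ j1 j2
    · rintro _ ⟨_, ⟨γ, rfl⟩, rfl⟩
      rw [← image_singleton, ← image_singleton, ← range_const (ι := ℕ), ← (cl _).1]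
      exact isOpenMap_inr _ (isOpen_ne_fun (co _) continuous_const)
    · intro C c1 c2
      rcases C.eq_empty_or_nonempty with rfl | c3
      · exact isClosed_empty
      obtain ⟨s, rfl⟩ := c2.exists_eq_range c3
      choose _ h1 h2 using fun n => c1 (mem_range_self n)
      choose γ hγ using h1
      have : range s = Sum.inr '' (p '' range γ) := by
        rw [← range_comp, ← range_comp]
        exact congrArg _ (funext fun n => by simp [hγ, h2])
      rw [this, ← (cl _).2]
      exact isClosedMap_inr _ (isClosed_eq (co _) continuous_const)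
    · intro h
      have h1 := h.preimage continuous_inr
      rw [preimage_image_eq _ Sum.inr_injective] at h1
      have : (cocountable : Filter Γ).NeBot := ⟨fun h => not_countable_univ (α := Γ) (by
        simpa using mem_cocountable.1 (show (∅ : Set Γ) ∈ cocountable from h ▸ mem_bot))⟩
      refine hop (h1.mem_of_tendsto (b := cocountable) (f := p) ?_ (.of_forall fun _ => ⟨_, rfl⟩))
      refine tendsto_subtype_rng.2 (tendsto_subtype_rng.2 (Tendsto.prodMk_nhds
        (tendsto_pi_nhds.2 fun s => tendsto_const_nhds.congr' ?_) tendsto_const_nhds))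
      filter_upwards [mem_cocountable.2 (show (range s)ᶜᶜ.Countable by
        rw [compl_compl]; exact countable_range s)] with γ hγ
      exact (if_neg hγ).symm
  refine ⟨Y ⊕ F, Y, inferInstance, inferInstance, inferInstance, inferInstance,
    Sum.elim id Subtype.val, by fun_prop, IsClosedMap.id.sumElim hF.isClosedMap_subtype_val,
    fun y => ⟨.inl y, rfl⟩, fun y => Finite.isCompact ?_, fun S => pos hD hd
      (IsEmbedding.subtypeVal.comp .subtypeVal) fun z => z.1.2, pos hD hd .subtypeVal fun z => z.2,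
    fun h => n _ _ (IsEmbedding.subtypeVal.comp .subtypeVal) ?_ (h univ),
    n _ _ .subtypeVal range_val⟩
  · rw [← image_preimage_inl_union_image_preimage_inr (_ ⁻¹' _)]
    exact ((finite_singleton y).image _).union
      (((finite_singleton y).preimage Subtype.val_injective.injOn).image _)
  · rw [range_comp, Subtype.range_coe, image_univ, range_val]

end H5G
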