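import Pool.Agent.Lib.helper27.SmoothSep

/-! The weak*-exposed points (I)-generate the dual ball of a separable space.
The Gelfand integral lemmas are copied from `Pool/Agent/S04003.lean`. -/

namespace H5I

open Pool.Agent.Lib.helper27.Smooth Set Filter Topology MeasureTheory

variable {X : Type} [NormedAddCommGroup X] [NormedSpace ℝ X]

theorem app_le (g : X →L[ℝ] ℝ) (c : ℝ) (hg : ‖g‖ ≤ c) (v : X) : g v ≤ c * ‖v‖ := by
  have := g.le_opNorm v
  have h6 := le_abs_self (g v)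
  rw [Real.norm_eq_abs] at this
  nlinarith [norm_nonneg v]

theorem wcl {D : Set (X →L[ℝ] ℝ)} {g : X →L[ℝ] ℝ} (h : ∀ v c, (∀ φ ∈ D, φ v ≤ c) → g v ≤ c)
    (F : Finset X) (ε : ℝ) (hε : 0 < ε) : ∃ ψ ∈ convexHull ℝ D, ∀ x ∈ F, |g x - ψ x| < ε := by
  classical
  let R : (X →L[ℝ] ℝ) →L[ℝ] (F → ℝ) :=
    ContinuousLinearMap.pi fun x => ContinuousLinearMap.apply ℝ ℝ (x : X)
  have hp : R g ∈ closure (R '' convexHull ℝ D) := by
    by_contra hcon
    obtain ⟨L, u, h1, h2⟩ := geometric_hahn_banach_closed_point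
      ((convex_convexHull ℝ D).linear_image R.toLinearMap).closure isClosed_closure hcon
    have hL : ∀ φ, L (R φ) = φ (∑ i : F, L (Pi.single i 1) • (i : X)) := fun φ => by
      conv_lhs => rw [pi_eq_sum_univ' (R φ)]
      simp [map_sum, R, mul_comm]
    rw [hL] at h2
    exact h2.not_ge (h _ _ fun φ k => hL φ ▸
      (h1 _ (subset_closure ⟨φ, subset_convexHull _ _ k, rfl⟩)).le)
  obtain ⟨_, ⟨ψ, k, rfl⟩, h⟩ := Metric.mem_closure_iff.mp hp ε hε
  exact ⟨ψ, k, fun x hx => (dist_pi_lt_iff hε).mp h ⟨x, hx⟩⟩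

section

variable (T : Om → X →L[ℝ] ℝ) (hm : ∀ v, Measurable fun ω => T ω v) (h1 : ∀ ω, ‖T ω‖ ≤ 1)
include hm h1

theorem intT (v : X) : Integrable (fun ω => T ω v) mu :=
  Integrable.of_bound (hm v).aestronglyMeasurable ‖v‖ (Filter.Eventually.of_forall fun ω => by
    have := (T ω).le_opNorm v
    nlinarith [h1 ω, norm_nonneg v])

noncomputable def GA (A : Set Om) : X →L[ℝ] ℝ :=
  LinearMap.mkContinuous
    { toFun := fun v => ∫ ω in A, T ω v ∂mu
      map_add' := fun a b => by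
        simp only [map_add]
        exact integral_add (intT T hm h1 a).integrableOn (intT T hm h1 b).integrableOn
      map_smul' := fun c a => by
        simp only [map_smul, RingHom.id_apply]
        exact integral_smul _ _ } (mu.real A) (fun v => by
    have := norm_setIntegral_le_of_norm_le_const (μ := mu) (s := A) (f := fun ω => T ω v)
      (C := ‖v‖) (measure_lt_top _ _) (fun ω _ => by
        have := (T ω).le_opNorm v
        nlinarith [h1 ω, norm_nonneg v])
    rw [mul_comm] at this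
    exact this)

theorem GA_apply (A : Set Om) (v : X) : GA T hm h1 A v = ∫ ω in A, T ω v ∂mu := rfl

theorem GA_norm (A : Set Om) : ‖GA T hm h1 A‖ ≤ mu.real A :=
  LinearMap.mkContinuous_norm_le _ measureReal_nonneg _

theorem GA_sum (A : ℕ → Set Om) (hA : ∀ i, MeasurableSet (A i))
    (hd : Pairwise (Function.onFun Disjoint A)) :
    HasSum (fun i => GA T hm h1 (A i)) (GA T hm h1 (⋃ i, A i)) ∧
    HasSum (fun i => mu.real (A i)) (mu.real (⋃ i, A i)) := by
  have h2 : HasSum (fun i => mu.real (A i)) (mu.real (⋃ i, A i)) := by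
    simpa using hasSum_integral_iUnion (μ := mu) (f := fun _ => (1 : ℝ)) hA hd
      (integrable_const _).integrableOn
  refine ⟨?_, h2⟩
  have h3 : ∀ F : Finset ℕ, ‖∑ i ∈ F, GA T hm h1 (A i) - GA T hm h1 (⋃ i, A i)‖ ≤
      mu.real (⋃ i, A i) - ∑ i ∈ F, mu.real (A i) := by
    intro F
    refine norm_le_of_le _ _ (sub_nonneg.mpr (sum_le_hasSum F (fun _ _ => measureReal_nonneg) h2))
      fun v => ?_
    have hi : Integrable (fun ω => ‖v‖ + T ω v) mu := (integrable_const _).add (intT T hm h1 v)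
    have h4 := sum_le_hasSum F (fun i _ => setIntegral_nonneg (hA i) fun ω _ => by
      have := app_le (T ω) 1 (h1 ω) (-v)
      rw [map_neg, norm_neg] at this
      linarith) (hasSum_integral_iUnion (μ := mu) hA hd hi.integrableOn)
    have h5 : ∀ B : Set Om, ∫ ω in B, (‖v‖ + T ω v) ∂mu = mu.real B * ‖v‖ + GA T hm h1 B v := by
      intro B
      rw [integral_add (integrable_const _) (intT T hm h1 v).integrableOn, GA_apply]
      simp
    simp only [h5, Finset.sum_add_distrib, ← Finset.sum_mul] at h4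
    rw [sub_apply, sum_apply]
    linarith
  have h6 : Tendsto (fun F : Finset ℕ => mu.real (⋃ i, A i) - ∑ i ∈ F, mu.real (A i)) atTop
      (𝓝 0) := by
    have h7 : Tendsto (fun F : Finset ℕ => ∑ i ∈ F, mu.real (A i)) atTop (𝓝 _) := h2
    simpa using h7.const_sub (mu.real (⋃ i, A i))
  exact tendsto_iff_norm_sub_tendsto_zero.mpr
    (squeeze_zero (fun _ => norm_nonneg _) h3 h6)

end

theorem main [CompleteSpace X] [TopologicalSpace.SeparableSpace X] (B : ℕ → Set (X →L[ℝ] ℝ))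
    (hB : {φ : X →L[ℝ] ℝ | ‖φ‖ ≤ 1 ∧ ∃ x : X, ∀ ψ : X →L[ℝ] ℝ, ‖ψ‖ ≤ 1 → ψ ≠ φ → ψ x < φ x}
      ⊆ ⋃ n, B n) : Metric.closedBall (0 : X →L[ℝ] ℝ) 1 ⊆
      closure (convexHull ℝ (⋃ n, {φ : X →L[ℝ] ℝ | ∀ F : Finset X, ∀ ε : ℝ, 0 < ε →
        ∃ ψ ∈ convexHull ℝ (B n), ∀ x ∈ F, |φ x - ψ x| < ε})) := fun f hf => by
  by_contra hcon
  obtain ⟨ψ, c, hψ1, hψ2⟩ := geometric_hahn_banach_closed_point
    (convex_convexHull ℝ _).closure isClosed_closure hcon
  obtain ⟨δ, hδ, d⟩ := exists_pos_mul_lt (sub_pos.2 hψ2) ‖ψ‖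
  obtain ⟨T, hm, h1, hG, hT⟩ := core f (mem_closedBall_zero_iff.mp hf) δ hδ
  let u := TopologicalSpace.denseSeq X
  let D := fun k => B k ∩ {φ | ‖φ‖ ≤ 1}
  let A := fun k => ⋂ (_ : (D k).Nonempty → False) , (∅ : Set Om)
  let E := fun k => A k ∩ ⋂ j, {ω | T ω (u j) ≤ sSup ((· (u j)) '' D k)}
  have e1 : ∀ k, MeasurableSet (E k) := fun k => (MeasurableSet.iInter fun _ => .empty).inter
    (MeasurableSet.iInter fun j => measurableSet_le (hm _) measurable_const)
  have e2 : ∀ᵐ ω ∂mu, ω ∈ ⋃ k, E k := by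
    filter_upwards [hG] with ω ⟨y, hy⟩
    obtain ⟨k, hk⟩ := mem_iUnion.1 (hB (a := T ω) ⟨hy.1, y, fun g hg hne => by
      have e1 := app_le g 1 hg y
      rw [hy.2.1]
      refine lt_of_le_of_ne (by linarith) fun h => hne ?_
      ext v
      exact (supp_eq y v g hg h _ (hy.2.2 v)).symm⟩)
    exact mem_iUnion.2 ⟨k, mem_iInter.2 fun h => (h ⟨_, hk, hy.1⟩).elim, mem_iInter.2 fun j =>
      le_csSup ⟨1 * ‖u j‖, forall_mem_image.2 fun φ h => app_le φ 1 h.2 _⟩ ⟨_, ⟨hk, hy.1⟩, rfl⟩⟩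
  have e3 : ∀ k, ∀ ω ∈ E k, ∀ v a, (∀ φ ∈ D k, φ v ≤ a) → T ω v ≤ a := fun k ω h v a ha =>
    le_of_forall_pos_le_add fun ε hε => by
      obtain ⟨j, hj⟩ := (TopologicalSpace.denseRange_denseSeq X).exists_dist_lt v (half_pos hε)
      rw [dist_eq_norm] at hj
      have b1 := app_le (T ω) 1 (h1 ω) (v - u j)
      have b2 : T ω (u j) ≤ a + ε / 2 := (mem_iInter.1 h.2 j).trans (csSup_le
        (Nonempty.image _ (by_contra fun n => mem_iInter.1 h.1 n))
        (forall_mem_image.2 fun φ k => by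
          have := app_le φ 1 k.2 (u j - v)
          rw [map_sub, norm_sub_rev] at this
          linarith [ha φ k]))
      rw [map_sub] at b1
      linarith
  have m := fun k => MeasurableSet.disjointed e1 k
  obtain ⟨s1, s2⟩ := GA_sum T hm h1 _ m (disjoint_disjointed E)
  have e4 : ∀ k, ψ (GA T hm h1 (disjointed E k)) ≤ c * mu.real (disjointed E k) := fun k => by
    rcases (measureReal_nonneg (μ := mu) (s := disjointed E k)).eq_or_lt with z | z
    · rw [norm_le_zero_iff.1 ((GA_norm T hm h1 _).trans z.ge), ← z]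
      simp
    have := hψ1 ((mu.real (disjointed E k))⁻¹ • GA T hm h1 (disjointed E k)) (subset_closure
      (subset_convexHull _ _ (mem_iUnion.2 ⟨k, fun F ε hε => by
        obtain ⟨φ, a1, a2⟩ := wcl (D := D k) (g := (mu.real (disjointed E k))⁻¹ •
            GA T hm h1 (disjointed E k)) (fun v a ha => by
          rw [smul_apply, smul_eq_mul, inv_mul_le_iff₀ z, GA_apply]
          exact (setIntegral_mono_on (intT T hm h1 v).integrableOn (integrable_const a).integrableOn
            (m k) fun ω h => e3 k ω (disjointed_subset E k h) v a ha).trans_eq (by simp)) F ε hε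
        exact ⟨φ, convexHull_mono inter_subset_left a1, a2⟩⟩)))
    rw [map_smul, smul_eq_mul, inv_mul_lt_iff₀ z] at this
    linarith
  have e5 := hasSum_le e4 (ψ.hasSum s1) (s2.mul_left c)
  have e6 : (⋃ k, E k) =ᵐ[mu] univ := ae_eq_univ.2 e2
  rw [iUnion_disjointed, measureReal_congr e6, probReal_univ, mul_one] at e5
  have e7 : ‖f - GA T hm h1 (⋃ k, E k)‖ ≤ δ := norm_le_of_le _ _ hδ.le fun v => by
    rw [sub_apply, GA_apply, setIntegral_congr_set e6, Measure.restrict_univ]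
    linarith [hT v]
  have e8 := app_le ψ _ le_rfl (f - GA T hm h1 (⋃ k, E k))
  rw [map_sub] at e8
  linarith [mul_le_mul_of_nonneg_left e7 (norm_nonneg ψ)]

end H5I
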