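import Mathlib

/-! (I)-envelopes and an example built on an Ulam matrix. -/

open Set Filter Topology

namespace H5U

section
variable {X : Type} [NormedAddCommGroup X] [NormedSpace ℝ X]

/-- The weak* closure of the convex hull of `C`. -/
def wco (C : Set (StrongDual ℝ X)) : Set (StrongDual ℝ X) :=
  StrongDual.toWeakDual ⁻¹' closure (StrongDual.toWeakDual '' convexHull ℝ C)

/-- The norm closure of the convex hull of the union of the sets `wco (A k)`. -/
def K (A : ℕ → Set (StrongDual ℝ X)) : Set (StrongDual ℝ X) :=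
  closure (convexHull ℝ (⋃ k, wco (A k)))

/-- The (I)-envelope: the intersection of the sets `K A` over all countable covers `A` of `C`. -/
def Ienv (C : Set (StrongDual ℝ X)) : Set (StrongDual ℝ X) :=
  {η | ∀ A : ℕ → Set (StrongDual ℝ X), ⋃ k, A k = C → η ∈ K A}

lemma sub_wco (C : Set (StrongDual ℝ X)) : C ⊆ wco C := fun a h =>
  subset_closure (X := WeakDual ℝ X) ⟨a, subset_convexHull _ _ h, rfl⟩

lemma wco_K (A : ℕ → Set (StrongDual ℝ X)) (k) : wco (A k) ⊆ K A := fun _ h =>
  subset_closure (subset_convexHull _ _ (mem_iUnion.2 ⟨k, h⟩))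

lemma sub_Ienv (C : Set (StrongDual ℝ X)) : C ⊆ Ienv C := fun _ h A e => by
  obtain ⟨k, hk⟩ := mem_iUnion.1 (e ▸ h)
  exact wco_K A k (sub_wco _ hk)

lemma cvx (x : X) (r : ℝ) : Convex ℝ {a : StrongDual ℝ X | r ≤ a x} :=
  (convex_Ici r).is_linear_preimage (f := fun a : StrongDual ℝ X => a x)
    ⟨fun _ _ => rfl, fun _ _ => rfl⟩

lemma half {C : Set (StrongDual ℝ X)} {x : X} {r : ℝ} (h : ∀ a ∈ C, r ≤ a x) :
    ∀ a ∈ wco C, r ≤ a x := fun _ k =>
  closure_minimal (t := {a : WeakDual ℝ X | r ≤ a x}) (image_subset_iff.2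
    (convexHull_min h (cvx x r))) (isClosed_le continuous_const (WeakDual.eval_continuous x)) k

lemma halfI {C : Set (StrongDual ℝ X)} {x : X} {r : ℝ} (h : ∀ a ∈ C, r ≤ a x) :
    ∀ a ∈ Ienv C, r ≤ a x := fun _ k =>
  closure_minimal (convexHull_min (iUnion_subset fun _ => half h) (cvx x r))
    (isClosed_le continuous_const (ContinuousLinearMap.apply ℝ ℝ x).continuous)
    (k (fun _ => C) (iUnion_const _))

lemma tail {A : ℕ → Set (StrongDual ℝ X)} {ξ} (h : ξ ∈ K A) {ε : ℝ} (hε : 0 < ε) :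
    ∃ n, ∀ x r, ‖x‖ ≤ 1 → (∀ k ≤ n, ∀ a ∈ A k, r ≤ a x) → r - ε ≤ ξ x := by
  obtain ⟨ζ, h1, h2⟩ := Metric.mem_closure_iff.1 h ε hε
  obtain ⟨n, hn⟩ := convexHull_min (t := {ζ : StrongDual ℝ X | ∃ n, ∀ x r,
    (∀ k ≤ n, ∀ a ∈ A k, r ≤ a x) → r ≤ ζ x}) (iUnion_subset fun k a h =>
      ⟨k, fun x r e => half (e k le_rfl) a h⟩) (fun a ⟨n, hn⟩ b ⟨m, hm⟩ s t s0 t0 st =>
        ⟨max n m, fun x r e => cvx x r (hn x r fun k l => e k (le_max_of_le_left l))
          (hm x r fun k l => e k (le_max_of_le_right l)) s0 t0 st⟩) h1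
  refine ⟨n, fun x r x1 e => ?_⟩
  have := (le_abs_self _).trans (((ζ - ξ).le_opNorm x).trans (mul_le_of_le_one_right
    (norm_nonneg _) x1))
  rw [dist_comm, dist_eq_norm] at h2
  rw [sub_apply] at this
  linarith [hn x r e]

/-- The properties of the example. -/
structure Ex {W : Type} (a : ℝ → W → StrongDual ℝ X) (P Q : Set W → X) : Prop where
  q : ∀ r t S, a r t (Q S) = r⁻¹ * S.indicator 1 t
  p : ∀ r t S, S.Countable → a r t (P S) = r * S.indicator 1 t
  np : ∀ S, ‖P S‖ ≤ 1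
  nq : ∀ S, ‖Q S‖ ≤ 1
  ev : ∀ x, ∃ N : Set W, N.Countable ∧ ∀ t ∉ N, ∀ r > 0, |a r t x| ≤ r⁻¹ * ‖x‖
  bd : ∀ r > 0, ∀ t, ‖a r t‖ ≤ r + r⁻¹

variable {W : Type} {a : ℝ → W → StrongDual ℝ X} {P Q : Set W → X} (e : Ex a P Q)
include e

lemma Ex.far [LinearOrder W] [Uncountable W] (w : ∀ t : W, (Iic t).Countable)
    {C : Set (StrongDual ℝ X)} {R : ℝ} (h : ∀ c ∈ C, ∃ r t, 1 ≤ r ∧ r ≤ R ∧ c = a r t) {ξ}
    (k : ξ ∈ Ienv C) : 1 ≤ ‖ξ‖ := by
  classical
  choose f hf using fun t => countable_iff_exists_injOn.1 (w t)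
  let U := fun n s => {t | s < t ∧ f t s = n}
  have i0 : ∀ (S : Set W) t, (0 : ℝ) ≤ S.indicator 1 t := fun S t =>
    indicator_nonneg (fun _ _ => zero_le_one) t
  have u0 : ∀ S, 0 ≤ ξ (Q S) := fun S => halfI (fun c m => by
    obtain ⟨r, t, r1, -, rfl⟩ := h c m
    rw [e.q]; exact mul_nonneg (by positivity) (i0 S t)) ξ k
  have u1 : ∀ n, {s | ξ (Q (U n s)) ≠ 0}.Countable := fun n =>
    (summable_of_sum_le (c := 1) (fun s => u0 _) fun F => by
      have := halfI (x := -∑ s ∈ F, Q (U n s)) (r := -1) (fun c m => by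
        obtain ⟨r, t, r1, -, rfl⟩ := h c m
        simp only [map_neg, map_sum, e.q, ← Finset.mul_sum, neg_le_neg_iff]
        refine mul_le_one₀ (inv_le_one_of_one_le₀ r1) (Finset.sum_nonneg fun s _ => i0 _ _) ?_
        by_cases m : ∃ s ∈ F, t ∈ U n s
        · obtain ⟨s, s1, s2⟩ := m
          rw [Finset.sum_eq_single_of_mem s s1 fun u _ l => indicator_of_notMem (fun m =>
            l (hf t m.1.le s2.1.le (m.2.trans s2.2.symm))) _, indicator_of_mem s2]
          rfl
        · rw [Finset.sum_eq_zero fun u l => indicator_of_notMem (fun j => m ⟨u, l, j⟩) _]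
          exact zero_le_one) ξ k
      rwa [map_neg, map_sum, neg_le_neg_iff] at this).countable_support
  obtain ⟨s, hs⟩ := not_forall.1 fun n => not_countable_univ
    ((countable_iUnion u1).mono fun s _ => n s)
  simp only [mem_iUnion, mem_ofPred_eq, not_exists, not_not] at hs
  have u2 : ξ (Q (Ioi s)) ≤ 0 := le_of_forall_pos_le_add fun ε hε => by
    obtain ⟨n, hn⟩ := tail (k (fun n => {c ∈ C | ∃ r t, (t ≤ s ∨ f t s = n) ∧ c = a r t})
      (Subset.antisymm (iUnion_subset fun _ _ h => h.1) fun c m => by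
        obtain ⟨r, t, -, -, rfl⟩ := h c m
        exact mem_iUnion.2 ⟨_, m, r, t, Or.inr rfl, rfl⟩)) hε
    let T := {t | s < t ∧ n < f t s}
    have b1 := hn (-Q T) 0 ((norm_neg _).trans_le (e.nq _)) (by
      rintro j hj _ ⟨-, r, t, l, rfl⟩
      rw [map_neg, e.q, indicator_of_notMem fun m =>
        l.elim m.1.not_ge fun l => (l ▸ m.2).not_ge hj]
      simp)
    have b2 := halfI (x := Q T + ∑ j ∈ Finset.range (n + 1), Q (U j s) - Q (Ioi s)) (r := 0)
      (fun c m => by
        obtain ⟨r, t, r1, -, rfl⟩ := h c m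
        simp only [map_sub, map_add, map_sum, e.q, ← Finset.mul_sum, ← mul_add, ← mul_sub]
        refine mul_nonneg (by positivity) (sub_nonneg.2 ?_)
        have := Finset.sum_nonneg fun j (_ : j ∈ Finset.range (n + 1)) => i0 (U j s) t
        by_cases l : s < t
        · rw [indicator_of_mem (s := Ioi s) l]
          rcases lt_or_ge n (f t s) with l' | l'
          · rw [indicator_of_mem (s := T) ⟨l, l'⟩]
            linarith
          · have := Finset.single_le_sum (fun j _ => i0 (U j s) t)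
              (Finset.mem_range.2 (Nat.lt_succ_of_le l'))
            rw [indicator_of_mem (s := U (f t s) s) ⟨l, rfl⟩] at this
            linarith [i0 T t]
        · rw [indicator_of_notMem (s := Ioi s) l]
          linarith [i0 T t]) ξ k
    simp only [map_sub, map_add, map_sum, hs, Finset.sum_const_zero, map_neg] at b1 b2
    linarith
  have u3 := halfI (x := P (Iic s) + |R| • Q (Ioi s)) (r := 1) (fun c m => by
    obtain ⟨r, t, r1, r2, rfl⟩ := h c m
    rw [map_add, map_smul, e.p _ _ _ (w s), e.q, smul_eq_mul]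
    rcases le_or_gt t s with l | l
    · simp [l, r1]
    · simpa [l, ← div_eq_mul_inv, one_le_div (one_pos.trans_le r1)] using r2.trans (le_abs_self R)) ξ k
  have := (le_abs_self _).trans ((ξ.le_opNorm (P (Iic s))).trans (mul_le_of_le_one_right
    (norm_nonneg _) (e.np _)))
  rw [map_add, map_smul, smul_eq_mul] at u3
  linarith [mul_nonpos_of_nonneg_of_nonpos (abs_nonneg R) u2]

lemma Ex.near {C : Set (StrongDual ℝ X)} {r : ℝ} (r0 : 0 < r) (h : ¬ {t | a r t ∈ C}.Countable) :
    ∃ ζ ∈ wco C, ‖ζ‖ ≤ r⁻¹ := by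
  have : (cocountable ⊓ 𝓟 {t | a r t ∈ C}).NeBot := inf_principal_neBot_iff.2 fun U hU =>
    by_contra fun n => h ((mem_cocountable.1 hU).mono fun t m l => n ⟨t, l, m⟩)
  obtain ⟨ζ, -, z⟩ := (WeakDual.isCompact_closedBall (0 : StrongDual ℝ X) (r + r⁻¹)).exists_mapClusterPt
    (f := cocountable ⊓ 𝓟 {t | a r t ∈ C}) (u := fun t => StrongDual.toWeakDual (a r t))
    (le_principal_iff.2 (mem_map.2 (univ_mem' fun t => mem_closedBall_zero_iff.2 (e.bd r r0 t))))
  refine ⟨WeakDual.toStrongDual ζ, (isClosed_closure (X := WeakDual ℝ X)).mem_of_mapClusterPt z (mem_inf_of_right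
    fun t m => sub_wco C m), ContinuousLinearMap.opNorm_le_bound _ (by positivity) fun x => ?_⟩
  obtain ⟨N, n1, n2⟩ := e.ev x
  exact (isClosed_le (WeakDual.eval_continuous x).abs continuous_const).mem_of_mapClusterPt z
    (mem_inf_of_left (mem_cocountable.2 (n1.mono fun t m => by_contra fun l => m (n2 t l r r0))))

end

theorem ex (W : Type) : ∃ (X : Type) (_ : NormedAddCommGroup X) (_ : NormedSpace ℝ X)
    (a : ℝ → W → StrongDual ℝ X) (P Q : Set W → X), CompleteSpace X ∧ Ex a P Q := by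
  classical
  let _ : TopologicalSpace W := ⊥
  have : DiscreteTopology W := ⟨rfl⟩
  let Y : Submodule ℝ (BoundedContinuousFunction W ℝ) :=
    ⟨⟨⟨{p | {t | p t ≠ 0}.Countable}, fun {p q} h k => (h.union k).mono fun t m =>
      by_contra fun n => m (by
        rw [BoundedContinuousFunction.add_apply, show p t = 0 from by_contra fun l => n (Or.inl l),
          show q t = 0 from by_contra fun l => n (Or.inr l), add_zero])⟩, by simp⟩,
      fun c p h => Countable.mono (fun t m (l : p t = 0) => m (by simp [l])) h⟩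
  have hY : IsClosed (Y : Set (BoundedContinuousFunction W ℝ)) :=
    isClosed_of_closure_subset fun p h => by
      obtain ⟨u, u1, u2⟩ := mem_closure_iff_seq_limit.1 h
      refine (countable_iUnion u1).mono fun t m => by_contra fun n => m (tendsto_nhds_unique
        (((BoundedContinuousFunction.evalCLM ℝ t).continuous.tendsto p).comp u2)
          (tendsto_const_nhds.congr fun j => by_contra fun l => n (mem_iUnion.2 ⟨j, Ne.symm l⟩)))
  have := hY.completeSpace_coe
  let i := fun S : Set W => BoundedContinuousFunction.indicator S (isClopen_discrete S)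
  have i1 : ∀ S, ‖i S‖ ≤ 1 := fun S => (BoundedContinuousFunction.norm_le zero_le_one).2 fun t => by
    by_cases h : t ∈ S <;> simp [i, h]
  let a : ℝ → W → StrongDual ℝ (Y × BoundedContinuousFunction W ℝ) := fun r t =>
    r • (BoundedContinuousFunction.evalCLM ℝ t ∘L Y.subtypeL ∘L ContinuousLinearMap.fst ℝ _ _) +
      r⁻¹ • (BoundedContinuousFunction.evalCLM ℝ t ∘L ContinuousLinearMap.snd ℝ _ _)
  have a1 : ∀ r t x, a r t x = r * x.1.1 t + r⁻¹ * x.2 t := fun _ _ _ => rfl
  have a2 : ∀ (x : Y × BoundedContinuousFunction W ℝ) t, |x.1.1 t| ≤ ‖x‖ ∧ |x.2 t| ≤ ‖x‖ :=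
    fun x t => ⟨(x.1.1.norm_coe_le_norm t).trans (norm_fst_le x),
      (x.2.norm_coe_le_norm t).trans (norm_snd_le x)⟩
  refine ⟨Y × BoundedContinuousFunction W ℝ, inferInstance, inferInstance, a,
    fun S => if h : S.Countable then (⟨i S, h.mono fun t m => by_contra fun n => m (by
      simp [i, n])⟩, 0) else 0, fun S => (0, i S), inferInstance, fun r t S => ?_,
    fun r t S h => ?_, fun S => ?_, fun S => ?_, fun x => ⟨_, x.1.2, fun t n r r0 => ?_⟩,
    fun r r0 t => ContinuousLinearMap.opNorm_le_bound _ (by positivity) fun x => ?_⟩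
  · simp [a1, i]
  · simp [a1, i, h]
  · split_ifs
    · exact max_le (i1 S) (by simp)
    · exact (norm_zero (E := Y × BoundedContinuousFunction W ℝ)).trans_le zero_le_one
  · exact max_le (by simp) (i1 S)
  · rw [a1, not_not.1 n, mul_zero, zero_add, abs_mul, abs_of_pos (inv_pos.2 r0)]
    exact mul_le_mul_of_nonneg_left (a2 x t).2 (inv_pos.2 r0).le
  · rw [a1, add_mul]
    refine (abs_add_le _ _).trans (add_le_add ?_ ?_) <;> rw [abs_mul, abs_of_pos (by positivity)]
    exacts [mul_le_mul_of_nonneg_left (a2 x t).1 r0.le,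
      mul_le_mul_of_nonneg_left (a2 x t).2 (inv_pos.2 r0).le]

theorem exW : ∃ (W : Type) (_ : LinearOrder W), Uncountable W ∧ ∀ t : W, (Iic t).Countable :=
  ⟨(Cardinal.aleph 1).ord.ToType, inferInstance, Cardinal.aleph0_lt_mk_iff.1 (by simp), fun t =>
    Cardinal.lt_aleph_one_iff.1 (Cardinal.mk_Iic_lt t (by simp) (by simp) |>.trans_eq (by simp))
      |> Cardinal.le_aleph0_iff_set_countable.1⟩

end H5U
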