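import Pool.Agent.Lib.helper5.Cube

/-! An isocompact function space `C_p(X)` that is not a g-space. -/

open Set Topology Filter H5C

namespace H5IG

abbrev W := ℕ × ℕ

lemma mad : ∃ 𝒜 : Set (Set W), (𝒜.Pairwise fun a b => (a ∩ b).Finite) ∧
    (∀ N : Set W, N.Infinite → ∃ a ∈ 𝒜, (a ∩ N).Infinite) ∧ ∀ i, {p : W | p.1 = i} ∈ 𝒜 := by
  obtain ⟨𝒜, h1, h2⟩ := zorn_subset_nonempty {𝒜 : Set (Set W) | 𝒜.Pairwise fun a b =>
      (a ∩ b).Finite} (fun c hc hch _ => ⟨⋃₀ c, hch.pairwise_sUnion.2 hc,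
        fun s hs => subset_sUnion_of_mem hs⟩) (range fun i => {p : W | p.1 = i}) (by
    rintro _ ⟨i, rfl⟩ _ ⟨j, rfl⟩ h
    exact finite_empty.subset fun p hp => h (by rw [← show p.1 = i from hp.1, hp.2]))
  refine ⟨𝒜, h2.prop, fun N hN => by_contra fun hn => ?_, fun i => h1 ⟨i, rfl⟩⟩
  have hf : ∀ a ∈ 𝒜, (a ∩ N).Finite := fun a ha => by_contra fun h => hn ⟨a, ha, h⟩
  have := h2.le_of_ge (y := insert N 𝒜) (h2.prop.insert fun a ha _ =>
    ⟨inter_comm a N ▸ hf a ha, hf a ha⟩) (subset_insert _ _) (mem_insert _ _)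
  exact hN (by simpa using hf N this)

variable (𝒜 : Set (Set W))

def B : Set (W ⊕ 𝒜 → Bool) := {x | {a | x (.inr a) = true}.Finite ∧
  {n | ¬ (x (.inl n) = true ↔ ∃ a, x (.inr a) = true ∧ n ∈ a.1)}.Finite}

def X : Set (W ⊕ 𝒜 → Bool) := insert (fun _ => true) (B 𝒜)

variable {𝒜}

open Classical in
noncomputable def mk (R : Finset 𝒜) (G P : Finset W) : B 𝒜 :=
  ⟨Sum.elim (fun n => if n ∈ G then decide (n ∈ P) else decide (∃ a ∈ R, n ∈ a.1))
    fun a => decide (a ∈ R), by simp,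
    G.finite_toSet.subset fun n hn => by_contra fun h => hn (by
      have : n ∉ G := h
      simp [this])⟩

lemma dense (F : Finset (W ⊕ 𝒜)) (y : W ⊕ 𝒜 → Bool) : ∃ x : B 𝒜, ∀ i ∈ F, x.1 i = y i := by
  classical
  refine ⟨mk (F.toRight.filter fun a => y (.inr a) = true) F.toLeft
    (F.toLeft.filter fun n => y (.inl n) = true), fun i hi => ?_⟩
  rcases i with n | a <;> simp [mk, hi]

lemma face {S : Set (W ⊕ 𝒜 → Bool)} {U : Set S} {x : S} (h : U ∈ 𝓝 x) :
    ∃ F : Finset (W ⊕ 𝒜), ∀ y : S, (∀ i ∈ F, y.1 i = x.1 i) → y ∈ U := by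
  obtain ⟨V, hV, hs⟩ := (mem_nhds_subtype _ _ _).1 h
  obtain ⟨F, t, h1, h2⟩ := isOpen_pi_iff.1 isOpen_interior x.1 (mem_interior_iff_mem_nhds.2 hV)
  exact ⟨F, fun y hy => hs (interior_subset (s := V) (h2 fun i hi => by
    rw [hy i hi]; exact (h1 i hi).2))⟩

open Classical in
noncomputable def D (x : B 𝒜) (S : Set 𝒜) (G : Finset W) : B 𝒜 :=
  mk (x.2.1.toFinset.filter (· ∈ S)) G (G.filter fun n => x.1 (.inl n) = true)

lemma approx (f : B 𝒜 → ℝ) : ∃ h : Finset 𝒜 → Set 𝒜, (∀ R, (h R).Countable) ∧ (Continuous f →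
    ∀ S : Set 𝒜, (∀ R : Finset 𝒜, ↑R ⊆ S → h R ⊆ S) → ∀ x,
      Tendsto (fun G => f (D x S G)) atTop (𝓝 (f x))) := by
  classical
  by_cases hf : Continuous f
  swap
  · exact ⟨fun _ => ∅, fun _ => countable_empty, fun h => (hf h).elim⟩
  choose F hF using fun (x : B 𝒜) (j : ℕ) => face (hf.continuousAt (x := x)
    (Metric.ball_mem_nhds _ (Nat.one_div_pos_of_nat (n := j))))
  refine ⟨fun R => ⋃ (G) (P) (j), ↑(F (mk R G P) j).toRight, fun R => countable_iUnion fun _ =>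
    countable_iUnion fun _ => countable_iUnion fun _ => Finset.countable_toSet _,
    fun _ S hS x => Metric.tendsto_nhds.2 fun ε hε => ?_⟩
  obtain ⟨j, hj⟩ := exists_nat_one_div_lt (half_pos hε)
  filter_upwards [eventually_ge_atTop (F x j).toLeft] with G hG
  obtain ⟨y, hy⟩ := dense (F x j ∪ F (D x S G) j) ((F x j).piecewise x.1 (D x S G).1)
  have h1 : dist _ _ < _ := hF x j y fun i hi => by
    rw [hy i (Finset.mem_union_left _ hi), Finset.piecewise_eq_of_mem _ _ _ hi]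
  have h2 : dist _ _ < _ := hF (D x S G) j y fun i hi => by
    rw [hy i (Finset.mem_union_right _ hi)]
    by_cases h : i ∈ F x j
    · rw [Finset.piecewise_eq_of_mem _ _ _ h]
      rcases i with n | a
      · simp [D, mk, hG (Finset.mem_toLeft.2 h)]
      · have : a ∈ S := hS _ (fun b hb => (Finset.mem_filter.1 hb).2)
          (mem_iUnion.2 ⟨G, mem_iUnion₂.2 ⟨_, j, Finset.mem_toRight.2 hi⟩⟩)
        simp [D, mk, this]
    · exact Finset.piecewise_eq_of_notMem _ _ _ h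
  linarith [dist_triangle_left (f (D x S G)) (f x) (f y)]

lemma tight {T : Set (B 𝒜)} {x : B 𝒜} (hx : x ∈ closure T) :
    ∃ T' ⊆ T, T'.Countable ∧ x ∈ closure T' := by
  classical
  have : ∀ F : Finset (W ⊕ 𝒜), ∃ y ∈ T, ∀ i ∈ F, y.1 i = x.1 i := fun F => by
    obtain ⟨y, h1, h2⟩ := mem_closure_iff.1 hx {y | ∀ i ∈ F, y.1 i = x.1 i} (by
      simp only [ofPred_forall]
      exact isOpen_biInter_finset fun i _ => (isOpen_discrete {x.1 i}).preimage
        (f := fun y : B 𝒜 => y.1 i) ((continuous_apply i).comp continuous_subtype_val))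
      fun _ _ => rfl
    exact ⟨y, h2, h1⟩
  choose y y1 y2 using this
  obtain ⟨S, s1, s2⟩ := hull (fun F => range Sum.inl ∪
      Sum.inr '' ({a | x.1 (.inr a) = true} ∪ {a | (y F).1 (.inr a) = true}))
    fun F => (countable_range _).union ((x.2.1.union (y F).2.1).countable.image _)
  refine ⟨y '' {F | ↑F ⊆ S}, image_subset_iff.2 fun F _ => y1 F, Countable.image
    (((countable_ofPred_finite_subset s1).preimage_of_injOn 
      (f := fun G : Finset (W ⊕ 𝒜) => (G : Set (W ⊕ 𝒜))) Finset.coe_injective.injOn).mono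
        fun G hG => by exact ⟨G.finite_toSet, hG⟩) _,
    mem_closure_iff_nhds.2 fun U hU => ?_⟩
  obtain ⟨F, hF⟩ := face hU
  have c : ↑(F.filter (· ∈ S)) ⊆ S := fun i hi => (Finset.mem_filter.1 hi).2
  refine ⟨_, hF _ fun i hi => ?_, _, c, rfl⟩
  by_cases h : i ∈ S
  · exact y2 _ i (Finset.mem_filter.2 ⟨hi, h⟩)
  · rcases i with n | a
    · exact (h (s2 _ c (Or.inl ⟨n, rfl⟩))).elim
    · rw [Bool.eq_iff_iff]
      exact ⟨fun e => (h (s2 _ c (Or.inr ⟨a, Or.inr e, rfl⟩))).elim,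
        fun e => (h (s2 _ c (Or.inr ⟨a, Or.inl e, rfl⟩))).elim⟩

lemma cl_eq {Y : Type*} [TopologicalSpace Y] {z : Cp Y} {u : ℕ → Cp Y}
    (h : MapClusterPt z atTop u) {y : Y} {c : ℝ} (t : Tendsto (fun n => (u n).1 y) atTop (𝓝 c)) :
    z.1 y = c :=
  eq_of_nhds_neBot ((h.continuousAt_comp (f := fun f : Cp Y => f.1 y)
    ((continuous_apply y).comp continuous_subtype_val).continuousAt).clusterPt.mono t)

lemma agree {Y : Type*} [TopologicalSpace Y] [Nonempty Y] {S : Set (Cp Y)}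
    (hS : ∀ u : ℕ → Cp Y, (∀ n, u n ∈ S) → ∃ z ∈ S, MapClusterPt z atTop u) {g : Y → ℝ}
    (hg : g ∈ closure (Subtype.val '' S)) {E : Set Y} (hE : E.Countable) :
    ∃ f ∈ S, ∀ y ∈ E, f.1 y = g y := by
  classical
  obtain ⟨e, he⟩ := countable_iff_exists_subset_range.1 hE
  have : ∀ n : ℕ, ∃ f ∈ S, ∀ y ∈ (Finset.range n).image e, dist (f.1 y) (g y) < 1 / (n + 1) :=
    fun n => by
      obtain ⟨_, h1, f, h2, rfl⟩ := mem_closure_iff.1 hg _
        (isOpen_box ((Finset.range n).image e) g (1 / (n + 1)))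
        fun _ _ => by rw [dist_self]; exact Nat.one_div_pos_of_nat
      exact ⟨f, h2, h1⟩
  choose u u1 u2 using this
  obtain ⟨z, z1, z2⟩ := hS u u1
  refine ⟨z, z1, fun y hy => cl_eq z2 (tendsto_iff_dist_tendsto_zero.2
    (squeeze_zero' (Eventually.of_forall fun _ => dist_nonneg) ?_
      tendsto_one_div_add_atTop_nhds_zero_nat))⟩
  obtain ⟨i, rfl⟩ := he hy
  filter_upwards [eventually_gt_atTop i] with n hn
  exact (u2 n _ (Finset.mem_image_of_mem _ (Finset.mem_range.2 hn))).le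

def ι : B 𝒜 → X 𝒜 := inclusion (subset_insert _ _)

def top : X 𝒜 := ⟨_, mem_insert _ _⟩

lemma ι_cont : Continuous (ι (𝒜 := 𝒜)) := continuous_inclusion (subset_insert _ _)

theorem iso [Nonempty 𝒜] {S : Set (Cp (X 𝒜))}
    (hS : ∀ u : ℕ → Cp (X 𝒜), (∀ n, u n ∈ S) → ∃ z ∈ S, MapClusterPt z atTop u) :
    IsCompact S := by
  classical
  have : Nonempty (X 𝒜) := ⟨top⟩
  have bd : ∀ x, ∃ c : ℕ, ∀ f ∈ S, |f.1 x| ≤ c := fun x => by
    by_contra hn
    push Not at hn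
    choose u u1 u2 using hn
    obtain ⟨z, -, z2⟩ := hS u u1
    obtain ⟨N, hN⟩ := exists_nat_gt |z.1 x|
    obtain ⟨n, h1, h2⟩ := ((mapClusterPt_iff_frequently.1 z2 {f | |f.1 x| < N} ((isOpen_lt
      ((continuous_apply x).comp continuous_subtype_val).abs continuous_const).mem_nhds hN)).and_eventually
        (eventually_ge_atTop N)).exists
    exact lt_asymm (u2 n) (lt_of_lt_of_le h1 (Nat.cast_le.2 h2))
  choose c hc using bd
  refine Subtype.isCompact_iff.2 ((isCompact_univ_pi fun x => isCompact_Icc (a := -(c x : ℝ))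
    (b := c x)).of_isClosed_subset (isClosed_of_closure_subset fun g hg => ?_)
      (image_subset_iff.2 fun f hf x _ => abs_le.1 (hc x f hf)))
  have gc : Continuous fun x => g (ι x) :=
    continuous_iff_image_closure_subset_closure_image.2 fun T => image_subset_iff.2 fun x hx => by
      obtain ⟨T', t1, t2, t3⟩ := tight hx
      obtain ⟨f, -, hf⟩ := agree hS hg ((t2.insert x).image ι)
      have := image_closure_subset_closure_image (f.2.comp ι_cont) ⟨x, t3, rfl⟩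
      rw [Function.comp, hf _ ⟨x, mem_insert _ _, rfl⟩] at this
      refine closure_mono ?_ this
      rintro _ ⟨y, hy, rfl⟩
      exact ⟨y, t1 hy, (hf _ ⟨y, mem_insert_of_mem _ hy, rfl⟩).symm⟩
  choose f f1 f2 using fun R0 : Finset 𝒜 => agree hS hg (E := insert top
    (⋃ R ∈ (R0.powerset : Set (Finset 𝒜)), range fun p : Finset W × Finset W => ι (mk R p.1 p.2)))
    ((R0.powerset.countable_toSet.biUnion fun _ _ => countable_range _).insert _)
  choose h h1 h2 using approx (𝒜 := 𝒜)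
  obtain ⟨T, t1, t2⟩ := hull (fun R0 => h (fun x => g (ι x)) R0 ∪ 
      ⋃ R1 ∈ (R0.powerset : Set (Finset 𝒜)), ⋃ R ∈ (R0.powerset : Set (Finset 𝒜)), h (fun x => (f R1).1 (ι x)) R)
    fun R0 => (h1 _ _).union (R0.powerset.countable_toSet.biUnion fun _ _ =>
      R0.powerset.countable_toSet.biUnion fun _ _ => h1 _ _)
  obtain ⟨e, he⟩ := countable_iff_exists_subset_range.1 t1
  let R : ℕ → Finset 𝒜 := fun n => ((Finset.range n).image e).filter (· ∈ T)
  obtain ⟨z, z1, z2⟩ := hS (fun n => f (R n)) fun n => f1 _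
  refine ⟨z, z1, funext fun x => cl_eq z2 (tendsto_const_nhds.congr' ?_)⟩
  obtain ⟨x, rfl | hx⟩ := x
  · exact Eventually.of_forall fun n => (f2 _ _ (mem_insert _ _)).symm
  have ev : ∀ᶠ n in atTop, ∀ a ∈ hx.1.toFinset.filter (· ∈ T), a ∈ R n :=
    (eventually_all_finset _).2 fun a ha => by
      obtain ⟨i, rfl⟩ := he (Finset.mem_filter.1 ha).2
      filter_upwards [eventually_gt_atTop i] with n hn
      exact Finset.mem_filter.2 ⟨Finset.mem_image_of_mem _ (Finset.mem_range.2 hn),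
        (Finset.mem_filter.1 ha).2⟩
  filter_upwards [ev] with n hn
  refine tendsto_nhds_unique (h2 _ gc T (fun Q hQ => subset_union_left.trans (t2 Q hQ)) ⟨x, hx⟩)
    ((h2 _ ((f (R n)).2.comp ι_cont) T (fun Q hQ => Subset.trans ?_ (t2 (Q ∪ R n) ?_))
      ⟨x, hx⟩).congr fun G => f2 _ _ (Or.inr (mem_iUnion₂.2
        ⟨_, Finset.mem_powerset.2 hn, (G, _), rfl⟩)))
  · exact fun a ha => Or.inr (mem_iUnion₂.2 ⟨R n, Finset.mem_powerset.2 Finset.subset_union_right,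
      mem_iUnion₂.2 ⟨Q, Finset.mem_powerset.2 Finset.subset_union_left, ha⟩⟩)
  · rw [Finset.coe_union]
    exact union_subset hQ fun a ha => (Finset.mem_filter.1 ha).2

noncomputable def co (i : W ⊕ 𝒜) : Cp (X 𝒜) :=
  ⟨fun x => if x.1 i = true then 1 else 0,
    (continuous_of_discreteTopology (f := fun b : Bool => if b = true then (1 : ℝ) else 0)).comp
      ((continuous_apply i).comp continuous_subtype_val)⟩

lemma exc (h : 𝒜.Pairwise fun a b => (a ∩ b).Finite) (x : X 𝒜) (a : 𝒜) :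
    {m ∈ a.1 | x.1 (.inl m) ≠ x.1 (.inr a)}.Finite := by
  obtain ⟨x, rfl | hx⟩ := x
  · simp
  refine (hx.2.union (hx.1.biUnion (t := fun b => {m ∈ a.1 ∩ b.1 | a ≠ b}) fun b _ => ?_)).subset
    fun m hm => by_contra fun hn => hm.2 ?_
  · by_cases e : a = b
    · simp [e]
    · exact (h a.2 b.2 fun e' => e (Subtype.ext e')).subset fun m hm => hm.1
  · simp only [mem_union, not_or, mem_ofPred_eq, not_not] at hn
    rw [Bool.eq_iff_iff, hn.1]
    refine ⟨fun ⟨b, b1, b2⟩ => by_contra fun e => hn.2 (mem_iUnion₂.2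
      ⟨b, b1, ⟨hm.1, b2⟩, fun e' => e (e' ▸ b1)⟩), fun e => ⟨a, e, hm.1⟩⟩

lemma hit (h : 𝒜.Pairwise fun a b => (a ∩ b).Finite) (G : Finset (X 𝒜)) (a : 𝒜) {N : Set W}
    (hN : (a.1 ∩ N).Infinite) : {m ∈ N | ∀ x ∈ G, x.1 (.inl m) = x.1 (.inr a)}.Infinite :=
  (hN.sdiff (G.finite_toSet.biUnion fun x _ => exc h x a)).mono fun _ hm =>
    ⟨hm.1.2, fun x hx => by_contra fun e => hm.2 (mem_iUnion₂.2 ⟨x, hx, hm.1.1, e⟩)⟩

theorem relcc (h : 𝒜.Pairwise fun a b => (a ∩ b).Finite)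
    (h2 : ∀ N : Set W, N.Infinite → ∃ a ∈ 𝒜, (a ∩ N).Infinite) (u : ℕ → Cp (X 𝒜))
    (hu : ∀ n, u n ∈ range fun m => co (.inl m)) : ∃ z, MapClusterPt z atTop u := by
  choose n hn using hu
  by_cases hf : (range n).Finite
  · obtain ⟨z, -, hz⟩ := (hf.image fun m => co (𝒜 := 𝒜) (.inl m)).isCompact.exists_mapClusterPt
      (f := atTop) (u := u) (le_principal_iff.2 (mem_map.2 (Eventually.of_forall fun k =>
        ⟨_, ⟨k, rfl⟩, hn k⟩)))
    exact ⟨z, hz⟩
  obtain ⟨a, a1, a2⟩ := h2 _ hf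
  refine ⟨co (.inr ⟨a, a1⟩), mapClusterPt_iff_frequently.2 fun U hU => ?_⟩
  obtain ⟨G, ε, hε, hG⟩ := cp_nhds isOpen_interior (mem_interior_iff_mem_nhds.2 hU)
  refine Nat.frequently_atTop_iff_infinite.2 (((hit h G ⟨a, a1⟩ a2).preimage
    fun m hm => hm.1).mono fun k hk => interior_subset (s := U) (hG _ fun x hx => ?_))
  rw [← hn k]
  simpa [co, hk.2 x hx] using hε

theorem notc (h : 𝒜.Pairwise fun a b => (a ∩ b).Finite) (h3 : ∀ i, {p : W | p.1 = i} ∈ 𝒜) :
    ¬ IsCompact (closure (range fun m => co (𝒜 := 𝒜) (.inl m))) := by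
  classical
  intro hc
  have key : ∀ G : Finset (X 𝒜), ∃ m, ∀ x ∈ G, x.1 ∈ B 𝒜 → x.1 (.inl m) = false := fun G => by
    have inj : Function.Injective fun i => (⟨_, h3 i⟩ : 𝒜) := fun i j e =>
      (Set.ext_iff.1 (congrArg Subtype.val e) (i, 0)).1 rfl
    obtain ⟨i, hi⟩ := ((G.finite_toSet.biUnion (t := fun x => {a | x.1 ∈ B 𝒜 ∧
      x.1 (.inr a) = true}) fun x _ => by
        by_cases e : x.1 ∈ B 𝒜
        · exact e.1.subset fun a ha => ha.2
        · simp [e]).preimage inj.injOn).exists_notMem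
    obtain ⟨m, hm⟩ := (hit h G ⟨_, h3 i⟩ (N := univ) (infinite_of_injective_forall_mem
      (f := fun k => (i, k)) (fun a b e => (Prod.ext_iff.1 e).2) fun k => ⟨rfl, trivial⟩)).nonempty
    exact ⟨m, fun x hx hb => (hm.2 x hx).trans
      (Bool.eq_false_iff.2 fun e => hi (mem_iUnion₂.2 ⟨x, hx, hb, e⟩))⟩
  have nt : (top : X 𝒜).1 ∉ B 𝒜 := fun hb => by
    obtain ⟨m, hm⟩ := key {top}
    simpa [top] using hm top (by simp) hb
  obtain ⟨g, -, hg⟩ : (fun x : X 𝒜 => if x.1 ∈ B 𝒜 then (0 : ℝ) else 1) ∈ Subtype.val ''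
      closure (range fun m => co (𝒜 := 𝒜) (.inl m)) := by
    refine (hc.image continuous_subtype_val).isClosed.closure_subset
      (mem_closure_iff.2 fun U hU hz => ?_)
    obtain ⟨G, hG⟩ := face_open hU hz
    obtain ⟨m, hm⟩ := key G
    refine ⟨_, hG fun x hx => ?_, _, subset_closure ⟨m, rfl⟩, rfl⟩
    by_cases e : x.1 ∈ B 𝒜
    · simp [co, e, hm x hx e]
    · simp only [co, if_neg e]
      simp [x.2.resolve_right e]
  obtain ⟨F, hF⟩ := face ((isOpen_lt continuous_const g.2).mem_nhds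
    (show top ∈ {x | 0 < g.1 x} by simp [hg, nt]))
  obtain ⟨x, hx⟩ := dense F (top (𝒜 := 𝒜)).1
  have e : (ι x).1 ∈ B 𝒜 := x.2
  simpa [hg, e] using hF (ι x) hx

end H5IG
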