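import Mathlib

open Filter Topology Set

namespace H5K

lemma matching {A : Set ℝ} (hA : IsMeagre A) :
    ∃ (m : ℕ → ℕ → ℕ) (y : ℕ → ℕ → ℕ → Fin 2), ∀ z : ℕ → Fin 2,
      (∃ᶠ k in atTop, ∃ n, ∀ i < m k n, z (i + n) = y k n i) → Real.ofDigits z ∉ A := by
  obtain ⟨S, hSo, hSd, hSc, hS⟩ := mem_residual_iff.1 hA
  obtain ⟨D, hD⟩ := (hSc.insert univ).exists_eq_range (insert_nonempty _ _)
  have hDo : ∀ j, IsOpen (D j) := fun j => by
    rcases (hD ▸ mem_range_self j : D j ∈ insert univ S) with h | h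
    · rw [h]; exact isOpen_univ
    · exact hSo _ h
  have hDd : ∀ j, Dense (D j) := fun j => by
    rcases (hD ▸ mem_range_self j : D j ∈ insert univ S) with h | h
    · rw [h]; exact dense_univ
    · exact hSd _ h
  have key : ∀ k n : ℕ, ∃ (m : ℕ) (y : ℕ → Fin 2), ∀ z : ℕ → Fin 2,
      (∀ i < m, z (i + n) = y i) → ∀ j ≤ k, Real.ofDigits z ∈ D j := by
    intro k n
    let c : (Fin n → Fin 2) → ℝ := fun s => ∑ i : Fin n, ((s i : ℕ) : ℝ) * (((2 : ℕ) : ℝ) ^ ((i : ℕ) + 1))⁻¹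
    let r : ℝ := (((2 : ℕ) : ℝ) ^ n)⁻¹
    have hr : r ≠ 0 := by positivity
    let D' : Set ℝ := ⋂ p : Fin (k + 1) × (Fin n → Fin 2), (fun u => c p.2 + r * u) ⁻¹' D p.1
    have ho : IsOpen D' := isOpen_iInter_of_finite fun p => (hDo _).preimage (by fun_prop)
    have hd : Dense D' := dense_iInter_of_isOpen (fun p => (hDo _).preimage (by fun_prop))
      fun p => (hDd _).preimage ((Homeomorph.mulLeft₀ r hr).trans (Homeomorph.addLeft (c p.2))).isOpenMap
    obtain ⟨u, hu1, hu2⟩ := hd.inter_open_nonempty (Ioo 0 1) isOpen_Ioo ⟨1 / 2, by norm_num, by norm_num⟩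
    obtain ⟨ε, hε, hb⟩ := Metric.isOpen_iff.1 ho u hu2
    obtain ⟨m, hm⟩ := exists_pow_lt_of_lt_one hε (by norm_num : (1 / 2 : ℝ) < 1)
    refine ⟨m, Real.digits u 2, fun z hz j hj => ?_⟩
    have h1 := Real.abs_ofDigits_sub_ofDigits_le (x := fun i => z (i + n)) hz
    rw [Real.ofDigits_digits (by norm_num) ⟨hu1.1.le, hu1.2⟩] at h1
    have h2 : Real.ofDigits (fun i => z (i + n)) ∈ D' := by
      apply hb
      rw [Metric.mem_ball, Real.dist_eq]
      refine h1.trans_lt (lt_of_eq_of_lt ?_ hm)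
      simp
    have h3 := mem_iInter.1 h2 (⟨j, by omega⟩, fun i => z i)
    rw [Real.ofDigits_eq_sum_add_ofDigits z n, Finset.sum_range]
    exact h3
  choose m y h using key
  refine ⟨m, y, fun z hz hA => ?_⟩
  refine hS (fun t ht => ?_) hA
  obtain ⟨j, rfl⟩ : t ∈ range D := hD ▸ mem_insert_of_mem _ ht
  obtain ⟨k, ⟨n, hn⟩, hk⟩ := (hz.and_eventually (eventually_ge_atTop j)).exists
  exact h k n z hn j hk

lemma code : ∃ (enc : ℕ → (ℕ → Fin 2) → ℕ) (dec : ℕ → ℕ → Fin 2) (Nb : ℕ → ℕ),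
    (∀ l s, enc l s ≤ Nb l) ∧ (∀ l s, ∀ i < l, dec (enc l s) i = s i) ∧ ∀ l s, l ≤ enc l s := by
  refine ⟨fun l s => Nat.pair l (Encodable.encode (List.ofFn fun i : Fin l => s i)),
    fun a i => ((Encodable.decode (α := List (Fin 2)) a.unpair.2).getD []).getD i 0,
    fun l => Finset.univ.sup fun s : Fin l → Fin 2 => Nat.pair l (Encodable.encode (List.ofFn s)),
    fun l s => ?_, fun l s i hi => ?_, fun l s => Nat.left_le_pair _ _⟩
  · exact Finset.le_sup (f := fun s : Fin l → Fin 2 => Nat.pair l (Encodable.encode (List.ofFn s)))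
      (Finset.mem_univ _)
  · simp [hi]

lemma comb {ι : Type} (hs : ∀ φ : ι × ι → ℝ, IsMeagre (range φ)) (dd w : ι → ℕ → ℕ) :
    (∃ r : ℕ → ℕ, ∀ x, ∀ᶠ n in atTop, dd x n ≤ r n) ∨
    ∃ a nn : ℕ → ℕ, Tendsto a atTop atTop ∧ (∀ k, a k ≤ nn k) ∧
      ∀ x, ∀ᶠ k in atTop, w x (nn k) ≠ a k := by
  classical
  rw [or_iff_not_imp_left]
  intro hun
  obtain ⟨enc, dec, Nb, h1, h2, h3⟩ := code
  let D : ι → ℕ → ℕ := fun x n => (Finset.range (n + 1)).sup (dd x) + n + 1
  have hDm : ∀ x, Monotone (D x) := fun x n n' h => by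
    have : (Finset.range (n + 1)).sup (dd x) ≤ (Finset.range (n' + 1)).sup (dd x) :=
      Finset.sup_mono (Finset.range_mono (by omega))
    simp only [D]; omega
  have hDd : ∀ x n, dd x n ≤ D x n := fun x n => by
    have : dd x n ≤ (Finset.range (n + 1)).sup (dd x) := Finset.le_sup (by simp)
    simp only [D]; omega
  let t : ι → ℕ → ℕ := fun x k => (D x)^[k] 0
  have ht : ∀ x k, t x (k + 1) = D x (t x k) := fun x k => Function.iterate_succ_apply' _ _ _
  have hts : ∀ x, StrictMono (t x) := fun x => strictMono_nat_of_lt_succ fun k => by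
    rw [ht]; simp only [D]; omega
  have hex : ∀ x i, ∃ k, i < t x k := fun x i => ⟨i + 1, (hts x).le_apply⟩
  have hL : ∀ x i k, t x k ≤ i → i < t x (k + 1) → Nat.find (hex x i) = k + 1 := fun x i k h h' => by
    rw [Nat.find_eq_iff]
    exact ⟨h', fun j hj => not_lt.2 (((hts x).monotone (by omega)).trans h)⟩
  let z : ι × ι → ℕ → Fin 2 := fun p i => dec (w p.2 (Nb (t p.1 (Nat.find (hex p.1 i))))) i
  obtain ⟨m, y, hm⟩ := matching (hs fun p => Real.ofDigits (z p))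
  have hx : ∃ x, ∃ᶠ k in atTop, t x k + m k (t x k) ≤ t x (k + 1) := by
    by_contra hcon
    push Not at hcon
    apply hun
    let G : ℕ → ℕ := fun n => (Finset.range (n + 1) ×ˢ Finset.range (n + 1)).sup (fun p => m p.1 p.2) + n
    have hG : Monotone G := fun n n' h => by
      have : (Finset.range (n + 1) ×ˢ Finset.range (n + 1)).sup (fun p => m p.1 p.2) ≤
          (Finset.range (n' + 1) ×ˢ Finset.range (n' + 1)).sup (fun p => m p.1 p.2) :=
        Finset.sup_mono (Finset.product_subset_product (Finset.range_mono (by omega))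
          (Finset.range_mono (by omega)))
      simp only [G]; omega
    refine ⟨fun n => G (G n), fun x => ?_⟩
    obtain ⟨k0, hk0⟩ := eventually_atTop.1 (hcon x)
    have h4 : ∀ k ≥ k0, t x (k + 1) ≤ G (t x k) := fun k hk => by
      have h5 := hk0 k hk
      have h6 : k ≤ t x k := (hts x).le_apply
      have : m k (t x k) ≤ (Finset.range (t x k + 1) ×ˢ Finset.range (t x k + 1)).sup
          (fun p => m p.1 p.2) :=
        Finset.le_sup (f := fun p : ℕ × ℕ => m p.1 p.2) (b := (k, t x k)) (by simp; omega)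
      simp only [G]; omega
    filter_upwards [eventually_ge_atTop (t x k0)] with n hn
    have h5 := Nat.find_spec (hex x n)
    have h6 : k0 < Nat.find (hex x n) := (hts x).lt_iff_lt.1 (hn.trans_lt h5)
    obtain ⟨k, hk⟩ : ∃ k, Nat.find (hex x n) = k + 1 := ⟨Nat.find (hex x n) - 1, by omega⟩
    have h7 : t x k ≤ n := not_lt.1 (Nat.find_min (hex x n) (by omega))
    rw [hk] at h5 h6
    calc dd x n ≤ D x n := hDd x n
      _ ≤ D x (t x (k + 1)) := hDm x h5.le
      _ = t x (k + 1 + 1) := (ht x _).symm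
      _ ≤ G (t x (k + 1)) := h4 _ (by omega)
      _ ≤ G (G (t x k)) := hG (h4 _ (by omega))
      _ ≤ G (G n) := hG (hG h7)
  obtain ⟨x, hx⟩ := hx
  obtain ⟨κ, hκ, hκ2⟩ := extraction_of_frequently_atTop hx
  refine ⟨fun j => enc (t x (κ j + 1)) fun i => y (κ j) (t x (κ j)) (i - t x (κ j)),
    fun j => Nb (t x (κ j + 1)), ?_, fun j => h1 _ _, fun x' => ?_⟩
  · refine tendsto_atTop_mono (fun j => ?_) tendsto_id
    have := hκ.le_apply (x := j)
    have h5 := (hts x).le_apply (x := κ j + 1)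
    exact le_trans (by simp only [id]; omega) (h3 _ _)
  · by_contra hcon
    refine hm (z (x, x')) ?_ (mem_range_self (x, x'))
    rw [not_eventually] at hcon
    refine hκ.tendsto_atTop.frequently (hcon.mono fun j hj => ⟨t x (κ j), fun i hi => ?_⟩)
    have h5 := hκ2 j
    push Not at hj
    simp only [z]
    rw [hL x _ (κ j) (by omega) (by omega), hj, h2 _ _ _ (by omega)]
    simp

lemma lb {α : Type} (S : Finset α) (f : α → ℝ) (h : ∀ a ∈ S, 0 < f a) :
    ∃ m : ℕ, ∀ a ∈ S, 1 / ((m : ℝ) + 1) ≤ f a := by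
  refine ((Finset.eventually_all (l := atTop) S).2 fun a ha => ?_).exists
  exact tendsto_one_div_add_atTop_nhds_zero_nat.eventually (eventually_le_nhds (h a ha))

lemma kappa {X : Type} [MetricSpace X] (hs : ∀ φ : X × X → ℝ, IsMeagre (range φ))
    (F : ℕ → Finset X) (hF : ∀ i j p, p ∈ F i → p ∈ F j → i = j) :
    ∃ (a : ℕ → ℕ) (ε : ℕ → ℝ), Tendsto a atTop atTop ∧ (∀ k, 0 < ε k) ∧
      ∀ x, ∀ᶠ k in atTop, ∀ p ∈ F (a k), ε k ≤ dist x p := by
  classical
  have h1 : ∀ x n, ∃ m : ℕ, x ∉ F n → ∀ p ∈ F n, 1 / ((m : ℝ) + 1) ≤ dist x p := fun x n => by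
    by_cases hx : x ∈ F n
    · exact ⟨0, fun h => absurd hx h⟩
    · obtain ⟨m, hm⟩ := lb (F n) (dist x) fun p hp => dist_pos.2 fun h => hx (h ▸ hp)
      exact ⟨m, fun _ => hm⟩
  choose dd hdd using h1
  have h2 : ∀ n, ∃ δ : ℝ, 0 < δ ∧ ∀ i ≤ n, ∀ j ≤ n, ∀ p ∈ F i, ∀ q ∈ F j, i ≠ j → 2 * δ ≤ dist p q := by
    intro n
    obtain ⟨m, hm⟩ := lb (((Finset.range (n + 1)).biUnion F).offDiag) (fun p => dist p.1 p.2)
      fun p hp => dist_pos.2 (Finset.mem_offDiag.1 hp).2.2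
    refine ⟨1 / ((m : ℝ) + 1) / 2, by positivity, fun i hi j hj p hp q hq hij => ?_⟩
    have := hm (p, q) (Finset.mem_offDiag.2 ⟨Finset.mem_biUnion.2 ⟨i, by simp; omega, hp⟩,
      Finset.mem_biUnion.2 ⟨j, by simp; omega, hq⟩, fun h => hij (hF i j p hp (by
        simp only at h; exact h ▸ hq))⟩)
    simp only at this
    linarith
  choose δ hδ hδ2 using h2
  have h3 : ∀ x n, ∃ a, ∀ a' ≤ n, (∃ p ∈ F a', dist x p < δ n) → a = a' := fun x n => by
    by_cases h : ∃ a ≤ n, ∃ p ∈ F a, dist x p < δ n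
    · obtain ⟨a, ha, p, hp, h⟩ := h
      refine ⟨a, fun a' ha' ⟨q, hq, h'⟩ => ?_⟩
      by_contra hne
      have := hδ2 n a ha a' ha' p hp q hq hne
      have := dist_triangle_left p q x
      linarith
    · exact ⟨0, fun a' ha' h' => absurd ⟨a', ha', h'⟩ h⟩
  choose w hw using h3
  rcases comb hs dd w with ⟨r, hr⟩ | ⟨a, nn, ha, hn, h⟩
  · refine ⟨id, fun k => 1 / ((r k : ℝ) + 1), tendsto_id, fun k => by positivity, fun x => ?_⟩
    have h4 : ∀ᶠ n in atTop, x ∉ F n := by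
      by_cases hx : ∃ n, x ∈ F n
      · obtain ⟨n, hn⟩ := hx
        filter_upwards [eventually_gt_atTop n] with k hk hk'
        exact hk.ne (hF _ _ x hn hk')
      · exact Eventually.of_forall fun n hn => hx ⟨n, hn⟩
    filter_upwards [h4, hr x] with n hn hn' p hp
    refine le_trans ?_ (hdd x n hn p hp)
    have : (dd x n : ℝ) ≤ r n := by exact_mod_cast hn'
    gcongr
  · refine ⟨a, fun k => δ (nn k), ha, fun k => hδ _, fun x => ?_⟩
    filter_upwards [h x] with k hk p hp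
    by_contra hc
    exact hk (hw x _ _ (hn k) ⟨p, hp, not_le.1 hc⟩)

end H5K
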