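import Pool.Agent.Lib.helper5.Corson

/-! Radon-Nikodym Valdivia compacta contain no copy of `[0, ω₂]`. -/

open Cardinal hiding univ
open Set Filter Topology TopologicalSpace

namespace H5V

lemma sm {l : Cardinal} (hl : ℵ₀ ≤ l) (a : (Order.succ l).ord.ToType) : #(Iic a) ≤ l := by
  simpa using mk_Iic_lt a (by simp) (by simpa using hl.trans (Order.le_succ l))

lemma bd {l : Cardinal} (hl : ℵ₀ ≤ l) {ι : Type} (g : ι → (Order.succ l).ord.ToType) (h : #ι ≤ l) :
    ∃ b, ∀ i, g i < b := by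
  by_contra! hn
  have : #(univ : Set (Order.succ l).ord.ToType) ≤ l := by
    rw [show univ = ⋃ i, Iic (g i) from (eq_univ_of_forall fun b => mem_iUnion.2 (hn b)).symm]
    exact (mk_iUnion_le _).trans ((mul_le_mul' h (ciSup_le' fun i => sm hl _)).trans_eq
      (mul_eq_self hl))
  simp at this

section
variable {O : Type} [LinearOrder O] (cl : Set O → Set O)

def Win (T U : Set O) : Prop := ∀ (F : O → O) (a : O), ∃ δ α : ℕ → O, a < δ 0 ∧
  (∀ n, δ n ≤ α n ∧ α n < δ (n + 1) ∧ F (α n) < δ (n + 1)) ∧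
  cl (T ∪ range δ) ⊆ U ∪ ⋃ n, Icc (δ n) (α n)

variable {cl}

lemma Win.ok (mono : Monotone cl) {T U : Set O} (h : Win cl T U) : cl T ⊆ U := fun c hc => by
  obtain ⟨δ, α, h1, h2, h3⟩ := h id c
  refine (h3 (mono subset_union_left hc)).resolve_right fun h => ?_
  obtain ⟨n, hn⟩ := mem_iUnion.1 h
  exact (h1.trans_le ((monotone_nat_of_le_succ fun n => (h2 n).1.trans (h2 n).2.1.le)
    n.zero_le)).not_ge hn.1

variable (b : ∀ {ι : Type} (g : ι → O), #ι ≤ ℵ₁ → ∃ b, ∀ i, g i < b) (s : ∀ a : O, #(Iic a) ≤ ℵ₁)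
include b s

lemma dom (H : List O → O → O) : ∃ F : O → O, ∀ l β, (∀ x ∈ l, x ≤ β) → H l β < F β := by
  choose F hF using fun β => b (fun l : List (Iic β) => H (l.map Subtype.val) β)
    ((mk_list_le_max _).trans (max_le aleph0_lt_aleph_one.le (s β)))
  exact ⟨F, fun l β h => (congrArg (H · β)
    (List.attachWith_map_subtype_val h).symm).trans_lt (hF β (l.attachWith _ h))⟩

lemma Win.step {T U : Set O} (h : Win cl T U) (μ : O) :
    ∃ d a, μ < d ∧ d ≤ a ∧ Win cl (insert d T) (U ∪ Icc d a) := by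
  by_contra! hn
  simp only [Win, not_forall, not_exists] at hn
  choose! G c hG using hn
  obtain ⟨F, hF⟩ := dom b s fun l β => max (G (l.getD 0 β) (l.getD 1 β) β)
    (c (l.getD 0 β) (l.getD 1 β))
  obtain ⟨δ, α, h1, h2, h3⟩ := h F μ
  have m : Monotone α := monotone_nat_of_le_succ fun n => (h2 n).2.1.le.trans (h2 _).1
  have k := fun n => max_lt_iff.1 ((hF [δ 0, α 0] (α n) (by
    simpa using ⟨(h2 0).1.trans (m n.zero_le), m n.zero_le⟩)).trans (h2 n).2.2)
  refine hG _ _ h1 (h2 0).1 (fun n => δ (n + 1)) (fun n => α (n + 1)) ⟨(k 0).2, fun n =>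
    ⟨(h2 _).1, (h2 _).2.1, (k _).1⟩, ?_⟩
  rw [← Nat.range_of_succ, ← union_iUnion_nat_succ, ← union_assoc, ← union_assoc,
    union_singleton] at h3
  exact h3

lemma cofpt [WellFoundedLT O] (F : O → O) (a : O) : ∃ d, a < d ∧ (∀ β < d, F β < d) ∧
    ∀ C : Set O, C.Countable → ∃ β < d, ∀ x ∈ C, x < d → x ≤ β := by
  let W := (Order.succ ℵ₀).ord.ToType
  have w : #W ≤ ℵ₁ := by simp [W]
  obtain ⟨G, hG⟩ := dom b s fun l β => max β (F (l.getD 0 β))
  have : ∀ (ξ : W) (g : Iio ξ → O), ∃ y, a < y ∧ ∀ i, G (g i) < y := fun ξ g => by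
    obtain ⟨y, hy⟩ := b (fun o : Option (Iio ξ) => o.elim a fun i => G (g i)) (by
      simpa using add_le_of_le aleph0_lt_aleph_one.le ((mk_set_le _).trans w)
        (one_le_aleph0.trans aleph0_lt_aleph_one.le))
    exact ⟨y, hy none, fun i => hy (some i)⟩
  choose nx n1 n2 using this
  let c : W → O := wellFounded_lt.fix fun ξ ih => nx ξ fun i => ih i i.2
  have hc : ∀ ξ, c ξ = nx ξ fun i => c i := fun ξ => wellFounded_lt.fix_eq _ _
  have c1 : ∀ ξ η, ξ < η → ∀ β ≤ c ξ, c ξ < c η ∧ F β < c η := fun ξ η h β hβ => by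
    have := (hG [β] (c ξ) (by simpa)).trans (hc η ▸ n2 η (fun i => c i) ⟨ξ, h⟩)
    exact max_lt_iff.1 this
  have hb := b c w
  let d := wellFounded_lt.min {y | ∀ ξ, c ξ < y} hb
  have d1 : ∀ ξ, c ξ < d := wellFounded_lt.min_mem _ hb
  have d2 : ∀ β < d, ∃ ξ, β ≤ c ξ := fun β h => by
    by_contra! hn
    exact wellFounded_lt.not_lt_min {y | ∀ ξ, c ξ < y} hn h
  have : Nonempty W := mk_ne_zero_iff.1 (by simpa [W] using (aleph_pos 1).ne')
  choose! x hx using d2
  have d3 : ∀ C : Set O, C.Countable → ∃ η, ∀ β ∈ C, x β < η := fun C hC => by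
    obtain ⟨η, h⟩ := bd le_rfl (fun β : C => x β) (le_aleph0_iff_set_countable.2 hC)
    exact ⟨η, fun β hβ => h ⟨β, hβ⟩⟩
  refine ⟨d, (n1 _ _).trans (hc (x a) ▸ d1 _), fun β h => ?_, fun C hC => ?_⟩
  · obtain ⟨η, h'⟩ := d3 {β} (countable_singleton β)
    exact (c1 _ _ (h' β rfl) β (hx β h)).2.trans (d1 η)
  · obtain ⟨η, h'⟩ := d3 C hC
    exact ⟨c η, d1 η, fun β h1 h2 => (hx β h2).trans (c1 _ _ (h' β h1) _ le_rfl).1.le⟩

lemma start [WellFoundedLT O] [Nonempty O]
    (fin : ∀ T, ∀ c ∈ cl T, ∃ G : Finset O, ↑G ⊆ T ∧ c ∈ cl G)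
    (cb : ∀ T : Set O, T.Countable → (cl T).Countable) : ∃ β, Win cl ∅ (Iic β) := by
  by_contra! hn
  simp only [Win, not_forall, not_exists] at hn
  choose G c hG using hn
  have : ∀ l : List O, ∃ y, ∀ x ∈ cl {x | x ∈ l}, x < y := fun l => by
    obtain ⟨y, h⟩ := b (fun x : cl {x | x ∈ l} => x.1) ((le_aleph0_iff_set_countable.2
      (cb _ l.finite_toSet.countable)).trans aleph0_lt_aleph_one.le)
    exact ⟨y, fun x hx => h ⟨x, hx⟩⟩
  choose y hy using this
  obtain ⟨F, hF⟩ := dom b s fun l β => max (max (G (l.getD 0 β) β) (c (l.getD 0 β))) (y l)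
  choose nx n1 n2 n3 using cofpt b s F
  let δ : ℕ → O := fun n => nx^[n + 1] (Classical.arbitrary O)
  have e : ∀ n, δ n = nx (nx^[n] (Classical.arbitrary O)) := fun n =>
    Function.iterate_succ_apply' _ _ _
  have m : StrictMono δ := strictMono_nat_of_lt_succ fun n => e (n + 1) ▸ n1 _
  choose β b1 b2 using fun n => e n ▸ n3 (nx^[n] (Classical.arbitrary O)) _ (cb _ (countable_range δ))
  have f : ∀ n, ∀ x < δ n, F x < δ n := fun n => e n ▸ n2 _
  have k : ∀ n, max (δ n) (β (n + 1)) < δ (n + 1) := fun n => max_lt (m n.lt_succ_self) (b1 _)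
  refine hG (β 0) δ (fun n => max (δ n) (β (n + 1))) ⟨?_, fun n => ⟨le_max_left _ _, k n, ?_⟩,
    fun x hx => ?_⟩
  · exact (max_lt_iff.1 (max_lt_iff.1 ((hF [β 0] (β 0) (by simp)).trans (f _ _ (b1 0)))).1).2
  · exact (max_lt_iff.1 (max_lt_iff.1 ((hF [β 0] _ (by
      simpa using Or.inl ((b1 0).le.trans (m.monotone n.zero_le)))).trans (f _ _ (k n)))).1).1
  · rw [empty_union] at hx
    have : ∃ n, x < δ n := by
      obtain ⟨H, h1, h2⟩ := fin _ x hx
      obtain ⟨I, -, rfl⟩ := Finset.subset_set_image_iff.1 (h1.trans_eq image_univ.symm)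
      exact ⟨I.sup id + 1, (hy _ x (by convert h2; ext; simp)).trans ((max_lt_iff.1 (hF
        (I.image δ).toList (δ (I.sup id)) (by
          simpa using fun i hi => m.monotone (Finset.le_sup (f := id) hi)))).2.trans
            (f _ _ (m (Nat.lt_succ_self _))))⟩
    obtain ⟨n, hn⟩ := this
    induction n with
    | zero => exact Or.inl (b2 0 x hx hn)
    | succ n ih =>
      exact (lt_or_ge x (δ n)).elim ih fun h =>
        Or.inr (mem_iUnion.2 ⟨n, h, (b2 _ x hx hn).trans (le_max_right _ _)⟩)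

theorem game [WellFoundedLT O] [Nonempty O] (mono : Monotone cl) (ext : ∀ T, T ⊆ cl T)
    (fin : ∀ T, ∀ c ∈ cl T, ∃ G : Finset O, ↑G ⊆ T ∧ c ∈ cl G)
    (cb : ∀ T : Set O, T.Countable → (cl T).Countable) : ∃ (A : Set O) (T : Set ℕ → Set O),
      A.Countable ∧ (∀ t, T t ⊆ A) ∧ ∀ t t' : Set ℕ, cl (T t) ⊆ cl (T t') → t ⊆ t' := by
  classical
  obtain ⟨β, hβ⟩ := start b s fin cb
  let P := {p : Set O × Set O // p.1.Countable ∧ Win cl p.1 p.2}
  choose d a d1 d2 d3 using fun p : P => p.2.2.step b s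
  let st : P → O → P := fun p μ => ⟨(insert (d p μ) p.1.1, p.1.2 ∪ Icc (d p μ) (a p μ)),
    p.2.1.insert _, d3 p μ⟩
  choose nx hn using fun (g : List Prop → P) μ => b (fun l => a (g l) μ)
    (mk_le_aleph0.trans aleph0_lt_aleph_one.le)
  let z : ℕ → O × (List Prop → P) := fun n => Nat.rec (β, fun _ => ⟨(∅, Iic β), countable_empty, hβ⟩)
    (fun _ z => (nx z.2 z.1, fun l => if l.headD False then st (z.2 l.tail) z.1 else z.2 l.tail)) n
  let μ := fun n => (z n).1
  let L : Set ℕ → ℕ → List Prop := fun t n => Nat.rec [] (fun n l => (n ∈ t) :: l) n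
  let q := fun t n => (z n).2 (L t n)
  have q1 : ∀ t n, q t (n + 1) = if n ∈ t then st (q t n) (μ n) else q t n := fun _ _ => rfl
  have m1 : ∀ t n, a (q t n) (μ n) < μ (n + 1) := fun t n => hn _ _ _
  have m : StrictMono μ := strictMono_nat_of_lt_succ fun n =>
    (d1 (q ∅ n) _).trans ((d2 _ _).trans_lt (m1 _ _))
  have q2 : ∀ t, Monotone fun n => (q t n).1.1 := fun t => monotone_nat_of_le_succ fun n => by
    rw [q1]; split_ifs
    exacts [subset_insert _ _, subset_rfl]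
  have q3 : ∀ t n, ∀ x ∈ (q t n).1.2, x ≤ μ 0 ∨ ∃ i ∈ t, μ i < x ∧ x < μ (i + 1) := fun t n => by
    induction n with
    | zero => exact fun x hx => Or.inl hx
    | succ n ih =>
      rw [q1]; split_ifs with h
      · exact fun x hx => hx.elim (ih x) fun hx =>
          Or.inr ⟨n, h, (d1 _ _).trans_le hx.1, hx.2.trans_lt (m1 _ _)⟩
      · exact ih
  refine ⟨⋃ n, ⋃ l, ((z n).2 l).1.1, fun t => ⋃ n, (q t n).1.1, countable_iUnion fun n =>
    countable_iUnion fun l => ((z n).2 l).2.1, fun t => iUnion_mono fun n =>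
      subset_iUnion (fun l => ((z n).2 l).1.1) _, fun t t' h i hi => ?_⟩
  obtain ⟨G, g1, g2⟩ := fin _ _ (h (ext _ (mem_iUnion.2 ⟨i + 1, show d (q t i) (μ i) ∈ _ by
    rw [q1, if_pos hi]; exact mem_insert _ _⟩)))
  obtain ⟨I, i1, i2⟩ := finite_subset_iUnion G.finite_toSet g1
  obtain ⟨n, hn⟩ := i1.bddAbove
  rcases q3 t' n _ ((q t' n).2.2.ok mono (mono (i2.trans (iUnion₂_subset fun k hk =>
    q2 t' (hn hk))) g2)) with k | ⟨j, j1, j2, j3⟩
  · exact absurd ((d1 _ _).trans_le k) (m.monotone i.zero_le).not_gt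
  · rwa [show i = j from le_antisymm (Nat.lt_succ_iff.1 (m.lt_iff_lt.1 ((d1 _ _).trans j3)))
      (Nat.lt_succ_iff.1 (m.lt_iff_lt.1 (j2.trans ((d2 _ _).trans_lt (m1 _ _)))))]

end

lemma scat {Z : Type} [TopologicalSpace Z] [SecondCountableTopology Z]
    (h : ∀ L : Set Z, L.Nonempty → ∃ U, IsOpen U ∧ (U ∩ L).Nonempty ∧ (U ∩ L).Subsingleton) :
    Countable Z := by
  let V := ⋃₀ {U ∈ countableBasis Z | U.Countable}
  have hV : V.Countable := ((countable_countableBasis Z).mono fun _ h => h.1).sUnion fun _ h => h.2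
  refine countable_univ_iff.1 (hV.mono fun x _ => by_contra fun hx => ?_)
  obtain ⟨U, u1, ⟨p, p1, p2⟩, u3⟩ := h Vᶜ ⟨x, hx⟩
  obtain ⟨B, b1, b2, b3⟩ := (isBasis_countableBasis Z).exists_subset_of_mem_open p1 u1
  exact p2 ⟨B, ⟨b1, (hV.union u3.countable).mono fun y hy =>
    (em _).imp id fun h => ⟨b3 hy, h⟩⟩, b2⟩

lemma small {K Γ : Type} [TopologicalSpace K] [CompactSpace K] {e : K → Γ → ℝ} (he : IsEmbedding e)
    (hd : Dense {x | (Function.support (e x)).Countable}) {d : K → K → ℝ}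
    (hl : LowerSemicontinuous fun p : K × K => d p.1 p.2) (hp : ∀ x y, x ≠ y → 0 < d x y)
    (hf : ∀ L : Set K, L.Nonempty → ∀ ε > 0, ∃ U, IsOpen U ∧ (U ∩ L).Nonempty ∧
      ∀ x ∈ U ∩ L, ∀ y ∈ U ∩ L, d x y < ε) (x : K) : #(Function.support (e x)) ≤ ℵ₁ := by
  classical
  by_contra hn
  have ce := fun γ => (continuous_apply γ).comp he.continuous
  have : ∀ γ : Function.support (e x), ∃ n : ℕ, ∀ y z, e y γ = e x γ → e z γ = 0 →
      1 / (n + 1) < d y z := fun γ => by
    obtain ⟨n, h⟩ := (((isClosed_eq ((ce γ).comp continuous_fst) continuous_const).inter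
      (isClosed_eq ((ce γ).comp continuous_snd) continuous_const)).isCompact (s :=
        {p : K × K | e p.1 γ = e x γ} ∩ {p | e p.2 γ = 0})).elim_directed_cover
      (fun n : ℕ => {p | 1 / ((n : ℝ) + 1) < d p.1 p.2}) (fun n => hl.isOpen_preimage _)
      (fun p h => mem_iUnion.2 (exists_nat_one_div_lt (hp _ _ fun k =>
        γ.2 (h.1.symm.trans ((congrArg (e · γ) k).trans h.2))))) (Monotone.directed_le
          fun m n h p (hp : _ < d p.1 p.2) => by exact (Nat.one_div_le_one_div h).trans_lt hp)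
    exact ⟨n, fun y z h1 h2 => h (a := (y, z)) ⟨h1, h2⟩⟩
  choose N hN using this
  have l1 := aleph0_lt_aleph_one.le
  obtain ⟨n, hn⟩ := infinite_pigeonhole_card N (Order.succ ℵ₁) (Order.succ_le_of_lt (not_le.1 hn))
    (l1.trans (Order.le_succ _)) (by
      rw [(isRegular_succ l1).cof_ord]; simp)
  obtain ⟨b⟩ : Nonempty ((Order.succ ℵ₁).ord.ToType ↪ N ⁻¹' {n}) :=
    (Cardinal.le_def _ _).1 (by simpa using hn)
  have : ∀ G : Finset Γ, ∃ A : Set K, A.Countable ∧ (∀ y ∈ A, (Function.support (e y)).Countable) ∧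
      ∀ ε > 0, ∃ y ∈ A, ∀ γ ∈ G, dist (e y γ) (e x γ) < ε := fun G => by
    choose a a1 a2 using fun k : ℕ => hd.inter_open_nonempty _ ((H5C.isOpen_box G (e x)
      (1 / (k + 1))).preimage he.continuous) ⟨x, fun _ _ => by simp; positivity⟩
    refine ⟨range a, countable_range a, forall_mem_range.2 a2, fun ε hε => ?_⟩
    obtain ⟨k, hk⟩ := exists_nat_one_div_lt hε
    exact ⟨_, ⟨k, rfl⟩, fun γ h => (a1 k γ h).trans hk⟩
  choose A a1 a2 a3 using this
  let f : Finset Γ → Set Γ := fun G => ⋃ y ∈ A G, Function.support (e y)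
  have f1 : ∀ G, (f G).Countable := fun G => (a1 G).biUnion (a2 G)
  have : ∀ T, ∃ y, e y = (H5P.hl f T).indicator (e x) := fun T => by
    refine (isCompact_range he.continuous).isClosed.closure_subset
      (mem_closure_iff.2 fun U hU hz => ?_)
    obtain ⟨G, ε, hε, hG⟩ := H5C.pi_nhds hU hz
    obtain ⟨y, y1, y2⟩ := a3 (G.filter (· ∈ H5P.hl f T)) ε hε
    refine ⟨_, hG _ fun i hi => ?_, y, rfl⟩
    by_cases s : i ∈ H5P.hl f T
    · simpa [s] using y2 i (Finset.mem_filter.2 ⟨hi, s⟩)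
    · have : e y i = 0 := by_contra fun n => s (H5P.cl_hl f T _
        (fun γ hγ => (Finset.mem_filter.1 hγ).2) (mem_biUnion y1 n))
      simpa [s, this] using hε
  choose y hy using this
  let c := fun a => (b a).1.1
  have hc : Function.Injective c := Subtype.val_injective.comp (Subtype.val_injective.comp b.2)
  have : Nonempty (Order.succ ℵ₁).ord.ToType := mk_ne_zero_iff.1
    (by simpa using (aleph_pos _).ne')
  obtain ⟨S, T, s1, s2, s3⟩ := game (cl := fun T => c ⁻¹' H5P.hl f (c '' T)) (bd l1) (sm l1)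
    (fun _ _ h => preimage_mono (H5P.hl_mono f (image_mono h)))
    (fun T a h => H5P.le_hl f _ (mem_image_of_mem c h)) (fun T a h => by
      obtain ⟨G, g1, g2⟩ := H5P.hl_fin f h
      obtain ⟨H, h1, rfl⟩ := Finset.subset_set_image_iff.1 g1
      exact ⟨H, h1, by rwa [Finset.coe_image] at g2⟩)
    fun T h => (H5P.hl_cble f f1 (h.image c)).preimage hc
  let w := fun t => y (c '' T t)
  let := TopologicalSpace.induced w inferInstance
  have w1 : IsInducing w := ⟨rfl⟩
  let B := H5P.hl f (c '' S)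
  have : Countable B := (H5P.hl_cble f f1 (s1.image c)).to_subtype
  have : SecondCountableTopology (Set ℕ) := by
    refine IsInducing.secondCountableTopology (f := fun t (γ : B) => e (w t) γ) (IsInducing.of_comp
      (g := fun u γ => if h : γ ∈ B then u ⟨γ, h⟩ else 0) (continuous_pi fun γ => (ce γ).comp
        w1.continuous) (continuous_pi fun γ => ?_) ?_)
    · split_ifs
      exacts [continuous_apply _, continuous_const]
    · convert he.isInducing.comp w1 with t
      ext t γ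
      simp only [Function.comp]
      split_ifs with h
      · rfl
      · rw [hy, indicator_of_notMem fun k => h (H5P.hl_mono f (image_mono (s2 t)) k)]
  have : Countable (Set ℕ) := scat fun L hL => by
    obtain ⟨U, u1, ⟨_, u2, t, u3, rfl⟩, u4⟩ := hf (w '' L) (hL.image w) (1 / (n + 1)) (by positivity)
    have k : ∀ t ∈ w ⁻¹' U ∩ L, ∀ t' ∈ w ⁻¹' U ∩ L, t ⊆ t' := fun t h t' h' => s3 _ _ fun a ha =>
      by_contra fun hn => (u4 _ ⟨h.1, t, h.2, rfl⟩ _ ⟨h'.1, t', h'.2, rfl⟩).not_gt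
        ((show N (b a) = n from (b a).2) ▸ hN (b a) _ _ (by rw [hy]; exact indicator_of_mem (a := c a) ha _)
          (by rw [hy]; exact indicator_of_notMem (a := c a) hn _))
    exact ⟨_, u1.preimage w1.continuous, ⟨t, u2, u3⟩, fun t h t' h' =>
      (k t h t' h').antisymm (k t' h' t h)⟩
  obtain ⟨g, hg⟩ := exists_surjective_nat (Set ℕ)
  exact Function.cantor_surjective g hg

lemma chain {Γ : Type} {j : Iic (aleph.{0} 2).ord → Γ → ℝ} (hj : Continuous j)
    (h : ∀ x, #(Function.support (j x)) ≤ ℵ₁) : ¬ Function.Injective j := fun hi => by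
  have r : (aleph.{0} 2).IsRegular := by simpa [one_add_one_eq_two] using isRegular_aleph_add_one 1
  let t : Iic (ℵ_ 2).ord := ⟨_, self_mem_Iic⟩
  have lim := isSuccLimit_ord r.1
  have bd : ∀ {ι : Type} (g : ι → Iic (ℵ_ 2).ord), #ι ≤ ℵ₁ → (∀ i, g i < t) →
      ∃ b < t, ∀ i, g i < b := fun g h1 h2 => by
    have := Ordinal.iSup_lt_of_lt_cof (f := fun i => Order.succ (g i).1)
      (h1.trans_lt (by rw [r.cof_ord]; simp)) fun i => lim.succ_lt (h2 i)
    exact ⟨⟨_, this.le⟩, this, fun i => (Order.lt_succ (g i).1).trans_le (Ordinal.le_iSup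
      (fun i => Order.succ (g i).1) i)⟩
  have z : (⟨0, mem_Iic.2 zero_le⟩ : Iic (ℵ_ 2).ord) < t := lim.bot_lt
  have l1 := aleph0_lt_aleph_one.le
  have : ∀ γ, ∃ b < t, ∀ a, b < a → j a γ = j t γ := fun γ => by
    choose g g1 g2 using fun n : ℕ => exists_Ioc_subset_of_mem_nhds (Metric.tendsto_nhds.1
      (((continuous_apply γ).comp hj).tendsto t) (1 / (n + 1)) (by positivity)) ⟨_, z⟩
    obtain ⟨b, b1, b2⟩ := bd g (mk_le_aleph0.trans l1) g1
    refine ⟨b, b1, fun a ha => eq_of_forall_dist_le fun ε hε => ?_⟩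
    obtain ⟨n, hn⟩ := exists_nat_one_div_lt hε
    exact ((g2 n ⟨(b2 n).trans ha, a.2⟩).trans hn).le
  choose β b1 b2 using this
  have : ∀ a : Iio t, ∃ c : Iio t, a < c ∧
      ∀ γ ∈ Function.support (j a) ∪ Function.support (j t), β γ < c := fun a => by
    obtain ⟨c, c1, c2⟩ := bd (fun o : Option ↥(Function.support (j a) ∪ Function.support (j t)) =>
      o.elim a.1 fun γ => β γ) (by
        simpa using add_le_of_le l1 ((mk_union_le _ _).trans (add_le_of_le l1 (h _) (h _)))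
          (one_le_aleph0.trans l1)) (by rintro (_ | _); exacts [a.2, b1 _])
    exact ⟨⟨c, c1⟩, c2 none, fun γ hγ => c2 (some ⟨γ, hγ⟩)⟩
  choose nx n1 n2 using this
  let a : ℕ → Iic (ℵ_ 2).ord := fun n => (nx^[n] ⟨_, z⟩).1
  have e : ∀ n, a (n + 1) = nx (nx^[n] ⟨_, z⟩) := fun n =>
    congrArg Subtype.val (Function.iterate_succ_apply' _ _ _)
  have m : Monotone fun n => (a n).1 := monotone_nat_of_le_succ fun n => by
    rw [e]; exact (n1 _).le
  obtain ⟨c, c1, c2⟩ := bd a (mk_le_aleph0.trans l1) fun n => (nx^[n] ⟨_, z⟩).2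
  have k : ⨆ n, (a n).1 ≤ c := ciSup_le fun n => (c2 n).le
  let s : Iic (ℵ_ 2).ord := ⟨_, k.trans c.2⟩
  have ts : Tendsto a atTop (𝓝 s) := tendsto_subtype_rng.2 (tendsto_atTop_ciSup m
    Ordinal.bddAbove_of_small)
  refine (lt_of_le_of_lt (show s ≤ c from k) c1).ne (hi (funext fun γ => ?_))
  by_cases k : ∃ n, γ ∈ Function.support (j (a n)) ∪ Function.support (j t)
  · obtain ⟨n, hn⟩ := k
    exact b2 γ s ((e n ▸ n2 _ γ hn).trans_le (Ordinal.le_iSup (fun n => (a n).1) (n + 1)))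
  · simp only [mem_union, Function.mem_support, not_exists, not_or, not_not] at k
    rw [(k 0).2]
    exact tendsto_nhds_unique ((((continuous_apply γ).comp hj).tendsto s).comp ts)
      (tendsto_const_nhds.congr fun n => (k n).1.symm)

end H5V
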