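import Pool.Agent.Lib.helper5.Moeb
import Pool.Agent.Lib.helper5.Velick

/-! A scattered compact space containing `[0, ω₁]` whose `C(K)` has a `1`-norming M-basis. -/

open Set Filter Topology TopologicalSpace Function
open scoped BoundedContinuousFunction

namespace H5M

variable {W : Type} [LinearOrder W]

/-- one step of the recursive construction -/
def Gd (H : W → ℕ → Finset W) (β : W) (g : ℕ → Finset W) : Prop :=
  (∀ n, β ∈ g n) ∧ (∀ n, ∀ ξ ∈ g n, ξ = β ∨ ξ < β ∧ H ξ n ⊆ g n) ∧ Monotone g ∧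
    (∀ ξ < β, ∃ n, ξ ∈ g n) ∧ ∀ k, ∀ᶠ n in atTop, (g n).card + k ≤ n

lemma step {H : W → ℕ → Finset W} {β : W} (h : (Iio β).Countable) (ih : ∀ ξ < β, Gd H ξ (H ξ)) :
    ∃ g, Gd H β g := by
  classical
  rcases (Iio β).eq_empty_or_nonempty with e | e
  · exact ⟨fun _ => {β}, by simp, by simp, monotone_const, fun ξ k => (e.le k).elim,
      fun k => by simpa using ⟨1 + k, fun _ => id⟩⟩
  obtain ⟨x, hx⟩ := h.exists_eq_range e
  have x1 : ∀ k, x k < β := fun k => hx.ge ⟨k, rfl⟩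
  choose j j1 j2 using fun k => (Finset.range (k + 1)).exists_max_image x (by simp)
  let Q := fun k n => ∀ m ≥ n, (∀ i ≤ k, x i ∈ H (x (j k)) m) ∧ (H (x (j k)) m).card + k + 1 ≤ m
  have q1 : ∀ k, ∀ᶠ n in atTop, Q k n := fun k => by
    refine (eventually_forall_ge_atTop.2 (.and ?_ ((ih _ (x1 _)).2.2.2.2 (k + 1))))
    refine ((finite_le_nat k).eventually_all).2 fun i hi => ?_
    obtain ⟨n, hn⟩ : ∃ n, x i ∈ H (x (j k)) n := (j2 k i (by simpa using Nat.lt_succ_of_le hi)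
      ).eq_or_lt.elim (fun e => ⟨0, e ▸ (ih _ (x1 _)).1 0⟩) ((ih _ (x1 _)).2.2.2.1 _)
    exact eventually_atTop.2 ⟨n, fun m k => (ih _ (x1 _)).2.2.1 k hn⟩
  have q2 : ∀ a n, ∀ ξ ∈ H (x a) n, ξ < β ∧ H ξ n ⊆ H (x a) n := fun a n ξ k =>
    ((ih _ (x1 a)).2.1 n ξ k).elim (fun e => e.symm ▸ ⟨x1 a, subset_rfl⟩) fun e => ⟨e.1.trans (x1 a), e.2⟩
  refine ⟨fun n => insert β (((Finset.range (n + 1)).filter (Q · n)).biUnion fun k =>
    H (x (j k)) n), by simp, fun n ξ k => (Finset.mem_insert.1 k).imp id fun k => ?_,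
    fun n m e => Finset.insert_subset_insert _ fun ξ k => ?_, fun ξ k => ?_, fun k => ?_⟩
  · obtain ⟨a, a1, a2⟩ := Finset.mem_biUnion.1 k
    exact ⟨(q2 _ n ξ a2).1, (q2 _ n ξ a2).2.trans
      ((Finset.subset_biUnion_of_mem (fun k => H (x (j k)) n) a1).trans (Finset.subset_insert ..))⟩
  · obtain ⟨a, a1, a2⟩ := Finset.mem_biUnion.1 k
    simp only [Finset.mem_filter, Finset.mem_range] at a1
    exact Finset.mem_biUnion.2 ⟨a, Finset.mem_filter.2 ⟨Finset.mem_range.2 (by omega),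
      fun l j => a1.2 l (e.trans j)⟩, (ih _ (x1 _)).2.2.1 e a2⟩
  · obtain ⟨a, rfl⟩ := hx.le k
    obtain ⟨n, n1, n2⟩ := ((q1 a).and (eventually_ge_atTop a)).exists
    exact ⟨n, Finset.mem_insert_of_mem (Finset.mem_biUnion.2 ⟨a, Finset.mem_filter.2
      ⟨Finset.mem_range.2 (by omega), n1⟩, (n1 n le_rfl).1 a le_rfl⟩)⟩
  · filter_upwards [q1 k, eventually_ge_atTop k] with n n1 n2
    have m : k ∈ (Finset.range (n + 1)).filter (Q · n) :=
      Finset.mem_filter.2 ⟨Finset.mem_range.2 (by omega), n1⟩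
    obtain ⟨a, a1, a2⟩ := Finset.exists_max_image _ id ⟨k, m⟩
    have a3 := (Finset.mem_filter.1 a1).2 n le_rfl
    have := (Finset.card_insert_le β _).trans (Nat.succ_le_succ (Finset.card_le_card
      (Finset.biUnion_subset.2 fun b hb => (q2 _ n _ (a3.1 (j b) ((Nat.le_of_lt_succ
        (Finset.mem_range.1 (j1 b))).trans (a2 b hb)))).2)))
    have := a2 k m
    simp only [id] at this
    omega

lemma gfun [WellFoundedLT W] (h : ∀ a : W, (Iio a).Countable) :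
    ∃ H : W → ℕ → Finset W, ∀ β, Gd H β (H β) := by
  classical
  let H : W → ℕ → Finset W := wellFounded_lt.fix fun β ih =>
    Classical.epsilon (Gd (fun ξ => if k : ξ < β then ih ξ k else fun _ => ∅) β)
  have e : ∀ β, H β = Classical.epsilon (Gd H β) := fun β => (wellFounded_lt.fix_eq _ _).trans
    (congrArg _ (funext fun g => propext (and_congr_right' (and_congr_left' (forall₃_congr
      fun n ξ _ => or_congr_right (and_congr_right fun k => by simp only [dif_pos k, H]))))))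
  exact ⟨H, fun β => wellFounded_lt.induction (C := fun β => Gd H β (H β)) β fun β ih =>
    e β ▸ Classical.epsilon_spec (step (h β) ih)⟩

theorem exK [WellFoundedLT W] (h : ∀ a : W, (Iio a).Countable) : ∃ K : Set (W → Bool),
    IsClosed K ∧ (∀ x : W → Bool, IsLowerSet {ξ | x ξ} → x ∈ K) ∧
    Dense {x : K | {ξ | x.1 ξ}.Finite} ∧ (∀ s : Finset W, (∃ x ∈ K, ∀ ξ ∈ s, x ξ) →
      ∃ A ∈ K, (∀ ξ ∈ s, A ξ) ∧ ∀ x ∈ K, (∀ ξ ∈ s, x ξ) → ∀ ξ, A ξ → x ξ) ∧
    (∀ s : Set K, s.Nonempty → ∃ x ∈ s, ∃ U : Set K, IsOpen U ∧ U ∩ s = {x}) ∧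
    ∀ x ∈ K, (∀ ξ, x ξ) ∨ {ξ | x ξ}.Countable := by
  classical
  obtain ⟨H, hH⟩ := gfun h
  let K : Set (W → Bool) := {x | ∀ n, (∀ ξ, x ξ → ∀ ζ ∈ H ξ n, x ζ) ∨
    ∀ s : Finset W, (∀ ξ ∈ s, x ξ) → s.card < n}
  have op : ∀ ξ b, IsOpen {x : K | x.1 ξ = b} := fun ξ b => (isOpen_discrete {b}).preimage
    ((continuous_apply (A := fun _ => Bool) ξ).comp continuous_subtype_val)
  have h1 : ∀ ξ n, ∀ ζ ∈ H ξ n, ζ ≤ ξ ∧ H ζ n ⊆ H ξ n := fun ξ n ζ k =>
    ((hH ξ).2.1 n ζ k).elim (fun e => e.symm ▸ ⟨le_rfl, subset_rfl⟩) fun e => ⟨e.1.le, e.2⟩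
  have h2 : ∀ ξ ζ, ζ ≤ ξ → ∀ᶠ n in atTop, ζ ∈ H ξ n := fun ξ ζ k => by
    obtain ⟨n, hn⟩ : ∃ n, ζ ∈ H ξ n := k.eq_or_lt.elim (fun e => ⟨0, e ▸ (hH _).1 0⟩)
      ((hH ξ).2.2.2.1 _)
    exact eventually_atTop.2 ⟨n, fun m k => (hH ξ).2.2.1 k hn⟩
  have h3 : ∀ x : W → Bool, IsLowerSet {ξ | x ξ} → x ∈ K := fun x k n =>
    .inl fun ξ m ζ z => k (h1 ξ n ζ z).1 m
  have h4 : ∀ x ∈ K, {ξ | x ξ}.Infinite → ∀ n ξ, x ξ → ∀ ζ ∈ H ξ n, x ζ := fun x m k n =>
    (m n).resolve_right fun j => (k.exists_subset_card_eq n).elim fun s e => (j s e.1).ne e.2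
  refine ⟨K, ?_, h3, dense_iff_inter_open.2 ?_, fun s _ => ⟨fun ξ => decide (∀ x ∈ K,
    (∀ ξ ∈ s, x ξ) → x ξ), fun n => ?_, fun ξ m => decide_eq_true fun x _ k => k ξ m,
      fun x m k ξ z => of_decide_eq_true z x m k⟩, fun s ⟨x0, s0⟩ => ?_, fun x m => ?_⟩
  · simp only [K, ofPred_forall, ofPred_or]
    refine isClosed_iInter fun n => .union (isClosed_iInter fun ξ => ?_) (isClosed_iInter fun s => ?_)
    · convert isClosed_biInter fun ζ (_ : ζ ∈ H ξ n) => cl {ξ} ζ using 1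
      exact Set.ext fun x => by simpa using ⟨fun k ζ m j => k j ζ m, fun k j ζ m => k ζ m j⟩
    · by_cases k : s.card < n
      · simp [k]
      simp only [k, imp_false]
      refine IsOpen.isClosed_compl (s := {x : W → Bool | ∀ ξ ∈ s, x ξ}) ?_
      simp only [ofPred_forall]
      exact isOpen_biInter_finset fun ξ _ =>
        (isOpen_discrete {true}).preimage (continuous_apply (A := fun _ => Bool) ξ)
  · rintro _ ⟨U, u1, rfl⟩ ⟨x, u2⟩
    by_cases k : {ξ | x.1 ξ}.Finite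
    · exact ⟨x, u2, k⟩
    obtain ⟨G, t, t1, t2⟩ := isOpen_pi_iff.1 u1 _ u2
    rcases (G.filter (x.1 ·)).eq_empty_or_nonempty with e | e
    · refine ⟨⟨fun _ => false, h3 _ fun _ _ _ => id⟩, t2 fun ξ m => ?_, by simp⟩
      exact Bool.eq_false_iff.2 (Finset.filter_eq_empty_iff.1 e m) ▸ (t1 ξ m).2
    obtain ⟨b, b1, b2⟩ := Finset.exists_max_image _ id e
    obtain ⟨n, n1, n2⟩ := (((hH b).2.2.2.2 0).and ((Finset.eventually_all _).2
      fun ξ m => h2 b ξ (b2 ξ m))).exists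
    refine ⟨⟨fun ξ => decide (ξ ∈ H b n), fun m => (le_or_gt m n).imp (fun j ξ k ζ z => decide_eq_true
      ((h1 b n ξ (of_decide_eq_true k)).2 ((hH ξ).2.2.1 j z))) fun j s k => (Finset.card_le_card
        fun ξ m => of_decide_eq_true (k ξ m)).trans_lt (n1.trans_lt j)⟩, t2 fun ξ m => ?_, by simp⟩
    exact mem_of_eq_of_mem (Bool.eq_iff_iff.2 (decide_eq_true_iff.trans ⟨h4 _ x.2 k n b
      (Finset.mem_filter.1 b1).2 ξ, fun j => n2 ξ (Finset.mem_filter.2 ⟨m, j⟩)⟩)) (t1 ξ m).2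
  · by_cases k : ∀ x ∈ K, (∀ ξ ∈ s, x ξ) → ∀ ξ, x ξ → ∀ ζ ∈ H ξ n, x ζ
    · exact .inl fun ξ m ζ z => decide_eq_true fun x a b =>
        k x a b ξ (of_decide_eq_true m x a b) ζ z
    obtain ⟨x, a, b, c⟩ : ∃ x ∈ K, (∀ ξ ∈ s, x ξ) ∧ ¬ ∀ ξ, x ξ → ∀ ζ ∈ H ξ n, x ζ := by
      simpa only [not_forall, exists_prop] using k
    exact .inr fun t j => (a n).resolve_left c t fun ξ m => of_decide_eq_true (j ξ m) x a b
  · by_cases k : ∀ x ∈ s, IsLowerSet {ξ | x.1 ξ}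
    · by_cases j : ∃ ξ, ∃ x ∈ s, x.1 ξ = false
      · obtain ⟨ξ, ⟨x, x1, x2⟩, m⟩ := wellFounded_lt.has_min {ξ | ∃ x ∈ s, x.1 ξ = false} j
        have : ∀ y ∈ s, y.1 ξ = false → ∀ ζ, y.1 ζ ↔ ζ < ξ := fun y a b ζ => ⟨fun c =>
          not_le.1 fun d => Bool.eq_false_iff.1 b (k y a d c), fun c => by_contra fun d =>
            m ζ ⟨y, a, Bool.eq_false_iff.2 d⟩ c⟩
        exact ⟨x, x1, _, op ξ false, eq_singleton_iff_unique_mem.2 ⟨⟨x2, x1⟩, fun y a => Subtype.ext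
          (funext fun ζ => Bool.eq_iff_iff.2 ((this y a.2 a.1 ζ).trans (this x x1 x2 ζ).symm))⟩⟩
      · have : ∀ y ∈ s, y.1 = fun _ => true := fun y a => funext fun ξ => by_contra fun b =>
          j ⟨ξ, y, a, Bool.eq_false_iff.2 b⟩
        exact ⟨x0, s0, univ, isOpen_univ, eq_singleton_iff_unique_mem.2 ⟨⟨trivial, s0⟩, fun y a =>
          Subtype.ext ((this y a.2).trans (this x0 s0).symm)⟩⟩
    obtain ⟨x, x1, a, b, l, x2, x3⟩ : ∃ x ∈ s, ∃ a b, b ≤ a ∧ x.1 a ∧ x.1 b = false := by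
      simpa [IsLowerSet] using k
    obtain ⟨n, hn⟩ := (h2 a b l).exists
    obtain ⟨_, ⟨t, ⟨y, y1, y2, y3, y4⟩, rfl⟩, m⟩ := ((finite_lt_nat n).subset (t := Finset.card ''
      {t | ∃ y ∈ s, y.1 a ∧ y.1 b = false ∧ ∀ ξ ∈ t, y.1 ξ}) (forall_mem_image.2
        fun t ⟨y, _, y2, y3, y4⟩ => (y.2 n).resolve_left (fun j => Bool.eq_false_iff.1 y3
          (j a y2 b hn)) t y4)).exists_maximal ⟨_, ∅, ⟨x, x1, x2, x3, by simp⟩, rfl⟩
    have : ∀ z ∈ s, z.1 a → z.1 b = false → (∀ ξ ∈ t, z.1 ξ) → ∀ ζ, z.1 ζ ↔ ζ ∈ t :=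
      fun z z1 z2 z3 z4 ζ => ⟨fun c => by_contra fun d => (m ⟨insert ζ t, ⟨z, z1, z2, z3, by
        simpa [c] using z4⟩, Finset.card_insert_of_notMem d⟩ (Nat.le_succ _)).not_gt
          (Nat.lt_succ_self _), z4 ζ⟩
    refine ⟨y, y1, _, ((op a true).inter (op b false)).inter (isOpen_biInter_finset
      fun ξ (_ : ξ ∈ t) => op ξ true), eq_singleton_iff_unique_mem.2 ⟨⟨⟨⟨y2, y3⟩, mem_iInter₂.2 y4⟩,
        y1⟩, fun z c => Subtype.ext (funext fun ζ => Bool.eq_iff_iff.2 ((this z c.2 c.1.1.1 c.1.1.2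
          (by simpa using c.1.2) ζ).trans (this y y1 y2 y3 y4 ζ).symm))⟩⟩
  · refine or_iff_not_imp_left.2 fun k => by_contra fun j => ?_
    obtain ⟨ξ, k⟩ := not_forall.1 k
    exact j ((h ξ).mono fun ζ z => not_le.1 fun l => (h2 ζ ξ l).exists.elim fun n e =>
      k (h4 x m (fun f => j f.countable) n ζ z ξ e))

lemma pig {ι β : Type} [Countable β] {S : Set ι} (h : ¬ S.Countable) (c : ι → β) :
    ∃ y, ¬ {i ∈ S | c i = y}.Countable := by
  by_contra! hn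
  exact h ((countable_iUnion hn).mono fun i hi => mem_iUnion.2 ⟨c i, And.intro hi rfl⟩)

lemma delta {ι Γ : Type} (n : ℕ) : ∀ (R : ι → Finset Γ) (S : Set ι), ¬ S.Countable →
    (∀ i ∈ S, (R i).card ≤ n) → ∃ T ⊆ S, ∃ G : Finset Γ, ¬ T.Countable ∧
      ∀ γ ∉ G, {i ∈ T | γ ∈ R i}.Subsingleton := by
  classical
  induction n with
  | zero => exact fun R S h1 h2 => ⟨S, subset_rfl, ∅, h1, fun γ _ i hi => by
      simpa [Finset.card_eq_zero.1 (Nat.le_zero.1 (h2 i hi.1))] using hi.2⟩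
  | succ n ih =>
    intro R S h1 h2
    by_cases h : ∃ γ, ¬ {i ∈ S | γ ∈ R i}.Countable
    · obtain ⟨γ, h⟩ := h
      obtain ⟨T, t1, G, t2, t3⟩ := ih (fun i => (R i).erase γ) _ h fun i hi => by
        rw [Finset.card_erase_of_mem hi.2]; exact Nat.sub_le_of_le_add (h2 i hi.1)
      refine ⟨T, fun i hi => (t1 hi).1, insert γ G, t2, fun c hc => ?_⟩
      rw [Finset.mem_insert, not_or] at hc
      exact (t3 c hc.2).anti fun i hi => ⟨hi.1, Finset.mem_erase.2 ⟨hc.1, hi.2⟩⟩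
    obtain ⟨T, ⟨t1, t2⟩, t3⟩ := zorn_subset
      {T | T ⊆ S ∧ T.Pairwise fun i j => Disjoint (R i) (R j)} fun c c1 c2 =>
        ⟨⋃₀ c, ⟨sUnion_subset fun T hT => (c1 hT).1, (pairwise_sUnion c2.directedOn).2
          fun T hT => (c1 hT).2⟩, fun _ => subset_sUnion_of_mem⟩
    refine ⟨T, t1, ∅, fun k => h1 ((k.union (k.biUnion (t := fun j _ => ⋃ γ ∈ (R j : Set Γ),
      {i ∈ S | γ ∈ R i}) fun j _ => (R j).countable_toSet.biUnion fun γ _ => not_not.1
        fun k => h ⟨γ, k⟩)).mono fun i hi => ?_),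
      fun γ _ i hi j hj => by_contra fun e => Finset.disjoint_left.1 (t2 hi.1 hj.1 e) hi.2 hj.2⟩
    by_contra hn
    have : ∀ j ∈ T, Disjoint (R i) (R j) := fun j hj => Finset.disjoint_left.2 fun γ h1 h2 =>
      hn (Or.inr (mem_biUnion hj (mem_biUnion h2 ⟨hi, h1⟩)))
    exact hn (Or.inl (t3 (y := insert i T) ⟨insert_subset hi t1, t2.insert
      fun j hj _ => ⟨this j hj, (this j hj).symm⟩⟩ (subset_insert _ _) (mem_insert _ _)))

lemma om1 : ¬ (univ : Set (Ordinal.omega.{0} 1).ToType).Countable := by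
  simp [← Cardinal.le_aleph0_iff_set_countable]

lemma om2 (a : (Ordinal.omega.{0} 1).ToType) : (Iic a).Countable := by
  have := Cardinal.mk_Iic_lt a (by simp [Cardinal.ord_aleph]) (by simp)
  rw [Cardinal.mk_toType, Ordinal.card_omega, ← Cardinal.succ_aleph0, Order.lt_succ_iff] at this
  exact Cardinal.le_aleph0_iff_set_countable.1 this

theorem core {X : Type} [NormedAddCommGroup X] [NormedSpace ℝ X]
    (w1 : ¬ (univ : Set W).Countable) (w2 : ∀ a : W, (Iic a).Countable) {M : Set X}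
    (hM : Dense ((Submodule.span ℝ M : Submodule ℝ X) : Set X)) {c : ℝ} (hc : 0 < c)
    (hN : ∀ x : X, ∃ f : X →L[ℝ] ℝ, {m ∈ M | f m ≠ 0}.Finite ∧ ‖f‖ ≤ 1 ∧ c * ‖x‖ ≤ |f x|)
    (x : W → X) {C d : ℝ} (hd : 0 < d)
    (h1 : ∀ (a b : ℕ → W) m, (∀ i, a i ≤ b i) → (∀ i, b i ≤ a (i + 1)) →
      ‖∑ i ∈ Finset.range m, (x (b i) - x (a i))‖ ≤ C)
    (h2 : ∀ (a : ℕ → W) m, StrictMono a →
      d * m ≤ ‖∑ i ∈ Finset.range m, (x (a (i + m)) - x (a i))‖) : False := by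
  classical
  have hε : 0 < c * d / 8 := by positivity
  choose y y1 y2 using fun a => hM.exists_dist_lt (x a) hε
  choose k F F1 _ F2 using fun a => Submodule.mem_span_iff_exists_finset_subset.1 (y1 a)
  obtain ⟨n, k1⟩ := pig w1 fun a => (F a).card
  obtain ⟨T, -, G, t2, t3⟩ := delta n F _ k1 fun a h => h.2.le
  obtain ⟨t, t4, t5⟩ := (G.finite_toSet.isSeparable).span (R := ℝ)
  let z := fun a => ∑ m ∈ (F a).filter (· ∈ G), k a m • m
  choose q q1 q2 using fun a => Metric.mem_closure_iff.1 (t5 (show z a ∈ Submodule.span ℝ (G : Set X)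
    from Submodule.sum_mem _ fun m h => Submodule.smul_mem _ _ (Submodule.subset_span
      (Finset.mem_filter.1 h).2))) _ hε
  have := t4.to_subtype
  obtain ⟨r, hr⟩ := pig t2 fun a => (⟨q a, q1 a⟩ : t)
  set S := {i ∈ T | (⟨q i, q1 i⟩ : t) = r}
  have : ∀ a, ∃ b, a < b ∧ ¬ {c ∈ S ∩ Ioi a | c ≤ b}.Finite := fun a => by
    obtain ⟨t, t1, t3, t2⟩ := Set.Infinite.exists_subset_countable_infinite (s := S ∩ Ioi a)
      fun k => hr (((w2 a).union k.countable).mono fun b hb => (le_or_gt b a).imp id (⟨hb, ·⟩))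
    obtain ⟨b, -, hb⟩ := not_subset.1 fun k => w1 ((t3.biUnion fun c _ => w2 c).mono k)
    have : ∀ c ∈ t, c ≤ b := fun c m => le_of_not_ge fun k => hb (mem_biUnion m k)
    exact ⟨b, (t1 t2.nonempty.choose_spec).2.trans_le (this _ t2.nonempty.choose_spec),
      t2.mono fun c m => And.intro (t1 m) (this c m)⟩
  choose nx n1 n2 using this
  obtain ⟨a0, -⟩ := Set.Infinite.nonempty fun k => w1 k.countable
  let a := fun i => nx^[i] a0
  have e : ∀ i, a (i + 1) = nx (a i) := fun i => iterate_succ_apply' _ _ _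
  obtain ⟨m, hm⟩ := exists_nat_gt (4 * C / (c * d))
  obtain ⟨f, f1, f2, f3⟩ := hN (∑ i ∈ Finset.range m, (x (a (i + m)) - x (a i)))
  have fb : ∀ v, |f v| ≤ ‖v‖ := fun v => (f.le_opNorm v).trans
    (mul_le_of_le_one_left (norm_nonneg _) f2)
  let B := ⋃ γ ∈ {m ∈ M | f m ≠ 0} \ G, {i ∈ T | γ ∈ F i}
  have hB : B.Finite := (f1.subset sdiff_subset).biUnion fun γ h => (t3 γ h.2).finite
  choose b b1 b2 using fun i => not_subset.1 fun h => n2 (a i) (hB.subset h)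
  have b3 : ∀ i, |f (x (b i)) - f r| ≤ c * d / 4 := fun i => by
    have k1 : f (y (b i)) = f (z (b i)) := by
      simp only [z]
      rw [← F2, Finset.sum_filter, map_sum, map_sum]
      refine Finset.sum_congr rfl fun v hv => ?_
      split_ifs with h
      · rfl
      · rw [map_smul, show f v = 0 from by_contra fun n => b2 i (mem_biUnion ⟨⟨F1 _ hv, n⟩, h⟩
          ⟨(b1 i).1.1.1, hv⟩), smul_zero, map_zero]
    have k2 := fb (x (b i) - y (b i))
    have k3 := fb (z (b i) - r)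
    have k4 := q2 (b i)
    rw [show q (b i) = r from congrArg Subtype.val (b1 i).1.1.2] at k4
    have k5 := y2 (b i)
    rw [dist_eq_norm] at k4 k5
    rw [map_sub] at k2 k3
    rw [k1] at k2
    linarith [abs_sub_le (f (x (b i))) (f (z (b i))) (f r)]
  have p := fun j => (fb _).trans (h1 (fun i => a (i + j)) (fun i => b (i + j)) m
    (fun i => (b1 _).1.2.le) fun i => by rw [add_right_comm, e]; exact (b1 _).2)
  have p1 : |∑ i ∈ Finset.range m, (f (x (b (i + m))) - f (x (b i)))| ≤ m * (c * d / 2) :=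
    (Finset.abs_sum_le_sum_abs _ _).trans ((Finset.sum_le_card_nsmul _ _ (c * d / 2) fun i _ => by
      linarith [abs_sub_le (f (x (b (i + m)))) (f r) (f (x (b i))), b3 (i + m), b3 i,
        abs_sub_comm (f r) (f (x (b i)))]).trans_eq (by simp))
  have p2 := mul_le_mul_of_nonneg_left (h2 a m (strictMono_nat_of_lt_succ fun i =>
    e i ▸ n1 _)) hc.le
  have p3 := abs_le.1 (p 0)
  have p4 := abs_le.1 (p m)
  simp only [map_sum, map_sub, Finset.sum_sub_distrib, add_zero] at p1 p3 p4 f3 p2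
  rw [div_lt_iff₀ (by positivity)] at hm
  have := abs_le.1 p1
  rcases le_abs.1 (p2.trans f3) with h | h <;> nlinarith

theorem noemb {X : Type} [NormedAddCommGroup X] [NormedSpace ℝ X] {M : Set X}
    (hM : Dense ((Submodule.span ℝ M : Submodule ℝ X) : Set X)) {c : ℝ} (hc : 0 < c)
    (hN : ∀ x : X, ∃ f : X →L[ℝ] ℝ, {m ∈ M | f m ≠ 0}.Finite ∧ ‖f‖ ≤ 1 ∧ c * ‖x‖ ≤ |f x|)
    (T : (Iic (Ordinal.omega.{0} 1) →ᵇ ℝ) →L[ℝ] X) {d : ℝ} (hd : 0 < d)
    (hT : ∀ g, d * ‖g‖ ≤ ‖T g‖) : False := by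
  let o : (Ordinal.omega.{0} 1).ToType → Iic (Ordinal.omega.{0} 1) := fun a =>
    ⟨a.toOrd, mem_Iic.2 (mem_Iio.1 a.toOrd.2).le⟩
  have o1 : StrictMono o := fun a b h => Ordinal.ToType.mk.symm.strictMono h
  have o2 : ∀ a : Iic (Ordinal.omega.{0} 1), IsClopen (Iic a) := fun a => ⟨isClosed_Iic, by
    have := (isOpen_Iio (a := Order.succ a.1)).preimage 
      (continuous_subtype_val (p := (· ∈ Iic (Ordinal.omega.{0} 1))))
    rwa [Order.Iio_succ] at this⟩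
  let χ := fun a => BoundedContinuousFunction.indicator _ (o2 (o a))
  have χ1 : ∀ a b, a ≤ b → ∀ p, χ a p ≤ χ b p := fun a b h p =>
    indicator_le_indicator_of_subset (Iic_subset_Iic.2 (o1.monotone h)) (fun _ => zero_le_one) p
  refine core om1 om2 hM hc hN (fun a => T (χ a)) (C := ‖T‖) hd
    (fun a b m h1 h2 => ?_) fun a m h => ?_
  · simp only [← map_sub, ← map_sum]
    refine (T.le_opNorm _).trans (mul_le_of_le_one_right (norm_nonneg _)
      ((BoundedContinuousFunction.norm_le zero_le_one).2 fun p => ?_))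
    simp only [BoundedContinuousFunction.sum_apply, BoundedContinuousFunction.sub_apply]
    rw [Real.norm_of_nonneg (Finset.sum_nonneg fun i _ => sub_nonneg.2 (χ1 _ _ (h1 i) p))]
    refine (Finset.sum_le_sum fun i _ => sub_le_sub_right (χ1 _ _ (h2 i) p) _).trans ?_
    rw [Finset.sum_range_sub fun i => χ (a i) p]
    have : ∀ a, χ a p ∈ Icc (0 : ℝ) 1 := fun a => by
      by_cases h : p ≤ o a <;> simp [χ, h]
    linarith [(this (a m)).2, (this (a 0)).1]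
  · simp only [← map_sub, ← map_sum]
    refine le_trans (mul_le_mul_of_nonneg_left (le_trans ?_
      (BoundedContinuousFunction.norm_coe_le_norm _ (o (a m)))) hd.le) (hT _)
    simp only [BoundedContinuousFunction.sum_apply, BoundedContinuousFunction.sub_apply]
    rw [Finset.sum_congr rfl (g := fun _ => 1) fun i hi => by
      simp [χ, o1.le_iff_le, h.le_iff_le, Finset.mem_range.1 hi]]
    simp

lemma NB.noemb {X : Type} [NormedAddCommGroup X] [NormedSpace ℝ X] (h : NB X)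
    (T : (Iic (Ordinal.omega.{0} 1) →ᵇ ℝ) →L[ℝ] X) {d : ℝ} (hd : 0 < d)
    (hT : ∀ g, d * ‖g‖ ≤ ‖T g‖) : False := by
  obtain ⟨I, x, f, -, h2, h3, -, h4⟩ := h
  refine H5M.noemb h3 one_half_pos (fun y => ?_) T hd hT
  by_cases e : y = 0
  · exact ⟨0, by simp, by simp, by simp [e]⟩
  obtain ⟨g, g1, g2, g3⟩ := h4 y (1 / 2 * ‖y‖) (by linarith [norm_pos_iff.2 e])
  refine ⟨g, ?_, g2, g3.le⟩
  clear g2 g3
  induction g1 using Submodule.span_induction with
  | mem _ h =>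
    obtain ⟨α, rfl⟩ := h
    refine (finite_singleton (x α)).subset ?_
    rintro _ ⟨⟨β, rfl⟩, h⟩
    exact congrArg x (by_contra fun n => h (h2 α β (Ne.symm n)))
  | zero => simp
  | add f g _ _ h1 h2 =>
    refine (h1.union h2).subset fun m hm => by_contra fun n => hm.2 ?_
    rw [add_apply, show f m = 0 from by_contra fun k => n (Or.inl (And.intro hm.1 k)),
      show g m = 0 from by_contra fun k => n (Or.inr (And.intro hm.1 k)), add_zero]
  | smul a f _ h =>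
    exact h.subset fun m hm => And.intro hm.1 fun k => hm.2 (by rw [smul_apply, k, smul_zero])

theorem main : ∃ (Γ : Type) (K : Set (Γ → Bool)) (_ : CompactSpace K),
    (∀ s : Set K, s.Nonempty → ∃ x ∈ s, ∃ U : Set K, IsOpen U ∧ U ∩ s = {x}) ∧
    Dense {x : K | {ξ | x.1 ξ}.Finite} ∧ NB C(K, ℝ) ∧
    (∃ e : Iic (Ordinal.omega.{0} 1) → K, IsEmbedding e) ∧
    ∃ x : K, ∀ C ⊆ {x : K | {ξ | x.1 ξ}.Finite}, C.Countable → x ∉ closure C := by
  classical
  obtain ⟨K, h1, h2, h3, h4, h5, -⟩ := exK fun a => (om2 a).mono Iio_subset_Iic_self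
  have := isCompact_iff_compactSpace.1 h1.isCompact
  have : CompactSpace (Iic (Ordinal.omega.{0} 1)) :=
    isCompact_iff_compactSpace.1 (Icc_bot (α := Ordinal) ▸ isCompact_Icc)
  refine ⟨_, K, inferInstance, h5, h3, moeb h3 h4, ⟨fun b => ⟨fun ξ => decide (ξ.toOrd.1 < b.1),
    h2 _ fun x y l k => decide_eq_true (lt_of_le_of_lt (Ordinal.ToType.mk.symm.monotone l)
      (of_decide_eq_true k))⟩, (Continuous.isClosedEmbedding (Continuous.subtype_mk
        (continuous_pi fun ξ => ?_) _) fun a b e => ?_).isEmbedding⟩,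
    ⟨fun _ => true, h2 _ fun _ _ _ => id⟩, fun C c1 c2 k => ?_⟩
  · refine (continuous_bool_rng true).2 ?_
    convert IsClopen.preimage (s := Ioi ξ.toOrd.1) ⟨Order.Ici_succ ξ.toOrd.1 ▸ isClosed_Ici,
      isOpen_Ioi⟩ continuous_subtype_val using 1
    exact Set.ext fun _ => decide_eq_true_iff
  · have : ∀ a b : Iic (Ordinal.omega.{0} 1), (∀ ξ : (Ordinal.omega.{0} 1).ToType,
        ξ.toOrd.1 < b.1 → ξ.toOrd.1 < a.1) → b ≤ a := fun a b h => not_lt.1 fun l => by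
      simpa [show a.1 < b.1 from l] using h (Ordinal.ToType.mk ⟨a.1, lt_of_lt_of_le (show a.1 < b.1 from l) b.2⟩)
    have e := fun ξ => decide_eq_decide.1 (congrFun (congrArg Subtype.val e) ξ)
    exact le_antisymm (this _ _ fun ξ => (e ξ).1) (this _ _ fun ξ => (e ξ).2)
  · obtain ⟨ξ, -, k1⟩ := not_subset.1 fun m => om1 ((c2.biUnion fun x m => (c1 m).countable).mono m)
    obtain ⟨x, x1, x2⟩ := mem_closure_iff.1 k {x | x.1 ξ} ((isOpen_discrete {true}).preimage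
      ((continuous_apply (A := fun _ => Bool) ξ).comp continuous_subtype_val)) rfl
    exact k1 (mem_biUnion x2 x1)

end H5M
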