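import Pool.Agent.Lib.helper5.Anal
import Pool.Agent.Lib.helper5.Cube

/-! The `K_σδ` property is l-invariant. -/

open Set Filter Topology

namespace H5E

variable {X Y : Type} [TopologicalSpace X] [TopologicalSpace Y]

lemma ksd_of_comp [T35Space Y] {E : ℕ → ℕ → Set Y} (h1 : ∀ m i, IsClosed (E m i))
    (h2 : ∀ m y, ∃ i, y ∈ E m i)
    (h3 : ∀ u : Ultrafilter Y, (∀ m, ∃ i, E m i ∈ u) → ∃ y, (u : Filter Y) ≤ 𝓝 y) :
    ∃ (K : Type) (_ : TopologicalSpace K), CompactSpace K ∧ T2Space K ∧ ∃ e : Y → K,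
      IsEmbedding e ∧ ∃ A : ℕ → ℕ → Set K, (∀ n m, IsCompact (A n m)) ∧
        range e = ⋂ n, ⋃ m, A n m := by
  have key : ∀ (f : Filter Y) (σ : ℕ → ℕ), (∀ m, (f ⊓ 𝓟 (⋂ k < m, E k (σ k))).NeBot) →
      ∃ y, ClusterPt y f := fun f σ h => by
    have : (⨅ m, f ⊓ 𝓟 (⋂ k < m, E k (σ k))).NeBot := iInf_neBot_of_directed' (directed_of_isDirected_le
      fun a b hab => inf_le_inf_left _ (principal_mono.2 (biInter_subset_biInter_left
        fun k hk => lt_of_lt_of_le hk hab))) h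
    have l := fun m => (Ultrafilter.of_le (⨅ m, f ⊓ 𝓟 (⋂ k < m, E k (σ k)))).trans (iInf_le _ m)
    obtain ⟨y, hy⟩ := h3 _ fun m => ⟨σ m, mem_of_superset (le_principal_iff.1
      ((l (m + 1)).trans inf_le_right)) (biInter_subset_of_mem (Nat.lt_succ_self m))⟩
    exact ⟨y, (ClusterPt.of_le_nhds hy).mono ((l 0).trans inf_le_left)⟩
  have : LindelofSpace Y := ⟨fun f _ _ _ => by
    have : ∀ m S, (f ⊓ 𝓟 S).NeBot → ∃ i, (f ⊓ 𝓟 (S ∩ E m i)).NeBot := fun m S h => by
      by_contra hn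
      simp only [not_exists, not_neBot, inf_principal_eq_bot] at hn
      refine h.ne (inf_principal_eq_bot.2 (mem_of_superset (countable_iInter_mem.2 hn) fun y hy hS => ?_))
      obtain ⟨i, hi⟩ := h2 m y
      exact mem_iInter.1 hy i ⟨hS, hi⟩
    choose! i hi using this
    let S : ℕ → Set Y := fun m => m.rec univ fun m S => S ∩ E m (i m S)
    have s1 : ∀ m, (f ⊓ 𝓟 (S m)).NeBot := Nat.rec (by simpa [S]) fun m ih => hi m _ ih
    obtain ⟨y, hy⟩ := key f (fun m => i m (S m)) fun m => by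
      have : ∀ m, S m = ⋂ k < m, E k (i k (S k)) := Nat.rec (by simp [S]) fun m ih => by
        rw [biInter_lt_succ, ← ih]
      exact this m ▸ s1 m
    exact ⟨y, trivial, hy⟩⟩
  have he := isEmbedding_stoneCechUnit (X := Y)
  have c : ∀ A B : Set Y, IsClosed A → IsClosed B → closure (stoneCechUnit '' A) ∩
      closure (stoneCechUnit '' B) ⊆ closure (stoneCechUnit '' (A ∩ B)) := by
    rintro A B a b p ⟨p1, p2⟩
    refine (mem_closure_iff_nhds_basis (closed_nhds_basis p)).2 fun N hN => by_contra fun hn => ?_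
    obtain ⟨g, g1, g2, g3⟩ := exists_continuous_zero_one_of_isClosed
      (a.inter (hN.2.preimage he.continuous)) b (disjoint_left.2 fun y h1 h2 =>
        hn ⟨_, ⟨y, ⟨h1.1, h2⟩, rfl⟩, h1.2⟩)
    have gc : Continuous fun y => (⟨g y, g3 y⟩ : Icc (0 : ℝ) 1) := g.2.subtype_mk _
    have k : ∀ (S : Set Y) (r : ℝ), EqOn g (fun _ => r) S → p ∈ closure (stoneCechUnit '' S) →
        (stoneCechExtend gc p).1 = r := fun S r h hp => closure_minimal
      (t := {p | (stoneCechExtend gc p).1 = r}) (image_subset_iff.2 fun y hy => by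
        simpa using h hy) (isClosed_eq
        (continuous_subtype_val.comp (continuous_stoneCechExtend gc)) continuous_const) hp
    refine zero_ne_one ((k _ 0 g1 ?_).symm.trans (k _ 1 g2 p2))
    rw [image_inter_preimage]
    exact mem_closure_iff_nhdsWithin_neBot.2 (by
      rw [inter_comm, nhdsWithin_inter_of_mem (mem_nhdsWithin_of_mem_nhds hN.1)]
      exact mem_closure_iff_nhdsWithin_neBot.1 p1)
  refine ⟨StoneCech Y, inferInstance, inferInstance, inferInstance, _, he,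
    fun m i => closure (stoneCechUnit '' E m i), fun _ _ => isClosed_closure.isCompact,
    Subset.antisymm (range_subset_iff.2 fun y => mem_iInter.2 fun m => mem_iUnion.2
      ((h2 m y).imp fun i hi => subset_closure (mem_image_of_mem _ hi))) fun p hp => ?_⟩
  choose σ hσ using fun m => mem_iUnion.1 (mem_iInter.1 hp m)
  obtain ⟨y, hy⟩ := key (comap stoneCechUnit (𝓝 p)) σ fun m => by
    have : p ∈ closure (stoneCechUnit '' ⋂ k < m, E k (σ k)) := by
      induction m with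
      | zero => simpa using denseRange_stoneCechUnit p
      | succ m ih =>
        rw [biInter_lt_succ]
        exact c _ _ (isClosed_biInter fun _ _ => h1 _ _) (h1 _ _) ⟨ih, hσ m⟩
    exact neBot_inf_comap_iff_map'.2 (by rw [map_principal]; exact mem_closure_iff_clusterPt.1 this)
  exact ⟨y, eq_of_nhds_neBot (hy.map he.continuous.continuousAt tendsto_comap)⟩

lemma conv_of_lim [T35Space Y] (u : Ultrafilter Y) {ι : Type} {s : Finset ι} {c : ι → ℝ} {y : ι → Y}
    (h : ∀ g : C(Y, ℝ), Tendsto g u (𝓝 (∑ i ∈ s, c i * g (y i)))) : ∃ y, (u : Filter Y) ≤ 𝓝 y := by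
  classical
  by_contra hn
  simp only [not_exists, le_nhds_iff, not_forall] at hn
  choose U u1 u2 u3 using hn
  obtain ⟨g, g1, g2, g3⟩ := H5C.interp (s.image y) 1 (isOpen_biUnion (s := (s : Set ι)) fun i _ =>
    u2 (y i)).isClosed_compl (Finset.forall_mem_image.2 fun i hi h => h (mem_biUnion hi (u1 _)))
  have h1 := tendsto_nhds_unique (h ⟨g, g1⟩) (tendsto_const_nhds.congr' (f₁ := fun _ => 0)
    (mem_of_superset (Ultrafilter.compl_mem_iff_notMem.2 fun h => by
      obtain ⟨i, -, hi⟩ := (Ultrafilter.finite_biUnion_mem_iff s.finite_toSet).1 h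
      exact u3 _ hi) fun z hz => (g3 z hz).symm))
  have h2 := tendsto_nhds_unique (h 1) tendsto_const_nhds
  rw [Finset.sum_congr rfl fun i hi => by
    rw [show (⟨g, g1⟩ : C(Y, ℝ)) (y i) = (1 : C(Y, ℝ)) (y i) from
      g2 _ (Finset.mem_image_of_mem _ hi)], h2] at h1
  exact one_ne_zero h1

lemma dual_rep' (μ : C(X, ℝ) →ₗ[ℝ] ℝ) (h : PC μ) :
    ∃ c : X →₀ ℝ, ∀ f, μ f = ∑ x ∈ c.support, c x * f x := by
  obtain ⟨n, c, x, h⟩ := dual_rep μ h
  refine ⟨∑ i, Finsupp.single (x i) (c i), fun f => (h f).trans ?_⟩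
  change _ = Finsupp.linearCombination ℝ f _
  simp

theorem ksd [T35Space Y] {K : Type} [TopologicalSpace K] [CompactSpace K] [T2Space K] {e : X → K}
    (he : IsEmbedding e) {A : ℕ → ℕ → Set K} (a1 : ∀ n m, IsCompact (A n m))
    (a2 : range e = ⋂ n, ⋃ m, A n m) (L : C(X, ℝ) ≃ₗ[ℝ] C(Y, ℝ))
    (l1 : @Continuous _ _ (tp X) (tp Y) L) (l2 : @Continuous _ _ (tp Y) (tp X) L.symm) :
    ∃ (K : Type) (_ : TopologicalSpace K), CompactSpace K ∧ T2Space K ∧ ∃ e : Y → K,
      IsEmbedding e ∧ ∃ A : ℕ → ℕ → Set K, (∀ n m, IsCompact (A n m)) ∧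
        range e = ⋂ n, ⋃ m, A n m := by
  classical
  choose μ hμ using fun y => dual_rep' ⟨⟨fun f => L f y, fun _ _ => by simp⟩, fun _ _ => by simp⟩
    (@Continuous.comp _ _ _ (tp X) (tp Y) _ _ _ (PC.eval y) l1)
  replace hμ : ∀ y f, L f y = ∑ x ∈ (μ y).support, μ y x * f x := hμ
  let B : ℕ → ℕ → Set K := fun m s => ⋃ k ≤ s, A m k
  have hB : ∀ m s, IsCompact (B m s) := fun m s => (finite_Iic s).isCompact_biUnion fun k _ => a1 m k
  let E : ℕ → ℕ × ℕ → Set Y := fun m i => {y | ∃ p : Fin i.1 → Icc (-(i.2 : ℝ)) i.2 × B m i.2,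
    ∀ F : C(K, ℝ), L (F.comp ⟨e, he.continuous⟩) y = ∑ j, (p j).1 * F (p j).2}
  have e1 : ∀ m i, ∀ y ∈ E m i, (∀ x ∈ (μ y).support, e x ∈ B m i.2) ∧ ∀ x0 : X,
      ∃ (x : Fin i.1 → X) (d : Fin i.1 → ℝ), (∀ f, L f y = ∑ j, d j * f (x j)) ∧
        ∀ j, d j ∈ Icc (-(i.1 * i.2 : ℝ)) (i.1 * i.2) ∧ (d j = 0 ∨ x j ∈ (μ y).support) := by
    rintro m i y ⟨p, hp⟩
    have k : ∀ x ∈ (μ y).support, μ y x = ∑ j with (p j).2.1 = e x, (p j).1.1 := fun x hx => by
      obtain ⟨F, f1, f2, -⟩ := H5C.interp ((μ y).support.image e ∪ Finset.univ.image fun j => (p j).2.1)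
        (Pi.single (e x) 1) isClosed_empty (by simp)
      have f3 := fun b hb => f2 (e b) (Finset.mem_union_left _ (Finset.mem_image_of_mem e hb))
      have := (hμ y _).symm.trans (hp ⟨F, f1⟩)
      rw [Finset.sum_eq_single_of_mem x hx fun b hb h => by
        simp [f3 b hb, he.injective.ne h]] at this
      simpa [f2, f3 x hx, Finset.sum_filter, Pi.single_apply] using this
    have k2 : ∀ x : (μ y).support, ∃ j, (p j).2.1 = e x := fun x => by_contra fun hn =>
      Finsupp.mem_support_iff.1 x.2 ((k _ x.2).trans (Finset.sum_eq_zero (by simp_all)))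
    refine ⟨fun x hx => (k2 ⟨x, hx⟩).elim fun j hj => hj ▸ (p j).2.2, fun x0 => ?_⟩
    choose j hj using k2
    have ji : Function.Injective j := fun a b h =>
      Subtype.ext (he.injective (by rw [← hj a, h, hj b]))
    refine ⟨j.extend Subtype.val fun _ => x0, j.extend (fun x => μ y x) 0, fun f => ?_, fun a => ?_⟩
    · rw [hμ, ← Finset.sum_coe_sort]
      exact Fintype.sum_of_injective j ji _ _ (fun a ha => by
        rw [Function.extend_apply' _ _ _ ha]; simp) fun a => by simp only [ji.extend_apply]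
    by_cases h : ∃ b, j b = a
    · obtain ⟨b, rfl⟩ := h
      simp only [ji.extend_apply]
      refine ⟨abs_le.1 ?_, Or.inr b.2⟩
      rw [k _ b.2]
      refine (Finset.abs_sum_le_sum_abs _ _).trans ((Finset.sum_le_card_nsmul _ _ _ fun j _ =>
        abs_le.2 (p j).1.2).trans ?_)
      rw [nsmul_eq_mul]
      gcongr
      exact (Finset.card_filter_le _ _).trans (by simp)
    · rw [Function.extend_apply' _ _ _ h]
      exact ⟨abs_le.1 (by simp; positivity), Or.inl rfl⟩
  refine ksd_of_comp (E := fun m i => E m i.unpair) (fun m i => ?_) (fun m y => ?_) fun u hu => ?_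
  · have := isCompact_iff_compactSpace.1 (hB m i.unpair.2)
    have := isClosedMap_fst_of_compactSpace {q : Y × (Fin i.unpair.1 → Icc (-(i.unpair.2 : ℝ))
      i.unpair.2 × B m i.unpair.2) | ∀ F : C(K, ℝ), L (F.comp ⟨e, he.continuous⟩) q.1 =
        ∑ j, (q.2 j).1 * F (q.2 j).2} (by
          simp only [ofPred_forall]
          exact isClosed_iInter fun F => isClosed_eq (by fun_prop) (by fun_prop))
    refine Eq.subst ?_ this
    ext; simp [E]
  · obtain ⟨N, hN⟩ := ((eventually_all_finset (μ y).support (l := atTop) (p := fun x N : _ =>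
      μ y x ∈ Icc (-((N : ℕ) : ℝ)) N ∧ e x ∈ B m N)).2 fun x _ => by
        obtain ⟨k, hk⟩ := mem_iUnion.1 (mem_iInter.1 (a2.le ⟨x, rfl⟩) m)
        filter_upwards [eventually_ge_atTop k, eventually_ge_atTop ⌈|μ y x|⌉₊] with N h1 h2
        exact ⟨abs_le.1 (Nat.ceil_le.1 h2), mem_biUnion h1 hk⟩).exists
    let r := (μ y).support.equivFin.symm
    refine ⟨Nat.pair (μ y).support.card N, ?_⟩
    rw [Nat.unpair_pair]
    refine ⟨fun j => (⟨_, (hN _ (r j).2).1⟩, ⟨_, (hN _ (r j).2).2⟩), fun F => ?_⟩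
    rw [hμ, ← Finset.sum_coe_sort, ← r.sum_comp]
    rfl
  choose σ hσ using hu
  obtain ⟨y0, -⟩ := u.nonempty_of_mem univ_mem
  obtain ⟨x0⟩ : Nonempty X := by_contra fun h => by
    have := not_nonempty_iff.1 h
    simpa [Finset.eq_empty_of_isEmpty] using hμ y0 (L.symm 1)
  have : Nonempty X := ⟨x0⟩
  choose! x d h1 h2 using fun y hy => (e1 0 (σ 0).unpair y hy).2 x0
  have : ∀ j, ∃ (c : ℝ) (z : X), ∀ f : C(X, ℝ),
      Tendsto (fun y => d y j * f (x y j)) u (𝓝 (c * f z)) := fun j => by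
    rcases u.mem_or_compl_mem {y | d y j = 0} with h | h
    · exact ⟨0, x0, fun f => tendsto_const_nhds.congr' (mem_of_superset h fun y hy => by simp_all)⟩
    obtain ⟨c, -, hc⟩ := isCompact_Icc.ultrafilter_le_nhds (u.map fun y => d y j)
      (le_principal_iff.2 (mem_map.2 (mem_of_superset (hσ 0) fun y hy => (h2 y hy j).1)))
    obtain ⟨p, -, hp⟩ := isCompact_univ.ultrafilter_le_nhds (u.map fun y => e (x y j)) (by simp)
    obtain ⟨z, rfl⟩ := a2.ge (mem_iInter.2 fun m => iUnion₂_subset (fun k _ => subset_iUnion _ k)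
      ((hB m (σ m).unpair.2).isClosed.mem_of_tendsto hp (mem_of_superset
        (inter_mem h (inter_mem (hσ 0) (hσ m))) fun y hy =>
          (e1 m _ y hy.2.2).1 _ ((h2 y hy.2.1 j).2.resolve_left hy.1))))
    exact ⟨c, z, fun f => Tendsto.mul hc ((f.2.tendsto z).comp (he.tendsto_nhds_iff.2 hp))⟩
  choose c z hz using this
  obtain ⟨n, c', y, h⟩ := dual_rep ⟨⟨fun g => ∑ j, c j * L.symm g (z j), fun _ _ => by
    simp [mul_add, Finset.sum_add_distrib]⟩, fun _ _ => by simp [Finset.mul_sum, mul_left_comm]⟩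
    (PC.sum Finset.univ (φ := fun j g => c j * L.symm g (z j)) fun j =>
      PC.mul (@Continuous.comp _ _ _ (tp Y) (tp X) _ _ _ (PC.eval (z j)) l2) _)
  refine conv_of_lim u (s := Finset.univ) (c := c') (y := y) fun g => ?_
  rw [← h g]
  refine (tendsto_finsetSum Finset.univ fun j _ => hz j (L.symm g)).congr' (mem_of_superset (hσ 0)
    fun y hy => ?_)
  simpa using (h1 y hy (L.symm g)).symm

end H5E
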