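import Pool.Agent.Lib.helper5.Face

/-! A closed subspace of `ℓ₁(Γ)` without the separable complementation property. -/

open Set Filter Topology TopologicalSpace Function

namespace H5E

lemma bs {ι : Type} {a : ι → ℝ} {C : ℝ} (h : ∀ G : Finset ι, |∑ i ∈ G, a i| ≤ C) (G : Finset ι) :
    ∑ i ∈ G, |a i| ≤ 2 * C := by
  rw [← Finset.sum_filter_add_sum_filter_not G (0 ≤ a ·), Finset.sum_congr rfl fun i hi =>
    abs_of_nonneg (Finset.mem_filter.1 hi).2, Finset.sum_congr rfl fun i hi =>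
    abs_of_neg (not_le.1 (Finset.mem_filter.1 hi).2), Finset.sum_neg_distrib]
  linarith [le_abs_self (∑ i ∈ G with 0 ≤ a i, a i), neg_le_abs (∑ i ∈ G with ¬ 0 ≤ a i, a i),
    h (G.filter (0 ≤ a ·)), h (G.filter (¬ 0 ≤ a ·))]

lemma cnt {ι : Type} {a : ι → ℝ} {C : ℝ} {J : Set ι}
    (h : ∀ G : Finset ι, ↑G ⊆ J → |∑ i ∈ G, a i| ≤ C) : {i ∈ J | a i ≠ 0}.Countable := by
  classical
  have : ∀ G : Finset ι, |∑ i ∈ G, J.indicator a i| ≤ C := fun G => by
    simp only [indicator, ← Finset.sum_filter]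
    exact h _ fun i hi => (Finset.mem_filter.1 hi).2
  exact (summable_of_sum_le (fun _ => abs_nonneg _) (bs this)).countable_support.mono
    fun i hi => by simpa [hi.1] using hi.2

theorem proj {X : Type} [NormedAddCommGroup X] [NormedSpace ℝ X] [CompleteSpace X] {M : Set X}
    (hM : Dense ((Submodule.span ℝ M : Submodule ℝ X) : Set X)) {c : ℝ} (hc : 0 < c)
    (hN : ∀ x : X, ∃ f : X →L[ℝ] ℝ, {m ∈ M | f m ≠ 0}.Countable ∧ ‖f‖ ≤ 1 ∧ c * ‖x‖ ≤ |f x|)
    {s : Set X} (hs : IsSeparable s) :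
    ∃ P : X →L[ℝ] X, (∀ x ∈ s, P x = x) ∧ IsSeparable (range P) := by
  classical
  obtain ⟨t0, t1, t2⟩ := hs
  choose y y1 y2 using fun x (k : ℕ) => hM.exists_dist_lt x (Nat.one_div_pos_of_nat (n := k))
  choose H H1 H2 using fun x k => Submodule.mem_span_finite_of_mem_span (y1 x k)
  choose t t3 t4 using fun G : Finset X => G.finite_toSet.isSeparable.span (R := ℝ)
  choose f f1 f2 f3 using hN
  have c1 : (⋃ x ∈ t0, ⋃ k, (H x k : Set X)).Countable :=
    t1.biUnion fun x _ => countable_iUnion fun k => (H x k).countable_toSet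
  have c2 : ∀ G, (⋃ y ∈ t G, {m ∈ M | f y m ≠ 0}).Countable := fun G =>
    (t3 G).biUnion fun y _ => f1 y
  obtain ⟨S, s1, s2⟩ := H5C.hull _ fun G => c1.union (c2 G)
  let e := Finsupp.linearCombination ℝ ((↑) : M → X)
  let p := Finsupp.linearCombination ℝ fun m : M => if m.1 ∈ S then m.1 else 0
  have he : DenseRange e := by
    rwa [DenseRange, ← LinearMap.coe_range, Finsupp.range_linearCombination, Subtype.range_coe]
  have fb : ∀ y v, |f y v| ≤ ‖v‖ := fun y v => ((f y).le_opNorm v).trans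
    (mul_le_of_le_one_left (norm_nonneg _) (f2 y))
  have k : ∀ a, ∃ G : Finset X, ↑G ⊆ S ∧ p a ∈ Submodule.span ℝ (G : Set X) := fun a =>
    ⟨(a.support.image (↑)).filter (· ∈ S), fun _ h => (Finset.mem_filter.1 h).2,
      Submodule.sum_mem _ fun m hm => Submodule.smul_mem _ _ (by
        beta_reduce
        split_ifs with h
        exacts [Submodule.subset_span (Finset.mem_filter.2 ⟨Finset.mem_image_of_mem _ hm, h⟩),
          Submodule.zero_mem _])⟩
  have hb : ∀ a, ‖p a‖ ≤ c⁻¹ * ‖e a‖ := fun a => by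
    obtain ⟨G, g1, g2⟩ := k a
    rw [le_inv_mul_iff₀ hc]
    refine le_of_forall_pos_le_add fun ε hε => ?_
    obtain ⟨z, z1, z2⟩ := Metric.mem_closure_iff.1 (t4 G g2) (ε / (c + 1)) (by positivity)
    have k1 : f z (p a) = f z (e a) := by
      simp only [p, e, Finsupp.linearCombination_apply, Finsupp.sum, map_sum, map_smul]
      refine Finset.sum_congr rfl fun m _ => ?_
      split_ifs with h
      · rfl
      · rw [map_zero, show f z m = 0 from by_contra fun n =>
          h (s2 G g1 (Or.inr (mem_biUnion z1 ⟨m.2, n⟩)))]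
    have k2 := fb z (p a - z)
    have k3 := norm_sub_norm_le (p a) z
    rw [map_sub, k1] at k2
    rw [dist_eq_norm, lt_div_iff₀ (by positivity)] at z2
    nlinarith [f3 z, fb z (e a), abs_sub_abs_le_abs_sub (f z z) (f z (e a)),
      abs_sub_comm (f z z) (f z (e a))]
  have P1 := LinearMap.extendOfNorm_eq he ⟨_, hb⟩
  refine ⟨p.extendOfNorm e, fun x hx => ?_, (s1.isSeparable.span (R := ℝ)).closure.mono
    (range_subset_iff.2 fun x => he.induction_on x (isClosed_closure.preimage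
      (p.extendOfNorm e).continuous) fun a => ?_)⟩
  · have c := isClosed_eq (p.extendOfNorm e).continuous continuous_id
    refine closure_minimal (fun x hx => c.closure_subset (Metric.mem_closure_iff.2 fun ε hε => ?_))
      c (t2 hx)
    obtain ⟨k, hk⟩ := exists_nat_one_div_lt hε
    refine ⟨_, ?_, (y2 x k).trans hk⟩
    refine Submodule.span_induction (p := fun x _ => p.extendOfNorm e x = x) (fun m hm => ?_)
      (map_zero _) (fun _ _ _ _ h1 h2 => by rw [map_add, h1, h2])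
      (fun _ _ _ h => by rw [map_smul, h]) (H2 x k)
    have := P1 (Finsupp.single ⟨m, H1 x k hm⟩ 1)
    simpa [e, p, s2 ∅ (by simp) (Or.inl (mem_biUnion hx (mem_iUnion.2 ⟨k, hm⟩)))] using this
  · obtain ⟨G, g1, g2⟩ := k a
    exact subset_closure (P1 a ▸ Submodule.span_mono g1 g2)

abbrev L (Γ : Type) := lp (fun _ : Γ => ℝ) 1

open Classical in
noncomputable def u {Γ : Type} (γ : Γ) : L Γ := lp.single 1 γ 1

lemma u_norm {Γ : Type} (γ : Γ) : ‖u γ‖ = 1 := by simp [u, lp.norm_single]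

lemma fn {Γ : Type} (g : Γ → ℝ) (h : ∀ γ, |g γ| ≤ 2) :
    ∃ q : L Γ →L[ℝ] ℝ, (∀ γ, q (u γ) = g γ) ∧ ∀ v, |q v| ≤ 2 * ‖v‖ := by
  classical
  have k : ∀ γ, ‖g γ • ContinuousLinearMap.id ℝ ℝ‖ ≤ 2 := fun γ => by simpa [norm_smul] using h γ
  refine ⟨(lp.tsumCLM ℝ Γ ℝ).comp (lp.mapCLM 1 _ zero_le_two k), fun γ => ?_, fun v =>
    (lp.norm_tsum_le _).trans ((lp.mapCLM 1 _ zero_le_two k).le_of_opNorm_le
      (lp.norm_mapCLM_le ..) v)⟩
  change ∑' i, g i * u γ i = _
  rw [tsum_eq_single γ fun i hi => by simp [u, lp.single_apply, hi]]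
  simp [u]

lemma sepL {Γ : Type} {S : Set Γ} (h : S.Countable) :
    IsSeparable {v : L Γ | ∀ γ ∉ S, v γ = 0} := by
  classical
  refine ((h.image u).isSeparable.span (R := ℝ)).closure.mono fun v hv => mem_closure_of_tendsto
    (lp.hasSum_single (by simp) v) (.of_forall fun G => Submodule.sum_mem _ fun γ _ => ?_)
  by_cases k : γ ∈ S
  · convert Submodule.smul_mem _ (v γ) (Submodule.subset_span (mem_image_of_mem u k))
    rw [u, ← lp.single_smul, smul_eq_mul, mul_one]
  · simp [hv γ k]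

lemma suppL {Γ : Type} {s : Set (L Γ)} (h : IsSeparable s) :
    ∃ S : Set Γ, S.Countable ∧ ∀ v ∈ s, ∀ γ ∉ S, v γ = 0 := by
  obtain ⟨t, t1, t2⟩ := h
  refine ⟨⋃ v ∈ t, support v, t1.biUnion fun v _ => ?_, fun v hv γ h => closure_minimal
    (fun v hv => notMem_support.1 fun k => h (mem_biUnion hv k)) (isClosed_eq
      (lp.evalCLM ℝ (fun _ : Γ => ℝ) 1 γ).continuous continuous_const) (t2 hv)⟩
  exact (v.2.summable (by simp)).countable_support.mono fun γ h => by simpa using h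

end H5E
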