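import Pool.Agent.Lib.helper5.L1Proj

/-! A closed subspace of `ℓ₁(Γ)` without the separable complementation property. -/

open Set Filter Topology TopologicalSpace Function

namespace H5E

variable {I B E : Type} [NormedAddCommGroup E] [NormedSpace ℝ E]

open Classical in
noncomputable def g (A : I → Set B) (b : B) : Finset I ⊕ (B →₀ ℚ) → ℝ := Sum.elim
  (fun F => if ∃ i ∈ F, b ∈ A i then 1 else 0) fun v => if ∀ b, |(v b : ℝ)| ≤ 2 then v b else 0

lemma g_le (A : I → Set B) (b : B) : ∀ γ, |g A b γ| ≤ 2 := by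
  rintro (F | v) <;> simp only [g, Sum.elim_inl, Sum.elim_inr] <;> split_ifs with h
  exacts [by norm_num, by simp, h b, by simp]

lemma lift {A : I → Set B} {u : Finset I ⊕ (B →₀ ℚ) → E} (hu : ∀ γ, ‖u γ‖ = 1)
    {q : B → E →L[ℝ] ℝ} (q1 : ∀ b γ, q b (u γ) = g A b γ) (y : B → ℝ) (r : ℝ)
    (h1 : (support y).Finite) (h2 : 0 ≤ r) (h3 : ∀ b, |y b| ≤ r) :
    ∃ w ∈ Submodule.span ℝ (range fun v => u (.inr v)), ‖w‖ ≤ 2 * r ∧ ∀ b, q b w = y b := by
  classical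
  rcases h2.eq_or_lt with rfl | h2
  · exact ⟨0, Submodule.zero_mem _, by simp, fun b => by simpa [eq_comm] using h3 b⟩
  let s := h1.toFinset
  choose v hv using fun b => exists_rat_near (y b / r) (Nat.one_div_pos_of_nat (n := s.card))
  let V : B →₀ ℚ := .onFinset s (fun b => if b ∈ s then v b else 0) fun b h => by
    by_contra k; simp [k] at h
  have v1 : ∀ b, |(V b : ℝ)| ≤ 2 := fun b => by
    simp only [V, Finsupp.onFinset_apply]
    split_ifs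
    · have := (abs_div _ _).trans_le ((div_le_one (abs_pos.2 h2.ne')).2 ((h3 b).trans
        (le_abs_self r)))
      linarith [abs_sub_abs_le_abs_sub (v b : ℝ) (y b / r), abs_sub_comm (v b : ℝ) (y b / r),
        (hv b).trans_le (div_le_one_of_le₀ (by simp) (by positivity))]
    · simp
  refine ⟨r • u (.inr V) + ∑ b ∈ s, (y b - r * v b) • u (.inr (.single b 1)), Submodule.add_mem _
    (Submodule.smul_mem _ _ (Submodule.subset_span ⟨_, rfl⟩)) (Submodule.sum_mem _ fun b _ =>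
      Submodule.smul_mem _ _ (Submodule.subset_span ⟨_, rfl⟩)), (norm_add_le _ _).trans ?_,
    fun b => ?_⟩
  · have := (norm_sum_le s fun b => (y b - r * v b) • u (.inr
        (Finsupp.single b (1 : ℚ)))).trans (Finset.sum_le_card_nsmul _ _ (r / (s.card + 1))
          fun b _ => by
      rw [norm_smul, hu, mul_one, show y b - r * v b = r * (y b / r - v b) by field_simp,
        norm_mul, Real.norm_of_nonneg h2.le, div_eq_mul_one_div r]
      exact mul_le_mul_of_nonneg_left (hv b).le h2.le)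
    rw [norm_smul, hu, Real.norm_of_nonneg h2.le]
    rw [nsmul_eq_mul, mul_div_left_comm] at this
    nlinarith [div_le_one_of_le₀ (show (s.card : ℝ) ≤ s.card + 1 by simp) (by positivity)]
  · have : ∀ c d : B, |((Finsupp.single c (1 : ℚ) d : ℚ) : ℝ)| ≤ 2 := fun c d => by
      rw [Finsupp.single_apply]; split_ifs <;> norm_num
    simp only [map_add, map_smul, map_sum, q1, g, Sum.elim_inr, v1, this, implies_true, if_true]
    by_cases k : b ∈ s
    · simp [V, k, Finsupp.single_apply, apply_ite (Rat.cast : ℚ → ℝ)]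
    · have : y b = 0 := by simpa [s] using k
      simp [V, k, Finsupp.single_apply, apply_ite (Rat.cast : ℚ → ℝ), this]

lemma glue {Z Y : Submodule ℝ E} {q : B → E →L[ℝ] ℝ} (mZ : ∀ v, v ∈ Z ↔ ∀ b, q b v = 0)
    (q2 : ∀ b v, |q b v| ≤ 2 * ‖v‖) (l : ∀ w ∈ Y, ∀ r, 0 ≤ r → (∀ b, |q b w| ≤ r) →
      ∃ w' ∈ Y, ‖w'‖ ≤ 2 * r ∧ ∀ b, q b w' = q b w) (P : Z →L[ℝ] Z)
    (hP : ∀ x : Z, x.1 ∈ Y → P x = x) : ∃ T : ↥(Z ⊔ Y) →L[ℝ] E,
      ∀ v : ↥(Z ⊔ Y), ∃ (z : Z) (w : Y), (z : E) + w = v ∧ T v = P z + w := by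
  have ag : ∀ (x : Z) (y : Y), (x : E) = y → (Z.subtype ∘ₗ P.toLinearMap) x = Y.subtype y :=
    fun x y h => (congrArg Subtype.val (hP x (h ▸ y.2))).trans h
  let f : E →ₗ.[ℝ] E := ⟨Z, Z.subtype ∘ₗ P.toLinearMap⟩
  let g : E →ₗ.[ℝ] E := ⟨Y, Y.subtype⟩
  obtain ⟨T, T1⟩ : ∃ T : ↥(Z ⊔ Y) →ₗ[ℝ] E,
      ∀ (v : ↥(Z ⊔ Y)) (z : Z) (w : Y), (z : E) + w = v → T v = P z + w :=
    ⟨(f.sup g ag).toFun, fun v z w h => LinearPMap.sup_apply (f := f) (g := g) ag z w v h⟩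
  have T2 : ∀ v : ↥(Z ⊔ Y), ∃ (z : Z) (w : Y), (z : E) + w = v ∧ ‖(w : E)‖ ≤ 4 * ‖v‖ := by
    intro v
    obtain ⟨z, z1, w, w1, h⟩ := Submodule.mem_sup.1 v.2
    have k : ∀ b, q b w = q b v := fun b => by rw [← h, map_add, (mZ z).1 z1, zero_add]
    obtain ⟨w', k1, k2, k3⟩ := l w w1 _ (by positivity) fun b => k b ▸ q2 b v
    exact ⟨⟨v - w', (mZ _).2 fun b => by rw [map_sub, k3, k, sub_self]⟩, ⟨w', k1⟩, by simp,
      k2.trans_eq (by rw [← mul_assoc]; norm_num)⟩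
  refine ⟨T.mkContinuous (5 * ‖P‖ + 4) fun v => ?_, fun v => ?_⟩
  · obtain ⟨z, w, h, k⟩ := T2 v
    have k1 : ‖z‖ ≤ ‖v‖ + ‖(w : E)‖ := by
      rw [Submodule.coe_norm z, eq_sub_of_add_eq h]; exact norm_sub_le _ _
    have k2 : ‖(P z : E)‖ ≤ ‖P‖ * ‖z‖ := P.le_opNorm z
    rw [T1 v z w h]
    nlinarith [norm_add_le (P z : E) w, norm_nonneg P, norm_nonneg v]
  · obtain ⟨z, w, h, -⟩ := T2 v
    exact ⟨z, w, h, T1 v z w h⟩

lemma ext {Γ : Type} {ev : Γ → E →L[ℝ] ℝ} (e1 : ∀ v (G : Finset Γ), ∑ γ ∈ G, |ev γ v| ≤ ‖v‖)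
    (e2 : ∀ (a : Γ → ℝ) C, (∀ G : Finset Γ, ∑ γ ∈ G, |a γ| ≤ C) → ∃ v, ‖v‖ ≤ C ∧ ∀ γ, ev γ v = a γ)
    (e3 : ∀ v w, (∀ γ, ev γ v = ev γ w) → v = w) {W : Submodule ℝ E} (T : W →L[ℝ] E) {S : Set Γ}
    (s1 : S.Countable) (T4 : ∀ v, ∀ γ ∉ S, ev γ (T v) = 0) {x : Finset I → E} (hx : ∀ F, ‖x F‖ = 1)
    (z1 : ∀ F, ∑ i ∈ F, x {i} - x F ∈ W) : ∃ (J : Set I) (r : Finset I → E), Jᶜ.Countable ∧
      ∀ F : Finset I, ↑F ⊆ J → ‖r F‖ ≤ 2 * ‖T‖ ∧ (∀ γ ∉ S, ev γ (r F) = 0) ∧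
        ∑ i ∈ F, r {i} - r F = T ⟨_, z1 F⟩ := by
  classical
  choose ψ ψ1 ψ2 using fun G : Finset Γ => exists_extension_norm_eq W ((∑ γ ∈ G, ev γ).comp T)
  have ψ3 : ∀ G (v : W), ψ G v = ∑ γ ∈ G, ev γ (T v) := fun G v => by rw [ψ1]; simp
  have ψ4 : ∀ G, ‖ψ G‖ ≤ ‖T‖ := fun G => (ψ2 G).trans_le (ContinuousLinearMap.opNorm_le_bound _
    (norm_nonneg T) fun v => by
      rw [← ψ1, ψ3]
      exact (norm_sum_le _ _).trans ((e1 _ G).trans (T.le_opNorm v)))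
  have ψ5 : ∀ γ ∉ S, ψ {γ} = 0 := fun γ h => norm_le_zero_iff.1 ((ψ2 _).trans_le
    (ContinuousLinearMap.opNorm_le_bound _ le_rfl fun v => by simp [T4 v γ h]))
  let μ := fun G => ∑ γ ∈ G, ψ {γ} - ψ G
  have μ1 : ∀ G F, ∑ i ∈ F, μ G (x {i}) = μ G (x F) := fun G F => by
    rw [← sub_eq_zero, ← map_sum, ← map_sub]
    have := fun G => ψ3 G ⟨_, z1 F⟩
    simp only at this
    simp only [μ, _root_.sub_apply, _root_.sum_apply, this,
      Finset.sum_singleton, sub_self]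
  have hS : {G : Finset Γ | ↑G ⊆ S}.Countable :=
    ((countable_ofPred_finite_subset s1).preimage_of_injOn (f := fun G : Finset Γ => (G : Set Γ))
      Finset.coe_injective.injOn).mono fun G hG => And.intro G.finite_toSet hG
  let J := (⋃ G ∈ {G : Finset Γ | ↑G ⊆ S}, {i ∈ univ | μ G (x {i}) ≠ 0})ᶜ
  have j2 : ∀ F : Finset I, ↑F ⊆ J → ∀ G : Finset Γ, ∑ γ ∈ G, |ψ {γ} (x F)| ≤ 2 * ‖T‖ :=
    fun F hF => bs fun G => by
      have k : μ (G.filter (· ∈ S)) (x F) = 0 := μ1 _ F ▸ Finset.sum_eq_zero fun i hi =>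
        by_contra fun n => hF hi (mem_biUnion (fun _ h => (Finset.mem_filter.1 h).2) ⟨trivial, n⟩)
      simp only [μ, _root_.sub_apply, _root_.sum_apply, sub_eq_zero] at k
      rw [← Finset.sum_filter_of_ne (p := (· ∈ S)) fun γ _ h => by_contra fun n => h (by
        rw [ψ5 γ n]; rfl), k]
      exact ((ψ _).le_of_opNorm_le (ψ4 _) _).trans_eq (by rw [hx, mul_one])
  choose! r r1 r2 using fun F hF => e2 _ _ (j2 F hF)
  refine ⟨J, r, ?_, fun F hF => ⟨r1 F hF, fun γ h => by rw [r2 F hF, ψ5 γ h]; rfl,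
    e3 _ _ fun γ => ?_⟩⟩
  · rw [compl_compl]
    exact hS.biUnion fun G _ => cnt (C := ‖μ G‖) fun F _ => μ1 G F ▸ ((μ G).le_opNorm _).trans_eq
      (by rw [hx, mul_one])
  · rw [map_sub, map_sum, r2 F hF, Finset.sum_congr rfl fun i hi => r2 {i}
      (by simpa using hF hi) γ, ← map_sum, ← map_sub]
    simpa using ψ3 {γ} ⟨_, z1 F⟩

theorem core [Uncountable I] [Countable B] {A : I → Set B}
    (a1 : ∀ i, (A i).Infinite) (a2 : ∀ i j, i ≠ j → (A i ∩ A j).Finite)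
    {u : Finset I ⊕ (B →₀ ℚ) → E} (hu : ∀ γ, ‖u γ‖ = 1) {ev : Finset I ⊕ (B →₀ ℚ) → E →L[ℝ] ℝ}
    (e0 : ∀ γ δ, γ ≠ δ → ev γ (u δ) = 0) (e1 : ∀ v (G : Finset _), ∑ γ ∈ G, |ev γ v| ≤ ‖v‖)
    (e2 : ∀ (a : _ → ℝ) C, (∀ G : Finset _, ∑ γ ∈ G, |a γ| ≤ C) → ∃ v, ‖v‖ ≤ C ∧ ∀ γ, ev γ v = a γ)
    (e3 : ∀ v w, (∀ γ, ev γ v = ev γ w) → v = w)
    (e4 : ∀ S : Set _, S.Countable → IsSeparable {v | ∀ γ ∉ S, ev γ v = 0})
    (e5 : ∀ s, IsSeparable s → ∃ S : Set _, S.Countable ∧ ∀ v ∈ s, ∀ γ ∉ S, ev γ v = 0)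
    {q : B → E →L[ℝ] ℝ} (q1 : ∀ b γ, q b (u γ) = g A b γ) (q2 : ∀ b v, |q b v| ≤ 2 * ‖v‖) :
    ∃ Z : Submodule ℝ E, IsClosed (Z : Set E) ∧ ∃ s : Set Z,
      IsSeparable s ∧ ∀ P : Z →L[ℝ] Z, (∀ x ∈ s, P x = x) → ¬ IsSeparable (range P) := by
  classical
  let Z : Submodule ℝ E := ⨅ b, LinearMap.ker (q b).toLinearMap
  have mZ : ∀ v, v ∈ Z ↔ ∀ b, q b v = 0 := fun v => by simp [Z]
  let Y : Submodule ℝ E := .span ℝ (range fun v => u (.inr v))
  have y1 : ∀ w ∈ Y, (support fun b => q b w).Finite ∧ ∀ γ ∉ range Sum.inr, ev γ w = 0 :=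
    fun w hw => by
      refine Submodule.span_induction (p := fun w _ => (support fun b => q b w).Finite ∧
        ∀ γ ∉ range Sum.inr, ev γ w = 0) ?_ (by simp) (fun _ _ _ _ h1 h2 =>
          ⟨(h1.1.union h2.1).subset (by simpa using support_add _ _), fun γ h => by
            rw [map_add, h1.2 γ h, h2.2 γ h, add_zero]⟩)
        (fun _ _ _ h => ⟨h.1.subset fun b hb => by simpa using (by simpa using hb : _ ∧ _).2,
          fun γ k => by rw [map_smul, h.2 γ k, smul_zero]⟩) hw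
      rintro _ ⟨v, rfl⟩
      exact ⟨v.support.finite_toSet.subset fun b hb => by
        simpa using (by simpa [q1, g] using hb : _ ∧ _).2, fun γ h => e0 _ _ fun k => h ⟨v, k.symm⟩⟩
  refine ⟨Z, ?_, Subtype.val ⁻¹' Y, IsEmbedding.subtypeVal.isSeparable_preimage
    ((countable_range _).isSeparable.span (R := ℝ)), fun P hP hs => ?_⟩
  · simp only [Z, Submodule.coe_iInf]
    exact isClosed_iInter fun b => (q b).isClosed_ker
  obtain ⟨S0, s1, s2⟩ := e5 _ (hs.image continuous_subtype_val)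
  obtain ⟨T, hT⟩ := glue mZ q2 (fun w hw r => lift hu q1 _ r (y1 w hw).1) P hP
  have z1 : ∀ F, ∑ i ∈ F, u (.inl {i}) - u (.inl F) ∈ Z ⊔ Y := fun F => by
    obtain ⟨w, w1, -, w2⟩ := lift hu q1 (fun b => q b (∑ i ∈ F, u (.inl {i}) - u (.inl F))) _
      ((F.finite_toSet.biUnion fun i _ => (F.erase i).finite_toSet.biUnion fun j hj =>
        a2 j i (Finset.mem_erase.1 hj).1).subset fun b hb => by_contra fun hn => hb (by
          simp only [map_sub, map_sum, q1, g, Sum.elim_inl, Finset.mem_singleton, exists_eq_left]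
          split_ifs with h
          · obtain ⟨i, i1, i2⟩ := h
            rw [Finset.sum_eq_single_of_mem i i1 fun j j1 j2 => if_neg fun k => hn (mem_biUnion i1
              (mem_biUnion (Finset.mem_erase.2 ⟨j2, j1⟩) ⟨k, i2⟩)), if_pos i2, sub_self]
          · rw [Finset.sum_eq_zero fun i hi => if_neg fun k => h ⟨i, hi, k⟩, sub_self]))
      (by positivity) fun b => q2 b _
    exact Submodule.mem_sup.2 ⟨_ - w, (mZ _).2 fun b => by rw [map_sub, w2, sub_self], w, w1,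
      sub_add_cancel _ _⟩
  have s3 := s1.union (countable_range (Sum.inr : _ → Finset I ⊕ (B →₀ ℚ)))
  obtain ⟨J, r, j1, hr⟩ := ext e1 e2 e3 T s3 (fun v γ h => by
    obtain ⟨z, w, -, k⟩ := hT v
    rw [k, map_add, s2 _ ⟨_, ⟨z, rfl⟩, rfl⟩ γ fun k => h (Or.inl k),
      (y1 _ w.2).2 γ fun k => h (Or.inr k), add_zero]) (fun F => hu _) z1
  have r1 : ∀ b, {i ∈ J | g A b (.inl {i}) - q b (r {i}) ≠ 0}.Countable := fun b =>
    cnt (C := 2 + 2 * (2 * ‖T‖)) fun F hF => by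
      obtain ⟨z', w, h, k⟩ := hT ⟨_, z1 F⟩
      have k1 := congrArg (q b) ((hr F hF).2.2.trans k)
      have k2 := congrArg (q b) h
      simp only [map_add, map_sub, map_sum, (mZ _).1 z'.2, (mZ _).1 (P z').2, q1] at k1 k2
      rw [Finset.sum_sub_distrib, show ∑ i ∈ F, g A b (.inl {i}) - ∑ i ∈ F, q b (r {i}) =
        g A b (.inl F) - q b (r F) by linarith]
      linarith [abs_sub (g A b (.inl F)) (q b (r F)), g_le A b (.inl F), q2 b (r F), (hr F hF).1]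
  obtain ⟨t, t1, t2⟩ := e4 _ s3
  let N := Jᶜ ∪ ⋃ b, {i ∈ J | g A b (.inl {i}) - q b (r {i}) ≠ 0}
  have n1 : ∀ i ∉ N, i ∈ J := fun i h => by_contra fun k => h (Or.inl k)
  choose! a a3 a4 using fun i (h : i ∉ N) => Metric.mem_closure_iff.1
    (t2 (hr {i} (by simpa using n1 i h)).2.1) (1 / 4) (by norm_num)
  have n2 : N.Countable := j1.union (countable_iUnion r1)
  refine not_countable_univ ((n2.union (MapsTo.countable_of_injOn
    (s := Nᶜ) a3 (fun i hi j hj h => by_contra fun n => ?_) t1)).mono fun i _ => em _)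
  obtain ⟨b, b1, b2⟩ := ((a1 i).sdiff (a2 i j n)).nonempty
  have k : ∀ i ∉ N, g A b (.inl {i}) = q b (r {i}) := fun i h => sub_eq_zero.1 (by_contra fun k =>
    h (Or.inr (mem_iUnion.2 ⟨b, n1 i h, k⟩)))
  have k1 := q2 b (r {i} - r {j})
  have k2 := dist_triangle_right (r {i}) (r {j}) (a j)
  rw [map_sub, ← k i hi, ← k j hj, ← dist_eq_norm] at k1
  simp only [g, Sum.elim_inl, Finset.mem_singleton, exists_eq_left, b1, if_true,
    if_neg fun k => b2 ⟨b1, k⟩, sub_zero, abs_one] at k1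
  linarith [h ▸ a4 i hi, a4 j hj]

theorem main : ∃ (Γ : Type) (Z : Submodule ℝ (L Γ)), IsClosed (Z : Set (L Γ)) ∧ ∃ s : Set Z,
    IsSeparable s ∧ ∀ P : Z →L[ℝ] Z, (∀ x ∈ s, P x = x) → ¬ IsSeparable (range P) := by
  classical
  let A : (ℕ → Bool) → Set (ℕ × Finset ℕ) := fun t =>
    range fun n => (n, (Finset.range n).filter (t · = true))
  choose q q1 q2 using fun b => fn (g A b) (g_le A b)
  have : Uncountable (ℕ → Bool) := Cardinal.aleph0_lt_mk_iff.1 (by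
    simpa using Cardinal.aleph0_lt_continuum)
  refine ⟨_, core (A := A) (ev := lp.evalCLM ℝ (fun _ => ℝ) 1) (fun t => infinite_range_of_injective
    fun _ _ h => congrArg Prod.fst h) (fun s t h => ?_) u_norm
    (fun γ δ h => by
      change u δ γ = 0
      simp [u, lp.single_apply, h])
    (fun v G => by
      change ∑ γ ∈ G, |v γ| ≤ _
      simpa using lp.sum_rpow_le_norm_rpow (by simp) v G)
    (fun a C h => ⟨⟨a, memℓp_gen' (C := C) (by simpa using h)⟩, lp.norm_le_of_forall_sum_le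
      (by simp) (by simpa using h ∅) (by simpa using h), fun _ => rfl⟩)
    (fun v w h => lp.ext (funext h)) (fun _ => sepL) (fun _ => suppL) q1 q2⟩
  obtain ⟨k, hk⟩ := ne_iff.1 h
  refine ((finite_le_nat k).image fun n => (n, (Finset.range n).filter (s · = true))).subset ?_
  rintro _ ⟨⟨n, rfl⟩, m, h⟩
  obtain ⟨rfl, h⟩ := Prod.mk.inj h
  refine ⟨m, show m ≤ k from not_lt.1 fun l => hk ?_, rfl⟩
  have := Finset.ext_iff.1 h k
  simp only [Finset.mem_filter, Finset.mem_range, l, true_and] at this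
  exact Bool.eq_iff_iff.2 this.symm

end H5E
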