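import Pool.Agent.Lib.helper5.Sparse

set_option autoImplicit false

open Set Filter Topology

namespace H5Sp

section gen
variable {K : Type} [Fintype K] {α : Type*} [PseudoMetricSpace α]

lemma Lip.pi' {f : α → K → ℝ} (h : ∀ i, Lip fun x => f x i) : Lip f := by
  choose C hC using h
  refine ⟨∑ i, C i, LipschitzWith.of_dist_le_mul fun x y => ?_⟩
  refine (dist_pi_le_iff (by positivity)).2 fun i => ((hC i).dist_le_mul x y).trans ?_
  refine mul_le_mul_of_nonneg_right ?_ dist_nonneg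
  exact_mod_cast Finset.single_le_sum (f := C) (fun _ _ => zero_le) (Finset.mem_univ i)

lemma Lip.ev' (i : K) : Lip fun v : K → ℝ => v i := ⟨1, LipschitzWith.eval i⟩

lemma Lip.const (c : ℝ) : Lip fun _ : α => c := ⟨0, LipschitzWith.const _⟩

lemma Lip.max {f g : α → ℝ} (hf : Lip f) (hg : Lip g) : Lip fun x => max (f x) (g x) := by
  obtain ⟨_, h1⟩ := hf; obtain ⟨_, h2⟩ := hg; exact ⟨_, h1.max h2⟩

lemma Lip.min {f g : α → ℝ} (hf : Lip f) (hg : Lip g) : Lip fun x => min (f x) (g x) := by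
  obtain ⟨_, h1⟩ := hf; obtain ⟨_, h2⟩ := hg; exact ⟨_, h1.min h2⟩

lemma Lip.neg {f : α → ℝ} (hf : Lip f) : Lip fun x => -f x := by
  obtain ⟨_, h1⟩ := hf; exact ⟨_, h1.neg⟩

lemma Lip.abs {f : α → ℝ} (hf : Lip f) : Lip fun x => |f x| := by
  simpa only [abs_eq_max_neg] using hf.max hf.neg

lemma Lip.sum {ι : Type*} (s : Finset ι) {f : ι → α → ℝ} (hf : ∀ i, Lip (f i)) :
    Lip fun x => ∑ i ∈ s, f i x := by
  classical
  induction s using Finset.induction_on with
  | empty => simpa using Lip.const 0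
  | insert a s ha ih => simpa [Finset.sum_insert ha] using (hf a).add ih

lemma Lip.iInf [Nonempty K] {f : K → α → ℝ} (hf : ∀ i, Lip (f i)) : Lip fun x => ⨅ i, f i x := by
  obtain ⟨C, hC⟩ := Lip.pi' (f := fun x i => f i x) hf
  refine ⟨C, LipschitzWith.of_le_add_mul C fun x y => ?_⟩
  obtain ⟨i, hi⟩ := exists_eq_ciInf_of_finite (f := fun i => f i y)
  have h1 := (dist_le_pi_dist (fun i => f i x) (fun i => f i y) i).trans (hC.dist_le_mul x y)
  have h2 := ciInf_le (Finite.bddBelow_range fun i => f i x) i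
  rw [Real.dist_eq] at h1
  linarith [le_abs_self (f i x - f i y)]

lemma triangK (rk : K → ℕ) (φ : (K → ℝ) → (K → ℝ)) (hL : Lip φ)
    (h : ∀ v w j, (∀ i, rk i < rk j → v i = w i) → φ v j = φ w j) :
    ∃ G : (K → ℝ) → (K → ℝ), Lip G ∧ (∀ v, G (v - φ v) = v) ∧ ∀ u, G u - φ (G u) = u := by
  let g : ℕ → (K → ℝ) → (K → ℝ) := fun k => Nat.rec (fun u => u) (fun _ g u => u + φ (g u)) k
  have hg : ∀ k u, g (k + 1) u = u + φ (g k u) := fun _ _ => rfl
  have h1 : ∀ k, Lip (g k) := by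
    intro k
    induction k with
    | zero => exact Lip.id'
    | succ k ih => exact Lip.id'.add (hL.comp ih)
  have h2 : ∀ v k j, rk j < k → g k (v - φ v) j = v j := by
    intro v k
    induction k with
    | zero => simp
    | succ k ih =>
      intro j hj
      rw [hg, Pi.add_apply, h _ v j fun i hi => ih i (by omega)]
      simp
  have h3 : ∀ u k j, rk j < k → g (k + 1) u j = g k u j := by
    intro u k
    induction k with
    | zero => simp
    | succ k ih =>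
      intro j hj
      rw [hg (k + 1), Pi.add_apply, h _ (g k u) j fun i hi => ih i (by omega)]
      rfl
  obtain ⟨n, hn⟩ := (Finite.bddAbove_range rk)
  have hn' : ∀ j, rk j < n + 1 := fun j => Nat.lt_succ_of_le (hn ⟨j, rfl⟩)
  refine ⟨g (n + 1), h1 (n + 1), fun v => funext fun j => h2 v (n + 1) j (hn' j), fun u => funext fun j => ?_⟩
  have := h3 u (n + 1) j (hn' j)
  rw [hg (n + 1), Pi.add_apply] at this
  rw [Pi.sub_apply, ← this, add_sub_cancel_right]

lemma scale_aux {H : (K → ℝ) → (K → ℝ)} {C : NNReal} (hH : LipschitzWith C H) {σ : ℝ ≃ᵤ ℝ}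
    (s1 : StrictMono σ) (s2 : ∀ t, |σ t| = σ |t|) {ε : ℝ} (e0 : 0 ≤ ε) (s3 : C * σ ε ≤ σ (2 * ε))
    {S S' : K → Prop} (h : ∀ f, (∀ i, ¬ S i → f i = 0) → ∀ j, ¬ S' j → H f j = 0) (f : K → ℝ)
    (hf : ∀ i, ¬ S i → |f i| ≤ ε) (j : K) (hj : ¬ S' j) :
    |σ.symm (H (fun i => σ (f i)) j)| ≤ 2 * ε := by
  classical
  have s0 : 0 ≤ σ ε := by rw [← abs_of_nonneg e0, ← s2]; exact abs_nonneg _
  have hd : dist (fun i => σ (f i)) (fun i => if S i then σ (f i) else 0) ≤ σ ε :=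
    (dist_pi_le_iff s0).2 fun i => by
      by_cases hh : S i
      · simp [hh, s0]
      · simp only [hh, if_false, Real.dist_eq, sub_zero, s2]
        exact s1.monotone (hf i hh)
  have h5 := (dist_le_pi_dist _ _ j).trans (hH.dist_le_mul_of_le hd)
  rw [h _ (fun i hi => if_neg hi) j hj, Real.dist_eq, sub_zero] at h5
  rw [← s1.le_iff_le, ← s2, σ.apply_symm_apply]
  exact h5.trans s3

lemma scaleK {H G : (K → ℝ) → (K → ℝ)} (hH : Lip H) (hG : Lip G) (h1 : ∀ f, G (H f) = f)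
    (h2 : ∀ u, H (G u) = u) : ∃ e : (K → ℝ) ≃ᵤ (K → ℝ), ∀ S S' : K → Prop, ∀ ε, 0 ≤ ε → ε ≤ 1 / 2 →
      ((∀ f, (∀ i, ¬ S i → f i = 0) → ∀ j, ¬ S' j → H f j = 0) →
        ∀ f, (∀ i, ¬ S i → |f i| ≤ ε) → ∀ j, ¬ S' j → |e f j| ≤ 2 * ε) ∧
      ((∀ f, (∀ i, ¬ S i → f i = 0) → ∀ j, ¬ S' j → G f j = 0) →
        ∀ f, (∀ i, ¬ S i → |f i| ≤ ε) → ∀ j, ¬ S' j → |e.symm f j| ≤ 2 * ε) := by
  obtain ⟨K1, H1⟩ := hH
  obtain ⟨K2, G1⟩ := hG
  obtain ⟨σ, s1, s2, s3⟩ := exists_sig (K1 + K2)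
  let e : (K → ℝ) ≃ᵤ (K → ℝ) := ⟨⟨H, G, h1, h2⟩, H1.uniformContinuous, G1.uniformContinuous⟩
  let S : (K → ℝ) ≃ᵤ (K → ℝ) := UniformEquiv.piCongrRight fun _ => σ
  refine ⟨(S.trans e).trans S.symm, fun T T' ε e0 e1 => ?_⟩
  have s0 : 0 ≤ σ ε := by rw [← abs_of_nonneg e0, ← s2]; exact abs_nonneg _
  have k1 : (0 : ℝ) ≤ K1 := K1.2
  have k2 : (0 : ℝ) ≤ K2 := K2.2
  have := s3 ε e0 e1
  exact ⟨fun h f hf j hj => scale_aux H1 s1 s2 e0 (by nlinarith) h f hf j hj,
    fun h f hf j hj => scale_aux G1 s1 s2 e0 (by nlinarith) h f hf j hj⟩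

end gen

section ladder
variable {M : Type} [Fintype M] [Nonempty M] {L : ℕ}

abbrev KK (M : Type) (L : ℕ) := Fin (L + 1) ⊕ M × Fin (L + 1)

def rho (a : KK M L → ℝ) (n : ℕ) : ℝ := if h : n < L + 1 then a (Sum.inl ⟨n, h⟩) else 0

noncomputable def ps (a : KK M L → ℝ) (m : M) (n : ℕ) : ℝ :=
  ∑ l : Fin (L + 1), if (l : ℕ) < n then |a (Sum.inr (m, l))| else 0

noncomputable def ph (a : KK M L → ℝ) : ℝ := ⨅ m, ps a m (L + 1)

noncomputable def clamp (c t : ℝ) : ℝ := max (-c) (min c t)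

noncomputable def φa (a : KK M L → ℝ) : KK M L → ℝ :=
  Sum.elim (fun l => if (l : ℕ) = 0 then 0 else clamp (ph a) (rho a (l - 1))) fun _ => 0

noncomputable def φb (a : KK M L → ℝ) : KK M L → ℝ :=
  Sum.elim (fun l => rho a (l + 1)) fun p => max 0 (|rho a L| - ps a p.1 p.2)

omit [Nonempty M] in
lemma rho_lip (n : ℕ) : Lip fun a : KK M L → ℝ => rho a n := by
  unfold rho
  split_ifs
  exacts [Lip.ev' _, Lip.const _]

omit [Nonempty M] in
lemma ps_lip (m : M) (n : ℕ) : Lip fun a : KK M L → ℝ => ps a m n := by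
  refine Lip.sum _ fun l => ?_
  split_ifs
  exacts [(Lip.ev' _).abs, Lip.const _]

lemma φa_lip : Lip (φa : (KK M L → ℝ) → _) := by
  refine Lip.pi' ?_
  have h : Lip (ph : (KK M L → ℝ) → _) := Lip.iInf fun m => ps_lip m _
  rintro (l | p)
  · simp only [φa, Sum.elim_inl]
    split_ifs
    exacts [Lip.const _, h.neg.max (h.min (rho_lip _))]
  · exact Lip.const _

omit [Nonempty M] in
lemma φb_lip : Lip (φb : (KK M L → ℝ) → _) := by
  refine Lip.pi' ?_
  rintro (l | p)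
  · exact rho_lip _
  · exact (Lip.const _).max ((rho_lip _).abs.sub (ps_lip _ _))

omit [Fintype M] [Nonempty M] in
lemma rho_fin (a : KK M L → ℝ) (l : Fin (L + 1)) : rho a l = a (Sum.inl l) := dif_pos l.2

omit [Fintype M] [Nonempty M] in
lemma ps_nonneg (a : KK M L → ℝ) (m : M) (n : ℕ) : 0 ≤ ps a m n :=
  Finset.sum_nonneg fun _ _ => by split_ifs <;> simp

omit [Fintype M] [Nonempty M] in
lemma ps_succ (a : KK M L → ℝ) (m : M) (l : Fin (L + 1)) :
    ps a m (l + 1) = ps a m l + |a (Sum.inr (m, l))| := by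
  unfold ps
  have : |a (Sum.inr (m, l))| = ∑ k : Fin (L + 1), if k = l then |a (Sum.inr (m, k))| else 0 := by simp
  rw [this, ← Finset.sum_add_distrib]
  refine Finset.sum_congr rfl fun k _ => ?_
  rcases lt_trichotomy (k : ℕ) l with h | h | h
  · rw [if_pos h, if_pos (by omega), if_neg (by rintro rfl; omega), add_zero]
  · rw [if_pos (by omega), if_neg (by omega), if_pos (Fin.ext h), zero_add]
  · rw [if_neg (by omega), if_neg (by omega), if_neg (by rintro rfl; omega), add_zero]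

omit [Fintype M] [Nonempty M] in
lemma ps_full (a : KK M L → ℝ) (m : M) (n : ℕ) (h : ∀ l : Fin (L + 1), n ≤ l → a (Sum.inr (m, l)) = 0) :
    ps a m n = ps a m (L + 1) := by
  refine Finset.sum_congr rfl fun l _ => ?_
  rw [if_pos l.2]
  split_ifs with hh
  · rfl
  · simp [h l (not_lt.1 hh)]

omit [Nonempty M] in
lemma ph_le (a : KK M L → ℝ) (m : M) : ph a ≤ ps a m (L + 1) := ciInf_le (Finite.bddBelow_range _) m

omit [Fintype M] in
lemma ph_nonneg (a : KK M L → ℝ) : 0 ≤ ph a := le_ciInf fun _ => ps_nonneg _ _ _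

lemma clamp_abs {c : ℝ} (hc : 0 ≤ c) (t : ℝ) : |clamp c t| ≤ c :=
  abs_le.2 ⟨le_max_left _ _, max_le (by linarith) (min_le_left _ _)⟩

lemma clamp_eq {c t : ℝ} (h : |t| ≤ c) : clamp c t = t := by
  obtain ⟨h1, h2⟩ := abs_le.1 h
  rw [clamp, min_eq_right h2, max_eq_right h1]

/-- hypotheses on the allowed sets -/
structure Al (al al' : KK M L → Prop) : Prop where
  m1 : ∀ l l' : Fin (L + 1), l ≤ l' → al (Sum.inl l') → al (Sum.inl l)
  m2 : ∀ m (l l' : Fin (L + 1)), l ≤ l' → al (Sum.inr (m, l')) → al (Sum.inr (m, l))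
  up : ∀ k, al k → al' k
  s1 : ∀ l l' : Fin (L + 1), (l' : ℕ) = l + 1 → al (Sum.inl l) → al' (Sum.inl l')
  s2 : ∀ m (l l' : Fin (L + 1)), (l' : ℕ) = l + 1 → al (Sum.inr (m, l)) → al' (Sum.inr (m, l'))
  t1 : al (Sum.inl (Fin.last L)) → ∀ k, al' k
  t2 : ∀ m, al (Sum.inr (m, Fin.last L)) → ∀ k, al' k
  z : al' (Sum.inl 0)

open Classical in
def alg (al : KK M L → Prop) (k : KK M L) : Prop :=
  if k = Sum.inl (Fin.last L) then ∀ m, al (Sum.inr (m, 0)) else al k

lemma F1 {al al' : KK M L → Prop} (H : Al al al') (a : KK M L → ℝ)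
    (h : ∀ k, ¬ al k → (a - φa a) k = 0) (k : KK M L) (hk : ¬ alg al' k) : (a - φb a) k = 0 := by
  by_cases ht : al (Sum.inl (Fin.last L))
  · exact (hk (by unfold alg; split_ifs; exacts [fun m => H.t1 ht _, H.t1 ht _])).elim
  have k1 : ∀ l, ¬ al (Sum.inl l) → |a (Sum.inl l)| ≤ ph a := by
    intro l hl
    have h1 := sub_eq_zero.1 (h _ hl)
    rw [h1, φa, Sum.elim_inl]
    split_ifs
    · simpa using ph_nonneg a
    · exact clamp_abs (ph_nonneg a) _
  have k2 : ∀ m l, ¬ al (Sum.inr (m, l)) → a (Sum.inr (m, l)) = 0 := fun m l hl => by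
    simpa [φa] using h _ hl
  have k3 : |rho a L| ≤ ph a := by
    have := k1 _ ht
    rwa [← rho_fin a] at this
  rcases k with l | ⟨m, l⟩
  · rw [Pi.sub_apply, φb, Sum.elim_inl]
    by_cases hl : l = Fin.last L
    · subst hl
      rw [alg, if_pos rfl] at hk
      push Not at hk
      obtain ⟨m, hm⟩ := hk
      have h1 := (k1 _ ht).trans (ph_le a m)
      rw [← ps_full a m 0 fun l _ => k2 m l fun hh => hm (H.up _ (H.m2 m _ _ (Fin.zero_le _) hh))] at h1
      have h2 : ps a m 0 = 0 := by simp [ps]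
      rw [h2] at h1
      simp [rho, abs_nonpos_iff.1 h1]
    · rw [alg, if_neg (by simpa using hl)] at hk
      have h0 : (l : ℕ) + 1 < L + 1 := by have := Fin.val_lt_last hl; omega
      have h1 : ¬ al (Sum.inl l) := fun hh => hk (H.up _ hh)
      have h2 := sub_eq_zero.1 (h (Sum.inl ⟨l + 1, h0⟩) fun hh => h1 (H.m1 _ _ (Nat.le_succ _) hh))
      rw [rho, dif_pos h0, h2, φa, Sum.elim_inl, if_neg (by simp)]
      simp only [add_tsub_cancel_right, rho_fin]
      rw [clamp_eq (k1 _ h1), sub_self]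
  · rw [alg, if_neg (by simp)] at hk
    have h1 : ∀ l', l ≤ l' → a (Sum.inr (m, l')) = 0 := fun l' hl' =>
      k2 m l' fun hh => hk (H.up _ (H.m2 m _ _ hl' hh))
    rw [Pi.sub_apply, φb, Sum.elim_inr, h1 l le_rfl, ps_full a m l h1,
      max_eq_left (by linarith [ph_le a m]), sub_self]

omit [Fintype M] in
lemma F2 {al al' : KK M L → Prop} (H : Al al al') (a : KK M L → ℝ)
    (h : ∀ k, ¬ alg al k → (a - φb a) k = 0) (k : KK M L) (hk : ¬ al' k) : (a - φa a) k = 0 := by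
  have k0 : ∀ m l, ¬ al (Sum.inr (m, l)) →
      a (Sum.inr (m, l)) = max 0 (|rho a L| - ps a m l) := fun m l hl =>
    sub_eq_zero.1 (h _ (by rwa [alg, if_neg (by simp)]))
  have k1 : ∀ m (l : Fin (L + 1)), ¬ al (Sum.inr (m, l)) → |rho a L| ≤ ps a m (l + 1) := by
    intro m l hl
    rw [ps_succ]
    have h1 := le_abs_self (a (Sum.inr (m, l)))
    have h2 := le_max_right 0 (|rho a L| - ps a m l)
    rw [← k0 m l hl] at h2
    linarith
  rcases k with l | ⟨m, l⟩
  · have k2 : |rho a L| ≤ ph a := le_ciInf fun m => k1 m (Fin.last L) fun hh => hk (H.t2 m hh _)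
    have h0 : (l : ℕ) ≠ 0 := fun hh => hk (by rw [show l = 0 from Fin.ext hh]; exact H.z)
    have h1 : (l : ℕ) - 1 < L + 1 := by omega
    have h2 : ¬ al (Sum.inl ⟨l - 1, h1⟩) := fun hh => hk (H.s1 _ _ (by simp only; omega) hh)
    have h3 : ∀ n, (l : ℕ) - 1 + n ≤ L → rho a (l - 1 + n) = rho a (l - 1) := by
      intro n
      induction n with
      | zero => simp
      | succ n ih =>
        intro hn
        rw [← ih (by omega)]
        have h4 : (l : ℕ) - 1 + n < L + 1 := by omega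
        have h5 := sub_eq_zero.1 (h (Sum.inl ⟨_, h4⟩) (by
          rw [alg, if_neg (by simp [Fin.ext_iff]; omega)]
          exact fun hh => h2 (H.m1 _ _ (Nat.le_add_right _ _) hh)))
        rw [← rho_fin a] at h5
        exact h5.symm
    have h6 := h3 1 (by omega)
    have h7 := h3 (L - (l - 1)) (by omega)
    rw [show (l : ℕ) - 1 + 1 = l by omega, rho_fin] at h6
    rw [show (l : ℕ) - 1 + (L - (l - 1)) = L by omega] at h7
    rw [Pi.sub_apply, φa, Sum.elim_inl, if_neg h0, h6, clamp_eq (h7 ▸ k2), sub_self]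
  · have h1 : ¬ al (Sum.inr (m, l)) := fun hh => hk (H.up _ hh)
    rw [Pi.sub_apply, φa, Sum.elim_inr, sub_zero, k0 m l h1]
    refine max_eq_left (sub_nonpos.2 ?_)
    by_cases h0 : (l : ℕ) = 0
    · have h2 := h (Sum.inl (Fin.last L)) (by
        rw [alg, if_pos rfl]
        exact fun hh => h1 (by rw [show l = 0 from Fin.ext h0]; exact hh m))
      have h3 : rho a L = 0 := (rho_fin a (Fin.last L)).trans (by simpa [φb, rho] using h2)
      rw [h3, abs_zero]; exact ps_nonneg _ _ _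
    · have h2 : (l : ℕ) - 1 < L + 1 := by omega
      have := k1 m ⟨l - 1, h2⟩ fun hh => hk (H.s2 m _ _ (by simp only; omega) hh)
      rwa [show (((⟨l - 1, h2⟩ : Fin (L + 1)) : ℕ) + 1) = l by simp only; omega] at this

theorem ladder (M : Type) [Fintype M] [Nonempty M] (L : ℕ) :
    ∃ e : (KK M L → ℝ) ≃ᵤ (KK M L → ℝ), ∀ al al', Al al al' → ∀ ε, 0 ≤ ε → ε ≤ 1 / 2 →
      (∀ u, (∀ i, ¬ al i → |u i| ≤ ε) → ∀ j, ¬ alg al' j → |e u j| ≤ 2 * ε) ∧
      (∀ g, (∀ i, ¬ alg al i → |g i| ≤ ε) → ∀ j, ¬ al' j → |e.symm g j| ≤ 2 * ε) := by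
  obtain ⟨A, A1, A2, A3⟩ := triangK (K := KK M L) (Sum.elim (fun l => (l : ℕ) + 1) fun _ => 0)
    φa φa_lip (by
      rintro v w (l | p) h
      · have h1 : ph v = ph w := by
          unfold ph ps
          simp only [show ∀ p, v (Sum.inr p) = w (Sum.inr p) from fun p => h _ (by simp)]
        simp only [φa, Sum.elim_inl, h1]
        split_ifs with h0
        · rfl
        · have : (l : ℕ) - 1 < L + 1 := by omega
          rw [rho, rho, dif_pos this, dif_pos this, h _ (by simp only [Sum.elim_inl]; omega)]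
      · rfl)
  obtain ⟨B, B1, B2, B3⟩ := triangK (K := KK M L)
    (Sum.elim (fun l => L - (l : ℕ)) fun p => L + 1 + p.2) φb φb_lip (by
      rintro v w (l | p) h
      · simp only [φb, Sum.elim_inl, rho]
        split_ifs with h0
        · exact h _ (by simp; omega)
        · rfl
      · have h1 : rho v L = rho w L := by
          rw [rho, rho, dif_pos (Nat.lt_succ_self L), dif_pos (Nat.lt_succ_self L),
            h _ (by simp only [Sum.elim_inl, Sum.elim_inr]; omega)]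
        have h2 : ps v p.1 p.2 = ps w p.1 p.2 := by
          refine Finset.sum_congr rfl fun l _ => ?_
          split_ifs with h0
          · rw [h _ (by simpa using h0)]
          · rfl
        simp only [φb, Sum.elim_inr, h1, h2])
  obtain ⟨e, he⟩ := scaleK (H := fun u => A u - φb (A u)) (G := fun g => B g - φa (B g))
    (A1.sub (φb_lip.comp A1)) (B1.sub (φa_lip.comp B1)) (fun u => by simp only [B2, A3])
    (fun g => by simp only [A2, B3])
  refine ⟨e, fun al al' H ε e0 e1 => ⟨(he _ _ ε e0 e1).1 fun u hu => F1 H _ ?_,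
    (he _ _ ε e0 e1).2 fun g hg => F2 H _ ?_⟩⟩
  · rwa [A3]
  · rwa [B3]

end ladder

end H5Sp
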