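import Mathlib

set_option autoImplicit false

open Set Filter Topology

namespace H5LU

universe u v

lemma close {α : Type*} (op : α → α → Set α) (hop : ∀ a b, (op a b).Countable) (a : α) :
    ∃ A : Set α, A.Countable ∧ a ∈ A ∧ ∀ f ∈ A, ∀ g ∈ A, op f g ⊆ A := by
  let s : ℕ → Set α := fun n => Nat.rec {a} (fun _ A => A ∪ ⋃ f ∈ A, ⋃ g ∈ A, op f g) n
  have hs : ∀ n, s (n + 1) = s n ∪ ⋃ f ∈ s n, ⋃ g ∈ s n, op f g := fun _ => rfl
  have hc : ∀ n, (s n).Countable := by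
    intro n
    induction n with
    | zero => exact countable_singleton a
    | succ n ih => rw [hs]; exact ih.union (ih.biUnion fun f _ => ih.biUnion fun g _ => hop f g)
  have hm : Monotone s := monotone_nat_of_le_succ fun n => by rw [hs]; exact subset_union_left
  refine ⟨⋃ n, s n, countable_iUnion hc, mem_iUnion.2 ⟨0, rfl⟩, fun f hf g hg z hz => ?_⟩
  obtain ⟨n, hn⟩ := mem_iUnion.1 hf
  obtain ⟨m, hm'⟩ := mem_iUnion.1 hg
  refine mem_iUnion.2 ⟨max n m + 1, ?_⟩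
  rw [hs]
  exact Or.inr (mem_iUnion₂.2 ⟨f, hm (le_max_left _ _) hn,
    mem_iUnion₂.2 ⟨g, hm (le_max_right _ _) hm', hz⟩⟩)

abbrev Cp (X : Type u) [TopologicalSpace X] := {f : X → ℝ // Continuous f}

theorem main {X : Type u} {Y : Type v} [TopologicalSpace X] [TopologicalSpace Y]
    [CompletelyRegularSpace Y] [LindelofSpace X] (φ : Cp Y → Cp X) (hu : UniformContinuous φ)
    (he : IsInducing φ) : LindelofSpace Y := by
  refine ⟨fun 𝓕 hne hci _ => ?_⟩
  by_contra hno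
  push Not at hno
  let P : Cp Y → Prop := fun f => (∀ y, 0 ≤ f.1 y) ∧ ∀ᶠ y in 𝓕, f.1 y = 1
  let o : Cp Y := ⟨fun _ => 0, continuous_const⟩
  let mn : Cp Y → Cp Y → Cp Y := fun f g => ⟨fun y => min (f.1 y) (g.1 y), f.2.min g.2⟩
  have mnP : ∀ f g, P f → P g → P (mn f g) := fun f g hf hg =>
    ⟨fun y => le_min (hf.1 y) (hg.1 y), by
      filter_upwards [hf.2, hg.2] with y h1 h2
      simp [mn, h1, h2]⟩
  have h1 : ∀ y : Y, ∃ f, P f ∧ f.1 y = 0 := by
    intro y
    have := hno y (mem_univ _)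
    rw [ClusterPt, not_neBot, Filter.inf_eq_bot_iff] at this
    obtain ⟨U, hU, V, hV, hUV⟩ := this
    obtain ⟨f, fc, f0, f1⟩ := CompletelyRegularSpace.completely_regular y (interior U)ᶜ
      isOpen_interior.isClosed_compl (fun h => h (mem_interior_iff_mem_nhds.2 hU))
    refine ⟨⟨fun z => f z, continuous_subtype_val.comp fc⟩, ⟨fun z => (f z).2.1, ?_⟩, by simp [f0]⟩
    filter_upwards [hV] with z hz
    have : z ∈ (interior U)ᶜ := fun h => (hUV ▸ ⟨interior_subset h, hz⟩ : z ∈ (∅ : Set Y))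
    simp [f1 this]
  have h2 : ∀ f, P f → ∀ K : Finset Y, ∃ g, P g ∧ g ≤ f ∧ ∀ y ∈ K, g.1 y = 0 := by
    intro f hf K
    classical
    induction K using Finset.induction_on with
    | empty => exact ⟨f, hf, le_rfl, by simp⟩
    | insert a K _ ih =>
      obtain ⟨g, hg, hgf, hK⟩ := ih
      obtain ⟨k, hk, hk0⟩ := h1 a
      refine ⟨mn g k, mnP _ _ hg hk, fun y => (min_le_left _ _).trans (hgf y), fun y hy => ?_⟩
      rcases Finset.mem_insert.1 hy with rfl | hy
      · simp [mn, hk0, hg.1 y]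
      · simp [mn, hK y hy, hk.1 y]
  have h3 : ∀ f, P f → ∀ W ∈ 𝓝 o, ∃ g, P g ∧ g ≤ f ∧ g ∈ W := by
    intro f hf W hW
    obtain ⟨t, ht, hsub⟩ := (mem_nhds_induced _ _ _).1 hW
    rw [nhds_pi, Filter.mem_pi'] at ht
    obtain ⟨K, s, hs, hst⟩ := ht
    obtain ⟨g, hg, hgf, hK⟩ := h2 f hf K
    refine ⟨g, hg, hgf, hsub (hst fun y hy => ?_)⟩
    rw [hK y hy]
    exact mem_of_mem_nhds (hs y)
  have h4 : ∀ (f : Cp Y) (n : ℕ), ∃ S : Set (Cp Y), S.Countable ∧ (P f →
      (∀ g ∈ S, P g ∧ g ≤ f) ∧ ∀ x, ∃ g ∈ S, |(φ g).1 x - (φ o).1 x| < 1 / (n + 1)) := by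
    intro f n
    by_cases hf : P f
    swap
    · exact ⟨∅, countable_empty, fun h => (hf h).elim⟩
    obtain ⟨r, hr, hcov⟩ := isLindelof_univ.elim_countable_subcover
      (fun g : {g // P g ∧ g ≤ f} => {x | |(φ g).1 x - (φ o).1 x| < 1 / (n + 1)})
      (fun g => isOpen_lt (((φ g).2.sub (φ o).2).abs) continuous_const) (by
        intro x _
        have hc : Continuous fun g : Cp Y => |(φ g).1 x - (φ o).1 x| :=
          ((((continuous_apply x).comp continuous_subtype_val).comp hu.continuous).sub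
            continuous_const).abs
        obtain ⟨g, hg, hgf, hW⟩ := h3 f hf _ ((isOpen_lt hc continuous_const
          (g := fun _ => 1 / ((n : ℝ) + 1))).mem_nhds (by simp; positivity))
        exact mem_iUnion.2 ⟨⟨g, hg, hgf⟩, hW⟩)
    refine ⟨Subtype.val '' r, hr.image _, fun _ => ⟨?_, fun x => ?_⟩⟩
    · rintro _ ⟨g, -, rfl⟩; exact g.2
    · obtain ⟨g, hg, hx⟩ := mem_iUnion₂.1 (hcov (mem_univ x))
      exact ⟨g, mem_image_of_mem _ hg, hx⟩
  choose S Sc hS using h4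
  obtain ⟨A, Ac, A1, hA⟩ := close (α := {f // P f})
    (fun f g => Subtype.val ⁻¹' (insert (mn f g) (⋃ n, S f n)))
    (fun f g => ((countable_iUnion (Sc f)).insert _).preimage Subtype.val_injective)
    ⟨⟨fun _ => 1, continuous_const⟩, fun _ => zero_le_one, Eventually.of_forall fun _ => rfl⟩
  have : Nonempty A := ⟨⟨_, A1⟩⟩
  have : IsCodirectedOrder A := ⟨fun f g =>
    ⟨⟨⟨mn f.1 g.1, mnP _ _ f.1.2 g.1.2⟩, hA _ f.2 _ g.2 (mem_insert _ _)⟩,
      fun y => min_le_left _ _, fun y => min_le_right _ _⟩⟩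
  have hc1 : Cauchy (map (fun f : A => f.1.1) atBot) := by
    refine (isUniformEmbedding_subtype_val.isUniformInducing.cauchy_map_iff).1 ?_
    rw [map_map]
    refine Filter.Tendsto.cauchy_map (a := fun y => ⨅ f : A, f.1.1.1 y) (tendsto_pi_nhds.2 fun y => ?_)
    refine tendsto_atBot_ciInf (f := fun f : A => f.1.1.1 y) (fun f g hfg => hfg y) ⟨0, ?_⟩
    rintro _ ⟨f, rfl⟩
    exact f.1.2.1 y
  have hT : Tendsto (fun f : A => φ f.1.1) atBot (𝓝 (φ o)) := by
    rw [tendsto_subtype_rng, tendsto_pi_nhds]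
    intro x
    have hux : UniformContinuous fun g : Cp Y => (φ g).1 x :=
      ((Pi.uniformContinuous_proj _ x).comp uniformContinuous_subtype_val).comp hu
    refine le_nhds_of_cauchy_adhp (hc1.map hux) ?_
    refine mapClusterPt_iff_frequently.2 fun s hs => ?_
    obtain ⟨ε, hε, hsub⟩ := Metric.mem_nhds_iff.1 hs
    obtain ⟨n, hn⟩ := exists_nat_one_div_lt hε
    rw [frequently_atBot]
    intro f
    obtain ⟨k1, k2⟩ := hS f.1.1 n f.1.2
    obtain ⟨g, hg, hx⟩ := k2 x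
    refine ⟨⟨⟨g, (k1 g hg).1⟩, hA _ f.2 _ f.2 (Or.inr (mem_iUnion.2 ⟨n, hg⟩))⟩, (k1 g hg).2, hsub ?_⟩
    exact hx.trans hn
  have hT' : Tendsto (fun f : A => f.1.1) atBot (𝓝 o) := he.tendsto_nhds_iff.2 hT
  have := Ac.to_subtype
  obtain ⟨y, hy⟩ := (eventually_countable_forall.2 fun f : A => f.1.2.2).exists
  have h5 := tendsto_pi_nhds.1 (tendsto_subtype_rng.1 hT') y
  simp only [hy] at h5
  exact one_ne_zero (tendsto_nhds_unique tendsto_const_nhds h5)

lemma unif_of_add {X : Type u} {Y : Type v} [TopologicalSpace X] [TopologicalSpace Y]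
    (φ : Cp Y → Cp X) (hc : Continuous φ)
    (h : ∀ f g : Cp Y, (φ ⟨f.1 + g.1, f.2.add g.2⟩).1 = (φ f).1 + (φ g).1) :
    UniformContinuous φ := by
  let V : AddSubgroup (Y → ℝ) :=
    { carrier := {f | Continuous f}
      add_mem' := fun hf hg => hf.add hg
      zero_mem' := continuous_const
      neg_mem' := fun hf => hf.neg }
  let ψ : V →+ (X → ℝ) := AddMonoidHom.mk' (fun f => (φ ⟨f.1, f.2⟩).1) fun f g => h ⟨f.1, f.2⟩ ⟨g.1, g.2⟩
  have : UniformContinuous ψ := uniformContinuous_addMonoidHom_of_continuous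
    (continuous_subtype_val.comp hc)
  exact UniformContinuous.subtype_mk (f := fun f : Cp Y => (φ f).1) this fun f => (φ f).2

end H5LU
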