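import Pool.Agent.Lib.helper5.ScpK

/-! The predual of the space of functions of bounded 2-variation on a well order. -/

open Set Filter Topology TopologicalSpace Function

namespace H5J

variable {W : Type} [LinearOrder W]

/-- `h` controls the 2-variation of `f`. -/
def Ctl (f h : W → ℝ) (r : ℝ) : Prop :=
  (∀ t, f t ^ 2 ≤ h t ∧ h t ≤ r) ∧ ∀ s t, s ≤ t → (f t - f s) ^ 2 ≤ h t - h s

lemma Ctl.smul {f h : W → ℝ} {r : ℝ} (k : Ctl f h r) (c : ℝ) :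
    Ctl (fun t => c * f t) (fun t => c ^ 2 * h t) (c ^ 2 * r) :=
  ⟨fun t => ⟨by rw [mul_pow]; exact mul_le_mul_of_nonneg_left (k.1 t).1 (sq_nonneg c),
    mul_le_mul_of_nonneg_left (k.1 t).2 (sq_nonneg c)⟩, fun s t e => by
      rw [← mul_sub, ← mul_sub, mul_pow]; exact mul_le_mul_of_nonneg_left (k.2 s t e) (sq_nonneg c)⟩

lemma Ctl.mono {f h : W → ℝ} {r r' : ℝ} (k : Ctl f h r) (e : r ≤ r') : Ctl f h r' :=
  ⟨fun t => ⟨(k.1 t).1, (k.1 t).2.trans e⟩, k.2⟩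

/-- The dual of `Z` is the space of functions of bounded 2-variation. -/
structure LJ {Z : Type} [NormedAddCommGroup Z] [NormedSpace ℝ Z] (δ : W → Z) (C : ℝ) : Prop where
  bd : ∀ t, ‖δ t‖ ≤ C
  dn : Dense ((Submodule.span ℝ (range δ) : Submodule ℝ Z) : Set Z)
  up : ∀ (y : Z →L[ℝ] ℝ) h r, 0 < r → Ctl (fun t => y (δ t)) h (r ^ 2) → ‖y‖ ≤ C * r
  ct : ∀ y : Z →L[ℝ] ℝ, ∃ h r, Ctl (fun t => y (δ t)) h r
  ex : ∀ f h r, Ctl f h r → ∃ y : Z →L[ℝ] ℝ, ∀ t, y (δ t) = f t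

lemma LJ.equiv {Z Y : Type} [NormedAddCommGroup Z] [NormedSpace ℝ Z] [NormedAddCommGroup Y]
    [NormedSpace ℝ Y] {δ : W → Z} {C : ℝ} (k : LJ δ C) (c0 : 0 ≤ C) (T : Z ≃L[ℝ] Y) :
    ∃ D, 0 ≤ D ∧ LJ (fun t => T (δ t)) D := by
  have n1 := mul_nonneg (norm_nonneg (T : Z →L[ℝ] Y)) c0
  have n2 := mul_nonneg (norm_nonneg (T.symm : Y →L[ℝ] Z)) c0
  refine ⟨_, add_nonneg n1 n2, fun t => ?_, ?_, fun y h r r0 e => ?_,
    fun y => k.ct (y ∘L (T : Z →L[ℝ] Y)), fun f h r e => ?_⟩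
  · exact (((T : Z →L[ℝ] Y).le_opNorm _).trans (mul_le_mul_of_nonneg_left (k.bd t)
      (norm_nonneg _))).trans (le_add_of_nonneg_right n2)
  · have := T.surjective.denseRange.dense_image T.continuous k.dn
    refine this.mono ?_
    rintro _ ⟨x, hx, rfl⟩
    have := Submodule.apply_mem_span_image_of_mem_span (T : Z →ₗ[ℝ] Y) hx
    rwa [← range_comp] at this
  · have := k.up (y ∘L (T : Z →L[ℝ] Y)) h r r0 e
    have e2 : y = (y ∘L (T : Z →L[ℝ] Y)) ∘L (T.symm : Y →L[ℝ] Z) := by ext; simp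
    rw [e2]
    refine (ContinuousLinearMap.opNorm_comp_le _ _).trans
      ((mul_le_mul_of_nonneg_right this (norm_nonneg _)).trans ?_)
    nlinarith [mul_nonneg n1 r0.le]
  · obtain ⟨y, hy⟩ := k.ex f h r e
    exact ⟨y ∘L (T.symm : Y →L[ℝ] Z), fun t => by simp [hy]⟩

/-- the unit ball -/
abbrev Bl (W : Type) [LinearOrder W] := {f : W → ℝ // ∃ h, Ctl f h 1}

lemma mkLJ {X : Type} [NormedAddCommGroup X] [NormedSpace ℝ X] {δ : W → X}
    (dn : Dense ((Submodule.span ℝ (range δ) : Submodule ℝ X) : Set X)) (ev : Bl W → X →L[ℝ] ℝ)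
    (e0 : ∀ g t, ev g (δ t) = g.1 t) (e1 : ∀ f x, |ev f x| ≤ ‖x‖)
    (e2 : ∀ x c, (∀ g, |ev g x| ≤ c) → ‖x‖ ≤ c) : LJ δ 1 := by
  have c1 : ∀ y : X →L[ℝ] ℝ, ‖y‖ ≤ 1 → ∃ h, Ctl (fun t => y (δ t)) h 1 := fun y hy => by
    let P := fun t => {v | ∃ x, y x = v ∧ ∀ (g : Bl W) k, Ctl g.1 k 1 → |ev g x| ≤ (v + k t) / 2}
    have p1 : ∀ t, y (δ t) ^ 2 ∈ P t := fun t => ⟨y (δ t) • δ t, by simp [sq], fun g k e => by
      rw [map_smul, e0, smul_eq_mul, abs_le]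
      constructor <;> nlinarith [(e.1 t).1, sq_nonneg (y (δ t) - g.1 t), sq_nonneg (y (δ t) + g.1 t)]⟩
    have p2 : ∀ t, ∀ v ∈ P t, v ≤ 1 := fun t v ⟨x, x1, x2⟩ => by
      have := e2 x ((v + 1) / 2) fun g => by
        obtain ⟨k, e⟩ := g.2
        exact (x2 g k e).trans (by linarith [(e.1 t).2])
      have k := (le_abs_self _).trans ((y.le_opNorm x).trans
        (mul_le_of_le_one_left (norm_nonneg _) hy))
      linarith
    refine ⟨fun t => sSup (P t), fun t => ⟨le_csSup ⟨1, p2 t⟩ (p1 t), csSup_le ⟨_, p1 t⟩ (p2 t)⟩,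
      fun s t e => le_sub_comm.1 (csSup_le ⟨_, p1 s⟩ fun v ⟨x, x1, x2⟩ => le_sub_iff_add_le.2
        (le_csSup ⟨1, p2 t⟩ ⟨x + (y (δ t) - y (δ s)) • (δ t - δ s), by simp [x1, sq],
          fun g k e' => ?_⟩))⟩
    rw [map_add, map_smul, map_sub, e0, e0, smul_eq_mul, abs_le]
    have := abs_le.1 (x2 g k e')
    constructor <;> nlinarith [e'.2 s t e, sq_nonneg (y (δ t) - y (δ s) - (g.1 t - g.1 s)),
      sq_nonneg (y (δ t) - y (δ s) + (g.1 t - g.1 s))]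
  have c2 : ∀ f h r, 0 < r → Ctl f h (r ^ 2) →
      ∃ y : X →L[ℝ] ℝ, ‖y‖ ≤ 1 * r ∧ ∀ t, y (δ t) = f t := fun f h r r0 e => by
    have := e.smul r⁻¹
    rw [← mul_pow, inv_mul_cancel₀ r0.ne', one_pow] at this
    refine ⟨r • ev ⟨_, _, this⟩, ContinuousLinearMap.opNorm_le_bound _ (by positivity) fun x => ?_,
      fun t => by rw [smul_apply, e0]; exact mul_inv_cancel_left₀ r0.ne' _⟩
    rw [smul_apply, norm_smul, one_mul, Real.norm_of_nonneg r0.le]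
    exact mul_le_mul_of_nonneg_left (e1 _ x) r0.le
  refine ⟨fun t => e2 _ _ fun g => ?_, dn, fun y h r r0 e => ?_, fun y => ?_, fun f h r e => ?_⟩
  · obtain ⟨h, k⟩ := g.2
    rw [e0]
    exact (sq_le_one_iff_abs_le_one _).1 ((k.1 t).1.trans (k.1 t).2)
  · obtain ⟨z, z1, z2⟩ := c2 _ h r r0 e
    rwa [ContinuousLinearMap.ext_on dn (f := y) (g := z) (forall_mem_range.2 fun t => (z2 t).symm)]
  · have p : 0 < ‖y‖ + 1 := by positivity
    obtain ⟨h, k⟩ := c1 ((‖y‖ + 1)⁻¹ • y) (by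
      rw [norm_smul, Real.norm_of_nonneg (inv_nonneg.2 p.le), inv_mul_le_iff₀ p]; linarith)
    have := k.smul (‖y‖ + 1)
    simp only [smul_apply, smul_eq_mul, mul_inv_cancel_left₀ p.ne'] at this
    exact ⟨_, _, this⟩
  · obtain ⟨y, -, k⟩ := c2 f h (|r| + 1) (by positivity) (e.mono (by
      nlinarith [le_abs_self r, abs_nonneg r]))
    exact ⟨y, k⟩

lemma subLJ {E : Type} [NormedAddCommGroup E] [NormedSpace ℝ E] [CompleteSpace E] (d : W → E)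
    (ev : Bl W → E →L[ℝ] ℝ) (e0 : ∀ g t, ev g (d t) = g.1 t) (e1 : ∀ f x, |ev f x| ≤ ‖x‖)
    (e2 : ∀ x c, (∀ g, |ev g x| ≤ c) → ‖x‖ ≤ c) :
    ∃ (Z : Type) (_ : NormedAddCommGroup Z) (_ : NormedSpace ℝ Z) (δ : W → Z),
      CompleteSpace Z ∧ LJ δ 1 := by
  let X := (Submodule.span ℝ (range d)).topologicalClosure
  let δ : W → X := fun t => ⟨d t, Submodule.le_topologicalClosure _ (Submodule.subset_span ⟨t, rfl⟩)⟩
  refine ⟨X, inferInstance, inferInstance, δ, inferInstance, mkLJ ?_ (fun g => ev g ∘L X.subtypeL)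
    e0 (fun g x => e1 g x) fun x => e2 x⟩
  rw [Subtype.dense_iff]
  refine closure_mono (s := ((Submodule.span ℝ (range d) : Submodule ℝ E) : Set E)) ?_
  rw [show range d = X.subtype '' range δ from range_comp X.subtype δ, ← Submodule.map_span]
  rfl

variable (W) in
theorem exLJ : ∃ (Z : Type) (_ : NormedAddCommGroup Z) (_ : NormedSpace ℝ Z) (δ : W → Z),
    CompleteSpace Z ∧ LJ δ 1 := by
  have : Nonempty (Bl W) := ⟨⟨0, 0, fun _ => by simp, fun _ _ _ => by simp⟩⟩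
  exact subLJ (E := BoundedContinuousFunction (Bl W) ℝ) (fun t =>
    BoundedContinuousFunction.ofNormedAddCommGroup (fun f => f.1 t)
      ((continuous_apply t).comp continuous_subtype_val) 1 fun f => by
        obtain ⟨h, k⟩ := f.2
        exact (sq_le_one_iff_abs_le_one _).1 ((k.1 t).1.trans (k.1 t).2))
    (BoundedContinuousFunction.evalCLM ℝ) (fun _ _ => rfl) (fun g x => x.norm_coe_le_norm g)
    fun x c h => (BoundedContinuousFunction.norm_le_of_nonempty (f := x)).2 h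

end H5J
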