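import Pool.Agent.Lib.helper5.ValLine
import Pool.Agent.Lib.helper5.Velick

/-! `C[0, ω₂]` does not embed into a Plichko space. -/

open Cardinal hiding univ
open Set Filter Topology TopologicalSpace Function

namespace H5N

open H5L

theorem core {X W : Type} [NormedAddCommGroup X] [NormedSpace ℝ X] [LinearOrder W]
    (w1 : ℵ₁ < #W) (w2 : ∀ a : W, #(Iic a) ≤ ℵ₁) {M : Set X}
    (hM : Dense ((Submodule.span ℝ M : Submodule ℝ X) : Set X)) {c : ℝ} (hc : 0 < c)
    (hN : ∀ x : X, ∃ f : X →L[ℝ] ℝ, {m ∈ M | f m ≠ 0}.Countable ∧ ‖f‖ ≤ 1 ∧ c * ‖x‖ ≤ |f x|)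
    (x : W → X) {C d : ℝ} (hd : 0 < d)
    (h1 : ∀ (a b : ℕ → W) m, (∀ i, a i ≤ b i) → (∀ i, b i ≤ a (i + 1)) →
      ‖∑ i ∈ Finset.range m, (x (b i) - x (a i))‖ ≤ C)
    (h2 : ∀ (a : ℕ → W) m, StrictMono a →
      d * m ≤ ‖∑ i ∈ Finset.range m, (x (a (i + m)) - x (a i))‖) : False := by
  classical
  have hε : 0 < c * d / 8 := by positivity
  choose y y1 y2 using fun a => hM.exists_dist_lt (x a) hε
  choose k F F1 _ F2 using fun a => Submodule.mem_span_iff_exists_finset_subset.1 (y1 a)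
  obtain ⟨n, k1⟩ := pig (S := univ) (by simpa using w1) fun a => (F a).card
  obtain ⟨T, -, G, t2, t3⟩ := delta n F _ k1 fun a h => h.2.le
  obtain ⟨t, t4, t5⟩ := (G.finite_toSet.isSeparable).span (R := ℝ)
  let z := fun a => ∑ m ∈ (F a).filter (· ∈ G), k a m • m
  choose q q1 q2 using fun a => Metric.mem_closure_iff.1 (t5 (show z a ∈ Submodule.span ℝ (G : Set X)
    from Submodule.sum_mem _ fun m h => Submodule.smul_mem _ _ (Submodule.subset_span
      (Finset.mem_filter.1 h).2))) _ hε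
  have := t4.to_subtype
  obtain ⟨r, hr⟩ := pig t2 fun a => (⟨q a, q1 a⟩ : t)
  set S := {i ∈ T | (⟨q i, q1 i⟩ : t) = r}
  have : ∀ a, ∃ b, a < b ∧ ¬ {c ∈ S ∩ Ioi a | c ≤ b}.Countable := fun a => by
    by_contra! hn
    exact hr.not_ge ((mk_le_mk_of_subset fun b hb => (le_or_gt b a).imp id fun h =>
      ⟨⟨hb, h⟩, hn b h⟩).trans (un2 (w2 a) (lo (S ∩ Ioi a))))
  choose nx n1 n2 using this
  obtain ⟨a0⟩ : Nonempty W := mk_ne_zero_iff.1 (zero_le.trans_lt w1).ne'
  let a := fun i => nx^[i] a0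
  have e : ∀ i, a (i + 1) = nx (a i) := fun i => iterate_succ_apply' _ _ _
  obtain ⟨m, hm⟩ := exists_nat_gt (4 * C / (c * d))
  obtain ⟨f, f1, f2, f3⟩ := hN (∑ i ∈ Finset.range m, (x (a (i + m)) - x (a i)))
  have fb : ∀ v, |f v| ≤ ‖v‖ := fun v => (f.le_opNorm v).trans
    (mul_le_of_le_one_left (norm_nonneg _) f2)
  let B := ⋃ γ ∈ {m ∈ M | f m ≠ 0} \ G, {i ∈ T | γ ∈ F i}
  have hB : B.Countable := (f1.mono sdiff_subset).biUnion fun γ h => (t3 γ h.2).countable
  choose b b1 b2 using fun i => not_subset.1 fun h => n2 (a i) (hB.mono h)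
  have b3 : ∀ i, |f (x (b i)) - f r| ≤ c * d / 4 := fun i => by
    have k1 : f (y (b i)) = f (z (b i)) := by
      simp only [z]
      rw [← F2, Finset.sum_filter, map_sum, map_sum]
      refine Finset.sum_congr rfl fun v hv => ?_
      split_ifs with h
      · rfl
      · rw [map_smul, show f v = 0 from by_contra fun n => b2 i (mem_biUnion ⟨⟨F1 _ hv, n⟩, h⟩
          ⟨(b1 i).1.1.1, hv⟩), smul_zero, map_zero]
    have k2 := fb (x (b i) - y (b i))
    have k3 := fb (z (b i) - r)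
    have k4 := q2 (b i)
    rw [show q (b i) = r from congrArg Subtype.val (b1 i).1.1.2] at k4
    have k5 := y2 (b i)
    rw [dist_eq_norm] at k4 k5
    rw [map_sub] at k2 k3
    rw [k1] at k2
    linarith [abs_sub_le (f (x (b i))) (f (z (b i))) (f r)]
  have p := fun j => (fb _).trans (h1 (fun i => a (i + j)) (fun i => b (i + j)) m
    (fun i => (b1 _).1.2.le) fun i => by rw [add_right_comm, e]; exact (b1 _).2)
  have p1 : |∑ i ∈ Finset.range m, (f (x (b (i + m))) - f (x (b i)))| ≤ m * (c * d / 2) :=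
    (Finset.abs_sum_le_sum_abs _ _).trans ((Finset.sum_le_card_nsmul _ _ (c * d / 2) fun i _ => by
      linarith [abs_sub_le (f (x (b (i + m)))) (f r) (f (x (b i))), b3 (i + m), b3 i,
        abs_sub_comm (f r) (f (x (b i)))]).trans_eq (by simp))
  have p2 := mul_le_mul_of_nonneg_left (h2 a m (strictMono_nat_of_lt_succ fun i =>
    e i ▸ n1 _)) hc.le
  have p3 := abs_le.1 (p 0)
  have p4 := abs_le.1 (p m)
  simp only [map_sum, map_sub, Finset.sum_sub_distrib, add_zero] at p1 p3 p4 f3 p2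
  rw [div_lt_iff₀ (by positivity)] at hm
  have := abs_le.1 p1
  rcases le_abs.1 (p2.trans f3) with h | h <;> nlinarith

theorem main {X : Type} [NormedAddCommGroup X] [NormedSpace ℝ X] {M : Set X}
    (hM : Dense ((Submodule.span ℝ M : Submodule ℝ X) : Set X)) {c : ℝ} (hc : 0 < c)
    (hN : ∀ x : X, ∃ f : X →L[ℝ] ℝ, {m ∈ M | f m ≠ 0}.Countable ∧ ‖f‖ ≤ 1 ∧ c * ‖x‖ ≤ |f x|)
    {η : Ordinal.{0}} (hη : (aleph 2).ord ≤ η)
    (T : BoundedContinuousFunction (Iic η) ℝ →L[ℝ] X) {d : ℝ} (hd : 0 < d)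
    (hT : ∀ g, d * ‖g‖ ≤ ‖T g‖) : False := by
  have l1 := aleph0_lt_aleph_one.le
  have e : Order.succ ℵ₁ = aleph.{0} 2 := by rw [succ_aleph, one_add_one_eq_two]
  let o : (Order.succ ℵ₁).ord.ToType → Iic η := fun a =>
    ⟨a.toOrd, mem_Iic.2 (((mem_Iio.1 a.toOrd.2).trans_eq (congrArg ord e)).le.trans hη)⟩
  have o1 : StrictMono o := fun a b h => Ordinal.ToType.mk.symm.strictMono h
  have o2 : ∀ a : Iic η, IsClopen (Iic a) := fun a => ⟨isClosed_Iic, by
    have := (isOpen_Iio (a := Order.succ a.1)).preimage (continuous_subtype_val (p := (· ∈ Iic η)))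
    rwa [Order.Iio_succ] at this⟩
  let χ := fun a => BoundedContinuousFunction.indicator _ (o2 (o a))
  have χ1 : ∀ a b, a ≤ b → ∀ p, χ a p ≤ χ b p := fun a b h p =>
    indicator_le_indicator_of_subset (Iic_subset_Iic.2 (o1.monotone h)) (fun _ => zero_le_one) p
  refine core (by simp) (H5V.sm l1) hM hc hN (fun a => T (χ a)) (C := ‖T‖) hd
    (fun a b m h1 h2 => ?_) fun a m h => ?_
  · simp only [← map_sub, ← map_sum]
    refine (T.le_opNorm _).trans (mul_le_of_le_one_right (norm_nonneg _)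
      ((BoundedContinuousFunction.norm_le zero_le_one).2 fun p => ?_))
    simp only [BoundedContinuousFunction.sum_apply, BoundedContinuousFunction.sub_apply]
    rw [Real.norm_of_nonneg (Finset.sum_nonneg fun i _ => sub_nonneg.2 (χ1 _ _ (h1 i) p))]
    refine (Finset.sum_le_sum fun i _ => sub_le_sub_right (χ1 _ _ (h2 i) p) _).trans ?_
    rw [Finset.sum_range_sub fun i => χ (a i) p]
    have : ∀ a, χ a p ∈ Icc (0 : ℝ) 1 := fun a => by
      by_cases h : p ≤ o a <;> simp [χ, h]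
    linarith [(this (a m)).2, (this (a 0)).1]
  · simp only [← map_sub, ← map_sum]
    refine le_trans (mul_le_mul_of_nonneg_left (le_trans ?_
      (BoundedContinuousFunction.norm_coe_le_norm _ (o (a m)))) hd.le) (hT _)
    simp only [BoundedContinuousFunction.sum_apply, BoundedContinuousFunction.sub_apply]
    rw [Finset.sum_congr rfl (g := fun _ => 1) fun i hi => by
      simp [χ, o1.le_iff_le, h.le_iff_le, Finset.mem_range.1 hi]]
    simp

end H5N
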