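import Pool.Agent.Lib.helper5.LongJ
import Pool.Agent.Lib.helper5.NoPl

/-! The long James space over `ω₂`. -/

open Set Filter Topology TopologicalSpace Function

namespace H5J

variable {W : Type} [LinearOrder W] {Z : Type} [NormedAddCommGroup Z] [NormedSpace ℝ Z]
  {δ : W → Z} {C : ℝ}

/-- `ψ a` is the indicator of `[a, ∞)`. -/
def Ind (δ : W → Z) (ψ : WithTop W → Z →L[ℝ] ℝ) : Prop :=
  ∀ a t, ψ a (δ t) = if a ≤ t then 1 else 0

lemma ctl_ind (a : WithTop W) : Ctl (fun t : W => if a ≤ t then (1 : ℝ) else 0)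
    (fun t => if a ≤ t then 1 else 0) 1 :=
  ⟨fun t => by beta_reduce; split_ifs <;> simp, fun s t e => by
    beta_reduce
    split_ifs with h1 h2 h2
    · simp
    · simp
    · exact (h1 (h2.trans (WithTop.coe_le_coe.2 e))).elim
    · simp⟩

lemma LJ.ind (k : LJ δ C) : ∃ ψ, Ind δ ψ := by
  choose ψ h using fun a => k.ex _ _ _ (ctl_ind a)
  exact ⟨ψ, h⟩

variable (k : LJ δ C) {ψ : WithTop W → Z →L[ℝ] ℝ} (hψ : Ind δ ψ)
include k hψ

lemma LJ.nψ (a) : ‖ψ a‖ ≤ C := by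
  simpa using k.up (ψ a) _ 1 one_pos (by simpa [hψ a] using ctl_ind a)

lemma LJ.dense [WellFoundedLT W] :
    Dense ((Submodule.span ℝ (range ψ) : Submodule ℝ (Z →L[ℝ] ℝ)) : Set (Z →L[ℝ] ℝ)) := fun y => by
  obtain ⟨h, r, e⟩ := k.ct y
  simp only [Ctl] at e
  let S := (Submodule.span ℝ (range ψ)).topologicalClosure
  have hS : ∀ a, ψ a ∈ S := fun a =>
    Submodule.le_topologicalClosure _ (Submodule.subset_span ⟨a, rfl⟩)
  have m : ∀ s t, s ≤ t → h s ≤ h t := fun s t l => sub_nonneg.1 ((sq_nonneg _).trans (e.2 s t l))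
  have : ∀ a : WithTop W, ∀ z : Z →L[ℝ] ℝ, (∀ t, z (δ t) = if a ≤ t then 0 else y (δ t)) →
      z ∈ S := fun a => by
    refine wellFounded_lt.induction a (C := fun a : WithTop W => ∀ z : Z →L[ℝ] ℝ,
      (∀ t, z (δ t) = if a ≤ t then 0 else y (δ t)) → z ∈ S) fun a ih z hz => ?_
    by_cases a0 : ∀ t : W, a ≤ t
    · rw [ContinuousLinearMap.ext_on k.dn (f := z) (g := 0) (forall_mem_range.2 fun t => by
        rw [hz, if_pos (a0 t), zero_apply])]
      exact zero_mem _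
    obtain ⟨t0, a0⟩ := not_forall.1 a0
    refine (Submodule.isClosed_topologicalClosure _).closure_subset
      (Metric.mem_closure_iff.2 fun ε hε => ?_)
    obtain ⟨η, h0, h1⟩ := exists_pos_mul_lt hε (C * 2)
    have b0 : BddAbove (h '' {t | ¬ a ≤ t}) := ⟨r, forall_mem_image.2 fun t _ => (e.1 t).2⟩
    obtain ⟨_, ⟨β, b1, rfl⟩, b2⟩ := exists_lt_of_lt_csSup (s := h '' {t | ¬ a ≤ t})
      ⟨_, t0, a0, rfl⟩ (sub_lt_self _ (pow_pos h0 2))
    have b3 : ∀ t : W, ¬ a ≤ t → h t - h β ≤ η ^ 2 := fun t ht => by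
      linarith [le_csSup b0 ⟨t, ht, rfl⟩]
    obtain ⟨w, hw⟩ := k.ex (fun t => if β ≤ t then 0 else y (δ t))
      (fun t => if β ≤ t then 2 * r else h t) (2 * r) ⟨fun t => by
        have := e.1 t
        beta_reduce
        split_ifs <;> constructor <;> nlinarith [sq_nonneg (y (δ t))], fun s t l => by
          beta_reduce
          split_ifs with h1 h2 h2
          · simp
          · nlinarith [e.1 s]
          · exact (h1 (h2.trans l)).elim
          · exact e.2 s t l⟩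
    refine ⟨w + y (δ β) • (ψ β - ψ a), add_mem (ih β (not_le.1 b1) w (by simpa using hw))
      (S.smul_mem _ (sub_mem (hS _) (hS _))), ?_⟩
    rw [dist_eq_norm]
    refine (k.up _ (fun t => if a ≤ t then 2 * η ^ 2 else if β ≤ t then h t - h β else 0)
      (2 * η) (by positivity) ?_).trans_lt (by linarith)
    have ab : ∀ t : W, a ≤ t → β ≤ t := fun t l => WithTop.coe_le_coe.1 ((not_le.1 b1).le.trans l)
    have : (fun t => (z - (w + y (δ β) • (ψ β - ψ a))) (δ t)) = fun t : W =>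
        if a ≤ t then 0 else if β ≤ t then y (δ t) - y (δ β) else 0 := funext fun t => by
      simp only [sub_apply, add_apply, smul_apply, hz, hw, hψ _ t, WithTop.coe_le_coe]
      split_ifs with h1 h2 h2
      · simp
      · exact (h2 (ab t h1)).elim
      · simp
      · simp
    rw [this]
    have η2 := sq_nonneg η
    refine ⟨fun t => ?_, fun s t l => ?_⟩
    · beta_reduce
      split_ifs with h1 h2
      · constructor <;> nlinarith
      · exact ⟨e.2 β t h2, by nlinarith [b3 t h1]⟩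
      · constructor <;> nlinarith
    · beta_reduce
      split_ifs with h1 h2 h3 h2 h3 h4 h4 h5
      · simp
      · nlinarith [b3 s h2, e.2 β s h3]
      · nlinarith
      · exact (h1 (h3.trans (WithTop.coe_le_coe.2 l))).elim
      · nlinarith [e.2 s t l]
      · simpa using e.2 β t h2
      · exact (h1 (h4.trans (WithTop.coe_le_coe.2 l))).elim
      · exact (h2 (h5.trans l)).elim
      · simp
  exact this ⊤ y (by simp)

lemma LJ.asp [WellFoundedLT W] (Y : Submodule ℝ Z) (hY : IsSeparable (Y : Set Z)) :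
    SeparableSpace (Y →L[ℝ] ℝ) := by
  obtain ⟨L, l1, l2⟩ := H5B.sepgen δ hY fun x _ => k.dn x
  let ρ : (Z →L[ℝ] ℝ) →L[ℝ] (Y →L[ℝ] ℝ) := (ContinuousLinearMap.compL ℝ Y Z ℝ).flip Y.subtypeL
  have r1 : DenseRange ρ := Surjective.denseRange fun f => by
    obtain ⟨g, hg, -⟩ := exists_extension_norm_eq Y f
    exact ⟨g, ContinuousLinearMap.ext hg⟩
  let L' : Set (WithTop W) := insert ⊤ ((↑) '' L)
  have r2 : range (ρ ∘ ψ) ⊆ (ρ ∘ ψ) '' L' := by
    rintro _ ⟨a, rfl⟩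
    obtain ⟨c, c1, c2⟩ := wellFounded_lt.has_min {c ∈ L' | a ≤ c} ⟨⊤, mem_insert _ _, le_top⟩
    refine ⟨c, c1.1, ContinuousLinearMap.ext fun x => H5B.gen (T := LinearMap.eqLocus
      (ψ c : Z →ₗ[ℝ] ℝ) (ψ a)) (isClosed_eq (ψ c).continuous (ψ a).continuous) ?_ (l2 x.2)⟩
    rintro _ ⟨t, ht, rfl⟩
    show ψ c (δ t) = ψ a (δ t)
    rw [hψ, hψ, if_congr ⟨c1.2.trans, fun h => not_lt.1 (c2 _ ⟨Or.inr ⟨t, ht, rfl⟩, h⟩)⟩ rfl rfl]
  have r3 := ((((l1.image _).insert _).image _).mono r2).isSeparable.span (R := ℝ)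
  refine isSeparable_univ_iff.1 (r3.closure.mono fun f _ =>
    (r1.dense_image ρ.continuous (k.dense hψ)).mono ?_ f)
  rintro _ ⟨x, hx, rfl⟩
  have := Submodule.apply_mem_span_image_of_mem_span (ρ : (Z →L[ℝ] ℝ) →ₗ[ℝ] (Y →L[ℝ] ℝ)) hx
  rwa [← range_comp] at this

/-- step functions with `n` steps -/
def St (δ : W → Z) (s : WithTop W) (n : ℕ) (y : Z →L[ℝ] ℝ) : Prop :=
  (∀ t, |y (δ t)| ≤ 1) ∧ (∀ t : W, s ≤ t → y (δ t) = 0) ∧ ∃ h, Ctl (fun t => y (δ t)) h (5 * n)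

omit k hψ in
lemma St.zero (s) : St δ s 0 0 := ⟨by simp, by simp, 0, by simp [Ctl]⟩

omit k in
lemma St.step {s a b n y} {σ : ℝ} (e : St δ s n y) (h1 : s ≤ a) (h2 : a ≤ b) (h3 : |σ| ≤ 1) :
    St δ b (n + 1) (y + σ • (ψ a - ψ b)) := by
  obtain ⟨e1, e2, h, e3, e4⟩ := e
  have : ∀ t, (y + σ • (ψ a - ψ b)) (δ t) = if b ≤ t then 0 else if a ≤ t then σ else y (δ t) :=
    fun t => by
      simp only [add_apply, smul_apply, sub_apply, hψ _ t]
      split_ifs with k1 k2 k2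
      · simp [e2 t (h1.trans k1)]
      · simp [e2 t (h1.trans k1)]
      · exact (k1 (h2.trans k2)).elim
      · simp
  simp only [St, this]
  have s1 := abs_le.1 h3
  refine ⟨fun t => ?_, fun t ht => if_pos ht, fun t => h t + if b ≤ t then 5 else
    if a ≤ t then 4 else 0, fun t => ?_, fun u t l => ?_⟩
  · split_ifs
    exacts [by simp, h3, e1 t]
  · have := e3 t
    have := sq_nonneg (y (δ t))
    beta_reduce at *
    push_cast
    split_ifs <;> constructor <;> nlinarith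
  · have := e4 u t l
    have := sq_nonneg (y (δ t) - y (δ u))
    have := abs_le.1 (e1 u)
    have l' := WithTop.coe_le_coe.2 l
    beta_reduce at *
    split_ifs with k1 k2 k3 k2 k3 k4 k4 k5
    · nlinarith
    · nlinarith
    · nlinarith
    · exact (k1 (k3.trans l')).elim
    · nlinarith
    · nlinarith
    · exact (k1 (k4.trans l')).elim
    · exact (k2 (k5.trans l')).elim
    · linarith

omit hψ in
lemma LJ.st {s m y} (m0 : 0 < m) (e : St δ s (5 * m ^ 2) y) : ‖y‖ ≤ C * (5 * m) := by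
  obtain ⟨h, e⟩ := e.2.2
  exact k.up y h _ (by positivity) (e.mono (by push_cast; linarith))

lemma LJ.frag [WellFoundedLT W] {K : Type} [TopologicalSpace K]
    {p : K → (Z →L[ℝ] ℝ) →L[ℝ] ℝ} (p1 : ∀ y, Continuous fun x => p x y) (p2 : ∀ x, ‖p x‖ ≤ 1)
    {L : Set K} (hL : L.Nonempty) {η : ℝ} (h0 : 0 < η) : ∃ U, IsOpen U ∧ (U ∩ L).Nonempty ∧
      ∀ x ∈ U ∩ L, ∀ y ∈ U ∩ L, ∀ a, |p x (ψ a) - p y (ψ a)| ≤ η := by
  by_contra! hn
  have o : ∀ y c, IsOpen {x | |p x y - c| < η / 4} := fun y c =>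
    isOpen_lt ((p1 y).sub continuous_const).abs continuous_const
  have : ∀ n : ℕ, ∃ U s y, IsOpen U ∧ (U ∩ L).Nonempty ∧
      (∀ a < s, ∀ F ∈ U ∩ L, ∀ G ∈ U ∩ L, |p F (ψ a) - p G (ψ a)| ≤ η) ∧
      (∃ c, ∀ F ∈ U ∩ L, |p F (ψ s) - c| < η / 4) ∧ (∀ F ∈ U ∩ L, n * (η / 4) ≤ p F y) ∧
      St δ s n y := fun n => by
    induction n with
    | zero =>
      obtain ⟨s, -, hs⟩ := wellFounded_lt.has_min (univ : Set (WithTop W)) ⟨⊤, trivial⟩
      obtain ⟨x, hx⟩ := hL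
      exact ⟨_, s, 0, o (ψ s) (p x (ψ s)), ⟨x, by simpa using h0, hx⟩,
        fun a h => (hs a trivial h).elim, ⟨_, fun F h => h.1⟩, by simp, St.zero s⟩
    | succ n ih =>
      obtain ⟨U, s, y, u1, u2, u3, ⟨c, u4⟩, u5, u6⟩ := ih
      obtain ⟨t, ⟨F, f1, G, g1, t1⟩, t2⟩ := wellFounded_lt.has_min
        {a | ∃ F ∈ U ∩ L, ∃ G ∈ U ∩ L, η < |p F (ψ a) - p G (ψ a)|} (by
          obtain ⟨x, x1, y, y1, a, h⟩ := hn U u1 u2
          exact ⟨a, x, x1, y, y1, h⟩)
      have : ∃ H ∈ U ∩ L, ∃ σ : ℝ, |σ| ≤ 1 ∧ η / 4 < p H (σ • (ψ s - ψ t)) := by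
        by_contra! hc
        have a1 := hc F f1 1 (by simp)
        have a2 := hc F f1 (-1) (by simp)
        have a3 := hc G g1 1 (by simp)
        have a4 := hc G g1 (-1) (by simp)
        have a5 := abs_lt.1 (u4 F f1)
        have a6 := abs_lt.1 (u4 G g1)
        simp only [map_smul, map_sub, smul_eq_mul] at a1 a2 a3 a4
        rcases lt_abs.1 t1 with h | h <;> linarith
      obtain ⟨H, h1, σ, h2, h3⟩ := this
      refine ⟨(U ∩ {x | η / 4 < p x (σ • (ψ s - ψ t))}) ∩ {x | |p x (ψ t) - p H (ψ t)| < η / 4},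
        t, _, (u1.inter (isOpen_lt continuous_const (p1 _))).inter (o _ _),
        ⟨H, ⟨⟨h1.1, h3⟩, by simpa using h0⟩, h1.2⟩, fun a ha x hx z hz => not_lt.1 fun h =>
          t2 a ⟨x, ⟨hx.1.1.1, hx.2⟩, z, ⟨hz.1.1.1, hz.2⟩, h⟩ ha, ⟨_, fun x hx => hx.1.2⟩,
        fun x hx => ?_, u6.step hψ le_rfl (not_lt.1 fun h => (u3 t h F f1 G g1).not_gt t1) h2⟩
      have a1 := u5 x ⟨hx.1.1.1, hx.2⟩
      have a2 : η / 4 < _ := hx.1.1.2
      rw [map_add]
      push_cast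
      linarith
  obtain ⟨m, hm⟩ := exists_nat_gt (4 * |C| / η)
  have m0 : (0 : ℝ) < m := lt_of_le_of_lt (by positivity) hm
  obtain ⟨U, s, y, -, ⟨x, hx⟩, -, -, u5, u6⟩ := this (5 * m ^ 2)
  have := (u5 x hx).trans ((le_abs_self _).trans (((p x).le_opNorm y).trans
    ((mul_le_of_le_one_left (norm_nonneg _) (p2 x)).trans (k.st (Nat.cast_pos.1 m0) u6))))
  rw [div_lt_iff₀ h0] at hm
  push_cast at this
  nlinarith [mul_lt_mul_of_pos_left hm m0, mul_le_mul_of_nonneg_left (le_abs_self C) m0.le]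

end H5J
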