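import Pool.Agent.Lib.helper5.LongK

/-! The long James space over `ω₂`: the bidual ball is not Valdivia, the dual is not Plichko. -/

open Cardinal hiding univ
open Set Filter Topology TopologicalSpace Function

namespace H5J

open H5L

theorem core {X W : Type} [NormedAddCommGroup X] [NormedSpace ℝ X] [LinearOrder W]
    (w1 : ℵ₁ < #W) (w2 : ∀ a : W, #(Iic a) ≤ ℵ₁) {M : Set X}
    (hM : Dense ((Submodule.span ℝ M : Submodule ℝ X) : Set X)) {c : ℝ} (hc : 0 < c)
    (hN : ∀ x : X, ∃ f : X →L[ℝ] ℝ, {m ∈ M | f m ≠ 0}.Countable ∧ ‖f‖ ≤ 1 ∧ c * ‖x‖ ≤ |f x|)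
    (x : W → X) {C d : ℝ} (hd : 0 < d) (m : ℕ) (hm : 4 * C < m * (c * d))
    (h1 : ∀ (a b : ℕ → W), (∀ i, a i ≤ b i) → (∀ i, b i ≤ a (i + 1)) →
      ‖∑ i ∈ Finset.range m, (x (b i) - x (a i))‖ ≤ C)
    (h2 : ∀ (a : ℕ → W), StrictMono a →
      d * m ≤ ‖∑ i ∈ Finset.range m, (x (a (i + m)) - x (a i))‖) : False := by
  classical
  have hε : 0 < c * d / 8 := by positivity
  choose y y1 y2 using fun a => hM.exists_dist_lt (x a) hε
  choose k F F1 _ F2 using fun a => Submodule.mem_span_iff_exists_finset_subset.1 (y1 a)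
  obtain ⟨n, k1⟩ := pig (S := univ) (by simpa using w1) fun a => (F a).card
  obtain ⟨T, -, G, t2, t3⟩ := delta n F _ k1 fun a h => h.2.le
  obtain ⟨t, t4, t5⟩ := (G.finite_toSet.isSeparable).span (R := ℝ)
  let z := fun a => ∑ m ∈ (F a).filter (· ∈ G), k a m • m
  choose q q1 q2 using fun a => Metric.mem_closure_iff.1 (t5 (show z a ∈ Submodule.span ℝ (G : Set X)
    from Submodule.sum_mem _ fun m h => Submodule.smul_mem _ _ (Submodule.subset_span
      (Finset.mem_filter.1 h).2))) _ hε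
  have := t4.to_subtype
  obtain ⟨r, hr⟩ := pig t2 fun a => (⟨q a, q1 a⟩ : t)
  set S := {i ∈ T | (⟨q i, q1 i⟩ : t) = r}
  have : ∀ a, ∃ b, a < b ∧ ¬ {c ∈ S ∩ Ioi a | c ≤ b}.Countable := fun a => by
    by_contra! hn
    exact hr.not_ge ((mk_le_mk_of_subset fun b hb => (le_or_gt b a).imp id fun h =>
      ⟨⟨hb, h⟩, hn b h⟩).trans (un2 (w2 a) (lo (S ∩ Ioi a))))
  choose nx n1 n2 using this
  obtain ⟨a0⟩ : Nonempty W := mk_ne_zero_iff.1 (zero_le.trans_lt w1).ne'
  let a := fun i => nx^[i] a0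
  have e : ∀ i, a (i + 1) = nx (a i) := fun i => iterate_succ_apply' _ _ _
  obtain ⟨f, f1, f2, f3⟩ := hN (∑ i ∈ Finset.range m, (x (a (i + m)) - x (a i)))
  have fb : ∀ v, |f v| ≤ ‖v‖ := fun v => (f.le_opNorm v).trans
    (mul_le_of_le_one_left (norm_nonneg _) f2)
  let B := ⋃ γ ∈ {m ∈ M | f m ≠ 0} \ G, {i ∈ T | γ ∈ F i}
  have hB : B.Countable := (f1.mono sdiff_subset).biUnion fun γ h => (t3 γ h.2).countable
  choose b b1 b2 using fun i => not_subset.1 fun h => n2 (a i) (hB.mono h)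
  have b3 : ∀ i, |f (x (b i)) - f r| ≤ c * d / 4 := fun i => by
    have k1 : f (y (b i)) = f (z (b i)) := by
      simp only [z]
      rw [← F2, Finset.sum_filter, map_sum, map_sum]
      refine Finset.sum_congr rfl fun v hv => ?_
      split_ifs with h
      · rfl
      · rw [map_smul, show f v = 0 from by_contra fun n => b2 i (mem_biUnion ⟨⟨F1 _ hv, n⟩, h⟩
          ⟨(b1 i).1.1.1, hv⟩), smul_zero, map_zero]
    have k2 := fb (x (b i) - y (b i))
    have k3 := fb (z (b i) - r)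
    have k4 := q2 (b i)
    rw [show q (b i) = r from congrArg Subtype.val (b1 i).1.1.2] at k4
    have k5 := y2 (b i)
    rw [dist_eq_norm] at k4 k5
    rw [map_sub] at k2 k3
    rw [k1] at k2
    linarith [abs_sub_le (f (x (b i))) (f (z (b i))) (f r)]
  have p := fun j => (fb _).trans (h1 (fun i => a (i + j)) (fun i => b (i + j))
    (fun i => (b1 _).1.2.le) fun i => by rw [add_right_comm, e]; exact (b1 _).2)
  have p1 : |∑ i ∈ Finset.range m, (f (x (b (i + m))) - f (x (b i)))| ≤ m * (c * d / 2) :=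
    (Finset.abs_sum_le_sum_abs _ _).trans ((Finset.sum_le_card_nsmul _ _ (c * d / 2) fun i _ => by
      linarith [abs_sub_le (f (x (b (i + m)))) (f r) (f (x (b i))), b3 (i + m), b3 i,
        abs_sub_comm (f r) (f (x (b i)))]).trans_eq (by simp))
  have p2 := mul_le_mul_of_nonneg_left (h2 a (strictMono_nat_of_lt_succ fun i =>
    e i ▸ n1 _)) hc.le
  have p3 := abs_le.1 (p 0)
  have p4 := abs_le.1 (p m)
  simp only [map_sum, map_sub, Finset.sum_sub_distrib, add_zero] at p1 p3 p4 f3 p2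
  have := abs_le.1 p1
  rcases le_abs.1 (p2.trans f3) with h | h <;> nlinarith

variable {W : Type} [LinearOrder W] {Z : Type} [NormedAddCommGroup Z] [NormedSpace ℝ Z]
  {δ : W → Z} {C : ℝ} (k : LJ δ C) (c0 : 0 ≤ C)
include k c0

theorem LJ.nopl (w1 : ℵ₁ < #W) (w2 : ∀ a : W, #(Iic a) ≤ ℵ₁) {M : Set (Z →L[ℝ] ℝ)}
    (hM : Dense ((Submodule.span ℝ M : Submodule ℝ (Z →L[ℝ] ℝ)) : Set (Z →L[ℝ] ℝ))) {c : ℝ}
    (hc : 0 < c) (hN : ∀ x : Z →L[ℝ] ℝ, ∃ f : (Z →L[ℝ] ℝ) →L[ℝ] ℝ,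
      {m ∈ M | f m ≠ 0}.Countable ∧ ‖f‖ ≤ 1 ∧ c * ‖x‖ ≤ |f x|) : False := by
  obtain ⟨ψ, hψ⟩ := k.ind
  have p : 0 < C + 1 := by linarith
  obtain ⟨m, hm⟩ := exists_nat_gt (4 * C / (c * (C + 1)⁻¹))
  have m0 : (0 : ℝ) < m := lt_of_le_of_lt (by positivity) hm
  rw [div_lt_iff₀ (by positivity)] at hm
  refine core w1 w2 hM hc hN (fun a => ψ a) (C := C * (5 * m)) (inv_pos.2 p) (5 * m ^ 2)
    (by push_cast; nlinarith [mul_lt_mul_of_pos_left hm m0]) (fun a b h1 h2 => ?_) fun a h => ?_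
  · have : ∀ n, St δ (a n) n (∑ i ∈ Finset.range n, (ψ (b i) - ψ (a i))) := fun n => by
      induction n with
      | zero => exact St.zero _
      | succ n ih =>
        have := ih.step hψ le_rfl (WithTop.coe_le_coe.2 (h1 n)) (σ := -1) (by simp)
        rw [show (-1 : ℝ) • (ψ (a n) - ψ (b n)) = ψ (b n) - ψ (a n) by ext; simp,
          ← Finset.sum_range_succ fun i => ψ (b i) - ψ (a i)] at this
        exact ⟨this.1, fun t h => this.2.1 t ((WithTop.coe_le_coe.2 (h2 n)).trans h), this.2.2⟩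
    exact k.st (Nat.cast_pos.1 m0) (this _)
  · generalize 5 * m ^ 2 = n
    rcases n with _ | n
    · simp
    have := (∑ i ∈ Finset.range (n + 1), (ψ (a (i + (n + 1))) - ψ (a i))).le_opNorm (δ (a n))
    rw [sum_apply, Finset.sum_congr rfl (g := fun _ => -1) fun i hi => by
      simp [hψ _ _, h.le_iff_le, Nat.lt_succ_iff.1 (Finset.mem_range.1 hi),
        show n < i + (n + 1) by omega]] at this
    rw [inv_mul_le_iff₀' p]
    refine le_trans ?_ (this.trans (mul_le_mul_of_nonneg_left ((k.bd _).trans (by linarith))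
      (norm_nonneg _)))
    rw [Finset.sum_neg_distrib, norm_neg]
    simpa using le_abs_self ((n : ℝ) + 1)

/-- the bidual ball -/
abbrev Bb (Z : Type) [NormedAddCommGroup Z] [NormedSpace ℝ Z] :=
  ↥(WeakDual.toStrongDual ⁻¹' Metric.closedBall (0 : StrongDual ℝ (StrongDual ℝ Z)) 1)

lemma LJ.lim {ψ : WithTop W → Z →L[ℝ] ℝ} (hψ : Ind δ ψ) (I : Set W) :
    ∃ F : Bb Z, ∀ a : WithTop W, ((∃ t ∈ I, a ≤ (t : W)) → F.1 (ψ a) = (C + 1)⁻¹) ∧
      ((¬ ∃ t ∈ I, a ≤ (t : W)) → F.1 (ψ a) = 0) := by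
  rcases I.eq_empty_or_nonempty with rfl | h
  · exact ⟨⟨0, by simp⟩, fun a => ⟨by simp, fun _ => rfl⟩⟩
  have := h.to_subtype
  have p : 0 < C + 1 := by linarith
  let u : I → WeakDual ℝ (StrongDual ℝ Z) := fun t =>
    StrongDual.toWeakDual (NormedSpace.inclusionInDoubleDual ℝ Z ((C + 1)⁻¹ • δ t))
  have u1 : ∀ t a, u t (ψ a) = (C + 1)⁻¹ * if a ≤ t.1 then 1 else 0 := fun t a =>
    (map_smul (ψ a) _ _).trans (by rw [hψ, smul_eq_mul])
  obtain ⟨F, f1, f2⟩ := (WeakDual.isCompact_closedBall (0 : StrongDual ℝ (StrongDual ℝ Z))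
    1).exists_mapClusterPt (f := atTop) (u := u) (le_principal_iff.2 (mem_map.2 (univ_mem'
      fun t => mem_closedBall_zero_iff.2 ((NormedSpace.double_dual_bound ℝ Z _).trans (by
        rw [norm_smul, Real.norm_of_nonneg (inv_nonneg.2 p.le), inv_mul_le_iff₀ p]
        linarith [k.bd t])))))
  have cl := fun a (r : ℝ) => (isClosed_eq (WeakDual.eval_continuous (ψ a))
    (continuous_const (y := r))).mem_of_mapClusterPt f2
  refine ⟨⟨F, f1⟩, fun a => ⟨fun ⟨t, t1, t2⟩ => cl a _ ((eventually_ge_atTop ⟨t, t1⟩).mono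
    fun s hs => ?_), fun n => cl a _ (Eventually.of_forall fun s => ?_)⟩⟩
  · exact (u1 s a).trans (by rw [if_pos (t2.trans (WithTop.coe_le_coe.2 hs)), mul_one])
  · exact (u1 s a).trans (by rw [if_neg fun h => n ⟨s, s.2, h⟩, mul_zero])

theorem LJ.noval [WellFoundedLT W] (o : W → Ordinal.{0}) (o1 : StrictMono o)
    (o2 : ∀ ξ < (aleph.{0} 2).ord, ∃ a, o a = ξ) {Γ : Type} {e : Bb Z → Γ → ℝ} (he : IsEmbedding e)
    (hd : Dense {x | (support (e x)).Countable}) : False := by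
  obtain ⟨ψ, hψ⟩ := k.ind
  have := isCompact_iff_compactSpace.1
    (WeakDual.isCompact_closedBall (0 : StrongDual ℝ (StrongDual ℝ Z)) 1)
  let p : Bb Z → (Z →L[ℝ] ℝ) →L[ℝ] ℝ := fun F => WeakDual.toStrongDual F.1
  have p1 : ∀ y, Continuous fun x => p x y := fun y =>
    (WeakDual.eval_continuous y).comp continuous_subtype_val
  have p2 : ∀ x, ‖p x‖ ≤ 1 := fun x =>
    (mem_closedBall_zero_iff (E := StrongDual ℝ (StrongDual ℝ Z))).1 x.2
  have p3 : ∀ x a, |p x (ψ a)| ≤ C := fun x a => ((p x).le_opNorm _).trans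
    ((mul_le_of_le_one_left (norm_nonneg _) (p2 x)).trans (k.nψ hψ a))
  have b : ∀ x y, BddAbove (range fun a => |p x (ψ a) - p y (ψ a)|) := fun x y =>
    ⟨C + C, forall_mem_range.2 fun a => (abs_sub _ _).trans (add_le_add (p3 x a) (p3 y a))⟩
  have sm := H5V.small he hd (d := fun x y => ⨆ a, |p x (ψ a) - p y (ψ a)|)
    (lowerSemicontinuous_ciSup (fun q => b q.1 q.2) fun a => (((p1 _).comp continuous_fst).sub
      ((p1 _).comp continuous_snd)).abs.lowerSemicontinuous) (fun x y n => by_contra fun h =>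
        n (Subtype.ext (WeakDual.toStrongDual.injective (ContinuousLinearMap.ext_on (k.dense hψ)
          (f := p x) (g := p y) (forall_mem_range.2 fun a => sub_eq_zero.1 (abs_nonpos_iff.1
            ((le_ciSup (b x y) a).trans (not_lt.1 h)))))))) fun L hL ε hε => by
      obtain ⟨U, u1, u2, u3⟩ := k.frag hψ p1 p2 hL (half_pos hε)
      exact ⟨U, u1, u2, fun x hx y hy => (ciSup_le (u3 x hx y hy)).trans_lt (half_lt_self hε)⟩
  choose J hJ using fun ξ : Iic (aleph.{0} 2).ord => k.lim c0 hψ {t | o t < ξ}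
  have j1 : ∀ (a : W) ξ, (o a < ξ.1 → p (J ξ) (ψ a) = (C + 1)⁻¹) ∧
      (¬ o a < ξ.1 → p (J ξ) (ψ a) = 0) := fun a ξ => ⟨fun h => (hJ ξ a).1 ⟨a, h, le_rfl⟩,
        fun h => (hJ ξ a).2 fun ⟨t, t1, t2⟩ => h ((o1.monotone (WithTop.coe_le_coe.1 t2)).trans_lt t1)⟩
  have j2 : ∀ a, Continuous fun ξ => p (J ξ) (ψ a) := fun a => by
    induction a with
    | top =>
      exact continuous_const.congr fun ξ => ((hJ ξ ⊤).2 fun ⟨t, _, h⟩ => WithTop.not_top_le_coe t h).symm
    | coe a =>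
      have : IsClopen {ξ : Iic (aleph.{0} 2).ord | o a < ξ.1} :=
        ⟨by simpa only [← Order.succ_le_iff] using isClosed_le continuous_const continuous_subtype_val,
          isOpen_lt continuous_const continuous_subtype_val⟩
      refine (Continuous.if (p := fun ξ : Iic (aleph.{0} 2).ord => o a < ξ.1)
        (f := fun _ => (C + 1)⁻¹) (g := fun _ => 0) (by simp [this.frontier_eq]) continuous_const
          continuous_const).congr fun ξ => ?_
      split_ifs with h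
      exacts [((j1 a ξ).1 h).symm, ((j1 a ξ).2 h).symm]
  have j3 := continuous_prod_of_dense_continuous_lipschitzWith
    (fun q : (Z →L[ℝ] ℝ) × Iic (aleph.{0} 2).ord => p (J q.2) q.1) 1 (k.dense hψ) (fun y hy => by
      induction hy using Submodule.span_induction with
      | mem y h => obtain ⟨a, rfl⟩ := h; exact j2 a
      | zero => simpa using continuous_const
      | add y z _ _ h1 h2 => simp only [map_add]; exact h1.add h2
      | smul r y _ h => simpa using h.const_mul r)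
    fun ξ => (p (J ξ)).lipschitz.weaken (p2 _)
  have j4 : Continuous J := continuous_induced_rng.2 (WeakDual.continuous_of_continuous_eval
    fun y => j3.comp (Continuous.prodMk_right y))
  refine H5V.chain (he.continuous.comp j4) (fun ξ => sm _) (he.injective.comp
    (Function.Injective.of_lt_imp_ne fun ξ ζ h n => ?_))
  obtain ⟨a, ha⟩ := o2 ξ (lt_of_lt_of_le h ζ.2)
  have := ((j1 a ζ).1 (ha ▸ h)).symm.trans (n ▸ (j1 a ξ).2 ha.not_lt)
  exact (inv_pos.2 (by linarith)).ne' this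

end H5J
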