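import Mathlib

set_option autoImplicit false

namespace Pool.Agent.Lib.Helper5.MO

open Finset Filter Topology

theorem w_diff (s : ℝ) (hs : 0 < s) (N : ℕ) (hN : 1 ≤ N) :
    |(N : ℝ) ^ (-s) - ((N + 1 : ℕ) : ℝ) ^ (-s)| ≤ s / N := by
  have h1 : (1 : ℝ) ≤ N := by exact_mod_cast hN
  have h0 : (0 : ℝ) < N := by linarith
  push_cast
  rw [Real.rpow_def_of_pos h0, Real.rpow_def_of_pos (by linarith)]
  have h2 : 0 ≤ Real.log N := Real.log_nonneg h1
  have h3 : Real.log ((N : ℝ) + 1) - Real.log N ≤ 1 / N := by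
    rw [← Real.log_div (by linarith) h0.ne']
    have := Real.log_le_sub_one_of_pos (show 0 < ((N : ℝ) + 1) / N by positivity)
    refine this.trans (le_of_eq ?_)
    field_simp
    ring
  have h4 : Real.log N ≤ Real.log ((N : ℝ) + 1) := Real.log_le_log h0 (by linarith)
  set u := Real.log N
  set v := Real.log ((N : ℝ) + 1)
  have h5 : Real.exp (v * -s) = Real.exp (u * -s) * Real.exp (-((v - u) * s)) := by
    rw [← Real.exp_add]; congr 1; ring
  have h6 : Real.exp (u * -s) ≤ 1 := Real.exp_le_one_iff.mpr (by nlinarith)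
  have h7 : 0 < Real.exp (u * -s) := Real.exp_pos _
  have h8 := Real.add_one_le_exp (-((v - u) * s))
  have h9 : Real.exp (-((v - u) * s)) ≤ 1 := Real.exp_le_one_iff.mpr (by nlinarith)
  have h10 : (v - u) * s ≤ s / N := by
    have : s / N = 1 / N * s := by ring
    rw [this]
    exact mul_le_mul_of_nonneg_right h3 hs.le
  rw [h5, abs_of_nonneg (by nlinarith)]
  nlinarith

theorem main (f : ℕ → ℂ) (h1 : f 1 = 1)
    (hmul : ∀ m n, 1 ≤ m → 1 ≤ n → Nat.Coprime m n → f (m * n) = f m * f n)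
    (hp : ∀ p : ℕ, p.Prime → ∃ c : ℂ, c ≠ 0 ∧
      Tendsto (fun K => ∑ k ∈ range K, f (p ^ k)) atTop (𝓝 c)) :
    ∃ᶠ N : ℕ in atTop, 1 / 10 ≤ (N : ℝ) * ‖∑ n ∈ Icc 1 N, f n‖ := by
  intro hcon
  set S : ℕ → ℂ := fun N => ∑ n ∈ Icc 1 N, f n with hS
  obtain ⟨N₀, hN₀⟩ := eventually_atTop.mp hcon
  have hsmall : ∀ N, N₀ ≤ N → (N : ℝ) * ‖S N‖ ≤ 1 / 10 := fun N hN => (not_le.mp (hN₀ N hN)).le
  obtain ⟨C, hC0, hC⟩ : ∃ C : ℝ, 0 ≤ C ∧ ∀ N : ℕ, (N : ℝ) * ‖S N‖ ≤ C := by
    have hs0 : 0 ≤ ∑ n ∈ range N₀, (n : ℝ) * ‖S n‖ := sum_nonneg (fun n _ => by positivity)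
    refine ⟨1 / 10 + ∑ n ∈ range N₀, (n : ℝ) * ‖S n‖, by linarith, fun N => ?_⟩
    rcases Nat.lt_or_ge N N₀ with h | h
    · have := single_le_sum (f := fun n : ℕ => (n : ℝ) * ‖S n‖) (fun n _ => by positivity)
        (mem_range.mpr h)
      linarith
    · linarith [hsmall N h]
  have hSs : ∀ N, S (N + 1) = S N + f (N + 1) := fun N => by
    simp only [hS]; rw [sum_Icc_succ_top (by omega)]
  have hgen : ∀ (n : ℕ) (B : ℝ), (n : ℝ) * ‖S n‖ ≤ B → ((n + 1 : ℕ) : ℝ) * ‖S (n + 1)‖ ≤ B →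
      (n : ℝ) * (((n + 1 : ℕ) : ℝ) * ‖f (n + 1)‖) ≤ (2 * n + 1) * B := by
    intro n B a1 a2
    have a3 : ‖f (n + 1)‖ ≤ ‖S (n + 1)‖ + ‖S n‖ := by
      have : f (n + 1) = S (n + 1) - S n := by rw [hSs]; ring
      rw [this]; exact norm_sub_le _ _
    push_cast at a2 ⊢
    have hn : (0 : ℝ) ≤ n := Nat.cast_nonneg n
    have b1 : (n : ℝ) * (((n : ℝ) + 1) * ‖f (n + 1)‖)
        ≤ (n : ℝ) * (((n : ℝ) + 1) * (‖S (n + 1)‖ + ‖S n‖)) := by gcongr
    have b2 : (n : ℝ) * (((n : ℝ) + 1) * ‖S (n + 1)‖) ≤ n * B := by gcongr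
    have b3 : ((n : ℝ) + 1) * ((n : ℝ) * ‖S n‖) ≤ (n + 1) * B := by gcongr
    nlinarith
  have hD : ∀ n : ℕ, 1 ≤ n → ‖f n‖ ≤ (3 * C + 1) / n := by
    intro n hn
    have hn' : (0 : ℝ) < n := by exact_mod_cast hn
    rw [le_div_iff₀ hn']
    obtain ⟨m, rfl⟩ : ∃ m, n = m + 1 := ⟨n - 1, by omega⟩
    rcases Nat.eq_zero_or_pos m with rfl | hm
    · simp [h1]; linarith
    · have := hgen m C (hC m) (hC (m + 1))
      have hm' : (1 : ℝ) ≤ m := by exact_mod_cast hm
      have h2 : (m : ℝ) * (((m + 1 : ℕ) : ℝ) * ‖f (m + 1)‖) ≤ m * (3 * C) := by nlinarith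
      have h3 := le_of_mul_le_mul_left h2 (by linarith)
      linarith
  set P := N₀ + 3 with hP
  have hE : ∀ n : ℕ, P ≤ n → ‖f n‖ ≤ (1 / 4) / n := by
    intro n hn
    have hn' : (0 : ℝ) < n := by
      have : 0 < n := by omega
      exact_mod_cast this
    rw [le_div_iff₀ hn']
    obtain ⟨m, rfl⟩ : ∃ m, n = m + 1 := ⟨n - 1, by omega⟩
    have := hgen m (1 / 10) (hsmall m (by omega)) (hsmall (m + 1) (by omega))
    have hm' : (2 : ℝ) ≤ m := by
      have : 2 ≤ m := by omega
      exact_mod_cast this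
    have h2 : (m : ℝ) * (((m + 1 : ℕ) : ℝ) * ‖f (m + 1)‖) ≤ m * (1 / 4) := by nlinarith
    have h3 := le_of_mul_le_mul_left h2 (by linarith)
    linarith
  let a : ℝ → ℕ → ℂ := fun s n => f n * (((n : ℝ) ^ (-s) : ℝ) : ℂ)
  let z : ℝ → ℕ → ℝ := fun s n => 1 / (n : ℝ) ^ (s + 1)
  have hz0 : ∀ s n, 0 ≤ z s n := fun s n => by positivity
  have hnorm : ∀ (s : ℝ) (n : ℕ) (B : ℝ), 1 ≤ n → ‖f n‖ ≤ B / n → ‖a s n‖ ≤ B * z s n := by
    intro s n B hn hB
    have hn' : (0 : ℝ) < n := by exact_mod_cast hn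
    simp only [a, z, norm_mul, Complex.norm_real]
    rw [Real.norm_of_nonneg (by positivity), Real.rpow_neg hn'.le, Real.rpow_add hn',
      Real.rpow_one]
    have : B * (1 / ((n : ℝ) ^ s * n)) = B / n * ((n : ℝ) ^ s)⁻¹ := by field_simp
    rw [this]
    gcongr
  have key : ∀ s : ℝ, 0 < s → ∏ p ∈ P.primesBelow, ‖∑' e, a s (p ^ e)‖ ^ 2
      ≤ (2 * C * s) ^ 2 * ∑' n, z s n := by
    intro s hs
    have ha0 : a s 0 = 0 := by simp [a, Real.zero_rpow (neg_ne_zero.mpr hs.ne')]
    have hzz : z s 0 = 0 := by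
      simp [z, Real.zero_rpow (show s + 1 ≠ 0 by linarith)]
    have hzs : Summable (z s) := Real.summable_one_div_nat_rpow.mpr (by linarith)
    have hzs' : Summable (fun n => ‖z s n‖) := hzs.norm
    have has : Summable (fun n => ‖a s n‖) := by
      refine Summable.of_nonneg_of_le (fun n => norm_nonneg _) (fun n => ?_)
        (hzs.mul_left (3 * C + 1))
      rcases Nat.eq_zero_or_pos n with rfl | hn
      · rw [ha0, hzz]; simp
      · exact hnorm s n _ hn (hD n hn)
    have ha1 : a s 1 = 1 := by simp [a, h1]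
    have hz1 : z s 1 = 1 := by simp [z]
    have ham : ∀ {m n : ℕ}, Nat.Coprime m n → a s (m * n) = a s m * a s n := by
      intro m n hmn
      rcases Nat.eq_zero_or_pos m with rfl | hm
      · rw [zero_mul, ha0, zero_mul]
      · rcases Nat.eq_zero_or_pos n with rfl | hn
        · rw [mul_zero, ha0, mul_zero]
        · simp only [a]
          rw [hmul m n hm hn hmn, Nat.cast_mul, Real.mul_rpow (by positivity) (by positivity)]
          push_cast
          ring
    have hzm : ∀ {m n : ℕ}, Nat.Coprime m n → z s (m * n) = z s m * z s n := by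
      intro m n _
      simp only [z]
      rw [Nat.cast_mul, Real.mul_rpow (by positivity) (by positivity), one_div_mul_one_div]
    have hzp : ∀ p e : ℕ, z s (p ^ e) = z s p ^ e := by
      intro p e
      simp only [z]
      rw [Nat.cast_pow, ← Real.rpow_pow_comm (by positivity), one_div_pow]
    have hzle : ∀ p : ℕ, p.Prime → z s p ≤ 1 / 2 := by
      intro p hp
      have h2 : (2 : ℝ) ≤ p := by exact_mod_cast hp.two_le
      apply one_div_le_one_div_of_le (by norm_num)
      calc (2 : ℝ) ≤ p := h2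
        _ = (p : ℝ) ^ (1 : ℝ) := (Real.rpow_one _).symm
        _ ≤ _ := Real.rpow_le_rpow_of_exponent_le (by linarith) (by linarith)
    have hZ : ∀ p : ℕ, p.Prime → ∑' e, z s (p ^ e) = (1 - z s p)⁻¹ := by
      intro p hp
      simp only [hzp]
      exact tsum_geometric_of_lt_one (hz0 s p) (by linarith [hzle p hp])
    have hZ1 : ∀ p : ℕ, p.Prime → 1 ≤ ∑' e, z s (p ^ e) := by
      intro p hp
      rw [hZ p hp]
      exact (one_le_inv₀ (by linarith [hzle p hp])).mpr (by linarith [hz0 s p])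
    have hbig : ∀ p : ℕ, p.Prime → P ≤ p →
        1 ≤ ‖∑' e, a s (p ^ e)‖ ^ 2 * ∑' e, z s (p ^ e) := by
      intro p hp hPp
      have hx0 := hz0 s p
      have hx1 := hzle p hp
      set x := z s p with hx
      have hsum : Summable (fun e => ‖a s (p ^ e)‖) :=
        has.comp_injective (Nat.pow_right_injective hp.two_le)
      have hsplit : ∑' e, a s (p ^ e) = 1 + ∑' e, a s (p ^ (e + 1)) := by
        rw [hsum.of_norm.tsum_eq_zero_add, pow_zero, ha1]
      have hgeo : HasSum (fun e : ℕ => (1 / 4 * x) * x ^ e) ((1 / 4 * x) * (1 - x)⁻¹) :=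
        (hasSum_geometric_of_lt_one hx0 (by linarith)).mul_left _
      have htail : ‖∑' e, a s (p ^ (e + 1))‖ ≤ (1 / 4 * x) * (1 - x)⁻¹ := by
        apply tsum_of_norm_bounded hgeo
        intro e
        have h3 : p ≤ p ^ (e + 1) := Nat.le_self_pow (by omega) p
        have := hnorm s (p ^ (e + 1)) (1 / 4) (by omega) (hE _ (by omega))
        rw [hzp, ← hx, pow_succ x] at this
        linarith
      have hinv : (1 - x)⁻¹ ≤ 2 := by
        rw [inv_le_comm₀ (by linarith) (by norm_num)]; linarith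
      have h4 : 1 - x / 2 ≤ ‖∑' e, a s (p ^ e)‖ := by
        rw [hsplit]
        have h5 := norm_sub_norm_le (1 : ℂ) (-∑' e, a s (p ^ (e + 1)))
        rw [sub_neg_eq_add, norm_one, norm_neg] at h5
        nlinarith
      have h6 : 1 - x ≤ ‖∑' e, a s (p ^ e)‖ ^ 2 := by nlinarith
      rw [hZ p hp, ← hx, ← div_eq_mul_inv, le_div_iff₀ (by linarith)]
      linarith
    have hEa := EulerProduct.eulerProduct ha1 ham has ha0
    have hEz := EulerProduct.eulerProduct hz1 hzm hzs' hzz
    have hlim := (hEa.norm.pow 2).mul hEz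
    have hle : ∏ p ∈ P.primesBelow, ‖∑' e, a s (p ^ e)‖ ^ 2
        ≤ ‖∑' n, a s n‖ ^ 2 * ∑' n, z s n := by
      apply ge_of_tendsto hlim
      filter_upwards [eventually_ge_atTop P] with N hN
      have hsub : P.primesBelow ⊆ N.primesBelow := by
        intro q hq
        rw [Nat.mem_primesBelow] at hq ⊢
        exact ⟨by omega, hq.2⟩
      rw [norm_prod, ← prod_pow, ← prod_mul_distrib, ← prod_sdiff hsub]
      have b1 : 1 ≤ ∏ p ∈ N.primesBelow \ P.primesBelow,
          (‖∑' e, a s (p ^ e)‖ ^ 2 * ∑' e, z s (p ^ e)) := by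
        apply Finset.one_le_prod
        intro q hq
        rw [Finset.mem_sdiff, Nat.mem_primesBelow, Nat.mem_primesBelow] at hq
        exact hbig q hq.1.2 (by
          by_contra h
          exact hq.2 ⟨by omega, hq.1.2⟩)
      have b2 : ∏ p ∈ P.primesBelow, ‖∑' e, a s (p ^ e)‖ ^ 2 ≤ ∏ p ∈ P.primesBelow,
          (‖∑' e, a s (p ^ e)‖ ^ 2 * ∑' e, z s (p ^ e)) := by
        apply Finset.prod_le_prod (fun q _ => by positivity)
        intro q hq
        exact le_mul_of_one_le_right (by positivity) (hZ1 q (Nat.mem_primesBelow.mp hq).2)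
      have b3 : 0 ≤ ∏ p ∈ P.primesBelow, ‖∑' e, a s (p ^ e)‖ ^ 2 :=
        prod_nonneg (fun q _ => by positivity)
      nlinarith
    have hT : ∀ N : ℕ, 1 ≤ N → ‖∑ n ∈ range (N + 1), a s n - S N * (((N : ℝ) ^ (-s) : ℝ) : ℂ)‖
        ≤ C * s * (2 - 2 / N) := by
      intro N hN
      induction N, hN using Nat.le_induction with
      | base => simp [sum_range_succ, ha0, ha1, hS, h1]
      | succ N hN ih =>
        have hN' : (1 : ℝ) ≤ N := by exact_mod_cast hN
        have e1 : ∑ n ∈ range (N + 1 + 1), a s n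
              - S (N + 1) * (((((N + 1 : ℕ) : ℝ)) ^ (-s) : ℝ) : ℂ)
            = (∑ n ∈ range (N + 1), a s n - S N * (((N : ℝ) ^ (-s) : ℝ) : ℂ))
              + S N * ((((N : ℝ) ^ (-s) - ((N + 1 : ℕ) : ℝ) ^ (-s) : ℝ)) : ℂ) := by
          rw [sum_range_succ _ (N + 1), hSs, Complex.ofReal_sub]
          simp only [a]
          ring
        rw [e1]
        refine (norm_add_le _ _).trans ?_
        have e2 : ‖S N * ((((N : ℝ) ^ (-s) - ((N + 1 : ℕ) : ℝ) ^ (-s) : ℝ)) : ℂ)‖
            ≤ C / N * (s / N) := by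
          rw [norm_mul, Complex.norm_real, Real.norm_eq_abs]
          have : ‖S N‖ ≤ C / N := by
            rw [le_div_iff₀ (by linarith)]; linarith [hC N]
          exact mul_le_mul this (w_diff s hs N hN) (abs_nonneg _) (by positivity)
        have e3 : C / N * (s / N) ≤ C * s * (2 / N - 2 / ((N + 1 : ℕ) : ℝ)) := by
          have : C / N * (s / N) = C * s * (1 / (N * N)) := by field_simp
          rw [this]
          apply mul_le_mul_of_nonneg_left _ (by positivity)
          push_cast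
          rw [div_sub_div _ _ (by linarith) (by linarith), div_le_div_iff₀ (by positivity)
            (by positivity)]
          nlinarith
        nlinarith
    have hF : ‖∑' n, a s n‖ ≤ 2 * C * s := by
      have t1 := (has.of_norm.hasSum.tendsto_sum_nat.comp (tendsto_add_atTop_nat 1)).norm
      have t2 : Tendsto (fun N : ℕ => 2 * C * s + C / (N : ℝ)) atTop (𝓝 (2 * C * s + 0)) :=
        (tendsto_const_div_atTop_nhds_zero_nat C).const_add _
      rw [add_zero] at t2
      apply le_of_tendsto_of_tendsto t1 t2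
      filter_upwards [eventually_ge_atTop 1] with N hN
      have hN' : (1 : ℝ) ≤ N := by exact_mod_cast hN
      have e1 := hT N hN
      have e2 : ‖S N * (((N : ℝ) ^ (-s) : ℝ) : ℂ)‖ ≤ C / N := by
        rw [norm_mul, Complex.norm_real, Real.norm_of_nonneg (by positivity)]
        have b1 : ‖S N‖ ≤ C / N := by
          rw [le_div_iff₀ (by linarith)]; linarith [hC N]
        have b2 : (N : ℝ) ^ (-s) ≤ 1 := Real.rpow_le_one_of_one_le_of_nonpos hN' (by linarith)
        calc _ ≤ C / N * 1 := mul_le_mul b1 b2 (by positivity) (by positivity)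
          _ = _ := mul_one _
      have e3 := norm_add_le (∑ n ∈ range (N + 1), a s n - S N * (((N : ℝ) ^ (-s) : ℝ) : ℂ))
        (S N * (((N : ℝ) ^ (-s) : ℝ) : ℂ))
      rw [sub_add_cancel] at e3
      have e4 : 0 ≤ C * s * (2 / N) := by positivity
      simp only [Function.comp]
      nlinarith
    refine hle.trans ?_
    have : 0 ≤ ∑' n, z s n := tsum_nonneg (hz0 s)
    gcongr
  have hL : Tendsto (fun s : ℝ => ∏ p ∈ P.primesBelow, ‖∑' e, a s (p ^ e)‖ ^ 2) (𝓝[>] 0)
      (𝓝 (∏ p ∈ P.primesBelow, ‖∑' e, f (p ^ e)‖ ^ 2)) := by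
    apply tendsto_finsetProd
    intro p hpp
    have hpr := (Nat.mem_primesBelow.mp hpp).2
    refine (Tendsto.norm ?_).pow 2
    have hb : Summable (fun e : ℕ => (3 * C + 1) * (1 / 2 : ℝ) ^ e) :=
      summable_geometric_two.mul_left _
    apply tendsto_tsum_of_dominated_convergence hb
    · intro e
      have hpe : ((p ^ e : ℕ) : ℝ) ≠ 0 := by
        have := pow_pos hpr.pos e
        positivity
      have c1 : ContinuousAt (fun s : ℝ => a s (p ^ e)) 0 := by
        simp only [a]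
        exact continuousAt_const.mul (Complex.continuous_ofReal.continuousAt.comp
          ((Real.continuousAt_const_rpow hpe).comp continuousAt_neg))
      have c2 := c1.tendsto.mono_left (nhdsWithin_le_nhds (s := Set.Ioi 0))
      simpa [a] using c2
    · filter_upwards [self_mem_nhdsWithin] with s hs e
      have hs' : 0 < s := hs
      have h3 : 1 ≤ p ^ e := pow_pos hpr.pos e
      refine (hnorm s _ _ h3 (hD _ h3)).trans ?_
      apply mul_le_mul_of_nonneg_left _ (by linarith)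
      have h4 : (1 : ℝ) ≤ ((p ^ e : ℕ) : ℝ) := by exact_mod_cast h3
      rw [one_div_pow]
      apply one_div_le_one_div_of_le (by positivity)
      calc (2 : ℝ) ^ e ≤ ((p ^ e : ℕ) : ℝ) := by
            exact_mod_cast Nat.pow_le_pow_left hpr.two_le e
        _ = ((p ^ e : ℕ) : ℝ) ^ (1 : ℝ) := (Real.rpow_one _).symm
        _ ≤ _ := Real.rpow_le_rpow_of_exponent_le h4 (by linarith)
  have hR : Tendsto (fun s : ℝ => (2 * C * s) ^ 2 * ∑' n, z s n) (𝓝[>] 0) (𝓝 0) := by
    have t1 : Tendsto (fun s : ℝ => s + 1) (𝓝[>] 0) (𝓝[>] 1) := by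
      apply tendsto_nhdsWithin_of_tendsto_nhds_of_eventually_within
      · have : Tendsto (fun s : ℝ => s + 1) (𝓝 0) (𝓝 (0 + 1)) := tendsto_id.add_const 1
        rw [zero_add] at this
        exact this.mono_left nhdsWithin_le_nhds
      · filter_upwards [self_mem_nhdsWithin] with s hs
        have : 0 < s := hs
        simpa using this
    have t2 := tendsto_sub_mul_tsum_nat_rpow.comp t1
    have t3 : Tendsto (fun s : ℝ => 4 * C ^ 2 * s) (𝓝[>] 0) (𝓝 (4 * C ^ 2 * 0)) :=
      (tendsto_id.const_mul _).mono_left nhdsWithin_le_nhds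
    have t4 := t3.mul t2
    simp only [mul_zero, zero_mul] at t4
    refine t4.congr (fun s => ?_)
    simp only [Function.comp, z]
    ring
  have hfin := le_of_tendsto_of_tendsto hL hR (by
    filter_upwards [self_mem_nhdsWithin] with s hs using key s hs)
  have hpos : 0 < ∏ p ∈ P.primesBelow, ‖∑' e, f (p ^ e)‖ ^ 2 := by
    apply prod_pos
    intro p hpp
    have hpr := (Nat.mem_primesBelow.mp hpp).2
    obtain ⟨c, hc0, hc⟩ := hp p hpr
    have hs : Summable (fun e => f (p ^ e)) := by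
      refine Summable.of_norm_bounded (summable_geometric_two.mul_left (3 * C + 1)) (fun e => ?_)
      have h3 : 1 ≤ p ^ e := pow_pos hpr.pos e
      refine (hD _ h3).trans ?_
      rw [one_div_pow, mul_one_div]
      apply div_le_div_of_nonneg_left (by linarith) (by positivity)
      exact_mod_cast Nat.pow_le_pow_left hpr.two_le e
    rw [tendsto_nhds_unique hs.hasSum.tendsto_sum_nat hc]
    positivity
  linarith

end Pool.Agent.Lib.Helper5.MO
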