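import Pool.Agent.Lib.helper5.Face

/-! Norming Markushevich bases in `C(K)` by Moebius inversion. -/

open Set Filter Topology TopologicalSpace Function
open scoped BoundedContinuousFunction

namespace H5M

/-- `X` has a `1`-norming M-basis. -/
def NB (X : Type) [NormedAddCommGroup X] [NormedSpace ℝ X] : Prop :=
  ∃ (I : Type) (x : I → X) (f : I → X →L[ℝ] ℝ), (∀ i, f i (x i) = 1) ∧
    (∀ i j, i ≠ j → f i (x j) = 0) ∧ Dense ((Submodule.span ℝ (range x) : Submodule ℝ X) : Set X) ∧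
    (∀ y, (∀ i, f i y = 0) → y = 0) ∧
    ∀ y, ∀ t < ‖y‖, ∃ g ∈ Submodule.span ℝ (range f), ‖g‖ ≤ 1 ∧ t < |g y|

lemma NB.of_equiv {X Y : Type} [NormedAddCommGroup X] [NormedSpace ℝ X] [NormedAddCommGroup Y]
    [NormedSpace ℝ Y] (e : X ≃ₗᵢ[ℝ] Y) (h : NB X) : NB Y := by
  obtain ⟨I, x, f, h1, h2, h3, h4, h5⟩ := h
  let B : (X →L[ℝ] ℝ) →L[ℝ] Y →L[ℝ] ℝ :=
    ContinuousLinearMap.precomp ℝ (e.symm.toContinuousLinearEquiv : Y →L[ℝ] X)
  refine ⟨I, e ∘ x, B ∘ f, by simpa [B] using h1, by simpa [B] using h2, ?_, fun y k =>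
    e.symm.map_eq_zero_iff.1 (h4 _ k), fun y t k => ?_⟩
  · rw [range_comp, show e '' range x = e.toLinearEquiv.toLinearMap '' range x from rfl,
      ← Submodule.map_span]
    exact e.surjective.denseRange.dense_image e.continuous h3
  obtain ⟨g, g1, g2, g3⟩ := h5 (e.symm y) t (by simpa using k)
  refine ⟨B g, ?_, ContinuousLinearMap.opNorm_le_bound _ zero_le_one fun z =>
    (g.le_of_opNorm_le g2 _).trans_eq (by simp), g3⟩
  rw [range_comp, show B '' range f = B.toLinearMap '' range f from rfl, ← Submodule.map_span]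
  exact ⟨g, g1, rfl⟩

theorem moeb {Ω : Type} {K : Set (Ω → Bool)} [CompactSpace K]
    (h1 : Dense {x : K | {ξ | x.1 ξ}.Finite}) (h2 : ∀ s : Finset Ω, (∃ x ∈ K, ∀ ξ ∈ s, x ξ) →
      ∃ A ∈ K, (∀ ξ ∈ s, A ξ) ∧ ∀ x ∈ K, (∀ ξ ∈ s, x ξ) → ∀ ξ, A ξ → x ξ) : NB C(K, ℝ) := by
  classical
  let π : Ω → C(K, ℝ) := fun ξ => ⟨fun y => if y.1 ξ then 1 else 0,
    (continuous_of_discreteTopology (f := fun b : Bool => if b then (1 : ℝ) else 0)).comp
      ((continuous_apply ξ).comp continuous_subtype_val)⟩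
  let χ := fun s : Finset Ω => ∏ ξ ∈ s, π ξ
  have c1 : ∀ s y, χ s y = if ∀ ξ ∈ s, y.1 ξ then 1 else 0 := fun s y => by
    simp [χ, π, Finset.prod_boole]
  let I := {x : K // {ξ | x.1 ξ}.Finite}
  let p : I → Finset Ω := fun A => A.2.toFinset
  have p1 : Injective p := fun A B h => Subtype.ext (Subtype.ext (funext fun ξ =>
    Bool.eq_iff_iff.2 (by simpa [p] using Finset.ext_iff.1 h ξ)))
  have p2 : ∀ A, {B | p B ⊆ p A}.Finite := fun A =>
    ((p A).powerset.finite_toSet.preimage p1.injOn).subset fun B h => Finset.mem_powerset.2 h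
  let δ := fun A : I => ContinuousMap.evalCLM ℝ (M := ℝ) A.1
  have d1 : ∀ A B, δ A (χ (p B)) = if p B ⊆ p A then 1 else 0 := fun A B =>
    (c1 ..).trans (if_congr (forall₂_congr fun ξ _ => by simp [p]) rfl rfl)
  have d2 : Dense ((Submodule.span ℝ (range fun A => χ (p A)) : Submodule ℝ C(K, ℝ)) :
      Set C(K, ℝ)) := by
    have k := ContinuousMap.subalgebra_topologicalClosure_eq_top_of_separatesPoints
      (Algebra.adjoin ℝ (range π)) fun x y h => by
        obtain ⟨ξ, k⟩ := ne_iff.1 (Subtype.val_injective.ne h)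
        refine ⟨π ξ, ⟨π ξ, Algebra.subset_adjoin ⟨ξ, rfl⟩, rfl⟩, ?_⟩
        cases e : x.1 ξ <;> cases e' : y.1 ξ <;> simp_all [π]
    refine Dense.mono (s₁ := Algebra.adjoin ℝ (range π)) ?_ fun f => k.ge trivial
    refine (Algebra.adjoin_eq_span ℝ _).le.trans (Submodule.span_le.2 fun f hf => ?_)
    obtain ⟨s, rfl⟩ : ∃ s, χ s = f := by
      induction hf using Submonoid.closure_induction with
      | mem _ h => exact h.elim fun ξ e => ⟨{ξ}, by simp [χ, e]⟩
      | one => exact ⟨∅, rfl⟩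
      | mul _ _ _ _ h1 h2 =>
        obtain ⟨s, rfl⟩ := h1
        obtain ⟨t, rfl⟩ := h2
        refine ⟨s ∪ t, ContinuousMap.ext fun y => ?_⟩
        simp only [ContinuousMap.mul_apply, c1, Finset.forall_mem_union, ite_and]
        split_ifs <;> simp
    by_cases h : ∃ x ∈ K, ∀ ξ ∈ s, x ξ
    · obtain ⟨A, a1, a2, a3⟩ := h2 s h
      obtain ⟨x, x1, x2⟩ := h1.exists_mem_open (isOpen_ne_fun (χ s).continuous continuous_zero)
        ⟨⟨A, a1⟩, by simpa [c1] using a2⟩
      refine Submodule.subset_span ⟨⟨⟨A, a1⟩, x1.subset (a3 _ x.2 (by simpa [c1] using x2))⟩,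
        ContinuousMap.ext fun y => (c1 ..).trans ((if_congr ?_ rfl rfl).trans (c1 ..).symm)⟩
      simpa [p] using ⟨fun k ξ m => k ξ (a2 ξ m), a3 _ y.2⟩
    · rw [show χ s = 0 from ContinuousMap.ext fun y => (c1 ..).trans (if_neg fun k => h ⟨_, y.2, k⟩)]
      exact zero_mem _
  have : ∀ A, ∃ g : C(K, ℝ) →L[ℝ] ℝ, ∀ B, g (χ (p B)) = if A = B then 1 else 0 := fun A => by
    induction A using (InvImage.wf p Finset.lt_wf).induction with
    | _ A ih =>
      choose! g hg using ih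
      refine ⟨δ A - ∑ C ∈ (p2 A).toFinset.erase A, g C, fun B => ?_⟩
      rw [sub_apply, d1, _root_.sum_apply, Finset.sum_congr rfl fun C h =>
        hg C (lt_of_le_of_ne (by simpa using (Finset.mem_erase.1 h).2)
          (p1.ne (Finset.mem_erase.1 h).1)) B, Finset.sum_ite_eq']
      by_cases e : A = B <;> simp [e, eq_comm]
  choose f hf using this
  have d3 : ∀ A, δ A = ∑ C ∈ (p2 A).toFinset, f C := fun A =>
    ContinuousLinearMap.ext_on d2 (forall_mem_range.2 fun B => by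
      rw [d1, _root_.sum_apply, Finset.sum_congr rfl fun C _ => hf C B, Finset.sum_ite_eq']
      simp)
  refine ⟨I, _, f, fun i => by simp [hf], fun i j h => by simp [hf, h], d2, fun y k =>
    ContinuousMap.ext (congrFun (y.continuous.ext_on h1 continuous_zero fun x m =>
      (congrArg (· y) (d3 ⟨x, m⟩)).trans (by simp [k]))),
    fun y t k => ?_⟩
  rcases lt_or_ge t 0 with n | n
  · exact ⟨0, zero_mem _, by simp, by simpa using n⟩
  obtain ⟨x, x1, x2⟩ := h1.exists_mem_open (isOpen_lt continuous_const y.continuous.norm (f := fun _ => t))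
    (by_contra fun m => k.not_ge ((y.norm_le n).2 fun x => not_lt.1 fun j => m ⟨x, j⟩))
  exact ⟨δ ⟨x, x1⟩, d3 _ ▸ Submodule.sum_mem _ fun C _ => Submodule.subset_span ⟨C, rfl⟩,
    ContinuousLinearMap.opNorm_le_bound _ zero_le_one fun z =>
      (z.norm_coe_le_norm x).trans_eq (one_mul _).symm, x2⟩

lemma cl {Ω : Type} (s : Finset Ω) (ζ : Ω) :
    IsClosed {x : Ω → Bool | (∀ ξ ∈ s, x ξ) → x ζ} := by
  simp only [imp_iff_not_or (b := _ = true) (a := ∀ ξ ∈ s, _), ofPred_or]
  refine IsClosed.union (IsOpen.isClosed_compl (s := {x : Ω → Bool | ∀ ξ ∈ s, x ξ}) ?_)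
    (isClosed_eq (continuous_apply ζ) continuous_const)
  simp only [ofPred_forall]
  exact isOpen_biInter_finset fun ξ _ => 
    (isOpen_discrete {true}).preimage (continuous_apply (A := fun _ => Bool) ξ)

lemma tight {E : Type} [NormedAddCommGroup E] [NormedSpace ℝ E] {A : Set (WeakSpace ℝ E)}
    {x : WeakSpace ℝ E} (h : x ∈ closure A) : ∃ C ⊆ A, C.Countable ∧ x ∈ closure C := by
  have c : ∀ f : E →L[ℝ] ℝ, Continuous fun y : WeakSpace ℝ E => f y := fun f =>
    WeakBilin.eval_continuous _ f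
  have : ∀ n k : ℕ, ∃ t : Finset A, (univ.pi fun _ : Fin n =>
      WeakDual.toStrongDual ⁻¹' Metric.closedBall (0 : StrongDual ℝ E) k) ⊆
      ⋃ a ∈ t, {f | ∀ i, |f i a.1 - f i x| < 1 / ((k : ℝ) + 1)} := fun n k =>
    (isCompact_univ_pi fun _ => WeakDual.isCompact_closedBall 0 k).elim_finite_subcover _
      (fun a => by
        rw [ofPred_forall]
        exact isOpen_iInter_of_finite fun i => isOpen_lt (((WeakDual.eval_continuous _).sub
          (WeakDual.eval_continuous _)).comp (continuous_apply i)).abs continuous_const)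
      fun f _ => by
        obtain ⟨a, a1, a2⟩ := mem_closure_iff.1 h {y | ∀ i, |f i y - f i x| < 1 / ((k : ℝ) + 1)} (by
          rw [ofPred_forall]
          exact isOpen_iInter_of_finite fun i => isOpen_lt ((c (f i)).sub continuous_const).abs
            continuous_const) fun i => by simpa using by positivity
        exact mem_iUnion.2 ⟨⟨a, a2⟩, a1⟩
  choose t ht using this
  refine ⟨⋃ n, ⋃ k, Subtype.val '' (t n k : Set A), by simp, countable_iUnion fun n =>
    countable_iUnion fun k => (t n k).countable_toSet.image _, mem_closure_iff.2 ?_⟩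
  rintro _ ⟨V, hV, rfl⟩ m
  obtain ⟨G, ε, e, hG⟩ := H5C.pi_nhds hV m
  obtain ⟨k, k1, k2⟩ := ((tendsto_one_div_add_atTop_nhds_zero_nat.eventually (gt_mem_nhds e)).and
    (G.eventually_all.2 fun g _ => tendsto_natCast_atTop_atTop.eventually_ge_atTop ‖g‖)).exists
  obtain ⟨a, a1, a2⟩ := mem_iUnion₂.1 (ht G.card k (a := fun i => (G.equivFin.symm i).1)
    fun i _ => mem_closedBall_zero_iff.2 (k2 _ (G.equivFin.symm i).2))
  refine ⟨a, hG _ fun g m => lt_trans ?_ k1, mem_iUnion₂.2 ⟨_, k, a, a1, rfl⟩⟩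
  have := a2 (G.equivFin ⟨g, m⟩)
  beta_reduce at this
  rw [Equiv.symm_apply_apply] at this
  exact this

end H5M
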