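import Mathlib

/-! Monotonically monolithic compacta have a dense metrizable subspace. -/

open Set Topology Filter

namespace H5MM

variable {X : Type} [TopologicalSpace X]

def Dec (V N : Set X) : Prop := V ⊆ closure N ∨ Disjoint V N

lemma shrink [RegularSpace X] {𝓣 : Set (Set X)} (h : 𝓣.Finite) : ∀ W : Set X, IsOpen W →
    W.Nonempty → ∃ V, IsOpen V ∧ V.Nonempty ∧ closure V ⊆ W ∧ ∀ N ∈ 𝓣, Dec V N := by
  induction 𝓣, h using Set.Finite.induction_on with
  | empty =>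
    rintro W hW ⟨x, hx⟩
    obtain ⟨C, h1, h2, h3⟩ := exists_mem_nhds_isClosed_subset (hW.mem_nhds hx)
    exact ⟨interior C, isOpen_interior, ⟨x, mem_interior_iff_mem_nhds.2 h1⟩,
      (closure_minimal interior_subset h2).trans h3, by simp⟩
  | @insert N 𝓣 _ _ ih =>
    intro W hW hne
    by_cases hs : W ⊆ closure N
    · obtain ⟨V, h1, h2, h3, h4⟩ := ih W hW hne
      exact ⟨V, h1, h2, h3, forall_mem_insert.2 ⟨Or.inl (subset_closure.trans (h3.trans hs)), h4⟩⟩
    · obtain ⟨V, h1, h2, h3, h4⟩ := ih (W \ closure N) (hW.sdiff isClosed_closure)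
        (not_subset.1 hs)
      exact ⟨V, h1, h2, h3.trans sdiff_subset, forall_mem_insert.2 ⟨Or.inr (disjoint_left.2
        fun x hx hN => (h3 (subset_closure hx)).2 (subset_closure hN)), h4⟩⟩

lemma family [RegularSpace X] (𝓣 : Set (Set X)) (U : Set X) : ∃ 𝓒 : Set (Set X),
    𝓒.Pairwise Disjoint ∧ (∀ V ∈ 𝓒, IsOpen V ∧ closure V ⊆ U ∧ ∀ N ∈ 𝓣, Dec V N) ∧
      (𝓣.Finite → IsOpen U → U ⊆ closure (⋃₀ 𝓒)) := by
  obtain ⟨𝓒, hm⟩ := zorn_subset {𝓒 : Set (Set X) | 𝓒.Pairwise Disjoint ∧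
      ∀ V ∈ 𝓒, IsOpen V ∧ closure V ⊆ U ∧ ∀ N ∈ 𝓣, Dec V N} fun c hc hch =>
    ⟨⋃₀ c, ⟨(hch.pairwise_sUnion).2 fun s hs => (hc hs).1,
      fun V ⟨s, hs, hV⟩ => (hc hs).2 V hV⟩, fun s hs => subset_sUnion_of_mem hs⟩
  refine ⟨𝓒, hm.prop.1, hm.prop.2, fun hT hU => by_contra fun hn => ?_⟩
  obtain ⟨V, h1, ⟨x, hx⟩, h3, h4⟩ := shrink hT (U \ closure (⋃₀ 𝓒))
    (hU.sdiff isClosed_closure) (not_subset.1 hn)
  have hd : ∀ W ∈ 𝓒, Disjoint V W := fun W hW => disjoint_left.2 fun y hy hy' =>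
    (h3 (subset_closure hy)).2 (subset_closure ⟨W, hW, hy'⟩)
  have := hm.le_of_ge (y := insert V 𝓒) ⟨hm.prop.1.insert fun W hW _ => ⟨hd W hW, (hd W hW).symm⟩,
    forall_mem_insert.2 ⟨⟨h1, h3.trans sdiff_subset, h4⟩, hm.prop.2⟩⟩ (subset_insert _ _)
  exact disjoint_left.1 (hd V (this (mem_insert _ _))) hx hx

variable [RegularSpace X] (e : Set X → ℕ → Set X) (p : Set X → X)

def task (n : ℕ) (A : Set X) : Set (Set X) := image2 e (𝒫 A) (Iic n)

noncomputable def ch (n : ℕ) (σ : Set X × Set X) : Set (Set X) :=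
  (family (task e n σ.2) σ.1).choose

noncomputable def br (x : X) : ℕ → Set X × Set X
  | 0 => (univ, ∅)
  | n + 1 => (⋃₀ {V ∈ ch e n (br x n) | x ∈ V}, insert (p (br x n).1) (br x n).2)

lemma br_fin (x : X) : ∀ n, (br e p x n).2.Finite
  | 0 => finite_empty
  | n + 1 => (br_fin x n).insert _

lemma br_eq {x : X} {n : ℕ} {V : Set X} (h : V ∈ ch e n (br e p x n)) (hx : x ∈ V) :
    (br e p x (n + 1)).1 = V := by
  refine subset_antisymm (sUnion_subset fun W hW => ?_) (subset_sUnion_of_mem ⟨h, hx⟩)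
  by_contra hn
  exact disjoint_left.1 ((family _ _).choose_spec.1 hW.1 h fun e => hn e.subset) hW.2 hx

lemma br_mem {x : X} {n : ℕ} (h : x ∈ (br e p x (n + 1)).1) :
    (br e p x (n + 1)).1 ∈ ch e n (br e p x n) := by
  obtain ⟨V, hV, -⟩ := h
  rw [br_eq e p hV.1 hV.2]; exact hV.1

lemma br_loc (x : X) : ∀ n, x ∈ (br e p x n).1 → IsOpen (br e p x n).1 ∧
    ∀ y ∈ (br e p x n).1, br e p y n = br e p x n
  | 0 => fun _ => ⟨isOpen_univ, fun _ _ => rfl⟩
  | n + 1 => fun h => by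
    have h1 := br_mem e p h
    have h2 := (family _ _).choose_spec.2.1 _ h1
    refine ⟨h2.1, fun y hy => ?_⟩
    have h3 := (br_loc x n (h2.2.1 (subset_closure h))).2 y (h2.2.1 (subset_closure hy))
    refine Prod.ext (br_eq e p (by rw [h3]; exact h1) hy) ?_
    simp only [br, h3]

lemma br_dense : ∀ n, Dense {x | x ∈ (br e p x n).1}
  | 0 => by simp [br]
  | n + 1 => dense_iff_closure_eq.2 (eq_univ_of_univ_subset <| by
      rw [← (br_dense n).closure_eq]
      refine closure_minimal (fun x hx => ?_) isClosed_closure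
      have h := br_loc e p x n hx
      refine closure_mono ?_ ((family _ _).choose_spec.2.2
        ((br_fin e p x n).finite_subsets.image2 e (finite_Iic n)) h.1 hx)
      rintro y ⟨V, hV, hy⟩
      have h3 := h.2 y (((family _ _).choose_spec.2.1 _ hV).2.1 (subset_closure hy))
      exact ⟨V, ⟨by rw [h3]; exact hV, hy⟩, hy⟩)

theorem tree [CompactSpace X] [T2Space X] (O : Set X → Set (Set X))
    (h1 : ∀ A : Set X, A.Finite → (O A).Countable)
    (h2 : ∀ A : Set X, ∀ x ∈ closure A, ∀ U, IsOpen U → x ∈ U → ∃ N ∈ O A, x ∈ N ∧ N ⊆ U)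
    (h3 : ∀ A : ℕ → Set X, Monotone A → O (⋃ n, A n) ⊆ ⋃ n, O (A n)) :
    ∃ U : X → ℕ → Set X, Dense {x | ∀ n, x ∈ U x n} ∧
      (∀ x n, x ∈ U x n → IsOpen (U x n) ∧ ∀ y ∈ U x n, U y n = U x n) ∧
      ∀ x, (∀ n, x ∈ U x n) → ∀ W ∈ 𝓝 x, ∃ n, U x n ⊆ W := by
  cases isEmpty_or_nonempty X
  · exact ⟨fun _ _ => ∅, fun x => isEmptyElim x, fun x => isEmptyElim x, fun x => isEmptyElim x⟩
  have : ∀ A : Set X, ∃ e : ℕ → Set X, A.Finite → O A ⊆ range e := fun A => by
    by_cases h : A.Finite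
    · obtain ⟨e, he⟩ := countable_iff_exists_subset_range.1 (h1 A h)
      exact ⟨e, fun _ => he⟩
    · exact ⟨fun _ => ∅, fun h' => (h h').elim⟩
  choose e he using this
  let p : Set X → X := fun U => Classical.epsilon (· ∈ U)
  refine ⟨fun x n => (br e p x n).1, ?_, fun x n h => ⟨(br_loc e p x n h).1,
    fun y hy => congrArg Prod.fst ((br_loc e p x n h).2 y hy)⟩, fun x hx W hW => ?_⟩
  · rw [ofPred_forall]
    refine dense_iInter_of_isOpen (fun n => isOpen_iff_forall_mem_open.2 fun x hx =>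
      ⟨_, fun y hy => ?_, (br_loc e p x n hx).1, hx⟩) (br_dense e p)
    change y ∈ (br e p y n).1
    rw [(br_loc e p x n hx).2 y hy]; exact hy
  have sp := fun n => (family _ _).choose_spec.2.1 _ (br_mem e p (hx (n + 1)))
  have anti : Antitone fun n => (br e p x n).1 :=
    antitone_nat_of_succ_le fun n => subset_closure.trans (sp n).2.1
  have mono : Monotone fun n => (br e p x n).2 :=
    monotone_nat_of_le_succ fun n => subset_insert _ _
  obtain ⟨z, hz⟩ := exists_clusterPt_of_compactSpace (map (fun n => p (br e p x n).1) atTop)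
  have z1 : ∀ n, z ∈ (br e p x n).1 := fun n => (sp n).2.1 (hz.mem_closure_of_mem _ <| mem_map.2 <| by
    filter_upwards [eventually_ge_atTop (n + 1)] with k hk
    exact anti hk (Classical.epsilon_spec ⟨x, hx k⟩))
  have z2 : z ∈ closure (⋃ n, (br e p x n).2) := hz.mem_closure_of_mem _
    (mem_map.2 (Eventually.of_forall fun k => mem_iUnion.2 ⟨k + 1, mem_insert _ _⟩))
  have uniq : ∀ y, (∀ n, y ∈ (br e p x n).1) → y = z := fun y hy => by
    by_contra hne
    obtain ⟨C, c1, c2, c3⟩ := exists_mem_nhds_isClosed_subset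
      (isOpen_compl_singleton.mem_nhds (show z ∈ ({y}ᶜ : Set X) from Ne.symm hne))
    obtain ⟨N, hN, n1, n2⟩ := h2 _ z z2 _ isOpen_interior (mem_interior_iff_mem_nhds.2 c1)
    obtain ⟨n, hn⟩ := mem_iUnion.1 (h3 _ mono hN)
    obtain ⟨k, rfl⟩ := he _ (br_fin e p x n) hn
    rcases (sp (max n k)).2.2 _ ⟨_, mono (le_max_left n k), k, le_max_right n k, rfl⟩ with h | h
    · exact c3 (closure_minimal (n2.trans interior_subset) c2 (h (hy _))) rfl
    · exact disjoint_left.1 h (z1 _) n1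
  obtain ⟨n, hn⟩ := exists_subset_nhds_of_compactSpace
    (V := fun n => closure (br e p x (n + 1)).1)
    (Antitone.directed_ge fun a b hab => closure_mono (anti (Nat.succ_le_succ hab)))
    (fun _ => isClosed_closure) (U := W) fun y hy => by
      rw [uniq y fun n => (sp n).2.1 (mem_iInter.1 hy n), ← uniq x hx]; exact hW
  exact ⟨n + 1, subset_closure.trans hn⟩

omit [RegularSpace X] in
lemma metr [T2Space X] {U : X → ℕ → Set X}
    (h1 : ∀ x n, x ∈ U x n → IsOpen (U x n) ∧ ∀ y ∈ U x n, U y n = U x n)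
    (h2 : ∀ x, (∀ n, x ∈ U x n) → ∀ W ∈ 𝓝 x, ∃ n, U x n ⊆ W) :
    TopologicalSpace.MetrizableSpace {x | ∀ n, x ∈ U x n} := by
  let : TopologicalSpace (Set X) := ⊥
  have : DiscreteTopology (Set X) := ⟨rfl⟩
  have : IsInducing fun x : {x | ∀ n, x ∈ U x n} => U x.1 := by
    refine isInducing_iff_nhds.2 fun x => le_antisymm (Tendsto.le_comap ?_) fun W hW => ?_
    · refine tendsto_pi_nhds.2 fun n => tendsto_const_nhds.congr' ?_
      filter_upwards [continuous_subtype_val.continuousAt ((h1 _ n (x.2 n)).1.mem_nhds (x.2 n))]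
        with y hy using ((h1 _ n (x.2 n)).2 y hy).symm
    · obtain ⟨V, hV, hs⟩ := (mem_nhds_subtype _ _ _).1 hW
      obtain ⟨n, hn⟩ := h2 x.1 x.2 V hV
      exact ⟨(fun u => u n) ⁻¹' {U x.1 n}, (continuous_apply n).continuousAt
        ((isOpen_discrete _).mem_nhds rfl), fun y hy => hs (hn (by
          rw [← show U y.1 n = U x.1 n from hy]; exact y.2 n))⟩
  exact this.isEmbedding.metrizableSpace

omit [RegularSpace X] in
lemma sep (hc : ∀ F : Set (Set X), (∀ U ∈ F, IsOpen U ∧ U.Nonempty) → F.PairwiseDisjoint id →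
      F.Countable) {U : X → ℕ → Set X} (h0 : Dense {x | ∀ n, x ∈ U x n})
    (h1 : ∀ x n, x ∈ U x n → IsOpen (U x n) ∧ ∀ y ∈ U x n, U y n = U x n)
    (h2 : ∀ x, (∀ n, x ∈ U x n) → ∀ W ∈ 𝓝 x, ∃ n, U x n ⊆ W) :
    ∃ S : Set X, S.Countable ∧ Dense S := by
  cases isEmpty_or_nonempty X
  · exact ⟨∅, countable_empty, fun x => isEmptyElim x⟩
  refine ⟨⋃ n, (fun V => Classical.epsilon (· ∈ V)) '' ((U · n) '' {x | x ∈ U x n}),
    countable_iUnion fun n => (hc _ ?_ ?_).image _, dense_iff_inter_open.2 fun W hW hne => ?_⟩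
  · rintro _ ⟨x, hx, rfl⟩
    exact ⟨(h1 x n hx).1, x, hx⟩
  · rintro _ ⟨x, hx, rfl⟩ _ ⟨y, hy, rfl⟩ hne
    exact disjoint_left.2 fun z a b => hne (((h1 x n hx).2 z a).symm.trans ((h1 y n hy).2 z b))
  · obtain ⟨x, hx, hx'⟩ := h0.inter_open_nonempty W hW hne
    obtain ⟨n, hn⟩ := h2 x hx' W (hW.mem_nhds hx)
    exact ⟨_, hn (Classical.epsilon_spec ⟨x, hx' n⟩), mem_iUnion.2 ⟨n, _, ⟨x, hx' n, rfl⟩, rfl⟩⟩

lemma metr_of_net [CompactSpace X] [T2Space X] {𝓝' : Set (Set X)} (hc : 𝓝'.Countable)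
    (h : ∀ x U, IsOpen U → x ∈ U → ∃ N ∈ 𝓝', x ∈ N ∧ N ⊆ U) :
    TopologicalSpace.MetrizableSpace X := by
  have : ∀ q : Set X × Set X, ∃ f : C(X, ℝ), Disjoint (closure q.1) (closure q.2) →
      EqOn f 0 (closure q.1) ∧ EqOn f 1 (closure q.2) := fun q => by
    by_cases hd : Disjoint (closure q.1) (closure q.2)
    · obtain ⟨f, a, b, -⟩ := exists_continuous_zero_one_of_isClosed isClosed_closure
        isClosed_closure hd
      exact ⟨f, fun _ => ⟨a, b⟩⟩
    · exact ⟨0, fun h => (hd h).elim⟩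
  choose f hf using this
  have := (hc.prod hc).to_subtype
  have hj : Continuous fun (x : X) (q : 𝓝' ×ˢ 𝓝') => f q.1 x :=
    continuous_pi fun q => (f q.1).continuous
  refine (hj.isClosedEmbedding fun x y hxy => by_contra fun hne => ?_).isEmbedding.metrizableSpace
  obtain ⟨u, v, hu, hv, xu, yv, huv⟩ := t2_separation hne
  obtain ⟨C, c1, c2, c3⟩ := exists_mem_nhds_isClosed_subset (hu.mem_nhds xu)
  obtain ⟨D, d1, d2, d3⟩ := exists_mem_nhds_isClosed_subset (hv.mem_nhds yv)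
  obtain ⟨N, n1, n2, n3⟩ := h x _ isOpen_interior (mem_interior_iff_mem_nhds.2 c1)
  obtain ⟨M, m1, m2, m3⟩ := h y _ isOpen_interior (mem_interior_iff_mem_nhds.2 d1)
  have := hf (N, M) (huv.mono ((closure_minimal (n3.trans interior_subset) c2).trans c3)
    ((closure_minimal (m3.trans interior_subset) d2).trans d3))
  have e := congrFun hxy ⟨(N, M), n1, m1⟩
  simp only [this.1 (subset_closure n2), this.2 (subset_closure m2)] at e
  simp at e

end H5MM
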