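import Pool.Agent.Lib.helper5.Cube

/-! Countable additivity of omega-monolithity in function spaces. -/

open Set Filter Topology BoundedContinuousFunction

namespace H5M

variable {X Q : Type} [TopologicalSpace X]

lemma baire (φ : X → Q) (Y : ℕ → Set (X → ℝ)) (hY : (⋃ n, Y n) = {f : X → ℝ | Continuous f}) :
    ∃ n, ∃ f0 : X → ℝ, Continuous f0 ∧ f0.FactorsThrough φ ∧ ∃ ρ > 0, ∀ h : X → ℝ, Continuous h →
      h.FactorsThrough φ → (∀ x, |h x - f0 x| ≤ ρ) → ∀ ε > 0, ∃ k ∈ Y n, k.FactorsThrough φ ∧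
        ∀ x, |k x - h x| ≤ ε := by
  let B : Set (X →ᵇ ℝ) := {f | ∀ x y, φ x = φ y → f x = f y}
  have hB : IsClosed B := by
    simp only [B, ofPred_forall]
    exact isClosed_iInter fun x => isClosed_iInter fun y => isClosed_iInter fun _ =>
      isClosed_eq (by fun_prop) (by fun_prop)
  have := hB.completeSpace_coe
  have : Nonempty B := ⟨⟨0, fun _ _ _ => rfl⟩⟩
  obtain ⟨n, f0, hf⟩ := nonempty_interior_of_iUnion_of_closed
    (f := fun n => closure {b : B | ⇑b.1 ∈ Y n}) (fun _ => isClosed_closure)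
    (eq_univ_of_forall fun b => by
      obtain ⟨n, hn⟩ := mem_iUnion.1 (hY.ge b.1.continuous)
      exact mem_iUnion.2 ⟨n, subset_closure hn⟩)
  obtain ⟨r, r1, r2⟩ := Metric.mem_nhds_iff.1 (mem_interior_iff_mem_nhds.1 hf)
  refine ⟨n, f0.1, f0.1.continuous, f0.2, r / 2, half_pos r1, fun h h1 h2 h3 ε hε => ?_⟩
  let b : X →ᵇ ℝ := ofNormedAddCommGroup h h1 (‖f0.1‖ + r / 2) fun x => by
    have := f0.1.norm_coe_le_norm x
    have := abs_sub_abs_le_abs_sub (h x) (f0.1 x)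
    simp only [Real.norm_eq_abs] at *
    linarith [h3 x]
  obtain ⟨k, k1, k2⟩ := Metric.mem_closure_iff.1 (r2 (a := ⟨b, h2⟩) (lt_of_le_of_lt
    ((dist_le (half_pos r1).le).2 h3) (half_lt_self r1))) ε hε
  refine ⟨_, k1, k.2, fun x => ?_⟩
  rw [abs_sub_comm]
  exact (dist_coe_le_dist (f := b) (g := k.1) x).trans k2.le

omit [TopologicalSpace X] in
lemma sep [TopologicalSpace Q] [CompactSpace Q] [T35Space Q] [SecondCountableTopology Q]
    {φ : X → Q} : ∃ e : ℕ → C(Q, ℝ), ∀ h : X → ℝ, h.FactorsThrough φ →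
      h ∈ closure (range fun i => e i ∘ φ) := by
  classical
  refine ⟨TopologicalSpace.denseSeq _, fun h hh => mem_closure_iff.2 fun U u1 u2 => ?_⟩
  obtain ⟨G, hG⟩ := H5C.face_open u1 u2
  obtain ⟨g, g1, g2, -⟩ := H5C.interp (G.image φ) (φ.extend h 0) isClosed_empty (by simp)
  obtain ⟨i, hi⟩ := (TopologicalSpace.denseRange_denseSeq C(Q, ℝ)).exists_mem_open
    (u1.preimage (f := fun e : C(Q, ℝ) => e ∘ φ) (continuous_pi fun x => continuous_eval_const _))
    ⟨⟨g, g1⟩, hG fun x hx => (g2 _ (Finset.mem_image_of_mem _ hx)).trans (hh.extend_apply _ x)⟩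
  exact ⟨_, hi, i, rfl⟩

theorem monol (Y : ℕ → Set (X → ℝ)) (hY : (⋃ n, Y n) = {f : X → ℝ | Continuous f})
    (H : ∀ n, ∀ A : Set (X → ℝ), A ⊆ Y n → A.Countable → ∃ 𝒩 : Set (Set (X → ℝ)), 𝒩.Countable ∧
      ∀ x ∈ closure A ∩ Y n, ∀ U : Set (X → ℝ), IsOpen U → x ∈ U → ∃ N ∈ 𝒩, x ∈ N ∧ N ⊆ U)
    (A : Set (X → ℝ)) (hA : A ⊆ {f : X → ℝ | Continuous f}) (hc : A.Countable) :
    ∃ 𝒩 : Set (Set (X → ℝ)), 𝒩.Countable ∧ ∀ x ∈ closure A ∩ {f : X → ℝ | Continuous f},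
      ∀ U : Set (X → ℝ), IsOpen U → x ∈ U → ∃ N ∈ 𝒩, x ∈ N ∧ N ⊆ U := by
  have := hc.to_subtype
  let φ : X → A → EReal := fun x a => a.1 x
  have hφ : Continuous φ := continuous_pi fun a => continuous_coe_real_ereal.comp (hA a.2)
  obtain ⟨n, f0, f1, f2, ρ, r1, r2⟩ := baire φ Y hY
  obtain ⟨e, he⟩ := sep (φ := φ)
  let cl : (X → ℝ) → X → ℝ := fun g x => f0 x + max (-ρ) (min ρ (g x))
  have : ∀ i (m : ℕ), ∃ k ∈ Y n, ∀ x, |k x - cl (e i ∘ φ) x| ≤ 1 / (m + 1) := fun i m => by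
    obtain ⟨k, k1, -, k3⟩ := r2 (cl (e i ∘ φ)) (by fun_prop) (fun x y h => by
      simp only [cl, f2 h, Function.comp, h]) (fun x => by
        simp only [cl, add_sub_cancel_left, abs_le, le_max_left, max_le_iff, min_le_left]
        simp [r1.le]) (1 / (m + 1)) (by positivity)
    exact ⟨k, k1, k3⟩
  choose k k1 k2 using this
  have c1 : ∀ h : X → ℝ, h.FactorsThrough φ → (∀ x, |h x - f0 x| ≤ ρ) →
      h ∈ closure (range fun p : ℕ × ℕ => k p.1 p.2) := fun h h1 h2 => by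
    have : h = cl (h - f0) := funext fun x => by
      simp [cl, (abs_le.1 (h2 x)).1, (abs_le.1 (h2 x)).2]
    rw [this, ← closure_closure]
    refine map_mem_closure (by fun_prop) (he _ fun x y e => by simp [h1 e, f2 e]) ?_
    rintro _ ⟨i, rfl⟩
    refine mem_closure_of_tendsto (f := k i) (b := atTop) (tendsto_pi_nhds.2 fun x => ?_)
      (.of_forall fun m => ⟨(i, m), rfl⟩)
    exact tendsto_iff_dist_tendsto_zero.2 (squeeze_zero (fun _ => dist_nonneg) (fun m => k2 i m x)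
      tendsto_one_div_add_atTop_nhds_zero_nat)
  obtain ⟨𝒩, n1, n2⟩ := H n (range fun p : ℕ × ℕ => k p.1 p.2) (range_subset_iff.2 fun _ => k1 _ _)
    (countable_range _)
  let T : (X → ℝ) → X → ℝ := Pi.map fun x t => f0 x + ρ / 4 * Real.arctan t
  have hT : IsInducing T := IsInducing.piMap fun x => (StrictMono.isEmbedding_of_ordConnected
    ((Real.arctan_strictMono.const_mul (by positivity)).const_add _)
    (isPreconnected_range (by fun_prop)).ordConnected).isInducing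
  refine ⟨image2 (fun N (m : ℕ) => {g | ∃ k ∈ N, ∀ x, |k x - T g x| ≤ 1 / (m + 1)}) 𝒩 univ,
    n1.image2 countable_univ _, fun g ⟨g1, g2⟩ U u1 u2 => ?_⟩
  obtain ⟨V, v1, rfl⟩ := hT.isOpen_iff.1 u1
  obtain ⟨G, ε, e1, e2⟩ := H5C.pi_nhds v1 u2
  obtain ⟨m, hm⟩ := exists_nat_one_div_lt (lt_min (by positivity : 0 < ε / 3) (half_pos r1))
  have b : ∀ x, |T g x - f0 x| ≤ ρ / 2 := fun x => by
    have := Real.arctan_mem_Ioo (g x)
    have := Real.pi_le_four
    simp only [T, Pi.map_apply, add_sub_cancel_left, abs_le, mem_Ioo] at *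
    constructor <;> nlinarith
  have g3 : Continuous g := g2
  obtain ⟨l, l1, l2, l3⟩ := r2 (T g) (show Continuous fun x => f0 x + ρ / 4 * Real.arctan (g x) by
    fun_prop) (fun x y h => by
      have : g x = g y := closure_minimal (t := {g : X → ℝ | g x = g y}) (fun a ha =>
        EReal.coe_eq_coe_iff.1 (congrFun h ⟨a, ha⟩)) (isClosed_eq (by fun_prop) (by fun_prop)) g1
      simp only [T, Pi.map_apply, this, f2 h]) (fun x => (b x).trans (half_le_self r1.le))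
    (1 / (m + 1)) (by positivity)
  rw [lt_min_iff] at hm
  obtain ⟨N, a1, a2, a3⟩ := n2 l ⟨c1 l l2 fun x => by
    linarith [abs_sub_le (l x) (T g x) (f0 x), l3 x, b x], l1⟩ _ (H5C.isOpen_box G l (ε / 3))
    fun a _ => by simpa using e1
  refine ⟨_, ⟨N, a1, m, trivial, rfl⟩, ⟨l, a2, l3⟩, fun g' ⟨l', b1, b2⟩ => e2 _ fun x hx => ?_⟩
  have := a3 b1 x hx
  rw [Real.dist_eq] at this ⊢
  linarith [abs_sub_le (T g' x) (l' x) (T g x), abs_sub_le (l' x) (l x) (T g x), l3 x, b2 x,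
    abs_sub_comm (l' x) (T g' x)]

end H5M
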