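import Pool.Agent.Lib.helper5.Cube

/-! Function spaces that do not embed in analytic spaces. -/

open Set Filter Topology

namespace H5N

open H5C (Cp)

def O (x : ℕ → ℕ) (n : ℕ) : Set (ℕ → ℝ) := {w | ∀ j ∈ Finset.range n, dist (w j) (x j) < 1 / (n + 2)}

def V (x : ℕ → ℕ) (n : ℕ) : Set C(ℕ → ℝ, ℝ) := {φ | ∀ w, φ w ≠ 0 → w ∈ O x n}

lemma V_mono {x y : ℕ → ℕ} {m n : ℕ} (h : ∀ j < m, y j = x j) (h' : m ≤ n) : V y n ⊆ V x m :=
  fun φ hφ w hw j hj => by
    have hj := Finset.mem_range.1 hj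
    have : (m : ℝ) ≤ n := Nat.cast_le.2 h'
    rw [← h j hj]
    exact (hφ w hw j (Finset.mem_range.2 (by omega))).trans_le
      (one_div_le_one_div_of_le (by positivity) (by linarith))

variable {Y : Type} (g : (ℕ → ℕ) → Y) (E : C(ℕ → ℝ, ℝ) → Y)

def Fail (m : ℕ) (x : ℕ → ℕ) (n : ℕ) : Prop := ∀ φ ∈ V x n, ∃ q : ℕ → ℕ,
  (∀ k, Nat.pair m k < n → q k = x (Nat.pair m k)) ∧ ∃ ψ ∈ V x m, g q = E ψ ∧
    ∀ y : ℕ → ℕ, (∀ j < n, y j = x j) → ψ (fun j => y j) = φ fun j => y j

lemma step (hg : Function.Surjective g) (x : ℕ → ℕ) (n : ℕ) (h : ∀ m ≤ n, Fail g E m x n) :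
    ∃ i, ∀ y : ℕ → ℕ, (∀ j < n, y j = x j) → y n = i → ∀ m ≤ n + 1, Fail g E m y (n + 1) := by
  obtain ⟨i, hi⟩ : ∃ i, ∀ y : ℕ → ℕ, (∀ j < n, y j = x j) → y n = i →
      Fail g E n.unpair.1 y (n + 1) := by
    by_contra hn
    simp only [Fail] at hn
    push Not at hn
    choose y y1 y2 φ p1 p2 using hn
    have p3 : ∀ i w, φ i w ≠ 0 → dist (w n) i < 1 := fun i w hw => by
      have := p1 i w hw n (by simp)
      rw [y2] at this
      exact this.trans_le ((div_le_one (by positivity)).2 (by norm_cast; omega))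
    obtain ⟨q, q1, ψ, q2, q3, q4⟩ := h _ n.unpair_left_le ⟨fun w => ∑ᶠ i, φ i w,
      continuous_finsum (fun i => (φ i).2) fun w => ⟨{v | v n < w n + 1},
        (isOpen_lt (continuous_apply n) continuous_const).mem_nhds (by simp),
        (finite_Iic ⌈w n + 2⌉₊).subset fun i ⟨v, v1, v2⟩ => by
          have := abs_lt.1 (p3 i v v1)
          have v2 : v n < w n + 1 := v2
          exact Nat.cast_le.1 ((by linarith : (i : ℝ) ≤ w n + 2).trans (Nat.le_ceil _))⟩⟩
      fun w hw => by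
        obtain ⟨i, hi⟩ : ∃ i, φ i w ≠ 0 := by_contra fun hn => hw (finsum_eq_zero_of_forall_eq_zero
          (by simpa using hn))
        exact V_mono (y1 i) n.le_succ (p1 i) w hi
    obtain ⟨z, z1, z2⟩ := p2 (q n.unpair.2) q (fun k hk => by
      rcases Nat.lt_succ_iff_lt_or_eq.1 hk with hk | hk
      · rw [q1 k hk, y1 _ _ hk]
      · rw [hk, y2, ← hk, Nat.unpair_pair]) ψ (V_mono (fun j hj =>
        (y1 _ j (hj.trans_le n.unpair_left_le)).symm) le_rfl q2) q3
    refine z2 ((q4 z fun j hj => (z1 j (by omega)).trans (y1 _ j hj)).trans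
      (finsum_eq_single _ _ fun i hi => by_contra fun h => hi ?_))
    have := p3 i _ h
    beta_reduce at this
    rw [z1 n (by omega), y2, Nat.dist_cast_real] at this
    exact (Nat.pairwise_one_le_dist.eq this.not_ge).symm
  refine ⟨i, fun y y1 y2 m hm φ hφ => ?_⟩
  rcases eq_or_ne m n.unpair.1 with rfl | h1
  · exact hi y y1 y2 φ hφ
  rcases hm.eq_or_lt with rfl | h2
  · obtain ⟨q, hq⟩ := hg (E φ)
    exact ⟨q, fun k hk => absurd (Nat.left_le_pair _ _) hk.not_ge, φ, hφ, hq, fun _ _ => rfl⟩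
  obtain ⟨q, q1, ψ, q2, q3, q4⟩ := h m (by omega) φ (V_mono y1 n.le_succ hφ)
  refine ⟨q, fun k hk => ?_, ψ, V_mono (fun j hj => (y1 j (by omega)).symm) le_rfl q2, q3,
    fun z hz => q4 z fun j hj => (hz j (by omega)).trans (y1 j hj)⟩
  rcases Nat.lt_succ_iff_lt_or_eq.1 hk with hk | hk
  · rw [q1 k hk, y1 _ hk]
  · exact absurd (by rw [← hk, Nat.unpair_pair]) h1

lemma diag (hg : Function.Surjective g) : ∃ x : ℕ → ℕ, ∀ n, ∀ m ≤ n, Fail g E m x n := by
  choose! ι hι using step g E hg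
  let s : ℕ → ℕ → ℕ := fun n => n.rec 0 fun n y => Function.update y n (ι y n)
  have s1 : ∀ n, ∀ j < n, s (j + 1) j = s n j := fun n => by
    induction n with
    | zero => simp
    | succ n ih =>
      intro j hj
      rcases Nat.lt_succ_iff_lt_or_eq.1 hj with h | rfl
      · exact (ih j h).trans (Function.update_of_ne h.ne _ _).symm
      · rfl
  have b : ∀ x, ∀ m ≤ 0, Fail g E m x 0 := fun x m hm φ hφ => by
    obtain ⟨q, hq⟩ := hg (E φ)
    exact ⟨q, by simp, φ, V_mono (by omega) hm hφ, hq, fun _ _ => rfl⟩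
  have s2 : ∀ n : ℕ, ∀ m ≤ n, Fail g E m (s n) n := Nat.rec (b _) fun n ih =>
    hι _ n ih _ (fun j hj => Function.update_of_ne hj.ne _ _) (Function.update_self ..)
  refine ⟨fun j => s (j + 1) j, fun n => ?_⟩
  cases n with
  | zero => exact b _
  | succ n => exact hι _ n (s2 n) _ (s1 n) (Function.update_self ..)

theorem main {W : Type} [TopologicalSpace W] [TopologicalSpace Y] [RegularSpace Y]
    {r : W → ℕ → ℝ} (r1 : Continuous r) (r2 : ∀ x : ℕ → ℕ, ∃ w, r w = fun j => (x j : ℝ))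
    {g : (ℕ → ℕ) → Y} (g1 : Continuous g) (g2 : Function.Surjective g) {e : Cp W → Y}
    (he : IsInducing e) : False := by
  obtain ⟨x, hx⟩ := diag g (fun φ => e ⟨φ ∘ r, φ.2.comp r1⟩) g2
  obtain ⟨w, hw⟩ := r2 x
  obtain ⟨N, n1, n2, n3⟩ := exists_mem_nhds_isClosed_subset (x := e ⟨0, continuous_const⟩)
    (isClosed_closure (s := e '' {f | f.1 w = 1}).isOpen_compl.mem_nhds fun h => by
      rw [← mem_preimage, ← he.closure_eq_preimage_closure_image] at h
      simpa using (isClosed_eq ((continuous_apply w).comp continuous_subtype_val)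
        continuous_const).closure_subset h)
  obtain ⟨G, ε, e1, e2⟩ := H5C.cp_nhds (isOpen_interior.preimage he.continuous)
    (mem_interior_iff_mem_nhds.2 n1)
  obtain ⟨m, hm⟩ := ((eventually_all_finset G (l := atTop) (p := fun v m => r v ∈ O x m →
    r v = r w)).2 fun v _ => by
      by_cases h : r v = r w
      · exact .of_forall fun _ _ => h
      obtain ⟨j, hj⟩ := Function.ne_iff.1 h
      obtain ⟨k, hk⟩ := exists_nat_one_div_lt (dist_pos.2 hj)
      filter_upwards [eventually_gt_atTop j, eventually_ge_atTop k] with m h1 h2 h3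
      have := h3 j (Finset.mem_range.2 h1)
      have : (k : ℝ) ≤ m := Nat.cast_le.2 h2
      have : (1 / (m + 2) : ℝ) ≤ 1 / (k + 1) := one_div_le_one_div_of_le (by positivity) (by linarith)
      rw [hw] at hk
      linarith).exists
  have t : ∀ q : ℕ → ℕ → ℕ, (∀ n k, Nat.pair m k < m + n → q n k = x (Nat.pair m k)) →
      Tendsto (g ∘ q) atTop (𝓝 (g fun k => x (Nat.pair m k))) := fun q hq =>
    (g1.tendsto _).comp (tendsto_pi_nhds.2 fun k => tendsto_const_nhds.congr'
      ((eventually_gt_atTop (Nat.pair m k)).mono fun n hn => (hq n k (by omega)).symm))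
  choose q q1 ψ q2 q3 q4 using fun n => hx (m + n) m (by omega) 0 fun _ h => absurd rfl h
  have : ∀ n, ∃ φ ∈ V x n, φ (fun j => x j) = 1 := fun n => by
    obtain ⟨φ, p1, p2, p3⟩ := H5C.interp {fun j => (x j : ℝ)} 1
      (H5C.isOpen_box (Finset.range n) (fun j => (x j : ℝ)) (1 / (n + 2))).isClosed_compl
      (by simp; intros; positivity)
    exact ⟨⟨φ, p1⟩, fun w hw => by_contra fun h => hw (p3 w h), p2 _ (by simp)⟩
  choose φ p1 p2 using this
  choose q' a1 ψ' _ a3 a4 using fun n => hx (m + n) m (by omega) _ (p1 _)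
  refine n3 (n2.mem_of_tendsto (t q q1) (.of_forall fun n => ?_)) (mem_closure_of_tendsto (t q' a1)
    (.of_forall fun n => ⟨_, ?_, (a3 n).symm⟩))
  · refine mem_of_eq_of_mem (q3 n) (interior_subset (e2 _ fun v hv => ?_))
    have : ψ n (r v) = 0 := by_contra fun h => h (by
      rw [hm v hv (q2 n _ h), hw, q4 n x fun _ _ => rfl]; rfl)
    simpa [this] using e1
  · exact (congrArg (ψ' n) hw).trans ((a4 n x fun _ _ => rfl).trans (p2 _))

end H5N
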