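import Pool.Agent.Lib.helper5.Sat
import Pool.Agent.Lib.helper5.Cube

/-! Point-finite cellularity of function spaces. -/

open Set Filter Topology Cardinal

namespace H5E

universe u

lemma compat {J X W : Type*} [Nonempty W] (V : Finset W) (h : J → X → W) (k : ℕ) :
    ∀ (G : J → Finset X) (S : Set J), S.Infinite → (∀ j ∈ S, (G j).card ≤ k) →
      (∀ j ∈ S, ∀ x ∈ G j, h j x ∈ V) →
      ∃ S' ⊆ S, S'.Infinite ∧ ∃ g : X → W, ∀ j ∈ S', ∀ x ∈ G j, g x = h j x := by
  classical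
  induction k with
  | zero =>
    intro G S h1 h2 _
    exact ⟨S, subset_rfl, h1, fun _ => Classical.arbitrary W, fun j hj x hx => by
      simp [Finset.card_eq_zero.1 (Nat.le_zero.1 (h2 j hj))] at hx⟩
  | succ k ih =>
    intro G S h1 h2 h3
    by_cases hx : ∃ x, {j ∈ S | x ∈ G j}.Infinite
    · obtain ⟨x, hx⟩ := hx
      obtain ⟨v, -, hv⟩ : ∃ v ∈ V, {j ∈ S | x ∈ G j ∧ h j x = v}.Infinite := by
        by_contra hc
        push Not at hc
        exact hx ((V.finite_toSet.biUnion hc).subset fun j hj =>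
          mem_biUnion (h3 j hj.1 x hj.2) ⟨hj.1, hj.2, rfl⟩)
      obtain ⟨S', s1, s2, g, hg⟩ := ih (fun j => (G j).erase x) _ hv (fun j hj => by
        have := h2 j hj.1
        rw [Finset.card_erase_of_mem hj.2.1]; omega)
        fun j hj y hy => h3 j hj.1 y (Finset.mem_of_mem_erase hy)
      refine ⟨S', fun j hj => (s1 hj).1, s2, Function.update g x v, fun j hj y hy => ?_⟩
      by_cases e : y = x
      · rw [e, Function.update_self, (s1 hj).2.2]
      · rw [Function.update_of_ne e, hg j hj y (Finset.mem_erase.2 ⟨e, hy⟩)]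
    · push Not at hx
      obtain ⟨S', hS⟩ := zorn_subset {T : Set J | T ⊆ S ∧ T.Pairwise fun i j => Disjoint (G i) (G j)}
        fun c hc hc' => ⟨⋃₀ c, ⟨sUnion_subset fun T hT => (hc hT).1,
          (pairwise_sUnion hc'.directedOn).2 fun T hT => (hc hT).2⟩, fun _ => subset_sUnion_of_mem⟩
      refine ⟨S', hS.prop.1, fun hf => ?_, fun x => if e : ∃ j ∈ S', x ∈ G j then h e.choose x
        else Classical.arbitrary W, fun j hj x hx => ?_⟩
      · obtain ⟨i, i1, i2⟩ := h1.exists_notMem_finite (hf.union (hf.biUnion fun j _ =>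
          (G j).finite_toSet.biUnion fun x _ => hx x))
        have d : ∀ j ∈ S', Disjoint (G i) (G j) := fun j hj => Finset.disjoint_left.2
          fun x x1 x2 => i2 (Or.inr (mem_biUnion hj (mem_biUnion x2 ⟨i1, x1⟩)))
        exact i2 (Or.inl (hS.le_of_ge (y := insert i S') ⟨insert_subset i1 hS.prop.1,
          hS.prop.2.insert fun j hj _ => ⟨d j hj, (d j hj).symm⟩⟩ (subset_insert _ _)
          (mem_insert _ _)))
      · have e : ∃ j ∈ S', x ∈ G j := ⟨j, hj, hx⟩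
        simp only [dif_pos e]
        rw [show e.choose = j from by_contra fun hne => Finset.disjoint_left.1
          (hS.prop.2 e.choose_spec.1 hj hne) e.choose_spec.2 hx]

/-- cardinalities of point-finite open families -/
def PF (Y : Type u) [TopologicalSpace Y] : Set Cardinal.{u} :=
  {c | ∃ 𝒰 : Set (Set Y), (∀ U ∈ 𝒰, IsOpen U ∧ U.Nonempty) ∧
    (∀ y : Y, {U | U ∈ 𝒰 ∧ y ∈ U}.Finite) ∧ c = #𝒰}

lemma PF_bdd (Y : Type u) [TopologicalSpace Y] : BddAbove (PF Y) :=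
  ⟨#(Set Y), fun _ ⟨_, _, _, h⟩ => h ▸ mk_set_le _⟩

lemma PF_idx {Y J : Type u} [TopologicalSpace Y] (U : J → Set Y)
    (h1 : ∀ j, IsOpen (U j) ∧ (U j).Nonempty) (h2 : ∀ y, {j | y ∈ U j}.Finite) :
    #(range U) ∈ PF Y ∧ #J ≤ #(range U) * ℵ₀ := by
  refine ⟨⟨_, forall_mem_range.2 h1, fun y => ((h2 y).image U).subset ?_, rfl⟩,
    mk_le_mk_mul_of_mk_preimage_le (rangeFactorization U) ?_⟩
  · rintro _ ⟨⟨j, rfl⟩, h⟩
    exact ⟨j, h, rfl⟩
  · rintro ⟨_, j, rfl⟩
    obtain ⟨y, hy⟩ := (h1 j).2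
    refine (lt_aleph0_iff_set_finite.2 ((h2 y).subset fun i hi => ?_)).le
    have : U i = U j := congrArg Subtype.val hi
    rwa [mem_ofPred_eq, this]

lemma PF_pull {Y Z : Type u} [TopologicalSpace Y] [TopologicalSpace Z] {φ : Y → Z}
    (h : Continuous φ) (h' : Function.Surjective φ) : sSup (PF Z) ≤ sSup (PF Y) := by
  refine csSup_le_csSup' (PF_bdd Y) ?_
  rintro _ ⟨𝒰, h1, h2, rfl⟩
  rw [← mk_image_eq h'.preimage_injective]
  refine ⟨_, ?_, fun y => ((h2 (φ y)).image (preimage φ)).subset ?_, rfl⟩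
  · rintro _ ⟨U, hU, rfl⟩
    exact ⟨(h1 U hU).1.preimage h, (h1 U hU).2.preimage h'⟩
  · rintro _ ⟨⟨U, hU, rfl⟩, h⟩
    exact ⟨U, ⟨hU, h⟩, rfl⟩

noncomputable def θ (v : ℕ →₀ ℚ) (t : ℝ) : ℝ :=
  ∑ i ∈ v.support, v i * max 0 (min 1 (2 - 3 * |t - i|))

lemma θ_cont (v : ℕ →₀ ℚ) : Continuous (θ v) := by unfold θ; fun_prop

lemma θ_eq (v : ℕ →₀ ℚ) {t : ℝ} {n : ℕ} (h : dist t n < 1 / 3) : θ v t = v n := by
  rw [Real.dist_eq] at h
  rw [θ, Finset.sum_eq_single n (fun i _ hi => ?_) fun hn => by simp [Finsupp.notMem_support_iff.1 hn],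
    min_eq_left (by linarith), max_eq_right zero_le_one, mul_one]
  have : (1 : ℝ) ≤ |(n : ℝ) - i| := by
    exact_mod_cast Int.one_le_abs (sub_ne_zero.2 (by exact_mod_cast hi.symm) : (n : ℤ) - i ≠ 0)
  have h2 := abs_sub_le (n : ℝ) t i
  rw [abs_sub_comm (n : ℝ) t] at h2
  rw [max_eq_left (min_le_of_right_le (by linarith)), mul_zero]

lemma basic {X ι : Type u} [TopologicalSpace X] {U : Set (ι → H5C.Cp X)} (h : IsOpen U)
    (h' : U.Nonempty) : ∃ (A : Finset ι) (P : Finset X) (r : ι → X → ℚ),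
      ∀ g : ι → H5C.Cp X, (∀ a ∈ A, ∀ x ∈ P, (g a).1 x = r a x) → g ∈ U := by
  classical
  obtain ⟨g0, h0⟩ := h'
  have : IsInducing fun (g : ι → H5C.Cp X) (p : ι × X) => (g p.1).1 p.2 :=
    .of_comp (g := fun F a x => F (a, x)) (continuous_pi fun p => (continuous_apply p.2).comp
      (continuous_subtype_val.comp (continuous_apply p.1))) (by fun_prop)
      (by exact IsInducing.piMap fun _ => IsInducing.subtypeVal)
  obtain ⟨V, v1, rfl⟩ := this.isOpen_iff.1 h
  obtain ⟨G, ε, h1, h2⟩ := H5C.pi_nhds v1 h0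
  choose r hr using fun t : ℝ => exists_rat_near t h1
  refine ⟨G.image Prod.fst, G.image Prod.snd, fun a x => r ((g0 a).1 x), fun g hg =>
    h2 _ fun p hp => ?_⟩
  beta_reduce
  rw [hg _ (Finset.mem_image_of_mem _ hp) _ (Finset.mem_image_of_mem _ hp), dist_comm]
  exact hr _

theorem PF_pow (X : Type u) [TopologicalSpace X] [T35Space X] (ι : Type u) [Nonempty ι] :
    sSup (PF (H5C.Cp X)) = sSup (PF (ι → H5C.Cp X)) := by
  classical
  refine le_antisymm (PF_pull (continuous_apply (Classical.arbitrary ι))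
    fun f => ⟨fun _ => f, rfl⟩) ?_
  rcases isEmpty_or_nonempty X with _ | ⟨⟨x0⟩⟩
  · exact PF_pull (φ := fun f _ => f) (by fun_prop) fun g =>
      ⟨⟨0, continuous_const⟩, Subsingleton.elim _ _⟩
  have h0 : ℵ₀ ≤ sSup (PF (H5C.Cp X)) := by
    let U : ULift.{u} ℕ → Set (H5C.Cp X) := fun n => {f | dist (f.1 x0) n.1 < 1 / 3}
    have inj : ∀ f i j, f ∈ U i → f ∈ U j → i = j := fun f i j hi hj => by
      have := (θ_eq (Finsupp.single i.1 1) hi).symm.trans (θ_eq _ hj)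
      exact ULift.ext _ _ (by_contra fun h => by simp [Finsupp.single_eq_of_ne' h] at this)
    have ne : ∀ n, (⟨fun _ => n.1, continuous_const⟩ : H5C.Cp X) ∈ U n := fun n => by simp [U]
    refine le_trans ?_ (le_csSup (PF_bdd _) (PF_idx U (fun n => ⟨isOpen_lt (((continuous_apply x0).comp
      continuous_subtype_val).dist continuous_const) continuous_const, _, ne n⟩) fun f => Set.Subsingleton.finite fun i hi j hj =>
        inj f i j hi hj).1)
    rw [mk_range_eq _ fun i j h => inj _ i j (ne i) ((h : U i = U j) ▸ ne i)]; simp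
  refine csSup_le' ?_
  rintro _ ⟨𝒰, h1, h2, rfl⟩
  choose A P r hr using fun U : 𝒰 => basic (h1 U U.2).1 (h1 U U.2).2
  choose c hc using fun U : 𝒰 => countable_iff_exists_injOn.1 (P U).countable_toSet
  let v : 𝒰 → ι → ℕ →₀ ℚ := fun U a => ∑ x ∈ P U, Finsupp.single (c U x) (r U a x)
  have hv : ∀ U a, ∀ x ∈ P U, v U a (c U x) = r U a x := fun U a x hx => by
    rw [Finsupp.finsetSum_apply, Finset.sum_eq_single x (fun y hy h =>
      Finsupp.single_eq_of_ne' fun e => h (hc U hy hx e)) (by simp [hx]), Finsupp.single_eq_same]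
  let τ : 𝒰 → ULift.{u} (ℕ × Finset (ℕ →₀ ℚ)) := fun U => ⟨(A U).card, (A U).image (v U)⟩
  refine (mk_le_mk_mul_of_mk_preimage_le τ (c := sSup (PF (H5C.Cp X))) fun t => ?_).trans
    ((mul_le_mul_left mk_le_aleph0 _).trans (aleph0_mul_eq h0).le)
  obtain ⟨p1, p2⟩ := PF_idx (fun U : τ ⁻¹' {t} =>
    {f : H5C.Cp X | ∀ x ∈ P U, dist (f.1 x) (c U x) < 1 / 3}) (fun U => by
      obtain ⟨g, g1, g2, -⟩ := H5C.interp (P U) (fun x => c U x) isClosed_empty (by simp)
      exact ⟨(H5C.isOpen_box _ _ _).preimage continuous_subtype_val, ⟨g, g1⟩, fun x hx => by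
        simp [g2 x hx]⟩) fun f => by_contra fun hf => by
    obtain ⟨S, s1, s2, g, hg⟩ := compat t.1.2 (fun U : τ ⁻¹' {t} => v U) t.1.1 (fun U => A U) _ hf
      (fun U _ => (congrArg (·.1.1) (U.2 : τ U = t)).le) fun U _ a ha =>
        congrArg (·.1.2) (U.2 : τ U = t) ▸ Finset.mem_image_of_mem (v U) ha
    refine s2 (((h2 fun a => ⟨_, (θ_cont (g a)).comp f.2⟩).preimage (f := fun U : τ ⁻¹' {t} => U.1.1)
      (Subtype.val_injective.comp Subtype.val_injective).injOn).subset fun U hU => ⟨U.1.2,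
        hr _ _ fun a ha x hx => ?_⟩)
    exact (θ_eq _ (s1 hU x hx)).trans (by rw [hg U hU a ha, hv _ _ _ hx])
  exact p2.trans ((mul_le_mul_left (le_csSup (PF_bdd _) p1) _).trans (mul_aleph0_eq h0).le)

lemma closing {X Λ E : Type*} [TopologicalSpace X] [PseudoMetricSpace E] {j : X → Λ → E}
    (hj : IsInducing j) (hd : ∀ S : Set Λ, S.Countable → ∀ w : Λ → E, ∃ x, j x ∈ H5C.F S w)
    {A : ℕ → Set X} (hA : ∀ n, IsOpen (A n)) {y : Λ → E} (h : ∀ n, y ∈ closure (j '' A n)) :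
    ∃ x, ∀ n, x ∈ closure (A n) := by
  have den : DenseRange j := dense_iff_inter_open.2 fun U hU ⟨w, hw⟩ => by
    obtain ⟨G, hG⟩ := H5C.face_open hU hw
    obtain ⟨x, hx⟩ := hd G G.countable_toSet w
    exact ⟨_, hG hx, x, rfl⟩
  have key : ∀ n, ∃ S : Set Λ, S.Countable ∧ ∀ x, j x ∈ H5C.F S y → x ∈ closure (A n) := fun n => by
    obtain ⟨U, u1, u2⟩ := hj.isOpen_iff.1 (hA n)
    have := h n
    rw [← u2] at this ⊢
    obtain ⟨S, s1, s2⟩ := H5C.face_closure u1 (closure_mono (image_preimage_subset _ _) this)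
    refine ⟨S, s1, fun x hx => ?_⟩
    rw [hj.closure_eq_preimage_closure_image, image_preimage_eq_inter_range]
    exact closure_minimal (den.open_subset_closure_inter u1) isClosed_closure (s2 hx)
  choose S s1 s2 using key
  obtain ⟨x, hx⟩ := hd _ (countable_iUnion s1) y
  exact ⟨x, fun n => s2 n x (H5C.F_mono (subset_iUnion S n) _ hx)⟩

abbrev TU : Type := (univ : Set T.{0})

abbrev Sh := range (row (univ : Set T.{0}))

lemma Sh_ext (S : Set Sh) (hS : S.Countable) (g : Sh → ℚ) (V : Finset ℚ) (h : ∀ x ∈ S, g x ∈ V) :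
    ∃ f : H5C.Cp Sh, ∀ x ∈ S, f.1 x = g x := by
  choose s hs using fun x : Sh => x.2
  have : ∀ v, ∃ i, ∀ x ∈ S, x.1 i = true ↔ g x = v := fun v => by
    obtain ⟨t, h1, h2⟩ := sat (P := s '' (S ∩ {x | g x = v})) (N := s '' (S ∩ {x | g x ≠ v}))
      ((hS.mono inter_subset_left).image _) ((hS.mono inter_subset_left).image _) (by
        rw [disjoint_image_iff fun a b e => Subtype.ext (by rw [← hs, ← hs, e]), disjoint_left]
        exact fun _ h h' => h'.2 h.2)
    refine ⟨⟨t, trivial⟩, fun x hx => ?_⟩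
    rw [← hs]
    simp only [row, decide_eq_true_eq]
    exact ⟨fun h => by_contra fun h' => h2 _ ⟨x, ⟨hx, h'⟩, rfl⟩ h, fun h => h1 _ ⟨x, ⟨hx, h⟩, rfl⟩⟩
  choose i hi using this
  refine ⟨⟨fun x => ∑ v ∈ V, cond (x.1 (i v)) (v : ℝ) 0, continuous_finsetSum _ fun v _ =>
    (continuous_of_discreteTopology (f := fun b => cond b (v : ℝ) 0)).comp
      ((continuous_apply _).comp continuous_subtype_val)⟩, fun x hx => ?_⟩
  refine (Finset.sum_eq_single_of_mem (g x) (h x hx) fun v _ hv => ?_).trans (by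
    rw [(hi _ x hx).2 rfl]; rfl)
  rw [Bool.eq_false_iff.2 fun h => hv ((hi _ x hx).1 h).symm]; rfl

lemma Sh_pf (𝒰 : Set (Set (H5C.Cp Sh))) (h1 : ∀ U ∈ 𝒰, IsOpen U ∧ U.Nonempty)
    (h2 : ∀ y, {U | U ∈ 𝒰 ∧ y ∈ U}.Finite) : 𝒰.Countable := by
  classical
  have : ∀ U : 𝒰, ∃ (P : Finset Sh) (r : Sh → ℚ), ∀ g : H5C.Cp Sh, (∀ x ∈ P, g.1 x = r x) →
      g ∈ U.1 := fun U => by
    obtain ⟨A, P, r, h⟩ := basic (ι := Unit) ((h1 U U.2).1.preimage (continuous_apply ()))
      ((h1 U U.2).2.preimage fun f => ⟨fun _ => f, rfl⟩)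
    exact ⟨P, r (), fun g hg => h (fun _ => g) fun _ _ => hg⟩
  choose P r hr using this
  let τ : 𝒰 → ℕ × Finset ℚ := fun U => ((P U).card, (P U).image (r U))
  rw [← countable_coe_iff, ← countable_univ_iff]
  refine (countable_iUnion (t := fun t => τ ⁻¹' {t}) fun t => Set.Finite.countable
    (by_contra fun hf => ?_)).mono fun U _ => mem_iUnion.2 ⟨τ U, rfl⟩
  obtain ⟨S, s1, s2, g, hg⟩ := compat t.2 r t.1 P _ hf
    (fun U hU => (congrArg (·.1) (hU : τ U = t)).le) fun U hU a ha =>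
      congrArg (·.2) (hU : τ U = t) ▸ Finset.mem_image_of_mem (r U) ha
  let e := s2.natEmbedding
  obtain ⟨f, hf⟩ := Sh_ext (⋃ n, P (e n)) (countable_iUnion fun n => Finset.countable_toSet _) g t.2
    fun x hx => by
      obtain ⟨n, hn⟩ := mem_iUnion.1 hx
      rw [hg _ (e n).2 x hn]
      exact congrArg (·.2) (s1 (e n).2 : τ _ = t) ▸ Finset.mem_image_of_mem (r _) hn
  refine infinite_of_injective_forall_mem (f := fun n => (e n).1.1) (Subtype.val_injective.comp
    (Subtype.val_injective.comp e.injective)) (fun n => ?_) (h2 f)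
  refine ⟨(e n).1.2, hr _ _ fun x hx => ?_⟩
  rw [hf x (mem_iUnion.2 ⟨n, hx⟩), hg _ (e n).2 x hx]

abbrev Ups (X : Type) [TopologicalSpace X] := {p : StoneCech X //
  ∀ (g : X → Set.Icc (-1 : ℝ) 1) (hg : Continuous g), (∀ x, ((g x : ℝ)) ∈ Set.Ioo (-1 : ℝ) 1) →
    ((stoneCechExtend hg p : Set.Icc (-1 : ℝ) 1) : ℝ) ∈ Set.Ioo (-1 : ℝ) 1}

theorem Sh_ups : ∃ 𝒰 : Set (Set (H5C.Cp (Ups Sh))), (∀ U ∈ 𝒰, IsOpen U ∧ U.Nonempty) ∧
    (∀ y, {U | U ∈ 𝒰 ∧ y ∈ U}.Finite) ∧ ¬ 𝒰.Countable := by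
  classical
  let : MetricSpace Bool := TopologicalSpace.metrizableSpaceMetric Bool
  have hd : ∀ S : Set TU, S.Countable → ∀ w, ∃ x : Sh, x.1 ∈ H5C.F S w :=
    fun S hS w => by
      obtain ⟨s, hs⟩ := row_dense _ S hS w
      exact ⟨⟨_, s, rfl⟩, hs⟩
  have : ∀ y, ∃ 𝒱 : Ultrafilter Sh, Tendsto Subtype.val (𝒱 : Filter Sh) (𝓝 y) ∧
      ∃ p, Tendsto stoneCechUnit (𝒱 : Filter Sh) (𝓝 p) := fun y => by
    have : NeBot (comap (Subtype.val : Sh → _) (𝓝 y)) := comap_neBot fun U hU => by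
      obtain ⟨V, v1, v2, v3⟩ := mem_nhds_iff.1 hU
      obtain ⟨G, hG⟩ := H5C.face_open v2 v3
      obtain ⟨x, hx⟩ := hd G G.countable_toSet y
      exact ⟨x, v1 (hG hx)⟩
    obtain ⟨𝒱, h⟩ := Ultrafilter.exists_le (comap (Subtype.val : Sh → _) (𝓝 y))
    obtain ⟨p, -, hp⟩ := isCompact_univ.ultrafilter_le_nhds (𝒱.map stoneCechUnit) (by simp)
    exact ⟨𝒱, tendsto_iff_comap.2 h, p, hp⟩
  choose 𝒱 v1 p v2 using this
  have cl : ∀ y A, A ∈ 𝒱 y → y ∈ closure (Subtype.val '' A) := fun y A h =>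
    mem_closure_of_tendsto (v1 y) (mem_of_superset h fun x hx => ⟨x, hx, rfl⟩)
  let u : _ → Ups Sh := fun y => ⟨p y, fun g hg h => by
    have t := (continuous_subtype_val.tendsto _).comp
      (((continuous_stoneCechExtend hg).tendsto _).comp (v2 y))
    simp only [Function.comp_def, stoneCechExtend_stoneCechUnit] at t
    rw [mem_Ioo, ← abs_lt]
    by_contra hc
    have c : Continuous fun x => |(g x : ℝ)| := by fun_prop
    obtain ⟨x, hx⟩ := closing IsInducing.subtypeVal hd (A := fun n => {x | 1 - 1 / ((n : ℝ) + 1) <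
      |(g x : ℝ)|}) (fun n => isOpen_lt continuous_const c) fun n => cl y _ (t.abs.eventually
        (lt_mem_nhds ((sub_lt_self _ (by positivity)).trans_le (not_lt.1 hc))))
    obtain ⟨n, hn⟩ := exists_nat_one_div_lt (sub_pos.2 (abs_lt.2 (h x)))
    have := closure_lt_subset_le continuous_const c (hx n)
    simp only [mem_ofPred_eq] at this
    linarith⟩
  let η : Sh → Ups Sh := fun x => ⟨stoneCechUnit x, fun g hg h => by simpa using h x⟩
  have hη : Continuous η := continuous_stoneCechUnit.subtype_mk _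
  have tu : ∀ (F : H5C.Cp (Ups Sh)) y, Tendsto (F.1 ∘ η) (𝒱 y) (𝓝 (F.1 (u y))) := fun F y =>
    (F.2.tendsto _).comp (tendsto_subtype_rng.2 (v2 y))
  have ev : ∀ y, Continuous fun F : H5C.Cp (Ups Sh) => F.1 y := fun y =>
    (continuous_apply y).comp continuous_subtype_val
  let U : TU → Set (H5C.Cp (Ups Sh)) := fun i =>
    {F | 1 < F.1 (u (Pi.single i true))} ∩ {F | F.1 (u fun _ => false) < 0}
  have h1 : ∀ i, IsOpen (U i) ∧ (U i).Nonempty := fun i => by
    refine ⟨(isOpen_lt continuous_const (ev _)).inter (isOpen_lt (ev _) continuous_const), ?_⟩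
    have hg : Continuous fun x : Sh => x.1 i := (continuous_apply i).comp continuous_subtype_val
    have e : ∀ y, stoneCechExtend hg (p y) = y i := fun y => tendsto_nhds_unique
      (((continuous_stoneCechExtend hg).tendsto _).comp (v2 y))
      ((tendsto_pi_nhds.1 (v1 y) i).congr fun x => by simp)
    exact ⟨⟨fun x => cond (stoneCechExtend hg x.1) 2 (-1), (continuous_of_discreteTopology
      (f := fun b => cond b (2 : ℝ) (-1))).comp ((continuous_stoneCechExtend hg).comp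
        continuous_subtype_val)⟩, by simp [u, e], by simp [u, e]⟩
  have h2 : ∀ F, {i | F ∈ U i}.Finite := fun F => by_contra fun hf => by
    obtain ⟨i, hi⟩ := Set.Infinite.nonempty hf
    refine zero_lt_one.not_ge (gap IsInducing.subtypeVal hd (F.2.comp hη)
      (cl _ _ ((tu F _).eventually (gt_mem_nhds hi.2))) ?_)
    have t : Tendsto (fun i : TU => (Pi.single i true : TU → Bool))
        cofinite (𝓝 fun _ => false) := tendsto_pi_nhds.2 fun a => tendsto_const_nhds.congr'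
      ((eventually_cofinite_ne a).mono fun i hi => by
        simp only [Pi.single_eq_of_ne' hi]; rfl)
    exact isClosed_closure.mem_of_frequently_of_tendsto
      ((frequently_cofinite_iff_infinite.2 hf).mono fun i hi =>
        cl _ _ ((tu F _).eventually (lt_mem_nhds hi.1))) t
  obtain ⟨⟨𝒰, a1, a2, a3⟩, a4⟩ := PF_idx U h1 h2
  refine ⟨𝒰, a1, a2, fun hc => ?_⟩
  rw [a3, mk_univ] at a4
  exact (aleph0_lt_mk_iff.2 inferInstance).not_ge (a4.trans ((mul_le_mul_left
    (le_aleph0_iff_set_countable.2 hc) _).trans aleph0_mul_aleph0.le))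

end H5E
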