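import Pool.Agent.Lib.helper5.CpEquiv

/-! Spaces of filters; perfectness is not l-invariant. -/

open Set Filter Topology

namespace H5E

section fs
variable {N J : Type} (𝓕 : J → Filter N)

/-- sets decided by all filters of the family -/
abbrev Adm := {A : Set N // ∀ j, A ∈ 𝓕 j ∨ Aᶜ ∈ 𝓕 j}

open Classical in
noncomputable def mm (j : J) : Adm 𝓕 → Bool := fun A => decide (A.1 ∈ 𝓕 j)

abbrev Sp := range (mm 𝓕)

noncomputable def pt (j : J) : Sp 𝓕 := ⟨mm 𝓕 j, j, rfl⟩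

def cl (A : Adm 𝓕) : Set (Sp 𝓕) := {x | x.1 A = true}

variable {𝓕}

lemma pt_surj (x : Sp 𝓕) : ∃ j, pt 𝓕 j = x := by
  obtain ⟨_, j, rfl⟩ := x; exact ⟨j, rfl⟩

lemma mem_cl {j : J} {A : Adm 𝓕} : pt 𝓕 j ∈ cl 𝓕 A ↔ A.1 ∈ 𝓕 j := by simp [cl, pt, mm]

lemma isClopen_cl (A : Adm 𝓕) : IsClopen (cl 𝓕 A) :=
  (isClopen_discrete {true}).preimage ((continuous_apply A).comp continuous_subtype_val)

lemma tendsto_pt {η : N → J} (hη : ∀ n, 𝓕 (η n) = pure n) (j : J) [NeBot (𝓕 j)] :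
    Tendsto (fun n => pt 𝓕 (η n)) (𝓕 j) (𝓝 (pt 𝓕 j)) := by
  refine tendsto_subtype_rng.2 (tendsto_pi_nhds.2 fun A => ?_)
  rw [nhds_discrete, tendsto_pure]
  by_cases h : A.1 ∈ 𝓕 j
  · filter_upwards [h] with n hn
    simp [pt, mm, hη, hn, h]
  · filter_upwards [(A.2 j).resolve_left h] with n hn
    simpa [pt, mm, hη, h] using hn

end fs

/-- closed and discrete -/
def CD {X : Type*} [TopologicalSpace X] (D : Set X) : Prop := ∀ x, ∃ U ∈ 𝓝 x, U ∩ D ⊆ {x}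

lemma CD.isClosed {X : Type*} [TopologicalSpace X] {D S : Set X} (h : CD D) (hS : S ⊆ D) :
    IsClosed S := by
  refine isOpen_compl_iff.1 (isOpen_iff_mem_nhds.2 fun x hx => ?_)
  obtain ⟨U, u1, u2⟩ := h x
  exact mem_of_superset u1 fun y hy hy' => hx (u2 ⟨hy, hS hy'⟩ ▸ hy')

lemma CD.prod {X Y : Type*} [TopologicalSpace X] [TopologicalSpace Y] {D : Set X} {D' : Set Y}
    (h : CD D) (h' : CD D') : CD (D ×ˢ D') := fun p => by
  obtain ⟨U, u1, u2⟩ := h p.1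
  obtain ⟨V, v1, v2⟩ := h' p.2
  exact ⟨U ×ˢ V, prod_mem_nhds u1 v1, fun x hx => Prod.ext (u2 ⟨hx.1.1, hx.2.1⟩)
    (v2 ⟨hx.1.2, hx.2.2⟩)⟩

lemma gdelta_sq {X ι : Type} [TopologicalSpace X] [Countable ι] (D : ι → Set X)
    (h : ∀ i, CD (D i)) (hc : ∀ x, ∃ i, x ∈ D i) (s : Set ((X × X) ⊕ PUnit.{1})) : IsGδ s := by
  have : s = (⋂ p : ι × ι, (Sum.inl '' (Sum.inl ⁻¹' sᶜ ∩ D p.1 ×ˢ D p.2))ᶜ) ∩
      (Sum.inr '' (Sum.inr ⁻¹' sᶜ))ᶜ := by
    ext (x | x)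
    · obtain ⟨i, hi⟩ := hc x.1
      obtain ⟨j, hj⟩ := hc x.2
      simp only [mem_inter_iff, mem_iInter, mem_compl_iff, mem_image, mem_preimage,
        Sum.inl.injEq, exists_eq_right, reduceCtorEq, and_false, exists_false, not_false_eq_true,
        and_true]
      exact ⟨fun h _ h' => h'.1 h, fun h => by_contra fun h' => h (i, j) ⟨h', hi, hj⟩⟩
    · have : Sum.inr x ∈ s ↔ ∀ y : PUnit.{1}, Sum.inr y ∈ s := ⟨fun h _ => h, fun h => h x⟩
      simpa using this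
  rw [this]
  refine (IsGδ.iInter_of_isOpen fun p => (isClosedMap_inl _ ?_).isOpen_compl).inter
    (isClosedMap_inr _ (isClosed_discrete _)).isOpen_compl.isGδ
  exact ((h _).prod (h _)).isClosed inter_subset_right

lemma gdelta_star {F X : Type} [TopologicalSpace F] [TopologicalSpace X] (e : C(F, X)) (y : F)
    (h : IsGδ {(Sum.inr (q e (e y)) : F ⊕ Q e)}) :
    ∃ G : Set (C0 e), G.Countable ∧ ∀ x, (∀ f ∈ G, f.1 x = 0) → q e x = q e (e y) := by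
  obtain ⟨T, t1, t2, t3⟩ := h
  have : ∀ U ∈ T, ∃ G : Finset (C0 e), ∀ x, (∀ f ∈ G, f.1 x = 0) → Sum.inr (q e x) ∈ U :=
    fun U hU => by
    obtain ⟨V, v1, v2⟩ := isOpen_induced_iff.1 ((t1 U hU).preimage continuous_inr)
    have : q e (e y) ∈ Subtype.val ⁻¹' V := by
      rw [v2]; exact mem_sInter.1 (t3 ▸ mem_singleton _) U hU
    obtain ⟨G, hG⟩ := H5C.face_open v1 this
    refine ⟨G, fun x hx => ?_⟩
    rw [← mem_preimage, ← v2]
    exact hG fun f hf => (hx f hf).trans (f.2 y).symm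
  choose! G hG using this
  refine ⟨⋃ U ∈ T, G U, t2.biUnion fun U _ => (G U).countable_toSet, fun x hx => ?_⟩
  have : Sum.inr (q e x) ∈ ⋂₀ T := fun U hU => hG U hU x fun f hf => hx f (mem_biUnion hU hf)
  rw [← t3] at this
  exact Sum.inr_injective this

lemma exists_mad : ∃ 𝒜 : Set (Set (ℕ × ℕ)), (∀ k, Prod.fst ⁻¹' {k} ∈ 𝒜) ∧
    (∀ A ∈ 𝒜, A.Infinite) ∧ (𝒜.Pairwise fun A B => (A ∩ B).Finite) ∧
    ∀ S : Set (ℕ × ℕ), S.Infinite → ∃ B ∈ 𝒜, (S ∩ B).Infinite := by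
  obtain ⟨𝒜, h1, h2⟩ := zorn_subset_nonempty {𝒜 : Set (Set (ℕ × ℕ)) | (∀ A ∈ 𝒜, A.Infinite) ∧
    𝒜.Pairwise fun A B => (A ∩ B).Finite} (fun c hc hc' _ => ⟨⋃₀ c, ⟨fun A ⟨a, h1, h2⟩ =>
      (hc h1).1 A h2, (pairwise_sUnion hc'.directedOn).2 fun a ha => (hc ha).2⟩,
      fun _ => subset_sUnion_of_mem⟩) (range fun k => Prod.fst ⁻¹' {k}) ⟨by
      rintro _ ⟨k, rfl⟩
      exact infinite_of_injective_forall_mem (f := fun n => (k, n))
        (fun a b h => (Prod.ext_iff.1 h).2) fun _ => rfl, by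
      rintro _ ⟨k, rfl⟩ _ ⟨l, rfl⟩ h
      refine finite_empty.subset fun x hx => h ?_
      rw [← (hx.1 : x.1 = k), ← (hx.2 : x.1 = l)]⟩
  refine ⟨𝒜, fun k => h1 ⟨k, rfl⟩, h2.prop.1, h2.prop.2, fun S hS => ?_⟩
  by_contra hc
  push Not at hc
  have : S ∈ 𝒜 := h2.le_of_ge (y := insert S 𝒜) ⟨by
    rintro A (rfl | hA)
    exacts [hS, h2.prop.1 A hA], h2.prop.2.insert fun B hB _ =>
      ⟨hc B hB, inter_comm S B ▸ hc B hB⟩⟩ (subset_insert _ _) (mem_insert _ _)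
  exact hS (inter_self S ▸ hc S this)

theorem perf : ∃ (X Y : Type) (_ : TopologicalSpace X) (_ : TopologicalSpace Y) (_ : T35Space X)
    (_ : T35Space Y), LEq X Y ∧ (∀ s : Set X, IsGδ s) ∧ ∃ s : Set Y, IsClosed s ∧ ¬ IsGδ s := by
  obtain ⟨𝒜, m1, m2, m3, m4⟩ := exists_mad
  let 𝓕 : (ℕ × ℕ) ⊕ 𝒜 → Filter (ℕ × ℕ) := Sum.elim pure fun A => cofinite ⊓ 𝓟 A.1
  have mf : ∀ (A : 𝒜) S, S ∈ 𝓕 (.inr A) ↔ (A.1 \ S).Finite := fun A S => by
    simp only [𝓕, Sum.elim_inr, mem_inf_principal, mem_cofinite]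
    rw [show {x | x ∈ A.1 → x ∈ S}ᶜ = A.1 \ S by ext; simp]
  have ne : ∀ j, NeBot (𝓕 j) := by
    rintro (n | A)
    · exact pure_neBot
    · exact ⟨fun h => m2 _ A.2 (by simpa using (mf A ∅).1 (by rw [h]; trivial))⟩
  have tp := fun j => tendsto_pt (𝓕 := 𝓕) (η := .inl) (fun _ => rfl) j
  let sg : ℕ × ℕ → Adm 𝓕 := fun n => ⟨{n}, by
    rintro (m | A)
    · exact em _
    · exact Or.inr ((mf _ _).2 ((finite_singleton n).subset fun x hx => not_not.1 hx.2))⟩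
  let ad : 𝒜 → Adm 𝓕 := fun A => ⟨A, by
    rintro (m | B)
    · exact em _
    · rw [mf, mf, sdiff_compl]
      by_cases h : B = A
      · simp [h]
      · exact Or.inr (m3 B.2 A.2 fun h' => h (Subtype.ext h'))⟩
  have had : ∀ A B : 𝒜, pt 𝓕 (.inr B) ∈ cl 𝓕 (ad A) ↔ B = A := fun A B => by
    rw [mem_cl, mf]
    refine ⟨fun h => by_contra fun h' => m2 _ B.2 ?_, fun h => by simp [h, ad]⟩
    rw [← inter_union_sdiff B.1 A.1]
    exact (m3 B.2 A.2 fun h'' => h' (Subtype.ext h'')).union h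
  refine ⟨_, _, inferInstance, inferInstance, inferInstance, inferInstance,
    machine_sq (Sp 𝓕) (pt 𝓕 (.inl 0)), gdelta_sq (fun o : Option (ℕ × ℕ) => o.elim
      (range fun A => pt 𝓕 (.inr A)) fun n => {pt 𝓕 (.inl n)}) ?_ ?_,
      {.inr (q _ (diag _ (pt 𝓕 (.inl 0))))}, isClosed_singleton, fun h => ?_⟩
  · rintro (_ | n) x
    · obtain ⟨n | A, rfl⟩ := pt_surj x
      · refine ⟨_, (isClopen_cl (sg n)).2.mem_nhds (mem_cl.2 rfl), ?_⟩
        rintro _ ⟨h, B, rfl⟩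
        exact (m2 _ B.2 (((mf _ _).1 (mem_cl.1 h)).of_sdiff (finite_singleton n))).elim
      · refine ⟨_, (isClopen_cl (ad A)).2.mem_nhds ((had _ _).2 rfl), ?_⟩
        rintro _ ⟨h, B, rfl⟩
        rw [(had _ _).1 h]; rfl
    · by_cases h : x = pt 𝓕 (.inl n)
      · exact ⟨_, univ_mem, fun y hy => hy.2.trans h.symm⟩
      · exact ⟨_, isOpen_compl_singleton.mem_nhds h, fun y hy => (hy.1 hy.2).elim⟩
  · intro x
    obtain ⟨n | A, rfl⟩ := pt_surj x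
    exacts [⟨some n, rfl⟩, ⟨none, A, rfl⟩]
  obtain ⟨G, g1, g2⟩ := gdelta_star _ _ h
  have := g1.to_subtype
  let φ : Sp 𝓕 → G × (ℕ × ℕ) → EReal := fun x i => i.1.1.1 (pt 𝓕 (.inl i.2), x)
  have hφ : Continuous φ := continuous_pi fun i => continuous_coe_real_ereal.comp (by fun_prop)
  have hi : Function.Injective φ := fun a b hab => by
    by_contra hne
    refine q_diag_ne _ (fun _ => rfl) hne _ (g2 (a, b) fun f hf => ?_)
    obtain ⟨j, rfl⟩ := pt_surj a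
    have := ne j
    refine Eq.trans ?_ (f.2 (pt 𝓕 j))
    refine tendsto_nhds_unique ((f.1.2.tendsto _).comp ((tp j).prodMk_nhds tendsto_const_nhds))
      (((f.1.2.tendsto _).comp ((tp j).prodMk_nhds tendsto_const_nhds)).congr fun n => ?_)
    exact EReal.coe_eq_coe_iff.1 (congrFun hab (⟨f, hf⟩, n))
  let c : ℕ → 𝒜 := fun k => ⟨_, m1 k⟩
  obtain ⟨p, hp⟩ := exists_clusterPt_of_compactSpace (map (fun k => φ (pt 𝓕 (.inr (c k)))) atTop)
  obtain ⟨V, hV⟩ := (𝓝 p).exists_antitone_basis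
  have key : ∀ T : Set (ℕ × ℕ), (∀ k, (T ∩ c k).Finite) → ∃ B : 𝒜, B.1 ≠ T ∧
      (∀ k, (B.1 ∩ c k).Finite) ∧ φ (pt 𝓕 (.inr B)) = p := fun T hT => by
    have : ∀ i, ∃ n : ℕ × ℕ, i ≤ n.1 ∧ n ∉ T ∧ φ (pt 𝓕 (.inl n)) ∈ V i := fun i => by
      obtain ⟨k, k1, k2⟩ := ((mapClusterPt_iff_frequently.1 hp _
        (interior_mem_nhds.2 (hV.mem i))).and_eventually (eventually_ge_atTop i)).exists
      have := ne (.inr (c k))
      obtain ⟨n, n1, n2⟩ := ((((hφ.tendsto _).comp (tp (.inr (c k)))).eventually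
        (mem_interior_iff_mem_nhds.1 k1)).and (p := fun n => _) ((mf (c k) (c k \ T)).2
          ((hT k).subset fun x hx => ⟨by_contra fun h => hx.2 ⟨hx.1, h⟩, hx.1⟩))).exists
      exact ⟨n, k2.trans (n2.1 : n.1 = k).ge, n2.2, n1⟩
    choose n n1 n2 n3 using this
    have fin : ∀ k, {i | (n i).1 = k}.Finite := fun k =>
      (finite_le_nat k).subset fun i hi => (n1 i).trans (hi : _ = k).le
    obtain ⟨B, b1, b2⟩ := m4 (range n) fun hf => infinite_univ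
      ((hf.preimage' (f := n) fun x _ => (fin x.1).subset fun i hi => congrArg Prod.fst hi).subset
        fun i _ => ⟨i, rfl⟩)
    refine ⟨⟨B, b1⟩, ?_, fun k => m3 b1 (c k).2 ?_, ?_⟩
    · rintro rfl
      obtain ⟨_, ⟨i, rfl⟩, h⟩ := b2.nonempty
      exact n2 i h
    · rintro rfl
      refine b2 (((fin k).image n).subset ?_)
      rintro _ ⟨⟨i, rfl⟩, h⟩
      exact ⟨i, h, rfl⟩
    · have : NeBot (atTop ⊓ 𝓟 (n ⁻¹' B)) := by
        rw [← frequently_mem_iff_neBot, ← Nat.cofinite_eq_atTop, frequently_cofinite_iff_infinite]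
        exact Infinite.of_image n (s := n ⁻¹' B) (by rwa [image_preimage_eq_range_inter])
      refine tendsto_nhds_unique (l := atTop ⊓ 𝓟 (n ⁻¹' B)) (((hφ.tendsto _).comp
        (tp (.inr ⟨B, b1⟩))).comp (f := n) ?_) ((hV.tendsto n3).mono_left inf_le_left)
      refine Tendsto.inf ?_ (tendsto_principal_principal.2 fun _ h => h)
      rw [← Nat.cofinite_eq_atTop]
      exact Tendsto.cofinite_of_finite_preimage_singleton fun x =>
        ((fin x.1).subset fun i hi => congrArg Prod.fst hi)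
  obtain ⟨B, -, b2, b3⟩ := key ∅ (by simp)
  obtain ⟨B', c1, -, c3⟩ := key B b2
  exact c1 (congrArg Subtype.val ((had B B').1 (by rw [hi (c3.trans b3.symm)]; exact (had _ _).2 rfl)))

end H5E
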