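import Pool.Agent.Lib.helper5.Extral

/-! Compact subspaces of `C_p(X × K)`. -/

open Set Filter Topology TopologicalSpace

namespace H5P

open H5C (Cp)

variable {X K Z : Type} [TopologicalSpace X] [TopologicalSpace K] [TopologicalSpace Z]

/-- countable tightness -/
def Tight (Z : Type) [TopologicalSpace Z] : Prop :=
  ∀ (A : Set Z), ∀ z ∈ closure A, ∃ B ⊆ A, B.Countable ∧ z ∈ closure B

def HT (X : Type) [TopologicalSpace X] : Prop :=
  ∀ (Z : Type) [TopologicalSpace Z] [CompactSpace Z] (σ : Z → Cp X), Continuous σ →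
    ∀ A, ∀ g ∈ closure A, ∃ B ⊆ A, B.Countable ∧ σ g ∈ closure (σ '' B)

lemma ht (h : ∀ L : Set (Cp X), IsCompact L → Tight L) : HT X := fun Z _ _ σ hσ A g hg => by
  obtain ⟨B, b1, b2, b3⟩ := h _ (isCompact_range hσ) (rangeFactorization σ '' A) _
    (map_mem_closure hσ.rangeFactorization hg (mapsTo_image _ _))
  have := b2.to_subtype
  choose a a1 a2 using fun b : B => b1 b.2
  exact ⟨range a, range_subset_iff.2 a1, countable_range _, map_mem_closure (f := Subtype.val)
    continuous_subtype_val b3 fun b hb => ⟨_, ⟨⟨b, hb⟩, rfl⟩, congrArg Subtype.val (a2 _)⟩⟩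

lemma hf (h : ∀ L : Set (Cp X), IsCompact L → FrechetUrysohnSpace L) [CompactSpace Z]
    {σ : Z → Cp X} (hσ : Continuous σ) {A : Set Z} {g : Z} (hg : g ∈ closure A) :
    ∃ u : ℕ → Z, (∀ n, u n ∈ A) ∧ Tendsto (σ ∘ u) atTop (𝓝 (σ g)) := by
  obtain ⟨u, b1, b2⟩ := (h _ (isCompact_range hσ)).1 (rangeFactorization σ '' A)
    (map_mem_closure hσ.rangeFactorization hg (mapsTo_image _ _))
  choose a a1 a2 using b1
  exact ⟨a, a1, (tendsto_subtype_rng.1 b2).congr fun n => (congrArg Subtype.val (a2 n)).symm⟩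

lemma HT.sep (h : HT X) {M : Type} [MetricSpace M] {m : X → M} (hm : Continuous m) :
    IsSeparable (range m) := by
  classical
  by_contra hn
  obtain ⟨c, hc, D, d1, d2, d3⟩ : ∃ c > 0, ∃ D ⊆ range m,
      (D.Pairwise fun a b => 4 * c ≤ dist a b) ∧ ¬ D.Countable := by
    by_contra hc
    push Not at hc
    have : ∀ n : ℕ, ∃ D : Set M, D.Countable ∧ ∀ y ∈ range m, ∃ b ∈ D, dist y b < 4 * (1 / (n + 1)) :=
      fun n => by
        obtain ⟨D, hD⟩ := zorn_subset
          {D | D ⊆ range m ∧ D.Pairwise fun a b => 4 * (1 / (n + 1) : ℝ) ≤ dist a b}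
          fun c hc hc' => ⟨⋃₀ c, ⟨sUnion_subset fun s hs => (hc hs).1,
            (pairwise_sUnion hc'.directedOn).2 fun s hs => (hc hs).2⟩, fun s => subset_sUnion_of_mem⟩
        refine ⟨D, hc _ (by positivity) D hD.prop.1 hD.prop.2, fun y hy => by_contra fun h => ?_⟩
        push Not at h
        have := h y (hD.mem_of_prop_insert ⟨insert_subset hy hD.prop.1, hD.prop.2.insert
          fun b hb _ => ⟨h b hb, dist_comm y b ▸ h b hb⟩⟩)
        exact this.not_gt (by rw [dist_self]; positivity)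
    choose D d1 d2 using this
    refine hn ⟨_, countable_iUnion d1, fun y hy => Metric.mem_closure_iff.2 fun ε hε => ?_⟩
    obtain ⟨n, hn⟩ := exists_nat_one_div_lt (show 0 < ε / 4 by positivity)
    obtain ⟨b, b1, b2⟩ := d2 n y hy
    exact ⟨b, mem_iUnion.2 ⟨n, b1⟩, by linarith⟩
  have : Uncountable D := not_countable_iff.1 d3
  have u : ∀ (y : M) (a b : D), dist y a < 2 * c → dist y b < 2 * c → a = b := fun y a b h1 h2 =>
    Subtype.ext (by_contra fun hn => by linarith [d2 a.2 b.2 hn, dist_triangle_left a.1 b.1 y])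
  let ψ : (D → Bool) → D → X → ℝ := fun s d x => if s d then max 0 (c - dist (m x) d) else 0
  have p : ∀ s d x, ψ s d x ≠ 0 → dist (m x) d < c := fun s d x h => by
    by_contra hn
    simp [ψ, max_eq_left (sub_nonpos.2 (not_lt.1 hn))] at h
  let e : (D → Bool) → Cp X := fun s => ⟨fun x => ∑ᶠ d, ψ s d x, continuous_finsum (fun d => by
    simp only [ψ]; split_ifs <;> fun_prop) fun x => ⟨m ⁻¹' Metric.ball (m x) c,
      hm.continuousAt (Metric.ball_mem_nhds _ hc), Set.Subsingleton.finite (by
        rintro a ⟨y, y1, y2⟩ b ⟨z, z1, z2⟩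
        have y3 : dist (m y) (m x) < c := y2
        have z3 : dist (m z) (m x) < c := z2
        exact u (m x) a b (by linarith [p s a y y1, dist_triangle_left (m x) a (m y)])
          (by linarith [p s b z z1, dist_triangle_left (m x) b (m z)]))⟩⟩
  have e1 : Continuous e := by
    refine Continuous.subtype_mk (continuous_pi fun x => ?_) _
    have f : {d : D | dist (m x) d < c}.Finite :=
      Set.Subsingleton.finite fun a ha b hb => u (m x) a b (by linarith [ha.out]) (by linarith [hb.out])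
    refine (continuous_finsetSum f.toFinset fun d _ => (continuous_of_discreteTopology
      (f := fun b : Bool => if b then max 0 (c - dist (m x) d) else 0)).comp
        (continuous_apply d)).congr fun s => ?_
    exact (finsum_eq_sum_of_support_subset _ fun d hd => by simpa using p s d x hd).symm
  have e2 : Function.Injective e := fun s t h => funext fun d => by
    obtain ⟨x, hx⟩ := d1 d.2
    have k : ∀ s, (e s).1 x = if s d then c else 0 := fun s => by
      refine (finsum_eq_single _ d fun a ha => by_contra fun h => ha (u (m x) _ _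
        (by linarith [p s a x h]) (by simpa [hx] using hc))).trans ?_
      simp [ψ, hx, hc.le]
    have := (k s).symm.trans ((congrFun (congrArg Subtype.val h) x).trans (k t))
    cases h1 : s d <;> cases h2 : t d <;> simp_all [hc.ne, hc.ne']
  refine H5C.not_tight (ι := D) IsEmbedding.id fun A x hx => ?_
  obtain ⟨B, b1, b2, b3⟩ := h _ e e1 A x hx
  exact ⟨B, b1, b2, by rwa [(e1.isClosedEmbedding e2).isEmbedding.closure_eq_preimage_closure_image]⟩

lemma HT.core [CompactSpace K] (h : HT X) {B : Set (X × K → ℝ)} (b1 : B.Countable)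
    (b2 : ∀ b ∈ B, Continuous b) : ∃ T : Set K, T.Countable ∧ ∀ k, ∃ k' ∈ closure T,
      ∀ b ∈ B, ∀ x, b (x, k') = b (x, k) := by
  choose! E E1 E2 using fun b hb => h.sep (ContinuousMap.curry ⟨b, b2 b hb⟩).continuous
  have := (b1.biUnion E1).to_subtype
  let φ : K → (⋃ b ∈ B, E b) → ℝ := fun k e => e.1 k
  have hφ : Continuous φ := continuous_pi fun e => e.1.continuous
  obtain ⟨t, t1, t2, t3⟩ := (IsSeparable.of_separableSpace (range φ)).exists_countable_dense_subset
  have := t2.to_subtype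
  choose a ha using fun y : t => t1 y.2
  refine ⟨range a, countable_range a, fun k => ?_⟩
  obtain ⟨k', k1, k2⟩ := hφ.isClosedMap.closure_image_subset (range a) (closure_mono
    (show t ⊆ φ '' range a from fun y hy => ⟨_, ⟨⟨y, hy⟩, rfl⟩, ha _⟩) (t3 ⟨k, rfl⟩))
  exact ⟨k', k1, fun b hb x => closure_minimal (t := {e : C(K, ℝ) | e k' = e k})
    (fun e he => congrFun k2 ⟨e, mem_biUnion hb he⟩) (isClosed_eq (continuous_eval_const _)
      (continuous_eval_const _)) (E2 b hb ⟨x, rfl⟩)⟩

lemma sig {j : Z → X × K → ℝ} (j1 : Continuous j) (j2 : ∀ z, Continuous (j z)) {T : Set K}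
    (hT : T.Countable) (g : Z) : ∃ σ : Z → Cp X, Continuous σ ∧
      ∀ z, σ z = σ g → ∀ x, ∀ k ∈ T, j z (x, k) = j g (x, k) := by
  have := hT.to_subtype
  let := metrizableSpaceMetric (T → ℝ)
  have j3 : ∀ z, Continuous fun x (k : T) => j z (x, k) := fun z => by fun_prop
  refine ⟨fun z => ⟨fun x => dist (fun k : T => j z (x, k)) fun k => j g (x, k),
    (j3 z).dist (j3 g)⟩, Continuous.subtype_mk (continuous_pi fun x => Continuous.dist
      (by fun_prop) continuous_const) _, fun z h x k hk => ?_⟩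
  exact congrFun (dist_eq_zero.1 ((congrFun (congrArg Subtype.val h) x).trans (dist_self _))) ⟨k, hk⟩

lemma fin {j : Z → X × K → ℝ} (j1 : IsEmbedding j) (j2 : ∀ z, Continuous (j z)) {T : Set K}
    {B : Set Z} {g z : Z} (h : ∀ k, ∃ k' ∈ closure T, ∀ b ∈ insert g B, ∀ x,
      j b (x, k') = j b (x, k)) (hz : z ∈ closure B) (e : ∀ x, ∀ k ∈ T, j z (x, k) = j g (x, k)) :
    z = g := by
  refine j1.injective (funext fun ⟨x, k⟩ => ?_)
  obtain ⟨k', k1, k2⟩ := h k
  have := j1.continuous
  rw [← k2 g (mem_insert _ _), ← closure_minimal (t := {z | j z (x, k') = j z (x, k)})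
    (fun b hb => k2 b (Or.inr hb) x) (isClosed_eq (by fun_prop) (by fun_prop)) hz]
  exact closure_minimal (t := {k | j z (x, k) = j g (x, k)}) (e x)
    (isClosed_eq (by fun_prop) (by fun_prop)) k1

theorem HT.tight [CompactSpace K] [CompactSpace Z] (h : HT X) {j : Z → X × K → ℝ}
    (j1 : IsEmbedding j) (j2 : ∀ z, Continuous (j z)) : Tight Z := by
  classical
  intro A g hg
  have : ∀ G : Finset K, ∃ B ⊆ A, B.Countable ∧ ∃ z ∈ closure B,
      ∀ x, ∀ k ∈ G, j z (x, k) = j g (x, k) := fun G => by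
    obtain ⟨σ, s1, s2⟩ := sig j1.continuous j2 G.countable_toSet g
    obtain ⟨B, b1, b2, b3⟩ := h Z σ s1 A g hg
    obtain ⟨z, z1, z2⟩ := s1.isClosedMap.closure_image_subset B b3
    exact ⟨B, b1, b2, z, z1, s2 z z2⟩
  choose B b1 b2 z z1 z2 using this
  choose T t1 k k1 k2 using fun G : Finset K => h.core (B := j '' insert g (⋃ G' ∈ G.powerset, B G'))
    (((G.powerset.countable_toSet.biUnion fun G' _ => b2 G').insert g).image j)
    (forall_mem_image.2 fun b _ => j2 b)
  obtain ⟨S, s1, s2⟩ := H5C.hull T t1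
  have := s1.to_subtype
  let m : Finset S → Finset K := fun G => G.image Subtype.val
  obtain ⟨w, hw⟩ := exists_clusterPt_of_compactSpace (map (fun G => z (m G)) atTop)
  have w1 : w ∈ closure (⋃ G, B (m G)) := isClosed_closure.mem_of_mapClusterPt hw
    (.of_forall fun G => closure_mono (subset_iUnion (fun G => B (m G)) G) (z1 _))
  refine ⟨⋃ G, B (m G), iUnion_subset fun _ => b1 _, countable_iUnion fun _ => b2 _,
    fin (T := S) (g := g) j1 j2 (fun a => ?_) w1 (fun x a ha => ?_) ▸ w1⟩
  · obtain ⟨a', ha⟩ := exists_clusterPt_of_compactSpace (map (fun G => k (m G) a) atTop)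
    refine ⟨a', isClosed_closure.mem_of_mapClusterPt ha (.of_forall fun G => closure_mono
      (s2 _ (by simp [m])) (k1 _ a)), fun b hb x => IsClosed.mem_of_mapClusterPt
      (s := {a' | j b (x, a') = j b (x, a)}) (isClosed_eq (by fun_prop) continuous_const) ha ?_⟩
    rcases hb with rfl | hb
    · exact .of_forall fun G => k2 _ a _ (mem_image_of_mem _ (mem_insert _ _)) x
    obtain ⟨G, hG⟩ := mem_iUnion.1 hb
    filter_upwards [eventually_ge_atTop G] with G' h'
    exact k2 _ a _ (mem_image_of_mem _ (Or.inr (mem_biUnion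
      (Finset.mem_powerset.2 (Finset.image_subset_image h')) hG))) x
  · have := j1.continuous
    refine IsClosed.mem_of_mapClusterPt (s := {z | j z (x, a) = j g (x, a)})
      (isClosed_eq (by fun_prop) continuous_const) hw ?_
    filter_upwards [eventually_ge_atTop {⟨a, ha⟩}] with G h'
    exact z2 _ x a (Finset.mem_image_of_mem _ (h' (Finset.mem_singleton_self _)))

theorem fu [CompactSpace K] [CompactSpace Z]
    (h : ∀ L : Set (Cp X), IsCompact L → FrechetUrysohnSpace L) {j : Z → X × K → ℝ}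
    (j1 : IsEmbedding j) (j2 : ∀ z, Continuous (j z)) : FrechetUrysohnSpace Z := by
  have h' : HT X := fun Z _ _ σ hσ A g hg => by
    obtain ⟨u, u1, u2⟩ := hf h hσ hg
    exact ⟨_, range_subset_iff.2 u1, countable_range u, mem_closure_of_tendsto u2
      (.of_forall fun n => ⟨_, ⟨n, rfl⟩, rfl⟩)⟩
  refine ⟨fun A g hg => ?_⟩
  obtain ⟨B, b1, b2, b3⟩ := h'.tight j1 j2 A g hg
  obtain ⟨T, t1, t2⟩ := h'.core (B := j '' insert g B) ((b2.insert g).image j)
    (forall_mem_image.2 fun b _ => j2 b)
  obtain ⟨σ, s1, s2⟩ := sig j1.continuous j2 t1 g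
  obtain ⟨u, u1, u2⟩ := hf h s1 b3
  refine ⟨u, fun n => b1 (u1 n), tendsto_nhds_of_unique_mapClusterPt fun z hz => fin j1 j2
    (by simpa only [forall_mem_image] using t2) (isClosed_closure.mem_of_mapClusterPt hz
      (.of_forall fun n => subset_closure (u1 n))) (s2 z ?_)⟩
  exact eq_of_nhds_neBot ((hz.continuousAt_comp s1.continuousAt).clusterPt.mono u2)

end H5P
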