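import Pool.Agent.Lib.helper5.Perf

/-! A countably saturated graph; closedness of countable sets is not l-invariant. -/

open Set Filter Topology

namespace H5E

universe u

inductive T : Type u
  | leaf : T
  | node : (ℕ → T) → T

def ch (s t : T.{u}) : Prop := ∃ g n, t = .node g ∧ g n = s

def M (s t : T.{u}) : Prop := ch s t ∨ ch t s

lemma M.symm {s t : T.{u}} (h : M s t) : M t s := Or.symm h

instance : Uncountable T.{u} := by
  classical
  have : Uncountable (Set ℕ) := Cardinal.aleph0_lt_mk_iff.1 (by simp [Cardinal.aleph0_lt_continuum])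
  refine Function.Injective.uncountable (f := fun S : Set ℕ =>
    T.node fun n => if n ∈ S then .leaf else .node fun _ => .leaf) fun S S' h => ?_
  ext n
  have := congrFun (T.node.inj h) n
  by_cases h1 : n ∈ S <;> by_cases h2 : n ∈ S' <;> simp_all

lemma ch_countable (s : T.{u}) : {t | ch t s}.Countable := by
  cases s with
  | leaf => exact countable_empty.mono fun _ ⟨_, _, h, _⟩ => by cases h
  | node g =>
    refine (countable_range g).mono ?_
    rintro _ ⟨_, n, h, e⟩
    exact ⟨n, (congrFun (T.node.inj h) n).trans e⟩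

lemma sat {P N : Set T.{u}} (hP : P.Countable) (hN : N.Countable) (hd : Disjoint P N) :
    ∃ t, (∀ s ∈ P, M s t) ∧ ∀ s ∈ N, ¬ M s t := by
  have : ∀ d : T, ∃ g : ℕ → T, insert d P = range g := fun d =>
    (hP.insert d).exists_eq_range (insert_nonempty _ _)
  choose g hg using this
  let t : T → T := fun d => .node fun n => Nat.casesOn n d (g d)
  have ht : Function.Injective t := fun a b h => congrFun (T.node.inj h) 0
  obtain ⟨d, h⟩ : ∃ d, d ∉ N ∪ t ⁻¹' ⋃ s ∈ N, {x | ch x s} := by
    by_contra hc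
    push Not at hc
    exact not_countable_univ ((hN.union ((hN.biUnion fun s _ => ch_countable s).preimage ht)).mono
      fun d _ => hc d)
  refine ⟨t d, fun s hs => Or.inl ?_, fun s hs => ?_⟩
  · obtain ⟨n, hn⟩ : s ∈ range (g d) := hg d ▸ Or.inr hs
    exact ⟨_, n + 1, rfl, hn⟩
  · rintro (⟨g', n, h1, rfl⟩ | h1)
    · rw [← T.node.inj h1] at hs
      have : ∀ m, g d m ∉ N := fun m hm => by
        rcases (hg d ▸ mem_range_self m : g d m ∈ insert d P) with e | e
        exacts [h (Or.inl (e ▸ hm)), disjoint_left.1 hd e hm]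
      cases n
      exacts [h (Or.inl hs), this _ hs]
    · exact h (Or.inr (mem_biUnion hs h1))

lemma gap {X Λ E : Type*} [TopologicalSpace X] [PseudoMetricSpace E] {j : X → Λ → E}
    (hj : IsInducing j) (hd : ∀ S : Set Λ, S.Countable → ∀ w : Λ → E, ∃ x, j x ∈ H5C.F S w)
    {f : X → ℝ} (hf : Continuous f) {r s : ℝ} {y : Λ → E} (h1 : y ∈ closure (j '' {x | f x < r}))
    (h2 : y ∈ closure (j '' {x | s < f x})) : s ≤ r := by
  have den : DenseRange j := dense_iff_inter_open.2 fun U hU ⟨w, hw⟩ => by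
    obtain ⟨G, hG⟩ := H5C.face_open hU hw
    obtain ⟨x, hx⟩ := hd G G.countable_toSet w
    exact ⟨_, hG hx, x, rfl⟩
  have key : ∀ A : Set X, IsOpen A → y ∈ closure (j '' A) → ∃ S : Set Λ, S.Countable ∧
      ∀ x, j x ∈ H5C.F S y → x ∈ closure A := fun A hA h => by
    obtain ⟨U, u1, rfl⟩ := hj.isOpen_iff.1 hA
    obtain ⟨S, s1, s2⟩ := H5C.face_closure u1 (closure_mono (image_preimage_subset _ _) h)
    refine ⟨S, s1, fun x hx => ?_⟩
    rw [hj.closure_eq_preimage_closure_image, image_preimage_eq_inter_range]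
    exact closure_minimal (den.open_subset_closure_inter u1) isClosed_closure (s2 hx)
  obtain ⟨S, s1, s2⟩ := key _ (isOpen_lt hf continuous_const) h1
  obtain ⟨S', t1, t2⟩ := key _ (isOpen_lt continuous_const hf) h2
  obtain ⟨x, hx⟩ := hd _ (s1.union t1) y
  exact (closure_lt_subset_le continuous_const hf (t2 x (H5C.F_mono subset_union_right _ hx))).trans
    (closure_lt_subset_le hf continuous_const (s2 x (H5C.F_mono subset_union_left _ hx)))

open Classical in
/-- rows of the saturated matrix, with columns restricted to `I` -/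
noncomputable def row (I : Set T.{u}) (s : T.{u}) : I → Bool := fun i => decide (M s i)

lemma row_dense (I : Set T.{u}) (S : Set I) (hS : S.Countable) (w : I → Bool) :
    ∃ s, row I s ∈ H5C.F S w := by
  obtain ⟨t, h1, h2⟩ := sat (P := Subtype.val '' (S ∩ {i | w i = true}))
    (N := Subtype.val '' (S ∩ {i | w i = false})) ((hS.mono inter_subset_left).image _)
    ((hS.mono inter_subset_left).image _) (by
      rw [disjoint_image_iff Subtype.val_injective, disjoint_left]
      intro i h h'
      simpa using h.2.symm.trans h'.2)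
  refine ⟨t, fun i hi => ?_⟩
  cases h : w i
  · simpa [row] using fun h' : M t i => h2 _ ⟨i, ⟨hi, h⟩, rfl⟩ h'.symm
  · simpa [row] using (h1 _ ⟨i, ⟨hi, h⟩, rfl⟩).symm

theorem cclosed : ∃ (X Y : Type u) (_ : TopologicalSpace X) (_ : TopologicalSpace Y)
    (_ : T35Space X) (_ : T35Space Y), LEq X Y ∧ (∀ s : Set X, s.Countable → IsClosed s) ∧
      ∃ s : Set Y, s.Countable ∧ ¬ IsClosed s := by
  let c := Infinite.natEmbedding T.{u}
  let I : Set T.{u} := {t | ∀ᶠ n in atTop, M (c (2 * n)) t ↔ M (c (2 * n + 1)) t}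
  let Z := range (row I)
  let ρ : T → Z := fun s => ⟨_, s, rfl⟩
  have sep : ∀ S : Set T, S.Countable → ∀ z ∉ S, ∃ i : I, row I z i = false ∧
      ∀ s ∈ S, row I s i = true := fun S hS z hz => by
    obtain ⟨t, h1, h2⟩ := sat (P := (S ∪ range c) \ {z}) (N := {z})
      ((hS.union (countable_range c)).mono sdiff_subset) (countable_singleton z)
      disjoint_sdiff_left
    have : ∀ᶠ n in atTop, M (c n) t := by
      rw [← Nat.cofinite_eq_atTop]
      refine (((finite_singleton z).preimage c.injective.injOn).subset fun n hn => ?_ : Set.Finite _)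
      exact by_contra fun h => hn (h1 _ ⟨Or.inr ⟨n, rfl⟩, h⟩)
    obtain ⟨k, hk⟩ := eventually_atTop.1 this
    refine ⟨⟨t, eventually_atTop.2 ⟨k, fun n hn => iff_of_true (hk _ (by omega))
      (hk _ (by omega))⟩⟩, by simpa [row] using h2 z rfl, fun s hs => ?_⟩
    simpa [row] using h1 s ⟨Or.inl hs, fun h => hz (h ▸ hs)⟩
  have inj : Function.Injective ρ := fun a b h => by
    by_contra hne
    obtain ⟨i, h1, h2⟩ := sep {b} (countable_singleton b) a hne
    have := congrFun (congrArg Subtype.val h) i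
    simp [ρ, h1, h2 b rfl] at this
  have cd : ∀ D : Set Z, D.Countable → CD D := fun D hD ⟨_, z, rfl⟩ => by
    obtain ⟨i, h1, h2⟩ := sep (ρ ⁻¹' D \ {z}) ((hD.preimage inj).mono sdiff_subset) z (by simp)
    have ho : IsOpen {x : Z | x.1 i = false} :=
      (isOpen_discrete {false}).preimage (f := fun x : Z => x.1 i)
        ((continuous_apply i).comp continuous_subtype_val)
    refine ⟨_, ho.mem_nhds h1, ?_⟩
    rintro ⟨_, s, rfl⟩ ⟨h3, h4⟩
    by_contra h
    have := h2 s ⟨h4, fun e => h (by rw [e]; rfl)⟩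
    exact absurd (h3.symm.trans this) (by simp)
  refine ⟨_, _, inferInstance, inferInstance, inferInstance, inferInstance,
    machine_sq Z (ρ .leaf), fun s hs => isClosed_sum_iff.2 ⟨?_, isClosed_discrete _⟩,
    range fun n => .inr (q _ (ρ (c (2 * n)), ρ (c (2 * n + 1)))), countable_range _, fun h => ?_⟩
  · have := hs.preimage Sum.inl_injective
    exact ((cd _ (this.image Prod.fst)).prod (cd _ (this.image Prod.snd))).isClosed
      fun x hx => ⟨⟨x, hx, rfl⟩, x, hx, rfl⟩
  have : Tendsto (fun n => q (diag Z) (ρ (c (2 * n)), ρ (c (2 * n + 1)))) atTop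
      (𝓝 (q _ (diag Z (ρ .leaf)))) := by
    refine tendsto_subtype_rng.2 (tendsto_pi_nhds.2 fun f => ?_)
    change Tendsto (fun n => f.1 _) _ (𝓝 (f.1 _))
    rw [f.2, tendsto_zero_iff_abs_tendsto_zero, tendsto_order]
    refine ⟨fun a ha => .of_forall fun n => ha.trans_le (abs_nonneg _), fun ε hε => ?_⟩
    by_contra hc
    let j : Z × Z → I ⊕ I → Bool := fun p => Sum.elim p.1.1 p.2.1
    have hj : IsInducing j := (Homeomorph.sumArrowHomeomorphProdArrow.symm.isInducing).comp
      (IsInducing.subtypeVal.prodMap IsInducing.subtypeVal)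
    obtain ⟨𝒰, u1⟩ := Ultrafilter.exists_le (atTop ⊓ 𝓟 {n | ¬ |f.1 (ρ (c (2 * n)),
      ρ (c (2 * n + 1)))| < ε}) (h := frequently_mem_iff_neBot.1 (not_eventually.1 hc))
    obtain ⟨y, -, hy⟩ := isCompact_univ.ultrafilter_le_nhds (𝒰.map fun n =>
      j (ρ (c (2 * n)), ρ (c (2 * n + 1)))) (by simp)
    have e : y = Sum.elim (y ∘ .inl) (y ∘ .inl) := by
      ext (i | i)
      · rfl
      · refine tendsto_nhds_unique_of_eventuallyEq (tendsto_pi_nhds.1 hy (.inr i))
          (tendsto_pi_nhds.1 hy (.inl i)) ?_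
        filter_upwards [(u1.trans inf_le_left) i.2] with n hn
        simp [j, ρ, row, hn]
    let : MetricSpace Bool := TopologicalSpace.metrizableSpaceMetric Bool
    have := gap (s := 2 * ε / 3) (r := ε / 3) (y := y) hj (fun S hS w => by
      obtain ⟨a, ha⟩ := row_dense I _ (hS.preimage Sum.inl_injective) (w ∘ .inl)
      obtain ⟨b, hb⟩ := row_dense I _ (hS.preimage Sum.inr_injective) (w ∘ .inr)
      refine ⟨(ρ a, ρ b), ?_⟩
      rintro (i | i) hi
      exacts [ha i hi, hb i hi]) f.1.2.abs (mem_closure_iff.2 fun U hU hU' => by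
        obtain ⟨G, hG⟩ := H5C.face_open hU hU'
        obtain ⟨a, ha⟩ := row_dense I (Sum.inl ⁻¹' (G : Set (I ⊕ I)) ∪ Sum.inr ⁻¹' (G : Set (I ⊕ I)))
          ((G.countable_toSet.preimage Sum.inl_injective).union
            (G.countable_toSet.preimage Sum.inr_injective)) (y ∘ .inl)
        refine ⟨_, hG ?_, (ρ a, ρ a), ?_, rfl⟩
        · rw [e]
          rintro (i | i) hi
          exacts [ha i (Or.inl hi), ha i (Or.inr hi)]
        · have : f.1 (ρ a, ρ a) = 0 := f.2 (ρ a)
          simp [this, hε]) (mem_closure_of_tendsto hy (by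
        filter_upwards [le_principal_iff.1 (u1.trans inf_le_right)] with n hn
        exact ⟨_, lt_of_lt_of_le (by linarith) (not_lt.1 hn), rfl⟩))
    linarith
  obtain ⟨n, hn⟩ := h.mem_of_tendsto ((continuous_inr.tendsto _).comp this)
    (.of_forall fun n => ⟨n, rfl⟩)
  exact q_diag_ne _ (fun _ => rfl) (fun h => by simpa using c.injective (inj h)) _
    (Sum.inr_injective hn)

end H5E
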