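import Pool.Agent.Lib.helper5.BaSub

/-! A space with the separable complementation property and a subspace of density at most
continuum that is fixed by no operator whose range has density at most continuum. -/

open Set Filter Topology TopologicalSpace Function
open scoped BoundedContinuousFunction Cardinal

namespace H5B

section
variable {E : Type} [NormedAddCommGroup E] [NormedSpace ℝ E]

lemma sepgen {Λ : Type} (x : Λ → E) {s : Set E} (hs : IsSeparable s)
    (h : s ⊆ (Submodule.span ℝ (range x)).topologicalClosure) :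
    ∃ L : Set Λ, L.Countable ∧ s ⊆ (Submodule.span ℝ (x '' L)).topologicalClosure := by
  obtain ⟨t, t0, t1, t2⟩ := hs.exists_countable_dense_subset
  have : ∀ y ∈ t, ∀ k : ℕ, ∃ L : Set Λ, L.Countable ∧ ∃ z ∈ Submodule.span ℝ (x '' L),
      dist y z < 1 / ((k : ℝ) + 1) := fun y m k => by
    obtain ⟨z, z1, z2⟩ := Metric.mem_closure_iff.1 (h (t0 m)) _ (Nat.one_div_pos_of_nat (n := k))
    obtain ⟨F, f1, f2⟩ := Submodule.mem_span_finite_of_mem_span z1
    obtain ⟨L, -, l1, l2⟩ := Finite.exists_subset_finite_image_eq F.finite_toSet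
      (image_univ ▸ f1 : _ ⊆ x '' univ)
    exact ⟨L, l1.countable, z, l2 ▸ f2, z2⟩
  choose! L l1 z z1 z2 using this
  refine ⟨⋃ y ∈ t, ⋃ k, L y k, t1.biUnion fun y m => countable_iUnion (l1 y m), t2.trans
    (closure_minimal (fun y m => Metric.mem_closure_iff.2 fun ε e => ?_) isClosed_closure)⟩
  obtain ⟨k, hk⟩ := exists_nat_one_div_lt e
  exact ⟨z y k, Submodule.span_mono (image_mono (subset_biUnion_of_mem (u := fun y => ⋃ k, L y k)
    m |>.trans' (subset_iUnion _ k))) (z1 y m k), (z2 y m k).trans hk⟩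

/-- The separable complementation property. -/
def Scp (X : Type) [NormedAddCommGroup X] [NormedSpace ℝ X] : Prop :=
  ∀ Y : Submodule ℝ X, IsSeparable (Y : Set X) → ∃ Z : Submodule ℝ X, Y ≤ Z ∧
    IsClosed (Z : Set X) ∧ IsSeparable (Z : Set X) ∧
      ∃ P : X →L[ℝ] X, (∀ x, P x ∈ Z) ∧ ∀ z ∈ Z, P z = z

lemma scp {Λ : Type} (x : Λ → E) (h : ∀ L : Set Λ, L.Countable → ∃ L' : Set Λ, L ⊆ L' ∧
    L'.Countable ∧ ∃ Q : E →L[ℝ] E, (∀ p, Q (x p) ∈ Submodule.span ℝ (x '' L')) ∧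
      ∀ p ∈ L', Q (x p) = x p) : Scp (Submodule.span ℝ (range x)).topologicalClosure := by
  intro Y hY
  obtain ⟨L, l1, l2⟩ := sepgen x (hY.image continuous_subtype_val) (by
    rintro _ ⟨y, -, rfl⟩
    exact y.2)
  obtain ⟨L', l3, l4, Q, q1, q2⟩ := h L l1
  have k : ∀ y ∈ (Submodule.span ℝ (range x)).topologicalClosure,
      Q y ∈ (Submodule.span ℝ (x '' L')).topologicalClosure :=
    gen (T := (Submodule.span ℝ (x '' L')).topologicalClosure.comap Q.toLinearMap)
      (isClosed_closure.preimage Q.continuous)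
      (range_subset_iff.2 fun p => Submodule.le_topologicalClosure _ (q1 p))
  exact ⟨(Submodule.span ℝ (x '' L')).topologicalClosure.comap (Submodule.subtype _), fun y m =>
    Submodule.topologicalClosure_mono (Submodule.span_mono (image_mono l3)) (l2 ⟨y, m, rfl⟩),
    isClosed_closure.preimage continuous_subtype_val, IsEmbedding.subtypeVal.isSeparable_preimage
      ((l4.image x).isSeparable.span (R := ℝ)).closure, (Q ∘L Submodule.subtypeL _).codRestrict _
        fun y => Submodule.topologicalClosure_mono (Submodule.span_mono (image_subset_range ..))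
          (k _ y.2), fun y => k _ y.2, fun y m => Subtype.ext (sub_eq_zero.1 (gen
            (T := (Q - 1).ker) (ContinuousLinearMap.isClosed_ker _) (by
              rintro _ ⟨p, m, rfl⟩
              exact sub_eq_zero.2 (q2 p m)) m))⟩

lemma alg {X : Submodule ℝ E} (P : En X) {ι : Type} (D : Finset ι) (ε : ι → ℝ) (x : ι → X)
    (p q r : ι → E) (hx : ∀ n, (x n).1 = p n - r n)
    (hw : ∀ n ∈ D, ∃ w : X, P w = w ∧ w.1 = q n - r n) {C : ℝ} (hC : ∀ x, ‖P x‖ ≤ C * ‖x‖)
    (c0 : 0 ≤ C) (hp : ‖∑ n ∈ D, ε n • p n‖ ≤ 1) (hq : ‖∑ n ∈ D, ε n • q n‖ ≤ 1) :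
    ‖∑ n ∈ D, ε n • ((P (x n)).1 + r n)‖ ≤ C * 2 + 1 := by
  choose! w w1 w2 using hw
  have e : ∑ n ∈ D, ε n • ((P (x n)).1 + r n) = (P (∑ n ∈ D, ε n • (x n - w n))).1 +
      ∑ n ∈ D, ε n • q n := by
    rw [map_sum, Submodule.coe_sum, ← Finset.sum_add_distrib]
    refine Finset.sum_congr rfl fun n m => ?_
    rw [map_smul, map_sub, w1 n m, Submodule.coe_smul, Submodule.coe_sub, w2 n m, ← smul_add]
    congr 1
    abel
  have e1 : (∑ n ∈ D, ε n • (x n - w n)).1 = ∑ n ∈ D, ε n • p n - ∑ n ∈ D, ε n • q n := by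
    rw [Submodule.coe_sum, ← Finset.sum_sub_distrib]
    refine Finset.sum_congr rfl fun n m => ?_
    rw [Submodule.coe_smul, Submodule.coe_sub, w2 n m, hx, sub_sub_sub_cancel_right, smul_sub]
  refine e ▸ (norm_add_le ..).trans (add_le_add ((hC _).trans
    (mul_le_mul_of_nonneg_left ?_ c0)) hq)
  exact (congrArg norm e1).trans_le ((norm_sub_le ..).trans
    ((add_le_add hp hq).trans_eq one_add_one_eq_two))

end

variable {I Ω : Type} [TopologicalSpace (I → Ω × SignType)] [DiscreteTopology (I → Ω × SignType)]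

open Classical in
/-- unit vectors -/
noncomputable def uu (i : I) (n : Ω) : (I → Ω × SignType) →ᵇ ℝ :=
  .ofNormedAddCommGroupDiscrete (fun θ => if (θ i).1 = n then ((θ i).2 : ℝ) else 0) 1 fun θ => by
    split_ifs
    · cases (θ i).2 <;> simp
    · simp

/-- generators -/
noncomputable def xx (a : I → Set Ω) (c : (ℕ → Ω) → I) (p : {p : I × Ω // p.2 ∈ a p.1}) :
    (I → Ω × SignType) →ᵇ ℝ := uu p.1.1 p.1.2 - uu (c fun _ => p.1.2) p.1.2

lemma scp' [Nonempty Ω] {a : I → Set Ω} {c : (ℕ → Ω) → I} (hc : ∀ f, a (c f) = range f) :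
    Scp (Submodule.span ℝ (range (xx a c))).topologicalClosure := by
  classical
  refine scp _ fun L h => ?_
  obtain ⟨f, hf⟩ := countable_iff_exists_subset_range.1 (h.image (·.1.2))
  let J := (·.1.1) '' L ∪ insert (c f) (range fun k => c fun _ => f k)
  let π := fun i => if i ∈ J then i else c f
  let τ : C(I → Ω × SignType, I → Ω × SignType) := ⟨fun θ i => ((θ (π i)).1,
    if (θ (π i)).1 ∈ range f then (θ (π i)).2 else 0), continuous_of_discreteTopology⟩
  have k : ∀ i n, (uu i n).compContinuous τ = if n ∈ range f then uu (π i) n else 0 := fun i n =>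
    BoundedContinuousFunction.ext fun θ => by
      by_cases e : (θ (π i)).1 = n <;> by_cases m : n ∈ range f <;> simp [uu, τ, e, m, -mem_range]
  have k1 : ∀ n ∈ range f, π (c fun _ => n) = c fun _ => n := by
    rintro _ ⟨m, rfl⟩
    exact if_pos (.inr (.inr ⟨m, rfl⟩))
  refine ⟨{p | p.1.1 ∈ J ∧ p.1.2 ∈ range f}, fun p m => ⟨.inl ⟨p, m, rfl⟩, hf ⟨p, m, rfl⟩⟩,
    (((h.image _).union ((countable_range _).insert _)).prod (countable_range f)).preimage
      Subtype.val_injective, BoundedContinuousFunction.compContinuousCLM ℝ ℝ τ, fun p => ?_,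
        fun p m => ?_⟩ <;>
    simp only [xx, map_sub, BoundedContinuousFunction.compContinuousCLM_apply] <;> rw [k, k]
  · split_ifs with m
    · rw [k1 _ m]
      refine Submodule.subset_span ⟨⟨(π p.1.1, p.1.2), ?_⟩, ⟨?_, m⟩, rfl⟩ <;> simp only [π] <;>
        split_ifs with e
      exacts [p.2, (hc f).symm ▸ m, e, .inr (.inl rfl)]
    · simp
  · rw [if_pos m.2, if_pos m.2, k1 _ m.2, show π p.1.1 = _ from if_pos m.1]

/-- functions almost determined by finitely many coordinates -/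
def fd (I Ω : Type) [TopologicalSpace (I → Ω × SignType)] :
    Submodule ℝ ((I → Ω × SignType) →ᵇ ℝ) where
  carrier := {y | ∀ ε > 0, ∃ K : Finset I, ∀ θ η, (∀ i ∈ K, θ i = η i) → |y θ - y η| ≤ ε}
  zero_mem' ε e := ⟨∅, fun _ _ _ => by simpa using e.le⟩
  add_mem' {a b} ha hb ε e := by
    classical
    obtain ⟨A, hA⟩ := ha _ (half_pos e)
    obtain ⟨B, hB⟩ := hb _ (half_pos e)
    refine ⟨A ∪ B, fun θ η k => ?_⟩
    rw [a.add_apply, a.add_apply, add_sub_add_comm]
    linarith [hA θ η fun x m => k x (by simp [m]), hB θ η fun x m => k x (by simp [m]),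
      abs_add_le (a θ - a η) (b θ - b η)]
  smul_mem' t b hb ε e := by
    obtain ⟨A, hA⟩ := hb (ε / (|t| + 1)) (by positivity)
    refine ⟨A, fun θ η k => ?_⟩
    have := (le_div_iff₀ (by positivity)).1 (hA θ η k)
    change |t * b θ - t * b η| ≤ ε
    rw [← mul_sub, abs_mul]
    nlinarith [abs_nonneg (b θ - b η)]

omit [DiscreteTopology (I → Ω × SignType)] in
lemma fd_closed : IsClosed (fd I Ω : Set ((I → Ω × SignType) →ᵇ ℝ)) := by
  refine isClosed_of_closure_subset fun y h ε e => ?_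
  obtain ⟨z, z1, z2⟩ := Metric.mem_closure_iff.1 h (ε / 3) (by positivity)
  obtain ⟨F, hF⟩ := z1 (ε / 3) (by positivity)
  refine ⟨F, fun θ η k => ?_⟩
  have k1 := abs_le.1 ((y.dist_coe_le_dist (g := z) θ).trans z2.le)
  have k2 := abs_le.1 ((y.dist_coe_le_dist (g := z) η).trans z2.le)
  have k3 := abs_le.1 (hF θ η k)
  exact abs_le.2 ⟨by linarith, by linarith⟩

lemma b0 {s : Set Ω} (i : I) (D : Finset s) (ε : s → SignType) :
    ‖∑ n ∈ D, (ε n : ℝ) • uu i n.1‖ ≤ 1 := by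
  refine (BoundedContinuousFunction.norm_le zero_le_one).2 fun θ => ?_
  rw [BoundedContinuousFunction.sum_apply]
  by_cases h : ∃ n ∈ D, (θ i).1 = n.1
  · obtain ⟨n, n1, n2⟩ := h
    rw [Finset.sum_eq_single_of_mem n n1 fun m _ e => by simp [uu, n2, Subtype.val_inj, e.symm]]
    cases ε n <;> cases e : (θ i).2 <;> simp [uu, n2, e]
  · rw [Finset.sum_eq_zero fun n m => by simp [uu, show (θ i).1 ≠ n.1 from fun e => h ⟨n, m, e⟩]]
    simp

theorem nop {a : I → Set Ω} {c : (ℕ → Ω) → I} (hc : ∀ f, a (c f) = range f) [Nonempty Ω]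
    (hI : ∀ J : Set I, #J ≤ 𝔠 → ∃ γ ∉ J, ∀ K : Finset I, γ ∉ K → ∀ D : Finset Ω,
      ∃ n ∈ a γ, n ∉ D ∧ ∀ i ∈ K, n ∉ a i)
    (P : En (Submodule.span ℝ (range (xx a c))).topologicalClosure)
    (hP : ∀ f n h, P ⟨xx a c ⟨(c f, n), h⟩, subset_closure (Submodule.subset_span ⟨_, rfl⟩)⟩ =
      ⟨xx a c ⟨(c f, n), h⟩, subset_closure (Submodule.subset_span ⟨_, rfl⟩)⟩)
    {t : Set (Submodule.span ℝ (range (xx a c))).topologicalClosure} (t1 : #t ≤ 𝔠)
    (t2 : range P ⊆ closure t) : False := by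
  classical
  let X := (Submodule.span ℝ (range (xx a c))).topologicalClosure
  obtain ⟨C, c0, hC⟩ := P.bound
  let A := (Submodule.span ℝ (range fun p : {p : I × Ω // p.2 ∈ a p.1} =>
    uu p.1.1 p.1.2)).topologicalClosure
  have a0 : ∀ i n, n ∈ a i → uu i n ∈ A := fun i n h =>
    subset_closure (Submodule.subset_span ⟨⟨(i, n), h⟩, rfl⟩)
  have a1 : ∀ n, uu (c fun _ => n) n ∈ A := fun n => a0 _ _ ((hc _).symm ▸ ⟨0, rfl⟩)
  have a2 : X ≤ A := gen isClosed_closure (range_subset_iff.2 fun p => sub_mem (a0 _ _ p.2) (a1 _))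
  have a3 : A ≤ fd I Ω := gen fd_closed (range_subset_iff.2 fun p ε e => ⟨{p.1.1}, fun θ η k => by
    simpa [uu, k p.1.1 (by simp)] using e.le⟩)
  have a4 : ∀ (θ η ζ : I → Ω × SignType) (r : ℝ), (∀ i n, n ∈ a i →
      uu i n θ = uu i n η + r * uu i n ζ) → ∀ y ∈ A, y θ = y η + r * y ζ := fun θ η ζ r h y m =>
    sub_eq_zero.1 (gen (T := (dl θ - (dl η + r • dl ζ)).ker) (ContinuousLinearMap.isClosed_ker _)
      (range_subset_iff.2 fun p => sub_eq_zero.2 (h _ _ p.2)) m)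
  choose K hK using fun (y : X) (k : ℕ) => a3 (a2 y.2) _ (Nat.one_div_pos_of_nat (n := k))
  obtain ⟨γ, g1, g2⟩ := hI (⋃ y : t, ⋃ k, K y k) ((Cardinal.mk_iUnion_le _).trans
    ((mul_le_mul' t1 (ciSup_le' fun y : t => (countable_iUnion fun k =>
      (K y k).countable_toSet).le_aleph0)).trans_eq Cardinal.continuum_mul_aleph0))
  have g3 : ∀ ξ θ η, (∀ i ≠ γ, θ i = η i) → (P ξ).1 θ = (P ξ).1 η := fun ξ θ η h =>
    closure_minimal (s := t) (t := {y | y.1 θ = y.1 η}) (fun y m => sub_eq_zero.1 (abs_nonpos_iff.1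
      (ge_of_tendsto' tendsto_one_div_add_atTop_nhds_zero_nat fun n => hK y n θ η fun i e =>
        h i fun e' => g1 (mem_iUnion.2 ⟨⟨y, m⟩, mem_iUnion.2 ⟨n, e' ▸ e⟩⟩))))
          (isClosed_eq (by fun_prop) (by fun_prop)) (t2 ⟨ξ, rfl⟩)
  have g4 : ∀ n, (c fun _ => n) ≠ γ := fun n e => by
    obtain ⟨m, m1, m2, -⟩ := g2 ∅ (by simp) {n}
    rw [← e, hc] at m1
    simp_all
  let x : a γ → X := fun n =>
    ⟨xx a c ⟨(γ, n), n.2⟩, subset_closure (Submodule.subset_span ⟨_, rfl⟩)⟩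
  let y := fun n : a γ => (P (x n)).1 + uu (c fun _ => n.1) n.1
  have y1 : ∀ n, y n ∈ A := fun n => add_mem (a2 (P _).2) (a1 _)
  have b1 : ∀ (D : Finset (a γ)) (ε : a γ → SignType),
      ‖∑ n ∈ D, (ε n : ℝ) • y n‖ ≤ C * 2 + 1 := fun D ε => by
    obtain ⟨f, hf⟩ := countable_iff_exists_subset_range.1 (D.countable_toSet.image Subtype.val)
    exact alg P D _ x (fun n => uu γ n.1) (fun n => uu (c f) n.1) _ (fun _ => rfl) (fun n m =>
      ⟨_, hP f n ((hc f).symm ▸ hf ⟨n, m, rfl⟩), rfl⟩) hC c0.le (b0 ..) (b0 ..)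
  have : ∀ N : ℕ, ∃ (D : Finset (a γ)) (ε : a γ → SignType) (K : Finset I) (θ : I → Ω × SignType),
      γ ∉ K ∧ (∀ i ∉ K, (θ i).2 = 0) ∧ N / 2 ≤ (∑ n ∈ D, (ε n : ℝ) • y n) θ := fun N => by
    induction N with
    | zero => exact ⟨∅, 0, ∅, fun _ => (Classical.arbitrary _, 0), by simp⟩
    | succ N ih =>
      obtain ⟨D, ε, K, θ, k1, k2, k3⟩ := ih
      obtain ⟨n, n1, n2, n3⟩ := g2 K k1 (D.image (↑))
      have n4 : ⟨n, n1⟩ ∉ D := fun m => n2 (Finset.mem_image_of_mem _ m)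
      obtain ⟨F, hF⟩ := a3 (y1 ⟨n, n1⟩) _ one_half_pos
      let η := fun i => (n, if i ∈ (F \ K).erase γ then (1 : SignType) else 0)
      have e1 : y ⟨n, n1⟩ (fun _ => (n, 1)) = 1 := by
        have := sub_eq_zero.1 (gen (T := (dl (fun _ : I => (n, (1 : SignType))) - 0).ker)
          (ContinuousLinearMap.isClosed_ker _) (range_subset_iff.2 fun p => sub_eq_zero.2 (by
            simp [xx, uu, dl])) (P (x ⟨n, n1⟩)).2)
        simpa [y, uu, dl] using this
      have e2 : y ⟨n, n1⟩ (fun _ => (n, 1)) = y ⟨n, n1⟩ fun i => (n, if i = γ then 0 else 1) :=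
        congrArg₂ (· + ·) (g3 _ _ _ fun i h => by simp [h]) (by simp [uu, g4])
      have e3 := a4 (fun i => (n, if i = γ then 0 else 1)) (fun i => (n, if i ∈ F then
        (η i).2 else if i = γ then 0 else 1)) η 0 (fun i m h => by
          by_cases j : n = m
          · by_cases j1 : i ∈ F <;> by_cases j2 : i = γ <;>
              simp [uu, η, j1, j2, show i ∉ K from fun k => n3 i k (j ▸ h)]
          · simp [uu, j]) _ (y1 ⟨n, n1⟩)
      have e4 := (abs_le.1 (hF (fun i => (n, if i ∈ F then (η i).2 else if i = γ then 0 else 1)) η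
        fun i h => by simp only [if_pos h]; rfl)).2
      obtain ⟨σ, s1, s2⟩ : ∃ σ : SignType, (σ : ℝ) * σ = 1 ∧
          0 ≤ σ * ((∑ n ∈ D, (ε n : ℝ) • y n) η + y ⟨n, n1⟩ θ) :=
        (le_total 0 ((∑ n ∈ D, (ε n : ℝ) • y n) η + y ⟨n, n1⟩ θ)).elim
          (fun h => ⟨1, by simp, h.trans_eq (by simp)⟩) fun h =>
            ⟨-1, by simp, (neg_nonneg.2 h).trans_eq (by simp)⟩
      have e5 := a4 (fun i => if i ∈ K then θ i else (n, σ * (η i).2)) θ η σ fun i m h => by
        by_cases j : i ∈ K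
        · simp [uu, η, j]
        · simp [uu, j, k2 i, show (η i).1 = n from rfl]
      refine ⟨insert ⟨n, n1⟩ D, update ε ⟨n, n1⟩ σ, K ∪ F.erase γ, fun i => if i ∈ K then θ i else
        (n, σ * (η i).2), by simp [k1], fun i h => ?_, ?_⟩
      · simp only [Finset.mem_union, not_or] at h
        beta_reduce
        rw [if_neg h.1, show (η i).2 = 0 from if_neg fun j => h.2 (Finset.erase_subset_erase _
          Finset.sdiff_subset j), mul_zero]
      rw [Finset.sum_insert n4, update_self, Finset.sum_congr (g := fun m => (ε m : ℝ) • y m) rfl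
        fun m h => by rw [update_of_ne (ne_of_mem_of_not_mem h n4)], e5 _ (add_mem (Submodule.smul_mem _ _ (y1 _))
          (Submodule.sum_mem _ fun m _ => Submodule.smul_mem _ _ (y1 m)))]
      simp only [BoundedContinuousFunction.add_apply, BoundedContinuousFunction.smul_apply,
        smul_eq_mul, mul_add, ← mul_assoc, s1] at s2 ⊢
      push_cast
      linarith
  obtain ⟨N, hN⟩ := exists_nat_gt (2 * (C * 2 + 1))
  obtain ⟨D, ε, -, θ, -, -, h⟩ := this N
  linarith [(le_abs_self _).trans (((∑ n ∈ D, (ε n : ℝ) • y n).norm_coe_le_norm θ).trans (b1 D ε))]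

theorem big : ∃ (X : Type) (_ : NormedAddCommGroup X) (_ : NormedSpace ℝ X) (_ : CompleteSpace X),
    Scp X ∧ ∃ s : Set X, #s ≤ 𝔠 ∧ ∀ P : X →L[ℝ] X, (∀ x ∈ s, P x = x) →
      ∀ t : Set X, #t ≤ 𝔠 → ¬ range P ⊆ closure t := by
  classical
  let Ω := ℝ × Finset ℝ × Finset ℝ
  let a : (ℕ → Ω) ⊕ Set ℝ → Set Ω := Sum.elim range fun t => {p | p.2.2 = p.2.1.filter (· ∈ t)}
  let : TopologicalSpace ((ℕ → Ω) ⊕ Set ℝ → Ω × SignType) := ⊥
  have : DiscreteTopology ((ℕ → Ω) ⊕ Set ℝ → Ω × SignType) := ⟨rfl⟩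
  have hc : ∀ f, a (.inl f) = range f := fun _ => rfl
  refine ⟨(Submodule.span ℝ (range (xx a .inl))).topologicalClosure, inferInstance, inferInstance,
    isClosed_closure.completeSpace_coe, scp' hc, range fun p : (ℕ → Ω) × ℕ =>
      ⟨xx a .inl ⟨(.inl p.1, p.1 p.2), ⟨_, rfl⟩⟩, subset_closure (Submodule.subset_span ⟨_, rfl⟩)⟩,
    Cardinal.mk_range_le.trans (by simp [Ω, Cardinal.mk_real]), fun P hP t t1 t2 => nop hc (fun J h => ?_) P
      (fun f n h => hP _ (h.elim fun k e => ⟨(f, k), Subtype.ext (congrArg (xx a .inl)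
        (Subtype.ext (Prod.ext rfl e)))⟩)) t1 t2⟩
  obtain ⟨u, hu⟩ : ∃ u, Sum.inr u ∉ J := by_contra fun k => (Cardinal.cantor 𝔠).not_ge (le_trans
    (by simpa [Cardinal.mk_real] using Cardinal.mk_le_of_injective (f := fun u : Set ℝ => (⟨.inr u, by_contra fun m =>
      k ⟨u, m⟩⟩ : J)) fun _ _ e => Sum.inr_injective (Subtype.mk.inj e)) h)
  refine ⟨_, hu, fun K hK D => ?_⟩
  have : ∀ v, Sum.inr v ∈ K → ∃ z, ¬ (z ∈ u ↔ z ∈ v) := fun v m =>
    not_forall.1 fun e => hK (Set.ext e ▸ m)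
  choose! z hz using this
  let F := K.toRight.image z
  have k : (Prod.fst '' ((D : Set Ω) ∪ ⋃ f ∈ K.toLeft, range f)).Countable :=
    (D.countable_toSet.union (K.toLeft.countable_toSet.biUnion fun f _ => countable_range f)).image _
  obtain ⟨r, hr⟩ := (ne_univ_iff_exists_notMem _).1 (mt (· ▸ k) not_countable_univ :
    Prod.fst '' ((D : Set Ω) ∪ ⋃ f ∈ K.toLeft, range f) ≠ univ)
  refine ⟨(r, F, F.filter (· ∈ u)), rfl, fun m => hr ⟨_, .inl m, rfl⟩, ?_⟩
  rintro (f | v) m e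
  · exact hr ⟨_, .inr (mem_biUnion (Finset.mem_toLeft.2 m) e), rfl⟩
  · have := Finset.ext_iff.1 e (z v)
    simp only [Finset.mem_filter, show z v ∈ F from Finset.mem_image_of_mem z
      (Finset.mem_toRight.2 m), true_and] at this
    exact hz v m this

end H5B
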