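import Pool.Agent.Lib.helper5.Use

/-! On a sparse set `Y`, every Turing functional acts as a selector of elements of the oracle. -/

namespace Pool.Agent.H5F

open Set Filter

theorem fusion_mod {ι : Type} [Countable ι] (Q : ι → Set ℕ → Prop)
    (mono : ∀ i X X', Q i X → X' ⊆ X → Q i X')
    (dense : ∀ i X, X.Infinite → ∃ X' ⊆ X, X'.Infinite ∧ Q i X') (X : Set ℕ) (hX : X.Infinite) :
    ∃ Y ⊆ X, Y.Infinite ∧ ∀ i, ∀ᶠ n in atTop, Q i (Y ∩ Ioi n) := by
  obtain ⟨enc, henc⟩ := Countable.exists_injective_nat ι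
  obtain ⟨Y, h1, h2, h3⟩ := fusion0 (fun t Z => ∀ i, enc i < t.card → Q i Z)
    (fun t X X' h h' i hi => mono i _ _ (h i hi) h')
    (fun t Z hZ => by
      generalize t.card = n
      induction n with
      | zero => exact ⟨Z, subset_rfl, hZ, by simp⟩
      | succ n ih =>
        obtain ⟨W, w1, w2, w3⟩ := ih
        by_cases h : ∃ i, enc i = n
        · obtain ⟨i, hi⟩ := h
          obtain ⟨V, v1, v2, v3⟩ := dense i W w2
          refine ⟨V, v1.trans w1, v2, fun j hj => ?_⟩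
          rcases Nat.lt_succ_iff_lt_or_eq.1 hj with hj | hj
          · exact mono _ _ _ (w3 j hj) v1
          · rwa [henc (hj.trans hi.symm)]
        · exact ⟨W, w1, w2, fun j hj => w3 j (lt_of_le_of_ne (Nat.lt_succ_iff.1 hj)
            fun e => h ⟨j, e⟩)⟩) X hX
  refine ⟨Y, h1, h2, fun i => ?_⟩
  obtain ⟨t, t1, t2⟩ := h2.exists_subset_card_eq (enc i + 1)
  filter_upwards [eventually_ge_atTop (t.sup id)] with n hn
  exact mono _ _ _ (h3 t t1 i (by omega)) fun y hy => ⟨hy.1, fun x hx =>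
    lt_of_le_of_lt ((Finset.le_sup (f := id) hx).trans hn) hy.2⟩

/-- the next element of the oracle is selected -/
def Sel (Y : Set ℕ) (π : ℕ → ℕ) (e : ℕ) (t : Finset ℕ) : Prop :=
  ∀ y ∈ ab Y t, ∀ H ∈ El (insert y t) (Y ∩ Ioi y), ∃ v ∈ G e H, π v = y

/-- nothing is selected up to the next element of the oracle -/
def Non (Y : Set ℕ) (π : ℕ → ℕ) (e : ℕ) (t : Finset ℕ) : Prop :=
  ∀ y ∈ ab Y t, ∀ H ∈ El (insert y t) (Y ∩ Ioi y), ∀ v ∈ G e H, (∃ x ∈ t, π v ≤ x) ∨ y < π v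

theorem selector : ∃ (Y : Set ℕ) (π : ℕ → ℕ), Y.Infinite ∧ (∀ n, {v | π v ≤ n}.Finite) ∧
    ∀ e (t : Finset ℕ), ↑t ⊆ Y → e < t.card → Sel Y π e t ∨ Non Y π e t := by
  classical
  obtain ⟨Y1, -, i1, h1⟩ := fusion_mod (fun (d : Finset ℕ × ℕ × ℕ) Z =>
      (∀ H ∈ El d.1 Z, d.2.2 ∈ G d.2.1 H) ∨ ∀ H ∈ El d.1 Z, d.2.2 ∉ G d.2.1 H)
    (fun d X X' h h' => h.imp (fun h H hH => h H (El_mono _ h' hH))
      fun h H hH => h H (El_mono _ h' hH))
    (fun d X hX => galvin (fun H => d.2.2 ∈ G d.2.1 H) (fun _ h => G_near h) d.1 X hX)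
    univ infinite_univ
  let Γ : ℕ → Finset ℕ → Set ℕ := fun e s =>
    {v | ∀ᶠ n in atTop, ∀ H ∈ El s (Y1 ∩ Ioi n), v ∈ G e H}
  obtain ⟨Y2, s2, i2, h2⟩ := fusion_mod (fun (d : Finset ℕ × ℕ) Z =>
      (∃ B, ∀ y ∈ Z, Γ d.2 (insert y d.1) ⊆ Iic B) ∨
        ∀ B, {y | y ∈ Z ∧ Γ d.2 (insert y d.1) ⊆ Iic B}.Finite)
    (fun d X X' h h' => h.imp (fun ⟨B, h⟩ => ⟨B, fun y hy => h y (h' hy)⟩)
      fun h B => (h B).subset fun y hy => ⟨h' hy.1, hy.2⟩)
    (fun d X hX => by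
      by_cases h : ∀ B, {y | y ∈ X ∧ Γ d.2 (insert y d.1) ⊆ Iic B}.Finite
      · exact ⟨X, subset_rfl, hX, Or.inr h⟩
      · obtain ⟨B, hB⟩ := not_forall.1 h
        exact ⟨_, fun y hy => hy.1, hB, Or.inl ⟨B, fun y hy => hy.2⟩⟩) Y1 i1
  let δ : ℕ → Finset ℕ → Prop := fun e t =>
    ∀ᶠ N in atTop, ∀ y ∈ Y2, N < y → Γ e (insert y t) ⊆ Iic N
  let W : Finset ℕ × ℕ × ℕ → ℕ → Prop := fun d N =>
    (∀ H ∈ El d.1 (Y1 ∩ Ioi N), d.2.2 ∈ G d.2.1 H ↔ d.2.2 ∈ Γ d.2.1 d.1) ∧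
    (δ d.2.1 d.1 → ∀ y ∈ Y2, N < y → Γ d.2.1 (insert y d.1) ⊆ Iic N) ∧
    (¬ δ d.2.1 d.1 → ∀ y ∈ Y2, N < y → ¬ Γ d.2.1 (insert y d.1) ⊆ Iic d.2.2) ∧
    (¬ Γ d.2.1 d.1 ⊆ Iic d.2.2 → ∃ v ∈ Γ d.2.1 d.1, d.2.2 < v ∧ v ≤ N)
  have hW : ∀ d, ∀ᶠ N in atTop, W d N := by
    rintro ⟨t, e, B⟩
    refine Eventually.and ?_ (Eventually.and ?_ (Eventually.and ?_ ?_))
    · by_cases h : B ∈ Γ e t
      · exact Eventually.mono h fun N hN H hH => iff_of_true (hN H hH) h
      · obtain ⟨n, hn⟩ := (h1 (t, e, B)).exists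
        rcases hn with hn | hn
        · refine (h ?_).elim
          filter_upwards [eventually_ge_atTop n] with N hN H hH
          exact hn H (El_mono _ (inter_subset_inter_right _ (Ioi_subset_Ioi hN)) hH)
        · filter_upwards [eventually_ge_atTop n] with N hN H hH
          exact iff_of_false
            (hn H (El_mono _ (inter_subset_inter_right _ (Ioi_subset_Ioi hN)) hH)) h
    · by_cases h : δ e t
      · exact Eventually.mono h fun N hN _ => hN
      · exact Eventually.of_forall fun _ h' => absurd h' h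
    · by_cases h : δ e t
      · exact Eventually.of_forall fun _ h' => absurd h h'
      obtain ⟨n, ⟨C, hn⟩ | hn⟩ := (h2 (t, e)).exists
      · refine (h ?_).elim
        filter_upwards [eventually_ge_atTop n, eventually_ge_atTop C] with N a b y hy hy'
        exact (hn y ⟨hy, lt_of_le_of_lt a hy'⟩).trans (Iic_subset_Iic.2 b)
      · obtain ⟨C, hC⟩ := (hn B).bddAbove
        filter_upwards [eventually_ge_atTop n, eventually_ge_atTop C] with N a b _ y hy hy' hh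
        have := hC ⟨⟨hy, lt_of_le_of_lt a hy'⟩, hh⟩
        omega
    · by_cases h : Γ e t ⊆ Iic B
      · exact Eventually.of_forall fun _ h' => absurd h h'
      · obtain ⟨v, v1, v2⟩ := not_subset.1 h
        filter_upwards [eventually_ge_atTop v] with N a _
        exact ⟨v, v1, not_le.1 v2, a⟩
  have hK : ∀ n, ∃ N, n < N ∧ ∀ d ∈ (Finset.range (n + 1)).powerset ×ˢ
      Finset.range (n + 1) ×ˢ Finset.range (n + 1), W d N := fun n =>
    ((eventually_gt_atTop n).and ((eventually_all_finset _).2 fun d _ => hW d)).exists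
  choose K K1 K2 using hK
  have K3 : ∀ n (t : Finset ℕ) e B, (∀ x ∈ t, x ≤ n) → e ≤ n → B ≤ n → W (t, e, B) (K n) :=
    fun n t e B a b c => K2 n _ (by
      simp only [Finset.mem_product, Finset.mem_powerset, Finset.mem_range]
      exact ⟨fun x hx => Finset.mem_range.2 (Nat.lt_succ_of_le (a x hx)), by omega, by omega⟩)
  obtain ⟨Y, s3, i3, h3⟩ := fusion0 (fun t Z => ∀ x ∈ t, ∀ z ∈ Z, K (K x) < z)
    (fun t X X' h h' x hx z hz => h x hx z (h' hz))
    (fun t X hX => ⟨_, inter_subset_left, inf_Ioi hX (t.sup fun x => K (K x)),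
      fun x hx z hz => lt_of_le_of_lt (Finset.le_sup (f := fun x => K (K x)) hx) hz.2⟩) Y2 i2
  have sp : ∀ x ∈ Y, ∀ z ∈ Y, x < z → K (K x) < z := fun x hx z hz h =>
    h3 {x} (by simpa using hx) x (by simp) z ⟨hz, by simpa using h⟩
  have km : ∀ x ∈ Y, ∀ z ∈ Y, x ≤ z → K x ≤ K z := fun x hx z hz h => by
    rcases h.eq_or_lt with rfl | h
    · rfl
    · have := sp x hx z hz h
      have := K1 (K x)
      have := K1 z
      omega
  let π : ℕ → ℕ := fun v => sInf {y | y ∈ Y ∧ v ≤ K y}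
  have p1 : ∀ v, π v ∈ Y ∧ v ≤ K (π v) := fun v => by
    obtain ⟨y, a, b⟩ := i3.exists_gt v
    exact Nat.sInf_mem (s := {y | y ∈ Y ∧ v ≤ K y}) ⟨y, a, (b.trans (K1 y)).le⟩
  have p2 : ∀ v, ∀ y ∈ Y, v ≤ K y → π v ≤ y := fun v y a b => Nat.sInf_le ⟨a, b⟩
  refine ⟨Y, π, i3, fun n => (finite_Iic ((Finset.range (n + 1)).sup K)).subset fun v hv =>
    (p1 v).2.trans (Finset.le_sup (Finset.mem_range.2 (Nat.lt_succ_of_le hv))),
    fun e t ht he => ?_⟩
  have hne : t.Nonempty := Finset.card_pos.1 (by omega)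
  obtain ⟨x, x1, x2⟩ := t.exists_max_image id hne
  have ex : e ≤ x := by
    have := Finset.card_le_card (s := t) (t := Finset.range (x + 1))
      fun z hz => Finset.mem_range.2 (Nat.lt_succ_of_le (x2 z hz))
    simp at this; omega
  have dec : ∀ y ∈ ab Y t, ∀ H ∈ El (insert y t) (Y ∩ Ioi y), ∀ v ≤ K y,
      v ∈ G e H ↔ v ∈ Γ e (insert y t) := fun y hy H hH v hv => by
    have a := K1 y
    have b := hy.2 x x1
    refine (K3 (K y) (insert y t) e v (fun z hz => ?_) (by omega) hv).1 H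
      (El_mono (Y := Y1 ∩ Ioi (K (K y))) _
        (fun z hz => ⟨s2 (s3 hz.1), sp y hy.1 z hz.1 hz.2⟩) hH)
    rcases Finset.mem_insert.1 hz with rfl | hz
    · omega
    · have := hy.2 z hz; omega
  by_cases hd : δ e t
  · refine Or.inr fun y hy H hH v hv => ?_
    by_contra hh
    push Not at hh
    have a := (dec y hy H hH v ((p1 v).2.trans (km _ (p1 v).1 _ hy.1 hh.2))).1 hv
    have b := sp x (ht x1) y hy.1 (hy.2 x x1)
    have c := K1 (K x)
    have d := (K3 x t e 0 x2 ex (by omega)).2.1 hd y (s3 hy.1) (by omega) a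
    exact absurd (p2 v x (ht x1) d) (not_le.2 (hh.1 x x1))
  · refine Or.inl fun y hy H hH => ?_
    obtain ⟨p, q1, q2⟩ := ((Finset.range y).filter (· ∈ Y)).exists_max_image id
      ⟨x, by simpa using ⟨hy.2 x x1, ht x1⟩⟩
    simp only [Finset.mem_filter, Finset.mem_range, id] at q1 q2
    have a := q2 x ⟨hy.2 x x1, ht x1⟩
    have b := K1 p
    have c := sp p q1.2 y hy.1 q1.1
    have d := K1 (K p)
    have g := (K3 (K p) t e (K p) (fun z hz => by have := x2 z hz; simp at this; omega)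
      (by omega) le_rfl).2.2.1 hd y (s3 hy.1) c
    obtain ⟨v, v1, v2, v3⟩ := (K3 y (insert y t) e (K p) (fun z hz => by
      rcases Finset.mem_insert.1 hz with rfl | hz
      · rfl
      · exact (hy.2 z hz).le) (by omega) (by omega)).2.2.2 g
    refine ⟨v, (dec y hy H hH v v3).2 v1, le_antisymm (p2 v y hy.1 v3) ?_⟩
    by_contra hh
    have := km _ (p1 v).1 p q1.2 (q2 _ ⟨not_le.1 hh, (p1 v).1⟩)
    have := (p1 v).2
    simp only at v2
    omega

lemma exists_G' {H : Set ℕ} {φ : ℕ → ℕ}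
    (h : TuringReducible (fun n => Part.some (φ n)) (chi H)) : ∃ e, G e H = {n | φ n = 1} := by
  obtain ⟨c, hc⟩ := exists_code (RecursiveIn.iff_nat.1 h)
  refine ⟨Encodable.encode c, Set.ext fun n => ?_⟩
  simp only [G, Denumerable.ofNat_encode, hc, Set.mem_ofPred_eq, Part.mem_some_iff]
  exact eq_comm

end Pool.Agent.H5F
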