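import Pool.Agent.Lib.helper5.CCompact
import Pool.Agent.Lib.helper5.Perf

/-! Sigma-pseudocompactness is not l-invariant. -/

open Set Filter Topology PiNat

namespace H5E

/-- pseudocompact -/
def Ps (Z : Type*) [TopologicalSpace Z] : Prop := ∀ f : C(Z, ℝ), ∃ M : ℝ, ∀ a, |f a| ≤ M

lemma Ps.range {Z Y : Type*} [TopologicalSpace Z] [TopologicalSpace Y] (h : Ps Z) {g : Z → Y}
    (hg : Continuous g) : Ps (range g) := fun f => by
  obtain ⟨M, hM⟩ := h (f.comp ⟨fun z => ⟨g z, z, rfl⟩, hg.subtype_mk _⟩)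
  exact ⟨M, fun ⟨_, z, rfl⟩ => hM z⟩

lemma Ps.unit : Ps Unit := fun f => ⟨_, fun _ => le_refl |f ()|⟩

lemma not_ps {F Q : Type} [TopologicalSpace F] [TopologicalSpace Q] [T35Space F] [T35Space Q]
    (R : Set (F ⊕ Q)) (x : ℕ → F) (hx : ∀ n, .inl (x n) ∈ R)
    (iso : ∀ n, ∃ U, IsOpen U ∧ x n ∈ U ∧ ∀ y ∈ U, .inl y ∈ R → y = x n)
    (lf : ∀ y, ∃ U ∈ 𝓝 y, {n | x n ∈ U}.Finite) : ¬ Ps R := by
  intro h
  let x' : ℕ → R := fun n => ⟨_, hx n⟩
  let g : ℕ → R → ℝ := fun n => indicator {x' n} fun _ => n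
  have g1 : ∀ n, Continuous (g n) := fun n => by
    refine IsClopen.continuous_indicator ⟨isClosed_singleton, ?_⟩ continuous_const
    obtain ⟨U, u1, u2, u3⟩ := iso n
    have : {x' n} = Subtype.val ⁻¹' (Sum.inl '' U) := by
      ext ⟨y, hy⟩
      refine ⟨fun h => h ▸ ⟨_, u2, rfl⟩, ?_⟩
      rintro ⟨y, h1, rfl⟩
      exact Subtype.ext (congrArg Sum.inl (u3 y h1 hy))
    rw [this]
    exact (isOpenMap_inl _ u1).preimage continuous_subtype_val
  have g2 : LocallyFinite fun n => Function.support (g n) := by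
    refine LocallyFinite.subset (f := fun n => {x' n}) ?_ fun n => support_indicator_subset
    rintro ⟨y | y, hy⟩
    · obtain ⟨U, u1, u2⟩ := lf y
      refine ⟨_, continuous_subtype_val.continuousAt.preimage_mem_nhds
        (isOpenMap_inl.image_mem_nhds u1), u2.subset ?_⟩
      rintro n ⟨_, rfl, y, h1, h2⟩
      rwa [(Sum.inl_injective h2 : y = x n)] at h1
    · refine ⟨_, continuous_subtype_val.continuousAt.preimage_mem_nhds
        (isOpen_range_inr.mem_nhds ⟨y, rfl⟩), finite_empty.subset ?_⟩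
      rintro n ⟨_, rfl, y, h⟩
      cases h
  obtain ⟨M, hM⟩ := h ⟨_, continuous_finsum g1 g2⟩
  obtain ⟨n, hn⟩ := exists_nat_gt M
  have := single_le_finsum n (f := fun k => g k (x' n)) (g2.point_finite (x' n)) fun k =>
    indicator_nonneg (fun _ _ => Nat.cast_nonneg k) _
  simp only [g, indicator_of_mem (mem_singleton _)] at this
  exact hn.not_ge (this.trans (le_abs_self _ |>.trans (hM (x' n))))

lemma exists_V : ∃ 𝒱 : Ultrafilter NN, ∀ A, Zr A → A ∉ 𝒱 := by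
  let G : Filter NN := ⟨{S | Zr Sᶜ}, (Zr.col 0).mono (by simp), fun h h' =>
    Zr.mono h (compl_subset_compl.2 h'), fun h h' => by
      rw [mem_ofPred_eq, compl_inter]; exact Zr.union h h'⟩
  have : NeBot G := ⟨fun h => by
    have : Zr (∅ : Set NN)ᶜ := (h ▸ mem_bot : ∅ ∈ G)
    simp only [Zr, w, compl_empty, indicator_univ] at this
    exact one_ne_zero (tendsto_nhds_unique (tendsto_const_nhds.congr fun k =>
      (z_const k 1).symm) this)⟩
  exact ⟨.of G, fun A hA => Ultrafilter.compl_mem_iff_notMem.1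
    (Ultrafilter.of_le G (show Zr Aᶜᶜ by rwa [compl_compl]))⟩

lemma Zr.of_sub {A : Set NN} (h : ∀ n i j, ⟨n, i⟩ ∈ A → ⟨n, j⟩ ∈ A → i = j) : Zr A := by
  refine squeeze_zero (fun n => w_nonneg n _) (fun n => ?_) tendsto_one_div_add_atTop_nhds_zero_nat
  by_cases hn : ∃ i, ⟨n, i⟩ ∈ A
  · obtain ⟨i, hi⟩ := hn
    refine le_trans (z_mono fun j => ?_) (w_single n ⟨n, i⟩)
    by_cases hj : (⟨n, j⟩ : NN) ∈ A
    · simp [hi, h n j i hj hi]
    · rw [indicator_of_notMem hj]; exact indicator_nonneg (fun _ _ => zero_le_one) _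
  · rw [w_zero fun m hm e => hn (by subst e; exact ⟨m.2, hm⟩)]; positivity

lemma res_inj {d d' : ℕ → Bool} {k l : ℕ} (h : res d k = res d' l) : k = l := by
  simpa using congrArg List.length h

lemma comb {𝒟 : Set (ℕ → Bool)} (h : 𝒟.Infinite) : ∃ (e : ℕ → ℕ → Bool) (s : ℕ → ℕ),
    (∀ n, e n ∈ 𝒟) ∧ ∀ d n m k l, s n < k → s m < l → res d k = res (e n) k →
      res d l = res (e m) l → n = m := by
  obtain ⟨c, -, hc⟩ := h.exists_accPt_of_subset_isCompact isCompact_univ (subset_univ _)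
  let V := {v | ∃ d ∈ 𝒟, d v ≠ c v ∧ ∀ j < v, d j = c j}
  have hV : V.Infinite := infinite_of_forall_exists_gt fun k => by
    obtain ⟨d, ⟨d1, d2⟩, d3⟩ := accPt_iff_nhds.1 hc _
      ((isOpen_cylinder _ c (k + 1)).mem_nhds (self_mem_cylinder c (k + 1)))
    have := Function.ne_iff.1 d3
    refine ⟨Nat.find this, ⟨d, d2, Nat.find_spec this, fun j hj => not_not.1 (Nat.find_min this hj)⟩,
      ?_⟩
    by_contra hk
    exact Nat.find_spec this (d1 _ (by omega))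
  choose e e1 e2 e3 using fun n => (hV.natEmbedding _ n).2
  refine ⟨e, fun n => hV.natEmbedding _ n, e1, fun d n m k l h1 h2 h3 h4 => ?_⟩
  rw [res_eq_res] at h3 h4
  refine (hV.natEmbedding _).injective (Subtype.ext (by_contra fun hne => ?_))
  rcases Nat.lt_or_gt_of_ne hne with h | h
  · exact e2 n ((h3 h1).symm.trans ((h4 (h.trans h2)).trans (e3 m _ h)))
  · exact e2 m ((h4 h2).symm.trans ((h3 (h.trans h1)).trans (e3 n _ h)))

lemma res_ne {d d' : ℕ → Bool} (h : d ≠ d') : ∀ᶠ k in atTop, res d k ∉ range (res d') := by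
  obtain ⟨j, hj⟩ := Function.ne_iff.1 h
  filter_upwards [eventually_gt_atTop j]
  rintro k hk ⟨l, hl⟩
  obtain rfl := res_inj hl
  exact hj (res_eq_res.1 hl hk).symm

/-- finite on each branch -/
def FinB (A : Set (List Bool)) : Prop := ∀ d : ℕ → Bool, ∀ᶠ k in atTop, res d k ∉ A

/-- at most one point on each branch -/
def Thin (A : Set (List Bool)) : Prop := ∀ (d : ℕ → Bool) k l, res d k ∈ A → res d l ∈ A → k = l

lemma Thin.finB {A : Set (List Bool)} (h : Thin A) : FinB A := fun d => by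
  rw [← Nat.cofinite_eq_atTop]
  exact Set.Subsingleton.finite fun k hk l hl => h d k l (not_not.1 hk) (not_not.1 hl)

lemma thin_single (t : List Bool) : Thin {t} := fun _ _ _ h h' => res_inj (h.trans h'.symm)

abbrev JJ := (List Bool × Bool) ⊕ ((ℕ → Bool) × Bool) ⊕
  {𝒰 : Ultrafilter (List Bool) // ∃ A ∈ 𝒰, FinB A}

open Classical in
noncomputable def FF : JJ → Filter (List Bool × Bool)
  | .inl n => pure n
  | .inr (.inl p) => map (fun k => (res p.1 k, p.2)) atTop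
  | .inr (.inr 𝒰) => map (·, true) 𝒰.1 ⊔ if ∃ B ∈ 𝒰.1, Thin B then ⊥ else map (·, false) 𝒰.1

instance (j : JJ) : NeBot (FF j) := by
  rcases j with n | p | 𝒰
  · exact pure_neBot
  · exact map_neBot
  · exact NeBot.mono map_neBot le_sup_left

lemma tp' (j : JJ) : Tendsto (fun n => pt FF (.inl n)) (FF j) (𝓝 (pt FF j)) :=
  tendsto_pt (𝓕 := FF) (η := .inl) (fun _ => rfl) j

def adm1 (A : Set (List Bool)) (h : ∀ d, (∀ᶠ k in atTop, res d k ∈ A) ∨ ∀ᶠ k in atTop, res d k ∉ A) :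
    Adm FF := ⟨Prod.fst ⁻¹' A, by
  rintro (n | p | 𝒰)
  · exact em _
  · exact h p.1
  · refine (𝒰.1.mem_or_compl_mem A).imp (fun h => ⟨h, ?_⟩) fun h => ⟨h, ?_⟩ <;>
      split_ifs <;> trivial⟩

def adm0 (A : Set (List Bool)) (h : ∀ d, (∀ᶠ k in atTop, res d k ∈ A) ∨ ∀ᶠ k in atTop, res d k ∉ A)
    (h' : ∀ 𝒰 : Ultrafilter (List Bool), (∃ A ∈ 𝒰, FinB A) → A ∈ 𝒰 → ∃ B ∈ 𝒰, Thin B) :
    Adm FF := ⟨A ×ˢ {false}, by
  rintro (n | ⟨d, _ | _⟩ | 𝒰)
  · exact em _
  · simpa [FF] using h d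
  · right; simp [FF]
  · refine Or.inr ⟨by simp, ?_⟩
    split_ifs with h1
    · trivial
    · exact mem_map.2 (mem_of_superset (Ultrafilter.compl_mem_iff_notMem.2 fun h2 =>
        h1 (h' _ 𝒰.2 h2)) fun x hx h => hx h.1)⟩

lemma mem_adm0 {A : Set (List Bool)} {h h'} {j : JJ} (hj : pt FF j ∈ cl FF (adm0 A h h')) :
    (∃ t ∈ A, j = .inl (t, false)) ∨ ∃ d, j = .inr (.inl (d, false)) ∧ ∀ᶠ k in atTop, res d k ∈ A := by
  rw [mem_cl] at hj
  rcases j with ⟨t, b⟩ | ⟨d, b⟩ | 𝒰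
  · obtain rfl : b = false := hj.2
    exact Or.inl ⟨t, hj.1, rfl⟩
  · replace hj : ∀ᶠ k in atTop, (res d k, b) ∈ A ×ˢ {false} := hj
    obtain ⟨k, hk⟩ := hj.exists
    obtain rfl : b = false := hk.2
    exact Or.inr ⟨d, rfl, hj.mono fun _ h => h.1⟩
  · replace hj : ∀ᶠ k in 𝒰.1, (k, true) ∈ A ×ˢ {false} := hj.1
    obtain ⟨k, hk⟩ := hj.exists
    cases hk.2

lemma br_dec {d : ℕ → Bool} {A : Set (List Bool)} (h1 : A ⊆ range (res d))
    (h2 : ∀ᶠ k in atTop, res d k ∈ A) (d' : ℕ → Bool) :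
    (∀ᶠ k in atTop, res d' k ∈ A) ∨ ∀ᶠ k in atTop, res d' k ∉ A := by
  by_cases h : d' = d
  · exact Or.inl (h ▸ h2)
  · exact Or.inr ((res_ne h).mono fun k hk h => hk (h1 h))

lemma br_eq {d d' : ℕ → Bool} {A : Set (List Bool)} (h1 : A ⊆ range (res d))
    (h2 : ∀ᶠ k in atTop, res d' k ∈ A) : d' = d := by
  by_contra h
  obtain ⟨k, k1, k2⟩ := ((res_ne h).and h2).exists
  exact k1 (h1 k2)

lemma br_thin {d : ℕ → Bool} {A : Set (List Bool)} (h1 : A ⊆ range (res d))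
    (𝒰 : Ultrafilter (List Bool)) (h : ∃ A ∈ 𝒰, FinB A) (h' : A ∈ 𝒰) : ∃ B ∈ 𝒰, Thin B := by
  obtain ⟨C, c1, c2⟩ := h
  have : {k | ¬ res d k ∉ C}.Finite := by
    have := c2 d; rwa [← Nat.cofinite_eq_atTop] at this
  obtain ⟨t, -, rfl⟩ := Ultrafilter.eq_pure_of_finite_mem ((this.image (res d)).subset (t := A ∩ C)
    fun x hx => by
      obtain ⟨k, rfl⟩ := h1 hx.1
      exact ⟨k, not_not.2 hx.2, rfl⟩) (inter_mem h' c1)
  exact ⟨{t}, rfl, thin_single t⟩

lemma W_tendsto (f : C(Sp FF, ℝ)) : Tendsto (fun d => f (pt FF (.inr (.inl (d, false)))) -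
    f (pt FF (.inr (.inl (d, true))))) cofinite (𝓝 0) := by
  rw [tendsto_zero_iff_abs_tendsto_zero, tendsto_order]
  refine ⟨fun a ha => .of_forall fun n => ha.trans_le (abs_nonneg _), fun ε hε => ?_⟩
  by_contra hc
  obtain ⟨e, s, e1, e2⟩ := comb hc
  let g : List Bool → ℝ := fun t => |f (pt FF (.inl (t, false))) - f (pt FF (.inl (t, true)))|
  have : ∀ n, ∃ L, ∀ k ≥ L, s n < k ∧ ε / 2 < g (res (e n) k) := fun n => by
    have t := fun b => (f.2.tendsto _).comp (tendsto_map'_iff.1 (tp' (.inr (.inl (e n, b)))))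
    exact eventually_atTop.1 ((eventually_gt_atTop _).and (((t false).sub (t true)).abs.eventually
      (lt_mem_nhds ((half_lt_self hε).trans_le (not_lt.1 (e1 n))))))
  choose L hL using this
  obtain ⟨𝒱, hV⟩ := exists_V
  let a : NN → List Bool := fun m => res (e m.1) (L m.1 + m.2)
  have h1 : ∃ A ∈ 𝒱.map a, FinB A := ⟨range a, range_mem_map, fun d => by
    by_contra hd
    obtain ⟨k, -, m, hm⟩ := frequently_atTop.1 (not_eventually.1 hd) 0 |>.imp fun k h =>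
      And.imp_right not_not.1 h
    obtain ⟨l, l1, m', hm'⟩ := frequently_atTop.1 (not_eventually.1 hd) (L m.1 + m.1 + 1) |>.imp
      fun k h => And.imp_right not_not.1 h
    obtain rfl := res_inj hm
    obtain rfl := res_inj hm'
    have := e2 d _ _ _ _ (hL _ _ (Nat.le_add_right _ _)).1 (hL _ _ (Nat.le_add_right _ _)).1
      hm.symm hm'.symm
    have h := m'.2.2
    rw [this] at l1
    omega⟩
  have h2 : ¬ ∃ B ∈ 𝒱.map a, Thin B := fun ⟨B, b1, b2⟩ =>
    hV _ (Zr.of_sub fun n i j hi hj => Fin.ext (Nat.add_left_cancel (b2 _ _ _ hi hj))) b1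
  have t : ∀ b, Tendsto (fun m => f (pt FF (.inl (a m, b)))) 𝒱 (𝓝 (f (pt FF (.inr (.inr ⟨_, h1⟩))))) :=
    fun b => (f.2.tendsto _).comp ((tp' _).comp (f := fun m => (a m, b)) (by
      simp only [FF, if_neg h2]
      cases b
      exacts [le_sup_right, le_sup_left]))
  have := ge_of_tendsto' ((t false).sub (t true)).abs fun m => (hL m.1 _ (Nat.le_add_right _ _)).2.le
  simp at this
  linarith

lemma C_cluster (t : ℕ → List Bool) : ∃ j : JJ, (∀ d, j ≠ .inr (.inl (d, false))) ∧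
    (∀ n, j ≠ .inl n) ∧ ∃ ℒ : Ultrafilter ℕ, ↑ℒ ≤ (atTop : Filter ℕ) ∧
      Tendsto (fun n => (t n, true)) ℒ (FF j) := by
  by_cases h : FinB (range t)
  · exact ⟨.inr (.inr ⟨(hyperfilter ℕ).map t, _, range_mem_map, h⟩), by simp, by simp,
      hyperfilter ℕ, Nat.hyperfilter_le_atTop, le_sup_left⟩
  · obtain ⟨d, hd⟩ := not_forall.1 h
    have : ∀ m, ∃ n ≥ m, ∃ k ≥ m, t n = res d k := fun m => by
      have : ∀ᶠ k in atTop, res d k ∉ t '' Iio m := by
        rw [← Nat.cofinite_eq_atTop]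
        exact (((finite_lt_nat m).image t).preimage fun _ _ _ _ => res_inj).subset
          fun _ => not_not.1
      obtain ⟨k, k1, k2, k3⟩ := ((not_eventually.1 hd).and_eventually
        (this.and (eventually_ge_atTop m))).exists
      obtain ⟨n, hn⟩ := not_not.1 k1
      exact ⟨n, not_lt.1 fun h => k2 ⟨n, h, hn⟩, k, k3, hn⟩
    choose n n1 k k1 e using this
    refine ⟨.inr (.inl (d, true)), by simp, by simp, (hyperfilter ℕ).map n,
      (tendsto_atTop_mono n1 tendsto_id).mono_left Nat.hyperfilter_le_atTop, ?_⟩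
    refine tendsto_map' ((tendsto_map.comp ((tendsto_atTop_mono k1 tendsto_id).mono_left
      Nat.hyperfilter_le_atTop)).congr fun m => ?_)
    simp [e]

lemma loc0 (y : Sp FF) : ∃ U ∈ 𝓝 y, {d | pt FF (.inr (.inl (d, false))) ∈ U}.Subsingleton := by
  have key : ∀ A, FinB A → ∀ j, Prod.fst ⁻¹' A ∈ FF j →
      ∃ U ∈ 𝓝 (pt FF j), {d | pt FF (.inr (.inl (d, false))) ∈ U}.Subsingleton := fun A hA j hj =>
    ⟨_, (isClopen_cl (adm1 A fun d => Or.inr (hA d))).2.mem_nhds (mem_cl.2 hj), fun d hd => by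
      obtain ⟨k, k1, k2⟩ := ((hA d).and (mem_cl.1 hd : ∀ᶠ k in atTop, res d k ∈ A)).exists
      exact (k1 k2).elim⟩
  obtain ⟨n | p | 𝒰, rfl⟩ := pt_surj y
  · exact key _ (thin_single n.1).finB _ rfl
  · have h : ∀ᶠ k in atTop, res p.1 k ∈ range (res p.1) := .of_forall fun k => ⟨k, rfl⟩
    exact ⟨_, (isClopen_cl (adm1 _ (br_dec subset_rfl h))).2.mem_nhds (mem_cl.2 h),
      fun d hd d' hd' => (br_eq subset_rfl (mem_cl.1 hd)).trans
        (br_eq subset_rfl (mem_cl.1 hd')).symm⟩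
  · obtain ⟨A, h1, h2⟩ := 𝒰.2
    refine key A h2 _ ⟨h1, ?_⟩
    split_ifs <;> trivial

lemma iso_thin {B : Set (List Bool)} (hB : Thin B) : ∃ U : Set (Sp FF), IsClopen U ∧
    (∀ t, pt FF (.inl (t, false)) ∈ U ↔ t ∈ B) ∧ ∀ y ∈ U, ∃ t ∈ B, y = pt FF (.inl (t, false)) := by
  refine ⟨_, isClopen_cl (adm0 B (fun d => Or.inr (hB.finB d)) fun 𝒰 _ h => ⟨B, h, hB⟩),
    fun t => mem_cl.trans (by simp [adm0, FF]), fun y hy => ?_⟩
  obtain ⟨j, rfl⟩ := pt_surj y
  obtain ⟨t, h1, rfl⟩ | ⟨d, -, h⟩ := mem_adm0 hy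
  · exact ⟨t, h1, rfl⟩
  · obtain ⟨k, k1, k2⟩ := ((hB.finB d).and h).exists
    exact (k1 k2).elim

lemma not_sig {Q : Type} [TopologicalSpace Q] [T35Space Q] (R : ℕ → Set (Sp FF ⊕ Q))
    (hR : ⋃ n, R n = univ) : ∃ n, ¬ Ps (R n) := by
  obtain ⟨n, hn⟩ : ∃ n, {d | Sum.inl (pt FF (.inr (.inl (d, false)))) ∈ R n}.Infinite := by
    by_contra hc
    push Not at hc
    have : Uncountable (ℕ → Bool) := Cardinal.aleph0_lt_mk_iff.1 (by
      simp [Cardinal.aleph0_lt_continuum])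
    refine not_countable_univ ((countable_iUnion fun n => (hc n).countable).mono fun d _ => ?_)
    obtain ⟨n, hn⟩ := mem_iUnion.1 (hR.ge (mem_univ (.inl (pt FF (.inr (.inl (d, false)))))))
    exact mem_iUnion.2 ⟨n, hn⟩
  refine ⟨n, ?_⟩
  let P : (ℕ → Bool) → Prop := fun d => ∀ᶠ k in atTop, Sum.inl (pt FF (.inl (res d k, false))) ∉ R n
  rw [← inter_union_sdiff {d | _ ∈ R n} {d | P d}, infinite_union] at hn
  rcases hn with hn | hn
  · let e := hn.natEmbedding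
    refine not_ps _ (fun k => pt FF (.inr (.inl (e k, false)))) (fun k => (e k).2.1) (fun k => ?_)
      fun y => ?_
    · let A := range (res (e k).1) ∩ {t | Sum.inl (pt FF (.inl (t, false))) ∉ R n}
      have h : ∀ᶠ l in atTop, res (e k).1 l ∈ A := (e k).2.2.mono fun l hl => ⟨⟨l, rfl⟩, hl⟩
      refine ⟨_, (isClopen_cl (adm0 A (br_dec inter_subset_left h)
        (br_thin inter_subset_left))).2, mem_cl.2 (h.mono fun l hl => ⟨hl, rfl⟩), fun y hy h' => ?_⟩
      obtain ⟨j, rfl⟩ := pt_surj y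
      obtain ⟨t, h1, rfl⟩ | ⟨d, rfl, h⟩ := mem_adm0 hy
      · exact (h1.2 h').elim
      · rw [br_eq inter_subset_left h]
    · obtain ⟨U, u1, u2⟩ := loc0 y
      exact ⟨U, u1, Set.Subsingleton.finite fun a ha b hb => e.injective (Subtype.ext (u2 ha hb))⟩
  · obtain ⟨e, s, e1, e2⟩ := comb hn
    choose k k1 k2 using fun m => frequently_atTop.1 (not_eventually.1 (e1 m).2) (s m + 1)
    let b : ℕ → List Bool := fun m => res (e m) (k m)
    have hb : ∀ d l m l' m', res d l = b m → res d l' = b m' → m = m' := fun d l m l' m' h h' => by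
      obtain rfl := res_inj h
      obtain rfl := res_inj h'
      exact e2 d _ _ _ _ (k1 m) (k1 m') h h'
    have th : Thin (range b) := by
      rintro d l l' ⟨m, h⟩ ⟨m', h'⟩
      obtain rfl := hb d l m l' m' h.symm h'.symm
      exact res_inj (h.symm.trans h')
    refine not_ps _ (fun m => pt FF (.inl (b m, false))) (fun m => not_not.1 (k2 m)) (fun m => ?_)
      fun y => ?_
    · obtain ⟨U, u1, u2, u3⟩ := iso_thin (thin_single (b m))
      refine ⟨U, u1.2, (u2 _).2 rfl, fun y hy _ => ?_⟩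
      obtain ⟨_, rfl, h⟩ := u3 y hy
      exact h
    · obtain ⟨U, u1, u2, u3⟩ := iso_thin th
      by_cases hy : y ∈ U
      · obtain ⟨_, ⟨m, rfl⟩, rfl⟩ := u3 y hy
        obtain ⟨V, v1, v2, -⟩ := iso_thin (thin_single (b m))
        exact ⟨V, v1.2.mem_nhds ((v2 _).2 rfl), (finite_singleton m).subset fun l hl =>
          hb (e l) _ _ _ _ rfl ((v2 _).1 hl)⟩
      · exact ⟨_, u1.compl.2.mem_nhds hy, finite_empty.subset fun l hl => hl ((u2 _).2 ⟨l, rfl⟩)⟩

theorem sigps : ∃ (X Y : Type) (_ : TopologicalSpace X) (_ : TopologicalSpace Y)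
    (_ : T35Space X) (_ : T35Space Y), LEq X Y ∧
      (∃ S : ℕ → Set Y, ⋃ n, S n = univ ∧ ∀ n, Ps (S n)) ∧
      ¬ ∃ S : ℕ → Set X, ⋃ n, S n = univ ∧ ∀ n, Ps (S n) := by
  let W : Set (C(Sp FF, ℝ) → ℝ) := insert 0 (range fun d =>
    δ (pt FF (.inr (.inl (d, false)))) - δ (pt FF (.inr (.inl (d, true)))))
  have hW : CompactSpace W := isCompact_iff_compactSpace.1
    (Tendsto.isCompact_insert_range_of_cofinite (tendsto_pi_nhds.2 W_tendsto))
  let C : Set (Sp FF) := pt FF '' {j | (∀ d, j ≠ .inr (.inl (d, false))) ∧ ∀ t, j ≠ .inl (t, false)}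
  let ι : List Bool → C := fun t => ⟨_, .inl (t, true), by simp, rfl⟩
  have tι : ∀ {κ : Type} {l : Filter κ} {t : κ → List Bool} (j : JJ) (h : pt FF j ∈ C),
      Tendsto (fun n => (t n, true)) l (FF j) → Tendsto (fun n => ι (t n)) l (𝓝 ⟨_, h⟩) :=
    fun j _ h => tendsto_subtype_rng.2 ((tp' j).comp h)
  have dn : DenseRange ι := by
    rintro ⟨_, ⟨t, _ | _⟩ | ⟨d, _ | _⟩ | 𝒰, h, rfl⟩
    · exact (h.2 _ rfl).elim
    · exact subset_closure ⟨t, rfl⟩
    · exact (h.1 _ rfl).elim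
    · exact mem_closure_of_tendsto (tι (t := res d) _ _ tendsto_map) (.of_forall fun _ => ⟨_, rfl⟩)
    · exact mem_closure_of_tendsto (tι (l := 𝒰.1) (t := id) _ _ le_sup_left)
        (.of_forall fun _ => ⟨_, rfl⟩)
  have hP : Ps (W × C) := fun f => by
    by_contra hc
    push Not at hc
    have : ∀ n : ℕ, ∃ w t, (n : ℝ) < |f (w, ι t)| := fun n => by
      obtain ⟨a, ha⟩ := hc n
      obtain ⟨t, ht⟩ := dn.exists_mem_open (isOpen_lt continuous_const
        (show Continuous fun c => |f (a.1, c)| by fun_prop)) ⟨a.2, ha⟩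
      exact ⟨_, t, ht⟩
    choose w t h using this
    obtain ⟨j, j1, j2, ℒ, l1, l2⟩ := C_cluster t
    obtain ⟨v, -, hv⟩ := isCompact_univ.ultrafilter_le_nhds (ℒ.map w) (by simp)
    have t1 := ((f.2.tendsto _).comp (Tendsto.prodMk_nhds hv
      (tι j ⟨j, ⟨j1, fun _ => j2 _⟩, rfl⟩ l2))).abs
    exact not_tendsto_atTop_of_tendsto_nhds t1 (tendsto_atTop_mono (fun n => (h n).le)
      (tendsto_natCast_atTop_atTop.mono_left l1))
  let S : Set (C(Sp FF, ℝ) → ℝ) := range (fun p : W × C => p.1.1 + δ p.2.1) ∪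
    range fun t => δ (pt FF (.inl (t, false)))
  have hS : ∀ y, δ y ∈ S := fun y => by
    by_cases h : y ∈ C
    · exact Or.inl ⟨(⟨0, Or.inl rfl⟩, ⟨y, h⟩), zero_add _⟩
    · obtain ⟨j, rfl⟩ := pt_surj y
      have : ¬ _ := fun h' => h ⟨j, h', rfl⟩
      simp only [mem_ofPred_eq, not_and_or, not_forall, not_not] at this
      obtain ⟨d, rfl⟩ | ⟨t, rfl⟩ := this
      · exact Or.inl ⟨(⟨_, Or.inr ⟨d, rfl⟩⟩, ⟨_, .inr (.inl (d, true)), by simp, rfl⟩),
          sub_add_cancel _ _⟩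
      · exact Or.inr ⟨t, rfl⟩
  refine ⟨_, _, inferInstance, inferInstance, inferInstance, inferInstance,
    (machine_L S hS ?_ (pt FF (.inl default))).symm, ?_, fun ⟨R, h1, h2⟩ => ?_⟩
  · rintro _ (⟨⟨⟨_, rfl | ⟨d, rfl⟩⟩, c⟩, rfl⟩ | ⟨t, rfl⟩)
    exacts [Lin.zero.add (.δ _), ((Lin.δ _).sub (.δ _)).add (.δ _), .δ _]
  · obtain ⟨e, he⟩ := exists_surjective_nat (Option (Option (List Bool)))
    let T : Option (Option (List Bool)) → Set (S ⊕ PUnit.{1}) := fun o => o.elim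
      (range fun p : W × C => .inl ⟨p.1.1 + δ p.2.1, Or.inl ⟨p, rfl⟩⟩) fun o => o.elim
        (range fun _ : Unit => .inr ⟨⟩) fun t => range fun _ : Unit => .inl ⟨_, Or.inr ⟨t, rfl⟩⟩
    refine ⟨fun n => T (e n), ?_, fun n => ?_⟩
    · rw [he.iUnion_comp, eq_univ_iff_forall]
      rintro (⟨_, ⟨p, rfl⟩ | ⟨t, rfl⟩⟩ | x)
      exacts [mem_iUnion.2 ⟨none, p, rfl⟩, mem_iUnion.2 ⟨some (some t), (), rfl⟩,
        mem_iUnion.2 ⟨some none, (), rfl⟩]
    · beta_reduce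
      rcases e n with _ | _ | t
      · exact hP.range (continuous_inl.comp (Continuous.subtype_mk
          ((continuous_subtype_val.comp continuous_fst).add
            (cont_δ.comp (continuous_subtype_val.comp continuous_snd))) _))
      · exact Ps.unit.range continuous_const
      · exact Ps.unit.range continuous_const
  · obtain ⟨n, hn⟩ := not_sig R h1
    exact hn (h2 n)

end H5E
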