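import Pool.Agent.Lib.helper5.Frames

/-! Strong omniscient non-reducibilities between Ramsey problems. -/

namespace Pool.Agent.H5F

open Set

lemma chi_eq (H : Set ℕ) :
    chi H = fun m : ℕ => Part.some (Set.indicator H (fun _ => (1 : ℕ)) m) := by
  funext m
  show Part.some _ = _
  by_cases h : m ∈ H <;> simp [h]

lemma exists_G_ind {H K : Set ℕ}
    (h : TuringReducible (fun m : ℕ => Part.some (Set.indicator K (fun _ => (1 : ℕ)) m))
      (fun m : ℕ => Part.some (Set.indicator H (fun _ => (1 : ℕ)) m))) : ∃ e, G e H = K := by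
  rw [← chi_eq H] at h
  obtain ⟨e, he⟩ := exists_G' h
  refine ⟨e, he.trans (Set.ext fun n => ?_)⟩
  by_cases h : n ∈ K <;> simp [h]

lemma img {A : Set ℕ} {y v π : ℕ → ℕ} {K : Set ℕ} (sm : StrictMono y)
    (h : ∀ i ∈ A, v i ∈ K ∧ π (v i) = y i) {I : Finset ℕ} (hI : ↑I ⊆ A) :
    ↑(I.image v) ⊆ K ∧ (I.image v).card = I.card ∧ (I.image v).image π = I.image y := by
  refine ⟨fun x hx => ?_, Finset.card_image_of_injOn fun a ha b hb e => sm.injective ?_, ?_⟩
  · obtain ⟨i, hi, rfl⟩ := Finset.mem_image.1 hx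
    exact (h i (hI hi)).1
  · rw [← (h a (hI ha)).2, ← (h b (hI hb)).2, e]
  · rw [Finset.image_image]
    exact Finset.image_congr fun i hi => (h i (hI hi)).2

theorem soc1 (k r : ℕ) : ∃ f : Finset ℕ → Fin (k + 1), ∀ g : Finset ℕ → Fin k,
    ∃ H : Set ℕ, H.Infinite ∧ (∃ j, ∀ s : Finset ℕ, ↑s ⊆ H → s.card = r + 1 → g s = j) ∧
      ∀ e, (G e H).Infinite →
        ¬ ∃ j, ∀ s : Finset ℕ, ↑s ⊆ G e H → s.card = r + 1 → f s = j := by
  obtain ⟨f, π, h⟩ := soc_main k r
  refine ⟨fun s => f (s.image π), fun g => ?_⟩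
  obtain ⟨H, h1, h2, h3⟩ := h g
  refine ⟨H, h1, h2, fun e he ⟨j, hj⟩ => ?_⟩
  obtain ⟨A, y, v, c, a1, a2, a3, ⟨i, b1, i', b2, b3, b4⟩, a5⟩ := h3 e he
  have : ∀ i ∈ A, c i = j := fun i hi => by
    obtain ⟨J, j1, j2⟩ := (inf_Ioi a1 i).exists_subset_card_eq r
    have hc : (insert i J).card = r + 1 := by
      rw [Finset.card_insert_of_notMem fun h => lt_irrefl i (j1 h).2, j2]
    obtain ⟨k1, k2, k3⟩ := img a2 a3 (I := insert i J)
      (by rw [Finset.coe_insert]; exact insert_subset hi fun x hx => (j1 hx).1)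
    have := hj _ k1 (k2.trans hc)
    simp only [k3] at this
    rw [← this, a5 _ i (by simp) (fun x hx => ?_) hc]
    rcases Finset.mem_insert.1 hx with rfl | hx
    · rfl
    · exact (j1 hx).2.le
  exact b4 ((this i b1).trans (this i' b2).symm)

theorem soc2 (k r : ℕ) : ∃ f : Finset ℕ → Bool, ∀ g : Finset ℕ → Fin k,
    ∃ H : Set ℕ, H.Infinite ∧ (∃ j, ∀ s : Finset ℕ, ↑s ⊆ H → s.card = r + 1 → g s = j) ∧
      ∀ e, (G e H).Infinite →
        ¬ ∃ j, ∀ s : Finset ℕ, ↑s ⊆ G e H → s.card = r + 2 → f s = j := by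
  classical
  obtain ⟨f, π, h⟩ := soc_main k r
  let F : Finset ℕ → Bool := fun s => decide (∃ a ∈ s, ∃ b ∈ s, a < b ∧
    (∀ x ∈ s, x ≠ a → b ≤ x) ∧ f (s.erase a) = f (s.erase b))
  refine ⟨fun s => F (s.image π), fun g => ?_⟩
  obtain ⟨H, h1, h2, h3⟩ := h g
  refine ⟨H, h1, h2, fun e he ⟨j, hj⟩ => ?_⟩
  obtain ⟨A, y, v, c, a1, a2, a3, ⟨i, b1, i', b2, b3, b4⟩, a5⟩ := h3 e he
  have key : ∀ i ∈ A, ∀ i' ∈ A, i < i' → (j = true ↔ c i' = c i) := fun i hi i' hi' hlt => by
    obtain ⟨J, j1, j2⟩ := (inf_Ioi a1 i').exists_subset_card_eq r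
    have n1 : i' ∉ J := fun h => lt_irrefl i' (j1 h).2
    have n2 : i ∉ J := fun h => lt_asymm hlt (j1 h).2
    have n3 : i ∉ insert i' J := by simp [n2, hlt.ne]
    have hc : (insert i (insert i' J)).card = r + 2 := by
      rw [Finset.card_insert_of_notMem n3, Finset.card_insert_of_notMem n1, j2]
    obtain ⟨k1, k2, k3⟩ := img a2 a3 (I := insert i (insert i' J)) (by
      rw [Finset.coe_insert, Finset.coe_insert]
      exact insert_subset hi (insert_subset hi' fun x hx => (j1 hx).1))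
    have e0 := hj _ k1 (k2.trans hc)
    simp only [k3] at e0
    have e1 : f (((insert i (insert i' J)).image y).erase (y i)) = c i' := by
      rw [← Finset.image_erase a2.injective, Finset.erase_insert n3]
      refine a5 _ i' (by simp) (fun x hx => ?_) (by rw [Finset.card_insert_of_notMem n1, j2])
      rcases Finset.mem_insert.1 hx with rfl | hx
      · rfl
      · exact (j1 hx).2.le
    have e2 : f (((insert i (insert i' J)).image y).erase (y i')) = c i := by
      rw [← Finset.image_erase a2.injective, Finset.insert_comm,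
        Finset.erase_insert (by simp [n1, hlt.ne'])]
      refine a5 _ i (by simp) (fun x hx => ?_) (by rw [Finset.card_insert_of_notMem n2, j2])
      rcases Finset.mem_insert.1 hx with rfl | hx
      · rfl
      · exact (hlt.trans (j1 hx).2).le
    have m1 : ∀ x ∈ insert i (insert i' J), x ≠ i → i' ≤ x := fun x hx hne => by
      rcases Finset.mem_insert.1 ((Finset.mem_insert.1 hx).resolve_left hne) with rfl | hx
      · rfl
      · exact (j1 hx).2.le
    rw [← e0, ← e1, ← e2]
    simp only [F, decide_eq_true_eq]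
    constructor
    · rintro ⟨a, ha, b, hb, c1, c2, c3⟩
      obtain ⟨a, ha', rfl⟩ := Finset.mem_image.1 ha
      obtain ⟨b, hb', rfl⟩ := Finset.mem_image.1 hb
      have d1 := a2.lt_iff_lt.1 c1
      have d2 : a = i := by
        by_contra hne
        have := a2.le_iff_le.1 (c2 (y i) (Finset.mem_image_of_mem _ (by simp))
          (a2.injective.ne (Ne.symm hne)))
        have := m1 a ha' hne
        omega
      subst d2
      have d3 := a2.le_iff_le.1 (c2 (y i') (Finset.mem_image_of_mem _ (by simp))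
        (a2.injective.ne hlt.ne'))
      obtain rfl : b = i' := le_antisymm d3 (m1 b hb' d1.ne')
      exact c3
    · refine fun h => ⟨y i, Finset.mem_image_of_mem _ (by simp), y i',
        Finset.mem_image_of_mem _ (by simp), a2 hlt, fun x hx hne => ?_, h⟩
      obtain ⟨x, hx', rfl⟩ := Finset.mem_image.1 hx
      exact a2.monotone (m1 x hx' fun e => hne (e ▸ rfl))
  obtain ⟨p, p1, q, q1, h4, h5⟩ := a1.exists_lt_map_eq_of_mapsTo (f := c) (t := univ)
    (mapsTo_univ _ _) finite_univ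
  exact b4 ((key i b1 i' b2 b3).1 ((key p p1 q q1 h4).2 h5.symm)).symm

end Pool.Agent.H5F
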