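import Pool.Agent.Lib.helper5.Face

/-! Countably valued retractions of scattered compacta. -/

open Set Topology Filter

namespace H5SS

variable {K : Type} [TopologicalSpace K]

def Scat (K : Type) [TopologicalSpace K] : Prop :=
  ∀ S : Set K, S.Nonempty → ∃ x ∈ S, ∃ U : Set K, IsOpen U ∧ U ∩ S = {x}

lemma td [T1Space K] (h : Scat K) : TotallyDisconnectedSpace K := by
  refine ⟨fun S _ hS a ha b hb => by_contra fun hab => ?_⟩
  obtain ⟨x, hx, U, hU, e⟩ := h S ⟨a, ha⟩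
  have hx' : x ∈ U ∩ S := e ▸ rfl
  obtain ⟨z, z1, z2, z3⟩ := hS U {x}ᶜ hU isOpen_compl_singleton
    (fun y _ => (eq_or_ne y x).elim (fun e => Or.inl (e ▸ hx'.1)) Or.inr) ⟨x, hx, hx'.1⟩
    ((eq_or_ne a x).elim (fun e => ⟨b, hb, fun e' => hab (e.trans (Eq.symm e'))⟩)
      fun e => ⟨a, ha, e⟩)
  exact z3 (e.subset ⟨z2, z1⟩)

def V (α : Ordinal.{0}) : Set K :=
  {y | ∃ U ∈ 𝓝 y, ∀ z ∈ U, z ≠ y → ∃ β, ∃ _ : β < α, z ∈ V β}
termination_by α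

lemma all_V (h : Scat K) (y : K) : ∃ α, y ∈ V α := by
  by_contra hn
  obtain ⟨x, hx, U, hU, e⟩ := h {y | ¬ ∃ α, y ∈ V α} ⟨y, hn⟩
  have hx' : x ∈ U ∩ {y | ¬ ∃ α, y ∈ V α} := e ▸ rfl
  have : ∀ z, ∃ β, z ∈ U → z ≠ x → z ∈ V β := fun z => by
    by_cases hz : ∃ α, z ∈ V α
    · exact hz.imp fun _ h _ _ => h
    · exact ⟨0, fun h1 h2 => (h2 (e.subset ⟨h1, hz⟩)).elim⟩
  choose β hβ using this
  refine hx ⟨⨆ z, β z + 1, ?_⟩
  rw [V]
  exact ⟨U, hU.mem_nhds hx'.1, fun z h1 h2 => ⟨β z, Ordinal.lt_iSup_add_one β z, hβ z h1 h2⟩⟩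

variable [CompactSpace K] [T2Space K]

lemma clop (h : Scat K) {x : K} {U : Set K} (hU : U ∈ 𝓝 x) : ∃ W, IsClopen W ∧ x ∈ W ∧ W ⊆ U := by
  have := td h
  obtain ⟨W, h1, h2, h3⟩ := isTopologicalBasis_isClopen.mem_nhds_iff.1 hU
  exact ⟨W, h1, h2, h3⟩

lemma rank (h : Scat K) : ∃ (rk : K → Ordinal.{0}) (U : K → Set K), ∀ y, IsClopen (U y) ∧
    y ∈ U y ∧ ∀ z ∈ U y, z ≠ y → rk z < rk y := by
  have : ∀ y : K, ∃ U, IsClopen U ∧ y ∈ U ∧ ∀ z ∈ U, z ≠ y →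
      sInf {α | z ∈ V α} < sInf {α | y ∈ V α} := fun y => by
    have h1 : y ∈ V (sInf {α | y ∈ V α}) := csInf_mem (all_V h y)
    rw [V] at h1
    obtain ⟨U, u1, u2⟩ := h1
    obtain ⟨W, w1, w2, w3⟩ := clop h u1
    refine ⟨W, w1, w2, fun z hz hne => ?_⟩
    obtain ⟨β, b1, b2⟩ := u2 z (w3 hz) hne
    exact (csInf_le' (s := {α | z ∈ V α}) b2).trans_lt b1
  choose U hU using this
  exact ⟨_, U, hU⟩

theorem retr (h : Scat K) (𝒲 : (n : ℕ) → (Fin n → K) → Set (Set K))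
    (h1 : ∀ n y, (𝒲 n y).Countable) (h2 : ∀ n y, ∀ W ∈ 𝒲 n y, IsClopen W) :
    ∃ r : K → K, (range r).Countable ∧
      (∀ x, ∃ U : ℕ → Set K, (∀ n, IsOpen (U n)) ∧ x ∈ ⋂ n, U n ∧ ∀ z ∈ ⋂ n, U n, r z = r x) ∧
      ∀ n (x : Fin n → K) i, ∀ W ∈ 𝒲 n fun i => r (x i), r (x i) ∈ W → x i ∈ W := by
  classical
  obtain ⟨rk, U, hU⟩ := rank h
  have cov : ∀ C : Set K, ∃ T : Finset K, IsClosed C → ↑T ⊆ C ∧ C ⊆ ⋃ z ∈ T, U z := fun C => by
    by_cases hC : IsClosed C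
    · obtain ⟨T, t1, t2⟩ := hC.isCompact.elim_nhds_subcover U
        fun z _ => (hU z).1.isOpen.mem_nhds (hU z).2.1
      exact ⟨T, fun _ => ⟨t1, t2⟩⟩
    · exact ⟨∅, fun h => (hC h).elim⟩
  choose T hT using cov
  obtain ⟨S, hS, cl⟩ := H5C.hull (fun G : Finset K => (T univ : Set K) ∪ ⋃ y ∈ (G : Set K),
      ⋃ n, ⋃ τ ∈ {τ : Fin n → K | ∀ i, τ i ∈ (G : Set K)}, ⋃ W ∈ 𝒲 n τ, (T (U y \ W) : Set K))
    fun G => (T _).countable_toSet.union (G.countable_toSet.biUnion fun y _ =>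
      countable_iUnion fun n => (countable_pi fun _ => G.countable_toSet).biUnion fun τ _ =>
        (h1 n τ).biUnion fun W _ => (T _).countable_toSet)
  have ne : ∀ x, {y ∈ S | x ∈ U y}.Nonempty := fun x => by
    obtain ⟨z, hz, hx⟩ := mem_iUnion₂.1 ((hT univ isClosed_univ).2 (mem_univ x))
    exact ⟨z, cl ∅ (by simp) (Or.inl hz), hx⟩
  let r : K → K := fun x => Function.argminOn rk {y ∈ S | x ∈ U y} (ne x)
  have r1 : ∀ x, r x ∈ S ∧ x ∈ U (r x) := fun x => Function.argminOn_mem rk _ (ne x)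
  refine ⟨r, hS.mono (range_subset_iff.2 fun x => (r1 x).1), fun x => ?_, fun n x i W hW hr => ?_⟩
  · have : Nonempty K := ⟨x⟩
    obtain ⟨e, he⟩ := countable_iff_exists_subset_range.1 hS
    refine ⟨fun n => if x ∈ U (e n) then U (e n) else (U (e n))ᶜ, fun n => ?_,
      mem_iInter.2 fun n => by split_ifs <;> assumption, fun z hz => ?_⟩
    · beta_reduce
      split_ifs
      exacts [(hU _).1.isOpen, (hU _).1.compl.isOpen]
    · have : {y ∈ S | z ∈ U y} = {y ∈ S | x ∈ U y} := by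
        ext y
        refine and_congr_right fun hy => ?_
        obtain ⟨n, rfl⟩ := he hy
        have := mem_iInter.1 hz n
        split_ifs at this with h <;> simp_all
      simp only [r, this]
  · by_contra hn
    have hc := hT _ ((hU (r (x i))).1.diff (h2 _ _ W hW)).isClosed
    obtain ⟨z, hz, hx⟩ := mem_iUnion₂.1 (hc.2 ⟨(r1 _).2, hn⟩)
    have zS : z ∈ S := cl (Finset.univ.image fun i => r (x i)) (by
        intro y hy
        obtain ⟨j, -, rfl⟩ := Finset.mem_image.1 hy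
        exact (r1 _).1)
      (Or.inr (mem_iUnion₂.2 ⟨r (x i), by simp, mem_iUnion.2 ⟨n, mem_iUnion₂.2
        ⟨fun i => r (x i), fun j => by simp, mem_iUnion₂.2 ⟨W, hW, hz⟩⟩⟩⟩))
    exact Function.not_lt_argminOn rk {y ∈ S | x i ∈ U y} ⟨zS, hx⟩
      ((hU _).2.2 z (hc.1 hz).1 fun e => (hc.1 hz).2 (e ▸ hr))

lemma gd (h : Scat K) {X : Type} (e : X → K) {u : Set X}
    (hu : TopologicalSpace.GenerateOpen
      {S : Set X | ∃ U : ℕ → Set K, (∀ n, IsOpen (U n)) ∧ S = e ⁻¹' (⋂ n, U n)} u) :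
    ∀ y ∈ u, ∃ 𝒲 : Set (Set K), 𝒲.Countable ∧ (∀ W ∈ 𝒲, IsClopen W ∧ e y ∈ W) ∧
      ∀ x, (∀ W ∈ 𝒲, e x ∈ W) → x ∈ u := by
  induction hu with
  | basic s hs =>
    obtain ⟨U, hU, rfl⟩ := hs
    intro y hy
    choose W w1 w2 w3 using fun n => clop h ((hU n).mem_nhds (mem_iInter.1 hy n))
    exact ⟨range W, countable_range W, forall_mem_range.2 fun n => ⟨w1 n, w2 n⟩,
      fun x hx => mem_iInter.2 fun n => w3 n (hx _ ⟨n, rfl⟩)⟩
  | univ => exact fun y _ => ⟨∅, countable_empty, by simp, by simp⟩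
  | inter s t _ _ i1 i2 =>
    intro y hy
    obtain ⟨A, a1, a2, a3⟩ := i1 y hy.1
    obtain ⟨B, b1, b2, b3⟩ := i2 y hy.2
    exact ⟨A ∪ B, a1.union b1, fun W hW => hW.elim (a2 W) (b2 W), fun x hx =>
      ⟨a3 x fun W hW => hx W (Or.inl hW), b3 x fun W hW => hx W (Or.inr hW)⟩⟩
  | sUnion S _ ih =>
    rintro y ⟨s, hs, hy⟩
    obtain ⟨A, a1, a2, a3⟩ := ih s hs y hy
    exact ⟨A, a1, a2, fun x hx => ⟨s, hs, a3 x hx⟩⟩

theorem sok (h : Scat K) (X : Type) [tX : TopologicalSpace X] (e : X ≃ K)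
    (ht : tX = TopologicalSpace.generateFrom
      {S : Set X | ∃ U : ℕ → Set K, (∀ n, IsOpen (U n)) ∧ S = e ⁻¹' (⋂ n, U n)})
    (F : (n : ℕ) → Set (Fin n → X)) (hF : ∀ n, IsClosed (F n)) :
    ∃ f : X → X, Continuous f ∧
      (∃ N : Set (Set X), N.Countable ∧ ∀ x ∈ Set.range f, ∀ U : Set X, IsOpen U → x ∈ U →
        ∃ A ∈ N, x ∈ A ∧ A ⊆ Set.range f ∩ U) ∧
      ∀ n : ℕ, ∀ x ∈ F n, (fun i => f (x i)) ∈ F n := by
  have : ∀ n (y : Fin n → K), ∃ 𝒲 : Set (Set K), 𝒲.Countable ∧ (∀ W ∈ 𝒲, IsClopen W) ∧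
      ∀ x ∈ F n, (∀ i, ∀ W ∈ 𝒲, y i ∈ W → e (x i) ∈ W) → (fun i => e.symm (y i)) ∈ F n := by
    intro n y
    by_cases hy : (fun i => e.symm (y i)) ∈ F n
    · exact ⟨∅, Set.countable_empty, by simp, fun _ _ _ => hy⟩
    · obtain ⟨u, u1, u2⟩ := isOpen_pi_iff'.1 (hF n).isOpen_compl _ hy
      choose 𝒲 w1 w2 w3 using fun i => gd h e (u := u i)
        (by have := (u1 i).1; rw [ht] at this; exact this) _ (u1 i).2
      refine ⟨⋃ i, 𝒲 i, Set.countable_iUnion w1, fun W hW => ?_, fun x hx hx' => ?_⟩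
      · obtain ⟨i, hi⟩ := Set.mem_iUnion.1 hW
        exact (w2 i W hi).1
      · exact (u2 (fun i _ => w3 i _ fun W hW => hx' i W (Set.mem_iUnion.2 ⟨i, hW⟩)
          (by simpa using (w2 i W hW).2)) hx).elim
  choose 𝒲 w1 w2 w3 using this
  obtain ⟨r, r1, r2, r3⟩ := retr h 𝒲 w1 w2
  refine ⟨fun x => e.symm (r (e x)), IsLocallyConstant.continuous
    ((IsLocallyConstant.iff_exists_open _).2 fun x => ?_),
    ⟨(fun y => {e.symm y}) '' Set.range r, r1.image _, ?_⟩,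
    fun n x hx => w3 n _ x hx (r3 n fun i => e (x i))⟩
  · obtain ⟨U, u1, u2, u3⟩ := r2 (e x)
    refine ⟨e ⁻¹' ⋂ n, U n, ?_, u2, fun z hz => by rw [u3 _ hz]⟩
    rw [ht]
    exact TopologicalSpace.isOpen_generateFrom_of_mem ⟨U, u1, rfl⟩
  · rintro _ ⟨x, rfl⟩ U - hU
    exact ⟨_, ⟨_, ⟨e x, rfl⟩, rfl⟩, rfl, Set.singleton_subset_iff.2 ⟨⟨x, rfl⟩, hU⟩⟩

end H5SS
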