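import Mathlib

set_option autoImplicit false

open Set Filter Topology

namespace H5Sp

variable {n : ℕ}

def Lip {α β : Type*} [PseudoMetricSpace α] [PseudoMetricSpace β] (f : α → β) : Prop :=
  ∃ K, LipschitzWith K f

section lip
variable {α β γ : Type*} [PseudoMetricSpace α] [PseudoMetricSpace β] [PseudoMetricSpace γ]

lemma Lip.comp {f : β → γ} {g : α → β} (hf : Lip f) (hg : Lip g) : Lip fun x => f (g x) := by
  obtain ⟨_, h1⟩ := hf; obtain ⟨_, h2⟩ := hg; exact ⟨_, h1.comp h2⟩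

lemma Lip.sub {E : Type*} [SeminormedAddCommGroup E] {f g : α → E} (hf : Lip f) (hg : Lip g) :
    Lip fun x => f x - g x := by
  obtain ⟨_, h1⟩ := hf; obtain ⟨_, h2⟩ := hg; exact ⟨_, h1.sub h2⟩

lemma Lip.add {E : Type*} [SeminormedAddCommGroup E] {f g : α → E} (hf : Lip f) (hg : Lip g) :
    Lip fun x => f x + g x := by
  obtain ⟨_, h1⟩ := hf; obtain ⟨_, h2⟩ := hg; exact ⟨_, h1.add h2⟩

lemma Lip.pi {f : α → Fin n → ℝ} (h : ∀ i, Lip fun x => f x i) : Lip f := by
  choose K hK using h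
  refine ⟨∑ i, K i, LipschitzWith.of_dist_le_mul fun x y => ?_⟩
  refine (dist_pi_le_iff (by positivity)).2 fun i => ((hK i).dist_le_mul x y).trans ?_
  refine mul_le_mul_of_nonneg_right ?_ dist_nonneg
  exact_mod_cast Finset.single_le_sum (f := K) (fun _ _ => zero_le) (Finset.mem_univ i)

lemma Lip.ev (i : Fin n) : Lip fun v : Fin n → ℝ => v i := ⟨1, LipschitzWith.eval i⟩

lemma Lip.id' : Lip fun x : α => x := ⟨1, LipschitzWith.id⟩

lemma Lip.lin (L : (Fin n → ℝ) →ₗ[ℝ] (Fin n → ℝ)) : Lip fun v => L v :=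
  ⟨_, (LinearMap.toContinuousLinearMap L).lipschitz⟩

end lip

open Classical in
noncomputable def cnt (ε : ℝ) (f : Fin n → ℝ) : ℕ := (Finset.univ.filter fun i => ε < |f i|).card

lemma cnt_le {ε δ : ℝ} {f g : Fin n → ℝ} (h : ∀ i, ε < |f i| → δ < |g i|) : cnt ε f ≤ cnt δ g := by
  classical
  refine Finset.card_le_card fun i hi => ?_
  simp only [Finset.mem_filter, Finset.mem_univ, true_and] at hi ⊢
  exact h i hi

lemma cnt_add (f g : Fin n → ℝ) : cnt 0 (f + g) ≤ cnt 0 f + cnt 0 g := by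
  classical
  refine (Finset.card_le_card fun i hi => ?_).trans (Finset.card_union_le _ _)
  simp only [Finset.mem_filter, Finset.mem_univ, true_and, Finset.mem_union, abs_pos,
    Pi.add_apply] at hi ⊢
  by_contra hc
  push Not at hc
  simp [hc.1, hc.2] at hi

lemma cnt_neg (f : Fin n → ℝ) : cnt 0 (-f) = cnt 0 f := by simp [cnt]

noncomputable def A : (Fin n → ℝ) →ₗ[ℝ] (Fin n → ℝ) where
  toFun f j := ∑ i, f i * (i : ℝ) ^ (j : ℕ)
  map_add' f g := by funext j; simp [add_mul, Finset.sum_add_distrib]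
  map_smul' c f := by funext j; simp [Finset.mul_sum, mul_assoc]

def P (m : ℕ) : (Fin n → ℝ) →ₗ[ℝ] (Fin n → ℝ) where
  toFun v j := if (j : ℕ) < m then v j else 0
  map_add' f g := by funext j; by_cases h : (j : ℕ) < m <;> simp [h]
  map_smul' c f := by funext j; by_cases h : (j : ℕ) < m <;> simp [h]

lemma P_apply (m : ℕ) (v : Fin n → ℝ) (j : Fin n) : P m v j = if (j : ℕ) < m then v j else 0 := rfl

lemma P_eq {m : ℕ} {v w : Fin n → ℝ} : P m v = P m w ↔ ∀ j : Fin n, (j : ℕ) < m → v j = w j := by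
  constructor
  · intro h j hj
    simpa [P_apply, hj] using congrFun h j
  · intro h
    funext j
    by_cases hj : (j : ℕ) < m <;> simp [P_apply, hj, h j]

lemma cnt_P (m : ℕ) (v : Fin n → ℝ) : cnt 0 (P m v) ≤ m := by
  classical
  refine le_trans (Finset.card_le_card_of_injOn (t := Finset.range m) Fin.val (fun i hi => ?_)
    Fin.val_injective.injOn) (by simp)
  by_contra hc
  simp only [Finset.coe_range, mem_Iio] at hc
  simp [hc, P_apply] at hi

lemma vand {m : ℕ} {f : Fin n → ℝ} (h1 : cnt 0 f ≤ m) (h2 : P m (A f) = 0) : f = 0 := by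
  classical
  set T := Finset.univ.filter fun i => (0 : ℝ) < |f i| with hT
  have hTn : T.card ≤ n := by simpa using T.card_le_univ
  have hTm : T.card ≤ m := h1
  let e := T.orderEmbOfFin rfl
  have := Matrix.eq_zero_of_forall_pow_sum_mul_pow_eq_zero (f := fun k => ((e k : ℕ) : ℝ))
    (v := fun k => f (e k)) (fun a b h => e.injective (Fin.ext (Nat.cast_injective (R := ℝ) h))) (fun j => by
      have h3 := congrFun h2 ⟨j, by omega⟩
      rw [P_apply, if_pos (by have := j.2; simp only; omega)] at h3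
      have h4 : ∑ i, f i * (i : ℝ) ^ (j : ℕ) = 0 := h3
      rw [← h4, ← Finset.sum_subset T.subset_univ (fun i _ hi => by
        have : f i = 0 := by simpa [hT] using hi
        simp [this])]
      generalize (j : ℕ) = q
      conv_rhs => rw [← T.map_orderEmbOfFin_univ rfl, Finset.sum_map]
      rfl)
  funext i
  by_contra hi
  have hiT : i ∈ T := by simpa [hT] using hi
  have : i ∈ range e := by rw [Finset.range_orderEmbOfFin]; exact hiT
  obtain ⟨k, rfl⟩ := this
  exact hi (congrFun ‹(fun k => f (e k)) = 0› k)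

lemma anti (m : ℕ) : ∃ c : ℝ, 0 ≤ c ∧ ∀ b : Fin n → ℝ, cnt 0 b ≤ m → ‖b‖ ≤ c * ‖P m (A b)‖ := by
  classical
  have : ∀ T : Finset (Fin n), ∃ c : NNReal, T.card ≤ m → ∀ b : Fin n → ℝ, (∀ i ∉ T, b i = 0) →
      ‖b‖ ≤ c * ‖P m (A b)‖ := by
    intro T
    by_cases hT : T.card ≤ m
    swap
    · exact ⟨0, fun h => (hT h).elim⟩
    let V : Submodule ℝ (Fin n → ℝ) :=
      { carrier := {b | ∀ i ∉ T, b i = 0}
        add_mem' := fun ha hb i hi => by simp [ha i hi, hb i hi]
        zero_mem' := fun _ _ => rfl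
        smul_mem' := fun c a ha i hi => by simp [ha i hi] }
    obtain ⟨K, -, hK⟩ := LinearMap.exists_antilipschitzWith (((P m).comp A).comp V.subtype) (by
      rw [LinearMap.ker_eq_bot']
      intro b hb
      refine Subtype.ext (vand (le_trans (Finset.card_le_card fun i hi => ?_) hT) hb)
      by_contra hc
      simp [b.2 i hc] at hi)
    refine ⟨K, fun _ b hb => ?_⟩
    simpa using hK.le_mul_dist ⟨b, hb⟩ 0
  choose c hc using this
  refine ⟨∑ T, c T, by positivity, fun b hb => (hc _ hb b fun i hi => by simpa using hi).trans ?_⟩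
  refine mul_le_mul_of_nonneg_right ?_ (norm_nonneg _)
  exact Finset.single_le_sum (f := fun T => (c T : ℝ)) (fun _ _ => by positivity) (Finset.mem_univ _)

lemma exists_thr (r : ℕ) : ∃ T : (Fin n → ℝ) → (Fin n → ℝ), Lip T ∧ (∀ f, cnt 0 (T f) ≤ r) ∧
    ∀ a, cnt 0 a ≤ r → T a = a := by
  classical
  let S : Set (Fin n → ℝ) := {a | cnt 0 a ≤ r}
  let θ : (Fin n → ℝ) → ℝ := fun f => Metric.infDist f S
  have hθ : LipschitzWith 1 θ := Metric.lipschitz_infDist_pt S
  refine ⟨fun f i => f i - max (-θ f) (min (θ f) (f i)), Lip.pi fun i => (Lip.ev i).sub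
    ⟨_, hθ.neg.max (hθ.min (LipschitzWith.eval i))⟩, fun f => ?_, fun a ha => ?_⟩
  · have h0 : 0 ≤ θ f := Metric.infDist_nonneg
    refine le_trans (cnt_le (δ := θ f) (g := f) fun i hi => ?_) ?_
    · by_contra hc
      obtain ⟨h1, h2⟩ := abs_le.1 (not_lt.1 hc)
      simp [min_eq_right h2, max_eq_right h1] at hi
    · rcases (Finset.univ.filter fun i => θ f < |f i|).eq_empty_or_nonempty with h | h
      · simp [cnt, h]
      · obtain ⟨i0, h1, h2⟩ := Finset.exists_min_image _ (fun i => |f i|) h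
        obtain ⟨a, ha, hd⟩ := (Metric.infDist_lt_iff ⟨0, by simp [S, cnt]⟩).1
          (Finset.mem_filter.1 h1).2
        refine le_trans (cnt_le fun i hi => ?_) ha
        have h3 := h2 i (by simpa using hi)
        have h4 := dist_le_pi_dist f a i
        rw [abs_pos]
        intro h5
        rw [h5, Real.dist_eq, sub_zero] at h4
        linarith
  · funext i
    have : θ a = 0 := Metric.infDist_zero_of_mem ha
    simp [this]

lemma exists_R (m : ℕ) : ∃ R : (Fin n → ℝ) →ₗ[ℝ] (Fin n → ℝ), (∀ v, P m (A (R v)) = P m v) ∧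
    (∀ v, cnt 0 (R v) ≤ m) ∧ ∀ v w, P m v = P m w → R v = R w := by
  let B : (Fin n → ℝ) →ₗ[ℝ] (Fin n → ℝ) := (P m).comp A + (LinearMap.id - P m)
  have key : ∀ f v, B f = P m v → P m f = f ∧ P m (A f) = P m v := by
    intro f v h
    have h1 : P m f = f := by
      funext j
      have := congrFun h j
      by_cases hj : (j : ℕ) < m
      · simp [P_apply, hj]
      · simpa [B, P_apply, hj, eq_comm] using this
    refine ⟨h1, ?_⟩
    simpa [B, h1] using h
  have hB : Function.Injective B := by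
    rw [injective_iff_map_eq_zero]
    intro f hf
    obtain ⟨h1, h2⟩ := key f 0 (by simpa using hf)
    exact vand (h1 ▸ cnt_P m f) (by simpa using h2)
  let e := LinearEquiv.ofInjectiveEndo B hB
  have he : ∀ v, B (e.symm (P m v)) = P m v := fun v => e.apply_symm_apply _
  refine ⟨e.symm.toLinearMap.comp (P m), fun v => (key _ _ (he v)).2, fun v => ?_,
    fun v w h => by simp [h]⟩
  have := (key _ _ (he v)).1
  simpa [this] using cnt_P m (e.symm (P m v))

lemma exists_D (r : ℕ) : ∃ D : (Fin n → ℝ) → (Fin n → ℝ), Lip D ∧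
    (∀ v, P (2 * r) (A (D v)) = P (2 * r) v) ∧ (∀ v, cnt 0 (D v) ≤ 3 * r) ∧
    (∀ a, cnt 0 a ≤ r → D (A a) = a) ∧ ∀ v w, P (2 * r) v = P (2 * r) w → D v = D w := by
  classical
  obtain ⟨c, c0, hc⟩ := anti (n := n) (2 * r)
  obtain ⟨T, T1, T2, T3⟩ := exists_thr (n := n) r
  obtain ⟨R, R1, R2, R3⟩ := exists_R (n := n) (2 * r)
  let S : Set (Fin n → ℝ) := {a | cnt 0 a ≤ r}
  let M : (Fin n → ℝ) → (Fin n → ℝ) := fun a => P (2 * r) (A a)
  have hM : ∀ a ∈ S, ∀ b ∈ S, dist a b ≤ c * dist (M a) (M b) := by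
    intro a ha b hb
    have h1 : cnt 0 (a - b) ≤ 2 * r := by
      rw [sub_eq_add_neg]
      refine (cnt_add _ _).trans ?_
      rw [cnt_neg]
      have : cnt 0 a ≤ r := ha
      have : cnt 0 b ≤ r := hb
      omega
    simpa [dist_eq_norm, M] using hc _ h1
  have hinj : InjOn M S := fun a ha b hb h => by
    have := hM a ha b hb
    rw [h, dist_self, mul_zero] at this
    exact dist_le_zero.1 this
  obtain ⟨G, G1, G2⟩ := LipschitzOnWith.extend_pi (f := Function.invFunOn M S) (s := M '' S)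
    (LipschitzOnWith.of_dist_le' (K := c) (by
      rintro _ ⟨a, ha, rfl⟩ _ ⟨b, hb, rfl⟩
      rw [hinj.leftInvOn_invFunOn ha, hinj.leftInvOn_invFunOn hb]
      exact hM a ha b hb))
  have hL : Lip fun v => T (G (P (2 * r) v)) := T1.comp (Lip.comp ⟨_, G1⟩ (Lip.lin _))
  refine ⟨fun v => T (G (P (2 * r) v)) + R (v - A (T (G (P (2 * r) v)))),
    hL.add ((Lip.lin R).comp (Lip.id'.sub ((Lip.lin A).comp hL))), fun v => ?_, fun v => ?_,
    fun a ha => ?_, fun v w h => ?_⟩
  · simp [R1]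
  · refine (cnt_add _ _).trans ?_
    have := T2 (G (P (2 * r) v))
    have := R2 (v - A (T (G (P (2 * r) v))))
    omega
  · have : G (P (2 * r) (A a)) = a := by
      rw [← G2 (mem_image_of_mem M ha)]
      exact hinj.leftInvOn_invFunOn ha
    simp [this, T3 a ha]
  · dsimp only
    rw [h, R3 (v - _) (w - A (T (G (P (2 * r) w)))) (by simp [h])]

lemma triang (φ : (Fin n → ℝ) → (Fin n → ℝ)) (hL : Lip φ)
    (h : ∀ v w (j : Fin n), P j v = P j w → φ v j = φ w j) :
    ∃ G : (Fin n → ℝ) → (Fin n → ℝ), Lip G ∧ (∀ v, G (v - φ v) = v) ∧ ∀ u, G u - φ (G u) = u := by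
  let g : ℕ → (Fin n → ℝ) → (Fin n → ℝ) := fun k => Nat.rec (fun u => u) (fun _ g u => u + φ (g u)) k
  have hg : ∀ k u, g (k + 1) u = u + φ (g k u) := fun _ _ => rfl
  have h1 : ∀ k, Lip (g k) := by
    intro k
    induction k with
    | zero => exact Lip.id'
    | succ k ih => exact Lip.id'.add (hL.comp ih)
  have h2 : ∀ v k (j : Fin n), (j : ℕ) < k → g k (v - φ v) j = v j := by
    intro v k
    induction k with
    | zero => simp
    | succ k ih =>
      intro j hj
      rw [hg, Pi.add_apply, h _ v j (P_eq.2 fun i hi => ih i (by omega))]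
      simp
  have h3 : ∀ u k (j : Fin n), (j : ℕ) < k → g (k + 1) u j = g k u j := by
    intro u k
    induction k with
    | zero => simp
    | succ k ih =>
      intro j hj
      rw [hg (k + 1), Pi.add_apply, h _ (g k u) j (P_eq.2 fun i hi => ih i (by omega))]
      rfl
  refine ⟨g n, h1 n, fun v => funext fun j => h2 v n j j.2, fun u => funext fun j => ?_⟩
  have := h3 u n j j.2
  rw [hg, Pi.add_apply] at this
  simp [← this]

lemma exists_H0 : ∃ H G : (Fin n → ℝ) → (Fin n → ℝ), Lip H ∧ Lip G ∧ (∀ f, G (H f) = f) ∧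
    (∀ u, H (G u) = u) ∧
    (∀ l a, cnt 0 a ≤ 3 ^ l → ∀ j : Fin n, 2 * 3 ^ l ≤ (j : ℕ) → H a j = 0) ∧
    ∀ l f, (∀ j : Fin n, 2 * 3 ^ l ≤ (j : ℕ) → H f j = 0) → cnt 0 f ≤ 3 ^ (l + 1) := by
  choose D D1 D2 D3 D4 D5 using fun l : ℕ => exists_D (n := n) (3 ^ l)
  let lv : Fin n → ℕ := fun j => Nat.log 3 (j / 2)
  have hlv : ∀ (j : Fin n) l, 2 ≤ (j : ℕ) → (l ≤ lv j ↔ 2 * 3 ^ l ≤ (j : ℕ)) := by
    intro j l hj
    rw [Nat.le_log_iff_pow_le (by norm_num) (by omega)]
    omega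
  let φ : (Fin n → ℝ) → (Fin n → ℝ) := fun v j => if 2 ≤ (j : ℕ) then A (D (lv j) v) j else 0
  have hφ : ∀ v w (j : Fin n), P j v = P j w → φ v j = φ w j := by
    intro v w j h
    by_cases hj : 2 ≤ (j : ℕ)
    · simp only [φ, hj, if_true]
      rw [D5 _ v w (P_eq.2 fun i hi => P_eq.1 h i (hi.trans_le ((hlv j _ hj).1 le_rfl)))]
    · simp [φ, hj]
  have hφL : Lip φ := Lip.pi fun j => by
    by_cases hj : 2 ≤ (j : ℕ)
    · simp only [φ, hj, if_true]
      exact (Lip.ev j).comp ((Lip.lin A).comp (D1 _))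
    · simp only [φ, hj, if_false]
      exact ⟨0, LipschitzWith.const _⟩
  obtain ⟨G, G1, G2, G3⟩ := triang φ hφL hφ
  have hA : Function.Injective (A (n := n)) := by
    rw [injective_iff_map_eq_zero]
    intro f hf
    exact vand (m := cnt 0 f) le_rfl (by simp [hf])
  let e := LinearEquiv.ofInjectiveEndo A hA
  have k1 : ∀ l a, cnt 0 a ≤ 3 ^ l → ∀ j : Fin n, 2 * 3 ^ l ≤ (j : ℕ) → (A a - φ (A a)) j = 0 := by
    intro l a ha j hj
    have h2 : 2 ≤ (j : ℕ) := by have := Nat.one_le_pow l 3 (by norm_num); omega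
    simp only [Pi.sub_apply, φ, h2, if_true]
    rw [D4 _ a (ha.trans (Nat.pow_le_pow_right (by norm_num) ((hlv j l h2).2 hj))), sub_self]
  refine ⟨fun f => A f - φ (A f), fun u => e.symm (G u), (Lip.lin A).sub (hφL.comp (Lip.lin A)),
    (Lip.lin e.symm.toLinearMap).comp G1, fun f => ?_, fun u => ?_, k1, fun l f hf => ?_⟩
  · dsimp only
    rw [G2]; exact e.symm_apply_apply f
  · have : A (e.symm (G u)) = G u := e.apply_symm_apply _
    dsimp only
    rw [this, G3]
  · have h3 : cnt 0 (D l (A f)) ≤ 3 ^ (l + 1) := by rw [pow_succ']; exact D3 l _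
    have h4 : A (D l (A f)) - φ (A (D l (A f))) = A f - φ (A f) := by
      funext j
      rcases lt_or_ge (j : ℕ) (2 * 3 ^ l) with hj | hj
      · rw [Pi.sub_apply, Pi.sub_apply, P_eq.1 (D2 l _) j hj,
          hφ _ (A f) j (P_eq.2 fun i hi => P_eq.1 (D2 l _) i (hi.trans hj))]
      · rw [show (A f - φ (A f)) j = 0 from hf j hj]
        have h2 : 2 ≤ (j : ℕ) := by have := Nat.one_le_pow l 3 (by norm_num); omega
        rcases ((hlv j l h2).2 hj).eq_or_lt with h5 | h5
        · simp only [Pi.sub_apply, φ, h2, if_true]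
          rw [← h5, D5 l _ (A f) (D2 l _), sub_self]
        · exact k1 _ _ h3 j ((hlv j _ h2).1 h5)
    have h5 := congrArg G h4
    rw [G2, G2] at h5
    rw [← hA h5]
    exact h3

lemma exists_sig (L : ℝ) : ∃ σ : ℝ ≃ᵤ ℝ, StrictMono σ ∧ (∀ t, |σ t| = σ |t|) ∧
    ∀ ε, 0 ≤ ε → ε ≤ 1 / 2 → L * σ ε ≤ σ (2 * ε) := by
  obtain ⟨p, hp⟩ := pow_unbounded_of_one_lt L (one_lt_two (α := ℝ))
  let s : ℝ → ℝ := fun t => t * (min |t| 1) ^ p
  have sc : Continuous s := by fun_prop
  have s1 : ∀ t, 1 ≤ |t| → s t = t := fun t ht => by simp [s, min_eq_right ht]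
  have sm : StrictMono s := by
    refine strictMono_of_odd_strictMonoOn_nonneg (fun t => by simp [s]) ?_
    intro a ha b hb hab
    have ha' : 0 ≤ a := ha
    have hb' : 0 < b := ha'.trans_lt hab
    simp only [s, abs_of_nonneg ha', abs_of_pos hb']
    calc a * (min a 1) ^ p ≤ a * (min b 1) ^ p :=
          mul_le_mul_of_nonneg_left (pow_le_pow_left₀ (by positivity) (min_le_min_right _ hab.le) _) ha'
      _ < b * (min b 1) ^ p := mul_lt_mul_of_pos_right hab (by positivity)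
  have ss : Function.Surjective s := by
    refine sc.surjective (tendsto_id.congr' ?_) (tendsto_id.congr' ?_)
    · filter_upwards [eventually_ge_atTop 1] with t ht using (s1 t (ht.trans (le_abs_self t))).symm
    · filter_upwards [eventually_le_atBot (-1)] with t ht using
        (s1 t (le_trans (by linarith) (neg_le_abs t))).symm
  let o := sm.orderIsoOfSurjective s ss
  have uc : ∀ g : ℝ → ℝ, Continuous g → (∀ t, 1 ≤ |t| → g t = t) → UniformContinuous g := by
    intro g gc hg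
    have h1 : Tendsto (fun t => g t - t) (cocompact ℝ) (𝓝 0) := by
      refine tendsto_const_nhds.congr' ?_
      filter_upwards [(isCompact_Icc (a := (-1 : ℝ)) (b := 1)).compl_mem_cocompact] with t ht
      rw [hg t, sub_self]
      by_contra hc
      exact ht (abs_le.1 (not_le.1 hc).le)
    have := ((gc.sub continuous_id).uniformContinuous_of_tendsto_cocompact h1).add
      uniformContinuous_id
    simpa using this
  refine ⟨⟨o.toEquiv, uc _ sc s1, uc _ o.symm.continuous fun t ht => ?_⟩, sm, fun t => ?_,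
    fun ε h0 h1 => ?_⟩
  · exact o.symm_apply_eq.2 (s1 t ht).symm
  · change |s t| = s |t|
    simp only [s, abs_mul, abs_abs, abs_pow]
    rw [abs_of_nonneg (a := min |t| 1) (by positivity)]
  · change L * s ε ≤ s (2 * ε)
    simp only [s]
    rw [abs_of_nonneg h0, abs_of_nonneg (by positivity), min_eq_left (by linarith),
      min_eq_left (by linarith), mul_pow]
    have : 0 ≤ ε * ε ^ p := by positivity
    have : (0 : ℝ) < 2 ^ p := by positivity
    nlinarith

theorem block (n : ℕ) : ∃ H : (Fin n → ℝ) ≃ᵤ (Fin n → ℝ), ∀ ε, 0 ≤ ε → ε ≤ 1 / 2 → ∀ l f,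
    (cnt ε f ≤ 3 ^ l → ∀ j : Fin n, 2 * 3 ^ l ≤ (j : ℕ) → |H f j| ≤ 2 * ε) ∧
    ((∀ j : Fin n, 2 * 3 ^ l ≤ (j : ℕ) → |H f j| ≤ ε) → cnt (2 * ε) f ≤ 3 ^ (l + 1)) := by
  obtain ⟨H, G, ⟨K1, H1⟩, ⟨K2, G1⟩, h1, h2, h3, h4⟩ := exists_H0 (n := n)
  obtain ⟨σ, s1, s2, s3⟩ := exists_sig (K1 + K2)
  let e : (Fin n → ℝ) ≃ᵤ (Fin n → ℝ) := ⟨⟨H, G, h1, h2⟩, H1.uniformContinuous, G1.uniformContinuous⟩
  let S : (Fin n → ℝ) ≃ᵤ (Fin n → ℝ) := UniformEquiv.piCongrRight fun _ => σ
  have s0 : ∀ ε, 0 ≤ ε → 0 ≤ σ ε := fun ε h => by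
    rw [← abs_of_nonneg h, ← s2]; exact abs_nonneg _
  have k1 : (0 : ℝ) ≤ K1 := K1.2
  have k2 : (0 : ℝ) ≤ K2 := K2.2
  refine ⟨(S.trans e).trans S.symm, fun ε e0 e1 l f => ⟨fun hc j hj => ?_, fun hc => ?_⟩⟩
  · let a : Fin n → ℝ := fun i => if ε < |f i| then σ (f i) else 0
    have ha : cnt 0 a ≤ 3 ^ l := le_trans (cnt_le fun i hi => by
      by_contra hh
      simp [a, hh] at hi) hc
    have hd : dist (S f) a ≤ σ ε := (dist_pi_le_iff (s0 _ e0)).2 fun i => by
      change dist (σ (f i)) (a i) ≤ _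
      by_cases hh : ε < |f i|
      · simp [a, hh, s0 _ e0]
      · simp only [a, hh, if_false, Real.dist_eq, sub_zero, s2]
        exact s1.monotone (not_lt.1 hh)
    have h5 := (dist_le_pi_dist _ _ j).trans (H1.dist_le_mul_of_le hd)
    rw [h3 l a ha j hj, Real.dist_eq, sub_zero] at h5
    change |σ.symm (H (S f) j)| ≤ _
    rw [← s1.le_iff_le, ← s2, σ.apply_symm_apply]
    refine h5.trans (le_trans ?_ (s3 ε e0 e1))
    have := s0 _ e0
    nlinarith
  · have hd : dist (H (S f)) (P (2 * 3 ^ l) (H (S f))) ≤ σ ε := (dist_pi_le_iff (s0 _ e0)).2 fun i => by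
      by_cases hh : (i : ℕ) < 2 * 3 ^ l
      · simp [P_apply, hh, s0 _ e0]
      · simp only [P_apply, hh, if_false, Real.dist_eq, sub_zero]
        have h5 : |σ.symm (H (S f) i)| ≤ ε := hc i (not_lt.1 hh)
        rwa [← s1.le_iff_le, ← s2, σ.apply_symm_apply] at h5
    have h5 := G1.dist_le_mul_of_le hd
    rw [h1] at h5
    refine le_trans (cnt_le fun i hi => ?_) (h4 l (G (P (2 * 3 ^ l) (H (S f)))) fun j hj => by
      rw [h2, P_apply, if_neg (not_lt.2 hj)])
    rw [abs_pos]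
    intro h6
    have h7 := (dist_le_pi_dist _ _ i).trans h5
    rw [h6, Real.dist_eq, sub_zero] at h7
    have h8 : |σ (f i)| ≤ K2 * σ ε := h7
    rw [s2] at h8
    have h9 := s1 hi
    have := s3 ε e0 e1
    have := s0 _ e0
    nlinarith

end H5Sp
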