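import Pool.Agent.Lib.helper5.CpEquiv
import Pool.Agent.Lib.helper5.Extral

/-! An l-stable non-discrete space that is not S-stable. -/

open Set Filter Topology TopologicalSpace
open scoped OnePoint

namespace H5E

variable {X : Type} [TopologicalSpace X]

theorem swindle (h : ℕ × X ≃ₜ X) (A : Set X) (φ : C(A, ℝ) →ₗ[ℝ] C(X, ℝ))
    (h1 : ∀ x, PC fun f => φ f x) (h2 : ∀ f (a : A), φ f a = f a) : LEq X (X ⊕ A) := by
  let u : ℕ → C(X, X) := fun n => ⟨fun x => h (n, x), by fun_prop⟩
  let r : C(A, X) := ⟨Subtype.val, continuous_subtype_val⟩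
  let gl : (ℕ → C(X, ℝ)) → C(X, ℝ) := fun g => ⟨fun x => g (h.symm x).1 (h.symm x).2,
    (continuous_prod_of_discrete_left (f := fun p : ℕ × X => g p.1 p.2).2 fun n => (g n).2).comp
      h.symm.continuous⟩
  have g1 : ∀ g n, (gl g).comp (u n) = g n := fun g n => by ext; simp [gl, u]
  have r1 : ∀ f, (φ f).comp r = f := fun f => ContinuousMap.ext (h2 f)
  let Φ : C(X, ℝ) → C(X ⊕ A, ℝ) := fun f => el (gl fun n => f.comp (u n) -
    φ ((f.comp (u n)).comp r) + φ ((f.comp (u (n + 1))).comp r)) ((f.comp (u 0)).comp r)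
  let a : C(X ⊕ A, ℝ) → ℕ → C(A, ℝ) := fun g n =>
    n.casesOn (g.comp inr') fun n => ((g.comp inl').comp (u n)).comp r
  let Ψ : C(X ⊕ A, ℝ) → C(X, ℝ) := fun g => gl fun n => (g.comp inl').comp (u n) -
    φ (a g (n + 1)) + φ (a g n)
  have e1 : ∀ (f : C(X, ℝ)) (g : C(A, ℝ)), (el f g).comp inl' = f := fun _ _ => rfl
  have a1 : ∀ f n, a (Φ f) n = (f.comp (u n)).comp r := fun f n => by
    cases n with
    | zero => rfl
    | succ n => simp [a, Φ, e1, g1, ContinuousMap.add_comp, ContinuousMap.sub_comp, r1,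
        -ContinuousMap.comp_assoc]
  have a2 : ∀ g n, ((Ψ g).comp (u n)).comp r = a g n := fun g n => by
    simp [Ψ, g1, ContinuousMap.add_comp, ContinuousMap.sub_comp, r1, -ContinuousMap.comp_assoc]
    exact sub_self _
  have p : ∀ n x, PC fun g => a g n x := fun n x => by cases n <;> exact PC.eval _
  refine ⟨⟨⟨⟨Φ, fun f g => ?_⟩, fun c f => ?_⟩, Ψ, fun f => ?_, fun g => ?_⟩, ?_, fun x => ?_⟩
  · ext (x | x)
    · simp [Φ, el, gl, ContinuousMap.add_comp]; ring
    · rfl
  · ext (x | x)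
    · simp [Φ, el, gl, ContinuousMap.smul_comp]; ring
    · rfl
  · ext x
    simp only [Ψ, a1]
    simp [Φ, e1, g1, gl, u, -ContinuousMap.comp_assoc]
  · ext (x | x)
    · simp only [Φ, a2]
      simp [Ψ, g1, gl, el, u, inl', -ContinuousMap.comp_assoc]
    · exact DFunLike.congr_fun (a2 g 0) x
  · rintro (x | x)
    · exact ((PC.eval _).sub (PC.comp (T := fun f => (f.comp (u _)).comp r) (fun _ => PC.eval _)
        (h1 _))).add (PC.comp (T := fun f => (f.comp (u _)).comp r) (fun _ => PC.eval _) (h1 _))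
    · exact PC.eval _
  · exact ((PC.eval (.inl (u (h.symm x).1 (h.symm x).2))).sub (PC.comp (p ((h.symm x).1 + 1))
      (h1 (h.symm x).2))).add (PC.comp (p (h.symm x).1) (h1 (h.symm x).2))

theorem notS [Nonempty X] (hP : ∀ x : X, CountableInterFilter (𝓝 x)) :
    ¬ LEq (X × OnePoint ℕ) X := by
  classical
  rintro ⟨T, t1, t2⟩
  have c : ∀ n : ℕ, IsClopen (OnePoint.some '' Iic n) := fun n =>
    ⟨((finite_Iic n).image _).isClosed, OnePoint.isOpenEmbedding_coe.isOpenMap _ (isOpen_discrete _)⟩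
  let g : ℕ → C(X × OnePoint ℕ, ℝ) := fun n => ⟨fun p => (OnePoint.some '' Iic n).indicator 1 p.2,
    ((c n).continuous_indicator continuous_const).comp continuous_snd⟩
  have : ∀ x, ∃ l, Tendsto (fun n => T (g n) x) atTop (𝓝 l) := fun x => by
    refine cauchySeq_tendsto_of_complete (Metric.cauchySeq_iff.2 fun ε hε => ?_)
    obtain ⟨G, δ, d1, d2⟩ := unif T t1 {x} ε hε
    obtain ⟨N, hN⟩ := eventually_atTop.1 ((eventually_all_finset G (l := atTop)
      (p := fun p n => g n p = if p.2 = ∞ then 0 else 1)).2 fun ⟨y, p⟩ _ => by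
        induction p using OnePoint.rec with
        | infty => simp [g]
        | coe k => exact (eventually_ge_atTop k).mono fun n hn => by simp [g, hn])
    exact ⟨N, fun m hm n hn => d2 _ _ (fun p hp => by simpa [hN m hm p hp, hN n hn p hp]) x (by simp)⟩
  choose l hl using this
  have hc : Continuous l := continuous_iff_continuousAt.2 fun x => Metric.tendsto_nhds.2 fun ε hε => by
    have := hP x
    filter_upwards [eventually_countable_forall.2 fun n =>
      Metric.tendsto_nhds.1 (T (g n)).2.continuousAt _ (half_pos hε)] with y hy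
    exact (le_of_tendsto' ((hl y).dist (hl x)) fun n => (hy n).le).trans_lt (half_lt_self hε)
  have k : ∀ p, Tendsto (fun n => g n p) atTop (𝓝 (T.symm ⟨l, hc⟩ p)) := fun p => by
    let := tp X
    simpa [Function.comp_def] using (Continuous.tendsto (t2 p) ⟨l, hc⟩).comp
      ((IsInducing.induced _).tendsto_nhds_iff.2 (tendsto_pi_nhds.2 hl))
  obtain ⟨x⟩ := ‹Nonempty X›
  have k1 : ∀ n : ℕ, T.symm ⟨l, hc⟩ (x, n) = 1 := fun n => tendsto_nhds_unique (k _)
    (tendsto_const_nhds.congr' ((eventually_ge_atTop n).mono fun m hm => by simp [g, hm]))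
  have k2 := tendsto_nhds_unique (k (x, ∞)) (tendsto_const_nhds.congr fun m => by simp [g]; rfl)
  have k3 := (OnePoint.continuous_iff_from_nat _).1 ((T.symm ⟨l, hc⟩).2.comp (.prodMk_right x))
  simp only [Function.comp, ContinuousMap.toFun_eq_coe, k1, k2] at k3
  simpa using tendsto_nhds_unique k3 tendsto_const_nhds

def Dd := Set ℝ
instance : TopologicalSpace Dd := ⊥
instance : DiscreteTopology Dd := ⟨rfl⟩

/-- the `G_δ`-modification of the Cantor cube of weight continuum -/
def Gd := {_x : Set ℝ // True}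

def ιG (x : Gd) (t : {t : Set ℝ // t.Countable}) : Dd := (x.1 ∩ t.1 : Set ℝ)

instance : TopologicalSpace Gd := induced ιG inferInstance

instance : T35Space Gd := IsEmbedding.t35Space (f := ιG) ⟨⟨rfl⟩, fun x y h => Subtype.ext <| by
  ext a
  have : x.1 ∩ {a} = y.1 ∩ {a} := congrFun h ⟨_, countable_singleton a⟩
  simpa using Set.ext_iff.1 this a⟩

instance : Nonempty Gd := ⟨⟨∅, trivial⟩⟩

lemma Gd_P (x : ℕ × Gd) : CountableInterFilter (𝓝 x) := by
  have : CountableInterFilter (𝓝 x.2) := ⟨fun S s1 s2 => by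
    have : ∀ U ∈ S, ∃ t : Set ℝ, t.Countable ∧ ∀ y : Gd, y.1 ∩ t = x.2.1 ∩ t → y ∈ U :=
      fun U hU => by
      obtain ⟨_, h1, ⟨V, hV, rfl⟩, h2⟩ := mem_nhds_iff.1 (s2 U hU)
      obtain ⟨G, hG⟩ := H5C.face_open' hV h2
      refine ⟨⋃ s ∈ (G : Set {t : Set ℝ // t.Countable}), s.1, G.countable_toSet.biUnion
        fun s _ => s.2, fun y hy => h1 (hG fun s hs => ?_)⟩
      show y.1 ∩ s.1 = x.2.1 ∩ s.1
      rw [← inter_eq_right.2 (subset_biUnion_of_mem (u := Subtype.val) hs), ← inter_assoc, hy,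
        inter_assoc]
    choose! t t1 t2 using this
    refine mem_of_superset (((isOpen_discrete {ιG x.2 ⟨_, s1.biUnion t1⟩}).preimage (f := fun y : Gd =>
      ιG y ⟨_, s1.biUnion t1⟩) ((continuous_apply _).comp (continuous_induced_dom (f := ιG)))).mem_nhds
      rfl) fun y hy U hU => t2 U hU y ?_
    have hy : y.1 ∩ _ = x.2.1 ∩ _ := hy
    rw [← inter_eq_right.2 (subset_biUnion_of_mem (u := t) hU), ← inter_assoc, hy, inter_assoc]⟩
  rw [← Prod.mk.eta (p := x), nhds_prod_eq, nhds_discrete, pure_prod]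
  infer_instance

end H5E
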