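import Mathlib

open MvPolynomial

namespace H5S

section
variable {S : Type} [CommRing S] [IsDomain S]

lemma solve {x : S} (hx : Prime x) (N : ℕ) : ∀ (h c a : ℕ → S), (∀ i < N, h i = c i * h (i + 1)) →
    (∀ i ≤ N, ¬ x ∣ h i) → ∑ i ∈ Finset.range (N + 1), a i * (x ^ i * h i) = 0 →
    ∃ b : ℕ → S, b N = 0 ∧ a 0 = x * b 0 ∧ ∀ i < N, a (i + 1) = x * b (i + 1) - c i * b i := by
  induction N with
  | zero =>
    intro h c a _ h2 h3
    simp only [zero_add, Finset.range_one, Finset.sum_singleton, pow_zero, one_mul, mul_eq_zero] at h3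
    rcases h3 with h3 | h3
    · exact ⟨0, rfl, by simp [h3], by simp⟩
    · exact absurd (h3 ▸ dvd_zero x) (h2 0 le_rfl)
  | succ N ih =>
    intro h c a h1 h2 h3
    rw [Finset.sum_range_succ'] at h3
    have e : ∑ i ∈ Finset.range (N + 1), a (i + 1) * (x ^ (i + 1) * h (i + 1)) =
        x * ∑ i ∈ Finset.range (N + 1), a (i + 1) * (x ^ i * h (i + 1)) := by
      rw [Finset.mul_sum]; exact Finset.sum_congr rfl fun i _ => by ring
    rw [e, pow_zero, one_mul] at h3
    obtain ⟨b0, hb0⟩ := (hx.dvd_or_dvd (a := a 0) (b := h 0)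
      ⟨_, by rw [mul_neg]; exact eq_neg_of_add_eq_zero_right h3⟩).resolve_right (h2 0 (by omega))
    obtain ⟨b, e1, e2, e3⟩ := ih (fun i => h (i + 1)) (fun i => c (i + 1))
      (fun i => a (i + 1) + if i = 0 then c 0 * b0 else 0) (fun i hi => h1 _ (by omega))
      (fun i hi => h2 _ (by omega)) (by
        simp only [add_mul, Finset.sum_add_distrib, ite_mul, zero_mul, Finset.sum_ite_eq',
          Finset.mem_range, Nat.zero_lt_succ, if_true]
        apply mul_left_cancel₀ hx.ne_zero
        rw [hb0, h1 0 (by omega)] at h3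
        linear_combination h3)
    refine ⟨fun i => Nat.casesOn i b0 b, e1, hb0, fun i hi => ?_⟩
    cases i with
    | zero => simp only [if_true] at e2 ⊢; linear_combination e2
    | succ i => simpa using e3 i (by omega)

lemma stair {x : S} (hx : Prime x) (N : ℕ) (h c : ℕ → S) (h1 : ∀ i < N, h i = c i * h (i + 1))
    (h2 : ∀ i ≤ N, ¬ x ∣ h i) (J : Ideal S)
    (hJ : J = Ideal.span (Set.range fun i : Fin (N + 1) => x ^ (i : ℕ) * h i)) :
    ∃ (m : ℕ) (f : (Fin m → S) →ₗ[S] J), Function.Surjective f ∧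
      Module.Projective S (LinearMap.ker f) := by
  subst hJ
  let g : Fin (N + 1) → S := fun i => x ^ (i : ℕ) * h i
  have hg : ∀ a, Fintype.linearCombination S g a = ∑ i, a i * g i := fun a => by
    simp [Fintype.linearCombination_apply]
  refine ⟨N + 1, LinearMap.codRestrict _ (Fintype.linearCombination S g) fun a => ?_, ?_, ?_⟩
  · rw [hg]; exact Ideal.sum_mem _ fun i _ => Ideal.mul_mem_left _ _ (Ideal.subset_span ⟨i, rfl⟩)
  · rintro ⟨y, hy⟩
    obtain ⟨a, rfl⟩ := Ideal.mem_span_range_iff_exists_fun.1 hy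
    exact ⟨a, Subtype.ext (hg a)⟩
  rw [LinearMap.ker_codRestrict]
  let ex : (Fin N → S) → ℕ → S := fun b j => if hj : j < N then b ⟨j, hj⟩ else 0
  let ψ : (Fin N → S) →ₗ[S] (Fin (N + 1) → S) :=
    { toFun := fun b i => x * ex b i - if (i : ℕ) = 0 then 0 else c (i - 1) * ex b (i - 1)
      map_add' := fun b b' => by
        ext i; simp only [ex, Pi.add_apply]; split_ifs <;> ring
      map_smul' := fun r b => by
        ext i; simp only [ex, Pi.smul_apply, smul_eq_mul, RingHom.id_apply]; split_ifs <;> ring }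
  have hψ : ∀ b i, ψ b i = x * ex b i - if (i : ℕ) = 0 then 0 else c (i - 1) * ex b (i - 1) :=
    fun _ _ => rfl
  have hinj : Function.Injective ψ := by
    rw [injective_iff_map_eq_zero]
    intro b hb
    have : ∀ j, ex b j = 0 := by
      intro j
      induction j with
      | zero =>
        have := congrFun hb 0
        rw [hψ] at this
        simpa [hx.ne_zero] using this
      | succ j ih =>
        by_cases hj : j + 1 < N + 1
        · have := congrFun hb ⟨j + 1, hj⟩
          rw [hψ] at this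
          simpa [hx.ne_zero, ih] using this
        · simp only [ex]; rw [dif_neg (by omega)]
    ext j
    simpa [ex] using this j
  have hr : LinearMap.range ψ = LinearMap.ker (Fintype.linearCombination S g) := by
    ext a
    rw [LinearMap.mem_ker, hg]
    constructor
    · rintro ⟨b, rfl⟩
      simp only [hψ, g]
      rw [Fin.sum_univ_eq_sum_range (fun i => (x * ex b i - if i = 0 then 0 else
        c (i - 1) * ex b (i - 1)) * (x ^ i * h i)) (N + 1)]
      simp only [sub_mul, Finset.sum_sub_distrib]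
      rw [Finset.sum_range_succ, Finset.sum_range_succ' (fun i => (if i = 0 then 0 else
        c (i - 1) * ex b (i - 1)) * (x ^ i * h i))]
      have : ex b N = 0 := by simp [ex]
      rw [this, sub_eq_zero]
      simp only [mul_zero, zero_mul, add_zero, if_true, Nat.add_eq_zero_iff, one_ne_zero, and_false,
        if_false, Nat.add_sub_cancel]
      exact Finset.sum_congr rfl fun i hi => by rw [h1 i (Finset.mem_range.1 hi)]; ring
    · intro ha
      let a' : ℕ → S := fun j => if hj : j < N + 1 then a ⟨j, hj⟩ else 0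
      obtain ⟨b, e1, e2, e3⟩ := solve hx N h c a' h1 h2 (by
        rw [Finset.sum_range, ← ha]
        exact Finset.sum_congr rfl fun i _ => by simp only [a', g]; rw [dif_pos i.2])
      have hb : ∀ j ≤ N, ex (fun i => b i) j = b j := fun j hj => by
        simp only [ex]
        split_ifs with h
        · rfl
        · rw [show j = N by omega, e1]
      refine ⟨fun i => b i, funext fun ⟨i, hi⟩ => ?_⟩
      rw [hψ]
      simp only
      rw [hb i (by omega), hb (i - 1) (by omega)]
      cases i with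
      | zero => simpa [a'] using e2.symm
      | succ i =>
        have := e3 i (by omega)
        simp only [a'] at this
        rw [dif_pos hi] at this
        simpa using this.symm
  exact Module.Projective.of_equiv ((LinearEquiv.ofInjective ψ hinj).trans (LinearEquiv.ofEq _ _ hr))

lemma coord {P : Type} [AddCommGroup P] [Module S P] (hP : Module.Projective S P) (I : Ideal S)
    (p : P) (h : ∀ φ : P →ₗ[S] S, φ p ∈ I) : p ∈ I • (⊤ : Submodule S P) := by
  obtain ⟨s, hs⟩ := Module.projective_def.1 hP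
  rw [← hs p, Finsupp.linearCombination_apply, Finsupp.sum]
  exact Submodule.sum_mem _ fun i _ => Submodule.smul_mem_smul
    (h ((Finsupp.lapply i).comp s)) trivial

lemma notProj {x v : S} (hx : Prime x) (hv : ¬ x ∣ v) (N : ℕ) (J : Ideal S) (h1 : x ^ N ∈ J)
    (h2 : v ∈ J) (hJ : J ≠ ⊤) : ¬ Module.Projective S J := by
  intro hP
  have := coord hP (Ideal.span {x ^ N}) ⟨_, h1⟩ fun φ => by
    rw [Ideal.mem_span_singleton]
    refine hx.pow_dvd_of_dvd_mul_left N hv ⟨φ ⟨v, h2⟩, ?_⟩
    rw [← smul_eq_mul, ← smul_eq_mul, ← map_smul, ← map_smul]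
    congr 1
    exact Subtype.ext (mul_comm _ _)
  rw [Submodule.ideal_span_singleton_smul, Submodule.mem_smul_pointwise_iff_exists] at this
  obtain ⟨j, -, hj⟩ := this
  have h3 : x ^ N * j.1 = x ^ N * 1 := by rw [mul_one]; exact congrArg Subtype.val hj
  have h4 := mul_left_cancel₀ (pow_ne_zero N hx.ne_zero) h3
  exact hJ ((Ideal.eq_top_iff_one _).2 (h4 ▸ j.2))

lemma noRes {x y z u : S} (hx : Prime x) (hy : ¬ x ∣ y)
    (hz : ∀ g, z * g ∈ Ideal.span {x, y} → g ∈ Ideal.span {x, y}) (J : Ideal S) (hu : u ∉ J)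
    (h1 : x * u ∈ J) (h2 : y * u ∈ J) (h3 : z * u ∈ J) :
    ¬ ∃ (m : ℕ) (f : (Fin m → S) →ₗ[S] J), Function.Surjective f ∧
      Module.Projective S (LinearMap.ker f) := by
  rintro ⟨m, f, hf, hP⟩
  obtain ⟨α, hα⟩ := hf ⟨_, h1⟩
  obtain ⟨β, hβ⟩ := hf ⟨_, h2⟩
  obtain ⟨γ, hγ⟩ := hf ⟨_, h3⟩
  have k1 : y • α - x • β ∈ LinearMap.ker f := by
    rw [LinearMap.mem_ker, map_sub, map_smul, map_smul, hα, hβ]; ext; simp; ring
  have k2 : z • α - x • γ ∈ LinearMap.ker f := by
    rw [LinearMap.mem_ker, map_sub, map_smul, map_smul, hα, hγ]; ext; simp; ring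
  have k3 : z • β - y • γ ∈ LinearMap.ker f := by
    rw [LinearMap.mem_ker, map_sub, map_smul, map_smul, hβ, hγ]; ext; simp; ring
  have := coord hP (Ideal.span {x, y}) ⟨_, k1⟩ fun φ => hz _ (Ideal.mem_span_pair.2
    ⟨-φ ⟨_, k3⟩, φ ⟨_, k2⟩, by
      have e : z • (⟨_, k1⟩ : LinearMap.ker f) = y • ⟨_, k2⟩ - x • ⟨_, k3⟩ := by
        ext i; simp; ring
      have := congrArg φ e
      simp only [map_sub, map_smul, smul_eq_mul] at this
      linear_combination -this⟩)
  have h4 : ∀ p ∈ Ideal.span {x, y} • (⊤ : Submodule S (LinearMap.ker f)),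
      ∃ q q' : LinearMap.ker f, p = x • q + y • q' := fun p hp => by
    refine Submodule.smul_induction_on hp (fun r hr n _ => ?_) ?_
    · obtain ⟨a, b, rfl⟩ := Ideal.mem_span_pair.1 hr
      exact ⟨a • n, b • n, by rw [add_smul, smul_smul, smul_smul, mul_comm a, mul_comm b]⟩
    · rintro _ _ ⟨a, b, rfl⟩ ⟨a', b', rfl⟩
      exact ⟨a + a', b + b', by rw [smul_add, smul_add]; abel⟩
  obtain ⟨q, q', hq⟩ := h4 _ this
  have h5 : ∀ i, ∃ w, α i - q'.1 i = x * w := fun i => by
    refine (hx.dvd_or_dvd (a := y) ⟨β i + q.1 i, ?_⟩).resolve_left hy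
    have := congrFun (congrArg Subtype.val hq) i
    simp only [Pi.sub_apply, Pi.smul_apply, smul_eq_mul, Submodule.coe_add, Submodule.coe_smul,
      Pi.add_apply] at this
    linear_combination this
  choose w hw using h5
  have h6 : α = x • w + q'.1 := by ext i; simp [← hw i]
  rw [h6, map_add, map_smul, LinearMap.mem_ker.1 q'.2, add_zero] at hα
  have h7 : x * (f w).1 = x * u := congrArg Subtype.val hα
  exact hu (mul_left_cancel₀ hx.ne_zero h7 ▸ (f w).2)
end

end H5S
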