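import Pool.Agent.Lib.helper5.Stair

open MvPolynomial

namespace H5S

abbrev S3 := MvPolynomial (Fin 3) ℚ

noncomputable def St (α β : ℕ → ℕ) (N : ℕ) : Ideal S3 :=
  Ideal.span (Set.range fun i : Fin (N + 1) => X 0 ^ (i : ℕ) * (X 1 ^ α i * X 2 ^ β i))

lemma px : Prime (X 0 : S3) := X_prime

lemma ndvd (a b : ℕ) : ¬ (X 0 : S3) ∣ X 1 ^ a * X 2 ^ b := fun h => by
  rcases px.dvd_or_dvd h with h | h <;> simpa using px.dvd_of_dvd_pow h

lemma St_res (α β : ℕ → ℕ) (N : ℕ) (h1 : ∀ i < N, α (i + 1) ≤ α i) (h2 : ∀ i < N, β (i + 1) ≤ β i) :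
    ∃ (m : ℕ) (f : (Fin m → S3) →ₗ[S3] St α β N), Function.Surjective f ∧
      Module.Projective S3 (LinearMap.ker f) :=
  stair px N (fun i => X 1 ^ α i * X 2 ^ β i) (fun i => X 1 ^ (α i - α (i + 1)) * X 2 ^ (β i - β (i + 1)))
    (fun i hi => by
      rw [mul_mul_mul_comm, ← pow_add, ← pow_add, Nat.sub_add_cancel (h1 i hi),
        Nat.sub_add_cancel (h2 i hi)]) (fun _ _ => ndvd _ _) _ rfl

lemma gen (α β : ℕ → ℕ) (N i : ℕ) (hi : i ≤ N) : X 0 ^ i * (X 1 ^ α i * X 2 ^ β i) ∈ St α β N :=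
  Ideal.subset_span ⟨⟨i, by omega⟩, rfl⟩

def a0 (i : ℕ) : ℕ := if i = 3 then 3 else 5 - i
def b0 (i : ℕ) : ℕ := if i = 2 then 4 else 5 - i

noncomputable def Q : Ideal S3 := St a0 b0 5

noncomputable def M : Ideal S3 := Ideal.span {X 0, X 1 * X 2}

lemma M_pow (N : ℕ) : M ^ N ≤ St (N - ·) (N - ·) N := by
  induction N with
  | zero =>
    rw [pow_zero, Ideal.one_eq_top, top_le_iff, Ideal.eq_top_iff_one]
    simpa using gen (0 - ·) (0 - ·) 0 0 le_rfl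
  | succ N ih =>
    rw [pow_succ]
    refine (Ideal.mul_mono_left ih).trans ?_
    rw [M, St, Ideal.span_mul_span', Ideal.span_le]
    rintro _ ⟨_, ⟨i, rfl⟩, g, hg, rfl⟩
    have hi := i.2
    rw [SetLike.mem_coe]
    rcases hg with rfl | rfl
    · convert gen (N + 1 - ·) (N + 1 - ·) (N + 1) (i + 1) (by omega) using 1
      simp only [Nat.add_sub_add_right]; ring
    · convert gen (N + 1 - ·) (N + 1 - ·) (N + 1) i (by omega) using 1
      simp only [show N + 1 - (i : ℕ) = N - i + 1 by omega]; ring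

lemma Q_le : Q ≤ M ^ 5 := by
  rw [Q, St, Ideal.span_le]
  rintro _ ⟨i, rfl⟩
  have hi := i.2
  have h1 : (X 0 : S3) ∈ M := Ideal.subset_span (by simp)
  have h2 : (X 1 * X 2 : S3) ∈ M := Ideal.subset_span (by simp)
  have h3 := Ideal.mul_mem_mul (Ideal.pow_mem_pow h1 i) (Ideal.pow_mem_pow h2 (5 - i))
  rw [← pow_add, show (i : ℕ) + (5 - i) = 5 by omega] at h3
  refine Ideal.mem_of_dvd _ (mul_dvd_mul_left _ ?_) h3
  rw [mul_pow]
  refine mul_dvd_mul (pow_dvd_pow _ ?_) (pow_dvd_pow _ ?_)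
  · simp only [a0]; split_ifs <;> omega
  · simp only [b0]; split_ifs <;> omega

lemma g0 : (X 1 ^ 5 * X 2 ^ 5 : S3) ∈ Q := by simpa [a0, b0, Q] using gen a0 b0 5 0 (by omega)
lemma g1 : (X 0 * (X 1 ^ 4 * X 2 ^ 4) : S3) ∈ Q := by simpa [a0, b0, Q] using gen a0 b0 5 1 (by omega)
lemma g2 : (X 0 ^ 2 * (X 1 ^ 3 * X 2 ^ 4) : S3) ∈ Q := by simpa [a0, b0, Q] using gen a0 b0 5 2 (by omega)
lemma g3 : (X 0 ^ 3 * (X 1 ^ 3 * X 2 ^ 2) : S3) ∈ Q := by simpa [a0, b0, Q] using gen a0 b0 5 3 (by omega)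
lemma g4 : (X 0 ^ 4 * (X 1 * X 2) : S3) ∈ Q := by simpa [a0, b0, Q] using gen a0 b0 5 4 (by omega)
lemma g5 : (X 0 ^ 5 : S3) ∈ Q := by simpa [a0, b0, Q] using gen a0 b0 5 5 (by omega)

lemma Q_pow (t : ℕ) (ht : 3 ≤ t) : Q ^ t = St (5 * t - ·) (5 * t - ·) (5 * t) := by
  apply le_antisymm
  · refine (Ideal.pow_right_mono Q_le t).trans ?_
    rw [← pow_mul]; exact M_pow _
  · rw [St, Ideal.span_le]
    rintro _ ⟨⟨i, hi⟩, rfl⟩
    obtain ⟨b, c, e, h1, h2⟩ : ∃ b c e, b + c + e ≤ t ∧ b + 4 * c + 5 * e = i := by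
      have : i % 5 = 0 ∨ i % 5 = 1 ∨ (i % 5 = 2 ∧ i / 5 + 2 ≤ t) ∨ (i % 5 = 2 ∧ i / 5 + 1 = t) ∨
        (i % 5 = 3 ∧ 1 ≤ i / 5) ∨ i = 3 ∨ i % 5 = 4 := by omega
      rcases this with h | h | h | h | h | h | h
      exacts [⟨0, 0, i / 5, by omega⟩, ⟨1, 0, i / 5, by omega⟩, ⟨2, 0, i / 5, by omega⟩,
        ⟨0, 3, t - 3, by omega⟩, ⟨0, 2, i / 5 - 1, by omega⟩, ⟨3, 0, 0, by omega⟩,
        ⟨0, 1, i / 5, by omega⟩]
    obtain ⟨a, rfl⟩ := Nat.exists_eq_add_of_le h1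
    have h3 := Ideal.mul_mem_mul (Ideal.mul_mem_mul (Ideal.mul_mem_mul (Ideal.pow_mem_pow g1 b)
      (Ideal.pow_mem_pow g4 c)) (Ideal.pow_mem_pow g5 e)) (Ideal.pow_mem_pow g0 a)
    rw [← pow_add, ← pow_add, ← pow_add] at h3
    subst h2
    simp only [SetLike.mem_coe, show 5 * (b + c + e + a) - (b + 4 * c + 5 * e) = 4 * b + c + 5 * a by omega]
    convert h3 using 1
    ring

lemma pow_ne (t : ℕ) (ht : 1 ≤ t) : ¬ Module.Projective S3 ↥(Q ^ t) := by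
  refine notProj px (v := (X 1 ^ 5 * X 2 ^ 5) ^ t) (fun h => ndvd _ _ (px.dvd_of_dvd_pow h)) (5 * t) _
    (by rw [pow_mul]; exact Ideal.pow_mem_pow g5 t) (Ideal.pow_mem_pow g0 t) fun h => ?_
  have h1 : Q ^ t ≤ RingHom.ker (constantCoeff : S3 →+* ℚ) := by
    refine (Ideal.pow_le_self (by omega)).trans (Q_le.trans ((Ideal.pow_le_self (by omega)).trans ?_))
    rw [M, Ideal.span_le]
    rintro _ (rfl | rfl) <;> simp
  rw [h] at h1
  simpa using h1 (Submodule.mem_top (x := 1))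

lemma two : ¬ ∃ (m : ℕ) (f : (Fin m → S3) →ₗ[S3] ↥(Q ^ 2)), Function.Surjective f ∧
    Module.Projective S3 (LinearMap.ker f) := by
  classical
  refine noRes (x := X 0) (y := X 1) (z := X 2) (u := X 0 ^ 3 * (X 1 ^ 7 * X 2 ^ 7)) px (by simp)
    (fun g hg => ?_) _ (fun h => ?_) ?_ ?_ ?_
  · have : Ideal.span {(X 0 : S3), X 1} = Ideal.span (X '' {0, 1}) := by simp [Set.image_insert_eq]
    rw [this, mem_ideal_span_X_image] at hg ⊢
    intro m hm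
    have := hg (Finsupp.single 2 1 + m) (by rw [mem_support_iff, coeff_X_mul]; exact mem_support_iff.1 hm)
    simpa using this
  · have h1 : Q ^ 2 ≤ Ideal.span ((fun s => monomial s (1 : ℚ)) '' {s | 4 ≤ s 0 ∨ 8 ≤ s 1 ∨ 8 ≤ s 2}) := by
      rw [pow_two, Q, St, Ideal.span_mul_span', Ideal.span_le]
      rintro _ ⟨_, ⟨⟨i, hi⟩, rfl⟩, _, ⟨⟨j, hj⟩, rfl⟩, rfl⟩
      simp only [X_pow_eq_monomial, monomial_mul, mul_one]
      refine Ideal.subset_span ⟨_, ?_, rfl⟩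
      simp [a0, b0]
      split_ifs <;> omega
    have h2 := mem_ideal_span_monomial_image.1 (h1 h)
    simp only [X_pow_eq_monomial, monomial_mul, mul_one, support_monomial] at h2
    obtain ⟨s, hs, h3⟩ := h2 _ (by rw [if_neg one_ne_zero]; exact Finset.mem_singleton_self _)
    have e0 := h3 0
    have e1 := h3 1
    have e2 := h3 2
    simp at e0 e1 e2 hs
    omega
  · rw [pow_two]
    convert Ideal.mul_mem_left _ (X 1 * X 2) (Ideal.mul_mem_mul g4 g0) using 1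
    ring
  · rw [pow_two]
    convert Ideal.mul_mem_mul g3 g0 using 1
    ring
  · rw [pow_two]
    convert Ideal.mul_mem_mul g1 g2 using 1
    ring

lemma homog : ∃ s : Set S3, (∀ p ∈ s, ∃ d : ℕ, IsHomogeneous p d) ∧ Q = Ideal.span s := by
  refine ⟨_, ?_, rfl⟩
  rintro _ ⟨i, rfl⟩
  exact ⟨_, ((isHomogeneous_X ℚ _).pow _).mul (((isHomogeneous_X ℚ _).pow _).mul
    ((isHomogeneous_X ℚ _).pow _))⟩

lemma one : (∃ (m : ℕ) (f : (Fin m → S3) →ₗ[S3] Q), Function.Surjective f ∧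
    Module.Projective S3 (LinearMap.ker f)) ∧ ¬ Module.Projective S3 Q := by
  refine ⟨St_res _ _ _ (fun i hi => ?_) (fun i hi => ?_), ?_⟩
  · simp only [a0]; split_ifs <;> omega
  · simp only [b0]; split_ifs <;> omega
  · have := pow_ne 1 le_rfl
    rwa [pow_one] at this

lemma big (t : ℕ) (ht : 3 ≤ t) : (∃ (m : ℕ) (f : (Fin m → S3) →ₗ[S3] ↥(Q ^ t)), Function.Surjective f ∧
    Module.Projective S3 (LinearMap.ker f)) ∧ ¬ Module.Projective S3 ↥(Q ^ t) := by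
  refine ⟨?_, pow_ne t (by omega)⟩
  rw [Q_pow t ht]
  exact St_res _ _ _ (fun i _ => by omega) (fun i _ => by omega)

end H5S
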