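import Pool.Agent.Lib.helper5.Cube

/-! A sigma-discrete closed network in `C_p` of the Cantor cube of weight continuum. -/

open Set Topology Filter H5C PiNat

namespace H5SP

abbrev T := ℕ → Bool

abbrev X := T → Bool

def Disc {ι Y : Type*} [TopologicalSpace Y] (Z : ι → Set Y) : Prop :=
  ∀ y, ∃ U ∈ 𝓝 y, {i | (Z i ∩ U).Nonempty}.Subsingleton

def Small (f : Cp X) (B : Set T) (ε : ℝ) : Prop :=
  ∀ x y : X, (∀ t ∉ B, x t = y t) → dist (f.1 x) (f.1 y) ≤ ε

lemma ev (x : X) : Continuous fun f : Cp X => f.1 x :=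
  (continuous_apply x).comp continuous_subtype_val

lemma small_closed (B : Set T) (ε : ℝ) : IsClosed {f | Small f B ε} := by
  simp only [Small, ofPred_forall]
  exact isClosed_iInter fun x => isClosed_iInter fun y => isClosed_iInter fun _ =>
    isClosed_le ((ev x).dist (ev y)) continuous_const

lemma face {U : Set X} (hU : IsOpen U) {x : X} (hx : x ∈ U) :
    ∃ G : Finset T, ∀ y : X, (∀ t ∈ G, y t = x t) → y ∈ U := by
  obtain ⟨G, t, h1, h2⟩ := isOpen_pi_iff.1 hU x hx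
  exact ⟨G, fun y hy => h2 fun i hi => by rw [hy i hi]; exact (h1 i hi).2⟩

lemma unif (f : Cp X) {ε : ℝ} (hε : 0 < ε) : ∃ G : Finset T, Small f (↑G)ᶜ ε := by
  classical
  choose G hG using fun x : X => face (Metric.isOpen_ball.preimage f.2)
    (show x ∈ f.1 ⁻¹' Metric.ball (f.1 x) (ε / 2) from Metric.mem_ball_self (half_pos hε))
  obtain ⟨S, hS⟩ := isCompact_univ.elim_finite_subcover
    (fun x : X => {y : X | ∀ t ∈ G x, y t = x t}) (fun x => by
      simp only [ofPred_forall]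
      exact isOpen_biInter_finset fun t _ =>
        (isOpen_discrete {x t}).preimage (f := fun y : X => y t) (continuous_apply t))
    fun x _ => mem_iUnion.2 ⟨x, fun _ _ => rfl⟩
  refine ⟨S.biUnion G, fun x y h => ?_⟩
  obtain ⟨z, hz, hx⟩ := mem_iUnion₂.1 (hS (mem_univ x))
  have h1 := hG z x hx
  have h2 := hG z y fun t ht => by
    rw [← h t (by simpa using ⟨z, hz, ht⟩)]; exact hx t ht
  have := dist_triangle_right (f.1 x) (f.1 y) (f.1 z)
  simp only [mem_preimage, Metric.mem_ball] at h1 h2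
  linarith

lemma sep (G : Finset T) : ∃ k, ∀ t ∈ G, ∀ u ∈ G, res t k = res u k → t = u := by
  refine Eventually.exists (f := atTop) ((eventually_all_finset G).2 fun t _ =>
    (eventually_all_finset G).2 fun u _ => ?_)
  by_cases h : t = u
  · exact Eventually.of_forall fun _ _ => h
  · obtain ⟨m, hm⟩ := Function.ne_iff.1 h
    filter_upwards [eventually_gt_atTop m] with k hk e
    exact (hm (res_eq_res.1 e hk)).elim

def D (p : ℕ × Finset (List Bool)) : X := fun t => decide (res t p.1 ∈ p.2)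

lemma D_app (G : Finset T) (x : X) : ∃ p, ∀ t ∈ G, D p t = x t := by
  classical
  obtain ⟨k, hk⟩ := sep G
  refine ⟨(k, (G.filter fun t => x t = true).image fun t => res t k), fun t ht => ?_⟩
  rw [Bool.eq_iff_iff]
  simp only [D, decide_eq_true_eq, Finset.mem_image, Finset.mem_filter]
  exact ⟨fun ⟨u, hu, e⟩ => hk u hu.1 t ht e ▸ hu.2, fun h => ⟨t, ⟨ht, h⟩, rfl⟩⟩

abbrev Gad := List Bool × ℕ × (ℕ × Finset (List Bool)) × (ℕ × Finset (List Bool))

noncomputable def eps (m : ℕ) : ℝ := 1 / (m + 1)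

lemma eps_pos (m : ℕ) : 0 < eps m := Nat.one_div_pos_of_nat

def Nb (s : List Bool) : Set T := {t | res t s.length = s}

def pw (γ : Gad) : X := fun t => if res t γ.1.length = γ.1 then D γ.2.2.2 t else D γ.2.2.1 t

def Z (γ : Gad) (u : T) : Set (Cp X) :=
  {f | 3 * eps γ.2.1 ≤ dist (f.1 (D γ.2.2.1)) (f.1 (pw γ))} ∩
    {f | Small f (Nb γ.1 \ {u}) (eps γ.2.1)}

lemma W_closed (γ : Gad) :
    IsClosed {f : Cp X | 3 * eps γ.2.1 ≤ dist (f.1 (D γ.2.2.1)) (f.1 (pw γ))} :=
  isClosed_le continuous_const ((ev _).dist (ev _))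

lemma Z_closed (γ : Gad) (u : T) : IsClosed (Z γ u) := (W_closed γ).inter (small_closed _ _)

lemma pw_off (γ : Gad) {t : T} (h : t ∉ Nb γ.1) : D γ.2.2.1 t = pw γ t := (if_neg h).symm

lemma Z_uniq {γ : Gad} {u v : T} {f : Cp X} (hu : f ∈ Z γ u) (hv : f ∈ Z γ v) : u = v := by
  classical
  by_contra hne
  have h1 := hu.2 (D γ.2.2.1) (Function.update (pw γ) u (D γ.2.2.1 u)) fun t ht => by
    by_cases e : t = u
    · rw [e, Function.update_self]
    · rw [Function.update_of_ne e]; exact pw_off γ fun h => ht ⟨h, e⟩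
  have h2 := hv.2 (Function.update (pw γ) u (D γ.2.2.1 u)) (pw γ) fun t ht => by
    by_cases e : t = u
    · rw [e, Function.update_self]; exact pw_off γ fun h => ht ⟨e ▸ h, e ▸ hne⟩
    · rw [Function.update_of_ne e]
  have h3 : 3 * eps γ.2.1 ≤ _ := hu.1
  have := dist_triangle (f.1 (D γ.2.2.1)) (f.1 (Function.update (pw γ) u (D γ.2.2.1 u)))
    (f.1 (pw γ))
  linarith [eps_pos γ.2.1]

lemma Z_disc (γ : Gad) : Disc (Z γ) := by
  classical
  intro g
  by_cases hW : 3 * eps γ.2.1 ≤ dist (g.1 (D γ.2.2.1)) (g.1 (pw γ))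
  · obtain ⟨G, hG⟩ := face (U := {y | eps γ.2.1 < dist (g.1 (D γ.2.2.1)) (g.1 y)})
      (isOpen_lt continuous_const (continuous_const.dist g.2)) (x := pw γ)
      (show eps γ.2.1 < _ by linarith [eps_pos γ.2.1])
    have h1 := hG (G.piecewise (pw γ) (D γ.2.2.1)) fun t ht => G.piecewise_eq_of_mem _ _ ht
    refine ⟨{f | eps γ.2.1 < dist (f.1 (D γ.2.2.1)) (f.1 (G.piecewise (pw γ) (D γ.2.2.1)))} ∩
      ⋂ u ∈ G.filter (g ∉ Z γ ·), (Z γ u)ᶜ, inter_mem
        ((isOpen_lt continuous_const ((ev _).dist (ev _))).mem_nhds h1)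
        ((biInter_finset_mem _).2 fun u hu =>
          (Z_closed γ u).isOpen_compl.mem_nhds (Finset.mem_filter.1 hu).2), ?_⟩
    have : ∀ u, (Z γ u ∩ ({f | eps γ.2.1 < dist (f.1 (D γ.2.2.1))
        (f.1 (G.piecewise (pw γ) (D γ.2.2.1)))} ∩
      ⋂ u ∈ G.filter (g ∉ Z γ ·), (Z γ u)ᶜ)).Nonempty → g ∈ Z γ u := by
      rintro u ⟨f, hf, h2, h3⟩
      by_contra hg
      by_cases hu : u ∈ G
      · exact mem_iInter₂.1 h3 u (Finset.mem_filter.2 ⟨hu, hg⟩) hf
      · refine not_le.2 h2 (hf.2 _ _ fun t ht => ?_)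
        by_cases e : t ∈ G
        · rw [G.piecewise_eq_of_mem _ _ e]
          exact pw_off γ fun h => ht ⟨h, fun e' => hu (e' ▸ e)⟩
        · rw [G.piecewise_eq_of_notMem _ _ e]
    exact fun u hu v hv => Z_uniq (this u hu) (this v hv)
  · exact ⟨_, (W_closed γ).isOpen_compl.mem_nhds hW, fun u ⟨f, hf, h⟩ => (h hf.1).elim⟩

def Ess (f : Cp X) (u : T) : Prop := ∃ x y : X, (∀ t ≠ u, x t = y t) ∧ f.1 x ≠ f.1 y

lemma Z_ess {f : Cp X} {u : T} (h : Ess f u) : ∃ γ, f ∈ Z γ u := by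
  classical
  obtain ⟨x, y, h1, h2⟩ := h
  obtain ⟨m, hm⟩ := exists_nat_one_div_lt (div_pos (dist_pos.2 h2) (by norm_num : (0 : ℝ) < 5))
  obtain ⟨G, hG⟩ := unif f (eps_pos m)
  obtain ⟨k, hk⟩ := sep (insert u G)
  obtain ⟨p, hp⟩ := D_app G x
  obtain ⟨q, hq⟩ := D_app G y
  refine ⟨(res u k, m, p, q), ?_, fun a b hab => hG a b fun t ht => hab t fun h => h.2 ?_⟩
  · have e1 := hG x (D p) fun t ht => (hp t (by simpa using ht)).symm
    have e2 := hG (pw (res u k, m, p, q)) y fun t ht => by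
      have ht' : t ∈ G := by simpa using ht
      unfold pw
      split_ifs with h
      · exact hq t ht'
      · rw [← h1 t fun e => h (by simp [e, res_length])]; exact hp t ht'
    have := dist_triangle4 (f.1 x) (f.1 (D p)) (f.1 (pw (res u k, m, p, q))) (f.1 y)
    change 3 * eps m ≤ dist (f.1 (D p)) _
    change eps m < _ at hm
    linarith
  · refine hk t (Finset.mem_insert_of_mem (by simpa using ht)) u (Finset.mem_insert_self _ _) ?_
    simpa [Nb, res_length] using h.1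

lemma iness (f : Cp X) (H : Finset T) : (∀ u ∈ H, ¬ Ess f u) → ∀ y z : X,
    (∀ t ∉ H, y t = z t) → f.1 y = f.1 z := by
  classical
  induction H using Finset.induction_on with
  | empty => exact fun _ y z h => by rw [funext fun t => h t (by simp)]
  | insert u H _ ih =>
    intro h y z hyz
    rw [ih (fun v hv => h v (Finset.mem_insert_of_mem hv)) y (Function.update z u (y u))
      fun t ht => ?_]
    · by_contra hne
      exact h u (Finset.mem_insert_self _ _) ⟨_, _, fun t ht => Function.update_of_ne ht _ _, hne⟩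
    · by_cases e : t = u
      · rw [e, Function.update_self]
      · rw [Function.update_of_ne e]; exact hyz t (by simp [e, ht])

lemma unif_ess (f : Cp X) {ε : ℝ} (hε : 0 < ε) :
    ∃ F : Finset T, Small f (↑F)ᶜ ε ∧ ∀ u ∈ F, Ess f u := by
  classical
  obtain ⟨G, hG⟩ := unif f hε
  refine ⟨G.filter (Ess f), fun x y h => ?_, fun u hu => (Finset.mem_filter.1 hu).2⟩
  rw [← iness f (G.filter (¬ Ess f ·)) (fun u hu => (Finset.mem_filter.1 hu).2)
    (G.piecewise x y) y fun t ht => ?_]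
  · exact hG _ _ fun t ht => (G.piecewise_eq_of_mem _ _ (by simpa using ht)).symm
  · by_cases e : t ∈ G
    · rw [G.piecewise_eq_of_mem _ _ e]
      exact h t (by simpa [e] using ht)
    · rw [G.piecewise_eq_of_notMem _ _ e]

abbrev Par := Σ n : ℕ, (Fin n → Gad) × ℕ × (Finset (Fin n) → ℚ)

open Classical in
noncomputable def pt {n : ℕ} (t : Fin n → T) (σ : Finset (Fin n)) : X :=
  fun u => decide (∃ i ∈ σ, t i = u)

def N (π : Par) (t : Fin π.1 → T) : Set (Cp X) :=
  (⋂ i, Z (π.2.1 i) (t i)) ∩ ({f | Small f (range t)ᶜ (eps π.2.2.1)} ∩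
    ⋂ σ, {f | dist (f.1 (pt t σ)) (π.2.2.2 σ) ≤ eps π.2.2.1})

lemma N_closed (π : Par) (t : Fin π.1 → T) : IsClosed (N π t) :=
  (isClosed_iInter fun _ => Z_closed _ _).inter ((small_closed _ _).inter
    (isClosed_iInter fun _ => isClosed_le ((ev _).dist continuous_const) continuous_const))

lemma N_disc (π : Par) : Disc (N π) := fun g => by
  choose U h1 h2 using fun i => Z_disc (π.2.1 i) g
  refine ⟨⋂ i, U i, iInter_mem.2 h1, fun s ⟨f, hf, hf'⟩ t ⟨k, hk, hk'⟩ => funext fun i =>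
    h2 i ⟨f, mem_iInter.1 hf.1 i, mem_iInter.1 hf' i⟩ ⟨k, mem_iInter.1 hk.1 i, mem_iInter.1 hk' i⟩⟩

lemma N_near {π : Par} {t : Fin π.1 → T} {f g : Cp X} (hf : f ∈ N π t) (hg : g ∈ N π t) (x : X) :
    dist (g.1 x) (f.1 x) ≤ 4 * eps π.2.2.1 := by
  classical
  have e : ∀ u ∉ (range t)ᶜ, x u = pt t (Finset.univ.filter fun i => x (t i) = true) u := by
    intro u hu
    obtain ⟨j, rfl⟩ := not_not.1 hu
    rw [Bool.eq_iff_iff]
    simp only [pt, decide_eq_true_eq, Finset.mem_filter, Finset.mem_univ, true_and]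
    exact ⟨fun h => ⟨j, h, rfl⟩, fun ⟨i, h, e⟩ => e ▸ h⟩
  have h1 := hf.2.1 _ _ e
  have h2 := hg.2.1 _ _ e
  have h3 : dist _ _ ≤ _ := mem_iInter.1 hf.2.2 (Finset.univ.filter fun i => x (t i) = true)
  have h4 : dist _ _ ≤ _ := mem_iInter.1 hg.2.2 (Finset.univ.filter fun i => x (t i) = true)
  simp only [Real.dist_eq, abs_le] at *
  constructor <;> linarith [h1.1, h1.2, h2.1, h2.2, h3.1, h3.2, h4.1, h4.2]

theorem net {U : Set (Cp X)} (hU : IsOpen U) {f : Cp X} (hf : f ∈ U) :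
    ∃ π t, f ∈ N π t ∧ N π t ⊆ U := by
  obtain ⟨G, ε, hε, hG⟩ := cp_nhds hU hf
  obtain ⟨m, hm⟩ := exists_nat_one_div_lt (div_pos hε (by norm_num : (0 : ℝ) < 4))
  obtain ⟨F, h1, h2⟩ := unif_ess f (eps_pos m)
  let t : Fin F.card → T := fun i => (F.equivFin.symm i).1
  have ht : range t = F := by
    ext u
    exact ⟨fun ⟨i, e⟩ => e ▸ (F.equivFin.symm i).2, fun h => ⟨F.equivFin ⟨u, h⟩, by simp [t]⟩⟩
  choose γ hγ using fun i => Z_ess (h2 (t i) (F.equivFin.symm i).2)
  choose q hq using fun σ => exists_rat_near (f.1 (pt t σ)) (eps_pos m)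
  have hN : f ∈ N ⟨F.card, γ, m, q⟩ t :=
    ⟨mem_iInter.2 hγ, by rw [ht]; exact h1, mem_iInter.2 fun σ => (hq σ).le⟩
  refine ⟨⟨F.card, γ, m, q⟩, t, hN, fun g hg => hG g fun x _ => (N_near hN hg x).trans_lt ?_⟩
  change eps m < _ at hm
  change 4 * eps m < _
  linarith

theorem not_metr : ¬ TopologicalSpace.MetrizableSpace X := by
  intro h
  obtain ⟨U, hU⟩ := (𝓝 (fun _ => false : X)).exists_antitone_basis
  choose G hG using fun n => face isOpen_interior (mem_interior_iff_mem_nhds.2 (hU.mem n))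
  have : Uncountable T := Cardinal.aleph0_lt_mk_iff.1 (by simp [Cardinal.aleph0_lt_continuum])
  refine not_countable_univ ((countable_iUnion fun n => (G n).countable_toSet).mono fun t _ => ?_)
  classical
  obtain ⟨n, hn⟩ := hU.mem_iff.1 (((isOpen_discrete {false}).preimage (f := fun y : X => y t)
    (continuous_apply t)).mem_nhds rfl)
  refine mem_iUnion.2 ⟨n, by_contra fun ht => ?_⟩
  have := hn (interior_subset (hG n (fun u => decide (u = t)) fun u hu =>
    decide_eq_false fun e => ht (e ▸ hu)))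
  simp at this

end H5SP
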