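import Pool.Agent.Lib.helper5.Cube

/-! No universal compactum of weight continuum for t-embeddings. -/

open Set Topology Filter H5C PiNat Cardinal

namespace H5TU

abbrev Br := ℕ → Bool

abbrev Cb := List Bool ⊕ Br → Bool

open Classical in
noncomputable def pt (A : Set Br) (s : List Bool) : Cb :=
  Sum.elim (fun t => decide (t = s)) (fun a => decide (a ∈ A ∧ s ∈ range (res a)))

lemma pt_false {A : Set Br} {s : List Bool} {a : Br} (h : s ∉ range (res a)) :
    pt A s (Sum.inr a) = false := by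
  simp only [pt, Sum.elim_inr, decide_eq_false_iff_not]
  exact fun h' => h h'.2

def K (A : Set Br) : Set Cb := closure (range (pt A))

instance (A : Set Br) : CompactSpace (K A) :=
  isCompact_iff_compactSpace.1 isClosed_closure.isCompact

noncomputable def nd (A : Set Br) (s : List Bool) : K A := ⟨pt A s, subset_closure ⟨s, rfl⟩⟩

lemma nd_inj (A : Set Br) : Function.Injective (nd A) := fun s t h => by
  have := congrFun (congrArg Subtype.val h) (Sum.inl s)
  simpa [nd, pt] using this

lemma cl_false (i : List Bool ⊕ Br) : IsClosed {x : Cb | x i = false} :=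
  isClosed_eq (continuous_apply i) continuous_const

lemma fin_two {a b : Br} (h : a ≠ b) : (range (res a) ∩ range (res b)).Finite := by
  obtain ⟨m, hm⟩ := Function.ne_iff.1 h
  refine ((finite_le_nat m).image (res a)).subset ?_
  rintro _ ⟨⟨n, rfl⟩, k, hk⟩
  obtain rfl : k = n := by simpa [res_length] using congrArg List.length hk
  exact ⟨k, not_lt.1 fun hlt => hm (res_eq_res.1 hk hlt).symm, rfl⟩

lemma node_inl {A : Set Br} (x : K A) {s : List Bool} (h : x.1 (Sum.inl s) = true) :
    x = nd A s := by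
  have : K A ⊆ {x : Cb | x (Sum.inl s) = false} ∪ {pt A s} := by
    refine closure_minimal ?_ ((cl_false _).union isClosed_singleton)
    rintro _ ⟨t, rfl⟩
    by_cases e : s = t
    · exact Or.inr (by rw [e]; rfl)
    · exact Or.inl (by simp [pt, e])
  rcases this x.2 with h' | h'
  · simp [h] at h'
  · exact Subtype.ext h'

lemma node_two {A : Set Br} (x : K A) {a b : Br} (hab : a ≠ b) (ha : x.1 (Sum.inr a) = true)
    (hb : x.1 (Sum.inr b) = true) : x ∈ range (nd A) := by
  have : K A ⊆ ({x : Cb | x (Sum.inr a) = false} ∪ {x : Cb | x (Sum.inr b) = false}) ∪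
      pt A '' (range (res a) ∩ range (res b)) := by
    refine closure_minimal ?_ (((cl_false _).union (cl_false _)).union
      ((fin_two hab).image _).isClosed)
    rintro _ ⟨t, rfl⟩
    by_cases e1 : t ∈ range (res a)
    · by_cases e2 : t ∈ range (res b)
      · exact Or.inr ⟨t, ⟨e1, e2⟩, rfl⟩
      · exact Or.inl (Or.inr (pt_false e2))
    · exact Or.inl (Or.inl (pt_false e1))
  rcases this x.2 with (h' | h') | ⟨t, -, h'⟩
  · simp [ha] at h'
  · simp [hb] at h'
  · exact ⟨t, Subtype.ext h'⟩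

lemma zero_tend {B : Set Br} {a : Br} (ha : a ∉ B) :
    Tendsto (fun n => pt B (res a n)) atTop (𝓝 fun _ => false) := by
  refine tendsto_pi_nhds.2 fun i => tendsto_const_nhds.congr' ?_
  rcases i with s | b
  · filter_upwards [eventually_gt_atTop s.length] with n hn
    have : s ≠ res a n := fun e => by rw [e, res_length] at hn; exact lt_irrefl _ hn
    simp [pt, this]
  · by_cases hb : b ∈ B
    · have hab : a ≠ b := fun e => ha (e ▸ hb)
      obtain ⟨m, hm⟩ := Function.ne_iff.1 hab
      filter_upwards [eventually_gt_atTop m] with n hn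
      have : res a n ∉ range (res b) := by
        rintro ⟨k, hk⟩
        obtain rfl : k = n := by simpa [res_length] using congrArg List.length hk
        exact hm (res_eq_res.1 hk hn).symm
      exact (pt_false this).symm
    · exact Eventually.of_forall fun n => by simp [pt, hb]

noncomputable def co (A : Set Br) (i : List Bool ⊕ Br) : Cp (K A) :=
  ⟨fun x => if x.1 i = true then 1 else 0,
    (continuous_of_discreteTopology (f := fun b : Bool => if b = true then (1 : ℝ) else 0)).comp
      ((continuous_apply i).comp continuous_subtype_val)⟩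

noncomputable def chi (A : Set Br) (F : Finset (List Bool)) : Cp (K A) :=
  ⟨fun x => ∑ s ∈ F, (co A (Sum.inl s)).1 x,
    continuous_finsetSum _ fun s _ => (co A (Sum.inl s)).2⟩

lemma chi_nd (A : Set Br) (F : Finset (List Bool)) (s : List Bool) :
    (chi A F).1 (nd A s) = if s ∈ F then 1 else 0 := by
  simp only [chi, co, nd, pt, Sum.elim_inl, decide_eq_true_eq]
  convert Finset.sum_ite_eq' F s fun _ => (1 : ℝ)

lemma chi_non {A : Set Br} (F : Finset (List Bool)) {x : K A} (hx : x ∉ range (nd A)) :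
    (chi A F).1 x = 0 := by
  refine Finset.sum_eq_zero fun s _ => ?_
  have : ¬ x.1 (Sum.inl s) = true := fun h => hx ⟨s, (node_inl x h).symm⟩
  simp [co, this]

open Classical in
lemma co_nd {A : Set Br} {a : Br} (ha : a ∈ A) (s : List Bool) :
    (co A (Sum.inr a)).1 (nd A s) = if s ∈ range (res a) then 1 else 0 := by
  simp only [co, nd, pt, Sum.elim_inr, ha, true_and, decide_eq_true_eq]

lemma near {X : Type*} [TopologicalSpace X] {Φ : Cp X → ℝ} (h : Continuous Φ) (f : Cp X) {ε : ℝ}
    (hε : 0 < ε) : ∃ G : Finset X, ∀ g : Cp X, (∀ x ∈ G, g.1 x = f.1 x) →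
      dist (Φ g) (Φ f) < ε := by
  obtain ⟨G, δ, hδ, hG⟩ := cp_nhds (Metric.isOpen_ball.preimage h)
    (show f ∈ Φ ⁻¹' Metric.ball (Φ f) ε from Metric.mem_ball_self hε)
  exact ⟨G, fun g hg => hG g fun x hx => by rw [hg x hx, dist_self]; exact hδ⟩

open Classical in
lemma key (A : Set Br) (Φ : List Bool → Cp (K A) → ℝ) (hΦ : ∀ s, Continuous (Φ s))
    (hD : ∀ s F, Φ s (chi A F) = if s ∈ F then 1 else 0) :
    ∃ Z : Set Br, Z.Countable ∧ ∀ a ∈ A, a ∉ Z → ∀ s,
      Φ s (co A (Sum.inr a)) = if s ∈ range (res a) then 1 else 0 := by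
  choose G hG using fun (p : List Bool × Finset (List Bool) × ℕ) =>
    near (hΦ p.1) (chi A p.2.1) (Nat.one_div_pos_of_nat (n := p.2.2))
  refine ⟨⋃ p, ⋃ x ∈ (G p : Set (K A)), {a | x ∉ range (nd A) ∧ x.1 (Sum.inr a) = true},
    countable_iUnion fun p => (G p).countable_toSet.biUnion fun x _ =>
      Set.Subsingleton.countable fun a ha b hb => by_contra fun hab =>
        ha.1 (node_two x hab ha.2 hb.2), fun a ha hZ s => ?_⟩
  refine eq_of_forall_dist_le fun ε hε => ?_
  obtain ⟨k, hk⟩ := exists_nat_one_div_lt (half_pos hε)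
  obtain ⟨F0, hF0⟩ := near (hΦ s) (co A (Sum.inr a)) (half_pos hε)
  set F : Finset (List Bool) :=
    (insert s (F0.preimage (nd A) (nd_inj A).injOn)).filter (· ∈ range (res a)) with hF
  obtain ⟨f, fc, hf, -⟩ := interp (F0 ∪ G (s, F, k))
    (fun x => if x ∈ F0 then (co A (Sum.inr a)).1 x else (chi A F).1 x) isClosed_empty
    (fun _ _ => notMem_empty _)
  have h1 := hF0 ⟨f, fc⟩ fun x hx => by
    rw [show (⟨f, fc⟩ : Cp (K A)).1 x = f x from rfl, hf x (Finset.mem_union_left _ hx), if_pos hx]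
  have h2 := hG (s, F, k) ⟨f, fc⟩ fun x hx => by
    rw [show (⟨f, fc⟩ : Cp (K A)).1 x = f x from rfl, hf x (Finset.mem_union_right _ hx)]
    split_ifs with h0
    · by_cases hn : x ∈ range (nd A)
      · obtain ⟨t, rfl⟩ := hn
        rw [co_nd ha, chi_nd]
        simp [hF, h0]
      · rw [chi_non _ hn]
        have : ¬ x.1 (Sum.inr a) = true := fun h =>
          hZ (mem_iUnion.2 ⟨(s, F, k), mem_iUnion₂.2 ⟨x, hx, hn, h⟩⟩)
        simp [co, this]
    · rfl
  have h3 : Φ s (chi A F) = if s ∈ range (res a) then 1 else 0 := by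
    rw [hD]; simp [hF]
  rw [← h3]
  have := dist_triangle_left (Φ s (co A (Sum.inr a))) (Φ s (chi A F)) (Φ s ⟨f, fc⟩)
  simp only at h2
  linarith

lemma clash {U : Type*} [TopologicalSpace U] {A B : Set Br} (hAB : ¬ (A \ B).Countable)
    (e : K B → U) (he : Continuous e) (φ : Cp (K A) → Cp U) (hφ : Continuous φ)
    (hD : ∀ s F, (φ (chi A F)).1 (e (nd B s)) = if s ∈ F then 1 else 0) : False := by
  classical
  obtain ⟨Z, hZ, h⟩ := key A (fun s f => (φ f).1 (e (nd B s)))
    (fun s => (continuous_apply _).comp (continuous_subtype_val.comp hφ)) (by convert hD)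
  have hinf : ((A \ B) \ Z).Infinite := fun hf =>
    hAB ((hf.countable.union hZ).mono fun x hx => by by_cases x ∈ Z <;> simp_all)
  obtain ⟨a, ha, b, hb, hab⟩ := hinf.nontrivial
  have hz : (fun _ => false : Cb) ∈ K B :=
    mem_closure_of_tendsto (zero_tend ha.1.2) (Eventually.of_forall fun n => ⟨_, rfl⟩)
  have t : ∀ c ∉ B, Tendsto (fun n => (φ (co A (Sum.inr a))).1 (e (nd B (res c n)))) atTop
      (𝓝 ((φ (co A (Sum.inr a))).1 (e ⟨_, hz⟩))) := fun c hc =>
    (((φ _).2.comp he).tendsto _).comp (tendsto_subtype_rng.2 (zero_tend hc))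
  have h1 : (φ (co A (Sum.inr a))).1 (e ⟨_, hz⟩) = 1 :=
    tendsto_nhds_unique (t a ha.1.2) (tendsto_const_nhds.congr fun n => by
      rw [h a ha.1.1 ha.2, if_pos ⟨n, rfl⟩])
  have h0 : (φ (co A (Sum.inr a))).1 (e ⟨_, hz⟩) = 0 := by
    refine tendsto_nhds_unique (t b hb.1.2) (tendsto_const_nhds.congr' ?_)
    obtain ⟨m, hm⟩ := Function.ne_iff.1 hab
    filter_upwards [eventually_gt_atTop m] with n hn
    rw [h a ha.1.1 ha.2, if_neg]
    rintro ⟨k, hk⟩
    obtain rfl : k = n := by simpa [res_length] using congrArg List.length hk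
    exact hm (res_eq_res.1 hk hn)
  exact one_ne_zero (h1.symm.trans h0)

lemma card_fin {α : Type} (h : #α ≤ 𝔠) : #(Finset α) ≤ 𝔠 := by
  classical
  exact (mk_le_of_surjective List.toFinset_surjective).trans
    ((mk_list_le_max α).trans (max_le aleph0_le_continuum h))

lemma card_cp {U : Type} [TopologicalSpace U] [CompactSpace U] {B : Set (Set U)}
    (hB : TopologicalSpace.IsTopologicalBasis B) (hc : #B ≤ 𝔠) : #(Cp U) ≤ 𝔠 := by
  have : ∀ (f : Cp U) (p : ℚ × ℚ), ∃ T : Finset B, (p.1 < p.2 →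
      f.1 ⁻¹' Iic (p.1 : ℝ) ⊆ ⋃ b ∈ T, b.1) ∧ ∀ b ∈ T, b.1 ⊆ f.1 ⁻¹' Iio (p.2 : ℝ) := by
    intro f p
    by_cases hp : p.1 < p.2
    · obtain ⟨T, hT⟩ := (isClosed_Iic.preimage f.2).isCompact.elim_finite_subcover
        (fun b : {b : B // b.1 ⊆ f.1 ⁻¹' Iio (p.2 : ℝ)} => b.1.1) (fun b => hB.isOpen b.1.2)
        (s := f.1 ⁻¹' Iic (p.1 : ℝ)) fun x hx => by
          obtain ⟨v, hv, h1, h2⟩ := hB.exists_subset_of_mem_open
            (show x ∈ f.1 ⁻¹' Iio (p.2 : ℝ) from
              lt_of_le_of_lt (b := (p.1 : ℝ)) hx (Rat.cast_lt.2 hp))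
            (isOpen_Iio.preimage f.2)
          exact mem_iUnion.2 ⟨⟨⟨v, hv⟩, h2⟩, h1⟩
      classical
      refine ⟨T.image Subtype.val, fun _ x hx => ?_, fun b hb => ?_⟩
      · obtain ⟨b, hb, hx⟩ := mem_iUnion₂.1 (hT hx)
        exact mem_iUnion₂.2 ⟨b.1, Finset.mem_image_of_mem _ hb, hx⟩
      · obtain ⟨c, -, rfl⟩ := Finset.mem_image.1 hb
        exact c.2
    · exact ⟨∅, fun h => (hp h).elim, by simp⟩
  choose T h1 h2 using this
  have le : ∀ f g, T f = T g → ∀ x, g.1 x ≤ f.1 x := fun f g e x => not_lt.1 fun hlt => by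
    obtain ⟨p, hp1, hp2⟩ := exists_rat_btwn hlt
    obtain ⟨q, hq1, hq2⟩ := exists_rat_btwn hp2
    obtain ⟨b, hb, hx⟩ := mem_iUnion₂.1 (h1 f (p, q) (by exact_mod_cast hq1) (le_of_lt hp1))
    exact lt_asymm hq2 (h2 g (p, q) b (e ▸ hb) hx)
  have inj : Function.Injective T := fun f g e =>
    Subtype.ext (funext fun x => le_antisymm (le g f e.symm x) (le f g e x))
  refine (mk_le_of_injective inj).trans ?_
  rw [← power_def]
  refine (power_le_power_right (card_fin hc)).trans ?_
  simp

lemma basis_K (A : Set Br) :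
    ∃ B : Set (Set (K A)), TopologicalSpace.IsTopologicalBasis B ∧ #B ≤ 𝔠 := by
  classical
  let b : Finset (List Bool ⊕ Br) × Finset (List Bool ⊕ Br) → Set (K A) := fun p =>
    {x | ∀ i ∈ p.1, x.1 i = decide (i ∈ p.2)}
  refine ⟨range b, TopologicalSpace.isTopologicalBasis_of_isOpen_of_nhds ?_ ?_, ?_⟩
  · rintro _ ⟨p, rfl⟩
    simp only [b, ofPred_forall]
    exact isOpen_biInter_finset fun i _ =>
      (isOpen_discrete {decide (i ∈ p.2)}).preimage (f := fun x : K A => x.1 i)
        ((continuous_apply i).comp continuous_subtype_val)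
  · intro x U hx hU
    obtain ⟨V, hV, rfl⟩ := isOpen_induced_iff.1 hU
    obtain ⟨G, t, h1, h2⟩ := isOpen_pi_iff.1 hV x.1 hx
    have e : ∀ i ∈ G, decide (i ∈ G.filter fun i => x.1 i = true) = x.1 i := fun i hi => by
      simp [hi]
    exact ⟨_, ⟨(G, G.filter fun i => x.1 i = true), rfl⟩, fun i hi => (e i hi).symm,
      fun y hy => h2 fun i hi => by rw [hy i hi, e i hi]; exact (h1 i hi).2⟩
  · have : #(Finset (List Bool ⊕ Br)) ≤ 𝔠 := card_fin (by simp)
    refine mk_range_le.trans ?_
    rw [mk_prod, lift_id]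
    exact (mul_le_mul' this this).trans (by simp)

def AT (T : Set Br) : Set Br := {x | (fun n => x (2 * n)) ∈ T}

lemma AT_unc {T S : Set Br} {t : Br} (h1 : t ∈ T) (h2 : t ∉ S) : ¬ (AT T \ AT S).Countable := by
  intro h
  let j : Br → Br := fun y n => if n % 2 = 0 then t (n / 2) else y (n / 2)
  have hj : Function.Injective j := fun y z e => funext fun n => by
    have := congrFun e (2 * n + 1)
    simpa [j, Nat.add_mod, Nat.mul_add_div] using this
  have e : ∀ y, (fun n => j y (2 * n)) = t := fun y => funext fun n => by simp [j]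
  have : Uncountable Br := aleph0_lt_mk_iff.1 (by simp [aleph0_lt_continuum])
  refine not_countable_univ ((h.preimage hj).mono fun y _ => ?_)
  exact ⟨by simpa only [AT, mem_ofPred_eq, e] using h1, by simpa only [AT, mem_ofPred_eq, e] using h2⟩

theorem main {U : Type} [TopologicalSpace U] [CompactSpace U] {B : Set (Set U)}
    (hB : TopologicalSpace.IsTopologicalBasis B) (hc : #B ≤ 𝔠) :
    ∃ A : Set Br, ∀ (e : K A → U) (φ : Cp (K A) → Cp U), Continuous e → Continuous φ →
      ¬ ∀ f x, (φ f).1 (e x) = f.1 x := by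
  by_contra hn
  push Not at hn
  choose e φ he hφ h using hn
  have : ¬ Function.Injective fun (T : Set Br) (F : Finset (List Bool)) =>
      φ (AT T) (chi (AT T) F) := fun hi => by
    have h1 := mk_le_of_injective hi
    rw [← power_def] at h1
    have h2 := h1.trans (power_le_power_right (card_cp hB hc))
    simp at h2
    exact (cantor _).not_ge h2
  obtain ⟨T, S, hTS, hne⟩ := Function.not_injective_iff.1 this
  have c : ∀ T S : Set Br, (∀ F, φ (AT T) (chi (AT T) F) = φ (AT S) (chi (AT S) F)) → T ⊆ S :=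
    fun T S h' t ht => by_contra fun hs => clash (AT_unc ht hs) (e _) (he _) (φ _) (hφ _)
      fun s F => by rw [h', h, chi_nd]
  exact hne ((c T S (congrFun hTS)).antisymm (c S T fun F => (congrFun hTS F).symm))

end H5TU
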