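import Pool.Agent.Lib.helper5.Extral

/-! A space with metrizable compact function sets whose product with `A(c)` carries
Talagrand's compact. -/

open Set Filter Topology TopologicalSpace

namespace H5T

abbrev Γ := ℕ → ℕ

def Thin (m : ℕ) (t : Set Γ) : Prop :=
  ∀ u : Finset Γ, ↑u ⊆ t → (∀ a ∈ u, ∀ b ∈ u, ∀ i < m, a i = b i) → u.card ≤ m

lemma Thin.union {m n : ℕ} {s t : Set Γ} (h : Thin m s) (h' : Thin n t) :
    Thin (m + n) (s ∪ t) := fun u u1 u2 => by
  classical
  rw [← Finset.card_filter_add_card_filter_not (s := u) (· ∈ s)]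
  exact add_le_add (h _ (fun a ha => (Finset.mem_filter.1 ha).2) fun a ha b hb i hi =>
    u2 a (Finset.mem_filter.1 ha).1 b (Finset.mem_filter.1 hb).1 i (by omega))
    (h' _ (fun a ha => (u1 (Finset.mem_filter.1 ha).1).resolve_left (Finset.mem_filter.1 ha).2)
      fun a ha b hb i hi =>
        u2 a (Finset.mem_filter.1 ha).1 b (Finset.mem_filter.1 hb).1 i (by omega))

lemma Thin.fin {m : ℕ} {t x : Set Γ} (h : Thin m t) (hx : BddAbove x) : (x ∩ t).Finite := by
  obtain ⟨g, hg⟩ := hx
  refine Finite.of_finite_fibers (fun (a : Γ) (i : Fin m) => a i)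
    ((Finite.pi' fun i : Fin m => finite_Iic (g i)).subset ?_) fun s _ => by_contra fun hi => ?_
  · rintro _ ⟨a, ha, rfl⟩ i
    exact hg ha.1 i
  · obtain ⟨u, u1, u2⟩ := Set.Infinite.exists_subset_card_eq hi (m + 1)
    have := h u (fun a ha => (u1 ha).1.2) fun a ha b hb i hi =>
      congrFun ((u1 ha).2.trans (u1 hb).2.symm) ⟨i, hi⟩
    omega

def D := Set Γ
instance : TopologicalSpace D := ⊥
instance : DiscreteTopology D := ⟨rfl⟩

def X := {x : Set Γ // BddAbove x}

def ι (x : X) (t : {t // ∃ m, Thin m t}) : D := (x.1 ∩ t.1 : Set Γ)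

instance : TopologicalSpace X := induced ι inferInstance

lemma thin_single (a : Γ) : Thin 1 {a} := fun _ h _ =>
  Finset.card_le_one.2 fun _ hb _ hc => (h hb).trans (h hc).symm

instance : T35Space X := IsEmbedding.t35Space (f := ι) ⟨⟨rfl⟩, fun x y h => Subtype.ext <| by
  ext a
  have : x.1 ∩ {a} = y.1 ∩ {a} := congrFun h ⟨_, _, thin_single a⟩
  simpa using Set.ext_iff.1 this a⟩

lemma nhds1 {m : ℕ} {t : Set Γ} (h : Thin m t) (x : X) : ∀ᶠ y in 𝓝 x, y.1 ∩ t = x.1 ∩ t :=
  ((isOpen_discrete {ι x ⟨t, m, h⟩}).preimage (f := fun y => ι y ⟨t, m, h⟩)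
    ((continuous_apply _).comp (continuous_induced_dom (f := ι)))).mem_nhds rfl

lemma nhds2 {U : Set X} (hU : IsOpen U) {x : X} (hx : x ∈ U) :
    ∃ m t, Thin m t ∧ ∀ y : X, y.1 ∩ t = x.1 ∩ t → y ∈ U := by
  classical
  obtain ⟨V, hV, rfl⟩ := isOpen_induced_iff.1 hU
  obtain ⟨G, hG⟩ := H5C.face_open' hV hx
  obtain ⟨m, t, h1, h2⟩ : ∃ m t, Thin m t ∧ ∀ s ∈ G, s.1 ⊆ t := by
    clear hG
    induction G using Finset.induction_on with
    | empty => exact ⟨_, _, thin_single 0, by simp⟩
    | insert s G _ ih =>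
      obtain ⟨m, t, h1, h2⟩ := ih
      obtain ⟨n, hn⟩ := s.2
      exact ⟨_, _, hn.union h1, (Finset.forall_mem_insert _ _ _).2
        ⟨subset_union_left, fun s hs => (h2 s hs).trans subset_union_right⟩⟩
  refine ⟨m, t, h1, fun y hy => hG fun s hs => ?_⟩
  show y.1 ∩ s.1 = x.1 ∩ s.1
  rw [← inter_eq_right.2 (h2 s hs), ← inter_assoc, hy, inter_assoc]

def fs (u : Finset Γ) : X := ⟨u, u.bddAbove⟩

lemma dense_fs : DenseRange fs := fun x => mem_closure_iff.2 fun U u1 u2 => by
  obtain ⟨m, t, h1, h2⟩ := nhds2 u1 u2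
  exact ⟨_, h2 _ (by simp [fs, inter_assoc]), (h1.fin x.2).toFinset, rfl⟩

lemma bdd {J : Set (Finset Γ)} (hJ : ¬ J.Countable) :
    ∃ G : ℕ → Finset Γ, Function.Injective G ∧ (∀ n, G n ∈ J) ∧ BddAbove (⋃ n, (G n : Set Γ)) := by
  classical
  obtain ⟨u, -, hu⟩ : ∃ u ∈ J, ∀ m, {v ∈ J | ∀ i < m, v.sup id i = u.sup id i}.Infinite := by
    by_contra hn
    push Not at hn
    refine hJ ((Countable.biUnion (t := fun (s : List ℕ) _ =>
      {v ∈ J | PiNat.res (v.sup id) s.length = s})
      (to_countable {s | {v ∈ J | PiNat.res (v.sup id) s.length = s}.Finite})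
      fun s hs => hs.countable).mono fun v hv => ?_)
    obtain ⟨m, hm⟩ := hn v hv
    refine mem_biUnion (x := PiNat.res (v.sup id) m) (hm.subset fun w hw => ⟨hw.1, ?_⟩)
      ⟨hv, by simp⟩
    exact PiNat.res_eq_res.1 (by simpa using hw.2)
  obtain ⟨f, f1, f2⟩ := exists_seq_of_forall_finset_exists
    (fun p : ℕ × Finset Γ => p.2 ∈ J ∧ ∀ i < p.1, p.2.sup id i = u.sup id i)
    (fun p q => p.1 < q.1 ∧ p.2 ≠ q.2) fun s _ => by
      obtain ⟨U, h1, h2⟩ := (hu (s.sup Prod.fst + 1)).exists_notMem_finset (s.image Prod.snd)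
      exact ⟨(_, U), h1, fun p hp => ⟨Nat.lt_succ_of_le (Finset.le_sup (f := Prod.fst) hp),
        fun e => h2 (Finset.mem_image.2 ⟨p, hp, e⟩)⟩⟩
  refine ⟨fun n => (f n).2, fun a b e => ?_, fun n => (f1 n).1, fun i => max (u.sup id i)
    ((Finset.range (i + 1)).sup fun n => (f n).2.sup id i), fun a ha i => ?_⟩
  · rcases lt_trichotomy a b with h | h | h
    exacts [absurd e (f2 a b h).2, h, absurd e.symm (f2 b a h).2]
  obtain ⟨n, hn⟩ := mem_iUnion.1 ha
  refine (Finset.le_sup (f := id) hn i).trans ?_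
  rcases le_or_gt n i with h | h
  · exact le_max_of_le_right (Finset.le_sup (f := fun n => (f n).2.sup id i)
      (Finset.mem_range.2 (by omega)))
  · exact le_max_of_le_left ((f1 n).2 i (h.trans_le
      (StrictMono.le_apply (f := fun m => (f m).1) fun a b h => (f2 a b h).1))).le

lemma ev_disj {G : ℕ → Finset Γ} (h1 : Pairwise fun i j => Disjoint (G i) (G j))
    (h2 : BddAbove (⋃ n, (G n : Set Γ))) {m : ℕ} (s : Set Γ) (hs : Thin m s) :
    ∀ᶠ i in cofinite, Disjoint (G i : Set Γ) s := by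
  refine ((hs.fin h2).biUnion (t := fun a => {i | a ∈ G i}) fun a _ =>
    Set.Subsingleton.finite fun i hi j hj => by_contra fun h =>
      Finset.disjoint_left.1 (h1 h) hi hj).subset fun i hi => ?_
  obtain ⟨a, a1, a2⟩ := not_disjoint_iff.1 hi
  exact mem_biUnion ⟨mem_iUnion.2 ⟨i, a1⟩, a2⟩ a1

lemma free {G : ℕ → Finset Γ} (h1 : Pairwise fun i j => Disjoint (G i) (G j))
    (h2 : BddAbove (⋃ n, (G n : Set Γ))) {m : ℕ} {t : ℕ → Set Γ} (ht : ∀ n, Thin m (t n)) :
    ∃ k : ℕ → ℕ, Function.Injective k ∧ Pairwise fun i j => Disjoint (G (k i) : Set Γ) (t (k j)) := by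
  have key := ev_disj (m := m) h1 h2
  have : Std.Symm fun i j => i ≠ j ∧ Disjoint (G i : Set Γ) (t j) ∧ Disjoint (G j : Set Γ) (t i) :=
    ⟨fun i j h => ⟨h.1.symm, h.2.2, h.2.1⟩⟩
  let V := hyperfilter ℕ
  have k2 := key {a | ∀ᶠ j in V, a ∈ t j} fun u u1 u2 => by
    obtain ⟨j, hj⟩ := ((eventually_all_finset u).2 u1).exists
    exact ht j u hj u2
  obtain ⟨k, k1, k2⟩ := exists_seq_of_forall_finset_exists'
    (fun i => Disjoint (G i : Set Γ) {a | ∀ᶠ j in V, a ∈ t j})
    (fun i j => i ≠ j ∧ Disjoint (G i : Set Γ) (t j) ∧ Disjoint (G j : Set Γ) (t i))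
    fun s hs => ((k2.filter_mono hyperfilter_le_cofinite).and ((eventually_all_finset s).2
      fun i hi => (((eventually_cofinite_ne i).filter_mono hyperfilter_le_cofinite).mono
        fun _ => Ne.symm).and (.and (((eventually_all_finset (G i)).2 fun a ha =>
          Ultrafilter.eventually_not.2 (disjoint_left.1 (hs i hi) ha)).mono fun j hj =>
          disjoint_left.2 hj) ((key _ (ht i)).filter_mono hyperfilter_le_cofinite)))).exists
  exact ⟨k, fun i j h => by_contra fun hn => (k2 hn).1 h, fun i j h => (k2 h).2.1⟩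

lemma det {M : Set (X → ℝ)} (m1 : ∀ f ∈ M, Continuous f) (m2 : IsCompact M) [DecidableEq Γ] :
    ∃ S : Set Γ, S.Countable ∧ ∀ f ∈ M, ∀ R G : Finset Γ, ↑R ⊆ S → Disjoint ↑G S →
      f (fs (R ∪ G)) ≤ f (fs R) := by
  let P : Finset Γ → ℚ × ℚ × ℕ → Finset Γ → Prop := fun R τ G => τ.1 < τ.2.1 ∧
    ∃ f ∈ M, ∃ t, Thin τ.2.2 t ∧ (∀ y : X, y.1 ∩ t = ↑R ∩ t → f y < τ.1) ∧
      ∀ y : X, y.1 ∩ t = (↑R ∪ ↑G) ∩ t → τ.2.1 < f y
  have : ∀ R τ, ∃ S : Set Γ, S.Countable ∧ ∀ G, P R τ G → ¬ Disjoint ↑G S := fun R τ => by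
    obtain ⟨J, hJ⟩ := zorn_subset {J : Set (Finset Γ) | (∀ G ∈ J, P R τ G) ∧ J.Pairwise Disjoint}
      fun c hc hc' => ⟨⋃₀ c, ⟨fun G ⟨s, hs, h⟩ => (hc hs).1 G h,
        (pairwise_sUnion hc'.directedOn).2 fun s hs => (hc hs).2⟩, fun s => subset_sUnion_of_mem⟩
    have hc : J.Countable := by
      by_contra hn
      obtain ⟨G, g1, g2, g3⟩ := bdd hn
      choose pq f f1 t t1 t2 t3 using fun n => hJ.prop.1 _ (g2 n)
      have dj : Pairwise fun i j => Disjoint (G i) (G j) := fun i j h =>
        hJ.prop.2 (g2 i) (g2 j) (g1.ne h)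
      obtain ⟨k, k1, k2⟩ := free dj g3 t1
      let y : Set ℕ → X := fun T => ⟨R ∪ ⋃ n ∈ T, G (k n), R.bddAbove.union
        (g3.mono (iUnion₂_subset fun n _ => subset_iUnion (fun n => (G n : Set Γ)) _))⟩
      obtain ⟨g, g4, g5⟩ := m2.exists_mapClusterPt (f := atTop) (u := fun n => f (k n))
        (le_principal_iff.2 (mem_map.2 (univ_mem' fun n => f1 _)))
      have a1 : (τ.2.1 : ℝ) ≤ g (y univ) := IsClosed.mem_of_mapClusterPt
        (s := {g : X → ℝ | (τ.2.1 : ℝ) ≤ g (y univ)}) (isClosed_le continuous_const (continuous_apply _)) g5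
        (.of_forall fun n => (t3 _ _ (by
          ext a
          simp only [y, mem_inter_iff, mem_union, mem_iUnion]
          refine and_congr_left fun h => or_congr_right ⟨fun ⟨i, _, hi⟩ => ?_, fun h => ⟨n, trivial, h⟩⟩
          rwa [show n = i from by_contra fun hn => disjoint_left.1 (k2 (Ne.symm hn)) hi h])).le)
      obtain ⟨m, s, s1, s2⟩ := nhds2 (isOpen_lt (continuous_const (y := (τ.1 : ℝ))) (m1 g g4))
        (x := y univ) (lt_of_lt_of_le (by exact_mod_cast pq 0) a1)
      have hT := k1.tendsto_cofinite.eventually (ev_disj dj g3 s s1)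
      let T := {i | ¬ Disjoint (G (k i) : Set Γ) s}
      refine LT.lt.not_ge (a := (τ.1 : ℝ)) (b := g (y T)) (s2 _ ?_) (IsClosed.mem_of_mapClusterPt
        (s := {g : X → ℝ | g (y T) ≤ τ.1}) (isClosed_le (continuous_apply _) continuous_const) g5 ?_)
      · ext a
        simp only [y, mem_inter_iff, mem_union, mem_iUnion]
        exact and_congr_left fun h => or_congr_right ⟨fun ⟨i, _, hi⟩ => ⟨i, trivial, hi⟩,
          fun ⟨i, _, hi⟩ => ⟨i, not_disjoint_iff.2 ⟨a, hi, h⟩, hi⟩⟩
      · rw [Nat.cofinite_eq_atTop] at hT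
        filter_upwards [hT] with n hn
        refine (t2 _ _ ?_).le
        ext a
        simp only [y, mem_inter_iff, mem_union, mem_iUnion]
        refine and_congr_left fun h => or_iff_left fun ⟨i, h1, hi⟩ => ?_
        exact disjoint_left.1 (k2 (show i ≠ n by rintro rfl; exact h1 hn)) hi h
    refine ⟨⋃ G ∈ J, G, hc.biUnion fun G _ => G.countable_toSet, fun G hG hd => ?_⟩
    have := hJ.mem_of_prop_insert (x := G) ⟨forall_mem_insert.2 ⟨hG, hJ.prop.1⟩,
      hJ.prop.2.insert fun H hH _ => by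
        have : Disjoint G H := Finset.disjoint_coe.1 (hd.mono_right (subset_biUnion_of_mem
          (u := fun G : Finset Γ => (G : Set Γ)) hH))
        exact ⟨this, this.symm⟩⟩
    have e : (G : Set Γ) = ∅ := disjoint_self.1 (hd.mono_right (subset_biUnion_of_mem
          (u := fun G : Finset Γ => (G : Set Γ)) this))
    obtain ⟨h, f, -, t, -, t2, t3⟩ := hG
    exact lt_asymm ((t3 (fs R) (by simp [e, fs])).trans (t2 _ rfl)) (by exact_mod_cast h)
  choose S s1 s2 using this
  obtain ⟨T, t1, t2⟩ := H5C.hull (fun R => ⋃ τ, S R τ) fun R => countable_iUnion (s1 R)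
  refine ⟨T, t1, fun f hf R G h1 h2 => not_lt.1 fun h => ?_⟩
  obtain ⟨p, p1, p2⟩ := exists_rat_btwn h
  obtain ⟨q, q1, q2⟩ := exists_rat_btwn p2
  obtain ⟨m, s, a1, a2⟩ := nhds2 (isOpen_lt (m1 f hf) continuous_const) p1
  obtain ⟨n, t, b1, b2⟩ := nhds2 (isOpen_lt continuous_const (m1 f hf)) q2
  have k : ∀ {a b s t : Set Γ}, a ∩ (s ∪ t) = b ∩ (s ∪ t) → a ∩ s = b ∩ s := fun {a b s t} h => by
    rw [← inter_eq_right.2 (subset_union_left (s := s) (t := t)), ← inter_assoc, h, inter_assoc]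
  exact s2 R (p, q, m + n) G ⟨by exact_mod_cast q1, f, hf, _, a1.union b1, fun y h => a2 y (k h),
    fun y h => b2 y (by rw [union_comm s] at h; simpa [fs] using k h)⟩
    (h2.mono_right ((subset_iUnion _ _).trans (t2 R h1)))

lemma eber {M : Set (X → ℝ)} (m1 : ∀ f ∈ M, Continuous f) (m2 : IsCompact M) :
    ∃ (E : Type) (_ : NormedAddCommGroup E) (_ : NormedSpace ℝ E) (_ : CompleteSpace E)
      (e : M → WeakSpace ℝ E), IsEmbedding e := by
  classical
  obtain ⟨S, s1, s2⟩ := det (M := M ∪ -M) (fun f hf => hf.elim (m1 f) fun h => by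
    simpa using (m1 _ h).neg) (m2.union m2.neg)
  have s3 : ∀ f ∈ M, ∀ u : Finset Γ, f (fs u) = f (fs (u.filter (· ∈ S))) := fun f hf u => by
    have := fun g hg => s2 g hg (u.filter (· ∈ S)) (u.filter (· ∉ S)) (fun a ha => by simp_all)
      (disjoint_left.2 fun a ha => by simp_all)
    rw [Finset.filter_union_filter_not_eq] at this
    exact le_antisymm (this f (Or.inl hf)) (by simpa using this (-f) (Or.inr (by simpa)))
  have := isCompact_iff_compactSpace.1 m2
  have := s1.to_subtype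
  have := (Continuous.isClosedEmbedding (f := fun (f : M) (u : Finset S) =>
    f.1 (fs (u.image Subtype.val))) (continuous_pi fun _ => (continuous_apply _).comp
      continuous_subtype_val) fun f g h => Subtype.ext
      (dense_fs.equalizer (m1 _ f.2) (m1 _ g.2) (funext fun u => by
        have := congrFun h (u.subtype (· ∈ S))
        simp only [Function.comp, s3 _ f.2 u, s3 _ g.2 u]
        have e : (u.subtype (· ∈ S)).image Subtype.val = u.filter (· ∈ S) := by ext; simp [and_comm]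
        simpa only [e] using this))).isEmbedding.metrizableSpace
  let := metrizableSpaceMetric M
  have k := kuratowskiEmbedding.isometry M
  exact ⟨_, inferInstance, inferInstance, inferInstance, _, (((toWeakSpaceCLM ℝ _).continuous.comp
    k.continuous).isClosedEmbedding ((toWeakSpace ℝ _).injective.comp k.injective)).isEmbedding⟩

def L : Set (Γ → Bool) := {l | ∀ a b c d, a ≠ b → c ≠ d → PiNat.firstDiff a b ≠ PiNat.firstDiff c d →
  l a = false ∨ l b = false ∨ l c = false ∨ l d = false}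

lemma L_closed : IsClosed L := by
  have : ∀ a, IsClosed {l : Γ → Bool | l a = false} := fun a =>
    isClosed_eq (continuous_apply a) continuous_const
  simp only [L, ofPred_forall]
  exact isClosed_iInter fun a => isClosed_iInter fun b => isClosed_iInter fun c =>
    isClosed_iInter fun d => isClosed_iInter fun _ => isClosed_iInter fun _ =>
      isClosed_iInter fun _ => (this a).union ((this b).union ((this c).union (this d)))

lemma L_thin {l : Γ → Bool} (h : l ∈ L) : ∃ m, Thin m {a | l a} := by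
  by_cases e : ∃ a b, a ≠ b ∧ l a ∧ l b
  · obtain ⟨a, b, h1, h2, h3⟩ := e
    refine ⟨PiNat.firstDiff a b + 1, fun u u1 u2 => (Finset.card_le_one.2 fun c hc d hd =>
      by_contra fun hn => PiNat.apply_firstDiff_ne hn (u2 c hc d hd _ ?_)).trans (by omega)⟩
    have c1 : l c = true := u1 hc
    have d1 : l d = true := u1 hd
    rw [show PiNat.firstDiff a b = PiNat.firstDiff c d from by_contra fun e => by
      simpa [*] using h a b c d h1 hn e]
    omega
  · exact ⟨1, fun u u1 _ => Finset.card_le_one.2 fun c hc d hd =>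
      by_contra fun hn => e ⟨c, d, hn, u1 hc, u1 hd⟩⟩

lemma not_eber {E : Type} [NormedAddCommGroup E] [NormedSpace ℝ E] {ψ : L → WeakSpace ℝ E}
    (h1 : Continuous ψ) (h2 : Function.Injective ψ) : False := by
  classical
  have := isCompact_iff_compactSpace.1 L_closed.isCompact
  let w : L → E := fun l => (toWeakSpace ℝ E).symm (ψ l)
  have : ∀ a, ∃ n : ℕ, ∀ l l' : L, l.1 a = true → l'.1 a = false →
      (1 / (n + 1) : ℝ) ≤ dist (w l) (w l') := fun a => by
    have c : IsClosed {p : L × L | p.1.1 a = true ∧ p.2.1 a = false} :=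
      (isClosed_eq ((continuous_apply a).comp (continuous_subtype_val.comp continuous_fst))
        continuous_const).inter (isClosed_eq ((continuous_apply a).comp
          (continuous_subtype_val.comp continuous_snd)) continuous_const)
    obtain ⟨ε, e1, e2⟩ := Metric.isOpen_iff.1 ((c.isCompact.image (f := fun p => ψ p.1 - ψ p.2)
      (by fun_prop)).isClosed.preimage (toWeakSpaceCLM ℝ E).continuous).isOpen_compl 0 (by
        rintro ⟨⟨l, l'⟩, ⟨a1, a2⟩, h⟩
        obtain rfl : l = l' := h2 (sub_eq_zero.1 (h.trans (map_zero _)))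
        simp_all)
    obtain ⟨n, hn⟩ := exists_nat_one_div_lt e1
    exact ⟨n, fun l l' a1 a2 => not_lt.1 fun h => e2 (a := w l - w l')
      (by simpa [dist_eq_norm] using h.trans hn) ⟨(l, l'), ⟨a1, a2⟩, rfl⟩⟩
  choose N hN using this
  obtain ⟨n, a, ha⟩ := nonempty_interior_of_iUnion_of_closed (f := fun n => closure {a | N a = n})
    (fun _ => isClosed_closure) (eq_univ_of_forall fun a => mem_iUnion.2 ⟨_, subset_closure rfl⟩)
  obtain ⟨_, ⟨a, m, rfl⟩, -, hm⟩ := (PiNat.isTopologicalBasis_cylinders fun _ => ℕ).isOpen_iff.1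
    isOpen_interior a ha
  have : ∀ i, ∃ b, b ∈ PiNat.cylinder (Function.update a m i) (m + 1) ∧ N b = n := fun i =>
    mem_closure_iff.1 (interior_subset (hm (PiNat.mem_cylinder_iff.2 fun j hj =>
      Function.update_of_ne hj.ne _ _))) _ (PiNat.isOpen_cylinder _ _ _) (PiNat.self_mem_cylinder _ _)
  choose b b1 b2 using this
  have b3 : ∀ i, b i m = i := fun i => (b1 i m (by omega)).trans (Function.update_self ..)
  have b4 : ∀ i j, b i ≠ b j → PiNat.firstDiff (b i) (b j) = m := fun i j h => by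
    refine le_antisymm (not_lt.1 fun k => h ?_) (not_lt.1 fun k => PiNat.apply_firstDiff_ne h ?_)
    · rw [← b3 i, PiNat.apply_eq_of_lt_firstDiff k, b3]
    · rw [b1 i _ (by omega), b1 j _ (by omega), Function.update_of_ne k.ne,
        Function.update_of_ne k.ne]
  let l : (ℕ → Bool) → L := fun T => ⟨fun c => if b (c m) = c then T (c m) else false, by
    intro c d e f h1 h2 h3
    by_contra hn
    simp only [not_or, ite_eq_right_iff, not_forall] at hn
    obtain ⟨⟨c1, -⟩, ⟨d1, -⟩, ⟨e1, -⟩, f1, -⟩ := hn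
    rw [← c1, ← d1] at h1
    rw [← e1, ← f1] at h2
    exact h3 (by rw [← c1, ← d1, ← e1, ← f1, b4 _ _ h1, b4 _ _ h2])⟩
  have l1 : Continuous l := Continuous.subtype_mk (continuous_pi fun c => by
    split_ifs <;> fun_prop) _
  have l2 : ∀ T i, (l T).1 (b i) = T i := fun T i => by simp [l, b3]
  obtain ⟨D, d1, d2⟩ := exists_countable_dense (ℕ → Bool)
  have d3 : ∀ T, w (l T) ∈ closure (Submodule.span ℝ ((w ∘ l) '' D) : Set E) := fun T => by
    rw [← (toWeakSpace ℝ E).injective.mem_set_image,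
      (Submodule.convex _).toWeakSpace_closure ℝ]
    exact map_mem_closure (f := ψ ∘ l) (h1.comp l1) (d2 T) fun T hT =>
      ⟨_, Submodule.subset_span (mem_image_of_mem _ hT), rfl⟩
  have := (d1.image (w ∘ l)).isSeparable.span (R := ℝ).closure.separableSpace
  have : Uncountable (ℕ → Bool) :=
    Cardinal.aleph0_lt_mk_iff.1 (by simp [Cardinal.aleph0_lt_continuum])
  refine not_countable (Pairwise.countable_of_isOpen_disjoint (s := fun T =>
    Metric.ball (⟨_, d3 T⟩ : closure _) (1 / (n + 1) / 2)) (fun T T' h => Metric.ball_disjoint_ball ?_)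
    (fun _ => Metric.isOpen_ball) fun _ => Metric.nonempty_ball.2 (by positivity))
  obtain ⟨i, hi⟩ := Function.ne_iff.1 h
  rw [add_halves, ← b2 i, Subtype.dist_eq]
  cases e : T i
  · exact dist_comm (w (l T)) _ ▸ hN _ _ _ (by simp_all) (by simp_all)
  · exact hN _ _ _ (by simp_all) (by simp_all)

theorem main : ∃ (K : Type) (_ : TopologicalSpace K) (_ : CompactSpace K) (_ : T2Space K)
    (β : L → X × K → ℝ), Continuous β ∧ Function.Injective β ∧ ∀ l, Continuous (β l) := by
  classical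
  let K : Set (Γ → Bool) := {k | ∀ a b, a ≠ b → k a = false ∨ k b = false}
  have : IsClosed K := by
    simp only [K, ofPred_forall]
    exact isClosed_iInter fun a => isClosed_iInter fun b => isClosed_iInter fun _ =>
      (isClosed_eq (continuous_apply a) continuous_const).union
        (isClosed_eq (continuous_apply b) continuous_const)
  refine ⟨K, inferInstance, isCompact_iff_compactSpace.1 this.isCompact, inferInstance,
    fun l p => if ∃ a ∈ p.1.1 ∩ {a | l.1 a}, p.2.1 a then 1 else 0, continuous_pi fun p => ?_,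
    fun l l' h => Subtype.ext (funext fun a => ?_), fun l => ?_⟩
  · by_cases h : ∃ a, p.2.1 a
    · obtain ⟨a, ha⟩ := h
      refine ((continuous_of_discreteTopology (f := fun b : Bool => if a ∈ p.1.1 ∧ b then (1 : ℝ)
        else 0)).comp ((continuous_apply a).comp continuous_subtype_val)).congr fun l =>
        if_congr ⟨fun h => ⟨a, h, ha⟩, fun ⟨b, h1, h2⟩ => ?_⟩ rfl rfl
      rwa [show a = b from by_contra fun hn => by simpa [*] using p.2.2 a b hn]
    · exact continuous_const.congr fun l => (if_neg fun ⟨a, _, h'⟩ => h ⟨a, h'⟩).symm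
  · have := congrFun h (fs {a}, ⟨fun b => decide (b = a), fun b c h => by
      by_contra hn
      simp_all⟩)
    cases h1 : l.1 a <;> cases h2 : l'.1 a <;> simp_all [fs]
  · obtain ⟨m, hm⟩ := L_thin l.2
    refine IsLocallyConstant.continuous ((IsLocallyConstant.iff_eventually_eq _).2 fun p => ?_)
    filter_upwards [continuous_fst.continuousAt.eventually (nhds1 hm p.1),
      (eventually_all_finite (hm.fin p.1.2)).2 fun a _ => ((isOpen_discrete {p.2.1 a}).preimage
        (f := fun q : X × K => q.2.1 a) ((continuous_apply a).comp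
          (continuous_subtype_val.comp continuous_snd))).mem_nhds rfl] with q h1 h2
    rw [h1]
    exact if_congr (exists_congr fun a => and_congr_right fun h => by rw [h2 a h]) rfl rfl

end H5T
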