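import Pool.Agent.Lib.helper5.UTri

set_option autoImplicit false

open Set Filter Topology Function

namespace H5Sp

section os
variable {D : Type} (𝓕 : Filter D)

def OS (_ : Filter D) : Type := Option D
def oo : OS 𝓕 := none
def sm (d : D) : OS 𝓕 := some d
def eo (a : ℝ) (b : D → ℝ) : OS 𝓕 → ℝ := fun z => Option.elim z a b

def AdO (g : OS 𝓕 → ℝ) : Prop := Tendsto (fun d => g (sm 𝓕 d)) 𝓕 (𝓝 (g (oo 𝓕)))

def ιO (y : OS 𝓕) (g : {g // AdO 𝓕 g}) : ℝ := g.1 y

instance : TopologicalSpace (OS 𝓕) := TopologicalSpace.induced (ιO 𝓕) inferInstance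

lemma ind_O : IsInducing (ιO 𝓕) := ⟨rfl⟩

lemma cont_O (g : OS 𝓕 → ℝ) : Continuous g ↔ AdO 𝓕 g :=
  ⟨fun h => (h.tendsto _).comp ((ind_O 𝓕).tendsto_nhds_iff.2 (tendsto_pi_nhds.2 fun g => g.2)),
    fun h => (continuous_apply (⟨g, h⟩ : {g // AdO 𝓕 g})).comp (ind_O 𝓕).continuous⟩

lemma t35O (h : ∀ d, {d}ᶜ ∈ 𝓕) : T35Space (OS 𝓕) := by
  classical
  refine IsEmbedding.t35Space (f := ιO 𝓕) ⟨ind_O 𝓕, ?_⟩
  have a1 : ∀ d, AdO 𝓕 (eo 𝓕 0 fun e => if e = d then 1 else 0) := fun d =>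
    tendsto_const_nhds.congr' (by
      filter_upwards [h d] with e he
      simp [eo, sm, oo, show e ≠ d from he])
  rintro (_ | d) (_ | e) hh
  · rfl
  · simpa [ιO, eo] using congrFun hh ⟨_, a1 e⟩
  · simpa [ιO, eo] using congrFun hh ⟨_, a1 d⟩
  · have := congrFun hh ⟨_, a1 e⟩
    simp only [ιO, eo, Option.elim, if_true, ite_eq_left_iff, zero_ne_one, imp_false, not_not] at this
    rw [this]

lemma os_equiv (𝓖 : Filter D) (H : (D → ℝ) ≃ᵤ (D → ℝ))
    (h : ∀ g, Tendsto g 𝓕 (𝓝 0) ↔ Tendsto (H g) 𝓖 (𝓝 0)) :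
    Nonempty ({f : OS 𝓕 → ℝ // Continuous f} ≃ᵤ {f : OS 𝓖 → ℝ // Continuous f}) := by
  let ap : ((D → ℝ) → D → ℝ) → (Option D → ℝ) → Option D → ℝ := fun G f z =>
    Option.elim z (f none) fun d => G (fun d => f (some d) - f none) d + f none
  have ev : ∀ z, UniformContinuous fun f : Option D → ℝ => f z := Pi.uniformContinuous_proj _
  have uc : ∀ G, UniformContinuous G → UniformContinuous (ap G) := fun G hG => by
    refine uniformContinuous_pi.2 ?_
    rintro (_ | d)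
    · exact ev _
    · exact (uniformContinuous_pi.1 (hG.comp (uniformContinuous_pi.2 fun d =>
        (ev (some d)).sub (ev none))) d).add (ev none)
  have inv : ∀ G G', (∀ g, G (G' g) = g) → ∀ g, ap G (ap G' g) = g := fun G G' h g => by
    funext z
    rcases z with _ | d
    · rfl
    · simp [ap, h]
  let e : (Option D → ℝ) ≃ᵤ (Option D → ℝ) := ⟨⟨ap H, ap H.symm, inv _ _ H.symm_apply_apply,
    inv _ _ H.apply_symm_apply⟩, uc _ H.uniformContinuous, uc _ H.symm.uniformContinuous⟩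
  refine restrict e fun f => (cont_O 𝓕 f).trans (Iff.trans ?_ (cont_O 𝓖 (ap H f)).symm)
  refine tendsto_sub_nhds_zero_iff.symm.trans ((h _).trans (Iff.trans ?_ tendsto_sub_nhds_zero_iff))
  simp [ap, sm, oo]

end os

abbrev Nd := Σ n : ℕ, Fin n → Bool
abbrev DT := Σ s : Nd, Fin (2 * 3 ^ s.1)
def res (b : ℕ → Bool) (n : ℕ) : Nd := ⟨n, fun i => b i⟩

open Classical in
noncomputable def cb (S : Set DT) (s : Nd) : ℕ := (Finset.univ.filter fun i => (⟨s, i⟩ : DT) ∈ S).card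

def ZX (S : Set DT) : Prop := ∀ b k, ∀ᶠ n in atTop, cb S (res b n) ≤ 3 ^ (n - k)

lemma ZX_small {S : Set DT} (h : ∀ s i j, (⟨s, i⟩ : DT) ∈ S → (⟨s, j⟩ : DT) ∈ S → i = j) : ZX S := by
  classical
  refine fun b k => Eventually.of_forall fun K => le_trans (Finset.card_le_one.2 fun i hi j hj => ?_)
    (Nat.one_le_pow _ _ (by norm_num))
  exact h _ i j (Finset.mem_filter.1 hi).2 (Finset.mem_filter.1 hj).2

def FX : Filter DT := Filter.comk ZX (ZX_small fun _ _ _ h => h.elim)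
  (fun t ht s hs b k => by
    classical
    filter_upwards [ht b k] with K hK
    refine le_trans (Finset.card_le_card fun i hi => ?_) hK
    simp only [Finset.mem_filter, Finset.mem_univ, true_and] at hi ⊢
    exact hs hi)
  (fun s hs t ht b k => by
    classical
    filter_upwards [hs b (k + 1), ht b (k + 1), eventually_ge_atTop (k + 1)] with K h1 h2 h3
    have h4 : cb (s ∪ t) (res b K) ≤ cb s (res b K) + cb t (res b K) := by
      refine le_trans (Finset.card_le_card fun i hi => ?_) (Finset.card_union_le _ _)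
      simpa using hi
    have h5 : K - k = K - (k + 1) + 1 := by omega
    rw [h5, pow_succ]
    omega)

lemma mem_FX {S : Set DT} : S ∈ FX ↔ ZX Sᶜ := Filter.mem_comk

def FY : Filter DT where
  sets := {S | ∀ b k, ∀ᶠ n in atTop, ∀ i : Fin (2 * 3 ^ n), 2 * 3 ^ (n - k) ≤ (i : ℕ) →
    (⟨res b n, i⟩ : DT) ∈ S}
  univ_sets := fun _ _ => Eventually.of_forall fun _ _ _ => trivial
  sets_of_superset := fun h h' b k => (h b k).mono fun _ hn i hi => h' (hn i hi)
  inter_sets := fun h h' b k => ((h b k).and (h' b k)).mono fun _ hn i hi => ⟨hn.1 i hi, hn.2 i hi⟩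

lemma tendsto_FX (g : DT → ℝ) : Tendsto g FX (𝓝 0) ↔
    ∀ ε, 0 < ε → ∀ b k, ∀ᶠ n in atTop, cnt ε (fun i => g ⟨res b n, i⟩) ≤ 3 ^ (n - k) := by
  rw [(Metric.nhds_basis_closedBall (x := (0 : ℝ))).tendsto_right_iff]
  refine forall₂_congr fun ε _ => ?_
  rw [Filter.Eventually, mem_FX]
  refine forall₂_congr fun b k => eventually_congr (Eventually.of_forall fun K => ?_)
  have : cb {x | g x ∈ Metric.closedBall 0 ε}ᶜ (res b K) = cnt ε fun i => g ⟨res b K, i⟩ := by
    unfold cb cnt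
    congr 1
    ext i
    simp
  rw [this]

lemma tendsto_FY (g : DT → ℝ) : Tendsto g FY (𝓝 0) ↔ ∀ ε, 0 < ε → ∀ b k, ∀ᶠ n in atTop,
    ∀ i : Fin (2 * 3 ^ n), 2 * 3 ^ (n - k) ≤ (i : ℕ) → |g ⟨res b n, i⟩| ≤ ε := by
  rw [(Metric.nhds_basis_closedBall (x := (0 : ℝ))).tendsto_right_iff]
  simp only [Metric.mem_closedBall, Real.dist_eq, sub_zero]
  rfl

theorem ualeph :
    Nonempty ({f : OS FX → ℝ // Continuous f} ≃ᵤ {f : OS FY → ℝ // Continuous f}) := by
  choose H hH using block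
  have uc : ∀ G : ∀ n, (Fin n → ℝ) → (Fin n → ℝ), (∀ n, UniformContinuous (G n)) →
      UniformContinuous fun (g : DT → ℝ) (d : DT) => G _ (fun i => g ⟨d.1, i⟩) d.2 := fun G hG =>
    uniformContinuous_pi.2 fun d => (Pi.uniformContinuous_proj _ d.2).comp ((hG _).comp
      (uniformContinuous_pi.2 fun i => Pi.uniformContinuous_proj _ _))
  let HH : (DT → ℝ) ≃ᵤ (DT → ℝ) :=
    ⟨⟨fun g d => H _ (fun i => g ⟨d.1, i⟩) d.2, fun g d => (H _).symm (fun i => g ⟨d.1, i⟩) d.2,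
      fun g => funext fun d => congrFun ((H _).symm_apply_apply fun i => g ⟨d.1, i⟩) d.2,
      fun g => funext fun d => congrFun ((H _).apply_symm_apply fun i => g ⟨d.1, i⟩) d.2⟩,
      uc _ fun n => (H n).uniformContinuous, uc _ fun n => (H n).symm.uniformContinuous⟩
  refine os_equiv FX FY HH fun g => ?_
  rw [tendsto_FX, tendsto_FY]
  constructor
  · intro h ε hε b k
    have h1 : 0 < min (ε / 2) (1 / 2) := by positivity
    filter_upwards [h _ h1 b k] with n hn i hi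
    exact ((hH _ _ h1.le (min_le_right _ _) _ _).1 hn i hi).trans
      (by linarith [min_le_left (ε / 2) (1 / 2)])
  · intro h ε hε b k
    have h1 : 0 < min (ε / 2) (1 / 2) := by positivity
    filter_upwards [h _ h1 b (k + 1), eventually_ge_atTop (k + 1)] with n hn h3
    have h4 := (hH _ _ h1.le (min_le_right _ _) (n - (k + 1)) fun i => g ⟨res b n, i⟩).2 hn
    rw [show n - (k + 1) + 1 = n - k by omega] at h4
    refine le_trans (cnt_le fun i hi => lt_of_le_of_lt ?_ hi) h4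
    linarith [min_le_left (ε / 2) (1 / 2)]

instance : T35Space (OS FX) := t35O FX fun d => mem_FX.2 (ZX_small fun K i j h1 h2 => by
  simp only [compl_compl, mem_singleton_iff] at h1 h2
  exact eq_of_heq (Sigma.mk.inj (h1.trans h2.symm)).2)

instance : T35Space (OS FY) := t35O FY fun d b _ => by
  filter_upwards [eventually_gt_atTop d.1.1] with n hn i _ h
  exact hn.ne' (congrArg (fun d : DT => d.1.1) h)

lemma fin_DT (M : ℕ) : {d : DT | d.1.1 < M}.Finite := by
  refine ((finite_Iio M).biUnion fun n _ => finite_range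
    fun p : (Fin n → Bool) × Fin (2 * 3 ^ n) => (⟨⟨n, p.1⟩, p.2⟩ : DT)).subset ?_
  rintro ⟨⟨n, f⟩, i⟩ h
  exact mem_biUnion h ⟨(f, i), rfl⟩

lemma finX {C : Set (OS FX)} (hC : IsCompact C) : C.Finite := by
  classical
  let ch : ∀ s : Nd, Fin (2 * 3 ^ s.1) := fun s =>
    if h : ∃ i, sm FX ⟨s, i⟩ ∈ C then h.choose else ⟨0, by positivity⟩
  have hg : Continuous (eo FX 0 fun d => if d.2 = ch d.1 then (d.1.1 : ℝ) else 0) := by
    refine (cont_O FX _).2 (tendsto_const_nhds.congr' ?_)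
    refine mem_FX.2 (ZX_small fun K i j h1 h2 => ?_)
    have k : ∀ i, (⟨K, i⟩ : DT) ∈ {d : DT | (0 : ℝ) = if d.2 = ch d.1 then (d.1.1 : ℝ) else 0}ᶜ →
        i = ch K := fun i h => by
      by_contra hc
      simp [hc] at h
    exact (k i h1).trans (k j h2).symm
  obtain ⟨M, hM⟩ := (hC.image hg).bddAbove
  obtain ⟨m, hm⟩ := exists_nat_gt M
  refine (((fin_DT m).image (sm FX)).insert (oo FX)).subset ?_
  rintro (_ | ⟨K, i⟩) hi
  · exact Or.inl rfl
  refine Or.inr ⟨_, ?_, rfl⟩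
  have h1 : ∃ i, sm FX ⟨K, i⟩ ∈ C := ⟨i, hi⟩
  have h2 : sm FX ⟨K, ch K⟩ ∈ C := by
    simp only [ch, dif_pos h1]; exact h1.choose_spec
  have h3 := hM ⟨_, h2, rfl⟩
  simp only [eo, sm, Option.elim, if_true] at h3
  exact_mod_cast h3.trans_lt hm

def pp (s : Nd) : DT := ⟨s, ⟨2 * 3 ^ s.1 - 1, Nat.sub_lt (by positivity) one_pos⟩⟩

lemma res_eq {b c : ℕ → Bool} {n : ℕ} : res b n = res c n ↔ ∀ i < n, b i = c i :=
  ⟨fun h i hi => congrFun (eq_of_heq (Sigma.mk.inj h).2) ⟨i, hi⟩,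
    fun h => congrArg (Sigma.mk n) (funext fun i => h i i.2)⟩

theorem notY : ¬ ∃ N : Set (Set (OS FY)), N.Countable ∧
    ∀ K U : Set (OS FY), IsCompact K → IsOpen U → K ⊆ U →
      ∃ F : Finset (Set (OS FY)), (↑F : Set (Set (OS FY))) ⊆ N ∧
        K ⊆ ⋃₀ (↑F : Set (Set (OS FY))) ∧ ⋃₀ (↑F : Set (Set (OS FY))) ⊆ U := by
  classical
  rintro ⟨N, hN, h⟩
  obtain ⟨e, he⟩ := (hN.insert ∅).exists_eq_range (insert_nonempty _ _)
  let x : (ℕ → Bool) → ℕ → OS FY := fun b n => sm FY (pp (res b n))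
  let E : ℕ → Set (ℕ → Bool) := fun k => {b | (∃ᶠ n in atTop, x b n ∈ e k.unpair.1) ∧
    ∀ c n, (∀ i < k, c i = b i) → k ≤ n → x c n ∈ e k.unpair.1 → res c n = res b n}
  have hE : ∀ k, (E k).Countable := fun k => by
    refine MapsTo.countable_of_injOn (f := fun b => res b k) (mapsTo_univ _ _) ?_ countable_univ
    intro b hb c hc hbc
    funext i
    obtain ⟨n, h1, h2⟩ := (hb.1.and_eventually (eventually_ge_atTop (k + i + 1))).exists
    exact res_eq.1 (hc.2 b n (res_eq.1 hbc) (by omega) h1) i (by omega)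
  have : Uncountable (ℕ → Bool) := Cardinal.aleph0_lt_mk_iff.1 (by simp [Cardinal.aleph0_lt_continuum])
  obtain ⟨b, hb⟩ : ∃ b, ∀ k, b ∉ E k := by
    by_contra hc
    push Not at hc
    exact not_countable_univ ((countable_iUnion hE).mono fun b _ => mem_iUnion.2 (hc b))
  have h1 : ∀ k, ∃ s : Option Nd, ((∃ᶠ n in atTop, x b n ∈ e k.unpair.1) →
      ∃ t, s = some t ∧ sm FY (pp t) ∈ e k.unpair.1) ∧
      ∀ c n, s = some (res c n) → k ≤ n ∧ (∀ i < k, c i = b i) ∧ res c n ≠ res b n := by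
    intro k
    by_cases hk : ∃ᶠ n in atTop, x b n ∈ e k.unpair.1
    · have := hb k
      simp only [E, mem_ofPred_eq, hk, true_and, not_forall] at this
      obtain ⟨c, n, h1, h2, h3, h4⟩ := this
      refine ⟨some (res c n), fun _ => ⟨_, rfl, h3⟩, fun c' n' h5 => ?_⟩
      have h6 := Option.some.inj h5
      obtain rfl : n = n' := congrArg Sigma.fst h6
      exact ⟨h2, fun i hi => (res_eq.1 h6 i (by omega)).symm.trans (h1 i hi), h6 ▸ h4⟩
    · exact ⟨none, fun h => (hk h).elim, fun _ _ h => by cases h⟩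
  choose s s1 s2 using h1
  let A : Set DT := {d | ∃ k, s k = some d.1}
  have hA : Aᶜ ∈ FY := by
    intro c _
    by_cases hc : c = b
    · exact Eventually.of_forall fun n i _ ⟨k, hk⟩ => (s2 k c n hk).2.2 (by rw [hc])
    · obtain ⟨j, hj⟩ := ne_iff.1 hc
      filter_upwards [eventually_gt_atTop ((Finset.range (j + 1)).sup
        fun k => (s k).elim 0 Sigma.fst)] with n hn i _ ⟨k, hk⟩
      have h2 : k < j + 1 := by
        by_contra h3
        exact hj ((s2 k c n hk).2.1 j (by omega))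
      have := Finset.le_sup (f := fun k => (s k).elim 0 Sigma.fst) (Finset.mem_range.2 h2)
      rw [hk] at this
      exact hn.not_ge this
  have hg : Continuous (eo FY 0 fun d => if d ∈ A then 1 else 0) :=
    (cont_O FY _).2 (tendsto_const_nhds.congr' (by
      filter_upwards [hA] with d hd
      simp [eo, sm, oo, show d ∉ A from hd]))
  have hx : Tendsto (x b) atTop (𝓝 (oo FY)) := by
    refine (ind_O FY).tendsto_nhds_iff.2 (tendsto_pi_nhds.2 fun g => Tendsto.comp g.2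
      (f := fun n => pp (res b n)) fun S hS => ?_)
    rw [mem_map]
    filter_upwards [hS b 1, eventually_ge_atTop 1] with n hn h1
    refine hn _ ?_
    obtain ⟨m, rfl⟩ : ∃ m, n = m + 1 := ⟨n - 1, by omega⟩
    have : 0 < 3 ^ m := by positivity
    simp only [res, pow_succ, Nat.add_sub_cancel]
    omega
  obtain ⟨F, F1, F2, F3⟩ := h _ _ hx.isCompact_insert_range (isOpen_lt hg continuous_const
    (g := fun _ => (1 : ℝ))) (by
      rintro _ (rfl | ⟨n, rfl⟩)
      · exact zero_lt_one (α := ℝ)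
      · have : pp (res b n) ∉ A := fun ⟨k, hk⟩ => (s2 k b n hk).2.2 rfl
        change (if pp (res b n) ∈ A then (1 : ℝ) else 0) < 1
        simp [this])
  obtain ⟨S, hS, hf⟩ : ∃ S ∈ F, ∃ᶠ n in atTop, x b n ∈ S := by
    by_contra hc
    push Not at hc
    obtain ⟨n, hn⟩ := ((eventually_all_finset F).2 hc).exists
    obtain ⟨S, h1, h2⟩ := F2 (Or.inr ⟨n, rfl⟩)
    exact hn S h1 h2
  obtain ⟨j, rfl⟩ : S ∈ range e := he ▸ Or.inr (F1 hS)
  obtain ⟨t, h1, h2⟩ := s1 (Nat.pair j 0) (by simpa using hf)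
  rw [Nat.unpair_pair] at h2
  have h3 : (if pp t ∈ A then (1 : ℝ) else 0) < 1 := F3 ⟨_, hS, h2⟩
  have h4 : pp t ∈ A := ⟨_, h1⟩
  simp [h4] at h3

end H5Sp
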