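import Pool.Agent.Lib.helper5.UTri

set_option autoImplicit false

open Set Filter Topology Function

namespace H5Sp

section tree

def cone (s : List ℕ) (n : ℕ) (t : List ℕ) : Prop :=
  s.length < t.length ∧ (∀ j < s.length, t.getD j 0 = s.getD j 0) ∧ n ≤ t.getD s.length 0

lemma getD_take (t : List ℕ) {i j : ℕ} (h : i < j) : (t.take j).getD i 0 = t.getD i 0 := by
  simp [List.getD_eq_getElem?_getD, h]

lemma list_ext {s t : List ℕ} (h : s.length = t.length) (h' : ∀ j < s.length, t.getD j 0 = s.getD j 0) :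
    t = s := by
  refine List.ext_getElem h.symm fun j h1 h2 => ?_
  simpa [List.getD_eq_getElem?_getD, h1, h2] using h' j h2

lemma cone.take_eq {s t : List ℕ} {n : ℕ} (h : cone s n t) : t.take s.length = s :=
  list_ext (by simp [h.1.le]) fun j hj => by rw [getD_take t hj, h.2.1 j hj]

lemma cone.take {s t : List ℕ} {n j : ℕ} (h : cone s n t) (hj : s.length < j) :
    cone s n (t.take j) :=
  ⟨by simp [hj, h.1], fun i hi => by rw [getD_take t (hi.trans hj), h.2.1 i hi],
    by rw [getD_take t hj]; exact h.2.2⟩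

lemma cone_self (t : List ℕ) {k : ℕ} (hk : k < t.length) : cone (t.take k) (t.getD k 0) t := by
  have : (t.take k).length = k := by simp [hk.le]
  refine ⟨by omega, fun j hj => (getD_take t (by omega)).symm, by rw [this]⟩

lemma cone_app (s : List ℕ) (n : ℕ) : cone s n (s ++ [n]) :=
  ⟨by simp, fun j hj => by simp [List.getD_eq_getElem?_getD, List.getElem?_append_left hj],
    by simp [List.getD_eq_getElem?_getD]⟩

lemma getD_le_sum (t : List ℕ) (j : ℕ) : t.getD j 0 ≤ t.sum := by
  by_cases h : j < t.length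
  · rw [List.getD_eq_getElem _ _ h]
    exact List.single_le_sum (fun _ _ => Nat.zero_le _) _ (List.getElem_mem h)
  · rw [List.getD_eq_default _ _ (not_lt.1 h)]; exact Nat.zero_le _

open Classical in
noncomputable def tr (t : List ℕ) (k j : ℕ) : Option ℕ :=
  if j < k ∧ j < t.length ∧ ∀ i ≤ j, t.getD i 0 < k then some (t.getD j 0) else none

lemma tr_cone {s t : List ℕ} {n k : ℕ} (h : cone s n t) (hk : k ≤ n) : tr t k = tr s k := by
  funext j
  unfold tr
  by_cases hj : j < s.length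
  · rw [h.2.1 j hj]
    refine if_congr (and_congr_right fun _ => ?_) rfl rfl
    rw [and_iff_right (hj.trans h.1), and_iff_right hj]
    exact forall₂_congr fun i hi => by rw [h.2.1 i (hi.trans_lt hj)]
  · rw [if_neg, if_neg fun hh => hj hh.2.1]
    exact fun hh => (hh.2.2 _ (not_lt.1 hj)).not_ge (hk.trans h.2.2)

lemma tr_eq {s t : List ℕ} {k : ℕ} (hk : s.length + s.sum < k) (h : tr t k = tr s k) :
    t = s ∨ cone s k t := by
  have h1 : ∀ j < s.length, j < t.length ∧ t.getD j 0 = s.getD j 0 ∧ t.getD j 0 < k := by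
    intro j hj
    have h2 := congrFun h j
    have h0 : tr s k j = some (s.getD j 0) := if_pos ⟨by omega, hj, fun i _ => by
      have := getD_le_sum s i; omega⟩
    rw [h0, tr] at h2
    split_ifs at h2 with h3
    exact ⟨h3.2.1, Option.some.inj h2, h3.2.2 j le_rfl⟩
  have h2 : s.length ≤ t.length := by
    by_contra hc
    exact (h1 t.length (not_le.1 hc)).1.false
  rcases h2.eq_or_lt with h3 | h3
  · exact Or.inl (list_ext h3 fun j hj => (h1 j hj).2.1)
  · refine Or.inr ⟨h3, fun j hj => (h1 j hj).2.1, ?_⟩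
    have h4 := congrFun h s.length
    have h0 : tr s k s.length = none := if_neg fun hh => hh.2.1.false
    by_contra hc
    rw [h0, tr, if_pos ⟨by omega, h3, fun i hi => hi.eq_or_lt.elim (fun e => e ▸ not_le.1 hc)
      fun e => (h1 i e).2.2⟩] at h4
    cases h4

def CT (a : List ℕ → ℝ) : Prop := ∀ s ε, 0 < ε → ∃ n, ∀ t, cone s n t → |a t - a s| ≤ ε

noncomputable def Gt (a : List ℕ → ℝ) (t : List ℕ) : ℝ :=
  if t.length = 0 then a t else Gm (fun j => a (t.take j)) (t.length - 1) (a t)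

lemma CT_iff (a : List ℕ → ℝ) : CT a ↔ ∀ s ε, 0 < ε → ∃ n, ∀ t, cone s n t → |Gt a t| ≤ ε := by
  constructor
  · intro h s ε hε
    have p : (0 : ℝ) < 2 + 2 ^ s.length := by positivity
    obtain ⟨n, hn⟩ := h s (ε / (2 + 2 ^ s.length)) (by positivity)
    refine ⟨n, fun t ht => ?_⟩
    have h1 := ht.1
    rw [Gt, if_neg (by omega)]
    refine (Gm_up (k := s.length) (r := ε / (2 + 2 ^ s.length)) (by omega) (fun j h2 _ => ?_) ?_).trans
      (mul_div_cancel₀ _ p.ne').le
    · rcases h2.eq_or_lt with rfl | h3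
      · rw [sub_self, abs_zero]; positivity
      · rw [ht.take_eq]; exact hn _ (ht.take h3)
    · rw [ht.take_eq]; exact hn _ ht
  · intro h s ε hε
    obtain ⟨n, hn⟩ := h s (ε / 4) (by positivity)
    refine ⟨n, fun t ht => ?_⟩
    have := path_bd (a := fun j => a (t.take j)) (k0 := s.length) (D := t.length) (ε := ε / 4)
      (by positivity) (fun m h1 h2 => by
        have h3 := hn _ (ht.take (Nat.lt_succ_of_le h1))
        have h4 : (t.take (m + 1)).length = m + 1 := by simp; omega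
        rw [Gt, h4, if_neg (by omega), Nat.add_sub_cancel,
          Gm_congr (h' := fun j => a (t.take j)) fun j hj => by
            rw [List.take_take, min_eq_left (by omega)]] at h3
        exact h3) t.length ht.1.le le_rfl
    simp only [List.take_length, ht.take_eq] at this
    have h5 : (0 : ℝ) ≤ 2 / 2 ^ t.length := by positivity
    nlinarith

lemma CV_iff (v : List ℕ → ℝ) : (∀ s ε, 0 < ε → ∃ n, ∀ t, cone s n t → |v t| ≤ ε) ↔
    ∀ ε, 0 < ε → ∃ q : ℕ → ℕ, ∀ t : List ℕ, ¬ (∀ m ≤ t.length, t.getD m 0 < q m) → |v t| ≤ ε := by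
  constructor
  · intro h ε hε
    choose n hn using fun s => h s ε hε
    let Lv : ℕ → Finset (List ℕ) := fun r => Nat.rec {[]}
      (fun _ S => S.biUnion fun s => (Finset.range (n s)).image fun m => s ++ [m]) r
    refine ⟨fun r => (Lv r).sup n + 1, fun t ht => ?_⟩
    by_contra hc
    have h1 : ∀ k < t.length, t.getD k 0 < n (t.take k) := fun k hk => by
      by_contra hh
      have := cone_self t hk
      exact hc (hn _ t ⟨this.1, this.2.1, (not_lt.1 hh).trans this.2.2⟩)
    have h2 : ∀ k ≤ t.length, t.take k ∈ Lv k := by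
      intro k
      induction k with
      | zero => simp [Lv]
      | succ k ih =>
        intro hk
        refine Finset.mem_biUnion.2 ⟨_, ih (by omega), Finset.mem_image.2
          ⟨_, Finset.mem_range.2 (h1 k hk), ?_⟩⟩
        rw [List.getD_eq_getElem _ _ hk, List.take_succ_eq_append_getElem hk]
    refine ht fun m hm => ?_
    rcases hm.eq_or_lt with rfl | h3
    · rw [List.getD_eq_default _ _ le_rfl]; exact Nat.succ_pos _
    · exact (h1 m h3).trans_le ((Finset.le_sup (f := n) (h2 m hm)).trans (Nat.le_succ _))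
  · intro h s ε hε
    obtain ⟨q, hq⟩ := h ε hε
    exact ⟨q s.length, fun t ht => hq t fun hh => (hh _ ht.1.le).not_ge ht.2.2⟩

end tree

abbrev KT (t : List ℕ) := KK (Fin (t.length + 1)) (t.sum + t.length)
abbrev II := Σ t : List ℕ, KT t

def row (i : II) : ℕ := Sum.elim (fun _ => 0) (fun p => (p.1 : ℕ) - p.2) i.2
def grp (i : II) : ℕ :=
  Sum.elim (fun l : Fin _ => min (l : ℕ) i.1.sum)
    (fun p : Fin _ × Fin _ => min (i.1.getD p.1 0 + p.2) i.1.sum) i.2
def tp (t : List ℕ) : II := ⟨t, Sum.inl (Fin.last _)⟩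
def top (i : II) : Prop := i.2 = Sum.inl (Fin.last _)

lemma top_tp (t : List ℕ) : top (tp t) := rfl
lemma top.eq {i : II} (h : top i) : tp i.1 = i := by
  obtain ⟨t, k⟩ := i
  exact congrArg (Sigma.mk t) (Eq.symm h)

def alU (q : ℕ → ℕ) (i : II) : Prop := grp i < q (row i)

lemma al_ok {q : ℕ → ℕ} (hq : Monotone q) (t : List ℕ) :
    Al (fun k : KT t => alU q ⟨t, k⟩) fun k => alU (fun r => q (r + 1) + 1) ⟨t, k⟩ := by
  have top : t.sum < q 0 → ∀ k : KT t, alU (fun r => q (r + 1) + 1) ⟨t, k⟩ := by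
    intro h k
    have h1 := hq (Nat.zero_le (row ⟨t, k⟩ + 1))
    have h2 : grp ⟨t, k⟩ ≤ t.sum := by rcases k with l | p <;> exact min_le_right _ _
    simp only [alU]; omega
  refine ⟨fun l l' h h' => ?_, fun m l l' h h' => ?_, fun k h => ?_, fun l l' h h' => ?_,
    fun m l l' h h' => ?_, fun h => top ?_, fun m h => top ?_, ?_⟩
  · have : (l : ℕ) ≤ l' := h
    simp only [alU, grp, row, Sum.elim_inl] at h' ⊢; omega
  · have : (l : ℕ) ≤ l' := h
    have := hq (show (m : ℕ) - l' ≤ m - l by omega)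
    simp only [alU, grp, row, Sum.elim_inr] at h' ⊢; omega
  · have := hq (Nat.le_succ (row ⟨t, k⟩))
    simp only [alU, Nat.succ_eq_add_one] at h this ⊢; omega
  · have := hq (Nat.zero_le (0 + 1))
    simp only [alU, grp, row, Sum.elim_inl] at h' ⊢; omega
  · have := hq (show (m : ℕ) - l ≤ m - l' + 1 by omega)
    simp only [alU, grp, row, Sum.elim_inr] at h' ⊢; omega
  · simp only [alU, grp, row, Sum.elim_inl, Fin.val_last] at h; omega
  · have h1 := m.2
    simp only [alU, grp, row, Sum.elim_inr, Fin.val_last] at h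
    rw [show (m : ℕ) - (t.sum + t.length) = 0 by omega] at h
    omega
  · simp [alU, grp]

open Classical in
def alB (b : Prop) (q : ℕ → ℕ) (i : II) : Prop :=
  if b ∧ top i then ∀ m ≤ i.1.length, i.1.getD m 0 < q m else alU q i

lemma alB_true (q : ℕ → ℕ) (t : List ℕ) (k : KT t) :
    alB True q ⟨t, k⟩ ↔ alg (fun k : KT t => alU q ⟨t, k⟩) k := by
  unfold alB alg
  by_cases h : k = Sum.inl (Fin.last _)
  · rw [if_pos ⟨trivial, h⟩, if_pos h]
    have : ∀ m : Fin (t.length + 1), alU q ⟨t, Sum.inr (m, 0)⟩ ↔ t.getD m 0 < q m := fun m => by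
      simp [alU, grp, row, min_eq_left (getD_le_sum t m), -List.getD_eq_getElem?_getD]
    simp only [this]
    exact ⟨fun h m => h m (Nat.lt_succ_iff.1 m.2), fun h m hm => h ⟨m, Nat.lt_succ_of_le hm⟩⟩
  · rw [if_neg fun hh => h hh.2, if_neg h]

def Pq (b : Prop) (u : II → ℝ) : Prop :=
  ∀ ε, 0 < ε → ∃ q, Monotone q ∧ ∀ i, ¬ alB b q i → |u i| ≤ ε

abbrev ZZ' := II ⊕ ℕ

open Classical in
noncomputable def eS (b : Prop) : ZZ' → ℕ → (ℕ × Option II) ⊕ (ℕ → Option ℕ)
  | Sum.inl i, k => if b ∧ top i then Sum.inr (tr i.1 k)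
      else Sum.inl (row i, if grp i < k then some i else none)
  | Sum.inr r, _ => Sum.inl (r, none)

open Classical in
noncomputable def GS (b : Prop) (f : ZZ' → ℝ) : ZZ' → ℝ
  | Sum.inl i => if b ∧ top i then Gt (fun t => f (Sum.inl (tp t))) i.1
      else f (Sum.inl i) - f (Sum.inr (row i))
  | Sum.inr r => f (Sum.inr r)

open Classical in
lemma GS_inl (b : Prop) (f : ZZ' → ℝ) (i : II) : GS b f (Sum.inl i) =
    if b ∧ top i then Gt (fun t => f (Sum.inl (tp t))) i.1
      else f (Sum.inl i) - f (Sum.inr (row i)) := rfl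

lemma eS_top {b : Prop} {i : II} (h : b ∧ top i) {y : ZZ'} {k : ℕ} (e : eS b y k = eS b (Sum.inl i) k) :
    ∃ t, y = Sum.inl (tp t) ∧ tr t k = tr i.1 k := by
  rw [eS, if_pos h] at e
  rcases y with j | r
  · rw [eS] at e
    split_ifs at e with h1
    exact ⟨_, by rw [h1.2.eq], Sum.inr.inj e⟩
  · cases e

lemma eS_non {b : Prop} {i : II} (h : ¬ (b ∧ top i)) {y : ZZ'} {k : ℕ} (hk : grp i < k)
    (e : eS b y k = eS b (Sum.inl i) k) : y = Sum.inl i := by
  rw [eS, if_neg h, if_pos hk] at e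
  rcases y with j | r
  · rw [eS] at e
    split_ifs at e with h1 h2
    · simp only [Sum.inl.injEq, Prod.mk.injEq, Option.some.injEq] at e
      rw [e.2]
    · simp at e
  · simp [eS] at e

lemma eS_inr {b : Prop} {r : ℕ} {y : ZZ'} {k : ℕ} (e : eS b y k = eS b (Sum.inr r) k) :
    y = Sum.inr r ∨ ∃ i, y = Sum.inl i ∧ ¬ (b ∧ top i) ∧ row i = r ∧ k ≤ grp i := by
  rcases y with j | r'
  · rw [eS, eS] at e
    split_ifs at e with h1 h2
    · simp at e
    · simp only [Sum.inl.injEq, Prod.mk.injEq, and_true] at e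
      exact Or.inr ⟨j, rfl, h1, e, not_lt.1 h2⟩
  · simp only [eS, Sum.inl.injEq, Prod.mk.injEq, and_true] at e
    exact Or.inl (by rw [e])

lemma eS_inj (b : Prop) : Injective (ιS (eS b)) := by
  intro y z h
  have h' : ∀ k, eS b y k = eS b z k := congrFun h
  rcases z with i | r
  · by_cases hi : b ∧ top i
    · obtain ⟨t, rfl, -⟩ := eS_top hi (h' 0)
      obtain ⟨t', h1, h2⟩ := eS_top hi (h' (i.1.length + i.1.sum + t.sum + 1))
      obtain rfl : t = t' := congrArg Sigma.fst (Sum.inl.inj h1)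
      rcases tr_eq (by omega) h2 with h3 | h3
      · rw [h3, hi.2.eq]
      · have := getD_le_sum t i.1.length
        have := h3.2.2
        omega
    · exact eS_non hi (Nat.lt_succ_self _) (h' _)
  · rcases eS_inr (h' 0) with h1 | ⟨i, rfl, -⟩
    · exact h1
    · rcases eS_inr (h' (grp i + 1)) with h1 | ⟨j, h1, -, -, h2⟩
      · exact h1
      · obtain rfl := Sum.inl.inj h1
        omega

lemma cont_S (b : Prop) (f : Sp (eS b) → ℝ) : Continuous f ↔
    (∀ r ε, 0 < ε → ∃ n, ∀ i, ¬ (b ∧ top i) → row i = r → n ≤ grp i →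
      |f (Sum.inl i) - f (Sum.inr r)| ≤ ε) ∧ (b → CT fun t => f (Sum.inl (tp t))) := by
  rw [sp_cont]
  constructor
  · refine fun h => ⟨fun r ε hε => ?_, fun hb s ε hε => ?_⟩
    · obtain ⟨n, hn⟩ := h (Sum.inr r) ε hε
      refine ⟨n, fun i h1 h2 h3 => hn (Sum.inl i) fun k hk => ?_⟩
      rw [eS, eS, if_neg h1, if_neg (by omega), h2]
    · obtain ⟨n, hn⟩ := h (Sum.inl (tp s)) ε hε
      refine ⟨n, fun t ht => hn (Sum.inl (tp t)) fun k hk => ?_⟩
      rw [eS, eS, if_pos ⟨hb, top_tp _⟩, if_pos ⟨hb, top_tp _⟩]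
      exact congrArg _ (tr_cone ht hk.le)
  · rintro ⟨h1, h2⟩ (i | r) ε hε
    · by_cases hi : b ∧ top i
      · obtain ⟨n, hn⟩ := h2 hi.1 i.1 ε hε
        refine ⟨i.1.length + i.1.sum + n + 2, fun y hy => ?_⟩
        obtain ⟨t, rfl, h3⟩ := eS_top hi (hy (i.1.length + i.1.sum + n + 1) (by omega))
        rcases tr_eq (by omega) h3 with h4 | h4
        · rw [h4, hi.2.eq, sub_self, abs_zero]; exact hε.le
        · have := hn t ⟨h4.1, h4.2.1, le_trans (by omega) h4.2.2⟩
          beta_reduce at this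
          rwa [hi.2.eq] at this
      · refine ⟨grp i + 2, fun y hy => ?_⟩
        rw [eS_non hi (Nat.lt_succ_self _) (hy _ (by omega)), sub_self, abs_zero]; exact hε.le
    · obtain ⟨n, hn⟩ := h1 r ε hε
      refine ⟨n + 1, fun y hy => ?_⟩
      rcases eS_inr (hy n (by omega)) with rfl | ⟨i, rfl, h3, h4, h5⟩
      · rw [sub_self, abs_zero]; exact hε.le
      · exact hn i h3 h4 h5

lemma cont_P (b : Prop) (f : ZZ' → ℝ) :
    @Continuous (Sp (eS b)) ℝ _ _ f ↔ Pq b fun i => GS b f (Sum.inl i) := by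
  refine (cont_S b f).trans ?_
  constructor
  · rintro ⟨h1, h2⟩ ε hε
    choose n hn using fun r => h1 r ε hε
    obtain ⟨q, hq⟩ : ∃ q : ℕ → ℕ, b → ∀ t : List ℕ, ¬ (∀ m ≤ t.length, t.getD m 0 < q m) →
        |Gt (fun t => f (Sum.inl (tp t))) t| ≤ ε := by
      by_cases hb : b
      · obtain ⟨q, hq⟩ := (CV_iff _).1 ((CT_iff _).1 (h2 hb)) ε hε
        exact ⟨q, fun _ => hq⟩
      · exact ⟨0, fun h => (hb h).elim⟩
    have h3 : ∀ r, n r + q r ≤ partialSups (fun r => n r + q r) r := le_partialSups (fun r => n r + q r)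
    refine ⟨_, (partialSups fun r => n r + q r).monotone, fun i hi => ?_⟩
    unfold alB at hi
    beta_reduce
    rw [GS_inl]
    split_ifs at hi ⊢ with h4
    · exact hq h4.1 _ fun hh => hi fun m hm => (hh m hm).trans_le (le_trans (by omega) (h3 m))
    · exact hn _ i h4 rfl (le_trans (le_trans (by omega) (h3 _)) (not_lt.1 hi))
  · refine fun h => ⟨fun r ε hε => ?_, fun hb => (CT_iff _).2 ((CV_iff _).2 fun ε hε => ?_)⟩
    · obtain ⟨q, -, hq⟩ := h ε hε
      refine ⟨q r, fun i h1 h2 h3 => ?_⟩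
      have := hq i (by rw [alB, if_neg h1, alU, h2]; omega)
      beta_reduce at this
      rwa [GS_inl, if_neg h1, h2] at this
    · obtain ⟨q, -, hq⟩ := h ε hε
      refine ⟨q, fun t ht => ?_⟩
      have := hq (tp t) (by rw [alB, if_pos ⟨hb, top_tp _⟩]; exact ht)
      beta_reduce at this
      rwa [GS_inl, if_pos ⟨hb, top_tp _⟩] at this

lemma exists_GS (b : Prop) : ∃ e : (ZZ' → ℝ) ≃ᵤ (ZZ' → ℝ), ∀ f, e f = GS b f := by
  classical
  have ev : ∀ z, UniformContinuous fun f : ZZ' → ℝ => f z := Pi.uniformContinuous_proj _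
  have lt : ∀ (t : List ℕ) j, t.length ≠ 0 → j ≤ t.length - 1 → (t.take j).length < t.length := by
    intro t j h1 h2
    simp; omega
  refine triU (Sum.elim (fun i => i.1.length + 1) fun _ => 0) (GS b) ?_ ?_ ?_
  · rintro (i | r)
    · simp only [GS, Gt]
      split_ifs
      exacts [ev _, Gm_uc (fun _ => ev _) (ev _) _, (ev _).sub (ev _)]
    · exact ev _
  · rintro f g (i | r) h1 h2
    · simp only [GS, Gt]
      split_ifs with h3 h4
      · rw [h3.2.eq, h2]
      · rw [h3.2.eq, h2]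
        exact Gm_congr (fun j hj => h1 (Sum.inl (tp (i.1.take j))) (Nat.succ_lt_succ (lt _ j h4 hj))) _
      · rw [h2, h1 (Sum.inr _) (by simp)]
    · exact h2
  · rintro f (i | r) x y h
    · simp only [GS, Gt]
      split_ifs with h3 h4
      · simp [h3.2.eq]
      · have : ∀ x, Gm (fun j => update f (Sum.inl i) x (Sum.inl (tp (i.1.take j)))) (i.1.length - 1)
            (update f (Sum.inl i) x (Sum.inl (tp i.1))) =
            Gm (fun j => f (Sum.inl (tp (i.1.take j)))) (i.1.length - 1) x := fun x => by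
          rw [h3.2.eq, update_self]
          refine Gm_congr (fun j hj => update_of_ne (fun e => ?_) _ _) _
          have h5 : i.1.take j = i.1 := congrArg Sigma.fst (Sum.inl.inj e)
          exact (lt _ j h4 hj).ne (congrArg _ h5)
        rw [this, this]
        exact Gm_exp _ _ h
      · simp
    · simp [GS]

theorem uequiv : Nonempty ({f : Sp (eS True) → ℝ // Continuous f} ≃ᵤ
    {f : Sp (eS False) → ℝ // Continuous f}) := by
  obtain ⟨eX, hX⟩ := exists_GS True
  obtain ⟨eY, hY⟩ := exists_GS False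
  choose H hH using fun t : List ℕ => ladder (Fin (t.length + 1)) (t.sum + t.length)
  let ap : (∀ t, (KT t → ℝ) → KT t → ℝ) → (ZZ' → ℝ) → ZZ' → ℝ := fun G g =>
    Sum.elim (fun i => G i.1 (fun k => g (Sum.inl ⟨i.1, k⟩)) i.2) fun r => g (Sum.inr r)
  have uc : ∀ G, (∀ t, UniformContinuous (G t)) → UniformContinuous (ap G) := fun G hG => by
    refine uniformContinuous_pi.2 ?_
    rintro (i | r)
    · exact (Pi.uniformContinuous_proj _ i.2).comp ((hG _).comp
        (uniformContinuous_pi.2 fun k => Pi.uniformContinuous_proj _ _))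
    · exact Pi.uniformContinuous_proj _ _
  have inv : ∀ G G', (∀ t g, G t (G' t g) = g) → ∀ g, ap G (ap G' g) = g := fun G G' h g => by
    funext z
    rcases z with i | r
    · exact congrFun (h i.1 fun k => g (Sum.inl ⟨i.1, k⟩)) i.2
    · rfl
  let HH : (ZZ' → ℝ) ≃ᵤ (ZZ' → ℝ) :=
    ⟨⟨ap fun t => (H t).symm, ap fun t => H t, inv _ _ fun t => (H t).apply_symm_apply,
      inv _ _ fun t => (H t).symm_apply_apply⟩, uc _ fun t => (H t).symm.uniformContinuous,
      uc _ fun t => (H t).uniformContinuous⟩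
  have key : ∀ g, (Pq True fun i => g (Sum.inl i)) ↔ Pq False fun i => HH g (Sum.inl i) := by
    have hF : ∀ q i, alB False q i ↔ alU q i := fun q i => by rw [alB, if_neg fun h => h.1]
    have mo : ∀ q : ℕ → ℕ, Monotone q → Monotone fun r => q (r + 1) + 1 := fun q hq a b h =>
      Nat.succ_le_succ (hq (Nat.succ_le_succ h))
    intro g
    constructor
    · intro h ε hε
      have h1 : 0 < min (ε / 2) (1 / 2) := by positivity
      obtain ⟨q, q1, q2⟩ := h _ h1
      refine ⟨_, mo q q1, fun i hi => le_trans ((hH i.1 _ _ (al_ok q1 i.1) _ h1.le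
        (min_le_right _ _)).2 _ (fun k hk => q2 ⟨i.1, k⟩ (mt (alB_true _ _ _).1 hk)) i.2
        (mt (hF _ i).2 hi)) ?_⟩
      linarith [min_le_left (ε / 2) (1 / 2)]
    · intro h ε hε
      have h1 : 0 < min (ε / 2) (1 / 2) := by positivity
      obtain ⟨q, q1, q2⟩ := h _ h1
      refine ⟨_, mo q q1, fun i hi => ?_⟩
      have := (hH i.1 _ _ (al_ok q1 i.1) _ h1.le (min_le_right _ _)).1
        ((H i.1).symm fun k => g (Sum.inl ⟨i.1, k⟩))
        (fun k hk => q2 ⟨i.1, k⟩ (mt (hF _ _).1 hk)) i.2 (mt (alB_true _ _ _).2 hi)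
      rw [(H i.1).apply_symm_apply] at this
      exact this.trans (by linarith [min_le_left (ε / 2) (1 / 2)])
  refine restrict ((eX.trans HH).trans eY.symm) fun f => ?_
  refine (cont_P True f).trans (Iff.trans ?_ (cont_P False (eY.symm (HH (eX f)))).symm)
  rw [← hX, ← hY, key, eY.apply_symm_apply]

instance (b : Prop) : TopologicalSpace.MetrizableSpace (Sp (eS b)) :=
  IsEmbedding.metrizableSpace ⟨ind_S _, eS_inj b⟩

lemma Y_complete : TopologicalSpace.IsCompletelyMetrizableSpace (Sp (eS False)) := by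
  refine IsClosedEmbedding.IsCompletelyMetrizableSpace (f := ιS (eS False))
    ⟨⟨ind_S _, eS_inj _⟩, isClosed_of_closure_subset fun x hx => ?_⟩
  have h : ∀ n, ∃ z : ZZ', ∀ k < n, eS False z k = x k := fun n => by
    obtain ⟨_, h1, z, rfl⟩ := mem_closure_iff_nhds.1 hx _ ((pi_basis x).mem_of_mem (i := n) trivial)
    exact ⟨z, h1⟩
  by_cases hc : ∃ i k, grp i < k ∧ x k = eS False (Sum.inl i) k
  · obtain ⟨i, k, h1, h2⟩ := hc
    refine ⟨Sum.inl i, funext fun m => ?_⟩
    obtain ⟨z, hz⟩ := h (k + m + 1)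
    rw [eS_non (fun h => h.1) h1 ((hz k (by omega)).trans h2)] at hz
    exact hz m (by omega)
  · have h1 : ∀ n, ∃ r, ∀ k < n, x k = Sum.inl (r, none) := fun n => by
      obtain ⟨i | r, hz⟩ := h n
      · refine ⟨row i, fun k hk => ?_⟩
        rw [← hz k hk, eS, if_neg fun h => h.1, if_neg fun hh => hc ⟨i, k, hh, (hz k hk).symm⟩]
      · exact ⟨r, fun k hk => (hz k hk).symm⟩
    obtain ⟨r, hr⟩ := h1 1
    refine ⟨Sum.inr r, funext fun m => ?_⟩
    obtain ⟨r', hr'⟩ := h1 (m + 1)
    rw [hr' m (by omega), ← hr' 0 (by omega), hr 0 one_pos]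
    rfl

lemma X_not : ¬ TopologicalSpace.IsCompletelyMetrizableSpace (Sp (eS True)) := by
  intro h
  have hd := dense_iInter_of_isOpen (X := Sp (eS True)) (f := fun t : List ℕ => {Sum.inl (tp t)}ᶜ)
    (fun t => isOpen_compl_singleton) fun t => dense_compl_singleton_iff_not_open.2 fun ho => by
      obtain ⟨n, -, hn⟩ := (sp_basis (eS True) (Sum.inl (tp t))).mem_iff.1 (ho.mem_nhds rfl)
      have h1 := hn (show Sum.inl (tp (t ++ [n])) ∈ _ from fun k hk => by
        rw [eS, eS, if_pos ⟨trivial, top_tp _⟩, if_pos ⟨trivial, top_tp _⟩]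
        exact congrArg _ (tr_cone (cone_app t n) hk.le))
      have h2 : t ++ [n] = t := congrArg Sigma.fst (Sum.inl.inj h1)
      simp at h2
  obtain ⟨y, h1, h2⟩ := hd.inter_nhds_nonempty
    ((sp_basis (eS True) (Sum.inl (tp []))).mem_of_mem (i := 1) trivial)
  obtain ⟨t, rfl, -⟩ := eS_top ⟨trivial, top_tp _⟩ (h2 0 one_pos)
  exact mem_iInter.1 h1 t rfl

end H5Sp
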