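import Pool.Agent.Lib.helper5.SubPara

/-! A uniformly dense subspace of `C_p(X)` in which countable sets have countable closure. -/

open Set Topology Filter Cardinal
open scoped OnePoint

namespace H5UD

def Lam : Type := Set (ℕ → Bool)

def TT : Type := ℕ → Bool

instance : TopologicalSpace Lam := ⊥
instance : DiscreteTopology Lam := ⟨rfl⟩
instance : TopologicalSpace TT := ⊥
instance : DiscreteTopology TT := ⟨rfl⟩

abbrev X := OnePoint Lam × TT

lemma mkL : #Lam = 2 ^ 𝔠 := by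
  change #(Set (ℕ → Bool)) = _
  simp

lemma mkT : #TT = 𝔠 := by
  change #(ℕ → Bool) = _
  simp

lemma supp {f : OnePoint Lam → ℝ} (hf : Continuous f) : {ξ : Lam | f ξ ≠ f ∞}.Countable := by
  have h := ((OnePoint.continuous_iff_from_discrete f).1 hf)
  refine (countable_iUnion fun n : ℕ => (mem_cofinite.1 (h (Metric.ball_mem_nhds _
    (Nat.one_div_pos_of_nat (n := n))))).countable).mono fun ξ hξ => ?_
  obtain ⟨n, hn⟩ := exists_nat_one_div_lt (dist_pos.2 hξ)
  exact mem_iUnion.2 ⟨n, fun h' => lt_asymm hn h'⟩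

lemma card : #(C(X, ℝ) × ℕ) ≤ #Lam := by
  let j : C(X, ℝ) → TT → ℝ × {s : Set (Lam × ℝ) // #s ≤ ℵ₀} := fun f t =>
    (f (∞, t), ⟨(fun ξ : Lam => (ξ, f (ξ, t))) '' {ξ : Lam | f (ξ, t) ≠ f (∞, t)},
      le_aleph0_iff_set_countable.2
        ((supp (f := fun x => f (x, t)) (by fun_prop)).image _)⟩)
  have hj : Function.Injective j := fun f g e => by
    ext ⟨x, t⟩
    have e1 : f (∞, t) = g (∞, t) := congrArg Prod.fst (congrFun e t)
    have e2 := congrArg (fun z => z.2.1) (congrFun e t)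
    induction x using OnePoint.rec with
    | infty => exact e1
    | coe ξ =>
      by_cases h1 : f (ξ, t) = f (∞, t)
      · by_cases h2 : g (ξ, t) = g (∞, t)
        · rw [h1, h2, e1]
        · obtain ⟨η, -, h⟩ := e2.superset ⟨ξ, h2, rfl⟩
          obtain ⟨rfl, h⟩ := Prod.ext_iff.1 h
          exact h
      · obtain ⟨η, -, h⟩ := e2.subset ⟨ξ, h1, rfl⟩
        obtain ⟨rfl, h⟩ := Prod.ext_iff.1 h
        exact h.symm
  have c1 : 𝔠 ≤ 2 ^ 𝔠 := (cantor _).le
  have c0 : ℵ₀ ≤ 2 ^ 𝔠 := aleph0_le_continuum.trans c1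
  have h1 : #{s : Set (Lam × ℝ) // #s ≤ ℵ₀} ≤ 2 ^ 𝔠 := by
    refine (mk_bounded_set_le _ _).trans ?_
    rw [mk_prod, lift_id, lift_id, mkL, mk_real, mul_eq_left c0 c1 continuum_ne_zero,
      max_eq_left c0, ← power_mul, continuum_mul_aleph0]
  have h2 : #C(X, ℝ) ≤ 2 ^ 𝔠 := by
    refine (mk_le_of_injective hj).trans ?_
    rw [← power_def, mkT, mk_prod, lift_id, lift_id, mk_real]
    refine (power_le_power_right ((mul_le_mul' c1 h1).trans (mul_eq_self c0).le)).trans ?_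
    rw [← power_mul, continuum_mul_self]
  rw [mk_prod, lift_id, lift_id, mkL, mk_nat]
  exact (mul_le_mul' h2 c0).trans (mul_eq_self c0).le

open Classical in
noncomputable def chi (ξ : Lam) : C(X, ℝ) :=
  ⟨fun x => if x.1 = ξ then 1 else 0, Continuous.comp (f := Prod.fst)
    (g := fun y : OnePoint Lam => if y = ξ then (1 : ℝ) else 0)
    ((OnePoint.continuous_iff_from_discrete _).2 (tendsto_const_nhds.congr' (by
      filter_upwards [(finite_singleton ξ).compl_mem_cofinite] with η h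
      have : η ≠ ξ := h
      simp [this]))) continuous_fst⟩

lemma tag (t : TT) : ∃ (G : C(X, ℝ) × ℕ → C(X, ℝ)) (ξ : C(X, ℝ) × ℕ → Lam),
    Function.Injective ξ ∧ (∀ q, G q (ξ q, t) ≠ G q (∞, t)) ∧
      ∀ q x, |q.1 x - G q x| ≤ 1 / (q.2 + 1) := by
  obtain ⟨⟨ξ, hξ⟩⟩ := (Cardinal.le_def _ _).1 card
  have : ∀ q : C(X, ℝ) × ℕ, ∃ c : ℝ, |c| ≤ 1 / (q.2 + 1) ∧ q.1 (ξ q, t) + c ≠ q.1 (∞, t) := by
    intro q
    have hp : (0 : ℝ) < 1 / (q.2 + 1) := Nat.one_div_pos_of_nat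
    by_cases h : q.1 (ξ q, t) = q.1 (∞, t)
    · exact ⟨_, (abs_of_pos hp).le, by linarith [h.le] |> ne_of_gt⟩
    · exact ⟨0, by simpa using hp.le, by simpa using h⟩
  choose c h1 h2 using this
  refine ⟨fun q => q.1 + c q • chi (ξ q), ξ, hξ, fun q => by simpa [chi] using h2 q,
    fun q x => le_trans ?_ (h1 q)⟩
  by_cases h : x.1 = ξ q <;> simp [chi, h]

noncomputable def fn (s : TT → Bool) : C(X, ℝ) :=
  ⟨fun x => if s x.2 = true then 1 else 0, (continuous_of_discreteTopology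
    (f := fun t : TT => if s t = true then (1 : ℝ) else 0)).comp continuous_snd⟩

lemma fn_cl (s : TT → Bool) : (fn s : X → ℝ) ∈
    closure ((fun f : C(X, ℝ) => (f : X → ℝ)) '' range fun p => fn (H5SP.D p)) := by
  classical
  refine mem_closure_iff.2 fun U hU hs => ?_
  obtain ⟨G, hG⟩ := H5C.face_open hU hs
  obtain ⟨p, hp⟩ := H5SP.D_app (G.image Prod.snd) s
  refine ⟨_, hG fun x hx => ?_, _, ⟨p, rfl⟩, rfl⟩
  have := hp x.2 (Finset.mem_image_of_mem _ hx)
  exact congrArg (fun b => if b = true then (1 : ℝ) else 0) this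

end H5UD
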