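import Pool.Agent.Lib.helper5.Sparse

set_option autoImplicit false

open Set Filter Topology

namespace H5Sp

def CX {I : Type} (lev : I → ℕ) (u : I → ℝ) : Prop :=
  ∀ k ε, 0 < ε → {i | lev i = k ∧ ε < |u i|}.Finite

lemma CX.le {I : Type} {lev : I → ℕ} {u : I → ℝ} (h : CX lev u) (k : ℕ) {ε : ℝ} (hε : 0 < ε) :
    {i | lev i ≤ k ∧ ε < |u i|}.Finite := by
  refine ((finite_Iic k).biUnion fun l _ => h l ε hε).subset fun i hi => ?_
  exact mem_biUnion hi.1 ⟨rfl, hi.2⟩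

section bump
variable {I : Type} (lev : I → ℕ) (cd : I → ℕ)

noncomputable def nd (i : I) : ℝ := lev i + 1 / 4 ^ (cd i + 1)

noncomputable def β (i : I) (x : ℝ) : ℝ := max 0 (1 - |2 * 4 ^ (cd i + 1) * (x - lev i) - 2|)

lemma β_cont (i : I) : Continuous (β lev cd i) := by unfold β; fun_prop

lemma β_nonneg (i : I) (x : ℝ) : 0 ≤ β lev cd i x := le_max_left _ _

lemma β_le (i : I) (x : ℝ) : β lev cd i x ≤ 1 :=
  max_le zero_le_one (by linarith [abs_nonneg (2 * 4 ^ (cd i + 1) * (x - lev i) - 2)])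

lemma β_nd (i : I) : β lev cd i (nd lev cd i) = 1 := by
  unfold β nd
  have : (2 * 4 ^ (cd i + 1) * (lev i + 1 / 4 ^ (cd i + 1) - lev i) - 2 : ℝ) = 0 := by
    field_simp; ring
  rw [this]; simp

variable {lev cd}

lemma β_ne {i : I} {x : ℝ} (h : β lev cd i x ≠ 0) :
    1 < 2 * 4 ^ (cd i + 1) * (x - lev i) ∧ 2 * 4 ^ (cd i + 1) * (x - lev i) < 3 := by
  have : |2 * 4 ^ (cd i + 1) * (x - lev i) - 2| < 1 := by
    by_contra hc
    exact h (max_eq_left (by linarith [not_lt.1 hc]))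
  obtain ⟨h1, h2⟩ := abs_lt.1 this
  constructor <;> linarith

lemma β_rng {i : I} {x : ℝ} (h : β lev cd i x ≠ 0) : lev i < x ∧ x < lev i + 1 := by
  obtain ⟨h1, h2⟩ := β_ne h
  have h3 : (4 : ℝ) ≤ 4 ^ (cd i + 1) := le_self_pow₀ (by norm_num) (by omega)
  have h4 : 0 < x - lev i := by
    by_contra hc
    nlinarith [not_lt.1 hc]
  constructor <;> nlinarith

lemma β_uniq (hc : Function.Injective cd) {i j : I} {x : ℝ} (h : β lev cd i x ≠ 0)
    (h' : β lev cd j x ≠ 0) : i = j := by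
  have e1 : lev i = lev j := by
    obtain ⟨h1, h2⟩ := β_rng h
    obtain ⟨h3, h4⟩ := β_rng h'
    have h5 : (lev i : ℝ) < lev j + 1 := by linarith
    have h6 : (lev j : ℝ) < lev i + 1 := by linarith
    norm_cast at h5 h6
    omega
  have key : ∀ i j : I, β lev cd i x ≠ 0 → β lev cd j x ≠ 0 → lev i = lev j → ¬ cd i < cd j := by
    intro i j h h' e1 hlt
    obtain ⟨h1, -⟩ := β_ne h
    obtain ⟨-, h2⟩ := β_ne h'
    have h0 := (β_rng h).1
    rw [← e1] at h2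
    have h3 : (4 : ℝ) ^ (cd i + 1 + 1) ≤ 4 ^ (cd j + 1) := pow_le_pow_right₀ (by norm_num) (by omega)
    rw [pow_succ] at h3
    nlinarith
  exact hc (le_antisymm (not_lt.1 (key j i h' h e1.symm)) (not_lt.1 (key i j h h' e1)))

lemma β_nat (i : I) (k : ℕ) : β lev cd i k = 0 := by
  by_contra h
  obtain ⟨h1, h2⟩ := β_rng h
  norm_cast at h1 h2
  omega

variable (lev cd)

open Classical in
noncomputable def Ex (g : I → ℝ) (x : ℝ) : ℝ :=
  if h : ∃ i, β lev cd i x ≠ 0 then g h.choose * β lev cd h.choose x else 0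

noncomputable def Rs (f : ℝ → ℝ) (i : I) : ℝ := f (nd lev cd i) - f (lev i)

variable {lev cd}

lemma Ex_eq (hc : Function.Injective cd) (g : I → ℝ) {i : I} {x : ℝ} (h : β lev cd i x ≠ 0) :
    Ex lev cd g x = g i * β lev cd i x := by
  have h1 : ∃ i, β lev cd i x ≠ 0 := ⟨i, h⟩
  rw [Ex, dif_pos h1, β_uniq hc h1.choose_spec h]

lemma Ex_nat (g : I → ℝ) (k : ℕ) : Ex lev cd g k = 0 := by
  rw [Ex, dif_neg]
  rintro ⟨i, hi⟩
  exact hi (β_nat i k)

lemma Ex_nd (hc : Function.Injective cd) (g : I → ℝ) (i : I) : Ex lev cd g (nd lev cd i) = g i := by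
  rw [Ex_eq hc g (i := i) (by rw [β_nd]; exact one_ne_zero), β_nd, mul_one]

lemma Ex_uc (x : ℝ) : UniformContinuous fun g : I → ℝ => Ex lev cd g x := by
  unfold Ex
  split_ifs with h
  · exact (Pi.uniformContinuous_proj _ h.choose).mul_const' _
  · exact uniformContinuous_const

lemma Ex_cont (hc : Function.Injective cd) {g : I → ℝ} (hg : CX lev g) :
    Continuous (Ex lev cd g) := by
  classical
  refine continuous_iff_continuousAt.2 fun x0 =>
    continuousAt_of_locally_uniform_approx_of_continuousAt fun u hu => ?_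
  obtain ⟨ε, hε, hsub⟩ := Metric.mem_uniformity_dist.1 hu
  obtain ⟨k, hk⟩ := exists_nat_gt x0
  have hJ := hg.le k (half_pos hε)
  refine ⟨Iio (k : ℝ), Iio_mem_nhds hk, fun y => ∑ i ∈ hJ.toFinset, g i * β lev cd i y,
    (continuous_finsetSum _ fun i _ => continuous_const.mul (β_cont lev cd i)).continuousAt,
    fun y hy => hsub ?_⟩
  beta_reduce
  by_cases h : ∃ i, β lev cd i y ≠ 0
  · obtain ⟨i, hi⟩ := h
    rw [Ex_eq hc g hi]
    have h0 : ∀ j, j ≠ i → g j * β lev cd j y = 0 := fun j hj => by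
      rw [show β lev cd j y = 0 from by_contra fun hh => hj (β_uniq hc hh hi), mul_zero]
    by_cases hiJ : i ∈ hJ.toFinset
    · rw [Finset.sum_eq_single_of_mem i hiJ fun j _ hj => h0 j hj, dist_self]; exact hε
    · rw [Finset.sum_eq_zero fun j hj => h0 j fun e => hiJ (e ▸ hj), Real.dist_eq, sub_zero, abs_mul,
        abs_of_nonneg (β_nonneg _ _ _ _)]
      have h1 : lev i ≤ k := by
        have : (lev i : ℝ) < k := (β_rng hi).1.trans hy
        exact_mod_cast this.le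
      have h2 : |g i| ≤ ε / 2 := by
        by_contra hh
        exact hiJ (hJ.mem_toFinset.2 ⟨h1, not_le.1 hh⟩)
      have := mul_le_of_le_one_right (abs_nonneg (g i)) (β_le lev cd i y)
      linarith
  · rw [Ex, dif_neg h]
    push Not at h
    simp [h, hε]

lemma Rs_CX (hc : Function.Injective cd) {f : ℝ → ℝ} (hf : Continuous f) : CX lev (Rs lev cd f) := by
  intro k ε hε
  have h1 : Tendsto (fun c : ℕ => (k : ℝ) + 1 / 4 ^ (c + 1)) atTop (𝓝 (k + 0)) := by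
    refine tendsto_const_nhds.add ?_
    simp only [one_div]
    exact tendsto_inv_atTop_zero.comp ((tendsto_pow_atTop_atTop_of_one_lt (by norm_num)).comp
      (tendsto_add_atTop_nat 1))
  rw [add_zero] at h1
  obtain ⟨c0, h2⟩ := Metric.tendsto_atTop.1 ((hf.tendsto _).comp h1) ε hε
  refine ((finite_Iio c0).preimage hc.injOn).subset ?_
  rintro i ⟨rfl, hi⟩
  by_contra hh
  exact (h2 (cd i) (not_lt.1 hh)).not_gt hi

lemma Rs_uc {X : Type} [UniformSpace X] {F : X → ℝ → ℝ} (h : ∀ x, UniformContinuous fun f => F f x) :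
    UniformContinuous fun f => Rs lev cd (F f) :=
  uniformContinuous_pi.2 fun _ => (h _).sub (h _)

lemma Rs_mod (hc : Function.Injective cd) (f : ℝ → ℝ) (g : I → ℝ) :
    Rs lev cd (fun x => f x - Ex lev cd (Rs lev cd f) x + Ex lev cd g x) = g := by
  funext i
  simp only [Rs, Ex_nd hc, Ex_nat]
  ring

variable (lev cd)

noncomputable def md (f : ℝ → ℝ) (g : I → ℝ) (x : ℝ) : ℝ :=
  f x - Ex lev cd (Rs lev cd f) x + Ex lev cd g x

variable {lev cd}

lemma m0 (f : ℝ → ℝ) (g : I → ℝ) : md lev cd f g 0 = f 0 := by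
  have := fun g => Ex_nat (lev := lev) (cd := cd) g 0
  simp only [Nat.cast_zero] at this
  simp [md, this]

lemma m1 (hc : Function.Injective cd) (f : ℝ → ℝ) (g : I → ℝ) : Rs lev cd (md lev cd f g) = g :=
  Rs_mod hc f g

lemma m2 (hc : Function.Injective cd) (f : ℝ → ℝ) (g : I → ℝ) :
    md lev cd (md lev cd f g) (Rs lev cd f) = f := by
  funext x
  rw [md, m1 hc]; simp [md]

lemma m3 (hc : Function.Injective cd) {f : ℝ → ℝ} {g : I → ℝ} (hf : Continuous f) (hg : CX lev g) :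
    Continuous (md lev cd f g) :=
  (hf.sub (Ex_cont hc (Rs_CX hc hf))).add (Ex_cont hc hg)

lemma m4 {X : Type} [UniformSpace X] {F : X → ℝ → ℝ} {G : X → I → ℝ}
    (h1 : ∀ x, UniformContinuous fun f => F f x) (h2 : UniformContinuous G) (x : ℝ) :
    UniformContinuous fun f => md lev cd (F f) (G f) x :=
  ((h1 x).sub ((Ex_uc x).comp (Rs_uc h1))).add ((Ex_uc x).comp h2)

end bump

section space
variable {D : Type}

def cons (w : D → ℝ) (u : D × ℕ → ℝ) (i : D × ℕ) : ℝ := Nat.casesOn i.2 (w i.1) fun n => u (i.1, n)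
def tl (u : D × ℕ → ℝ) (i : D × ℕ) : ℝ := u (i.1, i.2 + 1)
def hd (u : D × ℕ → ℝ) (d : D) : ℝ := u (d, 0)

lemma tl_cons (w : D → ℝ) (u : D × ℕ → ℝ) : tl (cons w u) = u := rfl
lemma hd_cons (w : D → ℝ) (u : D × ℕ → ℝ) : hd (cons w u) = w := rfl
lemma cons_eta (u : D × ℕ → ℝ) : cons (hd u) (tl u) = u := by
  funext ⟨d, n⟩; cases n <;> rfl

lemma c1 {lev : D → ℕ} {w : D → ℝ} {u : D × ℕ → ℝ} (hw : CX lev w) (hu : CX (fun i => lev i.1) u) :
    CX (fun i => lev i.1) (cons w u) := fun k ε hε => by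
  refine (((hw k ε hε).image fun d => (d, 0)).union
    ((hu k ε hε).image fun i => (i.1, i.2 + 1))).subset ?_
  rintro ⟨d, _ | n⟩ hi
  · exact Or.inl ⟨d, hi, rfl⟩
  · exact Or.inr ⟨(d, n), hi, rfl⟩

lemma c2 {lev : D → ℕ} {u : D × ℕ → ℝ} (hu : CX (fun i => lev i.1) u) :
    CX (fun i => lev i.1) (tl u) := fun k ε hε =>
  (hu k ε hε).preimage (f := fun i : D × ℕ => (i.1, i.2 + 1)) fun a _ b _ h =>
    Prod.ext (Prod.ext_iff.1 h).1 (by simpa using (Prod.ext_iff.1 h).2)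

lemma c3 {lev : D → ℕ} {u : D × ℕ → ℝ} (hu : CX (fun i => lev i.1) u) : CX lev (hd u) :=
  fun k ε hε => (hu k ε hε).preimage (f := fun d : D => (d, 0)) fun _ _ _ _ h =>
    (Prod.ext_iff.1 h).1

lemma cons_uc {X : Type} [UniformSpace X] {w : X → D → ℝ} {u : X → D × ℕ → ℝ}
    (h1 : UniformContinuous w) (h2 : UniformContinuous u) :
    UniformContinuous fun x => cons (w x) (u x) := by
  refine uniformContinuous_pi.2 ?_
  rintro ⟨d, _ | n⟩
  · exact uniformContinuous_pi.1 h1 d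
  · exact uniformContinuous_pi.1 h2 (d, n)

lemma tl_uc : UniformContinuous (tl : (D × ℕ → ℝ) → _) :=
  uniformContinuous_pi.2 fun i => Pi.uniformContinuous_proj _ (i.1, i.2 + 1)

lemma hd_uc : UniformContinuous (hd : (D × ℕ → ℝ) → _) :=
  uniformContinuous_pi.2 fun d => Pi.uniformContinuous_proj _ (d, 0)

lemma ev_uc {Z : Type} [TopologicalSpace Z] (z : Z) :
    UniformContinuous fun g : {g : Z → ℝ // Continuous g} => g.1 z :=
  (Pi.uniformContinuous_proj _ z).comp uniformContinuous_subtype_val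

variable (𝓕 : Filter D)

def YS (_ : Filter D) : Type := ℝ ⊕ D

def il (x : ℝ) : YS 𝓕 := Sum.inl x
def ir (d : D) : YS 𝓕 := Sum.inr d
def el (a : ℝ → ℝ) (b : D → ℝ) : YS 𝓕 → ℝ := Sum.elim a b
@[simp] lemma el_il (a : ℝ → ℝ) (b : D → ℝ) (x : ℝ) : el 𝓕 a b (il 𝓕 x) = a x := rfl
@[simp] lemma el_ir (a : ℝ → ℝ) (b : D → ℝ) (d : D) : el 𝓕 a b (ir 𝓕 d) = b d := rfl
lemma YS_ind {p : YS 𝓕 → Prop} (h1 : ∀ x, p (il 𝓕 x)) (h2 : ∀ d, p (ir 𝓕 d)) : ∀ y, p y := by
  rintro (x | d)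
  exacts [h1 x, h2 d]

def Adm (g : YS 𝓕 → ℝ) : Prop :=
  Continuous (fun x => g (il 𝓕 x)) ∧ Tendsto (fun d => g (ir 𝓕 d)) 𝓕 (𝓝 (g (il 𝓕 0)))

def ιY (y : YS 𝓕) (g : {g // Adm 𝓕 g}) : ℝ := g.1 y

instance : TopologicalSpace (YS 𝓕) := TopologicalSpace.induced (ιY 𝓕) inferInstance

lemma ind_ι : IsInducing (ιY 𝓕) := ⟨rfl⟩

lemma tendsto_inr : Tendsto (ir 𝓕) 𝓕 (𝓝 (il 𝓕 0)) :=
  (ind_ι 𝓕).tendsto_nhds_iff.2 (tendsto_pi_nhds.2 fun g => g.2.2)

lemma cont_iff (g : YS 𝓕 → ℝ) : Continuous g ↔ Adm 𝓕 g := by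
  refine ⟨fun h => ⟨h.comp ?_, (h.tendsto _).comp (tendsto_inr 𝓕)⟩, fun h =>
    (continuous_apply (⟨g, h⟩ : {g // Adm 𝓕 g})).comp (ind_ι 𝓕).continuous⟩
  exact (ind_ι 𝓕).continuous_iff.2 (continuous_pi fun g => g.2.1)

lemma t35 (h : ∀ d, {d}ᶜ ∈ 𝓕) : T35Space (YS 𝓕) := by
  classical
  refine IsEmbedding.t35Space (f := ιY 𝓕) ⟨ind_ι 𝓕, ?_⟩
  have a1 : ∀ d, Adm 𝓕 (el 𝓕 (fun _ => 0) fun e => if e = d then 1 else 0) := fun d =>
    ⟨continuous_const, tendsto_const_nhds.congr' (by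
      filter_upwards [h d] with e he
      simp [show e ≠ d from he])⟩
  refine YS_ind 𝓕 (fun x => YS_ind 𝓕 (fun y hh => ?_) fun e hh => ?_)
    fun d => YS_ind 𝓕 (fun y hh => ?_) fun e hh => ?_
  · exact congrArg (il 𝓕) (congrFun hh ⟨el 𝓕 id fun _ => 0, continuous_id, tendsto_const_nhds⟩)
  · simpa [ιY] using congrFun hh ⟨_, a1 e⟩
  · simpa [ιY] using congrFun hh ⟨_, a1 d⟩
  · have := congrFun hh ⟨_, a1 e⟩
    simp only [ιY, el_ir, if_true, ite_eq_left_iff, zero_ne_one, imp_false, not_not] at this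
    rw [this]

variable (lev : D → ℕ) (cd : D × ℕ → ℕ) (H : (D → ℝ) ≃ᵤ (D → ℝ))

noncomputable def Φ (g : YS 𝓕 → ℝ) : ℝ → ℝ := md (fun i => lev i.1) cd (fun x => g (il 𝓕 x))
  (cons (H fun d => g (ir 𝓕 d) - g (il 𝓕 0)) (Rs (fun i => lev i.1) cd fun x => g (il 𝓕 x)))

noncomputable def Ψ (f : ℝ → ℝ) : YS 𝓕 → ℝ :=
  el 𝓕 (md (fun i => lev i.1) cd f (tl (Rs (fun i => lev i.1) cd f)))
    fun d => H.symm (hd (Rs (fun i => lev i.1) cd f)) d + f 0

lemma ΨΦ (hc : Function.Injective cd) (g : YS 𝓕 → ℝ) : Ψ 𝓕 lev cd H (Φ 𝓕 lev cd H g) = g := by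
  refine funext (YS_ind 𝓕 (fun x => ?_) fun d => ?_)
  · rw [Ψ, el_il, Φ, m1 hc, tl_cons, m2 hc]
  · rw [Ψ, el_ir, Φ, m1 hc, hd_cons, m0, H.symm_apply_apply, sub_add_cancel]

lemma ΦΨ (hc : Function.Injective cd) (f : ℝ → ℝ) : Φ 𝓕 lev cd H (Ψ 𝓕 lev cd H f) = f := by
  simp only [Φ, Ψ, el_il, el_ir, m0, add_sub_cancel_right]
  rw [m1 hc, H.apply_symm_apply, cons_eta, m2 hc]

theorem absorb [Countable D] (hH : ∀ g, Tendsto g 𝓕 (𝓝 0) ↔ CX lev (H g)) :
    Nonempty ({g : YS 𝓕 → ℝ // Continuous g} ≃ᵤ {g : ℝ → ℝ // Continuous g}) := by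
  obtain ⟨cd, hc⟩ := exists_injective_nat (D × ℕ)
  have hΦ : ∀ g, Continuous g → Continuous (Φ 𝓕 lev cd H g) := fun g hg => by
    obtain ⟨g1, g2⟩ := (cont_iff 𝓕 g).1 hg
    exact m3 hc g1 (c1 ((hH _).1 (by simpa using g2.sub_const (g (il 𝓕 0)))) (Rs_CX hc g1))
  have hΨ : ∀ f, Continuous f → Continuous (Ψ 𝓕 lev cd H f) := fun f hf => by
    refine (cont_iff 𝓕 _).2 ⟨m3 hc hf (c2 (Rs_CX hc hf)), ?_⟩
    have := ((hH (H.symm (hd (Rs (fun i => lev i.1) cd f)))).2 (by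
      rw [H.apply_symm_apply]; exact c3 (Rs_CX hc hf))).add_const (f 0)
    simpa [Ψ, m0] using this
  have u1 : UniformContinuous fun g : {g : YS 𝓕 → ℝ // Continuous g} => Φ 𝓕 lev cd H g.1 :=
    uniformContinuous_pi.2 (m4 (fun x => ev_uc _) (cons_uc (H.uniformContinuous.comp
      (uniformContinuous_pi.2 fun d => (ev_uc _).sub (ev_uc _))) (Rs_uc fun x => ev_uc _)))
  have u0 : UniformContinuous fun f : {g : ℝ → ℝ // Continuous g} =>
      Rs (fun i => lev i.1) cd f.1 := Rs_uc fun x => ev_uc x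
  have u2 : UniformContinuous fun f : {g : ℝ → ℝ // Continuous g} => Ψ 𝓕 lev cd H f.1 := by
    refine uniformContinuous_pi.2 (YS_ind 𝓕 (fun x => ?_) fun d => ?_)
    · simp only [Ψ, el_il]
      exact m4 (fun x => ev_uc _) (tl_uc.comp u0) x
    · simp only [Ψ, el_ir]
      exact (uniformContinuous_pi.1 (H.symm.uniformContinuous.comp (hd_uc.comp u0)) d).add (ev_uc _)
  exact ⟨⟨⟨fun g => ⟨_, hΦ _ g.2⟩, fun f => ⟨_, hΨ _ f.2⟩,
    fun g => Subtype.ext (ΨΦ 𝓕 lev cd H hc g.1), fun f => Subtype.ext (ΦΨ 𝓕 lev cd H hc f.1)⟩,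
    u1.subtype_mk _, u2.subtype_mk _⟩⟩

end space

abbrev DD := Σ K : ℕ, Fin (2 * 3 ^ K)

open Classical in
noncomputable def cardB (S : Set DD) (K : ℕ) : ℕ := (Finset.univ.filter fun i => (⟨K, i⟩ : DD) ∈ S).card

def ZZ (S : Set DD) : Prop := ∀ k, ∀ᶠ K in atTop, cardB S K ≤ 3 ^ (K - k)

lemma ZZ_small {S : Set DD} (h : ∀ K i j, (⟨K, i⟩ : DD) ∈ S → (⟨K, j⟩ : DD) ∈ S → i = j) : ZZ S := by
  classical
  refine fun k => Eventually.of_forall fun K => le_trans (Finset.card_le_one.2 fun i hi j hj => ?_)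
    (Nat.one_le_pow _ _ (by norm_num))
  exact h K i j (Finset.mem_filter.1 hi).2 (Finset.mem_filter.1 hj).2

def FF : Filter DD := Filter.comk ZZ (ZZ_small fun _ _ _ h => h.elim)
  (fun t ht s hs k => by
    classical
    filter_upwards [ht k] with K hK
    refine le_trans (Finset.card_le_card fun i hi => ?_) hK
    simp only [Finset.mem_filter, Finset.mem_univ, true_and] at hi ⊢
    exact hs hi)
  (fun s hs t ht k => by
    classical
    filter_upwards [hs (k + 1), ht (k + 1), eventually_ge_atTop (k + 1)] with K h1 h2 h3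
    have h4 : cardB (s ∪ t) K ≤ cardB s K + cardB t K := by
      refine le_trans (Finset.card_le_card fun i hi => ?_) (Finset.card_union_le _ _)
      simpa using hi
    have h5 : K - k = K - (k + 1) + 1 := by omega
    rw [h5, pow_succ]
    omega)

lemma mem_FF {S : Set DD} : S ∈ FF ↔ ZZ Sᶜ := Filter.mem_comk

instance : FF.NeBot := by
  refine ⟨fun h => ?_⟩
  have h1 : (∅ : Set DD) ∈ FF := by rw [h]; exact mem_bot
  obtain ⟨K, hK⟩ := (mem_FF.1 h1 0).exists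
  simp [cardB] at hK

lemma fin_blocks (M : ℕ) : {d : DD | d.1 < M}.Finite := by
  refine ((finite_Iio M).biUnion fun K _ => finite_range fun i : Fin (2 * 3 ^ K) => (⟨K, i⟩ : DD)).subset ?_
  rintro ⟨K, i⟩ h
  exact mem_biUnion h ⟨i, rfl⟩

lemma tendsto_FF (g : DD → ℝ) : Tendsto g FF (𝓝 0) ↔
    ∀ ε, 0 < ε → ∀ k, ∀ᶠ K in atTop, cnt ε (fun i => g ⟨K, i⟩) ≤ 3 ^ (K - k) := by
  rw [(Metric.nhds_basis_closedBall (x := (0 : ℝ))).tendsto_right_iff]
  refine forall₂_congr fun ε _ => ?_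
  rw [Filter.Eventually, mem_FF]
  refine forall_congr' fun k => eventually_congr (Eventually.of_forall fun K => ?_)
  have : cardB {x | g x ∈ Metric.closedBall 0 ε}ᶜ K = cnt ε fun i => g ⟨K, i⟩ := by
    unfold cardB cnt
    congr 1
    ext i
    simp
  rw [this]

theorem ureal : Nonempty ({g : YS FF → ℝ // Continuous g} ≃ᵤ {g : ℝ → ℝ // Continuous g}) := by
  classical
  choose H hH using block
  have ex : ∀ d : DD, ∃ k, 2 * 3 ^ (d.1 - k) ≤ (d.2 : ℕ) ∨ d.1 ≤ k := fun d => ⟨d.1, Or.inr le_rfl⟩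
  have uc : ∀ G : ∀ n, (Fin n → ℝ) → (Fin n → ℝ), (∀ n, UniformContinuous (G n)) →
      UniformContinuous fun (g : DD → ℝ) (d : DD) => G _ (fun i => g ⟨d.1, i⟩) d.2 := fun G hG =>
    uniformContinuous_pi.2 fun d => (Pi.uniformContinuous_proj _ d.2).comp ((hG _).comp
      (uniformContinuous_pi.2 fun i => Pi.uniformContinuous_proj _ _))
  let HH : (DD → ℝ) ≃ᵤ (DD → ℝ) :=
    ⟨⟨fun g d => H _ (fun i => g ⟨d.1, i⟩) d.2, fun g d => (H _).symm (fun i => g ⟨d.1, i⟩) d.2,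
      fun g => funext fun d => congrFun ((H _).symm_apply_apply fun i => g ⟨d.1, i⟩) d.2,
      fun g => funext fun d => congrFun ((H _).apply_symm_apply fun i => g ⟨d.1, i⟩) d.2⟩,
      uc _ fun n => (H n).uniformContinuous, uc _ fun n => (H n).symm.uniformContinuous⟩
  refine absorb FF (fun d => Nat.find (ex d)) HH fun g => ?_
  rw [tendsto_FF]
  constructor
  · intro h k ε hε
    have h1 : 0 < min (ε / 2) (1 / 2) := by positivity
    obtain ⟨M, hM⟩ := eventually_atTop.1 (h _ h1 k)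
    refine (fin_blocks (max M (k + 1))).subset ?_
    rintro ⟨K, j⟩ ⟨h2, h3⟩
    by_contra hc
    have h4 : max M (k + 1) ≤ K := not_lt.1 hc
    have h5 := Nat.find_spec (ex ⟨K, j⟩)
    rw [show Nat.find (ex ⟨K, j⟩) = k from h2] at h5
    have h6 := (hH _ _ h1.le (min_le_right _ _) (K - k) _).1 (hM K (by omega)) j
      (h5.resolve_right (by simp only; omega))
    have h7 : ε < |H _ (fun i => g ⟨K, i⟩) j| := h3
    linarith [min_le_left (ε / 2) (1 / 2)]
  · intro h ε hε k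
    have h1 : 0 < min (ε / 2) (1 / 2) := by positivity
    obtain ⟨M, hM⟩ := ((h.le (k + 1) h1).image Sigma.fst).bddAbove
    filter_upwards [eventually_gt_atTop M, eventually_ge_atTop (k + 1)] with K h2 h3
    have h4 := (hH _ _ h1.le (min_le_right _ _) (K - (k + 1)) fun i => g ⟨K, i⟩).2 fun j hj => by
      by_contra hc
      exact h2.not_ge (hM ⟨⟨K, j⟩, ⟨Nat.find_min' _ (Or.inl hj), not_le.1 hc⟩, rfl⟩)
    rw [show K - (k + 1) + 1 = K - k by omega] at h4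
    refine le_trans (cnt_le fun i hi => lt_of_le_of_lt ?_ hi) h4
    linarith [min_le_left (ε / 2) (1 / 2)]

instance : T35Space (YS FF) := t35 FF fun d => mem_FF.2 (ZZ_small fun K i j h1 h2 => by
  simp only [compl_compl, mem_singleton_iff] at h1 h2
  exact eq_of_heq (Sigma.mk.inj (h1.trans h2.symm)).2)

lemma not_closed : ¬ IsClosed (range (ir FF)) := fun h => by
  obtain ⟨_, h⟩ := h.mem_of_tendsto (tendsto_inr FF) (Eventually.of_forall fun d => ⟨d, rfl⟩)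
  cases h

lemma fin_compact {C : Set (YS FF)} (hC : IsCompact C) :
    (range (ir FF) ∩ C).Finite := by
  classical
  let ch : ∀ K, Fin (2 * 3 ^ K) := fun K =>
    if h : ∃ i, ir FF ⟨K, i⟩ ∈ C then h.choose else ⟨0, by positivity⟩
  have hg : Continuous (el FF (fun _ => 0) fun d => if d.2 = ch d.1 then (d.1 : ℝ) else 0) := by
    refine (cont_iff FF _).2 ⟨continuous_const, tendsto_const_nhds.congr' ?_⟩
    refine mem_FF.2 (ZZ_small fun K i j h1 h2 => ?_)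
    have k : ∀ i, (⟨K, i⟩ : DD) ∈ {d : DD | (0 : ℝ) = if d.2 = ch d.1 then (d.1 : ℝ) else 0}ᶜ →
        i = ch K := fun i h => by
      by_contra hc
      simp [hc] at h
    exact (k i h1).trans (k j h2).symm
  obtain ⟨M, hM⟩ := (hC.image hg).bddAbove
  obtain ⟨m, hm⟩ := exists_nat_gt M
  refine ((fin_blocks m).image (ir FF)).subset ?_
  rintro _ ⟨⟨⟨K, i⟩, rfl⟩, hi⟩
  refine ⟨_, ?_, rfl⟩
  have h1 : ∃ i, ir FF ⟨K, i⟩ ∈ C := ⟨i, hi⟩
  have h2 : ir FF ⟨K, ch K⟩ ∈ C := by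
    simp only [ch, dif_pos h1]; exact h1.choose_spec
  have h3 := hM ⟨_, h2, rfl⟩
  simp only [el_ir, if_true] at h3
  exact_mod_cast h3.trans_lt hm

end H5Sp
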