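import Pool.Agent.Lib.helper5.Ladder

set_option autoImplicit false

open Set Filter Topology Function

namespace H5Sp

theorem triU {Z : Type} [DecidableEq Z] (rk : Z → ℕ) (Γ : (Z → ℝ) → Z → ℝ)
    (hU : ∀ z, UniformContinuous fun f => Γ f z)
    (hd : ∀ f g z, (∀ y, rk y < rk z → f y = g y) → f z = g z → Γ f z = Γ g z)
    (he : ∀ f z a b, a ≤ b → b - a ≤ Γ (update f z b) z - Γ (update f z a) z) :
    ∃ e : (Z → ℝ) ≃ᵤ (Z → ℝ), ∀ f, e f = Γ f := by
  have ex : ∀ f z a b, |a - b| ≤ |Γ (update f z a) z - Γ (update f z b) z| := by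
    intro f z a b
    rcases le_total a b with h | h
    · rw [abs_sub_comm, abs_of_nonneg (sub_nonneg.2 h), abs_sub_comm]
      exact (he f z a b h).trans (le_abs_self _)
    · rw [abs_of_nonneg (sub_nonneg.2 h)]
      exact (he f z b a h).trans (le_abs_self _)
  have up : ∀ f g z a, (∀ y, rk y < rk z → f y = g y) → g z = a → Γ (update f z a) z = Γ g z := by
    intro f g z a h h'
    refine hd _ _ _ (fun y hy => ?_) (by simp [h'])
    rw [update_of_ne (by rintro rfl; omega), h y hy]
  have uq : ∀ f g z, (∀ y, rk y < rk z → f y = g y) → Γ f z = Γ g z → f z = g z := by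
    intro f g z h h'
    have := ex f z (f z) (g z)
    rw [update_eq_self, up f g z _ h rfl, h', sub_self, abs_zero] at this
    exact sub_eq_zero.1 (abs_nonpos_iff.1 this)
  have sj : ∀ f z c, ∃ a, Γ (update f z a) z = c := by
    intro f z
    refine Continuous.surjective (f := fun a => Γ (update f z a) z)
      ((hU z).continuous.comp (continuous_const.update z continuous_id)) ?_ ?_
    · refine tendsto_atTop_mono' _ ?_ (tendsto_atTop_add_const_right _ (Γ (update f z 0) z) tendsto_id)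
      filter_upwards [eventually_ge_atTop 0] with a ha
      have := he f z 0 a ha
      simp only [id]; linarith
    · refine tendsto_atBot_mono' _ ?_ (tendsto_atBot_add_const_right _ (Γ (update f z 0) z) tendsto_id)
      filter_upwards [eventually_le_atBot 0] with a ha
      have := he f z a 0 ha
      simp only [id]; linarith
  choose iv hiv using sj
  have inj : Injective Γ := by
    intro f g h
    have : ∀ n z, rk z < n → f z = g z := by
      intro n
      induction n with
      | zero => simp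
      | succ n ih => exact fun z hz => uq f g z (fun y hy => ih y (by omega)) (congrFun h z)
    exact funext fun z => this _ z (Nat.lt_succ_self _)
  have sur : Surjective Γ := by
    intro v
    let J : ℕ → Z → ℝ := fun n => Nat.rec 0 (fun _ j z => iv j z (v z)) n
    have hJ : ∀ n z, J (n + 1) z = iv (J n) z (v z) := fun _ _ => rfl
    have h1 : ∀ n z, rk z < n → J (n + 1) z = J n z := by
      intro n
      induction n with
      | zero => simp
      | succ n ih =>
        intro z hz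
        have := uq (update (J (n + 1)) z (J (n + 1 + 1) z)) (update (J n) z (J (n + 1) z)) z
          (fun y hy => by
            rw [update_of_ne (by rintro rfl; omega), update_of_ne (by rintro rfl; omega),
              ih y (by omega)]) (by rw [hJ (n + 1), hiv, hJ n, hiv])
        simpa using this
    have h2 : ∀ z n, rk z + 1 ≤ n → J n z = J (rk z + 1) z := by
      intro z n hn
      induction n, hn using Nat.le_induction with
      | base => rfl
      | succ n hn ih => rw [h1 n z hn, ih]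
    refine ⟨fun z => J (rk z + 1) z, funext fun z => ?_⟩
    rw [← up (J (rk z)) _ z _ (fun y hy => h2 y _ hy) rfl, hJ, hiv]
  let e := Equiv.ofBijective Γ ⟨inj, sur⟩
  have hs : ∀ v, Γ (e.symm v) = v := e.apply_symm_apply
  have key : ∀ n z, rk z < n → UniformContinuous fun v => e.symm v z := by
    intro n
    induction n with
    | zero => simp
    | succ n ih =>
      intro z hz
      let F : (Z → ℝ) → Z → ℝ := fun v y => if rk y < rk z then e.symm v y else 0
      have hF : ∀ y, UniformContinuous fun v => F v y := fun y => by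
        by_cases hy : rk y < rk z
        · simpa [F, hy] using ih y (by omega)
        · simpa [F, hy] using uniformContinuous_const
      have h1 : ∀ v, Γ (update (F v) z (e.symm v z)) z = v z := fun v => by
        rw [up _ (e.symm v) z _ (fun y hy => if_pos hy) rfl, hs]
      have h2 : Tendsto (fun p : (Z → ℝ) × (Z → ℝ) => (update (F p.2) z (e.symm p.1 z),
          update (F p.1) z (e.symm p.1 z))) (uniformity _) (uniformity _) := by
        refine (tendsto_iInf.2 fun y => ?_).mono_right (Pi.uniformity _).ge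
        rw [tendsto_comap_iff]
        by_cases hy : y = z
        · subst hy
          simpa [comp_def] using tendsto_diag_uniformity _ _
        · simp only [comp_def, update_of_ne hy]
          exact tendsto_swap_uniformity.comp (hF y)
      have h3 := tendsto_uniformity_iff_dist_tendsto_zero.1 (Tendsto.comp (hU z) h2)
      have h4 := tendsto_uniformity_iff_dist_tendsto_zero.1
        (show Tendsto _ _ _ from Pi.uniformContinuous_proj (fun _ : Z => ℝ) z)
      refine tendsto_uniformity_iff_dist_tendsto_zero.2 (squeeze_zero (fun _ => dist_nonneg)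
        (fun p => ?_) (by simpa using h3.add h4))
      have h5 := ex (F p.2) z (e.symm p.1 z) (e.symm p.2 z)
      simp only [Real.dist_eq, h1] at h5 ⊢
      exact h5.trans (abs_sub_le _ _ _)
  exact ⟨⟨e, uniformContinuous_pi.2 hU,
    uniformContinuous_pi.2 fun z => key _ z (Nat.lt_succ_self _)⟩, fun _ => rfl⟩

lemma restrict {α β : Type} [UniformSpace α] [UniformSpace β] (e : α ≃ᵤ β) {p : α → Prop}
    {q : β → Prop} (h : ∀ a, p a ↔ q (e a)) : Nonempty ({a // p a} ≃ᵤ {b // q b}) :=
  ⟨⟨e.toEquiv.subtypeEquiv h, (e.uniformContinuous.comp uniformContinuous_subtype_val).subtype_mk _,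
    (e.symm.uniformContinuous.comp uniformContinuous_subtype_val).subtype_mk _⟩⟩

section gauge

noncomputable def os (h : ℕ → ℝ) (k : ℕ) : ℕ → ℝ
  | 0 => 0
  | n + 1 => max (os h k n) |h (max k (n + 1)) - h k|

noncomputable def mn (c : ℕ → ℝ) : ℕ → ℝ
  | 0 => c 0
  | n + 1 => min (mn c n) (c (n + 1))

lemma os_nonneg (h : ℕ → ℝ) (k n : ℕ) : 0 ≤ os h k n := by
  cases n with
  | zero => exact le_rfl
  | succ n => exact le_max_of_le_right (abs_nonneg _)

lemma le_os (h : ℕ → ℝ) {k j n : ℕ} (h1 : k ≤ j) (h2 : j ≤ n) : |h j - h k| ≤ os h k n := by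
  induction n with
  | zero => simp [show j = k by omega, os]
  | succ n ih =>
    rcases h2.eq_or_lt with rfl | h3
    · rw [os, max_eq_right h1]; exact le_max_right _ _
    · exact le_max_of_le_left (ih (by omega))

lemma os_le (h : ℕ → ℝ) {k n : ℕ} {r : ℝ} (h0 : 0 ≤ r) (h1 : ∀ j, k ≤ j → j ≤ n → |h j - h k| ≤ r) :
    os h k n ≤ r := by
  induction n with
  | zero => exact h0
  | succ n ih =>
    refine max_le (ih fun j a b => h1 j a (by omega)) ?_
    rcases le_total k (n + 1) with h2 | h2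
    · rw [max_eq_right h2]; exact h1 _ h2 le_rfl
    · simpa [max_eq_left h2] using h0

lemma os_congr {h h' : ℕ → ℝ} {k n m : ℕ} (hk : k ≤ m) (hn : n ≤ m) (e : ∀ j ≤ m, h j = h' j) :
    os h k n = os h' k n := by
  induction n with
  | zero => rfl
  | succ n ih => rw [os, os, ih (by omega), e k hk, e _ (max_le hk hn)]

lemma mn_le (c : ℕ → ℝ) {k n : ℕ} (h : k ≤ n) : mn c n ≤ c k := by
  induction n with
  | zero => simp [show k = 0 by omega, mn]
  | succ n ih =>
    rcases h.eq_or_lt with rfl | h3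
    · exact min_le_right _ _
    · exact min_le_of_left_le (ih (by omega))

lemma mn_ex (c : ℕ → ℝ) (n : ℕ) : ∃ k ≤ n, mn c n = c k := by
  induction n with
  | zero => exact ⟨0, le_rfl, rfl⟩
  | succ n ih =>
    obtain ⟨k, h1, h2⟩ := ih
    rcases min_choice (mn c n) (c (n + 1)) with h | h
    · exact ⟨k, by omega, h.trans h2⟩
    · exact ⟨_, le_rfl, h⟩

lemma mn_mono {c c' : ℕ → ℝ} {n : ℕ} (h : ∀ k ≤ n, c k ≤ c' k) : mn c n ≤ mn c' n := by
  obtain ⟨k, h1, h2⟩ := mn_ex c' n
  rw [h2]; exact (mn_le c h1).trans (h k h1)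

noncomputable def Nn (h : ℕ → ℝ) (n : ℕ) (ξ : ℝ) : ℝ :=
  mn (fun k => 2 ^ k * max (os h k n) |ξ - h k|) n

noncomputable def Gm (h : ℕ → ℝ) (n : ℕ) (ξ : ℝ) : ℝ :=
  ξ - h n + (min (Nn h n ξ) (2 ^ n * max (ξ - h n) 0) - min (Nn h n ξ) (2 ^ n * max (h n - ξ) 0))

lemma Nn_nonneg (h : ℕ → ℝ) (n : ℕ) (ξ : ℝ) : 0 ≤ Nn h n ξ := by
  obtain ⟨k, -, h2⟩ := mn_ex (fun k => 2 ^ k * max (os h k n) |ξ - h k|) n
  rw [Nn, h2]; positivity

lemma Gm_congr {h h' : ℕ → ℝ} {n : ℕ} (e : ∀ j ≤ n, h j = h' j) (ξ : ℝ) : Gm h n ξ = Gm h' n ξ := by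
  have : Nn h n ξ = Nn h' n ξ := le_antisymm
    (mn_mono fun k hk => by rw [os_congr hk le_rfl e, e k hk])
    (mn_mono fun k hk => by rw [os_congr hk le_rfl e, e k hk])
  rw [Gm, Gm, this, e n le_rfl]

lemma Gm_ge {h : ℕ → ℝ} {n : ℕ} {ξ : ℝ} (e : h n ≤ ξ) :
    Gm h n ξ = ξ - h n + min (Nn h n ξ) (2 ^ n * (ξ - h n)) := by
  rw [Gm, max_eq_left (sub_nonneg.2 e), max_eq_right (sub_nonpos.2 e), mul_zero,
    min_eq_right (Nn_nonneg h n ξ), sub_zero]

lemma Gm_le {h : ℕ → ℝ} {n : ℕ} {ξ : ℝ} (e : ξ ≤ h n) :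
    Gm h n ξ = ξ - h n - min (Nn h n ξ) (2 ^ n * (h n - ξ)) := by
  rw [Gm, max_eq_left (sub_nonneg.2 e), max_eq_right (sub_nonpos.2 e), mul_zero,
    min_eq_right (Nn_nonneg h n ξ), zero_sub, sub_eq_add_neg (ξ - h n)]

lemma Gm_abs (h : ℕ → ℝ) (n : ℕ) (ξ : ℝ) :
    |Gm h n ξ| = |ξ - h n| + min (Nn h n ξ) (2 ^ n * |ξ - h n|) := by
  have h0 := Nn_nonneg h n ξ
  rcases le_total (h n) ξ with e | e
  · have h1 := sub_nonneg.2 e
    rw [Gm_ge e, abs_of_nonneg h1, abs_of_nonneg (by positivity)]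
  · have h1 := sub_nonneg.2 e
    have h2 : 0 ≤ min (Nn h n ξ) (2 ^ n * (h n - ξ)) := by positivity
    rw [Gm_le e, abs_sub_comm ξ, abs_of_nonneg h1, abs_of_nonpos (by linarith)]
    ring

lemma Gm_exp (h : ℕ → ℝ) (n : ℕ) {a b : ℝ} (e : a ≤ b) : b - a ≤ Gm h n b - Gm h n a := by
  have p : (0 : ℝ) < 2 ^ n := by positivity
  rcases le_total (h n) a with h1 | h1
  · have h2 : Nn h n a ≤ Nn h n b := mn_mono fun k hk => by
      refine mul_le_mul_of_nonneg_left (max_le (le_max_left _ _) (abs_le.2 ⟨?_, ?_⟩)) (by positivity)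
      · linarith [(abs_le.1 ((le_os h hk le_rfl).trans (le_max_left _ |b - h k|))).1]
      · linarith [le_max_right (os h k n) |b - h k|, le_abs_self (b - h k)]
    rw [Gm_ge h1, Gm_ge (h1.trans e)]
    linarith [min_le_min h2 (mul_le_mul_of_nonneg_left (sub_le_sub_right e (h n)) p.le)]
  · rcases le_total (h n) b with h2 | h2
    · rw [Gm_le h1, Gm_ge h2]
      have := sub_nonneg.2 h1
      have := sub_nonneg.2 h2
      have : 0 ≤ min (Nn h n a) (2 ^ n * (h n - a)) := le_min (Nn_nonneg _ _ _) (by positivity)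
      have : 0 ≤ min (Nn h n b) (2 ^ n * (b - h n)) := le_min (Nn_nonneg _ _ _) (by positivity)
      linarith
    · have h3 : Nn h n b ≤ Nn h n a := mn_mono fun k hk => by
        refine mul_le_mul_of_nonneg_left (max_le (le_max_left _ _) (abs_le.2 ⟨?_, ?_⟩)) (by positivity)
        · linarith [le_max_right (os h k n) |a - h k|, neg_abs_le (a - h k)]
        · linarith [(abs_le.1 ((le_os h hk le_rfl).trans (le_max_left _ |a - h k|))).2]
      rw [Gm_le h1, Gm_le h2]
      linarith [min_le_min h3 (mul_le_mul_of_nonneg_left (sub_le_sub_left e (h n)) p.le)]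

lemma Gm_up {h : ℕ → ℝ} {k n : ℕ} {ξ r : ℝ} (hk : k ≤ n)
    (h1 : ∀ j, k ≤ j → j ≤ n → |h j - h k| ≤ r) (h2 : |ξ - h k| ≤ r) :
    |Gm h n ξ| ≤ (2 + 2 ^ k) * r := by
  have h3 : Nn h n ξ ≤ 2 ^ k * r := (mn_le _ hk).trans (mul_le_mul_of_nonneg_left
    (max_le (os_le h ((abs_nonneg _).trans h2) h1) h2) (by positivity))
  have h4 := abs_sub_le ξ (h k) (h n)
  have h5 := h1 n hk le_rfl
  rw [abs_sub_comm] at h5
  rw [Gm_abs]
  linarith [min_le_left (Nn h n ξ) (2 ^ n * |ξ - h n|)]

lemma Gm_low {h : ℕ → ℝ} {n : ℕ} {ξ ε : ℝ} (e : |Gm h n ξ| ≤ ε) :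
    ∃ k ≤ n, (∀ j, k ≤ j → j ≤ n → 2 ^ k * |h j - h k| ≤ ε) ∧ 2 ^ k * |ξ - h k| ≤ ε := by
  have e0 := (abs_nonneg _).trans e
  rw [Gm_abs] at e
  rcases min_le_iff.1 (show min (Nn h n ξ) (2 ^ n * |ξ - h n|) ≤ ε by
    linarith [abs_nonneg (ξ - h n)]) with h1 | h1
  · obtain ⟨k, h2, h3⟩ := mn_ex (fun k => 2 ^ k * max (os h k n) |ξ - h k|) n
    rw [Nn, h3] at h1
    exact ⟨k, h2, fun j a b => le_trans (mul_le_mul_of_nonneg_left
      ((le_os h a b).trans (le_max_left _ _)) (by positivity)) h1,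
      le_trans (mul_le_mul_of_nonneg_left (le_max_right _ _) (by positivity)) h1⟩
  · exact ⟨n, le_rfl, fun j a b => by simpa [le_antisymm b a] using e0, h1⟩

lemma path_bd {a : ℕ → ℝ} {k0 D : ℕ} {ε : ℝ} (e0 : 0 ≤ ε)
    (h : ∀ n, k0 ≤ n → n < D → |Gm a n (a (n + 1))| ≤ ε) :
    ∀ d, k0 ≤ d → d ≤ D → |a d - a k0| ≤ ε * (4 - 2 / 2 ^ d) := by
  intro d
  induction d using Nat.strong_induction_on with
  | _ d ih =>
    intro h1 h2
    have p : ∀ k : ℕ, (1 : ℝ) ≤ 2 ^ k := fun k => one_le_pow₀ one_le_two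
    have q : (2 : ℝ) / 2 ^ d ≤ 2 := div_le_self zero_le_two (p d)
    rcases h1.eq_or_lt with rfl | h3
    · rw [sub_self, abs_zero]; exact mul_nonneg e0 (by linarith)
    obtain ⟨n, rfl⟩ : ∃ n, d = n + 1 := ⟨d - 1, by omega⟩
    obtain ⟨k, k1, k2, k3⟩ := Gm_low (h n (by omega) h2)
    have h4 := abs_sub_le (a (n + 1)) (a k) (a k0)
    rcases le_total k k0 with h5 | h5
    · have h6 := k2 k0 h5 (by omega)
      rw [abs_sub_comm] at h6
      nlinarith [p k, abs_nonneg (a k - a k0), abs_nonneg (a (n + 1) - a k)]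
    · have h6 := ih k (by omega) h5 (by omega)
      have h7 : |a (n + 1) - a k| ≤ ε * (1 / 2 ^ k) := by
        rw [mul_one_div, le_div_iff₀' (by positivity)]; exact k3
      have h8 : (2 : ℝ) / 2 ^ (n + 1) ≤ 1 / 2 ^ k := by
        rw [pow_succ, div_le_div_iff₀ (by positivity) (by positivity)]
        linarith [pow_le_pow_right₀ (one_le_two (α := ℝ)) k1]
      have h9 : (2 : ℝ) / 2 ^ k = 2 * (1 / 2 ^ k) := by ring
      rw [h9] at h6
      nlinarith

variable {X : Type} [UniformSpace X]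

lemma uc_max {f g : X → ℝ} (hf : UniformContinuous f) (hg : UniformContinuous g) :
    UniformContinuous fun x => max (f x) (g x) :=
  lipschitzWith_max.uniformContinuous.comp (hf.prodMk hg)

lemma uc_min {f g : X → ℝ} (hf : UniformContinuous f) (hg : UniformContinuous g) :
    UniformContinuous fun x => min (f x) (g x) :=
  lipschitzWith_min.uniformContinuous.comp (hf.prodMk hg)

lemma Gm_uc {h : X → ℕ → ℝ} {ξ : X → ℝ} (h1 : ∀ j, UniformContinuous fun x => h x j)
    (h2 : UniformContinuous ξ) (n : ℕ) : UniformContinuous fun x => Gm (h x) n (ξ x) := by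
  have a1 : ∀ k m, UniformContinuous fun x => os (h x) k m := by
    intro k m
    induction m with
    | zero => exact uniformContinuous_const
    | succ m ih => exact uc_max ih (Real.uniformContinuous_abs.comp ((h1 _).sub (h1 _)))
  have a2 : ∀ (c : X → ℕ → ℝ), (∀ k, UniformContinuous fun x => c x k) → ∀ m,
      UniformContinuous fun x => mn (c x) m := by
    intro c hc m
    induction m with
    | zero => exact hc 0
    | succ m ih => exact uc_min ih (hc _)
  have a3 : UniformContinuous fun x => Nn (h x) n (ξ x) := a2 _ (fun k =>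
    (uc_max (a1 k n) (Real.uniformContinuous_abs.comp (h2.sub (h1 _)))).const_mul' _) n
  exact (h2.sub (h1 _)).add ((uc_min a3 ((uc_max (h2.sub (h1 _)) uniformContinuous_const).const_mul' _)).sub
    (uc_min a3 ((uc_max ((h1 _).sub h2) uniformContinuous_const).const_mul' _)))

end gauge

section sp
def Dz (W : Type) : Type := W
instance (W : Type) : TopologicalSpace (Dz W) := ⊥
instance (W : Type) : DiscreteTopology (Dz W) := ⟨rfl⟩

variable {Z W : Type} (e : Z → ℕ → W)

def Sp (_ : Z → ℕ → W) : Type := Z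
def ιS (z : Sp e) (k : ℕ) : Dz W := e z k
instance : TopologicalSpace (Sp e) := TopologicalSpace.induced (ιS e) inferInstance
lemma ind_S : IsInducing (ιS e) := ⟨rfl⟩

lemma pi_basis (x : ℕ → Dz W) :
    (𝓝 x).HasBasis (fun _ : ℕ => True) fun n => {y | ∀ k < n, y k = x k} := by
  refine ⟨fun S => ⟨fun h => ?_, fun ⟨n, _, h⟩ => mem_of_superset ?_ h⟩⟩
  · rw [nhds_pi, Filter.mem_pi'] at h
    obtain ⟨I, t, h1, h2⟩ := h
    refine ⟨I.sup id + 1, trivial, fun y hy => h2 fun i hi => ?_⟩
    rw [hy i (Nat.lt_succ_of_le (Finset.le_sup (f := id) hi))]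
    exact mem_of_mem_nhds (h1 i)
  · have := set_pi_mem_nhds (finite_Iio n) (x := x) (s := fun k => {x k})
      fun k _ => (isOpen_discrete _).mem_nhds rfl
    exact mem_of_superset this fun y hy k hk => hy k hk

lemma sp_basis (z : Sp e) :
    (𝓝 z).HasBasis (fun _ : ℕ => True) fun n => {y | ∀ k < n, e y k = e z k} := by
  rw [(ind_S e).nhds_eq_comap]
  exact (pi_basis _).comap _

lemma sp_cont (f : Sp e → ℝ) : Continuous f ↔
    ∀ z ε, 0 < ε → ∃ n, ∀ y, (∀ k < n, e y k = e z k) → |f y - f z| ≤ ε := by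
  rw [continuous_iff_continuousAt]
  refine forall_congr' fun z => ?_
  rw [ContinuousAt, (sp_basis e z).tendsto_iff Metric.nhds_basis_closedBall]
  simp only [Metric.mem_closedBall, Real.dist_eq, mem_ofPred_eq, true_and]
  rfl

end sp

end H5Sp
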