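import Pool.Agent.Lib.helper5.Fusion

/-! Turing functionals: countably many, each continuous in the oracle (use principle). -/

namespace Pool.Agent.H5F

open Nat.Partrec

/-- evaluation of a code relative to an oracle -/
def ev (O : ℕ → Part ℕ) : Code → ℕ → Part ℕ
  | .zero => O
  | .succ => fun n => Part.some (n + 1)
  | .left => fun n => Part.some (Nat.unpair n).1
  | .right => fun n => Part.some (Nat.unpair n).2
  | .pair f h => fun n => Nat.pair <$> ev O f n <*> ev O h n
  | .comp f h => fun n => ev O h n >>= ev O f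
  | .prec f h => fun p => (Nat.unpair p).2.rec (ev O f (Nat.unpair p).1) fun y IH => do
      let i ← IH
      ev O h (Nat.pair (Nat.unpair p).1 (Nat.pair y i))
  | .rfind' f => fun a => Nat.rfind fun n => (fun m => m = 0) <$> ev O f (Nat.pair a n)

lemma exists_code {O f : ℕ →. ℕ} (h : Nat.RecursiveIn {O} f) : ∃ c, ev O c = f := by
  induction h with
  | zero =>
    refine ⟨.comp .left (.comp (.rfind' .right) .succ), funext fun n => ?_⟩
    have : (0 : ℕ) ∈ ev O (.rfind' .right) (n + 1) := Nat.mem_rfind.2 ⟨by simp [ev], by simp⟩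
    exact Part.eq_some_iff.2 (Part.mem_bind_iff.2 ⟨0, Part.mem_bind_iff.2
      ⟨n + 1, Part.mem_some _, this⟩, by simp [ev]⟩)
  | succ => exact ⟨.succ, rfl⟩
  | left => exact ⟨.left, rfl⟩
  | right => exact ⟨.right, rfl⟩
  | oracle g hg => exact ⟨.zero, hg.symm⟩
  | pair _ _ a b => obtain ⟨c, rfl⟩ := a; obtain ⟨d, rfl⟩ := b; exact ⟨.pair c d, rfl⟩
  | comp _ _ a b => obtain ⟨c, rfl⟩ := a; obtain ⟨d, rfl⟩ := b; exact ⟨.comp c d, rfl⟩
  | prec _ _ a b => obtain ⟨c, rfl⟩ := a; obtain ⟨d, rfl⟩ := b; exact ⟨.prec c d, rfl⟩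
  | rfind _ a => obtain ⟨c, rfl⟩ := a; exact ⟨.rfind' c, rfl⟩

open Classical in
/-- characteristic function as an oracle -/
noncomputable def chi (H : Set ℕ) : ℕ →. ℕ := PFun.lift fun n => (decide (n ∈ H)).toNat

theorem use (H : Set ℕ) (c : Code) : ∀ x y, y ∈ ev (chi H) c x →
    Near H fun H' => y ∈ ev (chi H') c x := by
  induction c with
  | zero =>
    intro x y h
    refine ⟨x + 1, fun H' h' => ?_⟩
    have e : chi H' x = chi H x := by
      show Part.some _ = Part.some _
      exact congrArg (fun b : Bool => Part.some b.toNat) (decide_eq_decide.2 (h' x (by omega)))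
    show y ∈ chi H' x
    rw [e]; exact h
  | succ => exact fun x y h => ⟨0, fun _ _ => h⟩
  | left => exact fun x y h => ⟨0, fun _ _ => h⟩
  | right => exact fun x y h => ⟨0, fun _ _ => h⟩
  | pair f g a b =>
    intro x y h
    simp only [ev, Seq.seq, Part.map_eq_map, Part.mem_bind_iff,
      Part.mem_map_iff] at *
    obtain ⟨_, ⟨u, hu, rfl⟩, v, hv, rfl⟩ := h
    exact ((a x u hu).and (b x v hv)).mono fun H' h' => ⟨_, ⟨u, h'.1, rfl⟩, v, h'.2, rfl⟩
  | comp f g a b =>
    intro x y h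
    simp only [ev, Part.bind_eq_bind, Part.mem_bind_iff] at *
    obtain ⟨u, hu, hv⟩ := h
    exact ((b x u hu).and (a u y hv)).mono fun H' h' => ⟨u, h'.1, h'.2⟩
  | prec f g a b =>
    intro x
    simp only [ev]
    generalize (Nat.unpair x).2 = n
    induction n with
    | zero => exact fun y h => a _ y h
    | succ n ih =>
      intro y h
      simp only [Part.bind_eq_bind, Part.mem_bind_iff] at *
      obtain ⟨u, hu, hv⟩ := h
      exact ((ih u hu).and (b _ y hv)).mono fun H' h' => ⟨u, h'.1, h'.2⟩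
  | rfind' f a =>
    intro x y h
    obtain ⟨h1, h2⟩ := Nat.mem_rfind.1 h
    obtain ⟨u, hu, e⟩ := (Part.mem_map_iff _).1 h1
    refine ((a _ u hu).and (Near.ball (P := fun m H' => ∃ v ∈ ev (chi H') f (Nat.pair x m),
      decide (v = 0) = false) (Finset.range y) fun m hm => ?_)).mono
      fun H' h' => Nat.mem_rfind.2 ⟨(Part.mem_map_iff _).2 ⟨u, h'.1, e⟩,
        fun {m} hm => (Part.mem_map_iff _).2 (h'.2 m (Finset.mem_range.2 hm))⟩
    obtain ⟨v, hv, e'⟩ := (Part.mem_map_iff _).1 (h2 (Finset.mem_range.1 hm))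
    exact (a _ v hv).mono fun H' h' => ⟨v, h', e'⟩

/-- the set accepted by the `e`-th functional with oracle `H` -/
def G (e : ℕ) (H : Set ℕ) : Set ℕ := {n | 1 ∈ ev (chi H) (Denumerable.ofNat Code e) n}

lemma G_near {e n : ℕ} {H : Set ℕ} (h : n ∈ G e H) : Near H fun H' => n ∈ G e H' :=
  use H _ n 1 h

lemma exists_G {H : Set ℕ} {g : ℕ → Bool}
    (h : TuringReducible (PFun.lift fun n => (g n).toNat) (chi H)) :
    ∃ e, G e H = {n | g n = true} := by
  obtain ⟨c, hc⟩ := exists_code (RecursiveIn.iff_nat.1 h)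
  refine ⟨Encodable.encode c, Set.ext fun n => ?_⟩
  simp only [G, Denumerable.ofNat_encode, hc, Set.mem_ofPred_eq]
  show 1 ∈ Part.some (g n).toNat ↔ _
  cases g n <;> simp

end Pool.Agent.H5F
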