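import Pool.Agent.Lib.helper5.ValLine

/-! Images of Valdivia compacta that are Valdivia. -/

open Set Filter Topology TopologicalSpace Function

namespace H5L

open H5P

variable {V Γ : Type} [TopologicalSpace V] [CompactSpace V] {e : V → Γ → ℝ} (he : IsEmbedding e)
include he

lemma dep {ψ : V → ℝ} (h : Continuous ψ) :
    ∃ C : Set Γ, C.Countable ∧ ∀ x y, (∀ γ ∈ C, e x γ = e y γ) → ψ x = ψ y := by
  classical
  have ce := fun γ => (continuous_apply γ).comp he.continuous
  have : ∀ n : ℕ, ∃ G : Finset Γ, {p : V × V | 1 / ((n : ℝ) + 1) ≤ dist (ψ p.1) (ψ p.2)} ⊆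
      ⋃ γ ∈ G, {p | e p.1 γ ≠ e p.2 γ} := fun n =>
    (isClosed_le continuous_const ((h.comp continuous_fst).dist
      (h.comp continuous_snd))).isCompact.elim_finite_subcover _ (fun γ => isOpen_ne_fun
        ((ce γ).comp continuous_fst) ((ce γ).comp continuous_snd)) fun p hp => mem_iUnion.2
          (ne_iff.1 (he.injective.ne fun k => by
            simp only [mem_ofPred_eq, comp, k, dist_self] at hp
            exact hp.not_gt (by positivity)))
  choose G hG using this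
  refine ⟨⋃ n, G n, countable_iUnion fun n => (G n).countable_toSet, fun x y k => by_contra
    fun hn => ?_⟩
  obtain ⟨n, hn⟩ := exists_nat_one_div_lt (dist_pos.2 hn)
  obtain ⟨γ, g1, g2⟩ := mem_iUnion₂.1 (hG n (a := (x, y)) hn.le)
  exact g2 (k γ (mem_iUnion.2 ⟨n, g1⟩))

theorem vimg (hd : Dense {x | (support (e x)).Countable}) {Z J : Type} [TopologicalSpace Z]
    [CompactSpace Z] [T2Space Z] {g : V → Z} (hg : Continuous g) (hs : Surjective g)
    {φ : J → Z → ℝ} (hφ : ∀ j, Continuous (φ j)) {f0 : Finset (Γ ⊕ J) → Set (Γ ⊕ J)}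
    (h0 : ∀ G, (f0 G).Countable) (h1 : ∀ S, Cl f0 S → ∀ x y, support (e x) ⊆ Sum.inl ⁻¹' S →
      support (e y) ⊆ Sum.inl ⁻¹' S → (∀ j, .inr j ∈ S → φ j (g x) = φ j (g y)) → g x = g y) :
    ∃ (Λ : Type) (h : Z → Λ → ℝ), IsEmbedding h ∧
      ∀ d, (support (e d)).Countable → (support (h (g d))).Countable := by
  classical
  choose E e1 e2 e3 using net he hd
  choose C c1 c2 using fun j => dep he ((hφ j).comp hg)
  let f : Finset (Γ ⊕ J) → Set (Γ ⊕ J) := fun G => f0 G ∪ Sum.inl ''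
    ((⋃ n, ⋃ a ∈ E G.toLeft n, support (e a)) ∪ ⋃ j ∈ (G.toRight : Set J), C j)
  have f1 : ∀ G, (f G).Countable := fun G => (h0 G).union (((countable_iUnion fun n =>
    (e2 _ n).countable.biUnion (e1 _ n)).union (G.toRight.countable_toSet.biUnion
      fun j _ => c1 j)).image _)
  have f2 := fun T => h1 (hl f T) fun G hG => subset_union_left.trans (cl_hl f T G hG)
  have : ∀ T x, ∃ y, e y = (Sum.inl ⁻¹' hl f T).indicator (e x) := fun T x => by
    obtain ⟨y, -, h⟩ := ind he (E := univ) (S := Sum.inl ⁻¹' hl f T) (p := e x) fun G hG k => by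
      obtain ⟨a, a1, a2⟩ := e3 G k x
      exact ⟨a, trivial, fun γ hγ => cl_hl f T (G.image Sum.inl) (by
        simpa [image_subset_iff] using hG) (Or.inr ⟨γ, Or.inl (mem_iUnion.2 ⟨k, mem_biUnion
          (by convert a1; ext; simp) hγ⟩), rfl⟩), fun γ h => dist_comm (e x γ) _ ▸ a2 γ h⟩
    exact ⟨y, h⟩
  choose ρ hρ using this
  have p1 : ∀ T x, support (e (ρ T x)) ⊆ Sum.inl ⁻¹' hl f T := fun T x =>
    hρ T x ▸ support_indicator_subset
  have p2 : ∀ T x j, .inr j ∈ hl f T → φ j (g (ρ T x)) = φ j (g x) := fun T x j hj =>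
    c2 j _ _ fun γ h => by
      rw [hρ, indicator_of_mem]
      exact cl_hl f T {.inr j} (by simpa) (Or.inr ⟨γ, Or.inr (mem_biUnion (x := j) (by simp) h), rfl⟩)
  let r := fun T z => g (ρ T (surjInv hs z))
  have r2 : ∀ T x j, .inr j ∈ hl f T → φ j (r T x) = φ j x := fun T x j hj => by
    rw [p2 T _ j hj, surjInv_eq hs]
  have r1 : ∀ T x, r T (g x) = g (ρ T x) := fun T x => f2 T _ _ (p1 _ _) (p1 _ _) fun j hj =>
    (r2 T _ j hj).trans (p2 T x j hj).symm
  have r3 : ∀ T x y, r T x = r T y ↔ ∀ j, .inr j ∈ hl f T → φ j x = φ j y := fun T x y =>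
    ⟨fun h j hj => by rw [← r2 T x j hj, h, r2 T y j hj], fun h => f2 T _ _ (p1 _ _) (p1 _ _)
      fun j hj => (r2 T x j hj).trans ((h j hj).trans (r2 T y j hj).symm)⟩
  have r4 : ∀ T x, r T (r T x) = r T x := fun T x => (r3 _ _ _).2 (r2 T x)
  have r5 : ∀ T, Continuous (r T) := fun T =>
    (hg.isClosedMap.isQuotientMap hg hs).continuous_iff.2 ((hg.comp (show Continuous (ρ T) from
      he.continuous_iff.2 (continuous_pi fun γ => by
        simp only [comp, hρ, indicator]
        split_ifs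
        exacts [(continuous_apply γ).comp he.continuous, continuous_const]))).congr
      fun x => (r1 T x).symm)
  let P : Set (Γ ⊕ J) → Prop := fun T => ∃ F : Set (Z → ℝ), (∀ h ∈ F, Continuous h) ∧
    (∀ d, (support (e d)).Countable → {h ∈ F | h (g d) ≠ 0}.Countable) ∧
    ∀ x y, (∀ h ∈ F, h x = h y) → r T x = r T y
  have p0 : ∀ T, T.Countable → P T := fun T hT => by
    have := ((hl_cble f f1 hT).preimage Sum.inr_injective).image φ
    exact ⟨_, forall_mem_image.2 fun j _ => hφ j, fun x _ => this.mono fun _ h => h.1,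
      fun x y h => (r3 T x y).2 (forall_mem_image.1 h)⟩
  have p1 : ∀ κ, ∀ T : Set (Γ ⊕ J), Cardinal.mk T = κ → P T := fun κ => by
    induction κ using WellFoundedLT.induction with | ind κ ih => ?_
    intro T hT
    by_cases hc : T.Countable
    · exact p0 T hc
    have hκ : Cardinal.aleph0 ≤ κ := hT ▸ le_of_not_ge fun h =>
      hc (Cardinal.le_aleph0_iff_set_countable.1 h)
    obtain ⟨q⟩ : Nonempty (κ.ord.ToType ≃ T) := Cardinal.eq.1 (by simp [hT])
    let b : κ.ord.ToType → Γ ⊕ J := fun a => q a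
    choose F F1 F2 F3 using fun a => ih _ (show Cardinal.mk (b '' Iic a) < κ from by
      refine Cardinal.mk_image_le.trans_lt ?_
      rw [← Iio_insert]
      exact Cardinal.mk_insert_le.trans_lt (Cardinal.add_lt_of_lt hκ
        (by simpa using Cardinal.mk_Iio_lt a) (Cardinal.one_lt_aleph0.trans_le hκ))) _ rfl
    obtain ⟨F0, g1, g2, g3⟩ := p0 ∅ countable_empty
    have fin : ∀ (I : Set κ.ord.ToType) c, c ∈ hl f (b '' I) →
        c ∈ hl f ∅ ∨ ∃ a ∈ I, c ∈ hl f (b '' Iic a) := fun I c hc => by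
      obtain ⟨G, h1, h2⟩ := hl_fin f hc
      obtain ⟨H, h3, rfl⟩ := Finset.subset_set_image_iff.1 h1
      rcases H.eq_empty_or_nonempty with rfl | h
      · exact Or.inl (by simpa using h2)
      · exact Or.inr ⟨_, h3 (H.max'_mem h), hl_mono f (by
          rw [Finset.coe_image]; exact image_mono fun a ha => H.le_max' a ha) h2⟩
    let d : κ.ord.ToType → (Z → ℝ) → Z → ℝ := fun a h x =>
      h (r (b '' Iic a) x) - h (r (b '' Iio a) x)
    refine ⟨F0 ∪ ⋃ a, d a '' F a, ?_, fun x hx => ?_, fun x y h => ?_⟩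
    · rintro g (h | h)
      · exact g1 g h
      · obtain ⟨a, g, hg, rfl⟩ := mem_iUnion.1 h
        exact ((F1 a g hg).comp (r5 _)).sub ((F1 a g hg).comp (r5 _))
    · have hC : {a | r (b '' Iic a) (g x) ≠ r (b '' Iio a) (g x)}.Countable := by
        refine (hx.biUnion (t := fun γ _ => {a | Sum.inl γ ∈ hl f (b '' Iic a) \ hl f (b '' Iio a)})
          fun γ _ => Set.Subsingleton.countable fun a ha c hc => le_antisymm (not_lt.1 fun k =>
            ha.2 (hl_mono f (image_mono (Iic_subset_Iio.2 k)) hc.1)) (not_lt.1 fun k =>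
            hc.2 (hl_mono f (image_mono (Iic_subset_Iio.2 k)) ha.1))).mono fun a ha =>
          by_contra fun hn => ha ?_
        rw [r1, r1]
        refine congrArg g (he.injective (funext fun γ => ?_))
        simp only [hρ, indicator, mem_preimage]
        split_ifs with k1 k2 k2
        · rfl
        · exact by_contra fun k => hn (mem_biUnion k ⟨k1, k2⟩)
        · exact absurd (hl_mono f (image_mono Iio_subset_Iic_self) k2) k1
        · rfl
      have k : ∀ T, (support (e (ρ T x))).Countable := fun T => hx.mono (by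
        rw [hρ, support_indicator]; exact inter_subset_right)
      refine ((g2 x hx).union (hC.biUnion fun a _ => ((F2 a _ (k (b '' Iic a))).union
        (F2 a _ (k (b '' Iio a)))).image (d a))).mono ?_
      rintro g ⟨h | h, hg⟩
      · exact Or.inl ⟨h, hg⟩
      obtain ⟨a, g, h', rfl⟩ := mem_iUnion.1 h
      refine Or.inr (mem_biUnion (x := a) (fun e => hg (by simp [d, e])) ⟨g, by_contra fun hn =>
        hg ?_, rfl⟩)
      simp only [mem_union, mem_ofPred_eq, h', true_and, not_or, not_not] at hn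
      simp [d, r1, hn]
    · have k0 := (r3 _ _ _).1 (g3 x y fun g hg => h g (Or.inl hg))
      have k : ∀ a, r (b '' Iic a) x = r (b '' Iic a) y := fun a => by
        induction a using WellFoundedLT.induction with | ind a ih => ?_
        have e : r (b '' Iio a) x = r (b '' Iio a) y := (r3 _ _ _).2 fun j hj =>
          (fin _ _ hj).elim (k0 j) fun ⟨c, c1, c2⟩ => (r3 _ _ _).1 (ih c c1) j c2
        rw [← r4 _ x, ← r4 _ y]
        exact F3 a _ _ fun g hg => by
          simpa [d, e] using h _ (Or.inr (mem_iUnion.2 ⟨a, g, hg, rfl⟩))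
      refine (r3 _ _ _).2 fun j hj => (fin univ _ (by
        rwa [image_univ, show range b = T from by
          rw [← Subtype.range_coe (s := T)]; exact q.surjective.range_comp _])).elim (k0 j)
        fun ⟨c, _, c2⟩ => (r3 _ _ _).1 (k c) j c2
  obtain ⟨F, F1, F2, F3⟩ := p1 _ univ rfl
  have r6 : ∀ x, r univ x = x := hs.forall.2 fun x => (r1 _ x).trans (congrArg g (he.injective
    ((hρ _ x).trans (indicator_eq_self.2 fun _ _ => le_hl f _ trivial))))
  exact ⟨F, fun x g => g.1 x, ((continuous_pi fun g => F1 _ g.2).isClosedEmbedding fun x y h => by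
    rw [← r6 x, F3 x y fun g hg => congrFun h ⟨g, hg⟩, r6]).isEmbedding, fun x hx =>
    ((F2 x hx).preimage Subtype.val_injective).mono fun g hg => And.intro g.2 hg⟩

omit he

section
variable {Z : Type} [LinearOrder Z] [TopologicalSpace Z]

lemma ordtop [OrderClosedTopology Z] [CompactSpace Z] : OrderTopology Z := by
  rename_i t _ _
  have h : t ≤ Preorder.topology Z :=
    le_generateFrom (by rintro _ ⟨a, rfl | rfl⟩; exacts [isOpen_Ioi, isOpen_Iio])
  have t2 : @T2Space Z (Preorder.topology Z) := by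
    let := Preorder.topology Z
    have : OrderTopology Z := ⟨rfl⟩
    infer_instance
  refine ⟨le_antisymm h fun U hU => ?_⟩
  have k := @Continuous.isClosedMap Z Z t (Preorder.topology Z) ‹_› t2 id
    (continuous_id_of_le h) Uᶜ hU.isClosed_compl
  rw [image_id] at k
  exact (@isClosed_compl_iff Z (Preorder.topology Z) U).1 k

variable [OrderTopology Z]

def St (A : Set Z) : Prop := ∀ w ∈ closure (A ∩ Iio w), w ∈ closure (A ∩ Ici w) →
  ∃ C ⊆ A ∩ Iio w, C.Countable ∧ w ∈ closure C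

lemma star {K : Type} [LinearOrder K] [TopologicalSpace K] [OrderTopology K] {π : Z → K}
    (c : Continuous π) (m : Monotone π) {A : Set Z} (i : InjOn π A)
    (h : ∀ b, Disjoint (closure (A ∩ π ⁻¹' Iio b)) (closure (A ∩ π ⁻¹' Ici b)) ∨
      ∃ C ⊆ Iio b, C.Countable ∧ b ∈ closure C) : St A := fun w w1 w2 => by
  have w3 : w ∈ closure (A ∩ π ⁻¹' Iio (π w)) := by
    have f : (A ∩ Iio w ∩ π ⁻¹' {π w}).Finite := Set.Subsingleton.finite fun a ha b hb =>
      i ha.1.1 hb.1.1 (ha.2.trans hb.2.symm)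
    have := closure_mono (show A ∩ Iio w ⊆ A ∩ π ⁻¹' Iio (π w) ∪ A ∩ Iio w ∩ π ⁻¹' {π w} from
      fun a ha => (m ha.2.le).lt_or_eq.imp (And.intro ha.1) (And.intro ha)) w1
    rw [closure_union, f.isClosed.closure_eq] at this
    exact this.resolve_right fun k => lt_irrefl w k.1.2
  obtain ⟨C, c1, c2, c3⟩ := (h (π w)).resolve_left fun k => disjoint_left.1 k w3
    (closure_mono (inter_subset_inter_right _ fun a ha => m ha) w2)
  have := c2.to_subtype
  choose a a1 a2 using fun y : C => mem_closure_iff.1 w3 _ (isOpen_Ioi.preimage c) (c1 y.2)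
  have a3 : ∀ y, a y < w := fun y => m.reflect_lt (a2 y).2
  refine ⟨range a, range_subset_iff.2 fun y => ⟨(a2 y).1, a3 y⟩, countable_range a,
    mem_closure_iff_nhds.2 fun U hU => ?_⟩
  obtain ⟨l, hl⟩ := closure_nonempty_iff.1 ⟨_, w1⟩
  obtain ⟨z, z1, z2⟩ := exists_Ioc_subset_of_mem_nhds hU ⟨l, hl.2⟩
  obtain ⟨u, u1, -, u2⟩ := mem_closure_iff.1 w3 _ isOpen_Ioi z1
  obtain ⟨y, y1, y2⟩ := mem_closure_iff.1 c3 _ isOpen_Ioi u2
  exact ⟨_, z2 ⟨lt_trans u1 (m.reflect_lt (lt_trans y1 (a1 ⟨y, y2⟩))), (a3 _).le⟩, _, rfl⟩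

omit [OrderTopology Z] in
lemma half {A A1 A2 : Set Z} (s : St A) (h1 : A1 ⊆ A) (h2 : A2 ⊆ A) (h : A ⊆ A1 ∪ A2) {w : Z}
    (w1 : w ∈ closure A1) (w2 : w ∈ closure A2) (k1 : A1 ⊆ Iic w) (k2 : A2 ⊆ Ici w) :
    ∃ C ⊆ A1, C.Countable ∧ w ∈ closure C := by
  by_cases k : w ∈ A1
  · exact ⟨{w}, by simpa, countable_singleton w, subset_closure rfl⟩
  obtain ⟨C, c1, c2⟩ := s w (closure_mono (fun a ha => And.intro (h1 ha)
    (lt_of_le_of_ne (k1 ha) fun e => k (e ▸ ha))) w1) (closure_mono (subset_inter h2 k2) w2)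
  exact ⟨C, fun a ha => (h (c1 ha).1).resolve_right fun e => (c1 ha).2.not_ge (k2 e), c2⟩

variable [CompactSpace Z]

lemma gap {A A1 A2 : Set Z} (s1 : St A) (s2 : St (Z := Zᵒᵈ) A) (h1 : A1 ⊆ A) (h2 : A2 ⊆ A)
    (h : A ⊆ A1 ∪ A2) : ∃ C1 ⊆ A1, ∃ C2 ⊆ A2, ∃ P : Set (Z × Z), C1.Countable ∧ C2.Countable ∧
      P.Countable ∧ ∀ x y, x < y → C1 ⊆ Iic x → C2 ⊆ Ici y → x ∈ closure A1 → y ∈ closure A2 →
        ∃ p ∈ P, x ≤ p.1 ∧ p.1 < p.2 ∧ p.2 ≤ y := by
  by_cases k : ∃ a ∈ A1, ∃ b ∈ A2, b ≤ a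
  · obtain ⟨a, a1, b, b1, k⟩ := k
    exact ⟨{a}, by simpa, {b}, by simpa, ∅, countable_singleton _, countable_singleton _,
      countable_empty, fun x y h k1 k2 => absurd ((k2 rfl).trans (k.trans (k1 rfl))) h.not_ge⟩
  push Not at k
  by_cases n : A1.Nonempty ∧ A2.Nonempty
  swap
  · exact ⟨∅, empty_subset _, ∅, empty_subset _, ∅, countable_empty, countable_empty,
      countable_empty, fun x y _ _ _ k1 k2 => absurd ⟨closure_nonempty_iff.1 ⟨_, k1⟩,
        closure_nonempty_iff.1 ⟨_, k2⟩⟩ n⟩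
  obtain ⟨u, u1, u2⟩ := isClosed_closure.isCompact.exists_isGreatest n.1.closure
  obtain ⟨v, v1, v2⟩ := isClosed_closure.isCompact.exists_isLeast n.2.closure
  have : u ≤ v := closure_minimal (fun a ha => closure_minimal (fun b hb => (k a ha b hb).le)
    isClosed_Ici v1) isClosed_Iic u1
  rcases this.lt_or_eq with l | rfl
  · exact ⟨∅, empty_subset _, ∅, empty_subset _, {(u, v)}, countable_empty, countable_empty,
      countable_singleton _, fun x y _ _ _ k1 k2 => ⟨_, rfl, u2 k1, l, v2 k2⟩⟩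
  obtain ⟨C1, c1, c2, c3⟩ := half s1 h1 h2 h u1 v1 (subset_closure.trans u2)
    (subset_closure.trans v2)
  obtain ⟨C2, d1, d2, d3⟩ := half (Z := Zᵒᵈ) s2 h2 h1 (h.trans_eq (union_comm _ _)) v1 u1
    (subset_closure.trans v2) (subset_closure.trans u2)
  exact ⟨C1, c1, C2, d1, ∅, c2, d2, countable_empty, fun x y h k1 k2 => absurd (le_trans
    (closure_minimal k2 (isClosed_Ici (a := y)) d3) (closure_minimal k1 isClosed_Iic c3)) h.not_ge⟩

include he in
theorem line (hd : Dense {x | (support (e x)).Countable}) {g : V → Z} (hg : Continuous g)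
    (hs : Surjective g) (s1 : St (g '' {x | (support (e x)).Countable}))
    (s2 : St (Z := Zᵒᵈ) (g '' {x | (support (e x)).Countable})) :
    ∃ (Λ : Type) (h : Z → Λ → ℝ), IsEmbedding h ∧
      ∀ d, (support (e d)).Countable → (support (h (g d))).Countable := by
  classical
  set D := {x | (support (e x)).Countable}
  have : ∀ p : Z × Z, ∃ φ : C(Z, ℝ), p.1 < p.2 → EqOn φ 0 (Iic p.1) ∧ EqOn φ 1 (Ici p.2) :=
    fun p => by
      by_cases h : p.1 < p.2
      · obtain ⟨φ, h1, h2, -⟩ := exists_continuous_zero_one_of_isClosed isClosed_Iic isClosed_Ici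
          (Iic_disjoint_Ici.2 h.not_ge)
        exact ⟨φ, fun _ => ⟨h1, h2⟩⟩
      · exact ⟨0, fun k => absurd k h⟩
  choose φ hφ using this
  choose E e1 e2 e3 using net he hd
  let N := fun (H : Finset Γ) (n : ℕ) (W : Set V) =>
    {d ∈ D | ∃ a ∈ W, ∀ γ ∈ H, dist (e d γ) (e a γ) < 1 / (n + 1)}
  have nn : ∀ H n W, D ⊆ N H n W ∪ N H n (E H n \ W) := fun H n W d hd => by
    obtain ⟨a, a1, a2⟩ := e3 H n d
    exact (em (a ∈ W)).imp (fun h => ⟨hd, a, h, a2⟩) fun h => ⟨hd, a, ⟨a1, h⟩, a2⟩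
  have lift : ∀ (S : Set V) (C : Set Z), C ⊆ g '' S → C.Countable →
      ∃ B ⊆ S, B.Countable ∧ g '' B = C := fun S C h1 h2 => by
    have := h2.to_subtype
    choose a a1 a2 using fun c : C => h1 c.2
    exact ⟨range a, range_subset_iff.2 a1, countable_range a, by
      rw [← range_comp, show g ∘ a = Subtype.val from funext a2, Subtype.range_coe]⟩
  choose C1 c1 C2 c2 P c3 c4 c5 c6 using fun H n W => gap s1 s2 (image_mono (sep_subset _ _))
    (image_mono (sep_subset _ _)) ((image_mono (nn H n W)).trans_eq (image_union _ _ _))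
  choose B1 b1 b2 b3 using fun H n W => lift _ _ (c1 H n W) (c3 H n W)
  choose B2 d1 d2 d3 using fun H n W => lift _ _ (c2 H n W) (c4 H n W)
  let T := fun H : Finset Γ => ⋃ G ∈ (H.powerset : Set (Finset Γ)), ⋃ n, E G n
  have t1 : ∀ H, (T H).Countable := fun H => H.powerset.countable_toSet.biUnion fun G _ =>
    countable_iUnion fun n => (e2 G n).countable
  refine vimg he hd hg hs (fun j => (φ j).continuous) (f0 := fun G => Sum.inl ''
    (⋃ n, ⋃ W ∈ {W | W ⊆ E G.toLeft n}, ⋃ a ∈ W ∪ (B1 G.toLeft n W ∪ B2 G.toLeft n W),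
      support (e a)) ∪ Sum.inr '' ((g '' T G.toLeft) ×ˢ (g '' T G.toLeft) ∪
        ⋃ n, ⋃ W ∈ {W | W ⊆ E G.toLeft n}, P G.toLeft n W)) (fun G => ((countable_iUnion fun n =>
      (e2 _ n).finite_subsets.countable.biUnion fun W hW => (((e2 _ n).subset hW).countable.union
        ((b2 _ _ _).union (d2 _ _ _))).biUnion fun a ha => ha.elim (fun h => e1 _ _ (hW h))
          fun h => h.elim (fun h => (b1 _ _ _ h).1) fun h => (d1 _ _ _ h).1).image _).union
    (((((t1 _).image g).prod ((t1 _).image g)).union (countable_iUnion fun n =>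
      (e2 _ n).finite_subsets.countable.biUnion fun W _ => c5 _ _ _)).image _)) fun S hS => ?_
  have cl := fun (H : Finset Γ) (h : ↑H ⊆ Sum.inl ⁻¹' S) => hS (H.image Sum.inl)
    (by simpa [image_subset_iff] using h)
  simp only [show ∀ H : Finset Γ, (H.image (Sum.inl : Γ → Γ ⊕ Z × Z)).toLeft = H from
    fun H => by ext; simp, union_subset_iff, image_subset_iff, iUnion_subset_iff] at cl
  set R := Sum.inl ⁻¹' S
  let Q := ⋃ H ∈ {H : Finset Γ | ↑H ⊆ R}, ⋃ n, E H n
  have q0 : ∀ a ∈ Q, a ∈ D ∧ support (e a) ⊆ R := by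
    simp only [Q, mem_iUnion]
    exact fun a ⟨H, h, n, k⟩ => ⟨e1 _ _ k, (cl H h).1 n _ (Subset.refl _) a (Or.inl k)⟩
  have q1 : ∀ z, support (e z) ⊆ R → z ∈ closure Q := fun z hz => by
    obtain ⟨y, y1, y2⟩ := ind he (E := Q) (S := R) (p := e z) fun G hG k => by
      obtain ⟨a, a1, a2⟩ := e3 G k z
      have : a ∈ Q := mem_biUnion hG (mem_iUnion.2 ⟨k, a1⟩)
      exact ⟨a, this, (q0 a this).2, fun γ h => dist_comm (e z γ) _ ▸ a2 γ h⟩
    rwa [← he.injective (y2.trans (indicator_eq_self.2 hz))]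
  suffices h : ∀ x y, support (e x) ⊆ R → support (e y) ⊆ R → g x < g y →
      ∃ p, .inr p ∈ S ∧ g x ≤ p.1 ∧ p.1 < p.2 ∧ p.2 ≤ g y by
    have : ∀ x y, support (e x) ⊆ R → support (e y) ⊆ R →
        (∀ j, .inr j ∈ S → φ j (g x) = φ j (g y)) → g y ≤ g x := fun x y hx hy k =>
      not_lt.1 fun l => by
        obtain ⟨p, p1, p2, p3, p4⟩ := h x y hx hy l
        simpa [(hφ p p3).1 p2, (hφ p p3).2 p4] using k p p1
    exact fun x y hx hy k => (this y x hy hx fun j hj => (k j hj).symm).antisymm (this x y hx hy k)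
  intro x y hx hy l
  by_cases k : ∃ a ∈ Q, ∃ b ∈ Q, g x < g a ∧ g a < g b ∧ g b ≤ g y
  · simp only [Q, mem_iUnion] at k
    obtain ⟨a, ⟨H, h1, a1⟩, b, ⟨H', h2, b1⟩, k1, k2, k3⟩ := k
    exact ⟨(g a, g b), (cl (H ∪ H') (by simpa using ⟨h1, h2⟩)).2.1 ⟨⟨a, mem_biUnion (x := H)
      (Finset.mem_powerset.2 Finset.subset_union_left) (mem_iUnion.2 a1), rfl⟩, b, mem_biUnion
        (x := H') (Finset.mem_powerset.2 Finset.subset_union_right) (mem_iUnion.2 b1), rfl⟩,
      k1.le, k2, k3⟩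
  obtain ⟨z, hz, z1, z2, z3⟩ : ∃ z, support (e z) ⊆ R ∧ g x < g z ∧ g z ≤ g y ∧
      ∀ t ∈ Q, g t ∉ Ioo (g x) (g z) := by
    by_cases k' : ∃ t ∈ Q, g t ∈ Ioo (g x) (g y)
    · obtain ⟨t, t1, t2⟩ := k'
      exact ⟨t, (q0 t t1).2, t2.1, t2.2.le, fun s s1 s2 => k ⟨s, s1, t, t1, s2.1, s2.2, t2.2.le⟩⟩
    · exact ⟨y, hy, l, le_rfl, fun t t1 t2 => k' ⟨t, t1, t2⟩⟩
  have z4 : ∀ t, support (e t) ⊆ R → g t ∉ Ioo (g x) (g z) := fun t ht =>
    closure_minimal z3 (isOpen_Ioo.preimage hg).isClosed_compl (q1 t ht)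
  obtain ⟨G, n, hG⟩ := sepfin he (isClosed_Iic.preimage hg) (isClosed_Ici.preimage hg)
    ((Iic_disjoint_Ici.2 z1.not_ge).preimage g)
  let H := G.filter (· ∈ R)
  have hH : ↑H ⊆ R := fun γ h => (Finset.mem_filter.1 h).2
  let W := {a ∈ E H n | g a ≤ g x}
  have ne : ∀ s t, support (e s) ⊆ R → support (e t) ⊆ R → g s ≤ g x → g z ≤ g t →
      ¬ ∀ γ ∈ H, dist (e s γ) (e t γ) < 1 / (n + 1) := fun s t hs ht h1 h2 h => by
    obtain ⟨γ, g1, g2⟩ := hG s h1 t h2
    by_cases r : γ ∈ R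
    · exact g2.not_gt (h γ (Finset.mem_filter.2 ⟨g1, r⟩))
    · rw [notMem_support.1 fun k => r (hs k), notMem_support.1 fun k => r (ht k), dist_self] at g2
      exact g2.not_gt (by positivity)
  have es : ∀ a ∈ E H n, support (e a) ⊆ R := fun a h => (cl H hH).1 n _ (Subset.refl _) a (Or.inl h)
  have n1 : ∀ d ∈ N H n W, support (e d) ⊆ R → g d ≤ g x := fun d ⟨_, a, a1, a2⟩ hd =>
    not_lt.1 fun h => ne a d (es a a1.1) hd a1.2 (not_lt.1 fun h' => z4 d hd ⟨h, h'⟩)
      fun γ k => dist_comm (e d γ) _ ▸ a2 γ k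
  have n2 : ∀ d ∈ N H n (E H n \ W), support (e d) ⊆ R → g z ≤ g d := fun d ⟨_, a, a1, a2⟩ hd =>
    not_lt.1 fun h => ne d a hd (es a a1.1) (not_lt.1 fun h' => z4 d hd ⟨h', h⟩) (not_lt.1
      fun h' => z4 a (es a a1.1) ⟨not_le.1 fun k => a1.2 ⟨a1.1, k⟩, h'⟩) a2
  obtain ⟨p, p1, p2, p3, p4⟩ := c6 H n W _ _ z1
    (b3 H n W ▸ forall_mem_image.2 fun a h => n1 a (b1 _ _ _ h)
      ((cl H hH).1 n W (sep_subset _ _) a (Or.inr (Or.inl h))))
    (d3 H n W ▸ forall_mem_image.2 fun a h => n2 a (d1 _ _ _ h)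
      ((cl H hH).1 n W (sep_subset _ _) a (Or.inr (Or.inr h))))
    (image_closure_subset_closure_image hg (mem_image_of_mem g (closure_mono (fun t ht =>
      (nn H n W (q0 t ht.2).1).resolve_right fun k => (n2 t k (q0 t ht.2).2).not_gt ht.1)
      ((isOpen_Iio.preimage hg).inter_closure ⟨z1, q1 x hx⟩))))
    (image_closure_subset_closure_image hg (mem_image_of_mem g (closure_mono (fun t ht =>
      (nn H n W (q0 t ht.2).1).resolve_left fun k => (n1 t k (q0 t ht.2).2).not_gt ht.1)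
      ((isOpen_Ioi.preimage hg).inter_closure ⟨z1, q1 z hz⟩))))
  exact ⟨p, (cl H hH).2.2 n W (sep_subset _ _) p1, p2, p3, p4.trans z2⟩

end

include he in
theorem main (hd : Dense {x | (support (e x)).Countable}) {K : Type} [LinearOrder K]
    [TopologicalSpace K] [OrderTopology K] {f : V → K} (hf : Continuous f) (hs : Surjective f) :
    ∃ (L : Type) (_ : LinearOrder L) (_ : TopologicalSpace L) (_ : OrderTopology L)
      (_ : CompactSpace L), (∃ (Γ : Type) (h : L → (Γ → ℝ)), IsEmbedding h ∧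
        Dense (h ⁻¹' {x | {γ | x γ ≠ 0}.Countable})) ∧
      ∃ g : L → K, Continuous g ∧ Surjective g ∧ Monotone g := by
  classical
  set D := {x | (support (e x)).Countable}
  let U : K × Bool → Set K := fun i => if i.2 then Ici i.1 else Ioi i.1
  have u1 : ∀ i, IsUpperSet (U i) := fun i => by
    simp only [U]; split_ifs; exacts [isUpperSet_Ici _, isUpperSet_Ioi _]
  have u2 : ∀ i, Ioi i.1 ⊆ U i ∧ U i ⊆ Ici i.1 := fun i => by
    simp only [U]; split_ifs <;> simp [Ioi_subset_Ici_self]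
  let P := fun W => closure (D ∩ f ⁻¹' W)
  let X := fun i => {x | Disjoint (P (U i)) (P (U i)ᶜ) ∧ x ∈ P (U i)}
  have x1 : ∀ i, IsClopen (X i) := fun i => by
    by_cases h : Disjoint (P (U i)) (P (U i)ᶜ)
    · have : P (U i) = (P (U i)ᶜ)ᶜ := h.subset_compl_right.antisymm (compl_subset_iff_union.2 (by
        rw [← closure_union, ← inter_union_distrib_left, ← preimage_union, compl_union_self,
          preimage_univ, inter_univ, hd.closure_eq]))
      simp only [X, h, true_and]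
      exact ⟨isClosed_closure, by exact this ▸ isClosed_closure.isOpen_compl⟩
    · simp [X, h, isClopen_empty]
  let F : V → K × (K × Bool → ℝ) := fun x => (f x, fun i => (X i).indicator 1 x)
  have hF : Continuous F := hf.prodMk (continuous_pi fun i =>
    (x1 i).continuous_indicator continuous_const)
  have f1 : ∀ x y, (∀ i, x ∈ X i → y ∈ X i) → (F x).2 ≤ (F y).2 := fun x y h i => by
    by_cases k : x ∈ X i
    · simp [F, k, h i k]
    · exact (indicator_of_notMem k _).trans_le (indicator_nonneg (fun _ _ => zero_le_one) y)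
  have f2 : ∀ x y, f x < f y → F x ≤ F y := fun x y h => ⟨h.le, f1 _ _ fun i k => ⟨k.1,
    closure_mono (fun _ h => And.intro h.2 ((u2 i).1 h.1)) ((isOpen_Ioi.preimage hf).inter_closure
      ⟨LE.le.trans_lt (closure_minimal (t := f ⁻¹' Ici i.1) (fun _ h => (u2 i).2 h.2)
        (isClosed_Ici.preimage hf) k.2) h,
        hd y⟩)⟩⟩
  have f3 : ∀ x y, F x ≤ F y ∨ F y ≤ F x := fun x y => by
    rcases lt_trichotomy (f x) (f y) with h | h | h
    · exact Or.inl (f2 _ _ h)
    · by_contra! k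
      obtain ⟨i, i1, i2⟩ : ∃ i, x ∈ X i ∧ y ∉ X i := by
        by_contra! n; exact k.1 ⟨h.le, f1 _ _ n⟩
      obtain ⟨j, j1, j2⟩ : ∃ i, y ∈ X i ∧ x ∉ X i := by
        by_contra! n; exact k.2 ⟨h.ge, f1 _ _ n⟩
      exact ((u1 i).total (u1 j)).elim (fun s => j2 ⟨j1.1, closure_mono (inter_subset_inter_right _
        (preimage_mono s)) i1.2⟩) fun s => i2 ⟨i1.1, closure_mono (inter_subset_inter_right _
          (preimage_mono s)) j1.2⟩
    · exact Or.inr (f2 _ _ h)
  let Z := range F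
  let : LinearOrder Z := { (inferInstance : PartialOrder Z) with
    le_total := fun ⟨_, x, rfl⟩ ⟨_, y, rfl⟩ => f3 x y
    toDecidableLE := Classical.decRel _ }
  have : CompactSpace Z := isCompact_iff_compactSpace.1 (isCompact_range hF)
  have : OrderTopology Z := ordtop
  let g : V → Z := rangeFactorization F
  have hg : Continuous g := hF.subtype_mk _
  let π : Z → K := fun z => z.1.1
  have π1 : Continuous π := continuous_fst.comp continuous_subtype_val
  have π2 : Monotone π := fun _ _ h => h.1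
  have xd : ∀ d ∈ D, ∀ i, d ∈ X i ↔ Disjoint (P (U i)) (P (U i)ᶜ) ∧ f d ∈ U i := fun d hd i =>
    and_congr_right fun h => ⟨fun k => by_contra fun n => disjoint_left.1 h k
      (subset_closure ⟨hd, n⟩), fun k => subset_closure ⟨hd, k⟩⟩
  have π3 : InjOn π (g '' D) := by
    rintro _ ⟨a, ha, rfl⟩ _ ⟨b, hb, rfl⟩ (h : f a = f b)
    exact Subtype.ext (Prod.ext h (le_antisymm (f1 _ _ fun i => by rw [xd a ha, xd b hb, h]; exact id)
      (f1 _ _ fun i => by rw [xd a ha, xd b hb, h]; exact id)))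
  have π4 : ∀ i, Disjoint (P (U i)) (P (U i)ᶜ) → Disjoint (closure (g '' D ∩ π ⁻¹' U i))
      (closure (g '' D ∩ π ⁻¹' (U i)ᶜ)) := fun i h => by
    have c : Continuous fun z : Z => z.1.2 i :=
      (continuous_apply i).comp (continuous_snd.comp continuous_subtype_val)
    refine Disjoint.mono (closure_minimal ?_ (isClosed_eq c (continuous_const (y := 1))))
      (closure_minimal ?_ (isClosed_eq c (continuous_const (y := 0))))
      (disjoint_left.2 fun z (h1 : _ = _) (h2 : _ = _) => one_ne_zero (h1.symm.trans h2))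
    · rintro _ ⟨⟨d, hd, rfl⟩, k⟩
      exact indicator_of_mem ((xd d hd i).2 ⟨h, k⟩) _
    · rintro _ ⟨⟨d, hd, rfl⟩, k⟩
      exact indicator_of_notMem (fun n => k ((xd d hd i).1 n).2) _
  obtain ⟨Λ, h, h1, h2⟩ := line he hd hg rangeFactorization_surjective
    (star π1 π2 π3 fun b => by
      by_contra! k
      refine k.1 (by simpa [U] using (π4 (b, true) (by
        simp only [U, if_true, compl_Ici]
        exact (cut he hf (fun _ => id) k.2).symm)).symm))
    (star (Z := Zᵒᵈ) (K := Kᵒᵈ) π1 π2.dual π3 fun (b : K) => by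
      by_contra! k
      have := π4 (b, false)
      simp only [U, Bool.false_eq_true, if_false, compl_Ioi] at this
      exact k.1 (this (cut (K := Kᵒᵈ) he hf (fun _ => id) k.2)))
  exact ⟨Z, inferInstance, inferInstance, inferInstance, inferInstance, ⟨Λ, h, h1,
    (rangeFactorization_surjective.denseRange.dense_image hg hd).mono (forall_mem_image.2 h2)⟩,
    π, π1, fun y => (hs y).elim fun x h => ⟨g x, h⟩, π2⟩

end H5L
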