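import Pool.Agent.Lib.helper5.Face

/-! An involution of a Cantor cube with no invariant dense Sigma-subset. -/

open Set Topology Filter H5C

namespace H5VI

lemma fixpt {K Γ : Type} [TopologicalSpace K] [CompactSpace K] {φ : K → Γ → ℝ}
    (hφ : IsEmbedding φ) {h : K → K} (hh : Continuous h)
    (hd : Dense {x | {γ | φ x γ ≠ 0}.Countable})
    (hi : ∀ x, {γ | φ x γ ≠ 0}.Countable → {γ | φ (h x) γ ≠ 0}.Countable) {W : Set K}
    (hW : IsClopen W) {y : K} (hy : y ∈ W) (hf : h y = y) :
    ∃ a ∈ W, h a = a ∧ {γ | φ a γ ≠ 0}.Countable := by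
  classical
  have : ∀ (G : Finset Γ) (k : ℕ), ∃ a ∈ W, {γ | φ a γ ≠ 0}.Countable ∧
      (∀ γ ∈ G, dist (φ a γ) (φ y γ) < 1 / (k + 1)) ∧
      ∀ γ ∈ G, dist (φ (h a) γ) (φ y γ) < 1 / (k + 1) := fun G k => by
    have o := (isOpen_box G (φ y) (1 / (k + 1))).preimage hφ.continuous
    have p : ∀ γ ∈ G, dist (φ y γ) (φ y γ) < 1 / ((k : ℝ) + 1) := fun γ _ => by
      rw [dist_self]; exact Nat.one_div_pos_of_nat
    obtain ⟨a, ⟨a1, a2, a3⟩, a4⟩ := hd.inter_open_nonempty _
      (hW.isOpen.inter (o.inter (o.preimage hh))) ⟨y, hy, p, by rw [mem_preimage, hf]; exact p⟩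
    exact ⟨a, a1, a4, a2, a3⟩
  choose a a1 a2 a3 a4 using this
  obtain ⟨S, hS, cl⟩ := hull (fun G => ⋃ k, {γ | φ (a G k) γ ≠ 0} ∪ {γ | φ (h (a G k)) γ ≠ 0})
    fun G => countable_iUnion fun k => (a2 G k).union (hi _ (a2 G k))
  let j : K → Γ ⊕ Γ → ℝ := fun x => Sum.elim (φ x) (φ (h x))
  have hj : Continuous j := continuous_pi fun i => by
    rcases i with i | i
    exacts [(continuous_apply i).comp hφ.continuous,
      (continuous_apply i).comp (hφ.continuous.comp hh)]
  obtain ⟨b, hb, e⟩ : Sum.elim (S.indicator (φ y)) (S.indicator (φ y)) ∈ j '' W := by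
    refine (hW.isClosed.isCompact.image hj).isClosed.closure_subset
      (mem_closure_iff.2 fun U hU hz => ?_)
    obtain ⟨G, ε, hε, hG⟩ := pi_nhds hU hz
    obtain ⟨k, hk⟩ := exists_nat_one_div_lt hε
    let G' := (G.image (Sum.elim id id)).filter (· ∈ S)
    have c := cl G' fun γ hγ => (Finset.mem_filter.1 hγ).2
    refine ⟨_, hG _ fun i hi => ?_, a G' k, a1 _ _, rfl⟩
    have m := Finset.mem_image_of_mem (Sum.elim id id) hi
    rcases i with i | i <;> by_cases s : i ∈ S
    · simpa [j, s] using (a3 G' k i (Finset.mem_filter.2 ⟨m, s⟩)).trans hk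
    · have : φ (a G' k) i = 0 := by_contra fun n => s (c (mem_iUnion.2 ⟨k, Or.inl n⟩))
      simpa [j, s, this] using hε
    · simpa [j, s] using (a4 G' k i (Finset.mem_filter.2 ⟨m, s⟩)).trans hk
    · have : φ (h (a G' k)) i = 0 := by_contra fun n => s (c (mem_iUnion.2 ⟨k, Or.inr n⟩))
      simpa [j, s, this] using hε
  refine ⟨b, hb, hφ.injective (funext fun γ =>
    (congrFun e (Sum.inr γ)).trans (congrFun e (Sum.inl γ)).symm), hS.mono fun γ hγ => ?_⟩
  by_contra s
  exact hγ ((congrFun e (Sum.inl γ)).trans (indicator_of_notMem s _))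

lemma subseq {K Γ : Type} [TopologicalSpace K] [CompactSpace K] {φ : K → Γ → ℝ}
    (hφ : IsEmbedding φ) (b : ℕ → K) (hb : ∀ n, {γ | φ (b n) γ ≠ 0}.Countable) :
    ∃ (s : ℕ → ℕ) (c : K), StrictMono s ∧ Tendsto (b ∘ s) atTop (𝓝 c) := by
  have hS := (countable_iUnion hb).to_subtype
  have hj : IsClosedEmbedding fun (x : closure (range b)) (γ : ⋃ n, {γ | φ (b n) γ ≠ 0}) =>
      φ x γ := by
    have : CompactSpace (closure (range b)) :=
      isCompact_iff_compactSpace.1 isClosed_closure.isCompact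
    refine (continuous_pi fun γ => (continuous_apply _).comp
      (hφ.continuous.comp continuous_subtype_val)).isClosedEmbedding fun x y e =>
        Subtype.ext (hφ.injective (funext fun γ => ?_))
    by_cases s : γ ∈ ⋃ n, {γ | φ (b n) γ ≠ 0}
    · exact congrFun e ⟨γ, s⟩
    · have : closure (range b) ⊆ {x | φ x γ = 0} := closure_minimal
        (range_subset_iff.2 fun n => by_contra fun h => s (mem_iUnion.2 ⟨n, h⟩))
        (isClosed_eq ((continuous_apply γ).comp hφ.continuous) continuous_const)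
      exact (this x.2).trans (this y.2).symm
  have := hj.isInducing.firstCountableTopology
  have : CompactSpace (closure (range b)) :=
    isCompact_iff_compactSpace.1 isClosed_closure.isCompact
  obtain ⟨c, s, h1, h2⟩ := CompactSpace.tendsto_subseq
    fun n => (⟨b n, subset_closure ⟨n, rfl⟩⟩ : closure (range b))
  exact ⟨s, c.1, h1, (continuous_subtype_val.tendsto c).comp h2⟩

abbrev I := Set ℕ ⊕ ℕ × Set ℕ

abbrev K := I → Bool

open Classical in
noncomputable def h (x : K) : K := Sum.elim (fun S => x (Sum.inl S)) fun p =>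
  xor (x (Sum.inr p)) (x (Sum.inl {p.1}) && xor (x (Sum.inl p.2)) (decide (p.1 ∈ p.2)))

lemma h_cont : Continuous h := continuous_pi fun i => by
  rcases i with S | p
  · exact continuous_apply _
  · classical
    exact (continuous_of_discreteTopology (f := fun z : Bool × Bool × Bool =>
      xor z.1 (z.2.1 && xor z.2.2 (decide (p.1 ∈ p.2))))).comp
      (f := fun x : K => (x (Sum.inr p), x (Sum.inl {p.1}), x (Sum.inl p.2))) (by fun_prop)

lemma h_inv (x : K) : h (h x) = x := funext fun i => by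
  rcases i with S | p <;> simp [h]

lemma vald : ∃ φ : K → I → ℝ, IsEmbedding φ ∧ Dense {x | {γ | φ x γ ≠ 0}.Countable} := by
  classical
  refine ⟨fun x i => if x i = true then 1 else 0, (Continuous.isClosedEmbedding
    (continuous_pi fun i => (continuous_of_discreteTopology
      (f := fun b : Bool => if b = true then (1 : ℝ) else 0)).comp (continuous_apply i))
    fun x y e => funext fun i => ?_).isEmbedding, dense_iff_inter_open.2 fun U hU ⟨x, hx⟩ => ?_⟩
  · have := congrFun e i
    cases hx : x i <;> cases hy : y i <;> simp_all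
  · obtain ⟨G, t, h1, h2⟩ := isOpen_pi_iff.1 hU x hx
    refine ⟨G.piecewise x fun _ => false, h2 fun i hi => ?_,
      G.countable_toSet.mono fun i hi => by_contra fun n => hi ?_⟩
    · rw [G.piecewise_eq_of_mem _ _ hi]; exact (h1 i hi).2
    · simp [G.piecewise_eq_of_notMem _ _ n]

theorem main {Γ : Type} {φ : K → Γ → ℝ} (hφ : IsEmbedding φ)
    (hd : Dense {x | {γ | φ x γ ≠ 0}.Countable}) :
    ¬ ∀ x, {γ | φ x γ ≠ 0}.Countable → {γ | φ (h x) γ ≠ 0}.Countable := by
  classical
  intro hi
  choose b b1 b2 b3 using fun n : ℕ => fixpt hφ h_cont hd hi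
    (W := {x | x (Sum.inl {n}) = true})
    ((isClopen_discrete {true}).preimage (continuous_apply (Sum.inl {n} : I)))
    (y := Sum.elim (fun S => decide (n ∈ S)) fun _ => false) (by simp) (funext fun i => by
      rcases i with S | p
      · rfl
      · by_cases e : n = p.1 <;> simp [h, e])
  have e : ∀ n S, b n (Sum.inl S) = decide (n ∈ S) := fun n S => by
    have h1 := congrFun (b2 n) (Sum.inr (n, S))
    have h2 : b n (Sum.inl {n}) = true := b1 n
    simp only [h, Sum.elim_inr, h2, Bool.true_and] at h1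
    revert h1
    cases b n (Sum.inr (n, S)) <;> cases b n (Sum.inl S) <;> cases decide (n ∈ S) <;> simp
  obtain ⟨s, c, s1, s2⟩ := subseq hφ b b3
  have t := (tendsto_pi_nhds.1 s2 (Sum.inl (s '' {k | Even k})))
  rw [nhds_discrete, tendsto_pure, eventually_atTop] at t
  obtain ⟨N, hN⟩ := t
  have := (hN (2 * N) (by omega)).trans (hN (2 * N + 1) (by omega)).symm
  simp [e, s1.injective.eq_iff] at this

end H5VI
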