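import Pool.Agent.Lib.helper5.Corson

/-! Linearly ordered continuous images of Valdivia compacta. -/

open Cardinal hiding univ
open Set Filter Topology TopologicalSpace Function

namespace H5L

lemma un {ι α : Type} {s : Set ι} {t : ι → Set α} (hs : #s ≤ ℵ₁) (ht : ∀ i ∈ s, #(t i) ≤ ℵ₁) :
    #(⋃ i ∈ s, t i) ≤ ℵ₁ :=
  (mk_biUnion_le _ _).trans ((mul_le_mul' hs (ciSup_le' fun i => ht _ i.2)).trans_eq
    (mul_eq_self aleph0_lt_aleph_one.le))

lemma cb {α : Type} {s : Set α} (h : s.Countable) : #s ≤ ℵ₁ :=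
  (le_aleph0_iff_set_countable.2 h).trans aleph0_lt_aleph_one.le

lemma un2 {α : Type} {s t : Set α} (hs : #s ≤ ℵ₁) (ht : #t ≤ ℵ₁) : #(s ∪ t : Set α) ≤ ℵ₁ :=
  (mk_union_le _ _).trans (add_le_of_le aleph0_lt_aleph_one.le hs ht)

lemma pig {ι β : Type} [Countable β] {S : Set ι} (h : ℵ₁ < #S) (c : ι → β) :
    ∃ y, ℵ₁ < #{i ∈ S | c i = y} := by
  by_contra! hn
  exact h.not_ge ((mk_le_mk_of_subset fun i hi => mem_biUnion (mem_univ (c i)) (And.intro hi rfl)).trans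
    (un (cb countable_univ) fun y _ => hn y))

lemma delta {ι Γ : Type} (n : ℕ) : ∀ (R : ι → Finset Γ) (S : Set ι), ℵ₁ < #S →
    (∀ i ∈ S, (R i).card ≤ n) → ∃ T ⊆ S, ∃ G : Finset Γ, ℵ₁ < #T ∧
      ∀ γ ∉ G, {i ∈ T | γ ∈ R i}.Subsingleton := by
  classical
  induction n with
  | zero => exact fun R S h1 h2 => ⟨S, subset_rfl, ∅, h1, fun γ _ i hi => by
      simpa [Finset.card_eq_zero.1 (Nat.le_zero.1 (h2 i hi.1))] using hi.2⟩
  | succ n ih =>
    intro R S h1 h2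
    by_cases h : ∃ γ, ℵ₁ < #{i ∈ S | γ ∈ R i}
    · obtain ⟨γ, h⟩ := h
      obtain ⟨T, t1, G, t2, t3⟩ := ih (fun i => (R i).erase γ) _ h fun i hi => by
        rw [Finset.card_erase_of_mem hi.2]; exact Nat.sub_le_of_le_add (h2 i hi.1)
      refine ⟨T, fun i hi => (t1 hi).1, insert γ G, t2, fun c hc => ?_⟩
      rw [Finset.mem_insert, not_or] at hc
      exact (t3 c hc.2).anti fun i hi => ⟨hi.1, Finset.mem_erase.2 ⟨hc.1, hi.2⟩⟩
    obtain ⟨T, ⟨t1, t2⟩, t3⟩ := zorn_subset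
      {T | T ⊆ S ∧ T.Pairwise fun i j => Disjoint (R i) (R j)} fun c c1 c2 =>
        ⟨⋃₀ c, ⟨sUnion_subset fun T hT => (c1 hT).1, (pairwise_sUnion c2.directedOn).2
          fun T hT => (c1 hT).2⟩, fun _ => subset_sUnion_of_mem⟩
    refine ⟨T, t1, ∅, lt_of_not_ge fun k => h1.not_ge ((mk_le_mk_of_subset fun i hi => ?_).trans
      (un2 k (un (t := fun j => ⋃ γ ∈ (R j : Set Γ), {i ∈ S | γ ∈ R i}) k fun j _ =>
        un (cb (R j).countable_toSet) fun γ _ => not_lt.1 fun k => h ⟨γ, k⟩))),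
      fun γ _ i hi j hj => by_contra fun e => Finset.disjoint_left.1 (t2 hi.1 hj.1 e) hi.2 hj.2⟩
    by_contra hn
    have : ∀ j ∈ T, Disjoint (R i) (R j) := fun j hj => Finset.disjoint_left.2 fun γ h1 h2 =>
      hn (Or.inr (mem_biUnion hj (mem_biUnion h2 ⟨hi, h1⟩)))
    exact hn (Or.inl (t3 (y := insert i T) ⟨insert_subset hi t1, t2.insert
      fun j hj _ => ⟨this j hj, (this j hj).symm⟩⟩ (subset_insert _ _) (mem_insert _ _)))

lemma lo {K : Type} [LinearOrder K] (S : Set K) :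
    #{b ∈ S | {c ∈ S | c ≤ b}.Countable} ≤ ℵ₁ := by
  by_contra! hn
  obtain ⟨T, t1, t2⟩ := le_mk_iff_exists_subset.1 hn.le
  refine hn.not_ge ((mk_le_mk_of_subset fun b hb => by_contra fun k => ?_).trans
    (un (t := fun b => {c ∈ S | c ≤ b}) t2.le fun b hb => cb (t1 hb).2))
  exact (t2 ▸ le_aleph0_iff_set_countable.2 (hb.2.mono fun c hc => And.intro (t1 hc).1 (le_of_not_ge
    fun h => k (mem_biUnion hc ⟨hb.1, h⟩)))).not_gt aleph0_lt_aleph_one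

lemma split {K : Type} [LinearOrder K] [TopologicalSpace K] [OrderTopology K] {S Q : Set K}
    (h : ℵ₁ < #S) (hQ : Dense Q) :
    ∃ y ∈ Q, ¬ {c ∈ S | c ≤ y}.Countable ∧ ¬ {c ∈ S | y < c}.Countable := by
  have : (S \ ({b ∈ S | {c ∈ S | c ≤ b}.Countable} ∪ {b ∈ S | {c ∈ S | b ≤ c}.Countable})).Infinite :=
    fun k => h.not_ge ((mk_le_mk_of_subset (subset_sdiff_union _ _)).trans
      (un2 (cb k.countable) (un2 (lo S) (lo (K := Kᵒᵈ) S))))
  obtain ⟨t, t1, t2⟩ := this.exists_subset_card_eq 3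
  have m := (t.orderEmbOfFin t2).strictMono
  have k := fun i => t1 (t.orderEmbOfFin_mem t2 i)
  obtain ⟨y, ⟨y1, y2⟩, y3⟩ := hQ.inter_open_nonempty _ isOpen_Ioo
    ⟨_, m (show 0 < 1 by decide), m (show 1 < 2 by decide)⟩
  exact ⟨y, y3, fun c => (k 0).2 (Or.inl ⟨(k 0).1, c.mono fun _ h => And.intro h.1 (h.2.trans y1.le)⟩),
    fun c => (k 2).2 (Or.inr ⟨(k 2).1, c.mono fun _ h => And.intro h.1 (y2.trans_le h.2)⟩)⟩

variable {V Γ : Type} [TopologicalSpace V] [CompactSpace V] {e : V → Γ → ℝ} (he : IsEmbedding e)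
include he

lemma ind {E : Set V} {S : Set Γ} {p : Γ → ℝ} (h : ∀ G : Finset Γ, ↑G ⊆ S → ∀ k : ℕ, ∃ y ∈ E,
    support (e y) ⊆ S ∧ ∀ γ ∈ G, dist (e y γ) (p γ) < 1 / (k + 1)) :
    ∃ z ∈ closure E, e z = S.indicator p := by
  classical
  refine (isClosed_closure.isCompact.image he.continuous).isClosed.closure_subset
    (mem_closure_iff.2 fun U hU hz => ?_)
  obtain ⟨G, ε, hε, hG⟩ := H5C.pi_nhds hU hz
  obtain ⟨k, hk⟩ := exists_nat_one_div_lt hε
  obtain ⟨y, y0, y1, y2⟩ := h (G.filter (· ∈ S)) (fun γ hγ => (Finset.mem_filter.1 hγ).2) k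
  refine ⟨_, hG _ fun i hi => ?_, y, subset_closure y0, rfl⟩
  by_cases s : i ∈ S
  · simpa [s] using (y2 i (Finset.mem_filter.2 ⟨hi, s⟩)).trans hk
  · simpa [s, notMem_support.1 fun n => s (y1 n)] using hε

omit [CompactSpace V] in
lemma apx {D : Set V} {x : V} (hx : x ∈ closure D) (G : Finset Γ) (k : ℕ) :
    ∃ a ∈ D, ∀ γ ∈ G, dist (e a γ) (e x γ) < 1 / (k + 1) := by
  obtain ⟨a, a1, a2⟩ := mem_closure_iff.1 hx _ ((H5C.isOpen_box G (e x) (1 / (k + 1))).preimage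
    he.continuous) fun _ _ => by simp; positivity
  exact ⟨a, a2, a1⟩

lemma co {D1 D2 : Set V} (h1 : ∀ x ∈ D1, (support (e x)).Countable)
    (h2 : ∀ x ∈ D2, (support (e x)).Countable) {x : V} (x1 : x ∈ closure D1) (x2 : x ∈ closure D2) :
    ∃ E ⊆ D1, E.Countable ∧ ∃ z ∈ closure E, z ∈ closure D2 := by
  choose a a1 a2 using apx he x1
  choose b b1 b2 using apx he x2
  obtain ⟨S, s1, s2⟩ := H5C.hull (fun G => ⋃ k, support (e (a G k)) ∪ support (e (b G k)))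
    fun G => countable_iUnion fun k => (h1 _ (a1 _ _)).union (h2 _ (b1 _ _))
  obtain ⟨z, z1, z2⟩ := ind he (E := ⋃ G ∈ {G : Finset Γ | ↑G ⊆ S}, range (a G)) fun G hG k =>
    ⟨_, mem_biUnion hG ⟨k, rfl⟩, fun γ h => s2 G hG (mem_iUnion.2 ⟨k, Or.inl h⟩), a2 G k⟩
  obtain ⟨w, w1, w2⟩ := ind he fun G hG k =>
    ⟨_, b1 G k, fun γ h => s2 G hG (mem_iUnion.2 ⟨k, Or.inr h⟩), b2 G k⟩
  exact ⟨_, iUnion₂_subset fun G _ => range_subset_iff.2 (a1 G), Countable.biUnion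
    (((countable_ofPred_finite_subset s1).preimage_of_injOn (f := fun G : Finset Γ => (G : Set Γ))
      Finset.coe_injective.injOn).mono fun G hG => And.intro G.finite_toSet hG) fun G _ => countable_range _,
    z, z1, he.injective (w2.trans z2.symm) ▸ w1⟩

lemma sepfin {P Q : Set V} (hP : IsClosed P) (hQ : IsClosed Q) (h : Disjoint P Q) :
    ∃ (G : Finset Γ) (n : ℕ), ∀ x ∈ P, ∀ y ∈ Q, ∃ γ ∈ G, 1 / (n + 1) < dist (e x γ) (e y γ) := by
  classical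
  have ce := fun γ => (continuous_apply γ).comp he.continuous
  obtain ⟨⟨G, n⟩, h⟩ := (hP.prod hQ).isCompact.elim_directed_cover (fun i : Finset Γ × ℕ =>
      ⋃ γ ∈ i.1, {p | 1 / ((i.2 : ℝ) + 1) < dist (e p.1 γ) (e p.2 γ)})
    (fun i => isOpen_biUnion fun γ _ => isOpen_lt continuous_const
      (((ce γ).comp continuous_fst).dist ((ce γ).comp continuous_snd)))
    (fun p hp => by
      obtain ⟨γ, hγ⟩ := ne_iff.1 (he.injective.ne (h.ne_of_mem hp.1 hp.2))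
      obtain ⟨n, hn⟩ := exists_nat_one_div_lt (dist_pos.2 hγ)
      exact mem_iUnion.2 ⟨({γ}, n), mem_biUnion (Finset.mem_singleton_self γ) hn⟩)
    (Monotone.directed_le fun i j (k : i ≤ j) => iUnion₂_subset fun γ hγ p hp => mem_biUnion (k.1 hγ)
      (by exact LE.le.trans_lt (Nat.one_div_le_one_div k.2) (mem_ofPred_eq ▸ hp)))
  exact ⟨G, n, fun x hx y hy => by simpa using h (mk_mem_prod hx hy)⟩

lemma net {D : Set V} (hD : Dense D) (G : Finset Γ) (n : ℕ) : ∃ E ⊆ D, E.Finite ∧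
    ∀ x, ∃ a ∈ E, ∀ γ ∈ G, dist (e x γ) (e a γ) < 1 / (n + 1) := by
  obtain ⟨E, e1, e2, e3⟩ := isCompact_univ.elim_finite_subcover_image (b := D)
    (c := fun a => e ⁻¹' {v | ∀ γ ∈ G, dist (v γ) (e a γ) < 1 / (n + 1)})
    (fun a _ => (H5C.isOpen_box G _ _).preimage he.continuous) fun x _ => by
      obtain ⟨a, a1, a2⟩ := apx he (hD x) G n
      exact mem_biUnion a1 fun γ h => dist_comm (e x γ) _ ▸ a2 γ h
  exact ⟨E, e1, e2, fun x => by simpa using e3 (mem_univ x)⟩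

variable {K : Type} [LinearOrder K] [TopologicalSpace K] [OrderTopology K] {f : V → K}
  (hf : Continuous f) {D : Set V} (hD : ∀ x ∈ D, (support (e x)).Countable)
include hf hD

lemma cut {b : K} (hb : ∀ C ⊆ Iio b, C.Countable → b ∉ closure C) :
    Disjoint (closure (D ∩ f ⁻¹' Iio b)) (closure (D ∩ f ⁻¹' Ici b)) :=
  disjoint_left.2 fun x x1 x2 => by
    obtain ⟨E, e1, e2, z, z1, z2⟩ := co he (fun x h => hD x h.1) (fun x h => hD x h.1) x1 x2
    have k : f '' E ⊆ Iio b := forall_mem_image.2 fun y h => (e1 h).2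
    have k1 := image_closure_subset_closure_image hf (mem_image_of_mem f z1)
    have k2 : b ≤ f z := closure_minimal inter_subset_right (isClosed_Ici.preimage hf) z2
    exact hb _ k (e2.image f) (k2.antisymm (closure_minimal (k.trans Iio_subset_Iic_self)
      isClosed_Iic k1) ▸ k1)

theorem left (hd : Dense D) (hs : Surjective f) :
    #{b : K | ∀ C ⊆ Iio b, C.Countable → b ∉ closure C} ≤ ℵ₁ := by
  by_contra! hn
  choose! R N hR using fun b (hb : ∀ C ⊆ Iio b, C.Countable → b ∉ closure C) =>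
    sepfin he isClosed_closure isClosed_closure (cut he hf hD hb)
  obtain ⟨⟨m, n⟩, h1⟩ := pig hn fun b => ((R b).card, N b)
  obtain ⟨T, t1, G, t2, t3⟩ := delta m R _ h1 fun b hb => (congrArg Prod.fst hb.2).le
  obtain ⟨E, e1, e2, e3⟩ := net he hd G n
  have := e2.to_subtype
  obtain ⟨W, h2⟩ := pig t2 fun b => {a : E | f a < b}
  obtain ⟨_, ⟨x, x1, rfl⟩, x2, x3⟩ := split h2 (hs.denseRange.dense_image hf hd)
  obtain ⟨a, a1, a2⟩ := e3 x
  let B := ⋃ γ ∈ (support (e x) ∪ support (e a)) \ G, {i ∈ T | γ ∈ R i}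
  have hB : B.Countable := (((hD x x1).union (hD a (e1 a1))).mono sdiff_subset).biUnion
    fun γ h => (t3 γ h.2).countable
  have k : ∀ b ∈ T, b ∉ B → ∀ γ ∈ R b, dist (e x γ) (e a γ) < 1 / (N b + 1) := fun b h1 h2 γ h => by
    rw [show N b = n from congrArg Prod.snd (t1 h1).2]
    by_cases g : γ ∈ G
    · exact a2 γ g
    · rw [notMem_support.1 fun k => h2 (mem_biUnion ⟨Or.inl k, g⟩ ⟨h1, h⟩),
        notMem_support.1 fun k => h2 (mem_biUnion ⟨Or.inr k, g⟩ ⟨h1, h⟩), dist_self]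
      positivity
  obtain ⟨b, ⟨⟨b1, b2⟩, b3⟩, b4⟩ := not_subset.1 fun h => x2 (hB.mono h)
  obtain ⟨c, ⟨⟨c1, c2⟩, c3⟩, c4⟩ := not_subset.1 fun h => x3 (hB.mono h)
  by_cases h : (⟨a, a1⟩ : E) ∈ W
  · obtain ⟨γ, g1, g2⟩ := hR b (t1 b1).1 a (subset_closure ⟨e1 a1, by rwa [← b2] at h⟩) x
      (subset_closure ⟨x1, b3⟩)
    exact g2.not_gt (dist_comm (e a γ) _ ▸ k b b1 b4 γ g1)
  · obtain ⟨γ, g1, g2⟩ := hR c (t1 c1).1 x (subset_closure ⟨x1, c3⟩) a
      (subset_closure ⟨e1 a1, not_lt.1 (by rwa [← c2] at h)⟩)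
    exact g2.not_gt (k c c1 c4 γ g1)

theorem chars (hd : Dense D) (hs : Surjective f) :
    #{b : K | ¬ (𝓝 b).IsCountablyGenerated} ≤ ℵ₁ := by
  refine le_trans (mk_le_mk_of_subset ?_)
    (un2 (left he hf hD hd hs) (left (K := Kᵒᵈ) he hf hD hd hs))
  refine fun b hb => by_contra fun hn => hb ?_
  have h1 : ¬ ∀ C ⊆ Iio b, C.Countable → b ∉ closure C := fun h => hn (Or.inl h)
  have h2 : ¬ ∀ C ⊆ Ioi b, C.Countable → b ∉ closure C := fun h => hn (Or.inr h)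
  push Not at h1 h2
  obtain ⟨C, c1, c2, c3⟩ := h1
  obtain ⟨C', d1, d2, d3⟩ := h2
  have := c2.to_subtype
  have := d2.to_subtype
  refine HasCountableBasis.isCountablyGenerated (p := fun _ : C × C' => True)
    (s := fun i => Ioo i.1.1 i.2.1) ⟨⟨fun U => ⟨fun h => ?_, fun ⟨i, _, h⟩ =>
      mem_of_superset (Ioo_mem_nhds (c1 i.1.2) (d1 i.2.2)) h⟩⟩, to_countable _⟩
  obtain ⟨c, hc⟩ := closure_nonempty_iff.1 ⟨_, c3⟩
  obtain ⟨d, hd⟩ := closure_nonempty_iff.1 ⟨_, d3⟩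
  obtain ⟨l, u, ⟨h1, h2⟩, h3⟩ := (mem_nhds_iff_exists_Ioo_subset' ⟨c, c1 hc⟩ ⟨d, d1 hd⟩).1 h
  obtain ⟨c, k1, k2⟩ := mem_closure_iff.1 c3 _ isOpen_Ioi h1
  obtain ⟨d, k3, k4⟩ := mem_closure_iff.1 d3 _ isOpen_Iio h2
  exact ⟨(⟨c, k2⟩, ⟨d, k4⟩), trivial, (Ioo_subset_Ioo k1.le k3.le).trans h3⟩

end H5L
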