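import Mathlib

open MvPolynomial

namespace H5V

variable (K : Type) [Field K]

/-- The ideal `(xy, xz, yz, x^5, y^5, z^5)`. -/
noncomputable def I0 : Ideal (MvPolynomial (Fin 3) K) :=
  Ideal.span {X 0 * X 1, X 0 * X 2, X 1 * X 2, X 0 ^ 5, X 1 ^ 5, X 2 ^ 5}

lemma I0_eq : I0 K = Ideal.span ((fun s => monomial s (1 : K)) ''
    {Finsupp.single 0 1 + Finsupp.single 1 1, Finsupp.single 0 1 + Finsupp.single 2 1,
      Finsupp.single 1 1 + Finsupp.single 2 1, Finsupp.single 0 5, Finsupp.single 1 5,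
      Finsupp.single 2 5}) := by
  simp only [I0, Set.image_insert_eq, Set.image_singleton, X, monomial_mul, monomial_pow, mul_one,
    one_pow, Finsupp.smul_single, smul_eq_mul]

lemma mem_I0 {f : MvPolynomial (Fin 3) K} : f ∈ I0 K ↔ ∀ a ∈ f.support,
    (1 ≤ a 0 ∧ 1 ≤ a 1) ∨ (1 ≤ a 0 ∧ 1 ≤ a 2) ∨ (1 ≤ a 1 ∧ 1 ≤ a 2) ∨ 5 ≤ a 0 ∨ 5 ≤ a 1 ∨ 5 ≤ a 2 := by
  rw [I0_eq, mem_ideal_span_monomial_image]
  simp [Finsupp.le_def, Fin.forall_fin_succ]

lemma homog : ∃ s : Set (MvPolynomial (Fin 3) K), (∀ g ∈ s, ∃ d, g.IsHomogeneous d) ∧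
    I0 K = Ideal.span s := by
  refine ⟨_, fun x hx => ?_, rfl⟩
  simp only [Set.mem_insert_iff, Set.mem_singleton_iff] at hx
  rcases hx with rfl | rfl | rfl | rfl | rfl | rfl
  exacts [⟨2, (isHomogeneous_X K _).mul (isHomogeneous_X K _)⟩,
    ⟨2, (isHomogeneous_X K _).mul (isHomogeneous_X K _)⟩,
    ⟨2, (isHomogeneous_X K _).mul (isHomogeneous_X K _)⟩, ⟨5, (isHomogeneous_X K _).pow 5⟩,
    ⟨5, (isHomogeneous_X K _).pow 5⟩, ⟨5, (isHomogeneous_X K _).pow 5⟩]

lemma mem_vars {σ : Type} {g : MvPolynomial σ K} : g ∈ idealOfVars σ K ↔ constantCoeff g = 0 := by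
  rw [← pow_one (idealOfVars σ K), mem_pow_idealOfVars_iff']
  simp [constantCoeff_eq, Finsupp.degree_eq_zero_iff]

lemma prime_vars {σ : Type} : (idealOfVars σ K).IsPrime := by
  have : idealOfVars σ K = RingHom.ker (constantCoeff : MvPolynomial σ K →+* K) := by
    ext g; rw [mem_vars, RingHom.mem_ker]
  rw [this]; exact RingHom.ker_isPrime _

lemma colon_vars {σ : Type} {J : Ideal (MvPolynomial σ K)} {f : MvPolynomial σ K} (hf : f ∉ J)
    (h : ∀ i, X i * f ∈ J) (g : MvPolynomial σ K) : g ∈ idealOfVars σ K ↔ g * f ∈ J := by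
  have h1 : ∀ g ∈ idealOfVars σ K, g * f ∈ J := fun g hg => by
    have : idealOfVars σ K ≤ Submodule.comap (LinearMap.toSpanSingleton _ _ f) J :=
      Ideal.span_le.2 (by rintro _ ⟨i, rfl⟩; exact h i)
    exact this hg
  refine ⟨h1 g, fun hg => ?_⟩
  by_contra hc
  rw [mem_vars] at hc
  have h2 := h1 (g - C (constantCoeff g)) (by rw [mem_vars]; simp)
  have h3 := J.mul_mem_left (C (constantCoeff g)⁻¹) (J.sub_mem hg h2)
  rw [sub_mul, sub_sub_cancel, ← mul_assoc, ← C_mul, inv_mul_cancel₀ hc, C_1, one_mul] at h3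
  exact hf h3

lemma low {f : MvPolynomial (Fin 3) K} {d : ℕ} (hd : f.IsHomogeneous d) (hf : f ∉ I0 K)
    (h : ∀ i, X i * f ∈ I0 K) : 4 ≤ d := by
  rw [mem_I0] at hf
  push Not at hf
  obtain ⟨a, ha, h0⟩ := hf
  have hdeg := hd.degree_eq_sum_deg_support ha
  have hdeg2 : d = a 0 + a 1 + a 2 := by
    rw [hdeg, ← Fin.sum_univ_three (fun i => a i)]
    exact Finset.sum_subset (Finset.subset_univ _) fun i _ hi => Finsupp.notMem_support_iff.1 hi
  have h1 : ∀ i, Finsupp.single i 1 + a ∈ (X i * f).support := fun i => by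
    rw [mem_support_iff, coeff_X_mul]; exact mem_support_iff.1 ha
  have e0 := (mem_I0 K).1 (h 0) _ (h1 0)
  have e1 := (mem_I0 K).1 (h 1) _ (h1 1)
  have e2 := (mem_I0 K).1 (h 2) _ (h1 2)
  simp at e0 e1 e2
  omega

lemma one : (X 0 ^ 4 : MvPolynomial (Fin 3) K) ∉ I0 K ∧ ∀ i, X i * X 0 ^ 4 ∈ I0 K := by
  classical
  constructor
  · rw [mem_I0, X_pow_eq_monomial, support_monomial]
    simp
  · intro i
    rw [mem_I0, X_pow_eq_monomial, X, monomial_mul, support_monomial]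
    fin_cases i <;> simp

lemma two (k : ℕ) : (X 0 * X 1 * X 2 * (X 0 * X 1) ^ k : MvPolynomial (Fin 3) K) ∉ I0 K ^ (k + 2) ∧
    ∀ i, X i * (X 0 * X 1 * X 2 * (X 0 * X 1) ^ k) ∈ I0 K ^ (k + 2) := by
  have a1 : X 0 * X 1 ∈ I0 K := Ideal.subset_span (by simp)
  have a2 : X 0 * X 2 ∈ I0 K := Ideal.subset_span (by simp)
  have a3 : X 1 * X 2 ∈ I0 K := Ideal.subset_span (by simp)
  constructor
  · intro h
    have h1 : I0 K ≤ idealOfVars (Fin 3) K ^ 2 := fun f hf => by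
      rw [mem_pow_idealOfVars_iff]
      intro a ha
      have := (mem_I0 K).1 hf a ha
      rw [Finsupp.degree_eq_sum, Fin.sum_univ_three]
      omega
    have h2 := Ideal.pow_right_mono h1 (k + 2) h
    rw [← pow_mul] at h2
    simp only [X, monomial_mul, monomial_pow, mul_one, one_pow] at h2
    rw [monomial_mem_pow_idealOfVars_iff _ _ one_ne_zero, Finsupp.degree_eq_sum,
      Fin.sum_univ_three] at h2
    simp at h2
    omega
  · have hk := Ideal.pow_mem_pow a1 k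
    intro i
    rw [pow_add, pow_two]
    fin_cases i
    · convert Ideal.mul_mem_mul hk (Ideal.mul_mem_mul a1 a2) using 1
      simp only [Fin.zero_eta]; ring
    · convert Ideal.mul_mem_mul hk (Ideal.mul_mem_mul a1 a3) using 1
      simp only [Fin.mk_one]; ring
    · convert Ideal.mul_mem_mul hk (Ideal.mul_mem_mul a2 a3) using 1
      simp only [Fin.reduceFinMk]; ring

lemma hom3 : (X 0 * X 1 * X 2 * (X 0 * X 1) ^ 0 : MvPolynomial (Fin 3) K).IsHomogeneous 3 := by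
  rw [pow_zero, mul_one]
  exact ((isHomogeneous_X K _).mul (isHomogeneous_X K _)).mul (isHomogeneous_X K _)

end H5V
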