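import Pool.Agent.Lib.helper5.Cube

/-! Weakly sigma-point-finite families of open sets in `C_p(βD)`. -/

open Set Filter Topology

namespace H5W

variable {D : Type}

lemma kupka {E : ℕ → Set D} (hE : Pairwise fun i j => Disjoint (E i) (E j)) {y : ℕ → Ultrafilter D}
    (hy : ∀ k, E k ∉ y k) : ∃ S : Set ℕ, S.Infinite ∧ ∀ k ∈ S, (⋃ i ∈ S, E i) ∉ y k := by
  by_contra hc
  push Not at hc
  choose k k1 k2 using fun p => hc {k | k.unpair.1 = p} (infinite_of_injective_forall_mem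
    (f := Nat.pair p) (fun a b h => (Nat.pair_eq_pair.1 h).2) fun _ => by simp)
  obtain ⟨_, ⟨p, rfl⟩, h⟩ := hc (range k) (infinite_range_of_injective fun a b h => by
    rw [← k1 a, ← k1 b, h])
  refine hy (k p) (mem_of_superset (inter_mem h (k2 p)) fun d hd => ?_)
  simp only [mem_inter_iff, mem_iUnion] at hd
  obtain ⟨⟨_, ⟨q, rfl⟩, h1⟩, i, h2, h3⟩ := hd
  obtain rfl : k q = i := by_contra fun hn => disjoint_left.1 (hE hn) h1 h3
  rwa [← (show (k q).unpair.1 = p from h2), k1 q]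

lemma half {J : Type} {x y : J → Ultrafilter D} {A : J → Set D} (hx : ∀ j, A j ∈ x j)
    (hy : ∀ j, A j ∉ y j) (V : Ultrafilter J) {S : Set J} (hS : S ∈ V)
    (h : ∀ j ∈ S, {i | A j ∉ x i} ∈ V) :
    ∃ S' ⊆ S, S'.Infinite ∧ ∃ B, ∀ j ∈ S', B ∈ x j ∧ B ∉ y j := by
  obtain ⟨f, f1, f2⟩ := exists_seq_of_forall_finset_exists (· ∈ S) (fun i j => A i ∉ x j)
    fun s hs => by
      obtain ⟨j, h1, h2⟩ := V.nonempty_of_mem
        (inter_mem hS ((biInter_finset_mem s).2 fun i hi => h i (hs i hi)))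
      exact ⟨j, h1, mem_iInter₂.1 h2⟩
  have fi : Function.Injective f := fun a b e => by
    rcases lt_trichotomy a b with h | h | h
    exacts [absurd (e ▸ hx _) (f2 a b h), h, absurd (e ▸ hx _) (f2 b a h)]
  obtain ⟨T, t1, t2⟩ := kupka (disjoint_disjointed fun k => A (f k)) (y := fun k => y (f k))
    fun k h => hy _ (mem_of_superset h (disjointed_le _ k))
  refine ⟨f '' T, image_subset_iff.2 fun k _ => f1 k, t1.image fi.injOn, _,
    forall_mem_image.2 fun k hk => ⟨mem_of_superset ?_ (subset_biUnion_of_mem hk), t2 k hk⟩⟩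
  rw [disjointed_eq_inter_compl]
  exact inter_mem (hx _) ((biInter_mem (finite_Iio k)).2 fun i hi =>
    Ultrafilter.compl_mem_iff_notMem.2 (f2 i k hi))

lemma pair {J : Type} {x y : J → Ultrafilter D} (h : ∀ j, x j ≠ y j) {S : Set J}
    (hS : S.Infinite) : ∃ S' ⊆ S, S'.Infinite ∧ ∃ B, ∀ j ∈ S', B ∈ x j ∧ B ∉ y j := by
  have sep : ∀ u v : Ultrafilter D, u ≠ v → ∃ A ∈ u, A ∉ v := fun u v h => by
    by_contra hc
    push Not at hc
    exact h (Ultrafilter.eq_of_le hc).symm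
  have := hS.cofinite_inf_principal_neBot
  let V := Ultrafilter.of (cofinite ⊓ 𝓟 S)
  have v1 : S ∈ V := Ultrafilter.of_le _ (mem_inf_of_right (mem_principal_self S))
  by_cases e : V.bind x = V.bind y
  · choose A a1 a2 using fun j => sep _ _ (h j)
    rcases V.mem_or_compl_mem {j | A j ∈ V.bind x} with h1 | h1
    · obtain ⟨S', s1, s2, B, hB⟩ := half (x := y) (y := x) (A := fun j => (A j)ᶜ)
        (fun j => Ultrafilter.compl_mem_iff_notMem.2 (a2 j))
        (fun j => Ultrafilter.compl_notMem_iff.2 (a1 j)) V (inter_mem v1 h1) fun j hj => by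
          simp only [Ultrafilter.compl_notMem_iff]
          exact mem_bind'.1 (show A j ∈ V.bind y from e ▸ hj.2)
      exact ⟨S', s1.trans inter_subset_left, s2, Bᶜ, fun j hj =>
        ⟨Ultrafilter.compl_mem_iff_notMem.2 (hB j hj).2, Ultrafilter.compl_notMem_iff.2 (hB j hj).1⟩⟩
    · obtain ⟨S', s1, s2, h⟩ := half a1 a2 V (inter_mem v1 h1) fun j hj =>
        Ultrafilter.compl_mem_iff_notMem.2 fun h => hj.2 (mem_bind'.2 h)
      exact ⟨S', s1.trans inter_subset_left, s2, h⟩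
  · obtain ⟨A, a1, a2⟩ := sep _ _ e
    have : S ∩ ({j | A ∈ x j} ∩ {j | A ∈ y j}ᶜ) ∈ V := inter_mem v1 (inter_mem (mem_bind'.1 a1)
      (Ultrafilter.compl_mem_iff_notMem.2 fun h => a2 (mem_bind'.2 h)))
    exact ⟨_, inter_subset_left, fun hf => Ultrafilter.compl_notMem_iff.2 this
      (Ultrafilter.of_le _ (mem_inf_of_left hf.compl_mem_cofinite)), A, fun j hj => hj.2⟩

lemma chi (B : Set D) : Continuous ({u : Ultrafilter D | B ∈ u}.indicator fun _ => (1 : ℝ)) :=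
  IsClopen.continuous_indicator ⟨ultrafilter_isClosed_basic B, ultrafilter_isOpen_basic B⟩
    continuous_const

lemma common {J : Type} {k : ℕ} (x : J → Fin k ↪ Ultrafilter D) (r : Fin k → ℝ) {S : Set J}
    (hS : S.Infinite) : ∃ S' ⊆ S, S'.Infinite ∧ ∃ f : H5C.Cp (Ultrafilter D),
      ∀ j ∈ S', ∀ a, f.1 (x j a) = r a := by
  classical
  have : ∀ T : Finset (Fin k × Fin k), ∃ S' ⊆ S, S'.Infinite ∧ ∀ p ∈ T, p.1 ≠ p.2 →
      ∃ B, ∀ j ∈ S', B ∈ x j p.1 ∧ B ∉ x j p.2 := fun T => by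
    induction T using Finset.induction_on with
    | empty => exact ⟨S, subset_rfl, hS, by simp⟩
    | insert p T _ ih =>
      obtain ⟨S', s1, s2, s3⟩ := ih
      by_cases h : p.1 = p.2
      · exact ⟨S', s1, s2, Finset.forall_mem_insert _ _ _ |>.2 ⟨fun h' => absurd h h', s3⟩⟩
      obtain ⟨S'', t1, t2, t3⟩ := pair (fun j => (x j).injective.ne h) s2
      refine ⟨S'', t1.trans s1, t2, Finset.forall_mem_insert _ _ _ |>.2 ⟨fun _ => t3, fun q hq h => ?_⟩⟩
      obtain ⟨B, hB⟩ := s3 q hq h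
      exact ⟨B, fun j hj => hB j (t1 hj)⟩
  obtain ⟨S', s1, s2, s3⟩ := this Finset.univ
  choose! B hB using fun a b (h : a ≠ b) => s3 (a, b) (Finset.mem_univ _) h
  refine ⟨S', s1, s2, ⟨fun u => ∑ a, r a * {u | (⋂ b ∈ {b | a ≠ b}, B a b) ∈ u}.indicator
    (fun _ => 1) u, continuous_finsetSum _ fun a _ => continuous_const.mul (chi _)⟩,
    fun j hj a => ?_⟩
  dsimp only
  rw [Finset.sum_eq_single a (fun b _ h => ?_) (by simp), indicator_of_mem, mul_one]
  · exact (biInter_mem (toFinite _)).2 fun b hb => (hB a b hb j hj).1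
  · rw [indicator_of_notMem, mul_zero]
    exact fun h' => (hB b a h j hj).2 (mem_of_superset h' (biInter_subset_of_mem h))

/-- weakly σ-point-finite family -/
def WSPF {Z : Type} (𝒰 : Set (Set Z)) : Prop :=
  ∃ 𝒱 : ℕ → Set (Set Z), (∀ n, 𝒱 n ⊆ 𝒰) ∧
    ∀ z, 𝒰 = ⋃ n ∈ {n | {U | U ∈ 𝒱 n ∧ z ∈ U}.Finite}, 𝒱 n

/-- `T₀`-separating family -/
def T0Sep {Z : Type} (𝒰 : Set (Set Z)) : Prop :=
  ∀ z w : Z, z ≠ w → ∃ U ∈ 𝒰, (z ∈ U ∧ w ∉ U) ∨ (w ∈ U ∧ z ∉ U)

/-- cozero set -/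
def Coz {Z : Type} [TopologicalSpace Z] (U : Set Z) : Prop :=
  ∃ g : Z → ℝ, Continuous g ∧ U = (g ⁻¹' {0})ᶜ

lemma cble {𝒰 : Set (Set (H5C.Cp (Ultrafilter D)))} (h : ∀ U ∈ 𝒰, IsOpen U) (h' : WSPF 𝒰) :
    𝒰.Countable := by
  classical
  obtain ⟨𝒱, -, hv⟩ := h'
  let W : (Σ k, Fin k → ℚ) → Set (Set (H5C.Cp (Ultrafilter D))) := fun τ =>
    {U ∈ 𝒰 | ∃ x : Fin τ.1 ↪ Ultrafilter D, ∀ f : H5C.Cp (Ultrafilter D), (∀ a, f.1 (x a) = τ.2 a) → f ∈ U}
  refine ((countable_iUnion (t := W) fun τ => ?_).insert ∅).mono fun U hU => ?_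
  swap
  · rcases U.eq_empty_or_nonempty with e | ⟨g, hg⟩
    · exact Or.inl e
    obtain ⟨G, ε, h1, h2⟩ := H5C.cp_nhds (h U hU) hg
    choose r hr using fun t : ℝ => exists_rat_near t h1
    refine Or.inr (mem_iUnion.2 ⟨⟨_, fun a => r (g.1 (G.equivFin.symm a))⟩, hU,
      G.equivFin.symm.toEmbedding.trans (Function.Embedding.subtype _), fun f hf =>
        h2 f fun x hx => ?_⟩)
    have := hf (G.equivFin ⟨x, hx⟩)
    simp at this
    rw [this, dist_comm]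
    exact hr _
  by_contra hc
  obtain ⟨U0, u1, u2⟩ : ∃ U0 ∈ W τ, ∀ m, {U ∈ W τ | ∀ n < m, U0 ∈ 𝒱 n → U ∈ 𝒱 n}.Infinite := by
    by_contra hn
    push Not at hn
    refine hc ((Countable.biUnion (t := fun (s : Finset ℕ) _ => {U ∈ W τ | ∀ n ∈ s, U ∈ 𝒱 n})
      (to_countable {s | {U ∈ W τ | ∀ n ∈ s, U ∈ 𝒱 n}.Finite}) fun s hs => hs.countable).mono
      fun U hU => ?_)
    obtain ⟨m, hm⟩ := hn U hU
    exact mem_biUnion (x := (Finset.range m).filter fun n => U ∈ 𝒱 n) (by simpa using hm)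
      ⟨hU, fun n hn => (Finset.mem_filter.1 hn).2⟩
  obtain ⟨f, f1, f2⟩ := exists_seq_of_forall_finset_exists
    (fun p : ℕ × Set _ => p.2 ∈ W τ ∧ ∀ n < p.1, U0 ∈ 𝒱 n → p.2 ∈ 𝒱 n)
    (fun p q => p.1 < q.1 ∧ p.2 ≠ q.2) fun s _ => by
      obtain ⟨U, h1, h2⟩ := (u2 (s.sup Prod.fst + 1)).exists_notMem_finset (s.image Prod.snd)
      exact ⟨(_, U), h1, fun p hp => ⟨Nat.lt_succ_of_le (Finset.le_sup (f := Prod.fst) hp),
        fun e => h2 (Finset.mem_image.2 ⟨p, hp, e⟩)⟩⟩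
  choose x hx using fun m => (f1 m).1.2
  obtain ⟨S, -, s2, g, hg⟩ := common x (fun a => τ.2 a) infinite_univ
  obtain ⟨n, n1, n2⟩ := mem_iUnion₂.1 ((hv g).le u1.1)
  refine (s2.sdiff (finite_Iic n)) (Finite.of_finite_image (f := fun m => (f m).2)
    (Finite.subset n1 (image_subset_iff.2 fun m hm => ⟨(f1 m).2 n ((not_le.1 hm.2).trans_le
      (StrictMono.le_apply (f := fun m => (f m).1) fun a b h => (f2 a b h).1)) n2,
      hx m g (hg m hm.1)⟩)) fun a _ b _ e => ?_)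
  rcases lt_trichotomy a b with h | h | h
  exacts [absurd e (f2 a b h).2, h, absurd e.symm (f2 b a h).2]

theorem main [Uncountable D] (𝒰 : Set (Set (H5C.Cp (Ultrafilter D)))) (h1 : ∀ U ∈ 𝒰, Coz U)
    (h2 : T0Sep 𝒰) : ¬ WSPF 𝒰 := fun h3 => by
  have hc := cble (fun U hU => by
    obtain ⟨g, g1, rfl⟩ := h1 U hU
    exact (isClosed_singleton.preimage g1).isOpen_compl) h3
  choose! g g1 g2 using h1
  let o : H5C.Cp (Ultrafilter D) := ⟨0, continuous_const⟩
  have : ∀ U ∈ 𝒰, ∀ m : ℕ, ∃ G : Finset (Ultrafilter D), ∀ f : H5C.Cp (Ultrafilter D),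
      (∀ x ∈ G, f.1 x = 0) → dist (g U f) (g U o) < 1 / (m + 1) := fun U hU m => by
    obtain ⟨G, ε, e1, e2⟩ := H5C.cp_nhds (f := o) (isOpen_lt ((g1 U hU).dist
      (continuous_const (y := g U o))) (continuous_const (y := (1 / (m + 1) : ℝ))))
      (by simp; positivity)
    exact ⟨G, fun f hf => e2 f fun x hx => by simpa [hf x hx, o] using e1⟩
  choose! G hG using this
  obtain ⟨d, -, hd⟩ := not_subset.1 fun h => not_countable_univ (α := D) (Countable.mono h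
    ((hc.biUnion fun U _ => countable_iUnion fun m => (G U m).countable_toSet).preimage
      Ultrafilter.pure_injective))
  let f : H5C.Cp (Ultrafilter D) := ⟨_, chi {d}⟩
  obtain ⟨U, hU, h⟩ := h2 f o fun e => by
    simpa [f, o] using congrFun (congrArg Subtype.val e) (pure d)
  have : g U f = g U o := by
    refine eq_of_forall_dist_le fun ε hε => ?_
    obtain ⟨m, hm⟩ := exists_nat_one_div_lt hε
    refine ((hG U hU m f fun x hx => indicator_of_notMem (s := {u : Ultrafilter D | {d} ∈ u}) (a := x)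
      (fun h => hd ?_) fun _ => (1 : ℝ)).trans hm).le
    obtain ⟨_, rfl, rfl⟩ := Ultrafilter.eq_pure_of_finite_mem (finite_singleton d) h
    exact mem_biUnion hU (mem_iUnion.2 ⟨m, hx⟩)
  rw [g2 U hU] at h
  simp [this] at h

end H5W
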