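import Mathlib

set_option autoImplicit false

open Set Filter Topology

namespace H5Wh

noncomputable def e : (ℕ × ℕ) ⊕ ℕ ≃ ℕ := Denumerable.eqv _

noncomputable def c (t : ℝ) : ℝ := max 0 (min 1 t)

lemma c_cont : Continuous c := by unfold c; fun_prop
lemma c_nonneg (t : ℝ) : 0 ≤ c t := le_max_left _ _
lemma c_le (t : ℝ) : c t ≤ 1 := max_le zero_le_one (min_le_left _ _)
lemma c_one {t : ℝ} (h : 1 ≤ t) : c t = 1 := by
  unfold c; rw [min_eq_left h]; simp
lemma c_zero {t : ℝ} (h : t ≤ 0) : c t = 0 := by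
  unfold c; exact max_eq_left ((min_le_right _ _).trans h)

noncomputable def psi (d : ℕ × ℕ) (y : ℕ → ℝ) : ℝ := c (y (e (Sum.inl d)))

noncomputable def s (n : ℕ) (y : ℕ → ℝ) : ℝ :=
  (∑ k ∈ Finset.range (n + 1), psi (n, k) y) / (n + 1)

noncomputable def th (n : ℕ) (y : ℕ → ℝ) : ℝ :=
  ∏ j ∈ Finset.range (n + 1), c (max (y (e (Sum.inr j)) - n) (2 - (j + 1) * s n y))

noncomputable def f (d : ℕ × ℕ) (y : ℕ → ℝ) : ℝ := psi d y * th d.1 y

noncomputable def pos (d : ℕ × ℕ) : ℝ := c (d.2 / (d.1 + 1))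

lemma psi_cont (d : ℕ × ℕ) : Continuous (psi d) := c_cont.comp (continuous_apply _)

lemma s_cont (n : ℕ) : Continuous (s n) :=
  (continuous_finsetSum _ fun k _ => psi_cont (n, k)).div_const _

lemma th_cont (n : ℕ) : Continuous (th n) := by
  refine continuous_finsetProd _ fun j _ => c_cont.comp ?_
  have := s_cont n
  fun_prop

lemma f_cont (d : ℕ × ℕ) : Continuous (f d) := (psi_cont d).mul (th_cont _)

lemma th_nonneg (n : ℕ) (y : ℕ → ℝ) : 0 ≤ th n y :=
  Finset.prod_nonneg fun _ _ => c_nonneg _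

lemma th_le (n : ℕ) (y : ℕ → ℝ) : th n y ≤ 1 :=
  Finset.prod_le_one (fun _ _ => c_nonneg _) fun _ _ => c_le _

lemma f_nonneg (d : ℕ × ℕ) (y : ℕ → ℝ) : 0 ≤ f d y := mul_nonneg (c_nonneg _) (th_nonneg _ _)

abbrev C := {g : (ℕ → ℝ) → ℝ // Continuous g}

noncomputable def F (d : ℕ × ℕ) : C := ⟨fun y => f d y + pos d, (f_cont d).add continuous_const⟩

open Classical in
noncomputable def mu (N : Set (ℕ × ℕ)) (n : ℕ) : ℝ :=
  (((Finset.range (n + 1)).filter fun k => (n, k) ∈ N).card : ℝ) / (n + 1)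

lemma mu_nonneg (N : Set (ℕ × ℕ)) (n : ℕ) : 0 ≤ mu N n := by
  unfold mu; positivity

lemma mu_mono {N M : Set (ℕ × ℕ)} (h : N ⊆ M) (n : ℕ) : mu N n ≤ mu M n := by
  classical
  unfold mu
  refine div_le_div_of_nonneg_right ?_ (by positivity)
  refine Nat.cast_le.2 (Finset.card_le_card fun k hk => ?_)
  simp only [Finset.mem_filter] at hk ⊢
  exact ⟨hk.1, h hk.2⟩

lemma mu_union (N M : Set (ℕ × ℕ)) (n : ℕ) : mu (N ∪ M) n ≤ mu N n + mu M n := by
  classical
  unfold mu
  rw [← add_div]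
  refine div_le_div_of_nonneg_right ?_ (by positivity)
  rw [← Nat.cast_add]
  refine Nat.cast_le.2 ((Finset.card_le_card fun k hk => ?_).trans (Finset.card_union_le _ _))
  simp only [Finset.mem_filter, Finset.mem_union, mem_union] at hk ⊢
  tauto

def Z (N : Set (ℕ × ℕ)) : Prop := Tendsto (mu N) atTop (𝓝 0)

lemma Z.mono {N M : Set (ℕ × ℕ)} (hM : Z M) (h : N ⊆ M) : Z N :=
  squeeze_zero (mu_nonneg N) (mu_mono h) hM

lemma Z.union {N M : Set (ℕ × ℕ)} (hN : Z N) (hM : Z M) : Z (N ∪ M) :=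
  squeeze_zero (mu_nonneg _) (mu_union N M) (by simpa using hN.add hM)

lemma Z_empty : Z ∅ := by
  unfold Z
  have : mu ∅ = fun _ => 0 := by funext n; simp [mu]
  rw [this]; exact tendsto_const_nhds

def filt : Filter (ℕ × ℕ) :=
  Filter.comk Z Z_empty (fun _ ht _ hs => ht.mono hs) (fun _ hs _ ht => hs.union ht)

lemma mem_filt {N : Set (ℕ × ℕ)} : N ∈ filt ↔ Z Nᶜ := Filter.mem_comk

lemma mu_le_s (y : ℕ → ℝ) {ε : ℝ} (n : ℕ) :
    ε * mu {d | ε ≤ psi d y} n ≤ s n y := by
  classical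
  unfold mu s
  rw [← mul_div_assoc]
  refine div_le_div_of_nonneg_right ?_ (by positivity)
  calc ε * (((Finset.range (n + 1)).filter fun k => (n, k) ∈ {d | ε ≤ psi d y}).card : ℝ)
      = ∑ _k ∈ (Finset.range (n + 1)).filter fun k => (n, k) ∈ {d | ε ≤ psi d y}, ε := by
        rw [Finset.sum_const, nsmul_eq_mul, mul_comm]
    _ ≤ ∑ k ∈ (Finset.range (n + 1)).filter fun k => (n, k) ∈ {d | ε ≤ psi d y}, psi (n, k) y :=
        Finset.sum_le_sum fun k hk => (Finset.mem_filter.1 hk).2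
    _ ≤ _ := Finset.sum_le_sum_of_subset_of_nonneg (Finset.filter_subset _ _)
        fun _ _ _ => c_nonneg _

lemma Z_f (y : ℕ → ℝ) {ε : ℝ} (hε : 0 < ε) : Z {d | ε ≤ f d y} := by
  classical
  unfold Z
  rw [Metric.tendsto_atTop]
  intro η hη
  obtain ⟨j, hj⟩ := exists_nat_gt (2 / (η * ε))
  obtain ⟨m, hm⟩ := exists_nat_gt (y (e (Sum.inr j)))
  refine ⟨max j m, fun n hn => ?_⟩
  rw [Real.dist_eq, sub_zero, abs_of_nonneg (mu_nonneg _ _)]
  by_cases h0 : th n y = 0
  · have : mu {d | ε ≤ f d y} n = 0 := by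
      unfold mu
      rw [Finset.filter_eq_empty_iff.2]
      · simp
      · intro k _ hk
        have hk' : ε ≤ psi (n, k) y * th n y := hk
        rw [h0, mul_zero] at hk'
        linarith
    rw [this]; exact hη
  · have hjn : j ∈ Finset.range (n + 1) := Finset.mem_range.2 (by omega)
    have h1 := Finset.prod_ne_zero_iff.1 h0 j hjn
    have h2 : 0 < 2 - (j + 1) * s n y := by
      by_contra hc
      apply h1
      apply c_zero
      refine max_le ?_ (not_lt.1 hc)
      have : (m : ℝ) ≤ n := Nat.cast_le.2 (by omega)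
      linarith
    have h3 : mu {d | ε ≤ f d y} n ≤ mu {d | ε ≤ psi d y} n := by
      refine mu_mono (fun d hd => ?_) n
      have hd' : ε ≤ psi d y * th d.1 y := hd
      exact hd'.trans (mul_le_of_le_one_right (c_nonneg _) (th_le _ _))
    have h4 := mu_le_s y (ε := ε) n
    have h5 : 2 < j * (η * ε) := (div_lt_iff₀ (by positivity)).1 hj
    by_contra hc
    have h6 : η ≤ mu {d | ε ≤ psi d y} n := (not_lt.1 hc).trans h3
    have h7 : ε * η ≤ s n y := (mul_le_mul_of_nonneg_left h6 hε.le).trans h4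
    have h8 : (j + 1) * (ε * η) ≤ (j + 1) * s n y := mul_le_mul_of_nonneg_left h7 (by positivity)
    have h9 : 0 < ε * η := by positivity
    nlinarith

lemma f_tendsto (y : ℕ → ℝ) : Tendsto (fun d => f d y) filt (𝓝 0) := by
  rw [Metric.tendsto_nhds]
  intro ε hε
  refine mem_filt.2 ((Z_f y hε).mono fun d hd => ?_)
  simp only [mem_compl_iff, mem_ofPred_eq, Real.dist_eq, sub_zero, not_lt,
    abs_of_nonneg (f_nonneg d y)] at hd
  exact hd

def K (a : ℝ) : C := ⟨fun _ => a, continuous_const⟩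

lemma lim_pos (U : Ultrafilter (ℕ × ℕ)) : ∃ a, Tendsto pos U (𝓝 a) := by
  obtain ⟨a, -, ha⟩ := (isCompact_Icc (a := (0 : ℝ)) (b := 1)).ultrafilter_le_nhds (U.map pos)
    (by
      rw [le_principal_iff]
      exact Filter.mem_map.2 (univ_mem' fun d => ⟨c_nonneg _, c_le _⟩))
  exact ⟨a, ha⟩

lemma exists_const {N : Set (ℕ × ℕ)} (hN : ¬ Z N) :
    ∃ a, K a ∈ closure (F '' N) ∧ a ∈ closure (pos '' N) := by
  have hne : (filt ⊓ 𝓟 N).NeBot := by
    rw [← Filter.forall_mem_nonempty_iff_neBot]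
    intro t ht
    by_contra hc
    rw [not_nonempty_iff_eq_empty] at hc
    subst hc
    rw [Filter.mem_inf_principal] at ht
    apply hN
    refine (mem_filt.1 ht).mono fun d hd => ?_
    simp [hd]
  let U := Ultrafilter.of (filt ⊓ 𝓟 N)
  have hU : (U : Filter _) ≤ filt ⊓ 𝓟 N := Ultrafilter.of_le _
  have hNU : N ∈ (U : Filter _) := le_principal_iff.1 (hU.trans inf_le_right)
  obtain ⟨a, ha⟩ := lim_pos U
  refine ⟨a, ?_, ?_⟩
  · refine mem_closure_of_tendsto (f := F) (b := (U : Filter _)) ?_ ?_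
    · rw [tendsto_subtype_rng, tendsto_pi_nhds]
      intro y
      have := ((f_tendsto y).mono_left (hU.trans inf_le_left)).add ha
      simpa [F, K] using this
    · filter_upwards [hNU] with d hd using mem_image_of_mem _ hd
  · refine mem_closure_of_tendsto ha ?_
    filter_upwards [hNU] with d hd using mem_image_of_mem _ hd

noncomputable def pt (a : ℕ × ℕ → ℝ) (b : ℕ → ℝ) : ℕ → ℝ := fun i => Sum.elim a b (e.symm i)

@[simp] lemma pt_inl (a : ℕ × ℕ → ℝ) (b : ℕ → ℝ) (d : ℕ × ℕ) : pt a b (e (Sum.inl d)) = a d := by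
  simp [pt]

@[simp] lemma pt_inr (a : ℕ × ℕ → ℝ) (b : ℕ → ℝ) (j : ℕ) : pt a b (e (Sum.inr j)) = b j := by
  simp [pt]

lemma F_ne_K (d : ℕ × ℕ) (a : ℝ) : F d ≠ K a := by
  intro h
  have h1 := congrFun (congrArg Subtype.val h) (pt (fun _ => 0) fun _ => 0)
  have h2 := congrFun (congrArg Subtype.val h) (pt (fun _ => 1) fun _ => d.1 + 1)
  simp only [F, K, f, psi, pt_inl, c_zero le_rfl, c_one le_rfl] at h1 h2
  have h3 : th d.1 (pt (fun _ => 1) fun _ => d.1 + 1) = 1 := by
    refine Finset.prod_eq_one fun j _ => c_one (le_max_of_le_left ?_)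
    simp
  rw [h3] at h2
  linarith

lemma mu_near (a δ : ℝ) (hδ : 0 < δ) (n : ℕ) :
    mu {d | |pos d - a| < δ} n ≤ 2 * δ + 1 / (n + 1) := by
  classical
  unfold mu
  set S := (Finset.range (n + 1)).filter fun k => (n, k) ∈ {d | |pos d - a| < δ} with hS
  have hn : (0 : ℝ) < n + 1 := by positivity
  rw [div_le_iff₀ hn]
  have e1 : (2 * δ + 1 / (n + 1)) * (n + 1) = 2 * δ * (n + 1) + 1 := by field_simp
  rw [e1]
  rcases S.eq_empty_or_nonempty with h0 | hne
  · rw [h0]; simp; positivity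
  · have key : ∀ k ∈ S, |(k : ℝ) / (n + 1) - a| < δ := by
      intro k hk
      obtain ⟨h1, h2⟩ := Finset.mem_filter.1 hk
      have h3 : |c (k / (n + 1)) - a| < δ := h2
      have h4 : (k : ℝ) ≤ n + 1 := by exact_mod_cast (Finset.mem_range.1 h1).le
      have h5 : c (k / (n + 1)) = k / (n + 1) := by
        unfold c
        rw [min_eq_right ((div_le_one hn).2 h4), max_eq_right (by positivity)]
      rwa [h5] at h3
    have h1 : S ⊆ Finset.Icc (S.min' hne) (S.max' hne) := fun k hk =>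
      Finset.mem_Icc.2 ⟨S.min'_le k hk, S.le_max' k hk⟩
    have h2 := Finset.card_le_card h1
    rw [Nat.card_Icc] at h2
    have h3 : S.min' hne ≤ S.max' hne := S.min'_le _ (S.max'_mem hne)
    have h4 : (S.card : ℝ) + S.min' hne ≤ S.max' hne + 1 := by
      have : S.card + S.min' hne ≤ S.max' hne + 1 := by omega
      exact_mod_cast this
    have h5 := abs_lt.1 (key _ (S.min'_mem hne))
    have h6 := abs_lt.1 (key _ (S.max'_mem hne))
    have h7 : ((S.max' hne : ℕ) : ℝ) / (n + 1) - ((S.min' hne : ℕ) : ℝ) / (n + 1) < 2 * δ := by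
      linarith [h5.1, h6.2]
    rw [← sub_div, div_lt_iff₀ hn] at h7
    linarith

lemma exists_far {N : Set (ℕ × ℕ)} (hN : ¬ Z N) (a : ℝ) :
    ∃ δ > 0, ¬ Z (N ∩ {d | δ ≤ |pos d - a|}) := by
  by_contra hc
  push Not at hc
  apply hN
  unfold Z
  rw [Metric.tendsto_nhds]
  intro η hη
  have h1 := (hc (η / 4) (by positivity)).add tendsto_one_div_add_atTop_nhds_zero_nat
  rw [add_zero] at h1
  filter_upwards [h1.eventually (gt_mem_nhds (show (0 : ℝ) < η / 2 by positivity))] with n hn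
  rw [Real.dist_eq, sub_zero, abs_of_nonneg (mu_nonneg _ _)]
  have h2 : mu N n ≤ mu ((N ∩ {d | η / 4 ≤ |pos d - a|}) ∪ {d | |pos d - a| < η / 4}) n := by
    refine mu_mono (fun d hd => ?_) n
    rcases le_or_gt (η / 4) |pos d - a| with h | h
    · exact Or.inl ⟨hd, h⟩
    · exact Or.inr h
  have h3 := mu_union (N ∩ {d | η / 4 ≤ |pos d - a|}) {d | |pos d - a| < η / 4} n
  have h4 := mu_near a (η / 4) (by positivity) n
  linarith

def T : Set (ℕ × ℕ) := {d | d.2 ≤ d.1}

lemma not_Z_T : ¬ Z T := by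
  classical
  intro h
  have : mu T = fun _ => 1 := by
    funext n
    unfold mu
    rw [Finset.filter_true_of_mem]
    · simp only [Finset.card_range, Nat.cast_add, Nat.cast_one]
      exact div_self (by positivity)
    · intro k hk
      exact Nat.lt_succ_iff.1 (Finset.mem_range.1 hk)
  unfold Z at h
  rw [this] at h
  exact one_ne_zero (tendsto_nhds_unique tendsto_const_nhds h)

lemma closed_of_Z {N : Set (ℕ × ℕ)} (hT : N ⊆ T) (hN : Z N) {x : C} (hx : x ∈ closure (F '' N)) :
    x ∈ F '' N := by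
  classical
  obtain ⟨U, hNU, hU⟩ : ∃ U : Ultrafilter (ℕ × ℕ), N ∈ U ∧ Tendsto F U (𝓝 x) := by
    have hne : (comap F (𝓝 x) ⊓ 𝓟 N).NeBot := by
      rw [← Filter.forall_mem_nonempty_iff_neBot]
      intro t ht
      rw [Filter.mem_inf_principal, Filter.mem_comap] at ht
      obtain ⟨V, hV, hsub⟩ := ht
      obtain ⟨_, hz, d, hd, rfl⟩ := mem_closure_iff_nhds.1 hx V hV
      exact ⟨d, hsub hz hd⟩
    have hle := Ultrafilter.of_le (comap F (𝓝 x) ⊓ 𝓟 N)
    exact ⟨_, le_principal_iff.1 (hle.trans inf_le_right),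
      tendsto_iff_comap.2 (hle.trans inf_le_left)⟩
  by_cases hfree : ∀ m, {d : ℕ × ℕ | m ≤ d.1} ∈ U
  · exfalso
    obtain ⟨a, ha⟩ := lim_pos U
    have hev : ∀ y, Tendsto (fun d => f d y + pos d) U (𝓝 (x.1 y)) := fun y =>
      (tendsto_pi_nhds.1 (tendsto_subtype_rng.1 hU) y)
    have hb : ∀ j : ℕ, ∃ n0 : ℕ, ∀ n ≥ n0, mu N n ≤ 1 / (j + 1) := fun j =>
      eventually_atTop.1 ((hN.eventually (ge_mem_nhds (show (0 : ℝ) < 1 / (j + 1) by positivity))))
    choose n0 hn0 using hb
    let b : ℕ → ℝ := fun j => n0 j + 1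
    let y : ℕ → ℕ → ℝ := fun m => pt (fun d => if d ∈ N ∧ m ≤ d.1 then 1 else 0) b
    have hy : Tendsto y atTop (𝓝 (pt (fun _ => 0) b)) := by
      rw [tendsto_pi_nhds]
      intro i
      obtain ⟨i, rfl⟩ := e.surjective i
      rcases i with d | j
      · simp only [y, pt_inl]
        refine tendsto_const_nhds.congr' ?_
        filter_upwards [eventually_gt_atTop d.1] with m hm
        rw [if_neg]; omega
      · simp only [y, pt_inr]; exact tendsto_const_nhds
    have h0 : x.1 (pt (fun _ => 0) b) = a := by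
      refine tendsto_nhds_unique (hev _) (ha.congr fun d => ?_)
      simp [f, psi, c_zero]
    have h1 : ∀ m, x.1 (y m) = 1 + a := by
      intro m
      refine tendsto_nhds_unique (hev _) ((tendsto_const_nhds.add ha).congr' ?_)
      filter_upwards [hNU, hfree m] with d hd hm
      have hm' : m ≤ d.1 := hm
      have hs : s d.1 (y m) = mu N d.1 := by
        unfold s mu
        congr 1
        rw [Finset.card_filter, Nat.cast_sum]
        refine Finset.sum_congr rfl fun k _ => ?_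
        simp only [psi, y, pt_inl, hm', and_true]
        split_ifs
        · simp [c_one]
        · simp [c_zero]
      have ht : th d.1 (y m) = 1 := by
        refine Finset.prod_eq_one fun j _ => c_one ?_
        rcases le_or_gt (n0 j) d.1 with h | h
        · refine le_max_of_le_right ?_
          rw [hs]
          have := hn0 j _ h
          rw [le_div_iff₀ (by positivity)] at this
          linarith
        · refine le_max_of_le_left ?_
          simp only [y, pt_inr, b]
          have : (d.1 : ℝ) ≤ n0 j := by exact_mod_cast h.le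
          linarith
      simp only [f, ht, psi, y, pt_inl, hd, hm', and_self, if_true, c_one le_rfl, mul_one]
    have h2 := (x.2.tendsto _).comp hy
    have h3 : (x.1 ∘ y) = fun _ => 1 + a := funext h1
    rw [h3, h0] at h2
    have := tendsto_nhds_unique tendsto_const_nhds h2
    linarith
  · push Not at hfree
    obtain ⟨m, hm⟩ := hfree
    have h1 := Filter.inter_mem hNU (Ultrafilter.compl_mem_iff_notMem.2 hm)
    have hfin : (N ∩ {d : ℕ × ℕ | m ≤ d.1}ᶜ).Finite := by
      refine ((finite_Iio m).prod (finite_Iio m)).subset fun d hd => ?_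
      have h2 : d.2 ≤ d.1 := hT hd.1
      have h3 : ¬ m ≤ d.1 := hd.2
      exact ⟨by simp only [mem_Iio]; omega, by simp only [mem_Iio]; omega⟩
    obtain ⟨d, hd, rfl⟩ := Ultrafilter.eq_pure_of_finite_mem hfin h1
    exact ⟨d, hd.1, tendsto_nhds_unique (tendsto_pure_nhds F d) hU⟩

theorem main : ¬ (∀ A : Set C, ¬ IsClosed A →
      ∃ B : Set C, B ⊆ A ∧ ∃ x : C, x ∉ A ∧ closure B = insert x B) := by
  intro h
  have hK : ∀ a, K a ∉ F '' T := fun a ⟨d, _, hd⟩ => F_ne_K d a hd
  obtain ⟨B, hB, x, hx, hcl⟩ := h (F '' T) fun hc => by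
    obtain ⟨a, ha, -⟩ := exists_const not_Z_T
    exact hK a (hc.closure_subset ha)
  set N := T ∩ F ⁻¹' B with hNd
  have hBN : F '' N = B := by
    rw [hNd, image_inter_preimage]
    exact inter_eq_right.2 hB
  by_cases hZ : Z N
  · have : x ∈ closure (F '' N) := by rw [hBN, hcl]; exact mem_insert _ _
    exact hx (image_mono inter_subset_left (closed_of_Z inter_subset_left hZ this))
  · obtain ⟨a, ha, -⟩ := exists_const hZ
    obtain ⟨δ, hδ, hZ'⟩ := exists_far hZ a
    obtain ⟨a', ha', hfar⟩ := exists_const hZ'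
    have h1 : δ ≤ |a' - a| := by
      refine closure_minimal (t := {z : ℝ | δ ≤ |z - a|}) ?_ ?_ hfar
      · rintro _ ⟨d, hd, rfl⟩; exact hd.2
      · exact isClosed_le continuous_const (by fun_prop)
    have ha'' := closure_mono (image_mono inter_subset_left) ha'
    rw [hBN, hcl] at ha ha''
    have e1 : K a = x := ha.resolve_right fun hh => hK a (hB hh)
    have e2 : K a' = x := ha''.resolve_right fun hh => hK a' (hB hh)
    have e3 : a' = a := congrFun (congrArg Subtype.val (e2.trans e1.symm)) 0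
    rw [e3] at h1
    simp at h1
    linarith

end H5Wh
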